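import Mathlib

set_option autoImplicit false

namespace Pool.Agent.Lib.MP_fbbbeb_an.Word

open Finset

variable {A : Type*} [CommRing A] [Algebra ℝ A] {I : Type*}

/-- iterated derivation along a word; the head letter is the outermost one -/
def dw (d : I → Derivation ℝ A A) : List I → A → A
  | [], f => f
  | i :: u, f => d i (dw d u f)

/-- product of the radii along a word -/
def rw (r : I → ℝ) (u : List I) : ℝ := (u.map r).prod

@[simp] theorem dw_nil (d : I → Derivation ℝ A A) (f : A) : dw d [] f = f := rfl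
@[simp] theorem dw_cons (d : I → Derivation ℝ A A) (i : I) (u : List I) (f : A) :
    dw d (i :: u) f = d i (dw d u f) := rfl
theorem dw_append (d : I → Derivation ℝ A A) (u v : List I) (f : A) :
    dw d (u ++ v) f = dw d u (dw d v f) := by
  induction u with
  | nil => rfl
  | cons i u ih => simp [ih]
theorem dw_concat (d : I → Derivation ℝ A A) (u : List I) (i : I) (f : A) :
    dw d (u ++ [i]) f = dw d u (d i f) := by simp [dw_append]
theorem dw_add (d : I → Derivation ℝ A A) (u : List I) (f g : A) :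
    dw d u (f + g) = dw d u f + dw d u g := by
  induction u with
  | nil => rfl
  | cons i u ih => simp [ih]
theorem dw_zero (d : I → Derivation ℝ A A) (u : List I) : dw d u (0 : A) = 0 := by
  induction u with
  | nil => rfl
  | cons i u ih => simp [ih]
theorem dw_smul (d : I → Derivation ℝ A A) (u : List I) (c : ℝ) (f : A) :
    dw d u (c • f) = c • dw d u f := by
  induction u with
  | nil => rfl
  | cons i u ih => simp [ih]
theorem dw_neg (d : I → Derivation ℝ A A) (u : List I) (f : A) : dw d u (-f) = -dw d u f := by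
  induction u with
  | nil => rfl
  | cons i u ih => simp [ih]
theorem dw_sum {κ : Type*} (d : I → Derivation ℝ A A) (u : List I) (s : Finset κ) (f : κ → A) :
    dw d u (∑ k ∈ s, f k) = ∑ k ∈ s, dw d u (f k) := by
  induction u with
  | nil => rfl
  | cons i u ih => simp [ih]

@[simp] theorem rw_nil (r : I → ℝ) : rw r [] = 1 := rfl
@[simp] theorem rw_cons (r : I → ℝ) (i : I) (u : List I) : rw r (i :: u) = r i * rw r u := by
  simp [rw]
theorem rw_append (r : I → ℝ) (u v : List I) : rw r (u ++ v) = rw r u * rw r v := by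
  simp [rw]
theorem rw_nonneg {r : I → ℝ} (hr : ∀ i, 0 ≤ r i) (u : List I) : 0 ≤ rw r u := by
  induction u with
  | nil => simp
  | cons i u ih => simpa using mul_nonneg (hr i) ih
theorem rw_pos {r : I → ℝ} (hr : ∀ i, 0 < r i) (u : List I) : 0 < rw r u := by
  induction u with
  | nil => simp
  | cons i u ih => simpa using mul_pos (hr i) ih
theorem rw_smul (c : ℝ) (r : I → ℝ) (u : List I) :
    rw (fun i => c * r i) u = c ^ u.length * rw r u := by
  induction u with
  | nil => simp
  | cons i u ih => simp only [rw_cons, ih, List.length_cons]; ring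
theorem rw_le_mul {ρ r : I → ℝ} {c : ℝ} (h0 : ∀ i, 0 ≤ ρ i) (h : ∀ i, ρ i ≤ c * r i) (u : List I) :
    rw ρ u ≤ c ^ u.length * rw r u := by
  rw [← rw_smul]
  induction u with
  | nil => simp
  | cons i u ih =>
    simp only [rw_cons]
    exact mul_le_mul (h i) ih (rw_nonneg h0 u) ((h0 i).trans (h i))

/-- Leibniz bound with two pending words. -/
theorem leib_aux (d : I → Derivation ℝ A A) (ev : A →ₐ[ℝ] ℝ) {r : I → ℝ} (hr : ∀ i, 0 ≤ r i)
    (f g : A) (α β : ℕ → ℝ) (n : ℕ)
    (hf : ∀ u : List I, u.length ≤ n → |ev (dw d u f)| * rw r u ≤ α u.length)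
    (hg : ∀ u : List I, u.length ≤ n → |ev (dw d u g)| * rw r u ≤ β u.length)
    (u : List I) : ∀ v w : List I, u.length + v.length ≤ n → u.length + w.length ≤ n →
      |ev (dw d u (dw d v f * dw d w g))| * (rw r u * rw r v * rw r w) ≤
      ∑ p ∈ antidiagonal u.length,
        (u.length.choose p.1 : ℝ) * (α (p.1 + v.length) * β (p.2 + w.length)) := by
  induction u using List.reverseRecOn with
  | nil =>
    intro v w hv hw
    have h1 := hf v (by simpa using hv)
    have h2 := hg w (by simpa using hw)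
    have h3 : 0 ≤ |ev (dw d v f)| * rw r v := mul_nonneg (abs_nonneg _) (rw_nonneg hr v)
    have h4 : 0 ≤ |ev (dw d w g)| * rw r w := mul_nonneg (abs_nonneg _) (rw_nonneg hr w)
    have := mul_le_mul h1 h2 h4 (h3.trans h1)
    simp only [dw_nil, map_mul, abs_mul, rw_nil, List.length_nil, Finset.Nat.antidiagonal_zero, sum_singleton,
      Nat.choose_self, Nat.cast_one, zero_add, one_mul]
    linarith
  | append_singleton u i ih =>
    intro v w hv hw
    simp only [List.length_append, List.length_singleton] at hv hw ⊢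
    have e : d i (dw d v f * dw d w g) =
        dw d v f * dw d (i :: w) g + dw d (i :: v) f * dw d w g := by
      simp [Derivation.leibniz, mul_comm]
    have h1 := ih v (i :: w) (by omega) (by simp; omega)
    have h2 := ih (i :: v) w (by simp; omega) (by omega)
    rw [dw_concat, e, dw_add, map_add, rw_append]
    rw [Finset.sum_antidiagonal_choose_succ_mul (fun a b => α (a + v.length) * β (b + w.length))]
    have hR : 0 ≤ rw r u * rw r [i] * rw r v * rw r w :=
      mul_nonneg (mul_nonneg (mul_nonneg (rw_nonneg hr _) (rw_nonneg hr _)) (rw_nonneg hr _))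
        (rw_nonneg hr _)
    refine (mul_le_mul_of_nonneg_right (abs_add_le _ _) hR).trans ?_
    rw [add_mul]
    refine add_le_add ?_ ?_
    · refine le_of_eq_of_le ?_ (h1.trans (le_of_eq ?_))
      · simp only [rw_cons, rw_nil]; ring
      · refine sum_congr rfl fun p _ => ?_
        simp only [List.length_cons]; congr 3; omega
    · refine le_of_eq_of_le ?_ (h2.trans (le_of_eq ?_))
      · simp only [rw_cons, rw_nil]; ring
      · refine sum_congr rfl fun p hp => ?_
        have hp' : p.1 + p.2 = u.length := mem_antidiagonal.1 hp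
        rw [← hp', Nat.choose_symm_add]
        simp only [List.length_cons]; congr 3; omega

/-- Leibniz bound: only words of length at most `u.length` are used. -/
theorem leib (d : I → Derivation ℝ A A) (ev : A →ₐ[ℝ] ℝ) {r : I → ℝ} (hr : ∀ i, 0 ≤ r i)
    (f g : A) (α β : ℕ → ℝ) (u : List I)
    (hf : ∀ v : List I, v.length ≤ u.length → |ev (dw d v f)| * rw r v ≤ α v.length)
    (hg : ∀ v : List I, v.length ≤ u.length → |ev (dw d v g)| * rw r v ≤ β v.length) :
    |ev (dw d u (f * g))| * rw r u ≤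
      ∑ p ∈ antidiagonal u.length, (u.length.choose p.1 : ℝ) * (α p.1 * β p.2) := by
  simpa using leib_aux d ev hr f g α β u.length hf hg u [] [] (by simp) (by simp)

theorem fac_mid (i k : ℕ) : (i + 1).factorial * (k + 1).factorial ≤ (i + k + 1).factorial := by
  induction k with
  | zero => simp
  | succ k ih =>
    rw [Nat.factorial_succ (k + 1), show i + (k + 1) + 1 = (i + k + 1) + 1 by ring,
      Nat.factorial_succ (i + k + 1)]
    calc (i + 1).factorial * ((k + 1 + 1) * (k + 1).factorial)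
        = (k + 1 + 1) * ((i + 1).factorial * (k + 1).factorial) := by ring
      _ ≤ _ := Nat.mul_le_mul (by omega) ih

theorem fac_sum (j : ℕ) :
    ∑ p ∈ antidiagonal j, p.1.factorial * p.2.factorial ≤ 3 * j.factorial := by
  rcases j with _ | _ | m
  · simp
  · simp [Finset.Nat.antidiagonal_succ]
  · rw [Finset.Nat.sum_antidiagonal_succ, Finset.Nat.sum_antidiagonal_succ']
    have h : ∑ p ∈ antidiagonal m, (p.1 + 1).factorial * (p.2 + 1).factorial ≤
        (m + 1) * (m + 1).factorial := by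
      have := Finset.sum_le_card_nsmul (antidiagonal m)
        (fun p => (p.1 + 1).factorial * (p.2 + 1).factorial) (m + 1).factorial (fun p hp => by
          have hp' : p.1 + p.2 = m := mem_antidiagonal.1 hp
          rw [← hp']; exact fac_mid _ _)
      simpa using this
    have h2 : (m + 1 + 1).factorial = (m + 1 + 1) * (m + 1).factorial := Nat.factorial_succ _
    simp only [Nat.factorial_zero, one_mul, mul_one]
    nlinarith [Nat.factorial_pos (m + 1)]

theorem choose_fac_sum (j : ℕ) :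
    ∑ p ∈ antidiagonal j, (j.choose p.1 : ℝ) * ((p.1.factorial : ℝ) ^ 2 * (p.2.factorial : ℝ) ^ 2) ≤
      3 * (j.factorial : ℝ) ^ 2 := by
  have h : ∀ p ∈ antidiagonal j,
      (j.choose p.1 : ℝ) * ((p.1.factorial : ℝ) ^ 2 * (p.2.factorial : ℝ) ^ 2) =
        (j.factorial : ℝ) * ((p.1.factorial * p.2.factorial : ℕ) : ℝ) := by
    intro p hp
    have hp' : p.1 + p.2 = j := mem_antidiagonal.1 hp
    have e : (j.choose p.1 * p.1.factorial * p.2.factorial : ℕ) = j.factorial := by
      have := Nat.add_choose_mul_factorial_mul_factorial p.2 p.1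
      rw [← hp', add_comm p.1 p.2, ← this]; ring
    have e' : (j.choose p.1 : ℝ) * p.1.factorial * p.2.factorial = j.factorial := by
      exact_mod_cast e
    rw [← e']; push_cast; ring
  rw [sum_congr rfl h, ← mul_sum, ← Nat.cast_sum]
  have h3 : ((∑ p ∈ antidiagonal j, p.1.factorial * p.2.factorial : ℕ) : ℝ) ≤
      3 * (j.factorial : ℝ) := by exact_mod_cast fac_sum j
  have h0 : (0 : ℝ) ≤ j.factorial := Nat.cast_nonneg _
  nlinarith

/-- Gevrey-2 bound at one point -/
def GP (d : I → Derivation ℝ A A) (ev : A →ₐ[ℝ] ℝ) (r : I → ℝ) (M : ℝ) (f : A) : Prop :=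
  ∀ u : List I, |ev (dw d u f)| * rw r u ≤ M * (u.length.factorial : ℝ) ^ 2

theorem GP.nonneg {d : I → Derivation ℝ A A} {ev : A →ₐ[ℝ] ℝ} {r : I → ℝ} {M : ℝ} {f : A}
    (h : GP d ev r M f) : 0 ≤ M := by
  have := h []
  simp at this
  exact (abs_nonneg _).trans this

/-- A1, word by word: only words of length at most `u.length` are used. -/
theorem mul_word (d : I → Derivation ℝ A A) (ev : A →ₐ[ℝ] ℝ) {r : I → ℝ} (hr : ∀ i, 0 ≤ r i)
    (f g : A) {M N : ℝ} (u : List I)
    (hf : ∀ v : List I, v.length ≤ u.length →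
      |ev (dw d v f)| * rw r v ≤ M * (v.length.factorial : ℝ) ^ 2)
    (hg : ∀ v : List I, v.length ≤ u.length →
      |ev (dw d v g)| * rw r v ≤ N * (v.length.factorial : ℝ) ^ 2) :
    |ev (dw d u (f * g))| * rw r u ≤ 3 * M * N * (u.length.factorial : ℝ) ^ 2 := by
  have hM : 0 ≤ M := by
    have := hf [] (by simp)
    simp at this
    exact (abs_nonneg _).trans this
  have hN : 0 ≤ N := by
    have := hg [] (by simp)
    simp at this
    exact (abs_nonneg _).trans this
  refine (leib d ev hr f g (fun n => M * (n.factorial : ℝ) ^ 2) (fun n => N * (n.factorial : ℝ) ^ 2)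
    u hf hg).trans ?_
  have h := mul_le_mul_of_nonneg_left (choose_fac_sum u.length) (mul_nonneg hM hN)
  rw [mul_sum] at h
  refine le_of_eq_of_le (sum_congr rfl fun p _ => by ring) (h.trans (le_of_eq (by ring)))

/-- A1 -/
theorem GP.mul {d : I → Derivation ℝ A A} {ev : A →ₐ[ℝ] ℝ} {r : I → ℝ} (hr : ∀ i, 0 ≤ r i)
    {M N : ℝ} {f g : A} (hf : GP d ev r M f) (hg : GP d ev r N g) :
    GP d ev r (3 * M * N) (f * g) :=
  fun u => mul_word d ev hr f g u (fun v _ => hf v) (fun v _ => hg v)

theorem GP.add {d : I → Derivation ℝ A A} {ev : A →ₐ[ℝ] ℝ} {r : I → ℝ} (hr : ∀ i, 0 ≤ r i)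
    {M N : ℝ} {f g : A} (hf : GP d ev r M f) (hg : GP d ev r N g) :
    GP d ev r (M + N) (f + g) := fun u => by
  rw [dw_add, map_add]
  have := mul_le_mul_of_nonneg_right (abs_add_le (ev (dw d u f)) (ev (dw d u g))) (rw_nonneg hr u)
  linarith [hf u, hg u]

theorem GP.smul {d : I → Derivation ℝ A A} {ev : A →ₐ[ℝ] ℝ} {r : I → ℝ}
    {M : ℝ} {f : A} (hf : GP d ev r M f) (c : ℝ) : GP d ev r (|c| * M) (c • f) := fun u => by
  rw [dw_smul, map_smul, smul_eq_mul, abs_mul, mul_assoc, mul_assoc]
  exact mul_le_mul_of_nonneg_left (hf u) (abs_nonneg c)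

theorem GP.neg {d : I → Derivation ℝ A A} {ev : A →ₐ[ℝ] ℝ} {r : I → ℝ}
    {M : ℝ} {f : A} (hf : GP d ev r M f) : GP d ev r M (-f) := fun u => by
  rw [dw_neg, map_neg, abs_neg]; exact hf u

theorem GP.mono {d : I → Derivation ℝ A A} {ev : A →ₐ[ℝ] ℝ} {r ρ : I → ℝ} {M N : ℝ} {f : A}
    (hf : GP d ev r M f) (h0 : ∀ i, 0 ≤ ρ i) (hρ : ∀ i, ρ i ≤ r i) (hM : M ≤ N) :
    GP d ev ρ N f := fun u => by
  have h1 : rw ρ u ≤ rw r u := by
    simpa using rw_le_mul (c := 1) h0 (fun i => by simpa using hρ i) u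
  exact (mul_le_mul_of_nonneg_left h1 (abs_nonneg _)).trans ((hf u).trans
    (mul_le_mul_of_nonneg_right hM (by positivity)))

theorem geo_aux {s : ℝ} (h0 : 0 ≤ s) (h1 : s ≤ 1) (j : ℕ) :
    ((j : ℝ) + 1) * s ^ j * (1 - s) ≤ 1 - s ^ (j + 1) := by
  induction j with
  | zero => simp
  | succ j ih =>
    have a : 0 ≤ ((j : ℝ) + 1) * s ^ j * (1 - s) :=
      mul_nonneg (by positivity) (by linarith)
    have b : ((j : ℝ) + 1) * s ^ j * (1 - s) * s ≤ ((j : ℝ) + 1) * s ^ j * (1 - s) :=
      mul_le_of_le_one_right a h1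
    push_cast
    have e : ((j : ℝ) + 1 + 1) * s ^ (j + 1) * (1 - s) =
        ((j : ℝ) + 1) * s ^ j * (1 - s) * s + (s ^ (j + 1) - s ^ (j + 1 + 1)) := by ring
    rw [e]; linarith

theorem loss_num {θ : ℝ} (h0 : 0 ≤ θ) (h1 : θ < 1) (j : ℕ) :
    ((j : ℝ) + 1) ^ 2 * θ ^ j ≤ 4 / (1 - θ) ^ 2 := by
  obtain ⟨s, hs0, rfl⟩ : ∃ s : ℝ, 0 ≤ s ∧ θ = s ^ 2 := ⟨√θ, Real.sqrt_nonneg _, (Real.sq_sqrt h0).symm⟩
  have hs1 : s < 1 := by nlinarith
  have a := geo_aux hs0 hs1.le j
  have a0 : 0 ≤ ((j : ℝ) + 1) * s ^ j * (1 - s) := mul_nonneg (by positivity) (by linarith)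
  have a1 : ((j : ℝ) + 1) * s ^ j * (1 - s) ≤ 1 := by
    have : 0 ≤ s ^ (j + 1) := by positivity
    linarith
  have a2 : (((j : ℝ) + 1) * s ^ j * (1 - s)) ^ 2 ≤ 1 := by nlinarith
  have a3 : (1 + s) ^ 2 ≤ 4 := by nlinarith
  rw [le_div_iff₀ (by have : 0 < 1 - s ^ 2 := by linarith
                      positivity)]
  calc ((j : ℝ) + 1) ^ 2 * (s ^ 2) ^ j * (1 - s ^ 2) ^ 2
      = (((j : ℝ) + 1) * s ^ j * (1 - s)) ^ 2 * (1 + s) ^ 2 := by ring
    _ ≤ 1 * 4 := mul_le_mul a2 a3 (by positivity) zero_le_one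
    _ = 4 := by ring

/-- A2: loss of radius -/
theorem GP.loss {d : I → Derivation ℝ A A} {ev : A →ₐ[ℝ] ℝ} {r : I → ℝ} (hr : ∀ i, 0 ≤ r i)
    {M θ : ℝ} {f : A} (hf : GP d ev r M f) (h0 : 0 ≤ θ) (h1 : θ < 1) (i : I) (hi : 0 < r i) :
    GP d ev (fun k => θ * r k) (4 * M / ((1 - θ) ^ 2 * r i)) (d i f) := fun u => by
  have h := hf (u ++ [i])
  have hM := hf.nonneg
  rw [dw_concat, rw_append] at h
  simp only [rw_cons, rw_nil, mul_one, List.length_append, List.length_singleton,
    Nat.factorial_succ] at h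
  push_cast at h
  rw [rw_smul]
  have l := loss_num h0 h1 u.length
  have hθ : 0 < (1 - θ) ^ 2 := by have : 0 < 1 - θ := by linarith
                                  positivity
  have h2 : |ev (dw d u (d i f))| * rw r u ≤
      M * (((u.length : ℝ) + 1) * u.length.factorial) ^ 2 / r i := by
    rw [le_div_iff₀ hi]; linarith
  calc |ev (dw d u (d i f))| * (θ ^ u.length * rw r u)
      = θ ^ u.length * (|ev (dw d u (d i f))| * rw r u) := by ring
    _ ≤ θ ^ u.length * (M * (((u.length : ℝ) + 1) * u.length.factorial) ^ 2 / r i) :=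
      mul_le_mul_of_nonneg_left h2 (by positivity)
    _ = (((u.length : ℝ) + 1) ^ 2 * θ ^ u.length) * (M * (u.length.factorial : ℝ) ^ 2 / r i) := by
      ring
    _ ≤ (4 / (1 - θ) ^ 2) * (M * (u.length.factorial : ℝ) ^ 2 / r i) :=
      mul_le_mul_of_nonneg_right l (by positivity)
    _ = _ := by field_simp

theorem chain_num (j m : ℕ) :
    ∑ p ∈ antidiagonal j, (j.choose p.1 : ℝ) * ((1 / 2 : ℝ) ^ p.1 * (p.1.factorial : ℝ) ^ 2 *
      ((p.2 + m).factorial : ℝ) ^ 2) ≤ 2 * ((j + m).factorial : ℝ) ^ 2 := by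
  have h : ∀ p ∈ antidiagonal j, (j.choose p.1 : ℝ) * ((1 / 2 : ℝ) ^ p.1 * (p.1.factorial : ℝ) ^ 2 *
      ((p.2 + m).factorial : ℝ) ^ 2) ≤ (1 / 2 : ℝ) ^ p.1 * ((j + m).factorial : ℝ) ^ 2 := by
    intro p hp
    have hp' : p.1 + p.2 = j := mem_antidiagonal.1 hp
    have e : ((j + m).choose p.1 * p.1.factorial * (p.2 + m).factorial : ℕ) = (j + m).factorial := by
      have := Nat.add_choose_mul_factorial_mul_factorial (p.2 + m) p.1
      rw [show j + m = p.2 + m + p.1 by omega, ← this]; ring
    have c1 : j.choose p.1 ≤ (j + m).choose p.1 := Nat.choose_le_choose _ (by omega)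
    have c2 : 1 ≤ (j + m).choose p.1 := Nat.choose_pos (by omega)
    have c3 : j.choose p.1 ≤ ((j + m).choose p.1) ^ 2 := by nlinarith
    have c4 : (j.choose p.1 : ℝ) ≤ (((j + m).choose p.1 : ℕ) : ℝ) ^ 2 := by exact_mod_cast c3
    have e' : (((j + m).choose p.1 : ℕ) : ℝ) * p.1.factorial * (p.2 + m).factorial =
        (j + m).factorial := by exact_mod_cast e
    rw [← e']
    calc _ ≤ (((j + m).choose p.1 : ℕ) : ℝ) ^ 2 * ((1 / 2 : ℝ) ^ p.1 * (p.1.factorial : ℝ) ^ 2 *
      ((p.2 + m).factorial : ℝ) ^ 2) := mul_le_mul_of_nonneg_right c4 (by positivity)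
      _ = _ := by ring
  refine (sum_le_sum h).trans ?_
  rw [← sum_mul, Finset.Nat.sum_antidiagonal_eq_sum_range_succ (fun a _ => (1 / 2 : ℝ) ^ a)]
  refine mul_le_mul_of_nonneg_right ?_ (by positivity)
  exact sum_geometric_two_le _

/-- A3: chain rule for a family indexed by words in `L` -/
theorem chain {L : Type*} [Fintype L] (d : I → Derivation ℝ A A) (ev : A →ₐ[ℝ] ℝ)
    {r ρ : I → ℝ} {r' : L → ℝ} (hρ0 : ∀ i, 0 ≤ ρ i) (hρ : ∀ i, ρ i ≤ 1 / 2 * r i)
    (hr' : ∀ l, 0 < r' l) (Fam : List L → A) (c : I → L → A) (κ : I → L → ℝ) {M : ℝ}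
    (hd : ∀ i v, d i (Fam v) = ∑ l, c i l * Fam (l :: v))
    (hF : ∀ v, |ev (Fam v)| * rw r' v ≤ M * (v.length.factorial : ℝ) ^ 2)
    (hc : ∀ i l, GP d ev r (κ i l) (c i l))
    (hs : ∀ i, 2 * ∑ l, κ i l * ρ i / r' l ≤ 1) (u : List I) (v : List L) :
    |ev (dw d u (Fam v))| * (rw ρ u * rw r' v) ≤
      M * ((u.length + v.length).factorial : ℝ) ^ 2 := by
  have hM : 0 ≤ M := by
    have := hF []
    simp at this
    exact (abs_nonneg _).trans this
  have key : ∀ n : ℕ, ∀ u : List I, u.length ≤ n → ∀ v : List L,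
      |ev (dw d u (Fam v))| * (rw ρ u * rw r' v) ≤
        M * ((u.length + v.length).factorial : ℝ) ^ 2 := by
    intro n
    induction n with
    | zero =>
      intro u hu v
      obtain rfl : u = [] := List.length_eq_zero_iff.1 (by omega)
      simpa using hF v
    | succ n ih =>
      intro u hu v
      rcases List.eq_nil_or_concat u with rfl | ⟨u, i, rfl⟩
      · simpa using hF v
      rw [List.concat_eq_append] at hu ⊢
      simp only [List.length_append, List.length_singleton] at hu ⊢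
      rw [dw_concat, hd, dw_sum, map_sum, rw_append]
      have hv := rw_pos hr' v
      have hu0 := rw_nonneg hρ0 u
      have term : ∀ l, |ev (dw d u (c i l * Fam (l :: v)))| * (rw ρ u * rw ρ [i] * rw r' v) ≤
          2 * (κ i l * ρ i / r' l) * (M * ((u.length + 1 + v.length).factorial : ℝ) ^ 2) := by
        intro l
        have hκ := (hc i l).nonneg
        have hl := hr' l
        have hb := leib d ev hρ0 (c i l) (Fam (l :: v))
          (fun a => κ i l * ((1 / 2 : ℝ) ^ a * (a.factorial : ℝ) ^ 2))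
          (fun b => M * ((b + (v.length + 1)).factorial : ℝ) ^ 2 / (r' l * rw r' v)) u
          (fun a _ => by
            have h1 := mul_le_mul_of_nonneg_left (rw_le_mul hρ0 hρ a) (abs_nonneg (ev (dw d a (c i l))))
            have h2 := mul_le_mul_of_nonneg_left (hc i l a)
              (show (0 : ℝ) ≤ (1 / 2) ^ a.length by positivity)
            linarith)
          (fun b hb => by
            have h1 := ih b (by omega) (l :: v)
            simp only [rw_cons, List.length_cons] at h1
            rw [le_div_iff₀ (mul_pos hl hv)]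
            linarith)
        have hn := mul_le_mul_of_nonneg_left (chain_num u.length (v.length + 1))
          (show 0 ≤ κ i l * M / (r' l * rw r' v) by positivity)
        rw [mul_sum] at hn
        have hb2 : |ev (dw d u (c i l * Fam (l :: v)))| * rw ρ u ≤
            κ i l * M / (r' l * rw r' v) * (2 * ((u.length + (v.length + 1)).factorial : ℝ) ^ 2) :=
          hb.trans (le_of_eq_of_le (sum_congr rfl fun p _ => by ring) hn)
        have hb3 := mul_le_mul_of_nonneg_right hb2 (mul_nonneg (hρ0 i) hv.le)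
        rw [show u.length + 1 + v.length = u.length + (v.length + 1) by omega]
        refine le_of_eq_of_le (by simp only [rw_cons, rw_nil]; ring) (hb3.trans (le_of_eq ?_))
        field_simp
      have hR : 0 ≤ rw ρ u * rw ρ [i] * rw r' v :=
        mul_nonneg (mul_nonneg hu0 (rw_nonneg hρ0 _)) hv.le
      refine (mul_le_mul_of_nonneg_right (abs_sum_le_sum_abs _ _) hR).trans ?_
      rw [sum_mul]
      refine (sum_le_sum fun l _ => term l).trans ?_
      rw [← sum_mul, ← mul_sum]
      exact mul_le_of_le_one_left (by positivity) (hs i)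
  exact key u.length u le_rfl v

end Pool.Agent.Lib.MP_fbbbeb_an.Word
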