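import Mathlib
import Pool.Agent.Lib.MP_fbbbeb_an.Pub

/-! The differential algebra of smooth lifted functions on `(0,T) × (ℝ³∖0) × ℝ³`, periodic in the phases. -/

set_option autoImplicit false

noncomputable section

namespace Pool.Agent.Lib.MP_fbbbeb_an.Cas

open Pool.Agent.Lib.MP_fbbbeb_an.Pub
open scoped ContDiff Topology

/-- points: time, label, phases -/
abbrev Pt : Type := ℝ × E × E

/-- letters: time, three label directions, three phases -/
abbrev Let : Type := Option (Fin 3 ⊕ Fin 3)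

abbrev lt : Let := none
abbrev la (i : Fin 3) : Let := some (Sum.inl i)
abbrev lp (j : Fin 3) : Let := some (Sum.inr j)

/-- direction of a letter -/
def vec : Let → Pt
  | none => (1, 0, 0)
  | some (Sum.inl i) => (0, EuclideanSpace.single i 1, 0)
  | some (Sum.inr j) => (0, 0, EuclideanSpace.single j 1)

def Om (T : ℝ) : Set Pt := {z | 0 < z.1 ∧ z.1 < T ∧ z.2.1 ≠ 0}

def Sp (T : ℝ) : Set Pt := {z | 0 < z.1 ∧ z.1 < T ∧ ‖z.2.1‖ = 1}

theorem isOpen_Om (T : ℝ) : IsOpen (Om T) := by
  have h1 : IsOpen {z : Pt | 0 < z.1} := isOpen_lt continuous_const continuous_fst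
  have h2 : IsOpen {z : Pt | z.1 < T} := isOpen_lt continuous_fst continuous_const
  have h3 : IsOpen {z : Pt | z.2.1 ≠ 0} := isOpen_ne_fun (by fun_prop) continuous_const
  exact h1.inter (h2.inter h3)

theorem Sp_sub (T : ℝ) : Sp T ⊆ Om T := fun z hz =>
  ⟨hz.1, hz.2.1, fun h => by have := hz.2.2; rw [h] at this; simp at this⟩

theorem Om_shift {T : ℝ} (z : Pt) (s : ℝ) (j : Fin 3) : z + s • vec (lp j) ∈ Om T ↔ z ∈ Om T := by
  simp [Om, vec]

open Classical in
/-- extension by zero -/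
def ext0 (T : ℝ) (f : Om T → ℝ) (z : Pt) : ℝ := if h : z ∈ Om T then f ⟨z, h⟩ else 0

theorem ext0_in {T : ℝ} (f : Om T → ℝ) {z : Pt} (h : z ∈ Om T) : ext0 T f z = f ⟨z, h⟩ := dif_pos h

theorem ext0_out {T : ℝ} (f : Om T → ℝ) {z : Pt} (h : z ∉ Om T) : ext0 T f z = 0 := dif_neg h

theorem ext0_add {T : ℝ} (f g : Om T → ℝ) (z : Pt) : ext0 T (f + g) z = ext0 T f z + ext0 T g z := by
  by_cases h : z ∈ Om T
  · simp [ext0_in _ h]
  · simp [ext0_out _ h]

theorem ext0_mul {T : ℝ} (f g : Om T → ℝ) (z : Pt) : ext0 T (f * g) z = ext0 T f z * ext0 T g z := by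
  by_cases h : z ∈ Om T
  · simp [ext0_in _ h]
  · simp [ext0_out _ h]

/-- smooth on the domain and periodic in the phases -/
def Good (T : ℝ) (f : Pt → ℝ) : Prop :=
  ContDiffOn ℝ ∞ f (Om T) ∧ ∀ j : Fin 3, ∀ z ∈ Om T, f (z + (2 * Real.pi) • vec (lp j)) = f z

theorem Good.congr {T : ℝ} {f g : Pt → ℝ} (hf : Good T f) (h : ∀ z ∈ Om T, g z = f z) : Good T g :=
  ⟨hf.1.congr h, fun j z hz => by rw [h _ ((Om_shift z _ j).2 hz), h z hz, hf.2 j z hz]⟩

def Alg (T : ℝ) : Subalgebra ℝ (Om T → ℝ) where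
  carrier := {f | Good T (ext0 T f)}
  mul_mem' := by
    intro f g hf hg
    refine ⟨(hf.1.mul hg.1).congr fun z _ => ext0_mul f g z, fun j z hz => ?_⟩
    rw [ext0_mul, ext0_mul, hf.2 j z hz, hg.2 j z hz]
  add_mem' := by
    intro f g hf hg
    refine ⟨(hf.1.add hg.1).congr fun z _ => ext0_add f g z, fun j z hz => ?_⟩
    rw [ext0_add, ext0_add, hf.2 j z hz, hg.2 j z hz]
  algebraMap_mem' := by
    intro c
    refine ⟨(contDiffOn_const (c := c)).congr fun z hz => by simp [ext0_in _ hz], fun j z hz => ?_⟩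
    rw [ext0_in _ hz, ext0_in _ ((Om_shift z _ j).2 hz)]
    rfl

/-- the algebra -/
abbrev A (T : ℝ) : Type := ↥(Alg T)

variable {T : ℝ}

/-- evaluation (zero outside the domain) -/
def ev (f : A T) : Pt → ℝ := ext0 T f.1

theorem ev_good (f : A T) : Good T (ev f) := f.2

theorem ev_smooth (f : A T) : ContDiffOn ℝ ∞ (ev f) (Om T) := f.2.1

theorem ev_cda (f : A T) {z : Pt} (hz : z ∈ Om T) : ContDiffAt ℝ ∞ (ev f) z :=
  (ev_smooth f).contDiffAt ((isOpen_Om T).mem_nhds hz)

theorem ev_diff (f : A T) {z : Pt} (hz : z ∈ Om T) : DifferentiableAt ℝ (ev f) z :=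
  (ev_cda f hz).differentiableAt (by simp)

theorem ev_out (f : A T) {z : Pt} (hz : z ∉ Om T) : ev f z = 0 := ext0_out _ hz

theorem ev_per (f : A T) (j : Fin 3) (z : Pt) : ev f (z + (2 * Real.pi) • vec (lp j)) = ev f z := by
  by_cases hz : z ∈ Om T
  · exact f.2.2 j z hz
  · rw [ev_out f hz, ev_out f (fun h => hz ((Om_shift z _ j).1 h))]

theorem A_ext {f g : A T} (h : ∀ z ∈ Om T, ev f z = ev g z) : f = g := by
  apply Subtype.ext
  funext z
  have := h z.1 z.2
  simpa [ev, ext0_in _ z.2] using this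

@[simp] theorem ev_add (f g : A T) (z : Pt) : ev (f + g) z = ev f z + ev g z := ext0_add _ _ z

@[simp] theorem ev_mul (f g : A T) (z : Pt) : ev (f * g) z = ev f z * ev g z := ext0_mul _ _ z

@[simp] theorem ev_zero (z : Pt) : ev (0 : A T) z = 0 := by
  by_cases h : z ∈ Om T
  · simp [ev, ext0_in _ h]
  · exact ev_out _ h

@[simp] theorem ev_smul (c : ℝ) (f : A T) (z : Pt) : ev (c • f) z = c * ev f z := by
  by_cases h : z ∈ Om T
  · simp [ev, ext0_in _ h]
  · simp [ev_out _ h]

@[simp] theorem ev_neg (f : A T) (z : Pt) : ev (-f) z = -ev f z := by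
  have := ev_smul (-1) f z
  simpa using this

@[simp] theorem ev_sub (f g : A T) (z : Pt) : ev (f - g) z = ev f z - ev g z := by
  rw [sub_eq_add_neg, ev_add, ev_neg, sub_eq_add_neg]

theorem ev_one {z : Pt} (hz : z ∈ Om T) : ev (1 : A T) z = 1 := by simp [ev, ext0_in _ hz]

theorem ev_algebraMap (c : ℝ) {z : Pt} (hz : z ∈ Om T) : ev (algebraMap ℝ (A T) c) z = c := by
  simp [ev, ext0_in _ hz]

theorem ev_sum {ι : Type*} (s : Finset ι) (f : ι → A T) (z : Pt) :
    ev (∑ i ∈ s, f i) z = ∑ i ∈ s, ev (f i) z := by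
  classical
  induction s using Finset.induction_on with
  | empty => simp
  | insert a s ha ih => simp [Finset.sum_insert ha, ih]

/-- evaluation at a point of the domain as an algebra map -/
def evA (z : Pt) (hz : z ∈ Om T) : A T →ₐ[ℝ] ℝ where
  toFun f := ev f z
  map_one' := ev_one hz
  map_mul' f g := ev_mul f g z
  map_zero' := ev_zero z
  map_add' f g := ev_add f g z
  commutes' c := ev_algebraMap c hz

open Classical in
/-- the element given by a function (zero if the function is not smooth and periodic) -/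
def mkA (T : ℝ) (f : Pt → ℝ) : A T :=
  if h : Good T f then ⟨fun z => f z.1, h.congr fun _ hz => ext0_in _ hz⟩ else 0

theorem ev_mkA {f : Pt → ℝ} (h : Good T f) {z : Pt} (hz : z ∈ Om T) : ev (mkA T f) z = f z := by
  simp [mkA, dif_pos h, ev, ext0_in _ hz]

theorem good_fderiv (f : A T) (i : Let) : Good T fun z => fderiv ℝ (ev f) z (vec i) := by
  refine ⟨?_, fun j z hz => ?_⟩
  · have h := (ev_smooth f).fderiv_of_isOpen (m := ∞) (isOpen_Om T) (by simp)
    exact h.clm_apply contDiffOn_const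
  · have h : (fun y => ev f (y + (2 * Real.pi) • vec (lp j))) = ev f := funext fun y => ev_per f j y
    have h2 := fderiv_comp_add_right (𝕜 := ℝ) (f := ev f) (x := z) ((2 * Real.pi) • vec (lp j))
    rw [h] at h2
    simp only [← h2]

def pd0 (i : Let) (f : A T) : A T := mkA T fun z => fderiv ℝ (ev f) z (vec i)

theorem ev_pd0 (i : Let) (f : A T) {z : Pt} (hz : z ∈ Om T) :
    ev (pd0 i f) z = fderiv ℝ (ev f) z (vec i) := ev_mkA (good_fderiv f i) hz

/-- partial derivative along a letter -/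
def pd (i : Let) : Derivation ℝ (A T) (A T) :=
  Derivation.mk'
    { toFun := pd0 i
      map_add' := fun f g => A_ext fun z hz => by
        have h : ev (f + g) = fun y => ev f y + ev g y := funext fun y => ev_add f g y
        rw [ev_add, ev_pd0 i _ hz, ev_pd0 i _ hz, ev_pd0 i _ hz, h,
          fderiv_fun_add (ev_diff f hz) (ev_diff g hz)]
        simp
      map_smul' := fun c f => A_ext fun z hz => by
        have h : ev (c • f) = fun y => c * ev f y := funext fun y => ev_smul c f y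
        rw [RingHom.id_apply, ev_smul, ev_pd0 i _ hz, ev_pd0 i _ hz, h,
          fderiv_const_mul (ev_diff f hz)]
        simp }
    (fun f g => A_ext fun z hz => by
      have h : ev (f * g) = fun y => ev f y * ev g y := funext fun y => ev_mul f g y
      show ev (pd0 i (f * g)) z = ev (f • pd0 i g + g • pd0 i f) z
      rw [smul_eq_mul, smul_eq_mul, ev_add, ev_mul, ev_mul, ev_pd0 i _ hz, ev_pd0 i _ hz,
        ev_pd0 i _ hz, h, fderiv_fun_mul (ev_diff f hz) (ev_diff g hz)]
      simp)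

theorem ev_pd (i : Let) (f : A T) {z : Pt} (hz : z ∈ Om T) :
    ev (pd i f) z = fderiv ℝ (ev f) z (vec i) := ev_pd0 i f hz

theorem ev_pd_nhds (i : Let) (f : A T) {z : Pt} (hz : z ∈ Om T) :
    ev (pd i f) =ᶠ[𝓝 z] fun y => fderiv ℝ (ev f) y (vec i) :=
  Filter.eventually_of_mem ((isOpen_Om T).mem_nhds hz) fun _ hy => ev_pd i f hy

theorem pd_comm (i j : Let) (f : A T) : pd i (pd j f) = pd j (pd i f) := by
  refine A_ext fun z hz => ?_
  have hc := ev_cda f hz
  have hs : IsSymmSndFDerivAt ℝ (ev f) z := hc.isSymmSndFDerivAt (by simpa using (by decide : (2 : WithTop ℕ∞) ≤ ∞))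
  have hd : DifferentiableAt ℝ (fderiv ℝ (ev f)) z :=
    (hc.fderiv_right (m := ∞) (by simp)).differentiableAt (by simp)
  have key : ∀ a b : Let, ev (pd a (pd b f)) z = fderiv ℝ (fderiv ℝ (ev f)) z (vec a) (vec b) := by
    intro a b
    rw [ev_pd a _ hz, (ev_pd_nhds b f hz).fderiv_eq, fderiv_clm_apply hd (differentiableAt_const _)]
    simp
  rw [key, key, hs.eq]

/-- derivative along a line in the direction of a letter -/
theorem hasDerivAt_ev (i : Let) (f : A T) (z : Pt) (s : ℝ) (hz : z + s • vec i ∈ Om T) :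
    HasDerivAt (fun x : ℝ => ev f (z + x • vec i)) (ev (pd i f) (z + s • vec i)) s := by
  rw [ev_pd i f hz]
  have h1 : HasDerivAt (fun x : ℝ => z + x • vec i) (vec i) s := by
    simpa using ((hasDerivAt_id s).smul_const (vec i)).const_add z
  exact (ev_diff f hz).hasFDerivAt.comp_hasDerivAt s h1

end Pool.Agent.Lib.MP_fbbbeb_an.Cas
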