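import Mathlib
import Pool.Agent.Lib.MP_fbbbeb_an.Cas.Alg

/-! Definitions for the cascade: Gevrey bounds, symmetry group, frames, residuals, solvers. -/

set_option autoImplicit false

noncomputable section

namespace Pool.Agent.Lib.MP_fbbbeb_an.Cas

open Pool.Agent.Lib.MP_fbbbeb_an.Pub
open scoped ContDiff Topology RealInnerProductSpace Matrix Nat

variable {T : ℝ}

/-! ### words and Gevrey bounds -/

/-- derivative along a word (the last letter acts first) -/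
def pw (u : List Let) (f : A T) : A T := u.foldr (fun i g => pd i g) f

/-- product of the radii along a word -/
def rpr (r : Let → ℝ) (u : List Let) : ℝ := (u.map r).prod

/-- Gevrey-2 bound at one point -/
def BdAt (r : Let → ℝ) (M : ℝ) (f : A T) (z : Pt) : Prop :=
  ∀ u : List Let, |ev (pw u f) z| * rpr r u ≤ M * ((u.length ! : ℕ) : ℝ) ^ 2

/-- homogeneity of degree `d` in the label -/
def Hom (d : ℤ) (f : A T) : Prop :=
  ∀ z : Pt, ∀ s : ℝ, 0 < s → ev f (z.1, s • z.2.1, z.2.2) = s ^ d * ev f z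

/-- degree `d` and Gevrey bound `M w(t)` at radii `r` on the unit sphere -/
def GB (d : ℤ) (r : Let → ℝ) (w : ℝ → ℝ) (M : ℝ) (f : A T) : Prop :=
  Hom d f ∧ ∀ z ∈ Sp T, BdAt r (M * w z.1) f z

abbrev Vec (T : ℝ) : Type := Fin 3 → A T
abbrev Mat (T : ℝ) : Type := Matrix (Fin 3) (Fin 3) (A T)

def GBv (d : ℤ) (r : Let → ℝ) (w : ℝ → ℝ) (M : ℝ) (V : Vec T) : Prop := ∀ i, GB d r w M (V i)

def GBm (d : ℤ) (r : Let → ℝ) (w : ℝ → ℝ) (M : ℝ) (F : Mat T) : Prop := ∀ i j, GB d r w M (F i j)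

/-- the constant weight -/
def w1 : ℝ → ℝ := fun _ => 1

/-- shrunk radii -/
def sh (θ : ℝ) (n : ℕ) (r : Let → ℝ) : Let → ℝ := fun i => θ ^ n * r i

/-- radii divided by a number -/
def dvr (r : Let → ℝ) (K : ℝ) : Let → ℝ := fun i => r i / K

def dtv (V : Vec T) : Vec T := fun i => pd lt (V i)

def dtm (F : Mat T) : Mat T := Matrix.of fun i j => pd lt (F i j)

/-! ### the group and evaluation of vectors and matrices -/

/-- signed cyclic permutations of the coordinates -/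
def Gp : Subgroup (E ≃ₗᵢ[ℝ] E) where
  carrier := {g | ∃ c : Fin 3, ∃ s : Fin 3 → ℝ, (∀ i, s i = 1 ∨ s i = -1) ∧
    ∀ a : E, ∀ i, g a i = s i * a (i + c)}
  mul_mem' := by
    rintro g h ⟨c, s, hs, hg⟩ ⟨c', s', hs', hh⟩
    refine ⟨c + c', fun i => s i * s' (i + c), fun i => ?_, fun a i => ?_⟩
    · rcases hs i with h1 | h1 <;> rcases hs' (i + c) with h2 | h2 <;> simp [h1, h2]
    · show g (h a) i = _
      rw [hg, hh, mul_assoc, add_assoc]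
  one_mem' := ⟨0, fun _ => 1, fun _ => Or.inl rfl, fun a i => by simp⟩
  inv_mem' := by
    rintro g ⟨c, s, hs, hg⟩
    refine ⟨-c, fun i => s (i + -c), fun i => hs _, fun a i => ?_⟩
    have h := hg (g⁻¹ a) (i + -c)
    have h2 : g (g⁻¹ a) = a := g.apply_symm_apply a
    rw [h2, neg_add_cancel_right] at h
    rw [h]
    rcases hs (i + -c) with h1 | h1 <;> simp [h1]

instance finiteGp : Finite Gp := by
  have h : (Gp : Set (E ≃ₗᵢ[ℝ] E)).Finite := by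
    refine Set.Finite.of_injOn (f := fun g => fun i j : Fin 3 => g (EuclideanSpace.single j 1) i)
      (t := Set.pi Set.univ fun _ => Set.pi Set.univ fun _ => ({-1, 0, 1} : Set ℝ)) ?_ ?_ ?_
    · rintro g ⟨c, s, hs, hg⟩ i - j -
      simp only [hg]
      by_cases h : i + c = j <;> rcases hs i with h1 | h1 <;> simp [h, h1]
    · intro g _ g' _ h
      apply LinearIsometryEquiv.toLinearEquiv_injective
      apply LinearEquiv.toLinearMap_injective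
      apply (EuclideanSpace.basisFun (Fin 3) ℝ).toBasis.ext
      intro j
      ext i
      simpa using congrFun (congrFun h i) j
    · exact Set.Finite.pi fun _ => Set.Finite.pi fun _ => Set.toFinite _
  exact h

instance fintypeGp : Fintype Gp := Fintype.ofFinite Gp

/-- action on points -/
def gz (g : E ≃ₗᵢ[ℝ] E) (z : Pt) : Pt := (z.1, g z.2.1, z.2.2)

def evv (V : Vec T) (z : Pt) : E := WithLp.toLp 2 fun i => ev (V i) z

def evm (F : Mat T) (z : Pt) : E →L[ℝ] E :=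
  Matrix.toEuclideanCLM (n := Fin 3) (𝕜 := ℝ) (Matrix.of fun i j => ev (F i j) z)

def InvG (f : A T) : Prop := ∀ g ∈ Gp, ∀ z, ev f (gz g z) = ev f z

def Eqv (V : Vec T) : Prop := ∀ g ∈ Gp, ∀ z, evv V (gz g z) = g (evv V z)

def EqvM (F : Mat T) : Prop := ∀ g ∈ Gp, ∀ z x, evm F (gz g z) (g x) = g (evm F z x)

/-- vanishing at time zero -/
def Van (V : Vec T) : Prop :=
  ∀ y : E × E, Filter.Tendsto (fun t : ℝ => evv V (t, y)) (𝓝[>] 0) (𝓝 0)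

/-! ### frames -/

structure Frame (T : ℝ) where
  N : Fin 4 → ℝ
  k : Fin 3 → Vec T
  vp : A T
  ki : Fin 3 → A T
  Env : Fin 4 → Set Pt

structure Frame.Ok (fr : Frame T) : Prop where
  N_one : ∀ l, 1 ≤ fr.N l
  N_mono : Monotone fr.N
  k_t : ∀ j i, pd lt (fr.k j i) = 0
  k_p : ∀ j i l, pd (lp l) (fr.k j i) = 0
  k_curl : ∀ j i l, pd (la i) (fr.k j l) = pd (la l) (fr.k j i)
  k_eqv : ∀ j, Eqv (fr.k j)
  vp_t : pd lt fr.vp = 0
  vp_p : ∀ l, pd (lp l) fr.vp = 0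
  vp_inv : InvG fr.vp
  vp_nonneg : ∀ z, 0 ≤ ev fr.vp z
  vp_zero : ∀ z ∈ fr.Env 1, ev fr.vp z = 0
  ki_mul : ∀ j, fr.ki j * (fr.k j ⬝ᵥ fr.k j + fr.vp) = 1
  env_zero : fr.Env 0 = Set.univ
  env_anti : Antitone fr.Env
  env_open : ∀ l, ∀ z ∈ Om T, z ∉ fr.Env l → ∀ᶠ y in 𝓝 z, y ∉ fr.Env l
  env_t : ∀ l, ∀ z ∈ fr.Env l, ∀ t : ℝ, ((t, z.2) : Pt) ∈ fr.Env l
  env_p : ∀ l, ∀ j : Fin 3, l ≤ j.succ → ∀ z ∈ fr.Env l, ∀ s : ℝ, z + s • vec (lp j) ∈ fr.Env l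
  env_g : ∀ l, ∀ g ∈ Gp, ∀ z ∈ fr.Env l, gz g z ∈ fr.Env l

/-- the fast part of the lifted derivative that belongs to slot `j` -/
def Df (fr : Frame T) (j i : Fin 3) : Derivation ℝ (A T) (A T) :=
  (fr.N j.succ • fr.k j i) • pd (lp j)

/-- lifted derivative -/
def D (fr : Frame T) (i : Fin 3) : Derivation ℝ (A T) (A T) := pd (la i) + ∑ j, Df fr j i

/-- lifted derivative without slot `j` -/
def Dj (fr : Frame T) (j i : Fin 3) : Derivation ℝ (A T) (A T) := D fr i - Df fr j i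

def Dm (fr : Frame T) (X : Vec T) : Mat T := Matrix.of fun i l => D fr l (X i)

def dv (fr : Frame T) (V : Vec T) : A T := ∑ i, D fr i (V i)

def gr (fr : Frame T) (q : A T) : Vec T := fun i => D fr i q

/-- the curl does not depend on time -/
def Closed (fr : Frame T) (V : Vec T) : Prop :=
  ∀ i l, pd lt (D fr i (V l) - D fr l (V i)) = 0

def curl (fr : Frame T) (U : Vec T) : Vec T :=
  fun l => D fr (l + 1) (U (l + 2)) - D fr (l + 2) (U (l + 1))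

/-- independent of the phases above level `l` -/
def In (l : Fin 4) (f : A T) : Prop := ∀ j : Fin 3, l ≤ j.castSucc → pd (lp j) f = 0

def InV (l : Fin 4) (V : Vec T) : Prop := ∀ i, In l (V i)

/-- type `l` -/
def Ty (fr : Frame T) (l : Fin 4) (f : A T) : Prop := In l f ∧ ∀ z, z ∉ fr.Env l → ev f z = 0

def Tyv (fr : Frame T) (l : Fin 4) (V : Vec T) : Prop := ∀ i, Ty fr l (V i)

/-- vector field of type `l`, degree one and scaled size `c` -/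
def SB (fr : Frame T) (r : Let → ℝ) (w : ℝ → ℝ) (l : Fin 4) (c : ℝ) (V : Vec T) : Prop :=
  Tyv fr l V ∧ GBv 1 r w (c / fr.N l) V

def FB (fr : Frame T) (r : Let → ℝ) (w : Fin 4 → ℝ → ℝ) (c : Fin 4 → ℝ) (R : Fin 4 → Vec T) : Prop :=
  ∀ l, SB fr r (w l) l (c l) (R l)

/-- `V` is a residual of size `c` modulo closed fields -/
def RW (fr : Frame T) (r : Let → ℝ) (w : Fin 4 → ℝ → ℝ) (c : Fin 4 → ℝ) (V : Vec T) : Prop :=
  ∃ R : Fin 4 → Vec T, FB fr r w c R ∧ Closed fr (V - ∑ l, R l)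

/-- `f` is the divergence of a residual of size `c` -/
def RV (fr : Frame T) (r : Let → ℝ) (w : Fin 4 → ℝ → ℝ) (c : Fin 4 → ℝ) (f : A T) : Prop :=
  ∃ R : Fin 4 → Vec T, FB fr r w c R ∧ f = dv fr (∑ l, R l)

/-- Weber form -/
def web (fr : Frame T) (Z Y : Vec T) : Vec T := (Dm fr Z)ᵀ *ᵥ dtv Y

/-- approximate solution with residual `c` -/
def St (fr : Frame T) (r : Let → ℝ) (w : Fin 4 → ℝ → ℝ) (c : Fin 4 → ℝ) (X : Vec T) : Prop :=
  RW fr r w c (web fr X X) ∧ RV fr r w c ((Dm fr X).det - 1)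

/-- triple product -/
def tp {R : Type*} [CommRing R] (x y z : Fin 3 → R) : R := x ⬝ᵥ crossProduct y z

def cr {R : Type*} [CommRing R] (P Q : Matrix (Fin 3) (Fin 3) R) (z : Fin 3 → R) : Fin 3 → R :=
  fun l => tp (fun i => P i (l + 1)) (fun i => Q i (l + 2)) z
    - tp (fun i => P i (l + 2)) (fun i => Q i (l + 1)) z

/-- mixed determinant, `dd P P P = 6 det P` -/
def dd {R : Type*} [CommRing R] (P Q S : Matrix (Fin 3) (Fin 3) R) : R :=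
  ∑ l, cr P Q (fun i => S i l) l

/-- sizes after a step at level `j` -/
def up (ε : ℝ) (j : Fin 4) (y : ℝ) : Fin 4 → ℝ := fun l => if l ≤ j then ε * y else y

/-- sizes of the rest of the background at level `j` -/
def qq (ε K : ℝ) (j : Fin 4) : Fin 4 → ℝ := fun l => if l ≤ j then ε else K

/-- parameter regime -/
structure Reg (fr : Frame T) (K θ ε : ℝ) (r : Let → ℝ) : Prop where
  K_two : 2 ≤ K
  th_half : 1 / 2 ≤ θ
  th_one : θ < 1
  th_K : 1 ≤ K * (1 - θ)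
  r_one : ∀ i, r i ≤ 1
  r_t : 1 ≤ K * r lt
  r_p : ∀ j, 1 ≤ K * r (lp j)
  r_a : ∀ i, 1 ≤ K * fr.N 0 * r (la i)
  k_bd : ∀ j, GBv (-1) r w1 K (fr.k j)
  ki_bd : ∀ j, GB 2 r w1 K (fr.ki j)
  e_pos : 0 < ε
  e_one : ε ≤ 1
  e_N : ∀ j : Fin 3, fr.N j.castSucc ≤ ε * fr.N j.succ

/-- weights of the residual (`w`) and of the background (`v`) -/
structure Wt (T K : ℝ) (w v : Fin 4 → ℝ → ℝ) : Prop where
  w_nonneg : ∀ l, ∀ t ∈ Set.Ioo 0 T, 0 ≤ w l t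
  w_le : ∀ l, ∀ t ∈ Set.Ioo 0 T, w l t ≤ v l t
  v_le : ∀ l, ∀ t ∈ Set.Ioo 0 T, v l t ≤ K
  v_mul : ∀ i j, ∀ t ∈ Set.Ioo 0 T, v i t * w j t ≤ K * w (max i j) t
  w_down : ∀ j : Fin 3, ∀ t ∈ Set.Ioo 0 T, w j.succ t ≤ K * w j.castSucc t

/-! ### solvers -/

def gm (F : Mat T) : Mat T := Fᵀ * F

def Bf (F : Mat T) : Mat T := (dtm F)ᵀ * F - Fᵀ * dtm F

/-- solver for an oscillating component -/
def SolvP (fr : Frame T) (j : Fin 3) (F : Mat T) (w : ℝ → ℝ) (K : ℝ) (r : Let → ℝ) : Prop :=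
  ∀ r' : Let → ℝ, (∀ i, 0 < r' i) → (∀ i, r' i ≤ r i) → ∀ c ε' : ℝ, 0 ≤ c → 0 < ε' →
    ∀ f : Vec T, Tyv fr j.succ f → Eqv f → GBv 1 r' w c f →
      ∃ (ζ : Vec T) (s : A T) (e : Vec T),
        gm F *ᵥ dtv ζ - Bf F *ᵥ ζ - f = s • fr.k j + e ∧ fr.k j ⬝ᵥ ζ = 0 ∧
        Tyv fr j.succ ζ ∧ Ty fr j.succ s ∧ Tyv fr j.succ e ∧ Eqv ζ ∧ Van ζ ∧
        GBv 1 r' w (K * c) ζ ∧ GBv 1 r' w (K * c) (dtv ζ) ∧ GB 2 r' w (K * c) s ∧
        GBv 1 r' w (ε' * c) e ∧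
        (InV j.castSucc f → InV j.castSucc ζ ∧ In j.castSucc s ∧ InV j.castSucc e)

def D0m (X : Vec T) : Mat T := Matrix.of fun i l => pd (la l) (X i)

def dv0 (V : Vec T) : A T := ∑ i, pd (la i) (V i)

def gr0 (q : A T) : Vec T := fun i => pd (la i) q

def Closed0 (V : Vec T) : Prop := ∀ i l, pd lt (pd (la i) (V l) - pd (la l) (V i)) = 0

/-- degree `d` and all derivatives bounded on the sphere -/
def Bdd (d : ℤ) (f : A T) : Prop :=
  Hom d f ∧ ∀ u : List Let, ∃ M : ℝ, ∀ z ∈ Sp T, |ev (pw u f) z| ≤ M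

/-- primitive in time -/
def tI (g : A T) : A T := mkA T fun z => ∫ s in (0 : ℝ)..z.1, ev g (s, z.2)

def tIv (V : Vec T) : Vec T := fun i => tI (V i)

/-- coordinate functions and the length of the label -/
def xA (T : ℝ) : Vec T := fun i => mkA T fun z => z.2.1 i

def nA (T : ℝ) : A T := mkA T fun z => ‖z.2.1‖

def tA (T : ℝ) : A T := mkA T fun z => z.1

/-- solver for the mean component; `Ji` is the inverse of the Jacobian -/
def Solv0 (F : Mat T) (Ji : A T) (w : ℝ → ℝ) (K θ : ℝ) (rlo r : Let → ℝ) : Prop :=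
  ∀ r' : Let → ℝ, (∀ i, rlo i ≤ r' i) → (∀ i, r' i ≤ r i) → ∀ c ε' : ℝ, 0 ≤ c → 0 < ε' →
    ∀ f : Vec T, InV 0 f → Eqv f → GBv 1 r' w c f →
      ∃ (ζ : Vec T) (q : A T) (e : Vec T),
        (Ji • gm F) *ᵥ dtv ζ - (Ji • Bf F + (Ji * Ji * pd lt F.det) • gm F) *ᵥ ζ - f = gr0 q + e ∧
        dv0 ζ = 0 ∧ InV 0 ζ ∧ In 0 q ∧ InV 0 e ∧ Eqv ζ ∧
        GBv 1 (sh θ 1 r') w (K * c) ζ ∧ GBv 1 (sh θ 1 r') w (ε' * c) e

/-- lower part of the background below level `j` -/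
def Xb (X0 : Vec T) (W : Fin 3 → Vec T) (j : Fin 4) : Vec T :=
  X0 + ∑ i : Fin 3, if i.succ < j then W i else 0

/-- background of one cycle -/
structure Bg (fr : Frame T) (K θ : ℝ) (rlo r : Let → ℝ) (w v : Fin 4 → ℝ → ℝ) (X0 : Vec T)
    (W : Fin 3 → Vec T) (Ji : Fin 4 → A T) : Prop where
  X_in : InV 0 X0
  X_eqv : Eqv X0
  W_bd : ∀ j, SB fr r (v j.succ) j.succ K (W j)
  W_eqv : ∀ j, Eqv (W j)
  F_bd : ∀ l, GBm 0 r w1 K (Dm fr (Xb X0 W l))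
  J_mul : ∀ l, Ji l * (Dm fr (Xb X0 W l)).det = 1
  J_bd : ∀ l, GB 0 r w1 K (Ji l)
  solv : ∀ j : Fin 3, SolvP fr j (Dm fr (Xb X0 W j.succ)) (w j.succ) K r
  solv0 : Solv0 (Dm fr X0) (Ji 0) (w 0) K θ rlo r

/-- `sin` and `cos` of a phase -/
def sn (T : ℝ) (j : Fin 3) : A T := mkA T fun z => Real.sin (z.2.2 j)

def cs (T : ℝ) (j : Fin 3) : A T := mkA T fun z => Real.cos (z.2.2 j)

/-! ### pointwise ODE notions -/

abbrev L3 : Type := E →L[ℝ] E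

/-- `x ↦ ⟪b, x⟫ a` -/
def r1 (a b : E) : L3 := InnerProductSpace.rankOne ℝ a b

/-- inverse of the metric `FᵀF` on the plane orthogonal to `k` -/
def Pio (F : L3) (k : E) : L3 :=
  Ring.inverse (star F * F) - (⟪k, Ring.inverse (star F * F) k⟫)⁻¹ •
    r1 (Ring.inverse (star F * F) k) (Ring.inverse (star F * F) k)

def Bop (F F1 : L3) : L3 := star F1 * F - star F * F1

def Mop (F F1 : L3) (k : E) : L3 := Pio F k * Bop F F1

/-- a priori bound for the forced linear system -/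
def Prp (T : ℝ) (M : ℝ → L3) (w : ℝ → ℝ) (K : ℝ) : Prop :=
  ∀ (y f : ℝ → E) (c : ℝ), 0 ≤ c → (∀ t ∈ Set.Ioo 0 T, HasDerivAt y (M t (y t) + f t) t) →
    Filter.Tendsto y (𝓝[>] 0) (𝓝 0) → (∀ t ∈ Set.Ioo 0 T, ‖f t‖ ≤ c * w t) →
    ∀ t ∈ Set.Ioo 0 T, ‖y t‖ ≤ K * c * w t

/-- the a priori bound at all points of the envelope of slot `j` -/
def PrpOn (fr : Frame T) (j : Fin 3) (F : Mat T) (w : ℝ → ℝ) (K : ℝ) : Prop :=
  ∀ z ∈ Sp T, z ∈ fr.Env j.succ →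
    Prp T (fun t => Mop (evm F (t, z.2)) (evm (dtm F) (t, z.2)) (evv (fr.k j) z)) w K

/-- the weight grows at least at rate `lam` -/
def Grow (T lam : ℝ) (w : ℝ → ℝ) : Prop :=
  (∀ t ∈ Set.Ioo 0 T, 0 ≤ w t) ∧
    ∀ s t, 0 < s → s ≤ t → t < T → w s ≤ Real.exp (-(lam * (t - s))) * w t

/-- a curve with two derivatives -/
structure Cv (X : Type) where
  f : ℝ → X
  f1 : ℝ → X
  f2 : ℝ → X

def Cv.Ok {X : Type} [NormedAddCommGroup X] [NormedSpace ℝ X] (T : ℝ) (F : Cv X) : Prop :=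
  ∀ t ∈ Set.Ioo 0 T, HasDerivAt F.f (F.f1 t) t ∧ HasDerivAt F.f1 (F.f2 t) t

def Cv.Near {X : Type} [NormedAddCommGroup X] (T ε : ℝ) (F G : Cv X) : Prop :=
  ∀ t ∈ Set.Ioo 0 T, ‖F.f t - G.f t‖ ≤ ε ∧ ‖F.f1 t - G.f1 t‖ ≤ ε ∧ ‖F.f2 t - G.f2 t‖ ≤ ε

/-- the curve `F (1 + η ⊗ k)` -/
def mulH (F : Cv L3) (η : Cv E) (k : E) : Cv L3 where
  f t := F.f t * (1 + r1 (η.f t) k)
  f1 t := F.f1 t * (1 + r1 (η.f t) k) + F.f t * r1 (η.f1 t) k
  f2 t := F.f2 t * (1 + r1 (η.f t) k) + (2 : ℝ) • (F.f1 t * r1 (η.f1 t) k) + F.f t * r1 (η.f2 t) k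

/-- the Cauchy invariants are constant up to `ε` -/
def Defect (T ε : ℝ) (F : Cv L3) : Prop :=
  ∀ t ∈ Set.Ioo 0 T, ‖star (F.f2 t) * F.f t - star (F.f t) * F.f2 t‖ ≤ ε

/-- amplitude of a wave on a central label, with an error `ε w(t)` in the equation -/
def Wave (T ε : ℝ) (w : ℝ → ℝ) (F : Cv L3) (k p : E) (η : Cv E) : Prop :=
  η.Ok T ∧ Filter.Tendsto η.f (𝓝[>] 0) (𝓝 0) ∧ ∃ (s : ℝ → ℝ) (e e1 : ℝ → E), ∀ t ∈ Set.Ioo 0 T,
    (star (F.f t) * F.f t) (η.f1 t) - Bop (F.f t) (F.f1 t) (η.f t) - p = s t • k + e t ∧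
    ⟪k, η.f t⟫ = 0 ∧ HasDerivAt e (e1 t) t ∧ ‖e t‖ ≤ ε * w t ∧ ‖e1 t‖ ≤ ε * w t

/-- the central label -/
def a0 : E := (Real.sqrt 14)⁻¹ • !₂[1, 2, 3]

def cz (t : ℝ) : Pt := (t, a0, 0)

def cenM (F : Mat T) : Cv L3 :=
  ⟨fun t => evm F (cz t), fun t => evm (dtm F) (cz t), fun t => evm (dtm (dtm F)) (cz t)⟩

def cenV (V : Vec T) : Cv E :=
  ⟨fun t => evv V (cz t), fun t => evv (dtv V) (cz t), fun t => evv (dtv (dtv V)) (cz t)⟩

/-! ### the canonical frame -/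

/-- bump: one on `x ≤ 1/4`, zero on `1 ≤ x` -/
def bmp (x : ℝ) : ℝ := Real.smoothTransition ((1 - x) * (4 / 3))

/-- squared distance of the direction of `a` to `g a0` -/
def dc (g : E ≃ₗᵢ[ℝ] E) (a : E) : ℝ := 2 - 2 * ⟪a, g a0⟫ / ‖a‖

/-- phase function -/
def Ph (k a : E) : ℝ := ∑ g : Gp, bmp (25 * dc g.1 a) * (⟪g.1 k, a⟫ / ‖a‖)

def phA (T : ℝ) (k : E) : A T := mkA T fun z => Ph k z.2.1

def vpA (T : ℝ) : A T := mkA T fun z => (1 - ∑ g : Gp, bmp (100 * dc g.1 z.2.1)) / ‖z.2.1‖ ^ 2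

def cone (δ : ℝ) : Set Pt := {z | ∃ g ∈ Gp, dc g z.2.1 ≤ δ ^ 2}

def node (δ : ℝ) (j : Fin 3) : Set Pt := {z | 1 - Real.cos (z.2.2 j) ≤ δ ^ 2}

/-- canonical frame: frequencies, three unit covectors, widths in the phases and in the label -/
def cf (T : ℝ) (N : Fin 4 → ℝ) (kv : Fin 3 → E) (δ δa : ℝ) : Frame T where
  N := N
  k j := gr0 (phA T (kv j))
  vp := vpA T
  ki j := mkA T fun z => (ev (gr0 (phA T (kv j)) ⬝ᵥ gr0 (phA T (kv j)) + vpA T) z)⁻¹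
  Env := ![Set.univ, cone (1 / 20), cone δa ∩ node δ 0,
    cone (δa ^ 3) ∩ node (δ ^ 3) 0 ∩ node (δ ^ 3) 1]

/-- width of the envelope of slot `j` -/
def wd (j : Fin 3) (δ : ℝ) : ℝ := if j = 2 then δ ^ 3 else δ

/-- source field of the wave in slot `j` -/
def pif (T : ℝ) (j : Fin 3) (p : E) (δ δa : ℝ) : Vec T := fun i => mkA T fun z =>
  (∑ g : Gp, bmp (dc g.1 z.2.1 / δa ^ 2) * ‖z.2.1‖ * g.1 p i) *
    ∏ l : Fin 3, if l < j then bmp ((1 - Real.cos (z.2.2 l)) / δ ^ 2) else 1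

/-- substitute the first two phases, move the third slot to the first, restrict the time -/
def unl (T' : ℝ) (N : Fin 4 → ℝ) (kv : Fin 3 → E) (f : A T) : A T' := mkA T' fun z =>
  ev f (z.1, z.2.1, !₂[N 1 * Ph (kv 0) z.2.1, N 2 * Ph (kv 1) z.2.1, z.2.2 0])

/-- substitute all phases, restrict the time -/
def ful (T' : ℝ) (N : Fin 4 → ℝ) (kv : Fin 3 → E) (f : A T) : A T' := mkA T' fun z =>
  ev f (z.1, z.2.1, !₂[N 1 * Ph (kv 0) z.2.1, N 2 * Ph (kv 1) z.2.1, N 3 * Ph (kv 2) z.2.1])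

/-- radii `ρ` in time and phases, `ρ / N` in the label -/
def rad (ρ N : ℝ) : Let → ℝ
  | some (Sum.inl _) => ρ / N
  | _ => ρ

end Pool.Agent.Lib.MP_fbbbeb_an.Cas
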