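import Mathlib
import Pool.Agent.Lib.MP_fbbbeb_an.Cas.Defs

/-! Statements of the parts of the cascade. -/

set_option autoImplicit false

noncomputable section

namespace Pool.Agent.Lib.MP_fbbbeb_an.Cas

open Pool.Agent.Lib.MP_fbbbeb_an.Pub
open scoped ContDiff Topology RealInnerProductSpace Matrix Nat ENNReal

/-! ### C. block solver -/

def RedSt : Prop := ∃ C : ℕ, ∀ (T : ℝ) (fr : Frame T) (K θ ε : ℝ) (r : Let → ℝ)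
    (w v : Fin 4 → ℝ → ℝ) (j : Fin 3) (y : ℝ), fr.Ok → Reg fr K θ ε r → Wt T K w v → 0 ≤ y →
    (∀ s : A T, Ty fr j.succ s → GB 2 r (w j.succ) (y / fr.N j.succ ^ 2) s →
      RW fr (sh θ 1 r) w (fun _ => ε * (K ^ C * y)) ((fr.N j.succ • s) • fr.k j)) ∧
    (∀ U : Vec T, Tyv fr j.succ U → GBv 2 r (w j.succ) (y / fr.N j.succ ^ 2) U →
      RV fr (sh θ 1 r) w (fun _ => ε * (K ^ C * y))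
        (dv fr (fr.N j.succ • crossProduct (fr.k j) U)))

/-- pure differential algebra -/
def AlgSt : Prop := ∀ (T : ℝ) (fr : Frame T), fr.Ok →
    (∀ Y Z : Vec T, Closed fr (web fr Y Z + (dtm (Dm fr Z))ᵀ *ᵥ Y)) ∧
    (∀ X Y Z : Vec T, dd (Dm fr X) (Dm fr Y) (Dm fr Z) = dv fr (cr (Dm fr X) (Dm fr Y) Z)) ∧
    (∀ P Q S : Mat T, dd P Q S = dd Q P S ∧ dd P Q S = dd P S Q) ∧
    (∀ P : Mat T, dd P P P = 6 * P.det) ∧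
    (∀ (P : Mat T) (z : Vec T), cr P P z = (2 : A T) • (P.adjugate *ᵥ z)) ∧
    (∀ (P : Mat T) (u k z : Vec T), cr P (Matrix.vecMulVec u k) z =
      crossProduct k fun l => -tp (fun i => P i l) u z) ∧
    (∀ X : Vec T, ∀ i l, D fr i (web fr X X l) - D fr l (web fr X X i) = Bf (Dm fr X) i l)

/-- terms that contain the rest `Q` of the background -/
def UpdQSt : Prop := ∃ C : ℕ, ∀ (T : ℝ) (fr : Frame T) (K θ ε : ℝ) (r : Let → ℝ)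
    (w v : Fin 4 → ℝ → ℝ) (j : Fin 4) (y : ℝ) (P Y : Vec T) (Q : Fin 4 → Vec T),
    fr.Ok → Reg fr K θ ε r → Wt T K w v → 0 ≤ y → y ≤ K → InV j P →
    GBm 0 r w1 K (Dm fr P) → FB fr r v (qq ε K j) Q → SB fr r (w j) j y Y →
    RW fr (sh θ 2 r) w (up ε j (K ^ C * y)) (web fr (∑ l, Q l) Y + web fr Y (∑ l, Q l)) ∧
    RV fr (sh θ 2 r) w (up ε j (K ^ C * y))
      (6 * dd (Dm fr Y) (Dm fr (∑ l, Q l)) (Dm fr P) +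
        3 * dd (Dm fr Y) (Dm fr (∑ l, Q l)) (Dm fr (∑ l, Q l)) +
        3 * dd (Dm fr Y) (Dm fr Y) (Dm fr (∑ l, Q l)))

/-- terms with two factors of the same frequency -/
def UpdSSt : Prop := ∃ C : ℕ, ∀ (T : ℝ) (fr : Frame T) (K θ ε : ℝ) (r : Let → ℝ)
    (w v : Fin 4 → ℝ → ℝ) (j : Fin 4) (y : ℝ) (Xl W Y : Vec T),
    fr.Ok → Reg fr K θ ε r → Wt T K w v → 0 ≤ y → y ≤ K → (j = 0 → W = 0 ∧ y ≤ ε) → InV j Xl →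
    GBm 0 r w1 K (Dm fr Xl) → SB fr r (v j) j K W → SB fr r (w j) j y Y →
    RW fr (sh θ 2 r) w (fun _ => ε * (K ^ C * y)) (web fr W Y + web fr Y W + web fr Y Y) ∧
    RV fr (sh θ 2 r) w (fun _ => ε * (K ^ C * y))
      (6 * dd (Dm fr Y) (Dm fr W) (Dm fr Xl) + 3 * dd (Dm fr Y) (Dm fr W) (Dm fr W) +
        3 * dd (Dm fr Y) (Dm fr Y) (Dm fr (Xl + W)) + dd (Dm fr Y) (Dm fr Y) (Dm fr Y))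

def UpdSt : Prop := ∃ C : ℕ, ∀ (T : ℝ) (fr : Frame T) (K θ ε : ℝ) (r : Let → ℝ)
    (w v : Fin 4 → ℝ → ℝ) (j : Fin 4) (y : ℝ) (c : Fin 4 → ℝ) (Xl W Y : Vec T)
    (Q : Fin 4 → Vec T),
    fr.Ok → Reg fr K θ ε r → Wt T K w v → 0 ≤ y → y ≤ K → (j = 0 → W = 0 ∧ y ≤ ε) → InV j Xl →
    GBm 0 r w1 K (Dm fr Xl) → SB fr r (v j) j K W → FB fr r v (qq ε K j) Q →
    SB fr r (w j) j y Y →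
    RW fr r w c (web fr (Xl + W + ∑ l, Q l) (Xl + W + ∑ l, Q l) +
      ((Dm fr Xl)ᵀ *ᵥ dtv Y - (dtm (Dm fr Xl))ᵀ *ᵥ Y)) →
    RV fr r w c ((Dm fr (Xl + W + ∑ l, Q l)).det - 1 + dv fr ((Dm fr Xl).adjugate *ᵥ Y)) →
    St fr (sh θ 3 r) w (c + up ε j (K ^ C * y)) (Xl + W + ∑ l, Q l + Y)

/-- the residual can be chosen equivariant -/
def SymSt : Prop := ∀ (T : ℝ) (fr : Frame T) (r : Let → ℝ) (w : Fin 4 → ℝ → ℝ) (c : Fin 4 → ℝ)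
    (X : Vec T), fr.Ok → (∀ i l, r (la i) = r (la l)) → (∀ i, 0 ≤ r i) → Eqv X → St fr r w c X →
    ∃ R1 R2 : Fin 4 → Vec T, FB fr r w c R1 ∧ FB fr r w c R2 ∧ (∀ l, Eqv (R1 l)) ∧
      (∀ l, Eqv (R2 l)) ∧ Closed fr (web fr X X - ∑ l, R1 l) ∧
      (Dm fr X).det - 1 = dv fr (∑ l, R2 l)

/-- removal of the component `j` of the residual -/
def KillAt (C : ℕ) (j : Fin 4) : Prop := ∀ (T : ℝ) (fr : Frame T) (K θ ε : ℝ)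
    (rlo r0 r : Let → ℝ) (w v : Fin 4 → ℝ → ℝ) (X0 : Vec T) (W : Fin 3 → Vec T)
    (Ji : Fin 4 → A T) (Cr : Fin 4 → Vec T) (c : Fin 4 → ℝ),
    fr.Ok → Reg fr K θ ε r → Wt T K w v → Bg fr K θ rlo r0 w v X0 W Ji →
    (∀ i l, r (la i) = r (la l)) → (∀ i, r i ≤ r0 i) → (∀ i, rlo i ≤ sh θ 2 r i) →
    FB fr r v (fun _ => ε) Cr → (∀ l, Eqv (Cr l)) → (∀ l, 0 ≤ c l) → K ^ C * c j ≤ ε →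
    St fr r w c (X0 + ∑ i, W i + ∑ l, Cr l) →
    ∃ Y : Vec T, Eqv Y ∧ SB fr (sh θ 8 r) (w j) j (K ^ C * c j) Y ∧
      St fr (sh θ 8 r) w (fun l => (if l = j then 0 else c l) + up ε j (K ^ C * c j) l)
        (X0 + ∑ i, W i + ∑ l, Cr l + Y)

def KillPSt : Prop := ∃ C : ℕ, ∀ j : Fin 3, KillAt C j.succ

def Kill0St : Prop := ∃ C : ℕ, KillAt C 0

def IterSt : Prop := ∃ C : ℕ, ∀ (T : ℝ) (fr : Frame T) (K θ ε : ℝ) (r : Let → ℝ)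
    (w v : Fin 4 → ℝ → ℝ) (X0 : Vec T) (W : Fin 3 → Vec T) (Ji : Fin 4 → A T) (c : ℝ) (M : ℕ),
    fr.Ok → Reg fr K θ ε r → Wt T K w v → Bg fr K θ (dvr r 2) r w v X0 W Ji →
    (∀ i l, r (la i) = r (la l)) → 1 / 2 ≤ θ ^ (40 * M) → ε * K ^ C ≤ 1 → 0 ≤ c → K ^ C * c ≤ ε →
    St fr r w (fun _ => c) (X0 + ∑ i, W i) →
    ∃ Cr : Fin 4 → Vec T, (∀ l, Eqv (Cr l)) ∧ FB fr (dvr r 2) w (fun _ => K ^ C * c) Cr ∧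
      St fr (dvr r 2) w (fun _ => c / 2 ^ M) (X0 + ∑ i, W i + ∑ l, Cr l)

/-- insertion of a wave in slot `j`; `Kl` is the size of the level, `K` the size of the losses -/
def InsSt : Prop := ∃ C : ℕ, ∀ (T : ℝ) (fr : Frame T) (K Kl θ ε ε' : ℝ) (r : Let → ℝ)
    (w v : Fin 4 → ℝ → ℝ) (j : Fin 3) (X p : Vec T) (c : Fin 4 → ℝ),
    fr.Ok → Reg fr K θ ε r → Wt T K w v → 2 ≤ Kl → Kl ≤ K → 0 < ε' → ε' ≤ ε →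
    InV j.castSucc X → Eqv X → GBm 0 r w1 Kl (Dm fr X) → GBm 0 r w1 Kl (dtm (Dm fr X)) →
    GBv (-1) r w1 Kl (fr.k j) → St fr r w c X → SolvP fr j (Dm fr X) (w j.succ) Kl r →
    Tyv fr j.succ p → InV j.castSucc p → dtv p = 0 → Eqv p → GBv 1 r (w j.succ) Kl p →
    ∃ (W η : Vec T) (s : A T) (e : Vec T),
      Eqv W ∧ SB fr r (w j.succ) j.succ (Kl ^ C) W ∧
      GBm 0 (sh θ 2 r) (w j.succ) (Kl ^ C + ε * K ^ C) (Dm fr W) ∧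
      GBm 0 (sh θ 2 r) (w j.succ) (Kl ^ C + ε * K ^ C) (dtm (Dm fr W)) ∧
      St fr (sh θ 6 r) w (fun l => c l + ε * K ^ C) (X + W) ∧
      gm (Dm fr X) *ᵥ dtv η - Bf (Dm fr X) *ᵥ η - p = s • fr.k j + e ∧ fr.k j ⬝ᵥ η = 0 ∧ Van η ∧
      GBv 1 r (w j.succ) ε' e ∧ Van W ∧
      (∀ z ∈ Om T, z.2.2 j = 0 →
        evm (Dm fr W) z = evm (Dm fr X) z * r1 (evv η z) (evv (fr.k j) z))

def SolvSt : Prop := ∃ C : ℕ, ∀ (T : ℝ) (fr : Frame T) (j : Fin 3) (F : Mat T) (Ji : A T)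
    (w : ℝ → ℝ) (K wmin : ℝ) (r : Let → ℝ), fr.Ok → 2 ≤ K → T ≤ 1 → (∀ i, 0 < r i) →
    (∀ i, r i ≤ 1) → (∀ i l, In j.castSucc (F i l)) → EqvM F → GBm 0 r w1 K F →
    GBm 0 r w1 K (dtm F) → Ji * F.det = 1 → GB 0 r w1 K Ji → GBv (-1) r w1 K (fr.k j) →
    GB (-2) r w1 K fr.vp → GB 2 r w1 K (fr.ki j) → 0 < wmin →
    (∀ t ∈ Set.Ioo 0 T, wmin ≤ w t ∧ w t ≤ K) → PrpOn fr j F w K →
    SolvP fr j F w (K ^ C) (dvr r (K ^ C))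

/-! ### pointwise facts on the projected system -/

/-- algebra of `Pio` -/
def PioSt : Prop :=
  (∀ (F : L3) (k : E) (K : ℝ), 0 < K → (∀ x, ‖x‖ ≤ K * ‖F x‖) → k ≠ 0 →
    (∀ x, ⟪k, Pio F k x⟫ = 0) ∧ (∀ x, ∃ s : ℝ, (star F * F) (Pio F k x) = x + s • k) ∧
    (∀ (y x : E) (s : ℝ), ⟪k, y⟫ = 0 → (star F * F) y = x + s • k → y = Pio F k x) ∧
    ‖Pio F k‖ ≤ K ^ 2) ∧
  (∃ C : ℕ, ∀ (F F1 G G1 : L3) (k k' : E) (K δ : ℝ), 2 ≤ K → ‖F‖ ≤ K → ‖F1‖ ≤ K → ‖G‖ ≤ K →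
    ‖G1‖ ≤ K → (∀ x, ‖x‖ ≤ K * ‖F x‖) → (∀ x, ‖x‖ ≤ K * ‖G x‖) → 1 ≤ K * ‖k‖ → ‖k‖ ≤ K →
    1 ≤ K * ‖k'‖ → ‖k'‖ ≤ K → ‖F - G‖ ≤ δ → ‖F1 - G1‖ ≤ δ → ‖k - k'‖ ≤ δ →
    ‖Mop F F1 k‖ ≤ K ^ C ∧ ‖Pio F k - Pio G k'‖ ≤ K ^ C * δ ∧
      ‖Mop F F1 k - Mop G G1 k'‖ ≤ K ^ C * δ)

/-- crude bound, perturbation, covariance -/
def PrpSt : Prop :=
  (∀ (T lam : ℝ) (M : ℝ → L3) (w : ℝ → ℝ), Grow T lam w → (∀ t ∈ Set.Ioo 0 T, ‖M t‖ + 1 ≤ lam) →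
    Prp T M w 1) ∧
  (∀ (T K L wmin : ℝ) (M M' : ℝ → L3) (w : ℝ → ℝ), 0 < K → 0 < wmin →
    (∀ t ∈ Set.Ioo 0 T, wmin ≤ w t ∧ w t ≤ L ∧ ‖M' t‖ ≤ L ∧ 2 * K * ‖M' t - M t‖ ≤ 1) →
    Prp T M w K → Prp T M' w (2 * K)) ∧
  (∀ (T K : ℝ) (F F1 G G1 : ℝ → L3) (k : E) (g : E ≃ₗᵢ[ℝ] E) (w : ℝ → ℝ),
    (∀ t x, G t (g x) = g (F t x)) → (∀ t x, G1 t (g x) = g (F1 t x)) →
    Prp T (fun t => Mop (F t) (F1 t) k) w K → Prp T (fun t => Mop (G t) (G1 t) (g k)) w K)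

/-- crude bound on an envelope -/
def CrudeSt : Prop := ∃ C : ℕ, ∀ (T : ℝ) (fr : Frame T) (j : Fin 3) (F : Mat T) (Ji : A T)
    (w : ℝ → ℝ) (K lam : ℝ) (r : Let → ℝ), fr.Ok → 2 ≤ K → GBm 0 r w1 K F →
    GBm 0 r w1 K (dtm F) → Ji * F.det = 1 → GB 0 r w1 K Ji → GBv (-1) r w1 K (fr.k j) →
    GB 2 r w1 K (fr.ki j) → Grow T lam w → K ^ C ≤ lam → PrpOn fr j F w 1

/-- admissible parameters of a canonical frame -/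
def CfOk (N : Fin 4 → ℝ) (kv : Fin 3 → E) (δ δa : ℝ) : Prop :=
  1 ≤ N 0 ∧ Monotone N ∧ (∀ j, ‖kv j‖ = 1 ∧ ⟪kv j, a0⟫ = 0) ∧ 0 < δ ∧ δ ≤ 1 / 20 ∧ 0 < δa ∧
    δa ≤ 1 / 20

/-- from the centre to the envelope -/
def EnvSt : Prop := ∃ C : ℕ, ∀ (T : ℝ) (N : Fin 4 → ℝ) (kv : Fin 3 → E) (δ δa : ℝ) (j : Fin 3)
    (F : Mat T) (Ji : A T) (w : ℝ → ℝ) (K wmin ρ N0 : ℝ), CfOk N kv δ δa → j ≠ 0 → 2 ≤ K →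
    0 < ρ → ρ ≤ 1 → 1 ≤ N0 → (∀ i l, In j.castSucc (F i l)) → EqvM F →
    GBm 0 (rad ρ N0) w1 K F → GBm 0 (rad ρ N0) w1 K (dtm F) → Ji * F.det = 1 →
    GB 0 (rad ρ N0) w1 K Ji → 0 < wmin → (∀ t ∈ Set.Ioo 0 T, wmin ≤ w t ∧ w t ≤ K) →
    K ^ C * wd j δ ≤ ρ → K ^ C * wd j δa ≤ ρ / N0 →
    Prp T (fun t => Mop ((cenM F).f t) ((cenM F).f1 t) (kv j)) w K →
    PrpOn (cf T N kv δ δa) j F w (2 * K)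

/-! ### geometry of the canonical frame, substitution of phases -/

def GeoSt : Prop := ∃ C : ℝ, 2 ≤ C ∧ ∀ (T : ℝ) (N : Fin 4 → ℝ) (kv : Fin 3 → E) (δ δa : ℝ),
    CfOk N kv δ δa → (cf T N kv δ δa).Ok ∧
    (∀ j, Ph (kv j) a0 = 0 ∧ Good T (fun z => Ph (kv j) z.2.1) ∧ InvG (phA T (kv j)) ∧
      Hom 0 (phA T (kv j))) ∧
    (∀ j, ∀ z ∈ Om T, dc 1 z.2.1 ≤ 1 / 100 → evv ((cf T N kv δ δa).k j) z =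
      ‖z.2.1‖⁻¹ • (kv j - (⟪kv j, z.2.1⟫ / ‖z.2.1‖ ^ 2) • z.2.1)) ∧
    (∀ r : Let → ℝ, (∀ i, 0 ≤ r i) → (∀ i, C * r (la i) ≤ 1) → ∀ j,
      GBv (-1) r w1 C ((cf T N kv δ δa).k j) ∧ GB 2 r w1 C ((cf T N kv δ δa).ki j) ∧
      GB (-2) r w1 C (vpA T))

def PifSt : Prop := ∃ C : ℝ, 2 ≤ C ∧ ∀ (T : ℝ) (N : Fin 4 → ℝ) (kv : Fin 3 → E) (δ δa : ℝ)
    (j : Fin 3) (p : E), CfOk N kv δ δa → j ≠ 0 →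
    Tyv (cf T N kv δ δa) j.succ (pif T j p (wd j δ) (wd j δa)) ∧ InV j.castSucc (pif T j p (wd j δ) (wd j δa)) ∧
    dtv (pif T j p (wd j δ) (wd j δa)) = 0 ∧ Eqv (pif T j p (wd j δ) (wd j δa)) ∧
    (∀ t ∈ Set.Ioo 0 T, evv (pif T j p (wd j δ) (wd j δa)) (cz t) = p) ∧
    ∀ r : Let → ℝ, (∀ i, 0 ≤ r i) → (∀ i, C * r (la i) ≤ wd j δa ^ 2) → (∀ l, C * r (lp l) ≤ wd j δ ^ 2) →
      GBv 1 r w1 (C * ‖p‖) (pif T j p (wd j δ) (wd j δa))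

/-- level of a function after the substitution -/
def dn (l : Fin 4) : Fin 4 := if l = 3 then 1 else 0

def UnlSt : Prop := ∃ C : ℝ, 2 ≤ C ∧ ∀ (T T' : ℝ) (N N' : Fin 4 → ℝ) (kv kv' : Fin 3 → E)
    (δ δa δ' δa' : ℝ), CfOk N kv δ δa → T' ≤ T → N' 1 = N 3 → kv' 0 = kv 2 →
    ∃ U : A T →ₐ[ℝ] A T', (∀ f, U f = unl T' N kv f) ∧
      (∀ f, pd lt (U f) = U (pd lt f)) ∧
      (∀ f i, D (cf T' N' kv' δ' δa') i (U f) = U (D (cf T N kv δ δa) i f)) ∧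
      (∀ f, In 1 (U f)) ∧ (∀ f, In 2 f → In 0 (U f)) ∧
      (∀ l f, Ty (cf T N kv δ δa) l f → Ty (cf T' N' kv' δ' δa') (dn l) (U f)) ∧
      (∀ V : Vec T, Eqv V → Eqv fun i => U (V i)) ∧
      (∀ f, ∀ t ∈ Set.Ioo 0 T', ev (U f) (cz t) = ev f (cz t)) ∧
      (∀ z ∈ Sp T', ∃ z' ∈ Sp T, z'.1 = z.1 ∧ ∀ f : A T, ev (U f) z = ev f z') ∧
      (∀ f, ful T' N' kv' (U f) = ful T' N kv f) ∧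
      ∀ (d : ℤ) (ρ : ℝ) (w : ℝ → ℝ) (M : ℝ) (f : A T), 0 < ρ → ρ ≤ 1 →
        GB d (rad ρ (N 2)) w M f → GB d (rad (ρ / C) (N 2)) w M (U f)

def FulSt : Prop := ∃ C : ℝ, 2 ≤ C ∧ ∀ (T T' : ℝ) (N : Fin 4 → ℝ) (kv : Fin 3 → E) (δ δa : ℝ),
    CfOk N kv δ δa → T' ≤ T →
    ∃ U : A T →ₐ[ℝ] A T', (∀ f, U f = ful T' N kv f) ∧
      (∀ f, pd lt (U f) = U (pd lt f)) ∧
      (∀ f i, pd (la i) (U f) = U (D (cf T N kv δ δa) i f)) ∧ (∀ f, In 0 (U f)) ∧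
      (∀ V : Vec T, Eqv V → Eqv fun i => U (V i)) ∧
      (∀ f, ∀ t ∈ Set.Ioo 0 T', ev (U f) (cz t) = ev f (cz t)) ∧
      (∀ z ∈ Sp T', ∃ z' ∈ Sp T, z'.1 = z.1 ∧ ∀ f : A T, ev (U f) z = ev f z') ∧
      ∀ (d : ℤ) (ρ : ℝ) (w : ℝ → ℝ) (M : ℝ) (f : A T), 0 < ρ → ρ ≤ 1 →
        GB d (rad ρ (N 3)) w M f → GB d (rad (ρ / C) (N 3)) w M (U f)

/-! ### B. base solver -/

/-- inverse of a homogeneous flow -/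
def FlowSt : Prop := ∀ (a b : ℝ) (X : ℝ → E → E),
    ContDiffOn ℝ ∞ (fun z : ℝ × E => X z.1 z.2) (Set.Ioo a b ×ˢ {0}ᶜ) →
    (∀ t ∈ Set.Ioo a b, ∀ x, x ≠ 0 → ∀ s : ℝ, 0 < s → X t (s • x) = s • X t x) →
    (∀ t ∈ Set.Ioo a b, ∀ x, x ≠ 0 → (fderiv ℝ (X t) x).det ≠ 0) →
    (∃ t0 ∈ Set.Ioo a b, ∀ x, ‖x‖ = 1 → ‖fderiv ℝ (X t0) x - 1‖ ≤ 1 / 2) →
    ∃ Y : ℝ → E → E, ContDiffOn ℝ ∞ (fun z : ℝ × E => Y z.1 z.2) (Set.Ioo a b ×ˢ {0}ᶜ) ∧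
      ∀ t ∈ Set.Ioo a b, ∀ x, x ≠ 0 → X t x ≠ 0 ∧ Y t x ≠ 0 ∧ Y t (X t x) = x ∧ X t (Y t x) = x ∧
        ∀ s : ℝ, 0 < s → Y t (s • x) = s • Y t x

def BaseSt : Prop := ∃ C : ℕ, ∀ (T : ℝ) (X0 : Vec T) (Ji : A T) (w : ℝ → ℝ) (K L θ lam : ℝ)
    (r rlo : Let → ℝ), 2 ≤ K → K ≤ L → T ≤ 1 → (∀ i, 0 < r i) → (∀ i, r i ≤ 1) →
    InV 0 X0 → Eqv X0 → (∀ i, Hom 1 (X0 i)) → GBm 0 r w1 K (D0m X0) →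
    GBm 0 r w1 K (dtm (D0m X0)) → Ji * (D0m X0).det = 1 → GB 0 r w1 K Ji →
    (∀ z ∈ Sp T, 0 < ev (D0m X0).det z) →
    (∃ t0 ∈ Set.Ioo 0 T, ∀ z ∈ Sp T, z.1 = t0 → ‖evm (D0m X0) z - 1‖ ≤ 1 / 2) →
    Grow T lam w → K ^ C ≤ lam → (∀ t ∈ Set.Ioo 0 T, w t ≤ L) → 1 / 2 ≤ θ → θ < 1 →
    1 ≤ L * (1 - θ) → (∀ i, 1 ≤ L * rlo i) →
    Solv0 (D0m X0) Ji w (L ^ C) θ rlo (dvr r (K ^ C))

/-! ### D. the ODE cascade -/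

def OdeStart (Pre : ℝ → ℝ → ℝ → Cv L3 → Prop) (C : ℕ) : Prop :=
  ∀ (l : ℝ) (U : L3) (F : Cv L3), (C : ℝ) ≤ l → ‖U‖ ≤ 10 → 1 / 10 ≤ ‖U a0‖ →
    (∀ x, ⟪a0, U x⟫ + ⟪x, U a0⟫ = 0) → F.Ok 1 →
    F.Near 1 (l ^ 22)⁻¹ ⟨fun t => 1 + (t * (l ^ 12)⁻¹) • U, fun _ => (l ^ 12)⁻¹ • U, fun _ => 0⟩ →
    Defect 1 (l ^ C)⁻¹ F →
    ∃ k p : E, ‖k‖ = 1 ∧ ⟪k, a0⟫ = 0 ∧ ‖p‖ ≤ l ^ C ∧
      ∀ η : Cv E, Wave 1 (l ^ C)⁻¹ w1 F k p η → ∀ Fn : Cv L3, Fn.Ok 1 →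
        Fn.Near 1 (l ^ C)⁻¹ (mulH F η k) → Pre l 1 (1 / 4) Fn

def OdeCyc (Pre : ℝ → ℝ → ℝ → Cv L3 → Prop) (C : ℕ) : Prop :=
  ∀ (l l' T s0 : ℝ) (F : Cv L3), (C : ℝ) ≤ l → l ^ C ≤ l' → T ≤ 1 → F.Ok T → Pre l T s0 F →
    Defect T (l' ^ C)⁻¹ F →
    ∃ (T' s amin : ℝ) (Aw : ℝ → ℝ) (k2 p2 k3 p3 : E), s0 < s ∧ s < T' ∧ T' ≤ T ∧ T' - s ≤ 1 / l ∧
      ‖k2‖ = 1 ∧ ⟪k2, a0⟫ = 0 ∧ ‖k3‖ = 1 ∧ ⟪k3, a0⟫ = 0 ∧ 0 < amin ∧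
      (∀ t ∈ Set.Ioo 0 T', amin ≤ Aw t ∧ Aw t ≤ l ^ C ∧
        (t ≤ s → Aw t ≤ l ^ C * Real.exp (-(l / 3))) ∧ ‖p2‖ ≤ l ^ C * Aw t ∧
        ‖p3‖ ≤ l' ^ C * Aw t) ∧
      l ≤ ‖F.f s‖ ∧ Prp T' (fun t => Mop (F.f t) (F.f1 t) k2) Aw (l ^ C) ∧
      ∀ η2 : Cv E, Wave T' (l' ^ C)⁻¹ Aw F k2 p2 η2 → ∀ F2 : Cv L3, F2.Ok T' →
        F2.Near T' (l' ^ C)⁻¹ (mulH F η2 k2) →
        Prp T' (fun t => Mop (F2.f t) (F2.f1 t) k3) Aw (l' ^ C) ∧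
        ∀ η3 : Cv E, Wave T' (l' ^ C)⁻¹ Aw F2 k3 p3 η3 → ∀ Fn : Cv L3, Fn.Ok T' →
          Fn.Near T' (l' ^ C)⁻¹ (mulH F2 η3 k3) → Pre l' T' s Fn

def OdeSt : Prop := ∃ (Pre : ℝ → ℝ → ℝ → Cv L3 → Prop) (C : ℕ), OdeStart Pre C ∧ OdeCyc Pre C

/-! ### E. cycles and limit -/

/-- data at the end of a cycle -/
structure EndD where
  T : ℝ
  s : ℝ
  ρ : ℝ
  N : Fin 4 → ℝ
  kv : Fin 3 → E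
  δ : ℝ
  δa : ℝ
  Xlo : Vec T
  Xhi : Vec T

def EndD.fr (d : EndD) : Frame d.T := cf d.T d.N d.kv d.δ d.δa

def EndD.r (d : EndD) : Let → ℝ := rad d.ρ (d.N 2)

/-- the approximate flow map with all phases substituted, on times below `T'` -/
def EndD.Xf (d : EndD) (T' : ℝ) : Vec T' := fun i => ful T' d.N d.kv ((d.Xlo + d.Xhi) i)

/-- state at the end of a cycle; the next growing level has gain parameter `x ^ B` -/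
structure EndP (Pre : ℝ → ℝ → ℝ → Cv L3 → Prop) (P B : ℕ) (t00 x : ℝ) (d : EndD) : Prop where
  t_pos : 0 < t00
  t_le : t00 ≤ d.s
  s_lt : d.s < d.T
  T_le : d.T ≤ 1
  cf_ok : CfOk d.N d.kv d.δ d.δa
  N_two : d.N 2 = ((x ^ B) ^ B) ^ 2
  N_three : d.N 3 = ((x ^ B) ^ B) ^ B
  rho_lo : 1 ≤ d.ρ * (x ^ B) ^ P
  rho_hi : d.ρ ≤ 1
  lo_in : InV 2 d.Xlo
  lo_eqv : Eqv d.Xlo
  lo_hom : ∀ i, Hom 1 (d.Xlo i)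
  lo_bd : GBm 0 d.r w1 (x ^ (P * P)) (Dm d.fr d.Xlo)
  lo_bdt : GBm 0 d.r w1 (x ^ (P * P)) (dtm (Dm d.fr d.Xlo))
  lo_det : ∀ z ∈ Sp d.T, 1 / 2 ≤ ev (Dm d.fr d.Xlo).det z
  hi_sb : SB d.fr d.r w1 3 ((x ^ B) ^ P) d.Xhi
  hi_eqv : Eqv d.Xhi
  hi_bd : GBm 0 d.r w1 ((x ^ B) ^ P) (Dm d.fr d.Xhi)
  hi_bdt : GBm 0 d.r w1 ((x ^ B) ^ P) (dtm (Dm d.fr d.Xhi))
  st : St d.fr d.r (fun _ => w1) (fun _ => Real.exp (-(x ^ B))) (d.Xlo + d.Xhi)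
  pre : Pre (x ^ B) d.T d.s (cenM (Dm d.fr (d.Xlo + d.Xhi)))
  small : ∀ z ∈ Sp d.T, z.1 ≤ t00 →
    ‖evm (Dm d.fr d.Xlo) z - 1‖ + ‖evm (Dm d.fr d.Xhi) z‖ ≤ 1 / 2 - 1 / x

/-- relation between consecutive states, `l = x ^ B` -/
structure Nx (Q : ℕ) (l : ℝ) (d d' : EndD) : Prop where
  T_le : d'.T ≤ d.T
  s_lt : d.s < d'.s
  inc : GBv 1 (fun _ => (l ^ Q)⁻¹) (fun t => Real.exp (-(l / 4 * (d'.T - t)))) (l ^ Q)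
    (d'.Xf d'.T - d.Xf d'.T)
  inc1 : ∀ z ∈ Sp d'.T, z.1 ≤ d'.s → ‖evm (D0m (d'.Xf d'.T - d.Xf d'.T)) z‖ ≤ 1 / l
  big : l ≤ ‖evm (Dm d.fr (d.Xlo + d.Xhi)) (cz d'.s)‖

/-- `P` is fixed first, then any large `B`, then any large `x` -/
def CycSt : Prop := ∀ (Pre : ℝ → ℝ → ℝ → Cv L3 → Prop) (C : ℕ), OdeCyc Pre C →
    ∃ P0 : ℕ, ∀ P ≥ P0, ∃ B0 : ℕ, ∀ B ≥ B0, ∃ (Q : ℕ) (x0 : ℝ), ∀ x ≥ x0, ∀ (t00 : ℝ) (d : EndD),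
      EndP Pre P B t00 x d → ∃ d' : EndD, EndP Pre P B t00 (x ^ B) d' ∧ Nx Q (x ^ B) d d'

def StartSt : Prop := ∀ (Pre : ℝ → ℝ → ℝ → Cv L3 → Prop) (C : ℕ), OdeStart Pre C →
    ∃ P0 : ℕ, ∀ P ≥ P0, ∃ B0 : ℕ, ∀ B ≥ B0, ∃ x0 : ℝ, ∀ x ≥ x0, ∃ (t00 : ℝ) (d : EndD),
      EndP Pre P B t00 x d

/-- a sequence of approximate flow maps without phases -/
structure SeqD where
  T : ℕ → ℝ
  s : ℕ → ℝ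
  L : ℕ → ℝ
  lam : ℕ → ℝ
  b : ℕ → ℝ
  t00 : ℝ
  X : ∀ m, Vec (T m)
  Y : ∀ m, Vec (T (m + 1))
  R1 : ∀ m, Vec (T m)
  R2 : ∀ m, Vec (T m)

structure SeqD.Ok (q : SeqD) : Prop where
  t_pos : 0 < q.t00
  t_le : q.t00 ≤ q.s 0
  s_mono : Monotone q.s
  T_anti : Antitone q.T
  s_lt : ∀ m, q.s m < q.T (m + 1)
  s_strict : q.s 0 < q.s 1
  L_one : ∀ m, 1 ≤ q.L m
  lam_pos : ∀ m, 0 ≤ q.lam m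
  sum_L : ∀ (n : ℕ) (η : ℝ), 0 < η → Summable fun m => q.L m ^ n * Real.exp (-(q.lam m * η))
  sum_b : Summable q.b
  X_in : ∀ m, InV 0 (q.X m)
  X_hom : ∀ m i, Hom 1 (q.X m i)
  X_eqv : ∀ m, Eqv (q.X m)
  Y_eq : ∀ m i, ∀ z ∈ Om (q.T (m + 1)), ev (q.Y m i) z = ev (q.X (m + 1) i) z - ev (q.X m i) z
  Y_bd : ∀ m, GBv 1 (fun _ => (q.L m)⁻¹) (fun t => Real.exp (-(q.lam m * (q.T (m + 1) - t))))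
    (q.L m) (q.Y m)
  Y_one : ∀ m, ∀ z ∈ Sp (q.T (m + 1)), z.1 ≤ q.s m → ‖evm (D0m (q.Y m)) z‖ ≤ q.b m
  R1_bd : ∀ m, GBv 1 (fun _ => (q.L m)⁻¹) w1 (q.L m * Real.exp (-q.lam m)) (q.R1 m)
  R2_bd : ∀ m, GBv 1 (fun _ => (q.L m)⁻¹) w1 (q.L m * Real.exp (-q.lam m)) (q.R2 m)
  web_eq : ∀ m, Closed0 ((D0m (q.X m))ᵀ *ᵥ dtv (q.X m) - q.R1 m)
  det_eq : ∀ m, (D0m (q.X m)).det - 1 = dv0 (q.R2 m)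
  small : ∀ m, ∀ z ∈ Sp (q.T m), z.1 ≤ q.t00 → ‖evm (D0m (q.X m)) z - 1‖ ≤ 1 / 2
  big : ∀ m : ℕ, (m : ℝ) ≤ ‖evm (D0m (q.X m)) (cz (q.s m))‖

def SeqSt : Prop := ∃ q : SeqD, q.Ok

/-- second time derivative -/
def dtt (X : ℝ → E → E) (t : ℝ) (x : E) : E := deriv (deriv fun s => X s x) t

/-- exact Lagrangian solution whose gradient is unbounded on the central label -/
structure LagSol (T t0 : ℝ) (X : ℝ → E → E) : Prop where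
  t_mem : t0 ∈ Set.Ioo 0 T
  smooth : ContDiffOn ℝ ∞ (fun z : ℝ × E => X z.1 z.2) (Set.Ioo 0 T ×ˢ {0}ᶜ)
  hom : ∀ t ∈ Set.Ioo 0 T, ∀ x, x ≠ 0 → ∀ s : ℝ, 0 < s → X t (s • x) = s • X t x
  eqv : ∀ t ∈ Set.Ioo 0 T, ∀ x, x ≠ 0 → ∀ g ∈ Gp, X t (g x) = g (X t x)
  det : ∀ t ∈ Set.Ioo 0 T, ∀ x, x ≠ 0 → (fderiv ℝ (X t) x).det = 1
  sym : ∀ t ∈ Set.Ioo 0 T, ∀ x, x ≠ 0 → ∀ v w : E,
    ⟪fderiv ℝ (X t) x v, fderiv ℝ (dtt X t) x w⟫ = ⟪fderiv ℝ (X t) x w, fderiv ℝ (dtt X t) x v⟫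
  small : ∀ x, ‖x‖ = 1 → ‖fderiv ℝ (X t0) x - 1‖ ≤ 1 / 2
  big : ∀ C : ℝ, ∃ t ∈ Set.Ico t0 T, C < ‖fderiv ℝ (X t) a0‖

def LimSt : Prop := ∀ q : SeqD, q.Ok → ∃ (T t0 : ℝ) (X : ℝ → E → E), LagSol T t0 X

def LagSt : Prop := ∀ (T t0 : ℝ) (X : ℝ → E → E), LagSol T t0 X →
    ∃ (u : ℝ → E → E) (p : ℝ → E → ℝ), IsSol (Gp : Set (E ≃ₗᵢ[ℝ] E)) (Set.Ioo 0 T) u p ∧
      ∫⁻ t in Set.Ioo t0 T, ⨆ x : {x : E // x ≠ 0}, ‖fderiv ℝ (u t) x‖ₑ = ⊤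

def AdmSt : Prop := Admissible (Gp : Set (E ≃ₗᵢ[ℝ] E))

/-- the final statement -/
def FinalSt : Prop := ∃ M : Set (E ≃ₗᵢ[ℝ] E), Admissible M ∧ ∃ T : ℝ, 0 < T ∧
    ∃ (u : ℝ → E → E) (p : ℝ → E → ℝ), IsSol M (Set.Ico 0 T) u p ∧
      ∫⁻ t in Set.Ioo 0 T, ⨆ x : {x : E // x ≠ 0}, ‖fderiv ℝ (u t) x‖ₑ = ⊤ ∧
      ¬ ∃ (T' : ℝ) (U : ℝ → E → E) (P : ℝ → E → ℝ), T < T' ∧ IsSol M (Set.Ioo 0 T') U P ∧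
        ∀ t ∈ Set.Ioo 0 T, ∀ x : E, x ≠ 0 → U t x = u t x

end Pool.Agent.Lib.MP_fbbbeb_an.Cas
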