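import Mathlib
import Pool.Agent.Lib.MP_fbbbeb_an.Cas.Stmt
import Pool.Agent.Lib.MP_fbbbeb_an.Lag.Adm

set_option autoImplicit false

noncomputable section

namespace Pool.Agent.Lib.MP_fbbbeb_an.Cas

open Pool.Agent.Lib.MP_fbbbeb_an.Pub

theorem admSt : AdmSt := by
  refine Lag.admissible (fun i => ?_) ?_
  · refine ⟨LinearIsometryEquiv.piLpCongrRight 2 fun j : Fin 3 =>
      if j = i then LinearIsometryEquiv.neg ℝ else LinearIsometryEquiv.refl ℝ ℝ, ?_, ?_⟩
    · refine ⟨0, fun j => if j = i then -1 else 1, fun j => ?_, fun a j => ?_⟩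
      · by_cases h : j = i <;> simp [h]
      · by_cases h : j = i <;> simp [h]
    · intro a j
      by_cases h : j = i <;> simp [h]
  · refine ⟨LinearIsometryEquiv.piLpCongrLeft 2 ℝ ℝ (Equiv.addRight (1 : Fin 3)).symm, ?_, ?_⟩
    · exact ⟨1, fun _ => 1, fun _ => Or.inl rfl, fun a j => by simp [Equiv.piCongrLeft']⟩
    · intro a j
      simp [Equiv.piCongrLeft']

end Pool.Agent.Lib.MP_fbbbeb_an.Cas
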