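import Mathlib
import Pool.Agent.Lib.MP_fbbbeb_an.Cas.Stmt
import Pool.Agent.Lib.MP_fbbbeb_an.C.Alg

/-! Differential algebra on the lifted ring: commutation, closed fields, Piola identities,
the expansions of an update. -/

set_option autoImplicit false

noncomputable section

namespace Pool.Agent.Lib.MP_fbbbeb_an.Cas.AK

open Pool.Agent.Lib.MP_fbbbeb_an.Pub
open scoped Matrix

variable {T : ℝ}

/-! ### multilinear algebra over any commutative ring -/

section Ring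

variable {R : Type*} [CommRing R]

theorem cr_alg (P Q : Matrix (Fin 3) (Fin 3) R) (z : Fin 3 → R) : cr P Q z = Alg.cr P Q z := by
  apply Alg.vext <;>
    simp [cr, tp, Alg.cr_0, Alg.cr_1, Alg.cr_2, cross_apply, dotProduct, Fin.sum_univ_three] <;>
    ring

theorem dd_alg (P Q S : Matrix (Fin 3) (Fin 3) R) : dd P Q S = Alg.dd P Q S := by
  simp only [dd, cr_alg, Fin.sum_univ_three, Alg.cr_0, Alg.cr_1, Alg.cr_2, Alg.dd, Alg.tp_eq]
  ring

variable (P P' Q Q' S S' : Matrix (Fin 3) (Fin 3) R) (z z' : Fin 3 → R)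

theorem dd_swap12 : dd P Q S = dd Q P S := by simp only [dd_alg]; exact Alg.dd_swap12 _ _ _
theorem dd_swap23 : dd P Q S = dd P S Q := by simp only [dd_alg]; exact Alg.dd_swap23 _ _ _
theorem dd_swap13 : dd P Q S = dd S Q P := by simp only [dd_alg]; exact Alg.dd_swap13 _ _ _
theorem dd_add1 : dd (P + P') Q S = dd P Q S + dd P' Q S := by
  simp only [dd_alg]; exact Alg.dd_add1 _ _ _ _
theorem dd_add2 : dd P (Q + Q') S = dd P Q S + dd P Q' S := by
  simp only [dd_alg]; exact Alg.dd_add2 _ _ _ _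
theorem dd_add3 : dd P Q (S + S') = dd P Q S + dd P Q S' := by
  simp only [dd_alg]; exact Alg.dd_add3 _ _ _ _
theorem dd_zero1 : dd 0 Q S = 0 := by simp only [dd_alg]; exact Alg.dd_zero1 _ _
theorem dd_zero2 : dd P 0 S = 0 := by simp only [dd_alg]; exact Alg.dd_zero2 _ _
theorem dd_zero3 : dd P Q 0 = 0 := by simp only [dd_alg]; exact Alg.dd_zero3 _ _
theorem dd_sum1 {ι : Type*} (s : Finset ι) (F : ι → Matrix (Fin 3) (Fin 3) R) :
    dd (∑ i ∈ s, F i) Q S = ∑ i ∈ s, dd (F i) Q S := by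
  simp only [dd_alg]; exact Alg.dd_sum1 _ _ _ _
theorem dd_sum2 {ι : Type*} (s : Finset ι) (F : ι → Matrix (Fin 3) (Fin 3) R) :
    dd P (∑ i ∈ s, F i) S = ∑ i ∈ s, dd P (F i) S := by
  simp only [dd_alg]; exact Alg.dd_sum2 _ _ _ _
theorem dd_sum3 {ι : Type*} (s : Finset ι) (F : ι → Matrix (Fin 3) (Fin 3) R) :
    dd P Q (∑ i ∈ s, F i) = ∑ i ∈ s, dd P Q (F i) := by
  simp only [dd_alg]; exact Alg.dd_sum3 _ _ _ _
theorem dd_self : dd P P P = 6 * P.det := by simp only [dd_alg]; exact Alg.dd_self _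
theorem cr_swap : cr P Q z = cr Q P z := by simp only [cr_alg]; exact Alg.cr_swap _ _ _
theorem cr_add1 : cr (P + P') Q z = cr P Q z + cr P' Q z := by
  simp only [cr_alg]; exact Alg.cr_add1 _ _ _ _
theorem cr_add2 : cr P (Q + Q') z = cr P Q z + cr P Q' z := by
  simp only [cr_alg]; exact Alg.cr_add2 _ _ _ _
theorem cr_add3 : cr P Q (z + z') = cr P Q z + cr P Q z' := by
  simp only [cr_alg]; exact Alg.cr_add3 _ _ _ _
theorem cr_self : cr P P z = (2 : R) • (P.adjugate *ᵥ z) := by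
  simp only [cr_alg]; exact Alg.cr_self _ _
theorem cr_rank_one (u k : Fin 3 → R) :
    cr P (Matrix.vecMulVec u k) z = crossProduct k fun l => -tp (fun i => P i l) u z := by
  rw [cr_alg, Alg.cr_rank_one]
  congr 1
  apply Alg.vext <;>
    simp [tp, cross_apply, Matrix.mulVec, dotProduct, Fin.sum_univ_three] <;> ring
theorem adj_mul : P.adjugate *ᵥ (P *ᵥ z) = P.det • z := Alg.adj_mul _ _

/-- increment of six times the determinant -/
theorem det_add6 (Y : Matrix (Fin 3) (Fin 3) R) :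
    6 * (P + Y).det = 6 * P.det + (3 * dd Y P P + 3 * dd Y Y P + dd Y Y Y) := by
  simp only [dd_alg]; exact Alg.det_add _ _

/-- the expansion used in an update -/
theorem det_update (Xb W Y : Matrix (Fin 3) (Fin 3) R) :
    6 * (Xb + W + Q + Y).det = 6 * (Xb + W + Q).det + (3 * dd Y Xb Xb
      + (6 * dd Y W Xb + 3 * dd Y W W + 3 * dd Y Y (Xb + W) + dd Y Y Y)
      + (6 * dd Y Q (Xb + W) + 3 * dd Y Q Q + 3 * dd Y Y Q)) := by
  simp only [dd_alg]; exact Alg.det_update _ _ _ _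

end Ring

/-! ### the lifted derivative -/

theorem der_mul (d : Derivation ℝ (A T) (A T)) (f g : A T) : d (f * g) = d f * g + f * d g :=
  Alg.der_mul d f g

theorem der_inv (d : Derivation ℝ (A T) (A T)) (ι J : A T) (h : ι * J = 1) :
    d ι = -(ι * ι * d J) := Alg.der_inv d ι J h

theorem Df_apply (fr : Frame T) (j i : Fin 3) (f : A T) :
    Df fr j i f = (fr.N j.succ • fr.k j i) * pd (lp j) f := by
  simp [Df]

theorem D_apply (fr : Frame T) (i : Fin 3) (f : A T) :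
    D fr i f = pd (la i) f + ∑ j : Fin 3, (fr.N j.succ • fr.k j i) * pd (lp j) f := by
  simp only [D, Fin.sum_univ_three, Derivation.add_apply, Df_apply]

theorem Dj_apply (fr : Frame T) (j i : Fin 3) (f : A T) :
    Dj fr j i f = D fr i f - (fr.N j.succ • fr.k j i) * pd (lp j) f := by
  simp only [Dj, Derivation.sub_apply, Df_apply]

theorem D_split (fr : Frame T) (j i : Fin 3) (f : A T) :
    D fr i f = Dj fr j i f + (fr.N j.succ • fr.k j i) * pd (lp j) f := by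
  rw [Dj_apply, sub_add_cancel]

theorem split (fr : Frame T) (j : Fin 3) :
    Alg.Split (D fr) (Dj fr j) (fr.N j.succ • fr.k j) (pd (lp j)) := fun i f => D_split fr j i f

theorem D_of_in (fr : Frame T) (i : Fin 3) {f : A T} (hf : In 0 f) : D fr i f = pd (la i) f := by
  rw [D_apply, Finset.sum_eq_zero, add_zero]
  intro j _
  rw [hf j (Fin.zero_le _), mul_zero]

variable {fr : Frame T}

theorem pt_D (h : fr.Ok) (i : Fin 3) (f : A T) : pd lt (D fr i f) = D fr i (pd lt f) := by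
  simp only [D_apply, map_add, map_sum, der_mul, Derivation.map_smul, h.k_t, smul_zero, zero_mul,
    zero_add, pd_comm lt]

theorem pp_D (h : fr.Ok) (l i : Fin 3) (f : A T) :
    pd (lp l) (D fr i f) = D fr i (pd (lp l) f) := by
  simp only [D_apply, map_add, map_sum, der_mul, Derivation.map_smul, h.k_p, smul_zero, zero_mul,
    zero_add]
  rw [pd_comm (lp l) (la i)]
  congr 1
  exact Finset.sum_congr rfl fun j _ => by rw [pd_comm (lp l) (lp j)]

theorem pt_Dj (h : fr.Ok) (j i : Fin 3) (f : A T) :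
    pd lt (Dj fr j i f) = Dj fr j i (pd lt f) := by
  simp only [Dj_apply, map_sub, pt_D h, der_mul, Derivation.map_smul, h.k_t, smul_zero, zero_mul,
    zero_add, pd_comm lt]

theorem pp_Dj (h : fr.Ok) (l j i : Fin 3) (f : A T) :
    pd (lp l) (Dj fr j i f) = Dj fr j i (pd (lp l) f) := by
  simp only [Dj_apply, map_sub, pp_D h, der_mul, Derivation.map_smul, h.k_p, smul_zero, zero_mul,
    zero_add]
  rw [pd_comm (lp l) (lp j)]

theorem D_k (h : fr.Ok) (j i l : Fin 3) : D fr i (fr.k j l) = pd (la i) (fr.k j l) :=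
  D_of_in fr i fun m _ => h.k_p j l m

theorem D_comm (h : fr.Ok) (i l : Fin 3) (f : A T) :
    D fr i (D fr l f) = D fr l (D fr i f) := by
  have key : ∀ i l : Fin 3, D fr i (D fr l f) = pd (la i) (pd (la l) f)
      + ∑ j : Fin 3, (fr.N j.succ • fr.k j i) * pd (lp j) (pd (la l) f)
      + ∑ j : Fin 3, (fr.N j.succ • pd (la i) (fr.k j l)) * pd (lp j) f
      + ∑ j : Fin 3, (fr.N j.succ • fr.k j l) * pd (lp j) (pd (la i) f)
      + ∑ j : Fin 3, ∑ m : Fin 3, (fr.N j.succ • fr.k j l) * ((fr.N m.succ • fr.k m i) *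
          pd (lp m) (pd (lp j) f)) := by
    intro i l
    have e : ∑ j : Fin 3, D fr i ((fr.N j.succ • fr.k j l) * pd (lp j) f)
        = ∑ j : Fin 3, (fr.N j.succ • pd (la i) (fr.k j l)) * pd (lp j) f
        + ∑ j : Fin 3, (fr.N j.succ • fr.k j l) * pd (lp j) (pd (la i) f)
        + ∑ j : Fin 3, ∑ m : Fin 3, (fr.N j.succ • fr.k j l) * ((fr.N m.succ • fr.k m i) *
          pd (lp m) (pd (lp j) f)) := by
      rw [← Finset.sum_add_distrib, ← Finset.sum_add_distrib]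
      refine Finset.sum_congr rfl fun j _ => ?_
      rw [der_mul, Derivation.map_smul, D_k h, D_apply fr i (pd (lp j) f), mul_add, Finset.mul_sum,
        pd_comm (la i) (lp j), add_assoc]
    rw [D_apply fr l f, map_add, map_sum, D_apply fr i (pd (la l) f), e]
    ring
  have e : ∑ j : Fin 3, ∑ m : Fin 3, (fr.N j.succ • fr.k j l) * ((fr.N m.succ • fr.k m i) *
      pd (lp m) (pd (lp j) f)) = ∑ j : Fin 3, ∑ m : Fin 3, (fr.N j.succ • fr.k j i) *
      ((fr.N m.succ • fr.k m l) * pd (lp m) (pd (lp j) f)) := by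
    rw [Finset.sum_comm]
    exact Finset.sum_congr rfl fun m _ => Finset.sum_congr rfl fun j _ => by
      rw [pd_comm (lp m) (lp j)]; ring
  rw [key i l, key l i, pd_comm (la i) (la l), e]
  simp only [h.k_curl _ i l]
  ring

theorem cmD (h : fr.Ok) : ∀ i j, Alg.Cm (D fr i) (D fr j) := fun i j f => D_comm h i j f
theorem cmT (h : fr.Ok) : ∀ i, Alg.Cm (pd lt) (D fr i) := fun i f => pt_D h i f

/-! ### bridge to the abstract file -/

theorem Dm_alg (X : Vec T) : Dm fr X = Alg.jac (D fr) X := rfl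
theorem dtv_alg (X : Vec T) : dtv X = Alg.dV (pd lt) X := rfl
theorem dtm_alg (F : Mat T) : dtm F = Alg.dM (pd lt) F := rfl
theorem gr_alg (q : A T) : gr fr q = Alg.grad (D fr) q := rfl
theorem dv_alg (X : Vec T) : dv fr X = Alg.dv (D fr) X := Fin.sum_univ_three _
theorem curl_alg (X : Vec T) : curl fr X = Alg.curl (D fr) X := by
  apply Alg.vext <;> rfl
theorem closed_alg (X : Vec T) : Closed fr X ↔ Alg.Closed (D fr) (pd lt) X := Iff.rfl
theorem Bf_alg (F : Mat T) : Bf F = Alg.bf F (dtm F) := rfl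

/-! ### linearity and product rules -/

theorem dtv_add (X Y : Vec T) : dtv (X + Y) = dtv X + dtv Y := Alg.dV_add _ X Y
theorem dtv_sub (X Y : Vec T) : dtv (X - Y) = dtv X - dtv Y := Alg.dV_sub _ X Y
theorem dtv_neg (X : Vec T) : dtv (-X) = -dtv X := Alg.dV_neg _ X
theorem dtv_zero : dtv (0 : Vec T) = 0 := Alg.dV_zero _
theorem dtv_smul (s : A T) (X : Vec T) : dtv (s • X) = pd lt s • X + s • dtv X :=
  Alg.dV_smul _ s X
theorem dtv_rsmul (c : ℝ) (X : Vec T) : dtv (c • X) = c • dtv X := by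
  funext i; simp [dtv]
theorem dtv_sum {ι : Type*} (s : Finset ι) (X : ι → Vec T) :
    dtv (∑ i ∈ s, X i) = ∑ i ∈ s, dtv (X i) := by
  funext i; simp [dtv, Finset.sum_apply, map_sum]
theorem dtv_mulVec (F : Mat T) (X : Vec T) : dtv (F *ᵥ X) = dtm F *ᵥ X + F *ᵥ dtv X :=
  Alg.dV_mulVec _ F X
theorem dtm_add (F G : Mat T) : dtm (F + G) = dtm F + dtm G := by
  ext i j : 2; simp [dtm]

theorem Dm_add (X Y : Vec T) : Dm fr (X + Y) = Dm fr X + Dm fr Y := Alg.jac_add _ X Y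
theorem Dm_sub (X Y : Vec T) : Dm fr (X - Y) = Dm fr X - Dm fr Y := Alg.jac_sub _ X Y
theorem Dm_zero : Dm fr (0 : Vec T) = 0 := Alg.jac_zero _
theorem Dm_sum {ι : Type*} (s : Finset ι) (X : ι → Vec T) :
    Dm fr (∑ i ∈ s, X i) = ∑ i ∈ s, Dm fr (X i) := Alg.jac_sum _ s X
theorem Dm_smul (s : A T) (X : Vec T) :
    Dm fr (s • X) = s • Dm fr X + Matrix.vecMulVec X (gr fr s) := Alg.jac_smul _ s X
theorem Dm_rsmul (c : ℝ) (X : Vec T) : Dm fr (c • X) = c • Dm fr X := by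
  ext i j : 2; simp [Dm]
theorem dtm_Dm (h : fr.Ok) (X : Vec T) : dtm (Dm fr X) = Dm fr (dtv X) :=
  Alg.dM_jac _ _ (cmT h) X
theorem Dm_of_in {X : Vec T} (hX : InV 0 X) : Dm fr X = D0m X := by
  funext i j; exact D_of_in fr j (hX i)
theorem dv_of_in {X : Vec T} (hX : InV 0 X) : dv fr X = dv0 X :=
  Finset.sum_congr rfl fun i _ => D_of_in fr i (hX i)
theorem gr_of_in {q : A T} (hq : In 0 q) : gr fr q = gr0 q := by
  funext i; exact D_of_in fr i hq

theorem gr_dot (X Y : Vec T) : gr fr (X ⬝ᵥ Y) = (Dm fr X)ᵀ *ᵥ Y + (Dm fr Y)ᵀ *ᵥ X :=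
  Alg.grad_dot _ X Y

theorem dv_add (X Y : Vec T) : dv fr (X + Y) = dv fr X + dv fr Y := by
  simp only [dv_alg]; exact Alg.dv_add _ X Y
theorem dv_sub (X Y : Vec T) : dv fr (X - Y) = dv fr X - dv fr Y := by
  simp only [dv_alg]; exact Alg.dv_sub _ X Y
theorem dv_neg (X : Vec T) : dv fr (-X) = -dv fr X := by
  simp only [dv_alg]; exact Alg.dv_neg _ X
theorem dv_zero : dv fr (0 : Vec T) = 0 := by
  simp only [dv_alg]; exact Alg.dv_zero _
theorem dv_sum {ι : Type*} (s : Finset ι) (X : ι → Vec T) :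
    dv fr (∑ i ∈ s, X i) = ∑ i ∈ s, dv fr (X i) := by
  simp only [dv_alg]; exact Alg.dv_sum _ s X
theorem dv_rsmul (c : ℝ) (X : Vec T) : dv fr (c • X) = c • dv fr X := by
  simp only [dv_alg]; exact Alg.dv_rsmul _ c X
theorem dv_smul (s : A T) (X : Vec T) : dv fr (s • X) = gr fr s ⬝ᵥ X + s * dv fr X := by
  simp only [dv_alg]; exact Alg.dv_smul _ s X
theorem dv_curl (h : fr.Ok) (U : Vec T) : dv fr (curl fr U) = 0 := by
  rw [dv_alg, curl_alg]; exact Alg.dv_curl _ (cmD h) U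

/-- V-lemma -/
theorem dd_eq_dv (h : fr.Ok) (X Y Z : Vec T) :
    dd (Dm fr X) (Dm fr Y) (Dm fr Z) = dv fr (cr (Dm fr X) (Dm fr Y) Z) := by
  rw [dd_alg, cr_alg, dv_alg]; exact (Alg.dv_cr _ (cmD h) X Y Z).symm

/-- main volume term -/
theorem dd_main (h : fr.Ok) (X Y : Vec T) :
    dd (Dm fr Y) (Dm fr X) (Dm fr X) = 2 * dv fr ((Dm fr X).adjugate *ᵥ Y) := by
  rw [dd_swap13, dd_alg, dv_alg]; exact (Alg.dv_adj _ (cmD h) X Y).symm

/-! ### closed fields -/

theorem closed_zero : Closed fr (0 : Vec T) := Alg.Closed.zero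
theorem closed_add {V W : Vec T} (hV : Closed fr V) (hW : Closed fr W) : Closed fr (V + W) :=
  Alg.Closed.add hV hW
theorem closed_neg {V : Vec T} (hV : Closed fr V) : Closed fr (-V) := Alg.Closed.neg hV
theorem closed_sub {V W : Vec T} (hV : Closed fr V) (hW : Closed fr W) : Closed fr (V - W) :=
  Alg.Closed.sub hV hW
theorem closed_rsmul {V : Vec T} (hV : Closed fr V) (c : ℝ) : Closed fr (c • V) :=
  Alg.Closed.rsmul hV c
theorem closed_sum {ι : Type*} (s : Finset ι) (V : ι → Vec T) (h : ∀ i ∈ s, Closed fr (V i)) :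
    Closed fr (∑ i ∈ s, V i) := Alg.Closed.sum s V h
theorem closed_gr (h : fr.Ok) (q : A T) : Closed fr (gr fr q) := Alg.Closed.grad (cmD h) q
theorem closed_const (h : fr.Ok) {V : Vec T} (hV : dtv V = 0) : Closed fr V :=
  Alg.Closed.const (cmT h) hV

/-! ### the Weber form -/

theorem web_add1 (X Y Z : Vec T) : web fr (X + Y) Z = web fr X Z + web fr Y Z := by
  simp only [web, Dm_add, Matrix.transpose_add, Matrix.add_mulVec]
theorem web_add2 (X Y Z : Vec T) : web fr X (Y + Z) = web fr X Y + web fr X Z := by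
  simp only [web, dtv_add, Matrix.mulVec_add]
theorem web_zero1 (Z : Vec T) : web fr 0 Z = 0 := by
  simp [web, Dm_zero]
theorem web_zero2 (Z : Vec T) : web fr Z 0 = 0 := by
  simp [web, dtv_zero]
theorem web_sum1 {ι : Type*} (s : Finset ι) (X : ι → Vec T) (Z : Vec T) :
    web fr (∑ i ∈ s, X i) Z = ∑ i ∈ s, web fr (X i) Z := by
  simp only [web, Dm_sum, Matrix.transpose_sum, Matrix.sum_mulVec]
theorem web_sum2 {ι : Type*} (s : Finset ι) (Z : Vec T) (X : ι → Vec T) :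
    web fr Z (∑ i ∈ s, X i) = ∑ i ∈ s, web fr Z (X i) := by
  simp only [web, dtv_sum, Matrix.mulVec_sum]

/-- the expansion used in an update -/
theorem web_update (Xb W Q Y : Vec T) :
    web fr (Xb + W + Q + Y) (Xb + W + Q + Y) = web fr (Xb + W + Q) (Xb + W + Q)
      + ((web fr Xb Y + web fr Y Xb) + (web fr W Y + web fr Y W + web fr Y Y)
        + (web fr Q Y + web fr Y Q)) := by
  simp only [web_add1, web_add2]; abel

/-- W-lemma, exact form: `web Y Z = -(D Z_t)ᵀ Y + gradient` -/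
theorem web_eq (h : fr.Ok) (Y Z : Vec T) :
    web fr Y Z = gr fr (Y ⬝ᵥ dtv Z) - (dtm (Dm fr Z))ᵀ *ᵥ Y := by
  rw [gr_dot, dtm_Dm h, web]; abel

/-- W-lemma: the space derivative moves from `Y` to `Z` -/
theorem closed_web_swap (h : fr.Ok) (Y Z : Vec T) :
    Closed fr (web fr Y Z + (dtm (Dm fr Z))ᵀ *ᵥ Y) := by
  rw [web_eq h, sub_add_cancel]; exact closed_gr h _

/-- product rule in time -/
theorem web_add_dt (Y Z : Vec T) :
    web fr Y Z + (dtm (Dm fr Y))ᵀ *ᵥ Z = dtv ((Dm fr Y)ᵀ *ᵥ Z) := by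
  rw [dtv_mulVec, web, add_comm]; rfl

/-- main Weber term for `Y = F η` -/
theorem main_web (F : Mat T) (η : Vec T) :
    Fᵀ *ᵥ dtv (F *ᵥ η) - (dtm F)ᵀ *ᵥ (F *ᵥ η) = gm F *ᵥ dtv η - Bf F *ᵥ η := by
  rw [dtv_mulVec]; exact Alg.main_alg F (dtm F) η (dtv η)

/-- main Weber term for `η = ζ / J` -/
theorem main_zero (F : Mat T) (Ji : A T) (hJ : Ji * F.det = 1) (ζ : Vec T) :
    gm F *ᵥ dtv (Ji • ζ) - Bf F *ᵥ (Ji • ζ)
      = (Ji • gm F) *ᵥ dtv ζ - (Ji • Bf F + (Ji * Ji * pd lt F.det) • gm F) *ᵥ ζ :=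
  Alg.main_zero (gm F) (Bf F) Ji F.det hJ ζ

/-- curl of the Weber form -/
theorem curl_web (h : fr.Ok) (X : Vec T) (i l : Fin 3) :
    D fr i (web fr X X l) - D fr l (web fr X X i) = Bf (Dm fr X) i l := by
  simp only [web, Bf, Dm, dtm, dtv, Matrix.mulVec, dotProduct, Fin.sum_univ_three,
    Matrix.transpose_apply, Matrix.of_apply, Matrix.sub_apply, Matrix.mul_apply, map_add, der_mul,
    pt_D h, D_comm h l i]
  ring

/-! ### splitting off the fast derivative of slot `j` -/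

/-- Jacobian without slot `j` -/
def Djm (fr : Frame T) (j : Fin 3) (X : Vec T) : Mat T := Matrix.of fun i l => Dj fr j l (X i)
/-- gradient without slot `j` -/
def grj (fr : Frame T) (j : Fin 3) (q : A T) : Vec T := fun i => Dj fr j i q
/-- curl without slot `j` -/
def curlj (fr : Frame T) (j : Fin 3) (U : Vec T) : Vec T :=
  fun l => Dj fr j (l + 1) (U (l + 2)) - Dj fr j (l + 2) (U (l + 1))
/-- phase derivative of a vector -/
def dpv (j : Fin 3) (V : Vec T) : Vec T := fun i => pd (lp j) (V i)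

theorem curlj_alg (j : Fin 3) (X : Vec T) : curlj fr j X = Alg.curl (Dj fr j) X := by
  apply Alg.vext <;> rfl

theorem Dm_split (j : Fin 3) (Z : Vec T) :
    Dm fr Z = Djm fr j Z + Matrix.vecMulVec (dpv j Z) (fr.N j.succ • fr.k j) :=
  (split fr j).jac Z

/-- Red1 -/
theorem red1_eq (j : Fin 3) (s sb sh : A T) (hs : s = sb + pd (lp j) sh) :
    s • (fr.N j.succ • fr.k j) = sb • (fr.N j.succ • fr.k j) - grj fr j sh + gr fr sh :=
  (split fr j).red1 s sb sh hs

/-- Red2 -/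
theorem red2_eq (j : Fin 3) (U Ub Uh : Vec T) (hU : U = Ub + dpv j Uh) :
    crossProduct (fr.N j.succ • fr.k j) U
      = crossProduct (fr.N j.succ • fr.k j) Ub - curlj fr j Uh + curl fr Uh := by
  rw [curlj_alg, curl_alg]; exact (split fr j).red2 U Ub Uh hU

/-- SW -/
theorem sw_eq (j : Fin 3) (Z Y : Vec T) :
    (Dm fr Z)ᵀ *ᵥ Y = (dpv j Z ⬝ᵥ Y) • (fr.N j.succ • fr.k j) + (Djm fr j Z)ᵀ *ᵥ Y :=
  (split fr j).sw Z Y

/-- SV -/
theorem sv_eq (j : Fin 3) (P : Mat T) (Z Y : Vec T) :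
    cr P (Dm fr Z) Y = crossProduct (fr.N j.succ • fr.k j) (Pᵀ *ᵥ crossProduct Y (dpv j Z))
      + cr P (Djm fr j Z) Y := by
  simp only [cr_alg]; exact (split fr j).sv P Z Y

/-- a field orthogonal to `k` and killed by `vp` is a cross product with `k` -/
theorem eq_cross_k (h : fr.Ok) (j : Fin 3) (ζ : Vec T) (hk : fr.k j ⬝ᵥ ζ = 0)
    (hv : fr.vp • ζ = 0) : ζ = crossProduct (fr.k j) (fr.ki j • crossProduct ζ (fr.k j)) :=
  Alg.eq_cross _ _ _ _ (h.ki_mul j) hk hv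

theorem vp_mul_ty (h : fr.Ok) (j : Fin 3) {f : A T} (hf : Ty fr j.succ f) : fr.vp * f = 0 := by
  refine A_ext fun z _ => ?_
  rw [ev_mul, ev_zero]
  by_cases hz : z ∈ fr.Env j.succ
  · have h1 : (1 : Fin 4) ≤ j.succ := by
      rw [Fin.le_def]; simp
    rw [h.vp_zero z (h.env_anti h1 hz), zero_mul]
  · rw [hf.2 z hz, mul_zero]

theorem vp_smul_tyv (h : fr.Ok) (j : Fin 3) {V : Vec T} (hV : Tyv fr j.succ V) :
    fr.vp • V = 0 := funext fun i => vp_mul_ty h j (hV i)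

end Pool.Agent.Lib.MP_fbbbeb_an.Cas.AK

namespace Pool.Agent.Lib.MP_fbbbeb_an.Cas

theorem algSt : AlgSt := fun _ _ h =>
  ⟨AK.closed_web_swap h, AK.dd_eq_dv h, fun P Q S => ⟨AK.dd_swap12 P Q S, AK.dd_swap23 P Q S⟩,
    AK.dd_self, AK.cr_self, fun P u k z => AK.cr_rank_one P z u k, AK.curl_web h⟩

end Pool.Agent.Lib.MP_fbbbeb_an.Cas
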