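import Pool.Agent.Lib.MP_fbbbeb_an.Cas.BaseR
import Pool.Agent.Lib.MP_fbbbeb_an.B.Chg
import Pool.Agent.Lib.MP_fbbbeb_an.B.KitT

/-! Interface between the algebra `A T` and section B: the base map. -/

set_option autoImplicit false

noncomputable section

namespace Pool.Agent.Lib.MP_fbbbeb_an.Cas.Bs

open Pool.Agent.Lib.MP_fbbbeb_an.Pub
open scoped ContDiff Topology RealInnerProductSpace Matrix Nat

variable {T : ℝ}

/-- the base map -/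
def xm (X0 : Vec T) : B.Y → E := fun y => evv X0 (y.1, y.2, 0)

theorem fd_xm (X0 : Vec T) {y : B.Y} (hy : y ∈ B.Om T) :
    HasFDerivAt (fun a => xm X0 (y.1, a)) (evm (D0m X0) (y.1, y.2, 0)) y.2 :=
  hasFDerivAt_evv_a X0 (z := (y.1, y.2, 0)) (mem_Om.2 hy)

theorem jac_xm (X0 : Vec T) {y : B.Y} (hy : y ∈ B.Om T) :
    B.jacT (xm X0) y = Matrix.of fun i j => res (D0m X0 i j) y := by
  ext i j
  rw [B.jacT, B.Chg.jac_apply (fd_xm X0 hy).differentiableAt, (fd_xm X0 hy).fderiv]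
  exact evm_single _ _ i j

theorem det_xm (X0 : Vec T) {y : B.Y} (hy : y ∈ B.Om T) :
    (B.jacT (xm X0) y).det = res (D0m X0).det y := by
  rw [B.jacT, B.Chg.det_jac (fd_xm X0 hy).differentiableAt, (fd_xm X0 hy).fderiv]
  exact (ev_det _ _).symm

theorem inv_xm (X0 : Vec T) {Ji : A T} (hJ : Ji * (D0m X0).det = 1) {y : B.Y} (hy : y ∈ B.Om T) :
    (B.jacT (xm X0) y).det⁻¹ = res Ji y := by
  rw [det_xm X0 hy]
  have h := congrArg (fun f => ev f (y.1, y.2, 0)) hJ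
  simp only [ev_mul, ev_one (mem_Om.2 hy)] at h
  exact (eq_inv_of_mul_eq_one_left h).symm

theorem ah_xm (X0 : Vec T) {Ji : A T} (hJ : Ji * (D0m X0).det = 1) {y : B.Y} (hy : y ∈ B.Om T)
    (i j : Fin 3) : B.ah (B.jacT (xm X0) y) i j =
      res ((Ji • ((D0m X0).adjugate * (D0m X0).adjugateᵀ)) i j) y := by
  have h1 : B.jacT (xm X0) y = (evA (y.1, y.2, 0) (mem_Om.2 hy)).mapMatrix (D0m X0) :=
    jac_xm X0 hy
  have h2 : ∀ a b, (B.jacT (xm X0) y).adjugate a b = res ((D0m X0).adjugate a b) y := by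
    intro a b
    rw [h1, ← AlgHom.map_adjugate]
    rfl
  rw [B.ah, inv_xm X0 hJ hy]
  simp only [Matrix.smul_apply, Matrix.mul_apply, Matrix.transpose_apply, smul_eq_mul, h2, res,
    ev_mul, ev_sum]

theorem ht_xm (X0 : Vec T) (hh : ∀ i, Hom 1 (X0 i)) (i : Fin 3) : B.Ht T 1 fun z => xm X0 z i :=
  res_ht (hh i)

theorem jac_scale (X0 : Vec T) (hh : ∀ i, Hom 1 (X0 i)) {t : ℝ} (ht : t ∈ Set.Ioo 0 T) {a : E}
    (ha : a ≠ 0) {l : ℝ} (hl : 0 < l) : B.jacT (xm X0) (t, l • a) = B.jacT (xm X0) (t, a) := by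
  have h1 : ((t, a) : B.Y) ∈ B.Om T := ⟨ht, ha⟩
  have h2 : ((t, l • a) : B.Y) ∈ B.Om T := ⟨ht, smul_ne_zero hl.ne' ha⟩
  rw [jac_xm X0 h1, jac_xm X0 h2]
  ext i j
  have h3 := ((res_ht (hh i)).da j).hom t ht l hl a ha
  rw [dd_res _ _ h1, dd_res _ _ h2] at h3
  simpa [D0m, emb] using h3

theorem pos_xm (X0 : Vec T) (hh : ∀ i, Hom 1 (X0 i)) (hp : ∀ z ∈ Sp T, 0 < ev (D0m X0).det z)
    {t : ℝ} (ht : t ∈ Set.Ioo 0 T) {a : E} (ha : a ≠ 0) : 0 < (B.jacT (xm X0) (t, a)).det := by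
  have hn : 0 < ‖a‖⁻¹ := inv_pos.2 (norm_pos_iff.2 ha)
  have h2 : ((t, ‖a‖⁻¹ • a) : B.Y) ∈ B.Om T := ⟨ht, smul_ne_zero hn.ne' ha⟩
  rw [← jac_scale X0 hh ht ha hn, det_xm X0 h2]
  exact hp _ ⟨ht.1, ht.2, norm_smul_inv_norm (𝕜 := ℝ) ha⟩

theorem dif_xm (hF : FlowSt) (X0 : Vec T) (he : Eqv X0) (hh : ∀ i, Hom 1 (X0 i))
    (hp : ∀ z ∈ Sp T, 0 < ev (D0m X0).det z)
    (h0 : ∃ t0 ∈ Set.Ioo 0 T, ∀ z ∈ Sp T, z.1 = t0 → ‖evm (D0m X0) z - 1‖ ≤ 1 / 2) :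
    B.DifT (Gp : Set (E ≃ₗᵢ[ℝ] E)) T (xm X0) := by
  obtain ⟨Yi, hs, hY⟩ := hF 0 T (fun t x => xm X0 (t, x))
    (contDiffOn_euclidean.2 fun i => (ht_xm X0 hh i).sm)
    (fun t ht x hx s hs => by
      ext i
      simpa using (ht_xm X0 hh i).hom t ht s hs x hx)
    (fun t ht x hx => by
      have h1 : ((t, x) : B.Y) ∈ B.Om T := ⟨ht, hx⟩
      have h2 := pos_xm X0 hh hp ht hx
      rw [B.jacT, B.Chg.det_jac (fd_xm X0 h1).differentiableAt] at h2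
      exact h2.ne')
    (by
      obtain ⟨t0, ht, h⟩ := h0
      refine ⟨t0, ht, fun x hx => ?_⟩
      have hx0 : x ≠ 0 := by
        intro e
        rw [e] at hx
        simp at hx
      have h1 : ((t0, x) : B.Y) ∈ B.Om T := ⟨ht, hx0⟩
      have h2 := (fd_xm X0 h1).fderiv
      exact h2 ▸ h (t0, x, 0) ⟨ht.1, ht.2, hx⟩ rfl)
  have hi : ∀ i, B.Ht T 1 fun z : B.Y => Yi z.1 z.2 i := fun i =>
    ⟨contDiffOn_euclidean.1 hs i, fun t ht l hl a ha => by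
      have := (hY t ht a ha).2.2.2.2 l hl
      simp [this]⟩
  refine ⟨ht_xm X0 hh, fun t ht => ⟨fun i => (ht_xm X0 hh i).sl ht, ?_, fun a ha => ?_,
    fun O hO a _ => ?_, Yi t, fun i => (hi i).sl ht, fun a ha => ?_⟩,
    fun z => Yi z.1 z.2, hi, fun t ht a ha => ?_⟩
  · exact Set.InvOn.bijOn (f' := Yi t)
      ⟨fun a ha => (hY t ht a ha).2.2.1, fun a ha => (hY t ht a ha).2.2.2.1⟩
      (fun a ha => (hY t ht a ha).1) fun a ha => (hY t ht a ha).2.1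
  · exact pos_xm X0 hh hp ht ha
  · have := he O hO (t, a, 0)
    exact this
  · exact ⟨(hY t ht a ha).2.1, (hY t ht a ha).2.2.2.1, (hY t ht a ha).2.2.1⟩
  · exact ⟨(hY t ht a ha).2.1, (hY t ht a ha).2.2.2.1, (hY t ht a ha).2.2.1⟩

end Pool.Agent.Lib.MP_fbbbeb_an.Cas.Bs
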