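import Mathlib
import Pool.Agent.Lib.MP_fbbbeb_an.Cas.Defs

set_option autoImplicit false

noncomputable section

namespace Pool.Agent.Lib.MP_fbbbeb_an.Cas

open Pool.Agent.Lib.MP_fbbbeb_an.Pub
open scoped ContDiff Topology RealInnerProductSpace Matrix Nat

variable {T : ℝ}

/-! ### evaluation of vectors and matrices -/

section
variable {U V : Vec T} {F G : Mat T} {f g : A T} {z : Pt}

@[simp] theorem evv_apply (V : Vec T) (z : Pt) (i : Fin 3) : evv V z i = ev (V i) z := rfl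
theorem evm_apply (F : Mat T) (z : Pt) (x : E) (i : Fin 3) :
    evm F z x i = ∑ l, ev (F i l) z * x l := by
  exact congrFun (Matrix.ofLp_toEuclideanCLM (Matrix.of fun i j => ev (F i j) z) x) i
theorem evv_add (U V : Vec T) (z : Pt) : evv (U + V) z = evv U z + evv V z := by
  ext i; simp
theorem evv_sub (U V : Vec T) (z : Pt) : evv (U - V) z = evv U z - evv V z := by
  ext i; simp
theorem evv_neg (U : Vec T) (z : Pt) : evv (-U) z = -evv U z := by
  ext i; simp
theorem evv_zero (z : Pt) : evv (0 : Vec T) z = 0 := by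
  ext i; simp
theorem evv_smul (c : ℝ) (U : Vec T) (z : Pt) : evv (c • U) z = c • evv U z := by
  ext i; simp
theorem evv_smulA (f : A T) (U : Vec T) (z : Pt) : evv (f • U) z = ev f z • evv U z := by
  ext i; simp
theorem evv_sum {ι : Type*} (s : Finset ι) (U : ι → Vec T) (z : Pt) :
    evv (∑ i ∈ s, U i) z = ∑ i ∈ s, evv (U i) z := by
  classical
  induction s using Finset.induction_on with
  | empty => simp [evv_zero]
  | insert a s ha ih => rw [Finset.sum_insert ha, Finset.sum_insert ha, evv_add, ih]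
theorem evv_mulVec (F : Mat T) (V : Vec T) (z : Pt) : evv (F *ᵥ V) z = evm F z (evv V z) := by
  ext i
  simp [evm_apply, Matrix.mulVec, dotProduct, ev_sum]
theorem ev_dot (U V : Vec T) (z : Pt) : ev (U ⬝ᵥ V) z = ⟪evv U z, evv V z⟫ := by
  simp [dotProduct, ev_sum, PiLp.inner_apply, mul_comm]
theorem evm_add (F G : Mat T) (z : Pt) : evm (F + G) z = evm F z + evm G z := by
  ext x i
  simp [evm_apply, add_mul, Finset.sum_add_distrib]
theorem evm_sub (F G : Mat T) (z : Pt) : evm (F - G) z = evm F z - evm G z := by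
  ext x i
  simp [evm_apply, sub_mul, Finset.sum_sub_distrib]
theorem evm_zero (z : Pt) : evm (0 : Mat T) z = 0 := by
  ext x i
  simp [evm_apply]
theorem evm_mul (F G : Mat T) (z : Pt) : evm (F * G) z = evm F z * evm G z := by
  ext x i
  simp only [evm_apply, Matrix.mul_apply, ev_add, ev_mul, mul_apply_eq_comp, Fin.sum_univ_three]
  ring
theorem evm_smul (c : ℝ) (F : Mat T) (z : Pt) : evm (c • F) z = c • evm F z := by
  ext x i
  simp [evm_apply, Finset.mul_sum, mul_assoc]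
theorem evm_smulA (f : A T) (F : Mat T) (z : Pt) : evm (f • F) z = ev f z • evm F z := by
  ext x i
  simp [evm_apply, Finset.mul_sum, mul_assoc]
theorem evm_neg (F : Mat T) (z : Pt) : evm (-F) z = -evm F z := by
  ext x i
  simp [evm_apply]
theorem evm_sum {ι : Type*} (s : Finset ι) (F : ι → Mat T) (z : Pt) :
    evm (∑ i ∈ s, F i) z = ∑ i ∈ s, evm (F i) z := by
  classical
  induction s using Finset.induction_on with
  | empty => simp [evm_zero]
  | insert a s ha ih => rw [Finset.sum_insert ha, Finset.sum_insert ha, evm_add, ih]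
theorem evm_transpose (F : Mat T) (z : Pt) : evm Fᵀ z = star (evm F z) := by
  rw [ContinuousLinearMap.star_eq_adjoint, ContinuousLinearMap.eq_adjoint_iff]
  intro x y
  simp only [PiLp.inner_apply, evm_apply, Matrix.transpose_apply, Fin.sum_univ_three,
    RCLike.inner_apply, conj_trivial]
  ring
theorem evm_one (hz : z ∈ Om T) : evm (1 : Mat T) z = 1 := by
  ext x i
  rw [evm_apply, Finset.sum_eq_single i]
  · simp [ev_one hz]
  · intro l _ hl
    simp [Matrix.one_apply_ne hl.symm]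
  · simp
theorem evm_vecMulVec (U V : Vec T) (z : Pt) :
    evm (Matrix.vecMulVec U V) z = r1 (evv U z) (evv V z) := by
  ext x i
  simp only [evm_apply, Matrix.vecMulVec_apply, ev_mul, r1, InnerProductSpace.rankOne_apply,
    PiLp.smul_apply, PiLp.inner_apply, evv_apply, Fin.sum_univ_three, smul_eq_mul,
    RCLike.inner_apply, conj_trivial]
  ring
theorem evm_single (F : Mat T) (z : Pt) (i l : Fin 3) :
    evm F z (EuclideanSpace.single l 1) i = ev (F i l) z := by
  rw [evm_apply, Finset.sum_eq_single l]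
  · simp
  · intro m _ hm
    simp [hm]
  · simp
theorem ev_det (F : Mat T) (z : Pt) : ev F.det z = (evm F z).det := by
  have h : LinearMap.toMatrix (EuclideanSpace.basisFun (Fin 3) ℝ).toBasis
      (EuclideanSpace.basisFun (Fin 3) ℝ).toBasis (evm F z : E →ₗ[ℝ] E) =
      Matrix.of fun i j => ev (F i j) z := by
    ext i j
    simp [LinearMap.toMatrix_apply, evm_single]
  rw [ContinuousLinearMap.det, ← LinearMap.det_toMatrix (EuclideanSpace.basisFun (Fin 3) ℝ).toBasis,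
    h, Matrix.det_fin_three, Matrix.det_fin_three]
  simp
theorem evm_gm (F : Mat T) (z : Pt) : evm (gm F) z = star (evm F z) * evm F z := by
  rw [gm, evm_mul, evm_transpose]
theorem evm_Bf (F : Mat T) (z : Pt) : evm (Bf F) z = Bop (evm F z) (evm (dtm F) z) := by
  rw [Bf, evm_sub, evm_mul, evm_mul, evm_transpose, evm_transpose, Bop]
theorem Vec_ext (h : ∀ z ∈ Om T, evv U z = evv V z) : U = V :=
  funext fun i => A_ext fun z hz => by simpa using congrArg (fun x : E => x i) (h z hz)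
theorem Mat_ext (h : ∀ z ∈ Om T, evm F z = evm G z) : F = G := by
  refine Matrix.ext fun i l => A_ext fun z hz => ?_
  rw [← evm_single F, ← evm_single G, h z hz]
theorem Ev.norm_sq (x : E) : ‖x‖ ^ 2 = x 0 ^ 2 + x 1 ^ 2 + x 2 ^ 2 := by
  rw [EuclideanSpace.real_norm_sq_eq, Fin.sum_univ_three]
theorem norm_evv_le {M : ℝ} (h : ∀ i, |ev (V i) z| ≤ M) : ‖evv V z‖ ≤ 2 * M := by
  have hM : 0 ≤ M := (abs_nonneg _).trans (h 0)
  refine abs_le_of_sq_le_sq' ?_ (by positivity) |>.2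
  rw [Ev.norm_sq]
  have h0 := sq_le_sq' (abs_le.1 (h 0)).1 (abs_le.1 (h 0)).2
  have h1 := sq_le_sq' (abs_le.1 (h 1)).1 (abs_le.1 (h 1)).2
  have h2 := sq_le_sq' (abs_le.1 (h 2)).1 (abs_le.1 (h 2)).2
  simp only [evv_apply]
  nlinarith [sq_nonneg M]
theorem abs_ev_le_evv (V : Vec T) (z : Pt) (i : Fin 3) : |ev (V i) z| ≤ ‖evv V z‖ := by
  simpa using PiLp.norm_apply_le (evv V z) i
theorem norm_evm_le {M : ℝ} (h : ∀ i l, |ev (F i l) z| ≤ M) : ‖evm F z‖ ≤ 3 * M := by
  have hM : 0 ≤ M := (abs_nonneg _).trans (h 0 0)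
  refine ContinuousLinearMap.opNorm_le_bound _ (by positivity) fun x => ?_
  refine abs_le_of_sq_le_sq' ?_ (by positivity) |>.2
  have row : ∀ i, (evm F z x i) ^ 2 ≤ 3 * M ^ 2 * ‖x‖ ^ 2 := by
    intro i
    have h0 := sq_le_sq' (abs_le.1 (h i 0)).1 (abs_le.1 (h i 0)).2
    have h1 := sq_le_sq' (abs_le.1 (h i 1)).1 (abs_le.1 (h i 1)).2
    have h2 := sq_le_sq' (abs_le.1 (h i 2)).1 (abs_le.1 (h i 2)).2
    have cs := Finset.sum_mul_sq_le_sq_mul_sq Finset.univ (fun l => ev (F i l) z) fun l => x l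
    rw [evm_apply, Ev.norm_sq]
    refine cs.trans ?_
    simp only [Fin.sum_univ_three]
    exact mul_le_mul_of_nonneg_right (by linarith) (by positivity)
  rw [Ev.norm_sq]
  have := row 0
  have := row 1
  have := row 2
  nlinarith
theorem abs_ev_le_evm (F : Mat T) (z : Pt) (i l : Fin 3) : |ev (F i l) z| ≤ ‖evm F z‖ := by
  rw [← evm_single]
  have h1 := PiLp.norm_apply_le (evm F z (EuclideanSpace.single l 1)) i
  have h2 := (evm F z).le_opNorm (EuclideanSpace.single l 1)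
  simp only [PiLp.norm_single, norm_one, mul_one] at h2
  exact h1.trans h2
theorem Ev.adj_le {K : ℝ} (h2 : ∀ i l, |ev (F i l) z| ≤ K) (i l : Fin 3) :
    |ev (F.adjugate i l) z| ≤ 2 * K ^ 2 := by
  have hK : 0 ≤ K := (abs_nonneg _).trans (h2 0 0)
  have p : ∀ a b c d : Fin 3, |ev (F a b) z * ev (F c d) z| ≤ K ^ 2 := fun a b c d => by
    rw [abs_mul, sq]; exact mul_le_mul (h2 a b) (h2 c d) (abs_nonneg _) hK
  have q : ∀ x y : ℝ, |x| ≤ K ^ 2 → |y| ≤ K ^ 2 → |x - y| ≤ 2 * K ^ 2 ∧ |-x + y| ≤ 2 * K ^ 2 :=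
    fun x y hx hy => by
      obtain ⟨a, b⟩ := abs_le.1 hx
      obtain ⟨c, d⟩ := abs_le.1 hy
      exact ⟨abs_le.2 ⟨by linarith, by linarith⟩, abs_le.2 ⟨by linarith, by linarith⟩⟩
  rw [Matrix.adjugate_fin_three]
  fin_cases i <;> fin_cases l <;>
    simp only [Fin.zero_eta, Fin.mk_one, Fin.reduceFinMk, Matrix.of_apply, Matrix.cons_val', Matrix.cons_val_zero, Matrix.cons_val_one,
      Matrix.cons_val_fin_one, Matrix.cons_val, ev_sub, ev_add, ev_neg, ev_mul] <;>
    first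
    | exact (q _ _ (p _ _ _ _) (p _ _ _ _)).1
    | exact (q _ _ (p _ _ _ _) (p _ _ _ _)).2
/-- lower bound from the inverse of the determinant -/
theorem le_norm_evm {Ji : A T} {K : ℝ} (hz : z ∈ Om T) (hJ : Ji * F.det = 1) (h1 : |ev Ji z| ≤ K)
    (h2 : ∀ i l, |ev (F i l) z| ≤ K) (x : E) : ‖x‖ ≤ 6 * K ^ 3 * ‖evm F z x‖ := by
  have hK : 0 ≤ K := (abs_nonneg _).trans h1
  have e : (Ji • F.adjugate) * F = 1 := by
    rw [Matrix.smul_mul, Matrix.adjugate_mul, smul_smul, hJ, one_smul]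
  have e2 : evm (Ji • F.adjugate) z (evm F z x) = x := by
    rw [← mul_apply_eq_comp, ← evm_mul, e, evm_one hz]; rfl
  have b : ‖evm (Ji • F.adjugate) z‖ ≤ 3 * (K * (2 * K ^ 2)) := norm_evm_le fun i l => by
    rw [Matrix.smul_apply, smul_eq_mul, ev_mul, abs_mul]
    exact mul_le_mul h1 (Ev.adj_le h2 i l) (abs_nonneg _) hK
  have := (evm (Ji • F.adjugate) z).le_of_opNorm_le b (evm F z x)
  rw [e2] at this
  linarith
theorem hasDerivAt_ev_t (f : A T) {t : ℝ} {y : E × E} (h : (t, y) ∈ Om T) :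
    HasDerivAt (fun s => ev f (s, y)) (ev (pd lt f) (t, y)) t := by
  have e : ∀ s : ℝ, ((0, y) : Pt) + s • vec lt = (s, y) := fun s => by
    simp [vec, Prod.ext_iff]
  have := hasDerivAt_ev lt f (0, y) t (by rw [e]; exact h)
  simpa only [e] using this
theorem Ev.evv_eq (V : Vec T) (z : Pt) :
    evv V z = ∑ i, ev (V i) z • (EuclideanSpace.single i 1 : E) := by
  ext i
  simp [Finset.sum_apply, Pi.single_apply]
theorem Ev.evm_eq (F : Mat T) (z : Pt) : evm F z = ∑ i, ∑ l, ev (F i l) z •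
    r1 (EuclideanSpace.single i 1) (EuclideanSpace.single l 1) := by
  ext x i
  simp [evm_apply, r1, Finset.sum_apply, Pi.single_apply, EuclideanSpace.inner_single_left]
theorem hasDerivAt_evv (V : Vec T) {t : ℝ} {y : E × E} (h : (t, y) ∈ Om T) :
    HasDerivAt (fun s => evv V (s, y)) (evv (dtv V) (t, y)) t := by
  simp only [Ev.evv_eq]
  exact HasDerivAt.fun_sum fun i _ => (hasDerivAt_ev_t (V i) h).smul_const _
theorem hasDerivAt_evm (F : Mat T) {t : ℝ} {y : E × E} (h : (t, y) ∈ Om T) :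
    HasDerivAt (fun s => evm F (s, y)) (evm (dtm F) (t, y)) t := by
  simp only [Ev.evm_eq]
  exact HasDerivAt.fun_sum fun i _ => HasDerivAt.fun_sum fun l _ =>
    (hasDerivAt_ev_t (F i l) h).smul_const
      (r1 (EuclideanSpace.single i 1) (EuclideanSpace.single l 1))
theorem ev_of_pd_t (h : pd lt f = 0) {s t : ℝ} {y : E × E} (hs : (s, y) ∈ Om T)
    (ht : (t, y) ∈ Om T) : ev f (s, y) = ev f (t, y) := by
  have hd : ∀ x ∈ Set.Ioo (0 : ℝ) T, HasDerivAt (fun s => ev f (s, y)) 0 x := fun x hx => by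
    have := hasDerivAt_ev_t f (t := x) (y := y) ⟨hx.1, hx.2, hs.2.2⟩
    rwa [h, ev_zero] at this
  exact isOpen_Ioo.is_const_of_deriv_eq_zero (f := fun s => ev f (s, y)) isPreconnected_Ioo
    (fun x hx => (hd x hx).differentiableAt.differentiableWithinAt) (fun x hx => (hd x hx).deriv)
    ⟨hs.1, hs.2.1⟩ ⟨ht.1, ht.2.1⟩
theorem ev_of_pd_p {j : Fin 3} (h : pd (lp j) f = 0) (z : Pt) (s : ℝ) :
    ev f (z + s • vec (lp j)) = ev f z := by
  by_cases hz : z ∈ Om T
  · have hd : ∀ x : ℝ, HasDerivAt (fun x : ℝ => ev f (z + x • vec (lp j))) 0 x := fun x => by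
      have := hasDerivAt_ev (lp j) f z x ((Om_shift z x j).2 hz)
      rwa [h, ev_zero] at this
    have := is_const_of_deriv_eq_zero (fun x => (hd x).differentiableAt) (fun x => (hd x).deriv) s 0
    simpa using this
  · rw [ev_out f hz, ev_out f fun h' => hz ((Om_shift z s j).1 h')]
theorem ev_of_in_zero (h : In 0 f) (z : Pt) (ψ : E) : ev f (z.1, z.2.1, ψ) = ev f z := by
  have e : ((z.1, z.2.1, ψ) : Pt) = z + (ψ 0 - z.2.2 0) • vec (lp 0) + (ψ 1 - z.2.2 1) • vec (lp 1)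
      + (ψ 2 - z.2.2 2) • vec (lp 2) := by
    refine Prod.ext (by simp [vec]) (Prod.ext (by simp [vec]) ?_)
    ext i
    fin_cases i <;> simp [vec]
  rw [e, ev_of_pd_p (h 2 (Fin.zero_le _)), ev_of_pd_p (h 1 (Fin.zero_le _)),
    ev_of_pd_p (h 0 (Fin.zero_le _))]
/-- derivative in the label -/
theorem hasFDerivAt_ev_a (f : A T) (hz : z ∈ Om T) :
    HasFDerivAt (fun a => ev f (z.1, a, z.2.2))
      (∑ l, ev (pd (la l) f) z • innerSL ℝ (EuclideanSpace.single l 1 : E)) z.2.1 := by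
  have h1 : HasFDerivAt (fun a : E => ((z.1, a, z.2.2) : Pt))
      ((0 : E →L[ℝ] ℝ).prod ((ContinuousLinearMap.id ℝ E).prod (0 : E →L[ℝ] E))) z.2.1 :=
    (hasFDerivAt_const _ _).prodMk ((hasFDerivAt_id _).prodMk (hasFDerivAt_const _ _))
  have h2 := (ev_diff f hz).hasFDerivAt.comp z.2.1 h1
  refine h2.congr_fderiv ?_
  ext x
  have e : (((0 : E →L[ℝ] ℝ).prod ((ContinuousLinearMap.id ℝ E).prod (0 : E →L[ℝ] E))) x : Pt) =
      ∑ l, x l • vec (la l) := by
    refine Prod.ext (by simp [vec, Fin.sum_univ_three])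
      (Prod.ext ?_ (by simp [vec, Fin.sum_univ_three]))
    ext i
    fin_cases i <;> simp [vec, Fin.sum_univ_three]
  rw [ContinuousLinearMap.comp_apply, e, map_sum]
  simp [ev_pd _ _ hz, EuclideanSpace.inner_single_left, mul_comm]
theorem hasFDerivAt_evv_a (V : Vec T) (hz : z ∈ Om T) :
    HasFDerivAt (fun a => evv V (z.1, a, z.2.2)) (evm (D0m V) z) z.2.1 := by
  simp only [Ev.evv_eq]
  refine (HasFDerivAt.fun_sum fun i _ =>
    (hasFDerivAt_ev_a (V i) hz).smul_const (EuclideanSpace.single i 1 : E)).congr_fderiv ?_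
  ext x i
  simp [evm_apply, D0m, Finset.sum_apply, Pi.single_apply, EuclideanSpace.inner_single_left]
/-- the label gradient is the Frechet derivative -/
theorem evm_D0m (V : Vec T) (hz : z ∈ Om T) :
    evm (D0m V) z = fderiv ℝ (fun a => evv V (z.1, a, z.2.2)) z.2.1 :=
  (hasFDerivAt_evv_a V hz).fderiv.symm
theorem norm_a0 : ‖a0‖ = 1 := by
  have h : ‖a0‖ ^ 2 = 1 ^ 2 := by
    have s : Real.sqrt 14 ^ 2 = 14 := Real.sq_sqrt (by norm_num)
    rw [Ev.norm_sq]
    simp only [a0, PiLp.smul_apply, smul_eq_mul, mul_pow, inv_pow, s]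
    simp
    norm_num
  exact (pow_left_inj₀ (norm_nonneg _) zero_le_one two_ne_zero).1 h
theorem cz_mem {t : ℝ} (h : t ∈ Set.Ioo 0 T) : cz t ∈ Sp T := ⟨h.1, h.2, norm_a0⟩
theorem cenM_ok (F : Mat T) : (cenM F).Ok T := fun _ ht =>
  ⟨hasDerivAt_evm F (Sp_sub T (cz_mem ht)), hasDerivAt_evm (dtm F) (Sp_sub T (cz_mem ht))⟩
theorem cenV_ok (V : Vec T) : (cenV V).Ok T := fun _ ht =>
  ⟨hasDerivAt_evv V (Sp_sub T (cz_mem ht)), hasDerivAt_evv (dtv V) (Sp_sub T (cz_mem ht))⟩
theorem Ev.r1_deriv {η : ℝ → E} {e : E} {t : ℝ} (k : E) (h : HasDerivAt η e t) :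
    HasDerivAt (fun s => r1 (η s) k) (r1 e k) t := by
  have := ((InnerProductSpace.rankOne ℝ (E := E) (F := E)).flip k).hasFDerivAt.comp_hasDerivAt t h
  exact this
theorem mulH_ok {P : Cv L3} {η : Cv E} (k : E) (h : P.Ok T) (h' : η.Ok T) : (mulH P η k).Ok T := by
  intro t ht
  obtain ⟨p0, p1⟩ := h t ht
  obtain ⟨e0, e1⟩ := h' t ht
  have a0 := (Ev.r1_deriv k e0).const_add (1 : L3)
  have a1 := Ev.r1_deriv k e1
  refine ⟨p0.fun_mul a0, ((p1.fun_mul a0).fun_add (p0.fun_mul a1)).congr_deriv ?_⟩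
  have two : ∀ X : L3, (2 : ℝ) • X = X + X := fun X => two_smul ℝ X
  simp only [mulH, two]
  abel
theorem Cv.near_of_eq {P Q : Cv L3} (h : P.Ok T) (h' : Q.Ok T)
    (he : ∀ t ∈ Set.Ioo 0 T, P.f t = Q.f t) : P.Near T 0 Q := by
  have h1 : ∀ t ∈ Set.Ioo 0 T, P.f1 t = Q.f1 t := fun t ht =>
    (h t ht).1.unique ((h' t ht).1.congr_of_eventuallyEq
      (Filter.eventually_of_mem (isOpen_Ioo.mem_nhds ht) he))
  have h2 : ∀ t ∈ Set.Ioo 0 T, P.f2 t = Q.f2 t := fun t ht =>
    (h t ht).2.unique ((h' t ht).2.congr_of_eventuallyEq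
      (Filter.eventually_of_mem (isOpen_Ioo.mem_nhds ht) h1))
  intro t ht
  simp [he t ht, h1 t ht, h2 t ht]
theorem Ev.good_x (i : Fin 3) : Good T fun z => z.2.1 i :=
  ⟨ContDiff.contDiffOn (by fun_prop), fun j z _ => by simp [vec]⟩
theorem Ev.good_n : Good T fun z => ‖z.2.1‖ :=
  ⟨fun z hz => ((contDiffAt_norm ℝ hz.2.2).comp z
    (f := fun z : Pt => z.2.1) (by fun_prop)).contDiffWithinAt, fun j z _ => by simp [vec]⟩
theorem Ev.good_t : Good T fun z => z.1 :=
  ⟨ContDiff.contDiffOn (by fun_prop), fun j z _ => by simp [vec]⟩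
theorem Ev.shift (j l : Fin 3) (z : Pt) (s : ℝ) :
    (z + s • vec (lp l)).2.2 j = z.2.2 j + if j = l then s else 0 := by
  simp [vec]
theorem Ev.good_s (j : Fin 3) : Good T fun z => Real.sin (z.2.2 j) :=
  ⟨ContDiff.contDiffOn (by fun_prop), fun l z _ => by
    simp only [Ev.shift]; split_ifs <;> simp⟩
theorem Ev.good_c (j : Fin 3) : Good T fun z => Real.cos (z.2.2 j) :=
  ⟨ContDiff.contDiffOn (by fun_prop), fun l z _ => by
    simp only [Ev.shift]; split_ifs <;> simp⟩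
theorem ev_xA (i : Fin 3) (hz : z ∈ Om T) : ev (xA T i) z = z.2.1 i := ev_mkA (Ev.good_x i) hz
theorem ev_nA (hz : z ∈ Om T) : ev (nA T) z = ‖z.2.1‖ := ev_mkA Ev.good_n hz
theorem ev_tA (hz : z ∈ Om T) : ev (tA T) z = z.1 := ev_mkA Ev.good_t hz
theorem ev_sn (j : Fin 3) (hz : z ∈ Om T) : ev (sn T j) z = Real.sin (z.2.2 j) :=
  ev_mkA (Ev.good_s j) hz
theorem ev_cs (j : Fin 3) (hz : z ∈ Om T) : ev (cs T j) z = Real.cos (z.2.2 j) :=
  ev_mkA (Ev.good_c j) hz
/-- the value of a derivative from a formula on the domain -/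
theorem ev_pd_of {ph : Pt → ℝ} {c : ℝ} {i : Let} (h : ∀ y ∈ Om T, ev f y = ph y) (hz : z ∈ Om T)
    (hd : HasDerivAt (fun s : ℝ => ph (z + s • vec i)) c 0) : ev (pd i f) z = c := by
  have h1 := hasDerivAt_ev i f z 0 (by simpa using hz)
  have h2 : ∀ᶠ s : ℝ in 𝓝 0, z + s • vec i ∈ Om T := by
    have hc : ContinuousAt (fun s : ℝ => z + s • vec i) 0 := by fun_prop
    exact hc.preimage_mem_nhds ((isOpen_Om T).mem_nhds (by simpa using hz))
  have h3 := hd.congr_of_eventuallyEq (h2.mono fun s hs => h _ hs)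
  simpa using h1.unique h3
theorem Ev.vec_a (i : Let) (l : Fin 3) : (vec i).2.1 l = if i = la l then 1 else 0 := by
  rcases i with _ | i | i <;> simp [vec, eq_comm]
theorem Ev.vec_p (i : Let) (l : Fin 3) : (vec i).2.2 l = if i = lp l then 1 else 0 := by
  rcases i with _ | i | i <;> simp [vec, eq_comm]
theorem Ev.vec_t (i : Let) : (vec i).1 = if i = lt then 1 else 0 := by
  rcases i with _ | i | i <;> simp [vec]
theorem Ev.line (a b : ℝ) : HasDerivAt (fun s : ℝ => a + s * b) b 0 := by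
  simpa using ((hasDerivAt_id (0 : ℝ)).mul_const b).const_add a
theorem pd_xA (i : Let) (l : Fin 3) : pd i (xA T l) = if i = la l then 1 else 0 :=
  A_ext fun z hz => by
    rw [ev_pd_of (fun y hy => ev_xA l hy) hz (Ev.line (z.2.1 l) ((vec i).2.1 l)), Ev.vec_a]
    split_ifs <;> simp [ev_one hz]
theorem pd_tA (i : Let) : pd i (tA T) = if i = lt then 1 else 0 :=
  A_ext fun z hz => by
    rw [ev_pd_of (fun y hy => ev_tA hy) hz (Ev.line z.1 (vec i).1), Ev.vec_t]
    split_ifs <;> simp [ev_one hz]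
theorem pd_sn (i : Let) (j : Fin 3) : pd i (sn T j) = if i = lp j then cs T j else 0 :=
  A_ext fun z hz => by
    rw [ev_pd_of (fun y hy => ev_sn j hy) hz (Ev.line (z.2.2 j) ((vec i).2.2 j)).sin, Ev.vec_p]
    split_ifs <;> simp [ev_cs j hz]
theorem pd_cs (i : Let) (j : Fin 3) : pd i (cs T j) = if i = lp j then -sn T j else 0 :=
  A_ext fun z hz => by
    rw [ev_pd_of (fun y hy => ev_cs j hy) hz (Ev.line (z.2.2 j) ((vec i).2.2 j)).cos, Ev.vec_p]
    split_ifs <;> simp [ev_sn j hz]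

end

end Pool.Agent.Lib.MP_fbbbeb_an.Cas
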