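import Mathlib
import Pool.Agent.Lib.MP_fbbbeb_an.Cas.Ev

/-! Closure properties of invariant functions, equivariant fields and equivariant matrices. -/

set_option autoImplicit false

noncomputable section

namespace Pool.Agent.Lib.MP_fbbbeb_an.Cas

open Pool.Agent.Lib.MP_fbbbeb_an.Pub
open scoped ContDiff Topology RealInnerProductSpace Matrix Nat

variable {T : ℝ}

section
variable {U V : Vec T} {F G : Mat T} {f g : A T} {z : Pt}

/-! ### the group -/

theorem exists_Gp (c : Fin 3) (s : Fin 3 → ℝ) (hs : ∀ i, s i = 1 ∨ s i = -1) :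
    ∃ g ∈ Gp, ∀ a : E, ∀ i, g a i = s i * a (i + c) := by
  have hss : ∀ i, s i * s i = 1 := fun i => by rcases hs i with h | h <;> simp [h]
  let e : E ≃ₗ[ℝ] E :=
    { toFun := fun a => WithLp.toLp 2 fun i => s i * a (i + c)
      invFun := fun b => WithLp.toLp 2 fun i => s (i - c) * b (i - c)
      map_add' := fun a b => by ext i; simp [mul_add]
      map_smul' := fun x a => by ext i; simp [mul_left_comm]
      left_inv := fun a => by ext i; simp [← mul_assoc, hss]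
      right_inv := fun a => by ext i; simp [← mul_assoc, hss] }
  have hn : ∀ a : E, ‖e a‖ = ‖a‖ := fun a => by
    rw [EuclideanSpace.norm_eq, EuclideanSpace.norm_eq]
    congr 1
    rw [← Equiv.sum_comp (Equiv.addRight c) fun i => ‖a i‖ ^ 2]
    refine Finset.sum_congr rfl fun i _ => ?_
    show ‖s i * a (i + c)‖ ^ 2 = ‖a (i + c)‖ ^ 2
    rcases hs i with h | h <;> simp [h]
  exact ⟨⟨e, hn⟩, ⟨c, s, hs, fun _ _ => rfl⟩, fun _ _ => rfl⟩

theorem gz_mem_Om (g : E ≃ₗᵢ[ℝ] E) : gz g z ∈ Om T ↔ z ∈ Om T := by simp [gz, Om]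

theorem gz_mem_Sp (g : E ≃ₗᵢ[ℝ] E) : gz g z ∈ Sp T ↔ z ∈ Sp T := by simp [gz, Sp]

namespace EG

theorem evv_out (V : Vec T) (hz : z ∉ Om T) : evv V z = 0 := by
  ext i
  simp [ev_out _ hz]

theorem evm_out (F : Mat T) (hz : z ∉ Om T) : evm F z = 0 := by
  ext x i
  simp [evm_apply, ev_out _ hz]

theorem inv_of (h : ∀ e ∈ Gp, ∀ z ∈ Om T, ev f (gz e z) = ev f z) : InvG f := by
  intro e he z
  by_cases hz : z ∈ Om T
  · exact h e he z hz
  · rw [ev_out _ hz, ev_out _ fun h' => hz ((gz_mem_Om e).1 h')]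

theorem eqv_of (h : ∀ e ∈ Gp, ∀ z ∈ Om T, evv V (gz e z) = e (evv V z)) : Eqv V := by
  intro e he z
  by_cases hz : z ∈ Om T
  · exact h e he z hz
  · rw [evv_out _ hz, evv_out _ fun h' => hz ((gz_mem_Om e).1 h'), map_zero]

theorem eqvM_of (h : ∀ e ∈ Gp, ∀ z ∈ Om T, ∀ x, evm F (gz e z) (e x) = e (evm F z x)) : EqvM F := by
  intro e he z x
  by_cases hz : z ∈ Om T
  · exact h e he z hz x
  · rw [evm_out _ hz, evm_out _ fun h' => hz ((gz_mem_Om e).1 h')]
    simp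

theorem line0 (i : Let) (f : A T) (hz : z ∈ Om T) :
    HasDerivAt (fun s : ℝ => ev f (z + s • vec i)) (ev (pd i f) z) 0 := by
  simpa using hasDerivAt_ev i f z 0 (by simpa using hz)

theorem line0v (i : Let) (V : Vec T) (hz : z ∈ Om T) :
    HasDerivAt (fun s : ℝ => evv V (z + s • vec i)) (evv (fun l => pd i (V l)) z) 0 :=
  (EuclideanSpace.equiv (Fin 3) ℝ).symm.toContinuousLinearMap.hasFDerivAt.comp_hasDerivAt (0 : ℝ)
    (hasDerivAt_pi.2 fun l => line0 i (V l) hz)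

theorem inv_pd {i : Let} (hi : ∀ (e : E ≃ₗᵢ[ℝ] E) (z : Pt) (s : ℝ),
    gz e (z + s • vec i) = gz e z + s • vec i) (h : InvG f) : InvG (pd i f) := by
  refine inv_of fun e he z hz => ?_
  have h1 := line0 i f ((gz_mem_Om e).2 hz)
  simp only [← hi, h e he] at h1
  exact h1.unique (line0 i f hz)

theorem eqv_pd {i : Let} (hi : ∀ (e : E ≃ₗᵢ[ℝ] E) (z : Pt) (s : ℝ),
    gz e (z + s • vec i) = gz e z + s • vec i) (h : Eqv V) : Eqv fun l => pd i (V l) := by
  refine eqv_of fun e he z hz => ?_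
  have h1 := line0v i V ((gz_mem_Om e).2 hz)
  simp only [← hi, h e he] at h1
  exact h1.unique
    (e.toContinuousLinearEquiv.toContinuousLinearMap.hasFDerivAt.comp_hasDerivAt (0 : ℝ)
      (line0v i V hz))

theorem gz_lt (e : E ≃ₗᵢ[ℝ] E) (z : Pt) (s : ℝ) : gz e (z + s • vec lt) = gz e z + s • vec lt := by
  simp [gz, vec]

theorem gz_lp (j : Fin 3) (e : E ≃ₗᵢ[ℝ] E) (z : Pt) (s : ℝ) :
    gz e (z + s • vec (lp j)) = gz e z + s • vec (lp j) := by
  simp [gz, vec]

/-- chain rule for a map that intertwines two isometries -/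
theorem fderiv_conj (Φ Ψ : E → E) (e e' : E ≃ₗᵢ[ℝ] E) (h : ∀ a, Φ (e a) = e' (Ψ a)) (a x : E) :
    fderiv ℝ Φ (e a) (e x) = e' (fderiv ℝ Ψ a x) := by
  have h1 := e.toContinuousLinearEquiv.comp_right_fderiv (f := Φ) (x := a)
  have h2 := e'.toContinuousLinearEquiv.comp_fderiv (f := Ψ) (x := a)
  have h3 : Φ ∘ e.toContinuousLinearEquiv = e'.toContinuousLinearEquiv ∘ Ψ := funext h
  rw [h3, h2] at h1
  exact (congrArg (fun L : E →L[ℝ] E => L x) h1).symm

/-- the matrix of values -/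
def mz (F : Mat T) (z : Pt) : Matrix (Fin 3) (Fin 3) ℝ := Matrix.of fun i j => ev (F i j) z

/-- the matrix of an isometry -/
def Pm (e : E ≃ₗᵢ[ℝ] E) : Matrix (Fin 3) (Fin 3) ℝ :=
  (Matrix.toEuclideanCLM (n := Fin 3) (𝕜 := ℝ)).symm (e.toContinuousLinearEquiv : E →L[ℝ] E)

theorem Pm_mul (e : E ≃ₗᵢ[ℝ] E) : (Pm e)ᵀ * Pm e = 1 := by
  apply EquivLike.injective (Matrix.toEuclideanCLM (n := Fin 3) (𝕜 := ℝ))
  have h : (Pm e)ᵀ = star (Pm e) := by
    rw [Matrix.star_eq_conjTranspose, Matrix.conjTranspose_eq_transpose_of_trivial]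
  rw [h, map_mul, map_star, map_one, Pm, StarAlgEquiv.apply_symm_apply]
  refine ContinuousLinearMap.ext fun x => ext_inner_right ℝ fun y => ?_
  rw [mul_apply_eq_comp, ContinuousLinearMap.star_eq_adjoint,
    ContinuousLinearMap.adjoint_inner_left]
  exact e.inner_map_map x y

theorem Pm_mul' (e : E ≃ₗᵢ[ℝ] E) : Pm e * (Pm e)ᵀ = 1 := mul_eq_one_comm.1 (Pm_mul e)

theorem Pm_det (e : E ≃ₗᵢ[ℝ] E) : (Pm e).det ≠ 0 := by
  intro h
  have h1 := congrArg Matrix.det (Pm_mul e)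
  rw [Matrix.det_mul, h] at h1
  simp at h1

theorem conj_iff (e : E ≃ₗᵢ[ℝ] E) (y z : Pt) :
    (∀ x, evm F y (e x) = e (evm G z x)) ↔ mz F y * Pm e = Pm e * mz G z := by
  rw [← (EquivLike.injective (Matrix.toEuclideanCLM (n := Fin 3) (𝕜 := ℝ))).eq_iff, map_mul,
    map_mul, Pm,
    StarAlgEquiv.apply_symm_apply, ContinuousLinearMap.ext_iff]
  rfl

theorem flip {M M' P : Matrix (Fin 3) (Fin 3) ℝ} (h1 : Pᵀ * P = 1) (h2 : P * Pᵀ = 1)
    (h : Pᵀ * M' = M * Pᵀ) : M' * P = P * M := by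
  calc M' * P = P * (Pᵀ * M') * P := by rw [← Matrix.mul_assoc, h2, Matrix.one_mul]
    _ = P * M := by rw [h, Matrix.mul_assoc, Matrix.mul_assoc, h1, Matrix.mul_one]

theorem mz_eq (F : Mat T) (hz : z ∈ Om T) : mz F z = (evA z hz).toRingHom.mapMatrix F := rfl

theorem mz_det (F : Mat T) (hz : z ∈ Om T) : ev F.det z = (mz F z).det := by
  rw [mz_eq F hz, ← RingHom.map_det]
  rfl

theorem mz_adj (F : Mat T) (hz : z ∈ Om T) : mz F.adjugate z = (mz F z).adjugate := by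
  rw [mz_eq F hz, mz_eq _ hz, RingHom.map_adjugate]

end EG

open EG

theorem InvG.zero : InvG (0 : A T) := fun _ _ _ => by simp
theorem InvG.const (c : ℝ) : InvG (algebraMap ℝ (A T) c) :=
  inv_of fun e _ z hz => by rw [ev_algebraMap c hz, ev_algebraMap c ((gz_mem_Om e).2 hz)]
theorem InvG.one : InvG (1 : A T) := by simpa using InvG.const (T := T) 1
theorem InvG.add (h : InvG f) (h' : InvG g) : InvG (f + g) :=
  fun e he z => by rw [ev_add, ev_add, h e he, h' e he]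
theorem InvG.sub (h : InvG f) (h' : InvG g) : InvG (f - g) :=
  fun e he z => by rw [ev_sub, ev_sub, h e he, h' e he]
theorem InvG.neg (h : InvG f) : InvG (-f) := fun e he z => by rw [ev_neg, ev_neg, h e he]
theorem InvG.mul (h : InvG f) (h' : InvG g) : InvG (f * g) :=
  fun e he z => by rw [ev_mul, ev_mul, h e he, h' e he]
theorem InvG.smul (c : ℝ) (h : InvG f) : InvG (c • f) :=
  fun e he z => by rw [ev_smul, ev_smul, h e he]
theorem InvG.sum {ι : Type*} (s : Finset ι) {f : ι → A T} (h : ∀ i ∈ s, InvG (f i)) :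
    InvG (∑ i ∈ s, f i) :=
  fun e he z => by rw [ev_sum, ev_sum]; exact Finset.sum_congr rfl fun i hi => h i hi e he z
theorem InvG.pow (h : InvG f) (n : ℕ) : InvG (f ^ n) := by
  induction n with
  | zero => simpa using InvG.one
  | succ n ih => rw [pow_succ]; exact ih.mul h
theorem InvG.pd_t (h : InvG f) : InvG (pd lt f) := inv_pd gz_lt h
theorem InvG.pd_p (j : Fin 3) (h : InvG f) : InvG (pd (lp j) f) := inv_pd (gz_lp j) h
theorem InvG.of_mul_eq_one (h : InvG f) (hg : g * f = 1) : InvG g := by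
  refine inv_of fun e he z hz => ?_
  have h1 := congrArg (fun q => ev q z) hg
  have h2 := congrArg (fun q => ev q (gz e z)) hg
  simp only [ev_mul, ev_one hz, ev_one ((gz_mem_Om e).2 hz), h e he z] at h1 h2
  exact mul_right_cancel₀ (right_ne_zero_of_mul_eq_one h1) (h2.trans h1.symm)
theorem InvG.gr0 (h : InvG f) : Eqv (gr0 f) := by
  refine eqv_of fun e he z hz => ?_
  have hz' := (gz_mem_Om (T := T) e).2 hz
  have key : ∀ y ∈ Om T, ∀ x : E, ⟪evv (Cas.gr0 f) y, x⟫ = evm (D0m fun _ => f) y x 0 := by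
    intro y _ x
    rw [evm_apply, PiLp.inner_apply]
    exact Finset.sum_congr rfl fun l _ => by simp [Cas.gr0, D0m, mul_comm]
  refine ext_inner_right ℝ fun x => ?_
  obtain ⟨x, rfl⟩ := e.surjective x
  rw [e.inner_map_map, key _ hz', key _ hz, evm_D0m _ hz, evm_D0m _ hz']
  have h1 := fderiv_conj (fun a => evv (fun _ => f) (z.1, a, z.2.2))
    (fun a => evv (fun _ => f) (z.1, a, z.2.2)) e (LinearIsometryEquiv.refl ℝ E)
    (fun a => by
      ext i
      exact h e he (z.1, a, z.2.2)) z.2.1 x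
  exact congrArg (fun v : E => v 0) h1
theorem invG_sn (j : Fin 3) : InvG (sn T j) :=
  inv_of fun e _ z hz => by rw [ev_sn j hz, ev_sn j ((gz_mem_Om e).2 hz)]; rfl
theorem invG_cs (j : Fin 3) : InvG (cs T j) :=
  inv_of fun e _ z hz => by rw [ev_cs j hz, ev_cs j ((gz_mem_Om e).2 hz)]; rfl
theorem invG_tA : InvG (tA T) :=
  inv_of fun e _ z hz => by rw [ev_tA hz, ev_tA ((gz_mem_Om e).2 hz)]; rfl
theorem invG_nA : InvG (nA T) :=
  inv_of fun e _ z hz => by rw [ev_nA hz, ev_nA ((gz_mem_Om e).2 hz)]; exact e.norm_map _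
theorem eqv_xA : Eqv (xA T) := by
  have key : ∀ y ∈ Om T, evv (xA T) y = y.2.1 := fun y hy => by
    ext i
    rw [evv_apply, ev_xA i hy]
  exact eqv_of fun e _ z hz => by rw [key _ hz, key _ ((gz_mem_Om e).2 hz)]; rfl
theorem Eqv.zero : Eqv (0 : Vec T) := fun e _ z => by rw [evv_zero, evv_zero, map_zero]
theorem Eqv.add (h : Eqv U) (h' : Eqv V) : Eqv (U + V) :=
  fun e he z => by rw [evv_add, evv_add, h e he, h' e he, map_add]
theorem Eqv.sub (h : Eqv U) (h' : Eqv V) : Eqv (U - V) :=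
  fun e he z => by rw [evv_sub, evv_sub, h e he, h' e he, map_sub]
theorem Eqv.neg (h : Eqv U) : Eqv (-U) := fun e he z => by rw [evv_neg, evv_neg, h e he, map_neg]
theorem Eqv.smul (c : ℝ) (h : Eqv U) : Eqv (c • U) :=
  fun e he z => by rw [evv_smul, evv_smul, h e he, map_smul]
theorem Eqv.smulA (hf : InvG f) (h : Eqv U) : Eqv (f • U) :=
  fun e he z => by rw [evv_smulA, evv_smulA, h e he, hf e he, map_smul]
theorem Eqv.sum {ι : Type*} (s : Finset ι) {U : ι → Vec T} (h : ∀ i ∈ s, Eqv (U i)) :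
    Eqv (∑ i ∈ s, U i) :=
  fun e he z => by
    rw [evv_sum, evv_sum, map_sum]
    exact Finset.sum_congr rfl fun i hi => h i hi e he z
theorem Eqv.dtv (h : Eqv U) : Eqv (dtv U) := eqv_pd gz_lt h
theorem Eqv.pd_p (j : Fin 3) (h : Eqv U) : Eqv fun l => pd (lp j) (U l) := eqv_pd (gz_lp j) h
theorem Eqv.dot (h : Eqv U) (h' : Eqv V) : InvG (U ⬝ᵥ V) :=
  fun e he z => by rw [ev_dot, ev_dot, h e he, h' e he, e.inner_map_map]
theorem Eqv.vecMulVec (h : Eqv U) (h' : Eqv V) : EqvM (Matrix.vecMulVec U V) :=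
  fun e he z x => by
    rw [evm_vecMulVec, evm_vecMulVec, h e he, h' e he]
    simp [r1, InnerProductSpace.rankOne_apply]
theorem Eqv.D0m (h : Eqv U) : EqvM (D0m U) := by
  refine eqvM_of fun e he z hz x => ?_
  rw [evm_D0m _ hz, evm_D0m _ ((gz_mem_Om e).2 hz)]
  exact fderiv_conj (fun a => evv U (z.1, a, z.2.2)) (fun a => evv U (z.1, a, z.2.2)) e e
    (fun a => h e he (z.1, a, z.2.2)) z.2.1 x
theorem EqvM.trace (h : EqvM F) : InvG F.trace := by
  intro e he z
  have h1 := (conj_iff e _ _).1 (h e he z)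
  have key : ∀ y, ev F.trace y = (mz F y).trace := fun y => by
    simp [Matrix.trace, ev_sum, mz]
  rw [key, key]
  calc (mz F (gz e z)).trace = (mz F (gz e z) * Pm e * (Pm e)ᵀ).trace := by
        rw [Matrix.mul_assoc, Pm_mul', Matrix.mul_one]
    _ = (mz F z).trace := by
        rw [h1, Matrix.trace_mul_comm, ← Matrix.mul_assoc, Pm_mul, Matrix.one_mul]
theorem Eqv.dv0 (h : Eqv U) : InvG (dv0 U) := h.D0m.trace
theorem EqvM.zero : EqvM (0 : Mat T) := fun e _ z x => by simp [evm_zero]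
theorem EqvM.one : EqvM (1 : Mat T) :=
  eqvM_of fun e _ z hz x => by rw [evm_one hz, evm_one ((gz_mem_Om e).2 hz)]; rfl
theorem EqvM.add (h : EqvM F) (h' : EqvM G) : EqvM (F + G) :=
  fun e he z x => by simp [evm_add, h e he z x, h' e he z x]
theorem EqvM.sub (h : EqvM F) (h' : EqvM G) : EqvM (F - G) :=
  fun e he z x => by simp [evm_sub, h e he z x, h' e he z x]
theorem EqvM.neg (h : EqvM F) : EqvM (-F) := by simpa using EqvM.zero.sub h
theorem EqvM.mul (h : EqvM F) (h' : EqvM G) : EqvM (F * G) :=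
  fun e he z x => by
    rw [evm_mul, evm_mul, mul_apply_eq_comp, mul_apply_eq_comp, h' e he z x, h e he z]
theorem EqvM.smul (c : ℝ) (h : EqvM F) : EqvM (c • F) :=
  fun e he z x => by simp [evm_smul, h e he z x]
theorem EqvM.smulA (hf : InvG f) (h : EqvM F) : EqvM (f • F) :=
  fun e he z x => by simp [evm_smulA, h e he z x, hf e he z]
theorem EqvM.sum {ι : Type*} (s : Finset ι) {F : ι → Mat T} (h : ∀ i ∈ s, EqvM (F i)) :
    EqvM (∑ i ∈ s, F i) :=
  Finset.sum_induction F EqvM (fun _ _ => EqvM.add) EqvM.zero h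
theorem EqvM.transpose (h : EqvM F) : EqvM Fᵀ := by
  intro e he z
  refine (conj_iff e _ _).2 (EG.flip (Pm_mul e) (Pm_mul' e) ?_)
  have h1 := congrArg Matrix.transpose ((conj_iff e _ _).1 (h e he z))
  rw [Matrix.transpose_mul, Matrix.transpose_mul] at h1
  exact h1
theorem EqvM.dtm (h : EqvM F) : EqvM (dtm F) := by
  refine eqvM_of fun e he z hz x => ?_
  have h1 := (hasDerivAt_evm F (t := z.1) (y := (e z.2.1, z.2.2))
    ((gz_mem_Om e).2 hz)).clm_apply (hasDerivAt_const z.1 (e x))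
  have h2 := (hasDerivAt_evm F (t := z.1) (y := z.2) hz).clm_apply (hasDerivAt_const z.1 x)
  have h3 := e.toContinuousLinearEquiv.toContinuousLinearMap.hasFDerivAt.comp_hasDerivAt z.1 h2
  have e1 : (fun s => evm F (s, e z.2.1, z.2.2) (e x)) = fun s => e (evm F (s, z.2) x) :=
    funext fun s => h e he (s, z.2) x
  rw [e1] at h1
  simpa [gz] using h1.unique h3
theorem EqvM.mulVec (h : EqvM F) (h' : Eqv V) : Eqv (F *ᵥ V) :=
  fun e he z => by rw [evv_mulVec, evv_mulVec, h' e he, h e he]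
theorem EqvM.det (h : EqvM F) : InvG F.det := by
  refine inv_of fun e he z hz => ?_
  have h1 := congrArg Matrix.det ((conj_iff e _ _).1 (h e he z))
  rw [Matrix.det_mul, Matrix.det_mul, mul_comm] at h1
  rw [mz_det F hz, mz_det F ((gz_mem_Om e).2 hz)]
  exact mul_left_cancel₀ (Pm_det e) h1
theorem EqvM.adjugate (h : EqvM F) : EqvM F.adjugate := by
  refine eqvM_of fun e he z hz => (conj_iff e _ _).2 (EG.flip (Pm_mul e) (Pm_mul' e) ?_)
  have h1 := congrArg Matrix.adjugate ((conj_iff e _ _).1 (h e he z))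
  have h2 : (Pm e).adjugate = (Pm e).det • (Pm e)ᵀ := by
    calc (Pm e).adjugate = (Pm e)ᵀ * (Pm e * (Pm e).adjugate) := by
          rw [← Matrix.mul_assoc, Pm_mul, Matrix.one_mul]
      _ = _ := by rw [Matrix.mul_adjugate, Matrix.mul_smul, Matrix.mul_one]
  rw [Matrix.adjugate_mul_distrib, Matrix.adjugate_mul_distrib, h2, Matrix.smul_mul,
    Matrix.mul_smul] at h1
  rw [mz_adj F hz, mz_adj F ((gz_mem_Om e).2 hz)]
  exact smul_right_injective _ (Pm_det e) h1
theorem EqvM.gm (h : EqvM F) : EqvM (gm F) := h.transpose.mul h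
theorem EqvM.Bf (h : EqvM F) : EqvM (Bf F) := (h.dtm.transpose.mul h).sub (h.transpose.mul h.dtm)
theorem Eqv.Dm {fr : Frame T} (hfr : fr.Ok) (h : Eqv U) : EqvM (Dm fr U) := by
  have e : Cas.Dm fr U = Cas.D0m U +
      ∑ j : Fin 3, fr.N j.succ • Matrix.vecMulVec (fun l => pd (lp j) (U l)) (fr.k j) := by
    ext i l : 2
    simp [Cas.Dm, Cas.D0m, D, Df, Matrix.vecMulVec_apply, mul_comm,
      Fin.sum_univ_three]
  rw [e]
  exact h.D0m.add (EqvM.sum _ fun j _ => ((h.pd_p j).vecMulVec (hfr.k_eqv j)).smul _)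
theorem Eqv.dv {fr : Frame T} (hfr : fr.Ok) (h : Eqv U) : InvG (dv fr U) := (h.Dm hfr).trace
theorem InvG.gr {fr : Frame T} (hfr : fr.Ok) (h : InvG f) : Eqv (gr fr f) := by
  have e : Cas.gr fr f = Cas.gr0 f + ∑ j : Fin 3, fr.N j.succ • (pd (lp j) f • fr.k j) := by
    funext i
    simp [Cas.gr, Cas.gr0, D, Df, mul_comm, Fin.sum_univ_three]
  rw [e]
  exact h.gr0.add (Eqv.sum _ fun j _ => (Eqv.smulA (h.pd_p j) (hfr.k_eqv j)).smul _)
theorem Eqv.web {fr : Frame T} (hfr : fr.Ok) (h : Eqv U) (h' : Eqv V) : Eqv (web fr U V) :=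
  (h.Dm hfr).transpose.mulVec h'.dtv
end

end Pool.Agent.Lib.MP_fbbbeb_an.Cas
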