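import Mathlib
import Pool.Agent.Lib.MP_fbbbeb_an.Cas.Defs
import Pool.Agent.Lib.MP_fbbbeb_an.Cas.Word

/-! Calculus of the Gevrey bounds. -/

set_option autoImplicit false

noncomputable section

namespace Pool.Agent.Lib.MP_fbbbeb_an.Cas

open Pool.Agent.Lib.MP_fbbbeb_an.Pub
open scoped ContDiff Topology RealInnerProductSpace Matrix Nat

variable {T : ℝ}

/-! ### words -/

@[simp] theorem pw_nil (f : A T) : pw [] f = f := rfl
theorem pw_cons (i : Let) (u : List Let) (f : A T) : pw (i :: u) f = pd i (pw u f) := rfl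

theorem pw_eq_dw (u : List Let) (f : A T) : pw u f = Word.dw pd u f := by
  induction u with
  | nil => rfl
  | cons i u ih => simp only [Word.dw_cons, pw_cons, ih]

theorem rpr_eq_rw (r : Let → ℝ) (u : List Let) : rpr r u = Word.rw r u := rfl

theorem pw_append (u v : List Let) (f : A T) : pw (u ++ v) f = pw u (pw v f) := by
  simp only [pw_eq_dw, Word.dw_append]
theorem pw_concat (u : List Let) (i : Let) (f : A T) : pw (u ++ [i]) f = pw u (pd i f) := by
  simp only [pw_eq_dw, Word.dw_concat]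
theorem pw_add (u : List Let) (f g : A T) : pw u (f + g) = pw u f + pw u g := by
  simp only [pw_eq_dw, Word.dw_add]
@[simp] theorem pw_zero (u : List Let) : pw u (0 : A T) = 0 := by simp only [pw_eq_dw, Word.dw_zero]
theorem pw_smul (u : List Let) (c : ℝ) (f : A T) : pw u (c • f) = c • pw u f := by
  simp only [pw_eq_dw, Word.dw_smul]
theorem pw_neg (u : List Let) (f : A T) : pw u (-f) = -pw u f := by
  simp only [pw_eq_dw, Word.dw_neg]
theorem pw_sub (u : List Let) (f g : A T) : pw u (f - g) = pw u f - pw u g := by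
  rw [sub_eq_add_neg, pw_add, pw_neg, sub_eq_add_neg]
theorem pw_sum {ι : Type*} (u : List Let) (s : Finset ι) (f : ι → A T) :
    pw u (∑ i ∈ s, f i) = ∑ i ∈ s, pw u (f i) := by simp only [pw_eq_dw, Word.dw_sum]

theorem pw_pd (u : List Let) (i : Let) (f : A T) : pw u (pd i f) = pd i (pw u f) := by
  induction u with
  | nil => rfl
  | cons j u ih => rw [pw_cons, ih, pw_cons, pd_comm]

theorem pw_perm {u v : List Let} (h : u.Perm v) (f : A T) : pw u f = pw v f := by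
  induction h with
  | nil => rfl
  | cons i _ ih => rw [pw_cons, pw_cons, ih]
  | swap i j u => rw [pw_cons, pw_cons, pw_cons, pw_cons, pd_comm]
  | trans _ _ h1 h2 => rw [h1, h2]

theorem pw_comm (u v : List Let) (f : A T) : pw u (pw v f) = pw v (pw u f) := by
  rw [← pw_append, ← pw_append, pw_perm List.perm_append_comm]

theorem pw_eq_zero_of_mem {u : List Let} {i : Let} (hi : i ∈ u) {f : A T} (hf : pd i f = 0) :
    pw u f = 0 := by
  obtain ⟨a, b, rfl⟩ := List.append_of_mem hi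
  rw [pw_append, pw_cons, ← pw_pd, hf, pw_zero, pw_zero]

@[simp] theorem rpr_nil (r : Let → ℝ) : rpr r [] = 1 := rfl
theorem rpr_cons (r : Let → ℝ) (i : Let) (u : List Let) :
    rpr r (i :: u) = r i * rpr r u := Word.rw_cons r i u
theorem rpr_append (r : Let → ℝ) (u v : List Let) : rpr r (u ++ v) = rpr r u * rpr r v :=
  Word.rw_append r u v
theorem rpr_nonneg {r : Let → ℝ} (hr : ∀ i, 0 ≤ r i) (u : List Let) : 0 ≤ rpr r u :=
  Word.rw_nonneg hr u
theorem rpr_pos {r : Let → ℝ} (hr : ∀ i, 0 < r i) (u : List Let) : 0 < rpr r u :=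
  Word.rw_pos hr u
theorem rpr_perm (r : Let → ℝ) {u v : List Let} (h : u.Perm v) : rpr r u = rpr r v :=
  (h.map r).prod_eq
theorem rpr_le {r r' : Let → ℝ} {x : ℝ} (hr : ∀ i, 0 ≤ r' i) (h : ∀ i, r' i ≤ x * r i)
    (u : List Let) : rpr r' u ≤ x ^ u.length * rpr r u := Word.rw_le_mul hr h u
theorem rpr_mono_on {ρ r : Let → ℝ} (h0 : ∀ i, 0 ≤ ρ i) (u : List Let) (h : ∀ i ∈ u, ρ i ≤ r i) :
    rpr ρ u ≤ rpr r u := by
  induction u with
  | nil => simp
  | cons i u ih =>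
    rw [rpr_cons, rpr_cons]
    have hi := h i (by simp)
    exact mul_le_mul hi (ih fun j hj => h j (by simp [hj])) (rpr_nonneg h0 u) ((h0 i).trans hi)

/-- splittings of a word with a non-empty first part -/
def spl : List Let → List (List Let × List Let)
  | [] => []
  | i :: u => ([i], u) :: ((spl u).map fun p => (i :: p.1, p.2)) ++ (spl u).map fun p => (p.1, i :: p.2)

theorem pd_list_sum {α : Type*} (i : Let) (l : List α) (F : α → A T) :
    pd i (l.map F).sum = (l.map fun a => pd i (F a)).sum := by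
  induction l with
  | nil => simp
  | cons a l ih => simp [ih]

theorem pw_mul (u : List Let) (f g : A T) :
    pw u (f * g) = f * pw u g + ((spl u).map fun p => pw p.1 f * pw p.2 g).sum := by
  induction u with
  | nil => simp [spl]
  | cons i u ih =>
    rw [pw_cons, ih, map_add, pd_list_sum]
    simp only [spl, List.map_cons, List.map_append, List.map_map, List.sum_cons, List.sum_append,
      List.cons_append, Function.comp_def, pw_cons, pw_nil, Derivation.leibniz, smul_eq_mul,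
      List.sum_map_add]
    have e : ((spl u).map fun p => pw p.2 g * pd i (pw p.1 f)) =
        (spl u).map fun p => pd i (pw p.1 f) * pw p.2 g := by simp only [mul_comm]
    rw [e]; ring

theorem spl_perm {u : List Let} {p : List Let × List Let} (h : p ∈ spl u) :
    (p.1 ++ p.2).Perm u ∧ p.1 ≠ [] := by
  induction u generalizing p with
  | nil => simp [spl] at h
  | cons i u ih =>
    simp only [spl, List.cons_append, List.mem_cons, List.mem_append, List.mem_map] at h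
    rcases h with rfl | ⟨q, hq, rfl⟩ | ⟨q, hq, rfl⟩
    · simp
    · exact ⟨(ih hq).1.cons i, by simp⟩
    · exact ⟨List.perm_middle.trans ((ih hq).1.cons i), (ih hq).2⟩

theorem spl_length {u : List Let} {p : List Let × List Let} (h : p ∈ spl u) :
    p.1.length + p.2.length = u.length ∧ 1 ≤ p.1.length :=
  ⟨by simpa using (spl_perm h).1.length_eq, List.length_pos_iff.2 (spl_perm h).2⟩

theorem spl_sum (u : List Let) (ψ : ℕ → ℝ) : ((spl u).map fun p => ψ p.1.length).sum =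
    ∑ i ∈ Finset.range u.length, (u.length.choose (i + 1) : ℝ) * ψ (i + 1) := by
  induction u generalizing ψ with
  | nil => simp [spl]
  | cons i u ih =>
    have h1 := ih fun n => ψ (n + 1)
    have h2 := ih ψ
    simp only [spl, List.map_cons, List.map_append, List.map_map, List.sum_cons, List.sum_append,
      List.cons_append, Function.comp_def, List.length_cons, List.length_nil, h1, h2,
      Nat.choose_succ_succ, Nat.cast_add, add_mul, Finset.sum_add_distrib]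
    rw [Finset.sum_range_succ' (fun x => (u.length.choose x : ℝ) * ψ (x + 1)),
      Finset.sum_range_succ (fun x => (u.length.choose x.succ : ℝ) * ψ (x + 1))]
    simp
    ring

/-- the commutator sum with a gain `x ≤ 1/2` per letter on the first factor; `m` extra letters -/
theorem spl_gev (u : List Let) (m : ℕ) {x : ℝ} (hx : 0 ≤ x) (hx2 : x ≤ 1 / 2) :
    ((spl u).map fun p => x ^ p.1.length * ((p.1.length ! : ℕ) : ℝ) ^ 2 *
      (((p.2.length + m)! : ℕ) : ℝ) ^ 2).sum ≤ 2 * x * (((u.length + m)! : ℕ) : ℝ) ^ 2 := by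
  have e : ((spl u).map fun p => x ^ p.1.length * ((p.1.length ! : ℕ) : ℝ) ^ 2 *
      (((p.2.length + m)! : ℕ) : ℝ) ^ 2) = (spl u).map fun p => (fun n : ℕ => x ^ n *
        ((n ! : ℕ) : ℝ) ^ 2 * (((u.length - n + m)! : ℕ) : ℝ) ^ 2) p.1.length :=
    List.map_congr_left fun p hp => by
      have := (spl_length hp).1
      simp only [show u.length - p.1.length = p.2.length by omega]
  rw [e, spl_sum u fun n : ℕ => x ^ n * ((n ! : ℕ) : ℝ) ^ 2 * (((u.length - n + m)! : ℕ) : ℝ) ^ 2]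
  have h : ∀ i ∈ Finset.range u.length, (u.length.choose (i + 1) : ℝ) * (x ^ (i + 1) *
      (((i + 1)! : ℕ) : ℝ) ^ 2 * (((u.length - (i + 1) + m)! : ℕ) : ℝ) ^ 2) ≤
      (1 / 2 : ℝ) ^ i * (x * (((u.length + m)! : ℕ) : ℝ) ^ 2) := by
    intro i hi
    have hi' := Finset.mem_range.1 hi
    have e1 := Nat.choose_mul_factorial_mul_factorial (show i + 1 ≤ u.length + m by omega)
    rw [show u.length + m - (i + 1) = u.length - (i + 1) + m by omega] at e1
    have c1 : u.length.choose (i + 1) ≤ (u.length + m).choose (i + 1) :=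
      Nat.choose_le_choose _ (by omega)
    have c2 : 1 ≤ (u.length + m).choose (i + 1) := Nat.choose_pos (by omega)
    have c3 : u.length.choose (i + 1) ≤ ((u.length + m).choose (i + 1)) ^ 2 := by nlinarith
    have c4 : (u.length.choose (i + 1) : ℝ) ≤ (((u.length + m).choose (i + 1) : ℕ) : ℝ) ^ 2 := by
      exact_mod_cast c3
    have e2 : (((u.length + m).choose (i + 1) : ℕ) : ℝ) * (((i + 1)! : ℕ) : ℝ) *
        (((u.length - (i + 1) + m)! : ℕ) : ℝ) = (((u.length + m)! : ℕ) : ℝ) := by exact_mod_cast e1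
    have c5 : x ^ (i + 1) ≤ (1 / 2 : ℝ) ^ i * x := by
      rw [pow_succ]; exact mul_le_mul_of_nonneg_right (pow_le_pow_left₀ hx hx2 i) hx
    rw [← e2]
    calc _ ≤ (((u.length + m).choose (i + 1) : ℕ) : ℝ) ^ 2 * (((1 / 2 : ℝ) ^ i * x) *
        (((i + 1)! : ℕ) : ℝ) ^ 2 * (((u.length - (i + 1) + m)! : ℕ) : ℝ) ^ 2) := by gcongr
      _ = _ := by ring
  refine (Finset.sum_le_sum h).trans ?_
  rw [← Finset.sum_mul, mul_assoc 2]
  exact mul_le_mul_of_nonneg_right (sum_geometric_two_le _) (by positivity)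

theorem spl_gev_one (u : List Let) :
    ((spl u).map fun p => ((p.1.length ! : ℕ) : ℝ) ^ 2 * ((p.2.length ! : ℕ) : ℝ) ^ 2).sum ≤
      2 * ((u.length ! : ℕ) : ℝ) ^ 2 := by
  have e : ((spl u).map fun p => ((p.1.length ! : ℕ) : ℝ) ^ 2 * ((p.2.length ! : ℕ) : ℝ) ^ 2) =
      (spl u).map fun p => (fun n : ℕ =>
        ((n ! : ℕ) : ℝ) ^ 2 * (((u.length - n)! : ℕ) : ℝ) ^ 2) p.1.length :=
    List.map_congr_left fun p hp => by
      have := (spl_length hp).1
      simp only [show u.length - p.1.length = p.2.length by omega]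
  rw [e, spl_sum u fun n : ℕ => ((n ! : ℕ) : ℝ) ^ 2 * (((u.length - n)! : ℕ) : ℝ) ^ 2]
  have h := Word.choose_fac_sum u.length
  rw [Finset.Nat.sum_antidiagonal_eq_sum_range_succ
    (fun a b => (u.length.choose a : ℝ) * (((a ! : ℕ) : ℝ) ^ 2 * ((b ! : ℕ) : ℝ) ^ 2)),
    Finset.sum_range_succ'] at h
  simp only [Nat.choose_zero_right, Nat.cast_one, Nat.factorial_zero, one_pow, one_mul,
    Nat.sub_zero] at h
  linarith

theorem w1_mul (w : ℝ → ℝ) : (fun t => w1 t * w t) = w := by funext t; simp [w1]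
theorem mul_w1 (w : ℝ → ℝ) : (fun t => w t * w1 t) = w := by funext t; simp [w1]
theorem sh_sh (θ : ℝ) (m n : ℕ) (r : Let → ℝ) : sh θ m (sh θ n r) = sh θ (m + n) r := by
  funext i; simp only [sh]; ring
theorem sh_zero (θ : ℝ) (r : Let → ℝ) : sh θ 0 r = r := by funext i; simp [sh]
theorem sh_pos {r : Let → ℝ} {θ : ℝ} (h0 : 0 < θ) (n : ℕ) (hr : ∀ i, 0 < r i) (i : Let) :
    0 < sh θ n r i := mul_pos (pow_pos h0 n) (hr i)
theorem sh_nonneg {r : Let → ℝ} {θ : ℝ} (h0 : 0 ≤ θ) (n : ℕ) (hr : ∀ i, 0 ≤ r i) (i : Let) :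
    0 ≤ sh θ n r i := mul_nonneg (pow_nonneg h0 n) (hr i)
theorem sh_le {r : Let → ℝ} {θ : ℝ} (h0 : 0 ≤ θ) (h1 : θ ≤ 1) {m n : ℕ} (h : m ≤ n)
    (hr : ∀ i, 0 ≤ r i) (i : Let) : sh θ n r i ≤ sh θ m r i :=
  mul_le_mul_of_nonneg_right (pow_le_pow_of_le_one h0 h1 h) (hr i)
theorem sh_le_self {r : Let → ℝ} {θ : ℝ} (h0 : 0 ≤ θ) (h1 : θ ≤ 1) (n : ℕ) (hr : ∀ i, 0 ≤ r i)
    (i : Let) : sh θ n r i ≤ r i :=
  mul_le_of_le_one_left (hr i) (pow_le_one₀ h0 h1)
theorem dvr_nonneg {r : Let → ℝ} {K : ℝ} (hr : ∀ i, 0 ≤ r i) (hK : 0 ≤ K) (i : Let) :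
    0 ≤ dvr r K i := div_nonneg (hr i) hK
theorem dvr_pos {r : Let → ℝ} {K : ℝ} (hr : ∀ i, 0 < r i) (hK : 0 < K) (i : Let) :
    0 < dvr r K i := div_pos (hr i) hK
theorem dvr_le {r : Let → ℝ} {K : ℝ} (hr : ∀ i, 0 ≤ r i) (hK : 1 ≤ K) (i : Let) :
    dvr r K i ≤ r i := div_le_self (hr i) hK
theorem dvr_anti {r : Let → ℝ} {K K' : ℝ} (hr : ∀ i, 0 ≤ r i) (hK : 0 < K) (h : K ≤ K') (i : Let) :
    dvr r K' i ≤ dvr r K i := div_le_div_of_nonneg_left (hr i) hK h
theorem dvr_dvr (r : Let → ℝ) (K K' : ℝ) : dvr (dvr r K) K' = dvr r (K * K') := by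
  funext i; simp only [dvr, div_div]

/-! ### bounds at a point -/

section At
variable {r r' : Let → ℝ} {M M' : ℝ} {f g : A T} {z : Pt}

theorem bdAt_iff (hz : z ∈ Om T) : BdAt r M f z ↔ Word.GP pd (evA z hz) r M f := by
  simp only [BdAt, Word.GP, pw_eq_dw, rpr_eq_rw]; rfl

theorem BdAt.abs_le (h : BdAt r M f z) : |ev f z| ≤ M := by simpa using h []

theorem BdAt.nonneg (h : BdAt r M f z) : 0 ≤ M := (abs_nonneg _).trans h.abs_le

theorem BdAt.pd_le (h : BdAt r M f z) (i : Let) : |ev (pd i f) z| * r i ≤ M := by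
  simpa [pw_cons, rpr_cons] using h [i]

theorem BdAt.of_out (hz : z ∉ Om T) (hM : 0 ≤ M) : BdAt r M f z := fun u => by
  rw [ev_out _ hz]; simp; positivity

theorem BdAt.of_pw_zero (hM : 0 ≤ M) (h : ∀ u, ev (pw u f) z = 0) : BdAt r M f z := fun u => by
  rw [h u]; simp; positivity

theorem BdAt.zero (hM : 0 ≤ M) : BdAt r M (0 : A T) z :=
  BdAt.of_pw_zero hM fun u => by rw [pw_zero, ev_zero]

theorem BdAt.le (h : BdAt r M f z) (hM : M ≤ M') : BdAt r M' f z := fun u =>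
  (h u).trans (mul_le_mul_of_nonneg_right hM (by positivity))

/-- the radii matter only for the letters with `pd i f ≠ 0` -/
theorem BdAt.free (h : BdAt r M f z) (h0 : ∀ i, 0 ≤ r' i) (hρ : ∀ i, r' i ≤ r i ∨ pd i f = 0) :
    BdAt r' M f z := fun u => by
  by_cases hu : ∀ i ∈ u, r' i ≤ r i
  · exact (mul_le_mul_of_nonneg_left (rpr_mono_on h0 u hu) (abs_nonneg _)).trans (h u)
  · push Not at hu
    obtain ⟨i, hi, hlt⟩ := hu
    rw [pw_eq_zero_of_mem hi ((hρ i).resolve_left (not_le.2 hlt)), ev_zero]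
    have := h.nonneg
    simp; positivity

theorem BdAt.mono (h : BdAt r M f z) (hr : ∀ i, 0 ≤ r' i) (hr' : ∀ i, r' i ≤ r i) (hM : M ≤ M') :
    BdAt r' M' f z := (h.free hr fun i => Or.inl (hr' i)).le hM

theorem BdAt.add (hr : ∀ i, 0 ≤ r i) (hf : BdAt r M f z) (hg : BdAt r M' g z) :
    BdAt r (M + M') (f + g) z := fun u => by
  rw [pw_add, ev_add]
  have := mul_le_mul_of_nonneg_right (abs_add_le (ev (pw u f) z) (ev (pw u g) z)) (rpr_nonneg hr u)
  linarith [hf u, hg u]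

theorem BdAt.neg (hf : BdAt r M f z) : BdAt r M (-f) z := fun u => by
  rw [pw_neg, ev_neg, abs_neg]; exact hf u

theorem BdAt.sub (hr : ∀ i, 0 ≤ r i) (hf : BdAt r M f z) (hg : BdAt r M' g z) :
    BdAt r (M + M') (f - g) z := by
  rw [sub_eq_add_neg]; exact hf.add hr hg.neg

theorem BdAt.smul (c : ℝ) (hf : BdAt r M f z) : BdAt r (|c| * M) (c • f) z := fun u => by
  rw [pw_smul, ev_smul, abs_mul, mul_assoc, mul_assoc]
  exact mul_le_mul_of_nonneg_left (hf u) (abs_nonneg c)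

theorem BdAt.sum {κ : Type*} (hr : ∀ i, 0 ≤ r i) (s : Finset κ) {Ms : κ → ℝ} {F : κ → A T}
    (h : ∀ k ∈ s, BdAt r (Ms k) (F k) z) : BdAt r (∑ k ∈ s, Ms k) (∑ k ∈ s, F k) z := by
  classical
  induction s using Finset.induction_on with
  | empty => simpa using BdAt.zero le_rfl
  | insert a s ha ih =>
    rw [Finset.sum_insert ha, Finset.sum_insert ha]
    exact (h a (by simp)).add hr (ih fun k hk => h k (by simp [hk]))

theorem BdAt.of_const (hd : ∀ i, pd i f = 0) (h : |ev f z| ≤ M) : BdAt r M f z := fun u => by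
  rcases u with _ | ⟨i, u⟩
  · simpa using h
  · rw [pw_eq_zero_of_mem (i := i) (by simp) (hd i), ev_zero]
    have := (abs_nonneg _).trans h
    simp; positivity

theorem BdAt.one : BdAt r 1 (1 : A T) z :=
  BdAt.of_const (fun i => (pd i).map_one_eq_zero) (by
    by_cases hz : z ∈ Om T
    · simp [ev_one hz]
    · simp [ev_out _ hz])

theorem BdAt.const (c : ℝ) (_hr : ∀ i, 0 ≤ r i) : BdAt r |c| (algebraMap ℝ (A T) c) z := by
  have := (BdAt.one (T := T) (r := r) (z := z)).smul c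
  rwa [mul_one, ← Algebra.algebraMap_eq_smul_one] at this

/-- a bound from the first derivatives -/
theorem BdAt.of_pd (hM : |ev f z| ≤ M) (h : ∀ i, ∃ L, BdAt r L (pd i f) z ∧ L * r i ≤ M)
    (hr : ∀ i, 0 ≤ r i) : BdAt r M f z := fun u => by
  rcases List.eq_nil_or_concat u with rfl | ⟨u, i, rfl⟩
  · simpa using hM
  obtain ⟨L, h1, h2⟩ := h i
  rw [List.concat_eq_append, pw_concat, rpr_append]
  have h3 := mul_le_mul_of_nonneg_right (h1 u) (hr i)
  have h4 : ((u.length ! : ℕ) : ℝ) ^ 2 ≤ (((u ++ [i]).length ! : ℕ) : ℝ) ^ 2 := by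
    have : u.length ! ≤ (u ++ [i]).length ! := Nat.factorial_le (by simp)
    exact_mod_cast Nat.pow_le_pow_left this 2
  have h5 := mul_le_mul h2 h4 (by positivity) ((abs_nonneg _).trans hM)
  simp only [rpr_cons, rpr_nil]
  linarith

/-- A1 -/
theorem BdAt.mul (hr : ∀ i, 0 ≤ r i) (hf : BdAt r M f z) (hg : BdAt r M' g z) :
    BdAt r (3 * (M * M')) (f * g) z := by
  rw [← mul_assoc]
  by_cases hz : z ∈ Om T
  · exact (bdAt_iff hz).2 (((bdAt_iff hz).1 hf).mul hr ((bdAt_iff hz).1 hg))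
  · exact BdAt.of_out hz (mul_nonneg (mul_nonneg (by norm_num) hf.nonneg) hg.nonneg)

/-- A1 for one word: only shorter words are used -/
theorem pw_mul_le (hr : ∀ i, 0 ≤ r i) (u : List Let)
    (hf : ∀ v : List Let, v.length ≤ u.length →
      |ev (pw v f) z| * rpr r v ≤ M * ((v.length ! : ℕ) : ℝ) ^ 2)
    (hg : ∀ v : List Let, v.length ≤ u.length →
      |ev (pw v g) z| * rpr r v ≤ M' * ((v.length ! : ℕ) : ℝ) ^ 2) :
    |ev (pw u (f * g)) z| * rpr r u ≤ 3 * M * M' * ((u.length ! : ℕ) : ℝ) ^ 2 := by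
  by_cases hz : z ∈ Om T
  · simp only [pw_eq_dw, rpr_eq_rw] at hf hg ⊢
    exact Word.mul_word pd (evA z hz) hr f g u hf hg
  · have h1 := hf [] (by simp)
    have h2 := hg [] (by simp)
    simp [ev_out _ hz] at h1 h2 ⊢
    positivity

/-- Leibniz bound with general sequences -/
theorem pw_leib (hr : ∀ i, 0 ≤ r i) (hz : z ∈ Om T) (f g : A T) (α β : ℕ → ℝ) (u : List Let)
    (hf : ∀ v : List Let, v.length ≤ u.length → |ev (pw v f) z| * rpr r v ≤ α v.length)
    (hg : ∀ v : List Let, v.length ≤ u.length → |ev (pw v g) z| * rpr r v ≤ β v.length) :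
    |ev (pw u (f * g)) z| * rpr r u ≤
      ∑ p ∈ Finset.HasAntidiagonal.antidiagonal u.length, (u.length.choose p.1 : ℝ) * (α p.1 * β p.2) := by
  simp only [pw_eq_dw, rpr_eq_rw] at hf hg ⊢
  exact Word.leib pd (evA z hz) hr f g α β u hf hg

/-- A2 -/
theorem BdAt.pd {θ : ℝ} (hr : ∀ i, 0 < r i) (h0 : 0 < θ) (h1 : θ < 1) (i : Let)
    (h : BdAt r M f z) : BdAt (sh θ 1 r) (4 / ((1 - θ) ^ 2 * r i) * M) (pd i f) z := by
  have hi := hr i
  by_cases hz : z ∈ Om T
  · have := ((bdAt_iff hz).1 h).loss (fun k => (hr k).le) h0.le h1 i hi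
    have e : sh θ 1 r = fun k => θ * r k := by funext k; simp [sh]
    rw [e, div_mul_eq_mul_div]; exact (bdAt_iff hz).2 this
  · have := h.nonneg
    exact BdAt.of_out hz (by positivity)

end At

/-! ### homogeneity -/

/-- degree lost by a letter -/
def dg : Let → ℤ
  | some (Sum.inl _) => 1
  | _ => 0

@[simp] theorem dg_lt : dg lt = 0 := rfl
@[simp] theorem dg_la (i : Fin 3) : dg (la i) = 1 := rfl
@[simp] theorem dg_lp (j : Fin 3) : dg (lp j) = 0 := rfl

theorem Om_scale (z : Pt) {s : ℝ} (hs : 0 < s) :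
    ((z.1, s • z.2.1, z.2.2) : Pt) ∈ Om T ↔ z ∈ Om T := by simp [Om, hs.ne']

section Ho
variable {d d' : ℤ} {f g : A T}

theorem Hom.of_in (h : ∀ z ∈ Om T, ∀ s : ℝ, 0 < s →
    ev f (z.1, s • z.2.1, z.2.2) = s ^ d * ev f z) : Hom d f := fun z s hs => by
  by_cases hz : z ∈ Om T
  · exact h z hz s hs
  · rw [ev_out _ hz, ev_out _ (fun h' => hz ((Om_scale z hs).1 h')), mul_zero]

theorem Hom.pdg (h : Hom d f) (i : Let) : Hom (d - dg i) (pd i f) := by
  refine Hom.of_in fun z hz s hs => ?_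
  have hz' := (Om_scale (T := T) z hs).2 hz
  have h1 := hasDerivAt_ev i f (z.1, s • z.2.1, z.2.2) 0 (by simpa using hz')
  have h2 := hasDerivAt_ev i f z 0 (by simpa using hz)
  simp only [zero_smul, add_zero] at h1 h2
  have h3 : HasDerivAt (fun x : ℝ => s ^ (-dg i) * x) (s ^ (-dg i)) 0 := by
    simpa using (hasDerivAt_id (0 : ℝ)).const_mul (s ^ (-dg i))
  have h4 := (HasDerivAt.comp (0 : ℝ) (by simpa using h2) h3).const_mul (s ^ d)
  have e : (fun x : ℝ => ev f (((z.1, s • z.2.1, z.2.2) : Pt) + x • vec i)) = fun x : ℝ =>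
      s ^ d * ((fun x : ℝ => ev f (z + x • vec i)) ∘ fun x : ℝ => s ^ (-dg i) * x) x := by
    funext x
    simp only [Function.comp]
    rw [← h _ s hs]
    congr 1
    rcases i with _ | i | j
    · simp [vec, dg]
    · simp [vec, dg, smul_add, smul_smul, ← mul_assoc, mul_inv_cancel₀ hs.ne']
    · simp [vec, dg]
  rw [e] at h1
  rw [h1.unique h4, sub_eq_add_neg, zpow_add₀ hs.ne']
  ring

theorem Hom.pd_t (h : Hom d f) : Hom d (Cas.pd lt f) := by simpa using h.pdg lt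
theorem Hom.pd_a (i : Fin 3) (h : Hom d f) : Hom (d - 1) (Cas.pd (la i) f) := h.pdg (la i)
theorem Hom.pd_p (j : Fin 3) (h : Hom d f) : Hom d (Cas.pd (lp j) f) := by simpa using h.pdg (lp j)

/-- number of label letters -/
def nla (u : List Let) : ℕ := u.countP fun i => ∃ l, i = la l

theorem nla_cons (i : Let) (u : List Let) : (nla (i :: u) : ℤ) = nla u + dg i := by
  rcases i with _ | i | j <;> simp [nla, dg]

theorem Hom.pw (u : List Let) (h : Hom d f) : Hom (d - nla u) (pw u f) := by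
  induction u with
  | nil => simpa [nla] using h
  | cons i u ih =>
    have := ih.pdg i
    rwa [sub_sub, ← nla_cons] at this

theorem Hom.mul (hf : Hom d f) (hg : Hom d' g) : Hom (d + d') (f * g) := fun z s hs => by
  rw [ev_mul, ev_mul, hf z s hs, hg z s hs, zpow_add₀ hs.ne']; ring
theorem Hom.add (hf : Hom d f) (hg : Hom d g) : Hom d (f + g) := fun z s hs => by
  rw [ev_add, ev_add, hf z s hs, hg z s hs]; ring
theorem Hom.neg (hf : Hom d f) : Hom d (-f) := fun z s hs => by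
  rw [ev_neg, ev_neg, hf z s hs]; ring
theorem Hom.sub (hf : Hom d f) (hg : Hom d g) : Hom d (f - g) := fun z s hs => by
  rw [ev_sub, ev_sub, hf z s hs, hg z s hs]; ring
theorem Hom.smul (c : ℝ) (hf : Hom d f) : Hom d (c • f) := fun z s hs => by
  rw [ev_smul, ev_smul, hf z s hs]; ring
theorem Hom.zero : Hom d (0 : A T) := fun z s _ => by simp
theorem Hom.one : Hom 0 (1 : A T) := Hom.of_in fun z hz s hs => by
  rw [ev_one hz, ev_one ((Om_scale z hs).2 hz)]; simp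
theorem Hom.const (c : ℝ) : Hom 0 (algebraMap ℝ (A T) c) := by
  rw [Algebra.algebraMap_eq_smul_one]; exact Hom.one.smul c
theorem Hom.sum {ι : Type*} (s : Finset ι) {f : ι → A T} (h : ∀ i ∈ s, Hom d (f i)) :
    Hom d (∑ i ∈ s, f i) := fun z t ht => by
  rw [ev_sum, ev_sum, Finset.mul_sum]
  exact Finset.sum_congr rfl fun k hk => h k hk z t ht
/-- the inverse of a unit -/
theorem Hom.of_mul_eq_one (h : Hom d f) (hg : g * f = 1) : Hom (-d) g :=
  Hom.of_in fun z hz s hs => by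
  have h1 := congrArg (fun a => ev a z) hg
  have h2 := congrArg (fun a => ev a (z.1, s • z.2.1, z.2.2)) hg
  simp only [ev_mul, ev_one hz, ev_one ((Om_scale z hs).2 hz), h z s hs] at h1 h2
  have h3 : s ^ (-d) * s ^ d = 1 := by rw [← zpow_add₀ hs.ne']; simp
  linear_combination (s ^ (-d) * ev g z) * h2 - ev g (z.1, s • z.2.1, z.2.2) * h1 -
    ev g (z.1, s • z.2.1, z.2.2) * ev g z * ev f z * h3

theorem Hom.euler (h : Hom d f) : ∑ i, xA T i * Cas.pd (la i) f = (d : ℝ) • f := by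
  refine A_ext fun z hz => ?_
  have hx : ∀ i, ev (xA T i) z = z.2.1 i := fun i =>
    ev_mkA ⟨(by fun_prop : ContDiff ℝ ∞ fun z : Pt => z.2.1 i).contDiffOn,
      fun j y _ => by simp [vec]⟩ hz
  have e1 : (∑ i, z.2.1 i • vec (la i)) = ((0, z.2.1, 0) : Pt) := by
    simp only [Fin.sum_univ_three, vec]
    refine Prod.ext (by simp) (Prod.ext ?_ (by simp))
    ext i; fin_cases i <;> simp
  have e2 : ev (∑ i, xA T i * Cas.pd (la i) f) z = fderiv ℝ (ev f) z (0, z.2.1, 0) := by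
    rw [ev_sum, ← e1, map_sum]
    exact Finset.sum_congr rfl fun i _ => by rw [ev_mul, hx, ev_pd _ _ hz, map_smul, smul_eq_mul]
  have h1 : HasDerivAt (fun s : ℝ => ((z.1, s • z.2.1, z.2.2) : Pt)) (0, z.2.1, 0) 1 :=
    (hasDerivAt_const _ _).prodMk
      ((by simpa using (hasDerivAt_id (1 : ℝ)).smul_const z.2.1 :
        HasDerivAt (fun s : ℝ => s • z.2.1) z.2.1 1).prodMk (hasDerivAt_const _ _))
  have h2 := (show HasFDerivAt (ev f) (fderiv ℝ (ev f) z) (z.1, (1 : ℝ) • z.2.1, z.2.2) by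
    simpa using (ev_diff f hz).hasFDerivAt).comp_hasDerivAt (1 : ℝ) h1
  have h3 : HasDerivAt (fun s : ℝ => s ^ d * ev f z) ((d : ℝ) * ev f z) 1 := by
    simpa using (hasDerivAt_zpow d (1 : ℝ) (Or.inl one_ne_zero)).mul_const (ev f z)
  have h4 : (ev f ∘ fun s : ℝ => ((z.1, s • z.2.1, z.2.2) : Pt)) =ᶠ[𝓝 1]
      fun s : ℝ => s ^ d * ev f z :=
    Filter.eventually_of_mem (Ioi_mem_nhds one_pos) fun s hs => h z s hs
  rw [e2, ev_smul]
  exact h2.unique (h3.congr_of_eventuallyEq h4)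

end Ho

/-! ### bounds on the sphere -/

section
variable {d d' : ℤ} {r r' : Let → ℝ} {w w' w'' : ℝ → ℝ} {M M' : ℝ} {f g : A T}

theorem Sp_time {z : Pt} (hz : z ∈ Sp T) : z.1 ∈ Set.Ioo 0 T := ⟨hz.1, hz.2.1⟩

theorem GB.abs_le (h : GB d r w M f) {z : Pt} (hz : z ∈ Sp T) : |ev f z| ≤ M * w z.1 :=
  (h.2 z hz).abs_le
theorem GB.abs_le1 (h : GB d r w1 M f) {z : Pt} (hz : z ∈ Sp T) : |ev f z| ≤ M := by
  simpa [w1] using h.abs_le hz
theorem GB.nonneg (h : GB d r w M f) {t : ℝ} (ht : t ∈ Set.Ioo 0 T) : 0 ≤ M * w t :=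
  (h.2 (t, EuclideanSpace.single 0 1, 0) ⟨ht.1, ht.2, by simp⟩).nonneg
theorem GB.mono (h : GB d r w M f) (hr : ∀ i, 0 ≤ r' i) (hr' : ∀ i, r' i ≤ r i)
    (hM : ∀ t ∈ Set.Ioo 0 T, M * w t ≤ M' * w' t) : GB d r' w' M' f :=
  ⟨h.1, fun z hz => (h.2 z hz).mono hr hr' (hM _ (Sp_time hz))⟩
/-- change of weight and constant only -/
theorem GB.monoW (h : GB d r w M f) (hM : ∀ t ∈ Set.Ioo 0 T, M * w t ≤ M' * w' t) :
    GB d r w' M' f := ⟨h.1, fun z hz => (h.2 z hz).le (hM _ (Sp_time hz))⟩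
theorem GB.monoM (h : GB d r w M f) (hw : ∀ t ∈ Set.Ioo 0 T, 0 ≤ w t) (hM : M ≤ M') :
    GB d r w M' f := h.monoW fun t ht => mul_le_mul_of_nonneg_right hM (hw t ht)
theorem GB.mono1 (h : GB d r w1 M f) (hM : M ≤ M') : GB d r w1 M' f :=
  h.monoM (fun _ _ => zero_le_one) hM
theorem GB.monoR (h : GB d r w M f) (hr : ∀ i, 0 ≤ r' i) (hr' : ∀ i, r' i ≤ r i) :
    GB d r' w M f := h.mono hr hr' fun _ _ => le_rfl
/-- the radii matter only for the letters with `pd i f ≠ 0` -/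
theorem GB.free (h : GB d r w M f) (hr : ∀ i, 0 ≤ r' i) (hr' : ∀ i, r' i ≤ r i ∨ pd i f = 0) :
    GB d r' w M f := ⟨h.1, fun z hz => (h.2 z hz).free hr hr'⟩
theorem GB.cast (h : GB d r w M f) (hd : d = d') : GB d' r w M f := hd ▸ h
theorem GB.zero (hM : ∀ t ∈ Set.Ioo 0 T, 0 ≤ M * w t) : GB d r w M (0 : A T) :=
  ⟨Hom.zero, fun _ hz => BdAt.zero (hM _ (Sp_time hz))⟩
theorem GB.one (_hr : ∀ i, 0 ≤ r i) : GB 0 r w1 1 (1 : A T) :=
  ⟨Hom.one, fun _ _ => by simpa [w1] using BdAt.one⟩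
theorem GB.const (c : ℝ) (hr : ∀ i, 0 ≤ r i) : GB 0 r w1 |c| (algebraMap ℝ (A T) c) :=
  ⟨Hom.const c, fun _ _ => by simpa [w1] using BdAt.const c hr⟩
theorem GB.add (hr : ∀ i, 0 ≤ r i) (h : GB d r w M f) (h' : GB d r w M' g) :
    GB d r w (M + M') (f + g) :=
  ⟨h.1.add h'.1, fun z hz => by rw [add_mul]; exact (h.2 z hz).add hr (h'.2 z hz)⟩
theorem GB.neg (h : GB d r w M f) : GB d r w M (-f) := ⟨h.1.neg, fun z hz => (h.2 z hz).neg⟩
theorem GB.sub (hr : ∀ i, 0 ≤ r i) (h : GB d r w M f) (h' : GB d r w M' g) :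
    GB d r w (M + M') (f - g) := by rw [sub_eq_add_neg]; exact h.add hr h'.neg
theorem GB.smul (c : ℝ) (h : GB d r w M f) : GB d r w (|c| * M) (c • f) :=
  ⟨h.1.smul c, fun z hz => by rw [mul_assoc]; exact (h.2 z hz).smul c⟩
theorem GB.sum {ι : Type*} (hr : ∀ i, 0 ≤ r i) (s : Finset ι) {f : ι → A T} {M : ι → ℝ}
    (h : ∀ i ∈ s, GB d r w (M i) (f i)) : GB d r w (∑ i ∈ s, M i) (∑ i ∈ s, f i) :=
  ⟨Hom.sum s fun k hk => (h k hk).1, fun z hz => by
    rw [Finset.sum_mul]; exact BdAt.sum hr s fun k hk => (h k hk).2 z hz⟩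
theorem GB.sum3 (hr : ∀ i, 0 ≤ r i) {f : Fin 3 → A T} (h : ∀ i, GB d r w M (f i)) :
    GB d r w (3 * M) (∑ i, f i) := by
  simpa using GB.sum hr Finset.univ (M := fun _ => M) fun k _ => h k
theorem GB.mulw (hr : ∀ i, 0 ≤ r i) (h : GB d r w M f) (h' : GB d' r w' M' g) :
    GB (d + d') r (fun t => w t * w' t) (3 * (M * M')) (f * g) :=
  ⟨h.1.mul h'.1, fun z hz => ((h.2 z hz).mul hr (h'.2 z hz)).le (le_of_eq (by ring))⟩
theorem GB.mul1 (hr : ∀ i, 0 ≤ r i) (h : GB d r w1 M f) (h' : GB d' r w M' g) :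
    GB (d + d') r w (3 * (M * M')) (f * g) := by simpa only [w1_mul] using h.mulw hr h'
theorem GB.mul1r (hr : ∀ i, 0 ≤ r i) (h : GB d r w M f) (h' : GB d' r w1 M' g) :
    GB (d + d') r w (3 * (M * M')) (f * g) := by simpa only [mul_w1] using h.mulw hr h'
theorem GB.mul {κ : ℝ} (hr : ∀ i, 0 ≤ r i) (hM : 0 ≤ M) (hM' : 0 ≤ M') (h : GB d r w M f)
    (h' : GB d' r w' M' g) (hw : ∀ t ∈ Set.Ioo 0 T, w t * w' t ≤ κ * w'' t) :
    GB (d + d') r w'' (3 * κ * (M * M')) (f * g) :=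
  (h.mulw hr h').monoW fun t ht => by
    have := mul_le_mul_of_nonneg_left (hw t ht) (mul_nonneg hM hM')
    linarith
theorem GB.pdg {θ : ℝ} (hr : ∀ i, 0 < r i) (h0 : 0 < θ) (h1 : θ < 1) (i : Let) (h : GB d r w M f) :
    GB (d - dg i) (sh θ 1 r) w (4 / ((1 - θ) ^ 2 * r i) * M) (pd i f) :=
  ⟨h.1.pdg i, fun z hz => by rw [mul_assoc]; exact (h.2 z hz).pd hr h0 h1 i⟩
theorem GB.pd_t {θ : ℝ} (hr : ∀ i, 0 < r i) (h0 : 0 < θ) (h1 : θ < 1) (h : GB d r w M f) :
    GB d (sh θ 1 r) w (4 / ((1 - θ) ^ 2 * r lt) * M) (Cas.pd lt f) :=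
  (h.pdg hr h0 h1 lt).cast (by simp)
theorem GB.pd_p {θ : ℝ} (hr : ∀ i, 0 < r i) (h0 : 0 < θ) (h1 : θ < 1) (j : Fin 3)
    (h : GB d r w M f) :
    GB d (sh θ 1 r) w (4 / ((1 - θ) ^ 2 * r (lp j)) * M) (Cas.pd (lp j) f) :=
  (h.pdg hr h0 h1 (lp j)).cast (by simp)
theorem GB.pd_a {θ : ℝ} (hr : ∀ i, 0 < r i) (h0 : 0 < θ) (h1 : θ < 1) (i : Fin 3)
    (h : GB d r w M f) :
    GB (d - 1) (sh θ 1 r) w (4 / ((1 - θ) ^ 2 * r (la i)) * M) (Cas.pd (la i) f) :=
  h.pdg hr h0 h1 (la i)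
theorem GB.bdd (hr : ∀ i, 0 < r i) {L : ℝ} (hw : ∀ t ∈ Set.Ioo 0 T, M * w t ≤ L)
    (h : GB d r w M f) : Bdd d f :=
  ⟨h.1, fun u => ⟨L * ((u.length ! : ℕ) : ℝ) ^ 2 / rpr r u, fun z hz => by
    rw [le_div_iff₀ (rpr_pos hr u)]
    exact ((h.2 z hz).le (hw _ (Sp_time hz))) u⟩⟩

variable {U V : Vec T} {F G : Mat T}

theorem GBv.mono (h : GBv d r w M V) (hr : ∀ i, 0 ≤ r' i) (hr' : ∀ i, r' i ≤ r i)
    (hM : ∀ t ∈ Set.Ioo 0 T, M * w t ≤ M' * w' t) : GBv d r' w' M' V :=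
  fun i => (h i).mono hr hr' hM
theorem GBm.mono (h : GBm d r w M F) (hr : ∀ i, 0 ≤ r' i) (hr' : ∀ i, r' i ≤ r i)
    (hM : ∀ t ∈ Set.Ioo 0 T, M * w t ≤ M' * w' t) : GBm d r' w' M' F :=
  fun i j => (h i j).mono hr hr' hM
theorem GBv.add (hr : ∀ i, 0 ≤ r i) (h : GBv d r w M U) (h' : GBv d r w M' V) :
    GBv d r w (M + M') (U + V) := fun i => (h i).add hr (h' i)
theorem GBv.sub (hr : ∀ i, 0 ≤ r i) (h : GBv d r w M U) (h' : GBv d r w M' V) :
    GBv d r w (M + M') (U - V) := fun i => (h i).sub hr (h' i)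
theorem GBv.neg (h : GBv d r w M U) : GBv d r w M (-U) := fun i => (h i).neg
theorem GBv.smul (c : ℝ) (h : GBv d r w M U) : GBv d r w (|c| * M) (c • U) :=
  fun i => (h i).smul c
theorem GBm.add (hr : ∀ i, 0 ≤ r i) (h : GBm d r w M F) (h' : GBm d r w M' G) :
    GBm d r w (M + M') (F + G) := fun i j => (h i j).add hr (h' i j)
theorem GBm.sub (hr : ∀ i, 0 ≤ r i) (h : GBm d r w M F) (h' : GBm d r w M' G) :
    GBm d r w (M + M') (F - G) := fun i j => (h i j).sub hr (h' i j)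
theorem GBm.transpose (h : GBm d r w M F) : GBm d r w M Fᵀ := fun i j => h j i
theorem GB.smulv (hr : ∀ i, 0 ≤ r i) (h : GB d r w M f) (h' : GBv d' r w' M' V) :
    GBv (d + d') r (fun t => w t * w' t) (3 * (M * M')) (f • V) := fun i => h.mulw hr (h' i)
theorem GB.smulm (hr : ∀ i, 0 ≤ r i) (h : GB d r w M f) (h' : GBm d' r w' M' F) :
    GBm (d + d') r (fun t => w t * w' t) (3 * (M * M')) (f • F) := fun i j => h.mulw hr (h' i j)
theorem GBv.dot (hr : ∀ i, 0 ≤ r i) (h : GBv d r w M U) (h' : GBv d' r w' M' V) :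
    GB (d + d') r (fun t => w t * w' t) (9 * (M * M')) (U ⬝ᵥ V) :=
  (GB.sum3 hr fun i => (h i).mulw hr (h' i)).monoW fun _ _ => le_of_eq (by ring)
theorem GBm.mulVec (hr : ∀ i, 0 ≤ r i) (h : GBm d r w M F) (h' : GBv d' r w' M' V) :
    GBv (d + d') r (fun t => w t * w' t) (9 * (M * M')) (F *ᵥ V) :=
  fun i => GBv.dot (U := fun j => F i j) hr (h i) h'
theorem GBm.mul (hr : ∀ i, 0 ≤ r i) (h : GBm d r w M F) (h' : GBm d' r w' M' G) :
    GBm (d + d') r (fun t => w t * w' t) (9 * (M * M')) (F * G) :=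
  fun i j => GBv.dot (U := fun l => F i l) (V := fun l => G l j) hr (h i) fun l => h' l j
theorem GBv.cross (hr : ∀ i, 0 ≤ r i) (h : GBv d r w M U) (h' : GBv d' r w' M' V) :
    GBv (d + d') r (fun t => w t * w' t) (6 * (M * M')) (crossProduct U V) := by
  have key : ∀ a b c e, GB (d + d') r (fun t => w t * w' t) (6 * (M * M'))
      (U a * V b - U c * V e) := fun a b c e =>
    (((h a).mulw hr (h' b)).sub hr ((h c).mulw hr (h' e))).monoW fun _ _ => le_of_eq (by ring)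
  intro i
  rw [cross_apply]
  fin_cases i
  · exact key 1 2 2 1
  · exact key 2 0 0 2
  · exact key 0 1 1 0
theorem GBv.vecMulVec (hr : ∀ i, 0 ≤ r i) (h : GBv d r w M U) (h' : GBv d' r w' M' V) :
    GBm (d + d') r (fun t => w t * w' t) (3 * (M * M')) (Matrix.vecMulVec U V) :=
  fun i j => (h i).mulw hr (h' j)
theorem GBv.trip {d'' : ℤ} {M'' : ℝ} {Z : Vec T} (hr : ∀ i, 0 ≤ r i) (h : GBv d r w M U)
    (h' : GBv d' r w' M' V) (h'' : GBv d'' r w'' M'' Z) :
    GB (d + d' + d'') r (fun t => w t * w' t * w'' t) (54 * (M * M' * M'')) (tp U V Z) :=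
  ((h.dot hr (h'.cross hr h'')).cast (add_assoc _ _ _).symm).monoW fun _ _ => le_of_eq (by ring)
theorem GBm.cr {d'' : ℤ} {M'' : ℝ} (hr : ∀ i, 0 ≤ r i) (h : GBm d r w M F) (h' : GBm d' r w' M' G)
    (h'' : GBv d'' r w'' M'' V) :
    GBv (d + d' + d'') r (fun t => w t * w' t * w'' t) (108 * (M * M' * M'')) (cr F G V) :=
  fun l => ((GBv.trip (U := fun i => F i (l + 1)) (V := fun i => G i (l + 2)) hr (fun i => h i _)
    (fun i => h' i _) h'').sub hr (GBv.trip (U := fun i => F i (l + 2)) (V := fun i => G i (l + 1)) hr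
      (fun i => h i _) (fun i => h' i _) h'')).monoW fun _ _ => le_of_eq (by ring)
theorem GBm.det (hr : ∀ i, 0 ≤ r i) (h : GBm 0 r w1 M F) : GB 0 r w1 (54 * M ^ 3) F.det := by
  have e : F.det = Cas.tp (F 0) (F 1) (F 2) := by
    rw [Cas.tp, triple_product_eq_det]; congr 1; ext i j; fin_cases i <;> rfl
  rw [e]
  exact ((GBv.trip hr (h 0) (h 1) (h 2)).cast (by simp)).monoW fun _ _ => le_of_eq (by
    simp only [w1]; ring)
theorem GBm.adjugate (hr : ∀ i, 0 ≤ r i) (h : GBm 0 r w1 M F) :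
    GBm 0 r w1 (6 * M ^ 2) F.adjugate := by
  have key : ∀ a b c e a' b' c' e', GB 0 r w1 (6 * M ^ 2) (F a b * F c e - F a' b' * F c' e') :=
    fun a b c e a' b' c' e' => ((((h a b).mul1 hr (h c e)).sub hr
      ((h a' b').mul1 hr (h c' e'))).cast (by simp)).mono1 (le_of_eq (by ring))
  have key' : ∀ a b c e a' b' c' e', GB 0 r w1 (6 * M ^ 2) (-(F a b * F c e) + F a' b' * F c' e') :=
    fun a b c e a' b' c' e' => by rw [neg_add_eq_sub]; exact key _ _ _ _ _ _ _ _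
  intro i j
  rw [Matrix.adjugate_fin_three]
  fin_cases i <;> fin_cases j <;> first | exact key _ _ _ _ _ _ _ _ | exact key' _ _ _ _ _ _ _ _
end

end Pool.Agent.Lib.MP_fbbbeb_an.Cas
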