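import Mathlib
import Pool.Agent.Lib.MP_fbbbeb_an.Cas.Defs

/-! Lifted derivatives, closed fields, levels and types. -/

set_option autoImplicit false

noncomputable section

namespace Pool.Agent.Lib.MP_fbbbeb_an.Cas

open Pool.Agent.Lib.MP_fbbbeb_an.Pub
open scoped ContDiff Topology RealInnerProductSpace Matrix Nat

variable {T : ℝ}

section
variable {fr : Frame T} {f g : A T} {U V : Vec T} {l l' : Fin 4}

/-! ### lifted derivatives -/

theorem Df_apply (fr : Frame T) (j i : Fin 3) (f : A T) :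
    Df fr j i f = fr.N j.succ • (fr.k j i * pd (lp j) f) := by
  simp [Df, Derivation.smul_apply]

theorem D_apply (fr : Frame T) (i : Fin 3) (f : A T) :
    D fr i f = pd (la i) f + ∑ j, fr.N j.succ • (fr.k j i * pd (lp j) f) := by
  simp only [D, Derivation.add_apply, Fin.sum_univ_three, Df_apply]

theorem D_eq_Dj (fr : Frame T) (j i : Fin 3) (f : A T) :
    D fr i f = Dj fr j i f + fr.N j.succ • (fr.k j i * pd (lp j) f) := by
  simp only [Dj, Derivation.sub_apply, Df_apply, sub_add_cancel]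

theorem Dj_apply (fr : Frame T) (j i : Fin 3) (f : A T) :
    Dj fr j i f = D fr i f - fr.N j.succ • (fr.k j i * pd (lp j) f) := by
  rw [D_eq_Dj fr j i f, add_sub_cancel_right]

theorem D_pd_t (h : fr.Ok) (i : Fin 3) (f : A T) : pd lt (D fr i f) = D fr i (pd lt f) := by
  simp only [D_apply, map_add, map_sum, Derivation.map_smul, Derivation.leibniz, h.k_t, mul_zero,
    add_zero, smul_eq_mul, pd_comm lt]

theorem D_pd_p (h : fr.Ok) (j i : Fin 3) (f : A T) :
    pd (lp j) (D fr i f) = D fr i (pd (lp j) f) := by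
  simp only [D_apply, map_add, map_sum, Derivation.map_smul, Derivation.leibniz, h.k_p, mul_zero,
    add_zero, smul_eq_mul, pd_comm (lp j)]

theorem D_k (h : fr.Ok) (j i m : Fin 3) : D fr i (fr.k j m) = pd (la i) (fr.k j m) := by
  simp [D_apply, h.k_p]

theorem D_comm (h : fr.Ok) (i m : Fin 3) (f : A T) :
    D fr i (D fr m f) = D fr m (D fr i f) := by
  have key : ∀ i m : Fin 3, D fr i (D fr m f) = pd (la i) (pd (la m) f) +
      ∑ j, fr.N j.succ • (fr.k j i * pd (lp j) (pd (la m) f)) +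
      (∑ j, fr.N j.succ • (fr.k j m * pd (lp j) (pd (la i) f)) +
       ∑ j, ∑ j', (fr.N j.succ * fr.N j'.succ) • (fr.k j m * fr.k j' i * pd (lp j') (pd (lp j) f)) +
       ∑ j, fr.N j.succ • (pd (lp j) f * pd (la i) (fr.k j m))) := by
    intro i m
    rw [D_apply fr m f, map_add, D_apply fr i (pd (la m) f), map_sum]
    congr 1
    rw [← Finset.sum_add_distrib, ← Finset.sum_add_distrib]
    refine Finset.sum_congr rfl fun j _ => ?_
    rw [Derivation.map_smul, Derivation.leibniz, D_k h, D_apply fr i (pd (lp j) f),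
      pd_comm (la i) (lp j)]
    simp only [smul_eq_mul, mul_add, smul_add, Finset.mul_sum, Finset.smul_sum, mul_smul_comm,
      smul_smul, mul_assoc]
  rw [key i m, key m i, pd_comm (la i) (la m), Finset.sum_comm (s := Finset.univ)
    (f := fun j j' : Fin 3 => (fr.N j.succ * fr.N j'.succ) •
      (fr.k j m * fr.k j' i * pd (lp j') (pd (lp j) f)))]
  have e1 : ∑ j' : Fin 3, ∑ j : Fin 3, (fr.N j.succ * fr.N j'.succ) •
      (fr.k j m * fr.k j' i * pd (lp j') (pd (lp j) f)) =
      ∑ j : Fin 3, ∑ j' : Fin 3, (fr.N j.succ * fr.N j'.succ) •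
      (fr.k j i * fr.k j' m * pd (lp j') (pd (lp j) f)) := by
    refine Finset.sum_congr rfl fun j _ => Finset.sum_congr rfl fun j' _ => ?_
    rw [pd_comm (lp j) (lp j'), mul_comm (fr.N j'.succ), mul_comm (fr.k j' m)]
  have e2 : ∑ j : Fin 3, fr.N j.succ • (pd (lp j) f * pd (la i) (fr.k j m)) =
      ∑ j : Fin 3, fr.N j.succ • (pd (lp j) f * pd (la m) (fr.k j i)) :=
    Finset.sum_congr rfl fun j _ => by rw [h.k_curl j i m]
  rw [e1, e2]
  abel

theorem Dj_pd_t (h : fr.Ok) (j i : Fin 3) (f : A T) :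
    pd lt (Dj fr j i f) = Dj fr j i (pd lt f) := by
  simp only [Dj_apply, map_sub, D_pd_t h, Derivation.map_smul, Derivation.leibniz, h.k_t, mul_zero,
    add_zero, smul_eq_mul, pd_comm lt]

theorem Dj_pd_p (h : fr.Ok) (m j i : Fin 3) (f : A T) :
    pd (lp m) (Dj fr j i f) = Dj fr j i (pd (lp m) f) := by
  simp only [Dj_apply, map_sub, D_pd_p h, Derivation.map_smul, Derivation.leibniz, h.k_p, mul_zero,
    add_zero, smul_eq_mul, pd_comm (lp m)]

theorem dtm_Dm (h : fr.Ok) (X : Vec T) : dtm (Dm fr X) = Dm fr (dtv X) := by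
  ext1 i m
  simp only [dtm, Dm, dtv, Matrix.of_apply, D_pd_t h]

theorem Dm_add (fr : Frame T) (U V : Vec T) : Dm fr (U + V) = Dm fr U + Dm fr V := by
  ext1 i m
  simp [Dm]

theorem Dm_sub (fr : Frame T) (U V : Vec T) : Dm fr (U - V) = Dm fr U - Dm fr V := by
  ext1 i m
  simp [Dm]

theorem Dm_neg (fr : Frame T) (U : Vec T) : Dm fr (-U) = -Dm fr U := by
  ext1 i m
  simp [Dm]

theorem Dm_smul (fr : Frame T) (c : ℝ) (U : Vec T) : Dm fr (c • U) = c • Dm fr U := by
  ext1 i m
  simp [Dm]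

theorem Dm_zero (fr : Frame T) : Dm fr (0 : Vec T) = 0 := by
  ext1 i m
  simp [Dm]

theorem Dm_sum {ι : Type*} (fr : Frame T) (s : Finset ι) (U : ι → Vec T) :
    Dm fr (∑ i ∈ s, U i) = ∑ i ∈ s, Dm fr (U i) := by
  ext1 i m
  simp [Dm, Matrix.sum_apply, Finset.sum_apply]

theorem dtv_add (U V : Vec T) : dtv (U + V) = dtv U + dtv V := by
  funext i; simp [dtv]

theorem dtv_sub (U V : Vec T) : dtv (U - V) = dtv U - dtv V := by
  funext i; simp [dtv]

theorem dtv_neg (U : Vec T) : dtv (-U) = -dtv U := by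
  funext i; simp [dtv]

theorem dtv_smul (c : ℝ) (U : Vec T) : dtv (c • U) = c • dtv U := by
  funext i; simp [dtv]

theorem dtv_zero : dtv (0 : Vec T) = 0 := by
  funext i; simp [dtv]

theorem dtv_sum {ι : Type*} (s : Finset ι) (U : ι → Vec T) :
    dtv (∑ i ∈ s, U i) = ∑ i ∈ s, dtv (U i) := by
  funext i; simp [dtv, Finset.sum_apply]

theorem dtv_smulA (f : A T) (U : Vec T) : dtv (f • U) = pd lt f • U + f • dtv U := by
  funext i
  simp only [dtv, Pi.smul_apply, smul_eq_mul, Derivation.leibniz, Pi.add_apply]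
  ring

theorem dtv_mulVec (F : Mat T) (U : Vec T) : dtv (F *ᵥ U) = dtm F *ᵥ U + F *ᵥ dtv U := by
  funext i
  simp only [dtv, dtm, Matrix.mulVec, dotProduct, Fin.sum_univ_three, map_add, Derivation.leibniz,
    smul_eq_mul, Pi.add_apply, Matrix.of_apply]
  ring

theorem dtm_add (F G : Mat T) : dtm (F + G) = dtm F + dtm G := by
  ext1 i m; simp [dtm]

theorem dtm_sub (F G : Mat T) : dtm (F - G) = dtm F - dtm G := by
  ext1 i m; simp [dtm]

theorem dtm_zero : dtm (0 : Mat T) = 0 := by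
  ext1 i m; simp [dtm]

theorem dtm_mul (F G : Mat T) : dtm (F * G) = dtm F * G + F * dtm G := by
  ext1 i m
  simp only [dtm, Matrix.mul_apply, Fin.sum_univ_three, map_add, Derivation.leibniz,
    smul_eq_mul, Matrix.add_apply, Matrix.of_apply]
  ring

theorem dtm_transpose (F : Mat T) : dtm Fᵀ = (dtm F)ᵀ := by
  ext1 i m; simp [dtm]

theorem web_add_left (fr : Frame T) (X Y Z : Vec T) :
    web fr (X + Y) Z = web fr X Z + web fr Y Z := by
  simp only [web, Dm_add, Matrix.transpose_add, Matrix.add_mulVec]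

theorem web_add_right (fr : Frame T) (X Y Z : Vec T) :
    web fr X (Y + Z) = web fr X Y + web fr X Z := by
  simp only [web, dtv_add, Matrix.mulVec_add]

theorem web_zero_left (fr : Frame T) (Z : Vec T) : web fr 0 Z = 0 := by
  simp only [web, Dm_zero, Matrix.transpose_zero, Matrix.zero_mulVec]

theorem web_zero_right (fr : Frame T) (X : Vec T) : web fr X 0 = 0 := by
  simp only [web, dtv_zero, Matrix.mulVec_zero]

theorem web_sum_left {ι : Type*} (fr : Frame T) (s : Finset ι) (X : ι → Vec T) (Z : Vec T) :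
    web fr (∑ i ∈ s, X i) Z = ∑ i ∈ s, web fr (X i) Z := by
  classical
  induction s using Finset.induction_on with
  | empty => simp [web_zero_left]
  | insert a s ha ih => rw [Finset.sum_insert ha, Finset.sum_insert ha, web_add_left, ih]

theorem web_sum_right {ι : Type*} (fr : Frame T) (s : Finset ι) (X : Vec T) (Z : ι → Vec T) :
    web fr X (∑ i ∈ s, Z i) = ∑ i ∈ s, web fr X (Z i) := by
  classical
  induction s using Finset.induction_on with
  | empty => simp [web_zero_right]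
  | insert a s ha ih => rw [Finset.sum_insert ha, Finset.sum_insert ha, web_add_right, ih]

theorem dv_add (fr : Frame T) (U V : Vec T) : dv fr (U + V) = dv fr U + dv fr V := by
  simp [dv, Finset.sum_add_distrib]

theorem dv_sub (fr : Frame T) (U V : Vec T) : dv fr (U - V) = dv fr U - dv fr V := by
  simp [dv, Finset.sum_sub_distrib]

theorem dv_neg (fr : Frame T) (U : Vec T) : dv fr (-U) = -dv fr U := by
  simp [dv]

theorem dv_zero (fr : Frame T) : dv fr (0 : Vec T) = 0 := by
  simp [dv]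

theorem dv_smul (fr : Frame T) (c : ℝ) (U : Vec T) : dv fr (c • U) = c • dv fr U := by
  simp [dv, Finset.smul_sum]

theorem dv_sum {ι : Type*} (fr : Frame T) (s : Finset ι) (U : ι → Vec T) :
    dv fr (∑ i ∈ s, U i) = ∑ i ∈ s, dv fr (U i) := by
  simp only [dv, Finset.sum_apply, map_sum]
  exact Finset.sum_comm

theorem dv_curl (h : fr.Ok) (U : Vec T) : dv fr (curl fr U) = 0 := by
  simp only [dv, curl, Fin.sum_univ_three, map_sub]
  have a1 : (0 : Fin 3) + 1 = 1 := rfl
  have a2 : (0 : Fin 3) + 2 = 2 := rfl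
  have a3 : (1 : Fin 3) + 1 = 2 := rfl
  have a4 : (1 : Fin 3) + 2 = 0 := rfl
  have a5 : (2 : Fin 3) + 1 = 0 := rfl
  have a6 : (2 : Fin 3) + 2 = 1 := rfl
  rw [a1, a2, a3, a4, a5, a6, D_comm h 0 1, D_comm h 0 2, D_comm h 1 2]
  abel

theorem Closed.zero : Closed fr (0 : Vec T) := fun i m => by simp

theorem Closed.add (h : Closed fr U) (h' : Closed fr V) : Closed fr (U + V) := fun i m => by
  have e : Cas.D fr i ((U + V) m) - Cas.D fr m ((U + V) i) =
      (Cas.D fr i (U m) - Cas.D fr m (U i)) + (Cas.D fr i (V m) - Cas.D fr m (V i)) := by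
    simp only [Pi.add_apply, map_add]; abel
  rw [e, map_add, h i m, h' i m, add_zero]

theorem Closed.smul (c : ℝ) (h : Closed fr U) : Closed fr (c • U) := fun i m => by
  have e : Cas.D fr i ((c • U) m) - Cas.D fr m ((c • U) i) =
      c • (Cas.D fr i (U m) - Cas.D fr m (U i)) := by
    simp only [Pi.smul_apply, Derivation.map_smul, smul_sub]
  rw [e, Derivation.map_smul, h i m, smul_zero]

theorem Closed.neg (h : Closed fr U) : Closed fr (-U) := by
  rw [← neg_one_smul ℝ U]; exact h.smul (-1)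

theorem Closed.sub (h : Closed fr U) (h' : Closed fr V) : Closed fr (U - V) := by
  rw [sub_eq_add_neg]; exact h.add h'.neg

theorem Closed.sum {ι : Type*} (s : Finset ι) {U : ι → Vec T} (h : ∀ i ∈ s, Closed fr (U i)) :
    Closed fr (∑ i ∈ s, U i) :=
  Finset.sum_induction U (Closed fr) (fun _ _ => Closed.add) Closed.zero h

theorem closed_gr (h : fr.Ok) (q : A T) : Closed fr (gr fr q) := fun i m => by
  simp only [gr, D_comm h i m, sub_self, map_zero]

theorem closed_of_dtv (h : fr.Ok) (hU : dtv U = 0) : Closed fr U := fun i m => by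
  have e : ∀ n, pd lt (U n) = 0 := fun n => congrFun hU n
  simp only [map_sub, D_pd_t h, e, map_zero, sub_self]

/-! ### levels and types -/

theorem In.top (f : A T) : In 3 f := fun j hj => by
  exact absurd hj (by fin_cases j <;> decide)

theorem In.mono (h : In l f) (hl : l ≤ l') : In l' f := fun j hj => h j (hl.trans hj)

theorem In.zero : In l (0 : A T) := fun _ _ => map_zero _

theorem In.one : In l (1 : A T) := fun _ _ => Derivation.map_one_eq_zero _

theorem In.const (c : ℝ) : In l (algebraMap ℝ (A T) c) := fun _ _ => Derivation.map_algebraMap _ c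

theorem In.add (h : In l f) (h' : In l g) : In l (f + g) := fun j hj => by
  rw [map_add, h j hj, h' j hj, add_zero]

theorem In.sub (h : In l f) (h' : In l g) : In l (f - g) := fun j hj => by
  rw [map_sub, h j hj, h' j hj, sub_zero]

theorem In.neg (h : In l f) : In l (-f) := fun j hj => by
  rw [map_neg, h j hj, neg_zero]

theorem In.mul (h : In l f) (h' : In l g) : In l (f * g) := fun j hj => by
  rw [Derivation.leibniz, h j hj, h' j hj, smul_zero, smul_zero, add_zero]

theorem In.smul (c : ℝ) (h : In l f) : In l (c • f) := fun j hj => by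
  rw [Derivation.map_smul, h j hj, smul_zero]

theorem In.sum {ι : Type*} (s : Finset ι) {f : ι → A T} (h : ∀ i ∈ s, In l (f i)) :
    In l (∑ i ∈ s, f i) :=
  Finset.sum_induction f (In l) (fun _ _ => In.add) In.zero h

theorem In.pd (i : Let) (h : In l f) : In l (pd i f) := fun j hj => by
  rw [pd_comm, h j hj, map_zero]

theorem In.pw (u : List Let) (h : In l f) : In l (pw u f) := by
  induction u with
  | nil => exact h
  | cons i u ih => exact ih.pd i

theorem In.D (hfr : fr.Ok) (i : Fin 3) (h : In l f) : In l (D fr i f) := fun j hj => by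
  rw [D_pd_p hfr, h j hj, map_zero]

theorem In.Dj (hfr : fr.Ok) (j i : Fin 3) (h : In l f) : In l (Dj fr j i f) := fun m hm => by
  rw [Dj_pd_p hfr, h m hm, map_zero]

theorem In.of_mul_eq_one (h : In l f) (hg : g * f = 1) : In l g := fun j hj => by
  have e := congrArg (Cas.pd (lp j)) hg
  rw [Derivation.leibniz, h j hj, smul_zero, zero_add, Derivation.map_one_eq_zero, smul_eq_mul] at e
  calc Cas.pd (lp j) g = (g * f) * Cas.pd (lp j) g := by rw [hg, one_mul]
    _ = g * (f * Cas.pd (lp j) g) := by ring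
    _ = 0 := by rw [e, mul_zero]

theorem In.det {F : Mat T} (h : ∀ i m, In l (F i m)) : In l F.det := by
  rw [Matrix.det_fin_three]
  exact (((((((h _ _).mul (h _ _)).mul (h _ _)).sub (((h _ _).mul (h _ _)).mul (h _ _))).sub
    (((h _ _).mul (h _ _)).mul (h _ _))).add (((h _ _).mul (h _ _)).mul (h _ _))).add
    (((h _ _).mul (h _ _)).mul (h _ _))).sub (((h _ _).mul (h _ _)).mul (h _ _))

theorem In.adjugate {F : Mat T} (h : ∀ i m, In l (F i m)) (i m : Fin 3) :
    In l (F.adjugate i m) := by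
  rw [Matrix.adjugate_apply]
  refine In.det fun a b => ?_
  rw [Matrix.updateRow_apply]
  split_ifs
  · rw [Pi.single_apply]
    split_ifs
    · exact In.one
    · exact In.zero
  · exact h a b

theorem InV.dot (h : InV l U) (h' : InV l V) : In l (U ⬝ᵥ V) :=
  In.sum _ fun i _ => (h i).mul (h' i)

theorem In.mulVec {F : Mat T} (h : ∀ i m, In l (F i m)) (h' : InV l V) : InV l (F *ᵥ V) :=
  fun i => InV.dot (U := F i) (h i) h'

theorem In.matMul {F G : Mat T} (h : ∀ i m, In l (F i m)) (h' : ∀ i m, In l (G i m)) (i m : Fin 3) :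
    In l ((F * G) i m) := by
  rw [Matrix.mul_apply]
  exact In.sum _ fun n _ => (h i n).mul (h' n m)

theorem In.dtm {F : Mat T} (h : ∀ i m, In l (F i m)) (i m : Fin 3) : In l (dtm F i m) :=
  (h i m).pd lt

theorem In.gm {F : Mat T} (h : ∀ i m, In l (F i m)) (i m : Fin 3) : In l (gm F i m) :=
  In.matMul (F := Fᵀ) (fun a b => h b a) h i m

theorem In.Bf {F : Mat T} (h : ∀ i m, In l (F i m)) (i m : Fin 3) : In l (Bf F i m) :=
  (In.matMul (F := (Cas.dtm F)ᵀ) (fun a b => In.dtm h b a) h i m).sub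
    (In.matMul (F := Fᵀ) (fun a b => h b a) (In.dtm h) i m)

theorem In.k (hfr : fr.Ok) (j i : Fin 3) : In l (fr.k j i) := fun m _ => hfr.k_p j i m

theorem InV.k (hfr : fr.Ok) (j : Fin 3) : InV l (fr.k j) := fun i => In.k hfr j i

theorem In.vp (hfr : fr.Ok) : In l fr.vp := fun m _ => hfr.vp_p m

theorem In.ki (hfr : fr.Ok) (j : Fin 3) : In l (fr.ki j) :=
  In.of_mul_eq_one (((InV.k hfr j).dot (InV.k hfr j)).add (In.vp hfr)) (hfr.ki_mul j)

namespace TA

theorem good_phase (b : ℝ → ℝ) (hb : ContDiff ℝ ∞ b) (hp : ∀ x, b (x + 2 * Real.pi) = b x)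
    (j : Fin 3) : Good T fun z : Pt => b (z.2.2 j) := by
  refine ⟨(hb.comp (by fun_prop)).contDiffOn, fun m z _ => ?_⟩
  by_cases hm : j = m
  · subst hm
    simp [vec, hp]
  · simp [vec, hm]

theorem pd_phase (b : ℝ → ℝ) (hb : ContDiff ℝ ∞ b) (hp : ∀ x, b (x + 2 * Real.pi) = b x)
    {j m : Fin 3} (hm : j ≠ m) : pd (lp m) (mkA T fun z : Pt => b (z.2.2 j)) = 0 := by
  refine A_ext fun z hz => ?_
  have h1 := hasDerivAt_ev (lp m) (mkA T fun z : Pt => b (z.2.2 j)) z 0 (by simpa using hz)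
  have h2 : (fun x : ℝ => ev (mkA T fun z : Pt => b (z.2.2 j)) (z + x • vec (lp m))) =
      fun _ => b (z.2.2 j) := by
    funext x
    rw [ev_mkA (good_phase b hb hp j) ((Om_shift z x m).2 hz)]
    simp [vec, hm]
  rw [h2] at h1
  have h3 := h1.unique (hasDerivAt_const _ _)
  simpa using h3

end TA

theorem In.sn (j : Fin 3) : In j.succ (sn T j) := fun m hm =>
  TA.pd_phase Real.sin Real.contDiff_sin Real.sin_add_two_pi (by
    rintro rfl
    exact absurd hm (not_le.2 Fin.castSucc_lt_succ))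

theorem In.cs (j : Fin 3) : In j.succ (cs T j) := fun m hm =>
  TA.pd_phase Real.cos Real.contDiff_cos Real.cos_add_two_pi (by
    rintro rfl
    exact absurd hm (not_le.2 Fin.castSucc_lt_succ))

theorem In.D_zero (fr : Frame T) (i : Fin 3) (h : In 0 f) :
    Cas.D fr i f = Cas.pd (la i) f := by
  have e : ∀ j, Cas.pd (lp j) f = 0 := fun j => h j (Fin.zero_le _)
  simp [D_apply, e]

/-- a function below slot `j` does not see the fast part of slot `j` -/
theorem In.Dj_eq (fr : Frame T) {j : Fin 3} (i : Fin 3) (h : In j.castSucc f) :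
    Cas.Dj fr j i f = Cas.D fr i f := by
  rw [Dj_apply, h j le_rfl, mul_zero, smul_zero, sub_zero]

theorem InV.Dm_zero (fr : Frame T) (h : InV 0 V) : Dm fr V = D0m V := by
  ext1 i m
  simp only [Dm, D0m, Matrix.of_apply, In.D_zero fr m (h i)]

theorem InV.dv_zero (fr : Frame T) (h : InV 0 V) : dv fr V = dv0 V :=
  Finset.sum_congr rfl fun i _ => In.D_zero fr i (h i)

theorem In.gr_zero (fr : Frame T) (h : In 0 f) : gr fr f = gr0 f :=
  funext fun i => In.D_zero fr i h

theorem InV.mono (h : InV l V) (hl : l ≤ l') : InV l' V := fun i => (h i).mono hl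
theorem InV.zero : InV l (0 : Vec T) := fun _ => In.zero
theorem InV.add (h : InV l U) (h' : InV l V) : InV l (U + V) := fun i => (h i).add (h' i)
theorem InV.sub (h : InV l U) (h' : InV l V) : InV l (U - V) := fun i => (h i).sub (h' i)
theorem InV.neg (h : InV l U) : InV l (-U) := fun i => (h i).neg
theorem InV.smul (c : ℝ) (h : InV l U) : InV l (c • U) := fun i => (h i).smul c
theorem InV.smulA (h : In l f) (h' : InV l V) : InV l (f • V) := fun i => h.mul (h' i)
theorem InV.sum {ι : Type*} (s : Finset ι) {U : ι → Vec T} (h : ∀ i ∈ s, InV l (U i)) :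
    InV l (∑ i ∈ s, U i) :=
  Finset.sum_induction U (InV l) (fun _ _ => InV.add) InV.zero h
theorem InV.dtv (h : InV l U) : InV l (dtv U) := fun i => (h i).pd lt
theorem InV.Dm (hfr : fr.Ok) (h : InV l U) (i m : Fin 3) : In l (Dm fr U i m) := (h i).D hfr m

theorem InV.cross (h : InV l U) (h' : InV l V) : InV l (crossProduct U V) := fun i => by
  rw [cross_apply]
  fin_cases i <;> exact ((h _).mul (h' _)).sub ((h _).mul (h' _))

theorem InV.tp {W : Vec T} (h : InV l U) (h' : InV l V) (h'' : InV l W) : In l (tp U V W) :=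
  h.dot (h'.cross h'')

theorem In.cr {F G : Mat T} (h : ∀ i m, In l (F i m)) (h' : ∀ i m, In l (G i m)) (h'' : InV l V) :
    InV l (cr F G V) := fun _ =>
  (InV.tp (fun i => h i _) (fun i => h' i _) h'').sub (InV.tp (fun i => h i _) (fun i => h' i _) h'')

theorem Ty.zero : Ty fr l (0 : A T) := ⟨In.zero, fun z _ => ev_zero z⟩

theorem Ty.of_in_zero (hfr : fr.Ok) (h : In 0 f) : Ty fr 0 f :=
  ⟨h, fun z hz => absurd (hfr.env_zero ▸ Set.mem_univ z) hz⟩

theorem Ty.add (h : Ty fr l f) (h' : Ty fr l g) : Ty fr l (f + g) :=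
  ⟨h.1.add h'.1, fun z hz => by rw [ev_add, h.2 z hz, h'.2 z hz, add_zero]⟩

theorem Ty.sub (h : Ty fr l f) (h' : Ty fr l g) : Ty fr l (f - g) :=
  ⟨h.1.sub h'.1, fun z hz => by rw [ev_sub, h.2 z hz, h'.2 z hz, sub_zero]⟩

theorem Ty.neg (h : Ty fr l f) : Ty fr l (-f) :=
  ⟨h.1.neg, fun z hz => by rw [ev_neg, h.2 z hz, neg_zero]⟩

theorem Ty.smul (c : ℝ) (h : Ty fr l f) : Ty fr l (c • f) :=
  ⟨h.1.smul c, fun z hz => by rw [ev_smul, h.2 z hz, mul_zero]⟩

theorem Ty.sum {ι : Type*} (s : Finset ι) {f : ι → A T} (h : ∀ i ∈ s, Ty fr l (f i)) :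
    Ty fr l (∑ i ∈ s, f i) :=
  Finset.sum_induction f (Ty fr l) (fun _ _ => Ty.add) Ty.zero h

theorem Ty.mul_left (h : In l g) (h' : Ty fr l f) : Ty fr l (g * f) :=
  ⟨h.mul h'.1, fun z hz => by rw [ev_mul, h'.2 z hz, mul_zero]⟩

theorem Ty.mul_right (h' : Ty fr l f) (h : In l g) : Ty fr l (f * g) :=
  ⟨h'.1.mul h, fun z hz => by rw [ev_mul, h'.2 z hz, zero_mul]⟩

theorem Ty.pd (hfr : fr.Ok) (i : Let) (h : Ty fr l f) : Ty fr l (pd i f) := by
  refine ⟨h.1.pd i, fun z hz => ?_⟩
  by_cases ho : z ∈ Om T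
  · have e : ev f =ᶠ[𝓝 z] fun _ => 0 := (hfr.env_open l z ho hz).mono fun y hy => h.2 y hy
    rw [ev_pd i f ho, e.fderiv_eq]
    simp
  · exact ev_out _ ho

theorem Ty.pw (hfr : fr.Ok) (u : List Let) (h : Ty fr l f) : Ty fr l (pw u f) := by
  induction u with
  | nil => exact h
  | cons i u ih => exact ih.pd hfr i

theorem Ty.D (hfr : fr.Ok) (i : Fin 3) (h : Ty fr l f) : Ty fr l (D fr i f) := by
  rw [D_apply]
  exact (h.pd hfr _).add (Ty.sum _ fun j _ => (Ty.mul_left (In.k hfr j i) (h.pd hfr _)).smul _)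

theorem Ty.Dj (hfr : fr.Ok) (j i : Fin 3) (h : Ty fr l f) : Ty fr l (Dj fr j i f) := by
  rw [Dj_apply]
  exact (h.D hfr i).sub ((Ty.mul_left (In.k hfr j i) (h.pd hfr _)).smul _)

/-- a function of type `l` that does not see the phases above `l' ≤ l` has type `l'` -/
theorem Ty.down (hfr : fr.Ok) (h : Ty fr l f) (hl : l' ≤ l) (hi : In l' f) : Ty fr l' f :=
  ⟨hi, fun z hz => h.2 z fun hm => hz (hfr.env_anti hl hm)⟩

theorem Ty.vp_mul (hfr : fr.Ok) {j : Fin 3} (h : Ty fr j.succ f) : fr.vp * f = 0 := by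
  refine A_ext fun z _ => ?_
  rw [ev_mul, ev_zero]
  by_cases hz : z ∈ fr.Env j.succ
  · rw [hfr.vp_zero z (hfr.env_anti (by fin_cases j <;> decide) hz), zero_mul]
  · rw [h.2 z hz, mul_zero]

theorem Tyv.inV (h : Tyv fr l V) : InV l V := fun i => (h i).1
theorem Tyv.zero : Tyv fr l (0 : Vec T) := fun _ => Ty.zero

theorem Tyv.dot_left (h : InV l U) (h' : Tyv fr l V) : Ty fr l (U ⬝ᵥ V) :=
  Ty.sum _ fun i _ => Ty.mul_left (h i) (h' i)

theorem Tyv.dot_right (h : Tyv fr l U) (h' : InV l V) : Ty fr l (U ⬝ᵥ V) :=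
  Ty.sum _ fun i _ => (h i).mul_right (h' i)

theorem Tyv.mulVec {F : Mat T} (h : ∀ i m, In l (F i m)) (h' : Tyv fr l V) :
    Tyv fr l (F *ᵥ V) := fun i => Tyv.dot_left (U := F i) (h i) h'

theorem Ty.mulVec {F : Mat T} (h : ∀ i m, Ty fr l (F i m)) (h' : InV l V) :
    Tyv fr l (F *ᵥ V) := fun i => Tyv.dot_right (U := F i) (h i) h'

theorem Tyv.smulA (h : In l f) (h' : Tyv fr l V) : Tyv fr l (f • V) :=
  fun i => Ty.mul_left h (h' i)

theorem Ty.smulV (h : Ty fr l f) (h' : InV l V) : Tyv fr l (f • V) := fun i => h.mul_right (h' i)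

theorem Tyv.add (h : Tyv fr l U) (h' : Tyv fr l V) : Tyv fr l (U + V) := fun i => (h i).add (h' i)
theorem Tyv.sub (h : Tyv fr l U) (h' : Tyv fr l V) : Tyv fr l (U - V) := fun i => (h i).sub (h' i)
theorem Tyv.neg (h : Tyv fr l U) : Tyv fr l (-U) := fun i => (h i).neg
theorem Tyv.smul (c : ℝ) (h : Tyv fr l U) : Tyv fr l (c • U) := fun i => (h i).smul c
theorem Tyv.sum {ι : Type*} (s : Finset ι) {U : ι → Vec T} (h : ∀ i ∈ s, Tyv fr l (U i)) :
    Tyv fr l (∑ i ∈ s, U i) :=
  Finset.sum_induction U (Tyv fr l) (fun _ _ => Tyv.add) Tyv.zero h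
theorem Tyv.dtv (hfr : fr.Ok) (h : Tyv fr l U) : Tyv fr l (dtv U) := fun i => (h i).pd hfr lt
theorem Tyv.Dm (hfr : fr.Ok) (h : Tyv fr l U) (i m : Fin 3) : Ty fr l (Dm fr U i m) :=
  (h i).D hfr m
theorem Tyv.down (hfr : fr.Ok) (h : Tyv fr l U) (hl : l' ≤ l) (hi : InV l' U) : Tyv fr l' U :=
  fun i => (h i).down hfr hl (hi i)

theorem Tyv.cross_left (h : InV l U) (h' : Tyv fr l V) : Tyv fr l (crossProduct U V) := fun i => by
  rw [cross_apply]
  fin_cases i <;> exact (Ty.mul_left (h _) (h' _)).sub (Ty.mul_left (h _) (h' _))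

theorem Tyv.cross_right (h : Tyv fr l U) (h' : InV l V) : Tyv fr l (crossProduct U V) :=
  fun i => by
  rw [cross_apply]
  fin_cases i <;> exact ((h _).mul_right (h' _)).sub ((h _).mul_right (h' _))

theorem Tyv.tp {W : Vec T} (h : InV l U) (h' : InV l V) (h'' : Tyv fr l W) :
    Ty fr l (tp U V W) := Tyv.dot_left h (Tyv.cross_left h' h'')

theorem Tyv.cr {F G : Mat T} (h : ∀ i m, In l (F i m)) (h' : ∀ i m, In l (G i m))
    (h'' : Tyv fr l V) : Tyv fr l (cr F G V) := fun _ =>
  (Tyv.tp (fun i => h i _) (fun i => h' i _) h'').sub (Tyv.tp (fun i => h i _) (fun i => h' i _) h'')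

/-! ### slow and fast part of a Jacobian -/

/-- derivative of a vector field in a phase -/
def dpv (j : Fin 3) (V : Vec T) : Vec T := fun i => pd (lp j) (V i)

/-- Jacobian without slot `j` -/
def Djm (fr : Frame T) (j : Fin 3) (X : Vec T) : Mat T := Matrix.of fun i m => Dj fr j m (X i)

theorem Dm_split (fr : Frame T) (j : Fin 3) (X : Vec T) :
    Dm fr X = Djm fr j X + fr.N j.succ • Matrix.vecMulVec (dpv j X) (fr.k j) := by
  ext1 i m
  simp only [Dm, Djm, dpv, Matrix.of_apply, Matrix.add_apply, Matrix.smul_apply,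
    Matrix.vecMulVec_apply, D_eq_Dj fr j m, mul_comm]

theorem InV.dpv (j : Fin 3) (h : InV l U) : InV l (dpv j U) := fun i => (h i).pd _
theorem Tyv.dpv (hfr : fr.Ok) (j : Fin 3) (h : Tyv fr l U) : Tyv fr l (dpv j U) :=
  fun i => (h i).pd hfr _
theorem InV.Djm (hfr : fr.Ok) (j : Fin 3) (h : InV l U) (i m : Fin 3) : In l (Djm fr j U i m) :=
  (h i).Dj hfr j m
theorem Tyv.Djm (hfr : fr.Ok) (j : Fin 3) (h : Tyv fr l U) (i m : Fin 3) :
    Ty fr l (Djm fr j U i m) := (h i).Dj hfr j m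

end

end Pool.Agent.Lib.MP_fbbbeb_an.Cas
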