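import Mathlib
import Pool.Agent.Lib.MP_fbbbeb_an.Cas.Gev
import Pool.Agent.Lib.MP_fbbbeb_an.Cas.TypA1

/-! Parameter regime and bounds for derivatives. -/

set_option autoImplicit false

noncomputable section

namespace Pool.Agent.Lib.MP_fbbbeb_an.Cas

open Pool.Agent.Lib.MP_fbbbeb_an.Pub
open scoped ContDiff Topology RealInnerProductSpace Matrix Nat

variable {T : ℝ}

section
variable {fr : Frame T} {f g : A T} {U V : Vec T} {l l' : Fin 4}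
variable {K K' θ ε ε' : ℝ} {r r' : Let → ℝ} {w v : Fin 4 → ℝ → ℝ} {d : ℤ} {wa : ℝ → ℝ} {M : ℝ}

theorem Frame.Ok.N_pos (hfr : fr.Ok) (l : Fin 4) : 0 < fr.N l := one_pos.trans_le (hfr.N_one l)

theorem Reg.K_one (h : Reg fr K θ ε r) : 1 ≤ K := one_le_two.trans h.K_two

theorem Reg.K_pos (h : Reg fr K θ ε r) : 0 < K := one_pos.trans_le h.K_one

theorem Reg.th_pos (h : Reg fr K θ ε r) : 0 < θ := by linarith [h.th_half]

theorem Reg.r_pos (hfr : fr.Ok) (h : Reg fr K θ ε r) (i : Let) : 0 < r i := by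
  have hK := h.K_pos
  rcases i with _ | i | j
  · exact (mul_pos_iff_of_pos_left hK).1 (one_pos.trans_le h.r_t)
  · exact (mul_pos_iff_of_pos_left (mul_pos hK (hfr.N_pos 0))).1 (one_pos.trans_le (h.r_a i))
  · exact (mul_pos_iff_of_pos_left hK).1 (one_pos.trans_le (h.r_p j))

theorem Reg.r_nonneg (hfr : fr.Ok) (h : Reg fr K θ ε r) (i : Let) : 0 ≤ r i := (h.r_pos hfr i).le

theorem Reg.sh_nonneg (hfr : fr.Ok) (h : Reg fr K θ ε r) (n : ℕ) (i : Let) :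
    0 ≤ Cas.sh θ n r i := (sh_pos h.th_pos n (h.r_pos hfr) i).le

theorem Reg.sh_le_self (hfr : fr.Ok) (h : Reg fr K θ ε r) (n : ℕ) (i : Let) :
    Cas.sh θ n r i ≤ r i :=
  mul_le_of_le_one_left (h.r_nonneg hfr i) (pow_le_one₀ h.th_pos.le h.th_one.le)

theorem Reg.sh_anti (hfr : fr.Ok) (h : Reg fr K θ ε r) {m n : ℕ} (hmn : m ≤ n) (i : Let) :
    Cas.sh θ n r i ≤ Cas.sh θ m r i := sh_le h.th_pos.le h.th_one.le hmn (h.r_nonneg hfr) i

namespace TA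

/-- general change of the parameters -/
theorem reg_change (hfr : fr.Ok) (h : Reg fr K θ ε r) {x : ℝ} (hx : 1 ≤ x) (hK : x * K ≤ K')
    (h1 : ∀ i, r' i ≤ r i) (h2 : ∀ i, r i ≤ x * r' i) : Reg fr K' θ ε r' := by
  have hK0 := h.K_pos
  have hKK : K ≤ K' := (le_mul_of_one_le_left hK0.le hx).trans hK
  have hr : ∀ i, 0 ≤ r' i := fun i =>
    ((mul_pos_iff_of_pos_left (one_pos.trans_le hx)).1 ((h.r_pos hfr i).trans_le (h2 i))).le
  have key : ∀ (i : Let) (c : ℝ), 0 ≤ c → 1 ≤ K * c * r i → 1 ≤ K' * c * r' i := by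
    intro i c hc h3
    calc (1 : ℝ) ≤ K * c * r i := h3
      _ ≤ K * c * (x * r' i) := mul_le_mul_of_nonneg_left (h2 i) (mul_nonneg hK0.le hc)
      _ = x * K * (c * r' i) := by ring
      _ ≤ K' * (c * r' i) := mul_le_mul_of_nonneg_right hK (mul_nonneg hc (hr i))
      _ = K' * c * r' i := by ring
  have hw : ∀ t ∈ Set.Ioo 0 T, K * w1 t ≤ K' * w1 t := fun t _ => by simpa [w1] using hKK
  exact
    { K_two := h.K_two.trans hKK
      th_half := h.th_half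
      th_one := h.th_one
      th_K := h.th_K.trans (mul_le_mul_of_nonneg_right hKK (by linarith [h.th_one]))
      r_one := fun i => (h1 i).trans (h.r_one i)
      r_t := by simpa using key lt 1 zero_le_one (by simpa using h.r_t)
      r_p := fun j => by simpa using key (lp j) 1 zero_le_one (by simpa using h.r_p j)
      r_a := fun i => key (la i) _ (hfr.N_pos 0).le (h.r_a i)
      k_bd := fun j => (h.k_bd j).mono hr h1 hw
      ki_bd := fun j => (h.ki_bd j).mono hr h1 hw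
      e_pos := h.e_pos
      e_one := h.e_one
      e_N := h.e_N }

/-- enlarging a constant factor -/
theorem gb_le {a b : ℝ} (hr : ∀ i, 0 ≤ r i) (hM : ∀ t ∈ Set.Ioo 0 T, 0 ≤ M * wa t)
    (hf : GB d r wa (a * M) f) (hab : a ≤ b) : GB d r wa (b * M) f :=
  hf.mono hr (fun _ => le_rfl) fun t ht => by
    rw [mul_assoc, mul_assoc]; exact mul_le_mul_of_nonneg_right hab (hM t ht)

theorem loss_le (h : Reg fr K θ ε r) {ρ c : ℝ} (hρ : 0 < ρ) (_hc : 0 ≤ c) (h1 : 1 ≤ K * c * ρ) :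
    4 / ((1 - θ) ^ 2 * ρ) ≤ 4 * K ^ 3 * c := by
  have h0 : 0 < 1 - θ := by linarith [h.th_one]
  have h2 : 1 ≤ (K * (1 - θ)) ^ 2 := one_le_pow₀ h.th_K
  have h3 : 1 ≤ (K * (1 - θ)) ^ 2 * (K * c * ρ) := one_le_mul_of_one_le_of_one_le h2 h1
  rw [div_le_iff₀ (by positivity)]
  nlinarith

theorem sp_point {t : ℝ} (ht : t ∈ Set.Ioo 0 T) : ∃ z ∈ Sp T, z.1 = t :=
  ⟨(t, EuclideanSpace.single 0 1, 0), ⟨ht.1, ht.2, by simp⟩, rfl⟩

/-- the fast term of slot `j` -/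
theorem gb_fast (hfr : fr.Ok) (h : Reg fr K θ ε r) (hM : ∀ t ∈ Set.Ioo 0 T, 0 ≤ M * wa t)
    (j i : Fin 3) (hf : GB d r wa M f) :
    GB (d - 1) (sh θ 1 r) wa (12 * K ^ 4 * fr.N j.succ * M)
      (fr.N j.succ • (fr.k j i * pd (lp j) f)) := by
  have hr := h.sh_nonneg hfr 1
  have h1 := gb_le hr hM (hf.pd_p (h.r_pos hfr) h.th_pos h.th_one j)
    (loss_le h (h.r_pos hfr _) zero_le_one (by simpa using h.r_p j))
  have h2 := (h.k_bd j i).monoR hr (h.sh_le_self hfr 1)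
  have h3 := ((h2.mul1 hr h1).smul (fr.N j.succ)).cast (d' := d - 1) (by ring)
  rw [abs_of_pos (hfr.N_pos _)] at h3
  convert h3 using 1
  ring

theorem gb_slow (hfr : fr.Ok) (h : Reg fr K θ ε r) (hM : ∀ t ∈ Set.Ioo 0 T, 0 ≤ M * wa t)
    (i : Fin 3) (hf : GB d r wa M f) :
    GB (d - 1) (sh θ 1 r) wa (4 * K ^ 3 * fr.N 0 * M) (pd (la i) f) :=
  gb_le (h.sh_nonneg hfr 1) hM (hf.pd_a (h.r_pos hfr) h.th_pos h.th_one i)
    (loss_le h (h.r_pos hfr _) (hfr.N_pos 0).le (h.r_a i))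

/-- slow term plus three terms that vanish or have a frequency at most `N l` -/
theorem gb_comb (hfr : fr.Ok) (h : Reg fr K θ ε r) (hM : ∀ t ∈ Set.Ioo 0 T, 0 ≤ M * wa t)
    (i : Fin 3) (hf : GB d r wa M f) (l : Fin 4) (x : Fin 3 → A T)
    (hx : ∀ j, x j = 0 ∨ (j.succ ≤ l ∧ x j = fr.N j.succ • (fr.k j i * pd (lp j) f))) :
    GB (d - 1) (sh θ 1 r) wa (K ^ 10 * fr.N l * M) (pd (la i) f + ∑ j, x j) := by
  have hr := h.sh_nonneg hfr 1
  have hK := h.K_two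
  have hN := hfr.N_pos l
  have h1 : ∀ j ∈ (Finset.univ : Finset (Fin 3)),
      GB (d - 1) (sh θ 1 r) wa (12 * K ^ 4 * fr.N l * M) (x j) := by
    intro j _
    rcases hx j with e | ⟨hj, e⟩
    · rw [e]
      refine GB.zero fun t ht => ?_
      rw [mul_assoc]
      exact mul_nonneg (by positivity) (hM t ht)
    · rw [e]
      exact gb_le hr hM (gb_fast hfr h hM j i hf)
        (mul_le_mul_of_nonneg_left (hfr.N_mono hj) (by positivity))
  have h2 := (gb_slow hfr h hM i hf).add hr (GB.sum hr _ h1)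
  have e : 4 * K ^ 3 * fr.N 0 * M + ∑ _j : Fin 3, 12 * K ^ 4 * fr.N l * M =
      (4 * K ^ 3 * fr.N 0 + 36 * K ^ 4 * fr.N l) * M := by
    simp only [Fin.sum_univ_three]; ring
  rw [e] at h2
  refine gb_le hr hM h2 ?_
  have a1 : fr.N 0 ≤ fr.N l := hfr.N_mono (Fin.zero_le l)
  have a2 : (2 : ℝ) ^ 6 ≤ K ^ 6 := pow_le_pow_left₀ zero_le_two hK 6
  have a3 : 4 * K ^ 3 * fr.N 0 ≤ 4 * K ^ 3 * fr.N l := mul_le_mul_of_nonneg_left a1 (by positivity)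
  have a4 : 4 * K ^ 3 ≤ 2 * K ^ 4 := by
    have : 0 ≤ K ^ 3 := by positivity
    nlinarith
  have a5 : 38 * K ^ 4 ≤ K ^ 10 := by
    have : 0 ≤ K ^ 4 := by positivity
    nlinarith
  nlinarith

end TA

theorem GB.nn (h : GB d r wa M f) : ∀ t ∈ Set.Ioo 0 T, 0 ≤ M * wa t := fun t ht => by
  obtain ⟨z, hz, rfl⟩ := TA.sp_point ht
  exact (h.2 z hz).nonneg

theorem GBv.nn (h : GBv d r wa M V) : ∀ t ∈ Set.Ioo 0 T, 0 ≤ M * wa t := (h 0).nn

theorem GBm.nn {F : Mat T} (h : GBm d r wa M F) : ∀ t ∈ Set.Ioo 0 T, 0 ≤ M * wa t :=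
  (h 0 0).nn

theorem SB.nn {c : ℝ} (hfr : fr.Ok) (h : SB fr r wa l c V) :
    ∀ t ∈ Set.Ioo 0 T, 0 ≤ c * wa t := fun t ht => by
  have h1 := mul_nonneg (hfr.N_pos l).le (h.2.nn t ht)
  have h2 := (hfr.N_pos l).ne'
  have e : fr.N l * (c / fr.N l * wa t) = c * wa t := by field_simp
  rwa [e] at h1

theorem Reg.monoK (hfr : fr.Ok) (h : Reg fr K θ ε r) (hK : K ≤ K') : Reg fr K' θ ε r :=
  TA.reg_change hfr h le_rfl (by simpa using hK) (fun _ => le_rfl) (fun _ => by simp)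

theorem Reg.monoE (hfr : fr.Ok) (h : Reg fr K θ ε r) (h1 : ε ≤ ε') (h2 : ε' ≤ 1) :
    Reg fr K θ ε' r :=
  { h with
    e_pos := h.e_pos.trans_le h1
    e_one := h2
    e_N := fun j => (h.e_N j).trans (mul_le_mul_of_nonneg_right h1 (hfr.N_pos _).le) }

/-- smaller radii, larger constant -/
theorem Reg.radius (hfr : fr.Ok) (h : Reg fr K θ ε r) {x : ℝ} (hx : 1 ≤ x) (h1 : ∀ i, r' i ≤ r i)
    (h2 : ∀ i, r i ≤ x * r' i) : Reg fr (x * K) θ ε r' :=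
  TA.reg_change hfr h hx le_rfl h1 h2

theorem Reg.sh (hfr : fr.Ok) (h : Reg fr K θ ε r) (n : ℕ) :
    Reg fr (K ^ (n + 1)) θ ε (sh θ n r) := by
  refine TA.reg_change hfr h (x := K ^ n) (one_le_pow₀ h.K_one) (by rw [pow_succ])
    (h.sh_le_self hfr n) fun i => ?_
  have h1 : 1 ≤ K * θ := by nlinarith [h.K_two, h.th_half]
  have h2 : 1 ≤ (K * θ) ^ n := one_le_pow₀ h1
  calc r i ≤ (K * θ) ^ n * r i := le_mul_of_one_le_left (h.r_nonneg hfr i) h2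
    _ = K ^ n * Cas.sh θ n r i := by simp only [Cas.sh]; ring

theorem Wt.v_nonneg (h : Wt T K w v) (l : Fin 4) : ∀ t ∈ Set.Ioo 0 T, 0 ≤ v l t :=
  fun t ht => (h.w_nonneg l t ht).trans (h.w_le l t ht)

theorem Wt.w_le_K (h : Wt T K w v) (l : Fin 4) : ∀ t ∈ Set.Ioo 0 T, w l t ≤ K :=
  fun t ht => (h.w_le l t ht).trans (h.v_le l t ht)

theorem Wt.monoK (h : Wt T K w v) (hK : K ≤ K') : Wt T K' w v :=
  { h with
    v_le := fun l t ht => (h.v_le l t ht).trans hK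
    v_mul := fun i j t ht =>
      (h.v_mul i j t ht).trans (mul_le_mul_of_nonneg_right hK (h.w_nonneg _ t ht))
    w_down := fun j t ht =>
      (h.w_down j t ht).trans (mul_le_mul_of_nonneg_right hK (h.w_nonneg _ t ht)) }

theorem Reg.four_le (h : Reg fr K θ ε r) : 4 * K ^ 3 * 1 ≤ K ^ 5 := by
  have hK := h.K_two
  have a : (2 : ℝ) ^ 2 ≤ K ^ 2 := pow_le_pow_left₀ zero_le_two hK 2
  have : 0 ≤ K ^ 3 := by positivity
  nlinarith

theorem Reg.pd_t (hfr : fr.Ok) (h : Reg fr K θ ε r) (hM : ∀ t ∈ Set.Ioo 0 T, 0 ≤ M * wa t)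
    (hf : GB d r wa M f) : GB d (Cas.sh θ 1 r) wa (K ^ 5 * M) (pd lt f) :=
  TA.gb_le (h.sh_nonneg hfr 1) hM (hf.pd_t (h.r_pos hfr) h.th_pos h.th_one)
    ((TA.loss_le h (h.r_pos hfr _) zero_le_one (by simpa using h.r_t)).trans h.four_le)

theorem Reg.pd_p (hfr : fr.Ok) (h : Reg fr K θ ε r) (hM : ∀ t ∈ Set.Ioo 0 T, 0 ≤ M * wa t)
    (j : Fin 3) (hf : GB d r wa M f) : GB d (Cas.sh θ 1 r) wa (K ^ 5 * M) (pd (lp j) f) :=
  TA.gb_le (h.sh_nonneg hfr 1) hM (hf.pd_p (h.r_pos hfr) h.th_pos h.th_one j)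
    ((TA.loss_le h (h.r_pos hfr _) zero_le_one (by simpa using h.r_p j)).trans h.four_le)

theorem Reg.pd_a (hfr : fr.Ok) (h : Reg fr K θ ε r) (hM : ∀ t ∈ Set.Ioo 0 T, 0 ≤ M * wa t)
    (i : Fin 3) (hf : GB d r wa M f) :
    GB (d - 1) (Cas.sh θ 1 r) wa (K ^ 5 * fr.N 0 * M) (pd (la i) f) :=
  TA.gb_le (h.sh_nonneg hfr 1) hM (TA.gb_slow hfr h hM i hf)
    (mul_le_mul_of_nonneg_right (by simpa using h.four_le) (hfr.N_pos 0).le)

theorem Reg.D (hfr : fr.Ok) (h : Reg fr K θ ε r) (hM : ∀ t ∈ Set.Ioo 0 T, 0 ≤ M * wa t)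
    (i : Fin 3) (hl : In l f) (hf : GB d r wa M f) :
    GB (d - 1) (Cas.sh θ 1 r) wa (K ^ 10 * fr.N l * M) (D fr i f) := by
  rw [D_apply]
  refine TA.gb_comb hfr h hM i hf l _ fun j => ?_
  by_cases hj : j.succ ≤ l
  · exact Or.inr ⟨hj, rfl⟩
  · left
    rw [hl j (Fin.le_castSucc_iff.2 (not_le.1 hj)), mul_zero, smul_zero]

theorem Reg.Dj (hfr : fr.Ok) (h : Reg fr K θ ε r) (hM : ∀ t ∈ Set.Ioo 0 T, 0 ≤ M * wa t)
    (j i : Fin 3) (hl : In j.succ f) (hf : GB d r wa M f) :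
    GB (d - 1) (Cas.sh θ 1 r) wa (K ^ 10 * fr.N j.castSucc * M) (Dj fr j i f) := by
  have e : Cas.Dj fr j i f = pd (la i) f +
      ∑ m : Fin 3, if m = j then 0 else fr.N m.succ • (fr.k m i * pd (lp m) f) := by
    rw [Dj_apply, D_apply, add_sub_assoc]
    congr 1
    rw [← Finset.add_sum_erase _ _ (Finset.mem_univ j), add_sub_cancel_left,
      ← Finset.add_sum_erase _ _ (Finset.mem_univ j), if_pos rfl, zero_add]
    exact Finset.sum_congr rfl fun m hm => (if_neg (Finset.ne_of_mem_erase hm)).symm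
  rw [e]
  refine TA.gb_comb hfr h hM i hf j.castSucc _ fun m => ?_
  rcases lt_trichotomy m j with hm | hm | hm
  · exact Or.inr ⟨Fin.succ_le_castSucc_iff.2 hm, if_neg hm.ne⟩
  · exact Or.inl (if_pos hm)
  · left
    rw [if_neg hm.ne', hl m (Fin.succ_le_castSucc_iff.2 hm), mul_zero, smul_zero]

theorem Reg.dtv (hfr : fr.Ok) (h : Reg fr K θ ε r) (hV : GBv d r wa M V) :
    GBv d (Cas.sh θ 1 r) wa (K ^ 5 * M) (dtv V) := fun i => h.pd_t hfr hV.nn (hV i)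

theorem Reg.dpv (hfr : fr.Ok) (h : Reg fr K θ ε r) (j : Fin 3) (hV : GBv d r wa M V) :
    GBv d (Cas.sh θ 1 r) wa (K ^ 5 * M) (dpv j V) := fun i => h.pd_p hfr hV.nn j (hV i)

theorem Reg.dtm {F : Mat T} (hfr : fr.Ok) (h : Reg fr K θ ε r) (hF : GBm d r wa M F) :
    GBm d (Cas.sh θ 1 r) wa (K ^ 5 * M) (dtm F) := fun i m => h.pd_t hfr hF.nn (hF i m)

/-- gradient of a field of scaled size `c` -/
theorem SB.Dm {c : ℝ} (hfr : fr.Ok) (h : Reg fr K θ ε r) (hc : ∀ t ∈ Set.Ioo 0 T, 0 ≤ c * wa t)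
    (hV : SB fr r wa l c V) : GBm 0 (sh θ 1 r) wa (K ^ 10 * c) (Dm fr V) := fun i m => by
  have _ := hc
  have h1 := (h.D hfr hV.2.nn m (hV.1 i).1 (hV.2 i)).cast (d' := 0) (by norm_num)
  have h2 := (hfr.N_pos l).ne'
  have e : K ^ 10 * fr.N l * (c / fr.N l) = K ^ 10 * c := by field_simp
  rwa [e] at h1

theorem SB.dtv {c : ℝ} (hfr : fr.Ok) (h : Reg fr K θ ε r) (hc : ∀ t ∈ Set.Ioo 0 T, 0 ≤ c * wa t)
    (hV : SB fr r wa l c V) : SB fr (sh θ 1 r) wa l (K ^ 5 * c) (dtv V) := by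
  have _ := hc
  refine ⟨hV.1.dtv hfr, ?_⟩
  rw [mul_div_assoc]
  exact h.dtv hfr hV.2

theorem SB.dpv {c : ℝ} (hfr : fr.Ok) (h : Reg fr K θ ε r) (j : Fin 3) (hV : SB fr r wa l c V) :
    SB fr (sh θ 1 r) wa l (K ^ 5 * c) (dpv j V) := by
  refine ⟨hV.1.dpv hfr j, ?_⟩
  rw [mul_div_assoc]
  exact h.dpv hfr j hV.2

/-- the slow part of the gradient is small -/
theorem SB.Djm {c : ℝ} (hfr : fr.Ok) (h : Reg fr K θ ε r) {j : Fin 3}
    (hV : SB fr r wa j.succ c V) : GBm 0 (sh θ 1 r) wa (ε * (K ^ 10 * c)) (Djm fr j V) :=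
  fun i m => by
  have h1 := (h.Dj hfr hV.2.nn j m (hV.1 i).1 (hV.2 i)).cast (d' := 0) (by norm_num)
  have hK := h.K_pos
  have h2 := TA.gb_le (h.sh_nonneg hfr 1) hV.2.nn h1
    (mul_le_mul_of_nonneg_left (h.e_N j) (by positivity))
  have h3 := (hfr.N_pos j.succ).ne'
  have e : K ^ 10 * (ε * fr.N j.succ) * (c / fr.N j.succ) = ε * (K ^ 10 * c) := by field_simp
  rwa [e] at h2

/-- time derivative of the gradient, two losses of radius -/
theorem SB.dtm_Dm {c : ℝ} (hfr : fr.Ok) (h : Reg fr K θ ε r) (hV : SB fr r wa l c V) :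
    GBm 0 (sh θ 2 r) wa (K ^ 20 * c) (dtm (Cas.Dm fr V)) := by
  have h1 := (h.sh hfr 1).dtm hfr (hV.Dm hfr h (hV.nn hfr))
  rw [sh_sh] at h1
  convert h1 using 1
  ring

/-! ### products with a typed field -/

variable {c M' : ℝ} {u u' : ℝ → ℝ} {F G : Mat T}

theorem SB.mulVec (hr : ∀ i, 0 ≤ r i) (hi : ∀ i m, In l (F i m)) (hF : GBm 0 r u M F)
    (hV : SB fr r wa l c V) : SB fr r (fun t => u t * wa t) l (9 * (M * c)) (F *ᵥ V) := by
  refine ⟨Tyv.mulVec hi hV.1, fun i => ?_⟩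
  have h1 := (hF.mulVec hr hV.2 i).cast (d' := 1) (by norm_num)
  convert h1 using 1
  ring

theorem SB.mulVec1 (hr : ∀ i, 0 ≤ r i) (hi : ∀ i m, In l (F i m)) (hF : GBm 0 r w1 M F)
    (hV : SB fr r wa l c V) : SB fr r wa l (9 * (M * c)) (F *ᵥ V) := by
  have h1 := SB.mulVec hr hi hF hV
  rwa [w1_mul] at h1

theorem SB.smulA (hr : ∀ i, 0 ≤ r i) (hi : In l f) (hf : GB 0 r u M f)
    (hV : SB fr r wa l c V) : SB fr r (fun t => u t * wa t) l (3 * (M * c)) (f • V) := by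
  refine ⟨Tyv.smulA hi hV.1, fun i => ?_⟩
  have h1 := (hf.smulv hr hV.2 i).cast (d' := 1) (by norm_num)
  convert h1 using 1
  ring

theorem SB.smulA1 (hr : ∀ i, 0 ≤ r i) (hi : In l f) (hf : GB 0 r w1 M f)
    (hV : SB fr r wa l c V) : SB fr r wa l (3 * (M * c)) (f • V) := by
  have h1 := SB.smulA hr hi hf hV
  rwa [w1_mul] at h1

theorem SB.cr (hr : ∀ i, 0 ≤ r i) (hi : ∀ i m, In l (F i m)) (hi' : ∀ i m, In l (G i m))
    (hF : GBm 0 r u M F) (hG : GBm 0 r u' M' G) (hV : SB fr r wa l c V) :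
    SB fr r (fun t => u t * u' t * wa t) l (108 * (M * M' * c)) (cr F G V) := by
  refine ⟨Tyv.cr hi hi' hV.1, fun i => ?_⟩
  have h1 := (hF.cr hr hG hV.2 i).cast (d' := 1) (by norm_num)
  convert h1 using 1
  ring

end

end Pool.Agent.Lib.MP_fbbbeb_an.Cas
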