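import Mathlib
import Pool.Agent.Lib.MP_fbbbeb_an.Cas.Defs

/-! Linear calculus of residual sizes: `SB`, `FB`, `RW`, `RV`, `St`, `Reg`, `Wt`. -/

set_option autoImplicit false

noncomputable section

namespace Pool.Agent.Lib.MP_fbbbeb_an.Cas

open Pool.Agent.Lib.MP_fbbbeb_an.Pub
open scoped ContDiff Topology RealInnerProductSpace Matrix Nat

variable {T : ℝ}

namespace RK

/-! ### words, radii, linear rules for `GB` -/

theorem pw_add (u : List Let) (f g : A T) : pw u (f + g) = pw u f + pw u g := by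
  induction u with
  | nil => rfl
  | cons i u ih => show pd i (pw u (f + g)) = pd i (pw u f) + pd i (pw u g); rw [ih, map_add]

theorem pw_smul (u : List Let) (c : ℝ) (f : A T) : pw u (c • f) = c • pw u f := by
  induction u with
  | nil => rfl
  | cons i u ih => show pd i (pw u (c • f)) = c • pd i (pw u f); rw [ih, Derivation.map_smul]

theorem pw_zero (u : List Let) : pw u (0 : A T) = 0 := by
  simpa using pw_smul u 0 (0 : A T)

theorem rpr_nonneg {r : Let → ℝ} (hr : ∀ i, 0 ≤ r i) (u : List Let) : 0 ≤ rpr r u := by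
  induction u with
  | nil => simp [rpr]
  | cons i u ih => simpa [rpr] using mul_nonneg (hr i) ih

theorem rpr_mono {r r' : Let → ℝ} (h0 : ∀ i, 0 ≤ r' i) (h : ∀ i, r' i ≤ r i) (u : List Let) :
    rpr r' u ≤ rpr r u := by
  induction u with
  | nil => simp [rpr]
  | cons i u ih =>
    simpa [rpr] using mul_le_mul (h i) ih (rpr_nonneg h0 u) ((h0 i).trans (h i))

theorem hom_add {d : ℤ} {f g : A T} (hf : Hom d f) (hg : Hom d g) : Hom d (f + g) := fun z s hs => by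
  rw [ev_add, ev_add, hf z s hs, hg z s hs, mul_add]

theorem hom_smul {d : ℤ} (c : ℝ) {f : A T} (hf : Hom d f) : Hom d (c • f) := fun z s hs => by
  rw [ev_smul, ev_smul, hf z s hs]; ring

theorem hom_zero (d : ℤ) : Hom d (0 : A T) := fun z s _ => by simp

variable {d : ℤ} {r r' : Let → ℝ} {w w' : ℝ → ℝ} {M M' : ℝ} {f g : A T}

theorem gb_nonneg (h : GB d r w M f) {t : ℝ} (ht : t ∈ Set.Ioo 0 T) : 0 ≤ M * w t := by
  have h1 := h.2 (t, EuclideanSpace.single 0 1, 0) ⟨ht.1, ht.2, by simp⟩ []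
  simp only [rpr, List.map_nil, List.prod_nil, mul_one, List.length_nil, Nat.factorial_zero,
    Nat.cast_one, one_pow] at h1
  exact (abs_nonneg _).trans h1

theorem gb_zero (hM : ∀ t ∈ Set.Ioo 0 T, 0 ≤ M * w t) : GB d r w M (0 : A T) :=
  ⟨hom_zero d, fun z hz u => by
    rw [pw_zero, ev_zero, abs_zero, zero_mul]
    exact mul_nonneg (hM z.1 ⟨hz.1, hz.2.1⟩) (by positivity)⟩

theorem gb_add (hr : ∀ i, 0 ≤ r i) (hf : GB d r w M f) (hg : GB d r w M' g) :
    GB d r w (M + M') (f + g) :=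
  ⟨hom_add hf.1 hg.1, fun z hz u => by
    have h1 := hf.2 z hz u
    have h2 := hg.2 z hz u
    have h3 := mul_le_mul_of_nonneg_right (abs_add_le (ev (pw u f) z) (ev (pw u g) z))
      (rpr_nonneg hr u)
    rw [pw_add, ev_add]
    nlinarith⟩

theorem gb_smul (c : ℝ) (hf : GB d r w M f) : GB d r w (|c| * M) (c • f) :=
  ⟨hom_smul c hf.1, fun z hz u => by
    have h1 := mul_le_mul_of_nonneg_left (hf.2 z hz u) (abs_nonneg c)
    rw [pw_smul, ev_smul, abs_mul]
    nlinarith⟩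

theorem gb_neg (hf : GB d r w M f) : GB d r w M (-f) := by
  simpa using gb_smul (-1) hf

theorem gb_mono (h0 : ∀ i, 0 ≤ r' i) (hr : ∀ i, r' i ≤ r i)
    (hM : ∀ t ∈ Set.Ioo 0 T, M * w t ≤ M' * w' t) (hf : GB d r w M f) : GB d r' w' M' f :=
  ⟨hf.1, fun z hz u =>
    ((mul_le_mul_of_nonneg_left (rpr_mono h0 hr u) (abs_nonneg _)).trans (hf.2 z hz u)).trans
      (mul_le_mul_of_nonneg_right (hM z.1 ⟨hz.1, hz.2.1⟩) (by positivity))⟩

/-- change of the size only -/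
theorem gb_le (hM : ∀ t ∈ Set.Ioo 0 T, M * w t ≤ M' * w' t) (hf : GB d r w M f) :
    GB d r w' M' f :=
  ⟨hf.1, fun z hz u => (hf.2 z hz u).trans
    (mul_le_mul_of_nonneg_right (hM z.1 ⟨hz.1, hz.2.1⟩) (by positivity))⟩

theorem gb_sum {ι : Type*} (s : Finset ι) (hr : ∀ i, 0 ≤ r i) {m : ι → ℝ} {F : ι → A T}
    (h : ∀ i ∈ s, GB d r w (m i) (F i)) : GB d r w (∑ i ∈ s, m i) (∑ i ∈ s, F i) := by
  classical
  induction s using Finset.induction_on with
  | empty => simpa using gb_zero (by simp)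
  | insert a s ha ih =>
    rw [Finset.sum_insert ha, Finset.sum_insert ha]
    exact gb_add hr (h a (by simp)) (ih fun i hi => h i (by simp [hi]))

/-! ### linear rules for types -/

variable {fr : Frame T} {l : Fin 4}

theorem in_add (hf : In l f) (hg : In l g) : In l (f + g) := fun j hj => by
  rw [map_add, hf j hj, hg j hj, add_zero]

theorem in_smul (c : ℝ) (hf : In l f) : In l (c • f) := fun j hj => by
  rw [Derivation.map_smul, hf j hj, smul_zero]

theorem in_zero (l : Fin 4) : In l (0 : A T) := fun _ _ => map_zero _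

theorem in_mono {l' : Fin 4} (h : l ≤ l') (hf : In l f) : In l' f := fun j hj => hf j (h.trans hj)

theorem ty_add (hf : Ty fr l f) (hg : Ty fr l g) : Ty fr l (f + g) :=
  ⟨in_add hf.1 hg.1, fun z hz => by rw [ev_add, hf.2 z hz, hg.2 z hz, add_zero]⟩

theorem ty_smul (c : ℝ) (hf : Ty fr l f) : Ty fr l (c • f) :=
  ⟨in_smul c hf.1, fun z hz => by rw [ev_smul, hf.2 z hz, mul_zero]⟩

theorem ty_zero (fr : Frame T) (l : Fin 4) : Ty fr l (0 : A T) := ⟨in_zero l, fun z _ => ev_zero z⟩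

theorem ty_neg (hf : Ty fr l f) : Ty fr l (-f) := by simpa using ty_smul (-1) hf

theorem N_pos (hfr : fr.Ok) (l : Fin 4) : 0 < fr.N l := lt_of_lt_of_le one_pos (hfr.N_one l)

/-! ### linearity of the differential operators, commutation -/

theorem negv (V : Vec T) : (-1 : ℝ) • V = -V := neg_one_smul ℝ V

theorem Dm_add (X Y : Vec T) : Dm fr (X + Y) = Dm fr X + Dm fr Y := by
  ext i l : 2; simp [Dm]

theorem Dm_smul (c : ℝ) (X : Vec T) : Dm fr (c • X) = c • Dm fr X := by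
  ext i l : 2; simp [Dm]

theorem Dm_zero : Dm fr (0 : Vec T) = 0 := by ext i l : 2; simp [Dm]

theorem Dm_neg (X : Vec T) : Dm fr (-X) = -Dm fr X := by ext i l : 2; simp [Dm]

theorem dtv_add (X Y : Vec T) : dtv (X + Y) = dtv X + dtv Y := by ext i : 1; simp [dtv]

theorem dtv_smul (c : ℝ) (X : Vec T) : dtv (c • X) = c • dtv X := by ext i : 1; simp [dtv]

theorem dtv_zero : dtv (0 : Vec T) = 0 := by ext i : 1; simp [dtv]

theorem dtv_neg (X : Vec T) : dtv (-X) = -dtv X := by ext i : 1; simp [dtv]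

theorem dtv_sub (X Y : Vec T) : dtv (X - Y) = dtv X - dtv Y := by ext i : 1; simp [dtv]

theorem dtm_add (F G : Mat T) : dtm (F + G) = dtm F + dtm G := by ext i l : 2; simp [dtm]

theorem dv_add (X Y : Vec T) : dv fr (X + Y) = dv fr X + dv fr Y := by
  simp [dv, Finset.sum_add_distrib]

theorem dv_smul (c : ℝ) (X : Vec T) : dv fr (c • X) = c • dv fr X := by
  simp [dv, Finset.smul_sum]

theorem dv_zero : dv fr (0 : Vec T) = 0 := by simp [dv]

theorem dv_neg (X : Vec T) : dv fr (-X) = -dv fr X := by simp [dv]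

theorem dv_sub (X Y : Vec T) : dv fr (X - Y) = dv fr X - dv fr Y := by
  simp [dv, Finset.sum_sub_distrib]

theorem web_add_left (X Y Z : Vec T) : web fr (X + Y) Z = web fr X Z + web fr Y Z := by
  simp [web, Dm_add, Matrix.add_mulVec]

theorem web_add_right (X Y Z : Vec T) : web fr X (Y + Z) = web fr X Y + web fr X Z := by
  simp [web, dtv_add, Matrix.mulVec_add]

theorem D_apply (i : Fin 3) (f : A T) :
    D fr i f = pd (la i) f + ∑ j, (fr.N j.succ • fr.k j i) * pd (lp j) f := by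
  simp [D, Df, Fin.sum_univ_three]

theorem dt_D (hfr : fr.Ok) (i : Fin 3) (f : A T) : pd lt (D fr i f) = D fr i (pd lt f) := by
  simp only [D_apply, map_add, map_sum, Derivation.leibniz, Derivation.map_smul, hfr.k_t,
    mul_zero, smul_zero, add_zero, smul_eq_mul, pd_comm lt]

theorem dp_D (hfr : fr.Ok) (j i : Fin 3) (f : A T) :
    pd (lp j) (D fr i f) = D fr i (pd (lp j) f) := by
  simp only [D_apply, map_add, map_sum, Derivation.leibniz, Derivation.map_smul, hfr.k_p,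
    mul_zero, smul_zero, add_zero, smul_eq_mul, pd_comm (lp j)]

theorem D_comm (hfr : fr.Ok) (i l : Fin 3) (f : A T) :
    D fr i (D fr l f) = D fr l (D fr i f) := by
  have key : ∀ a b : Fin 3, D fr a (D fr b f) = pd (la a) (pd (la b) f) +
      (∑ j, (fr.N j.succ • pd (la a) (fr.k j b)) * pd (lp j) f +
      (∑ j, (fr.N j.succ • fr.k j b) * pd (la a) (pd (lp j) f) +
        ∑ j, (fr.N j.succ • fr.k j a) * pd (la b) (pd (lp j) f)) +
      ∑ j, ∑ m, (fr.N j.succ • fr.k j a) * ((fr.N m.succ • fr.k m b) * pd (lp m) (pd (lp j) f))) := by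
    intro a b
    rw [D_apply a]
    simp only [dp_D hfr]
    simp only [D_apply b, map_add, map_sum, Derivation.leibniz, Derivation.map_smul, smul_eq_mul,
      mul_add, Finset.sum_add_distrib, Finset.mul_sum, mul_comm (pd (lp _) f)]
    abel
  rw [key, key, pd_comm (la i) (la l), Finset.sum_comm (f := fun j m =>
    (fr.N j.succ • fr.k j l) * ((fr.N m.succ • fr.k m i) * pd (lp m) (pd (lp j) f)))]
  simp only [hfr.k_curl _ i l]
  congr 2
  · rw [add_comm (∑ j, (fr.N j.succ • fr.k j l) * pd (la i) (pd (lp j) f))]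
  · refine Finset.sum_congr rfl fun j _ => Finset.sum_congr rfl fun m _ => ?_
    rw [pd_comm (lp m) (lp j)]; ring

theorem dtm_Dm (hfr : fr.Ok) (X : Vec T) : dtm (Dm fr X) = Dm fr (dtv X) := by
  ext i l : 2; simp [dtm, Dm, dtv, dt_D hfr]


/-! ### closed fields -/

theorem closed_zero : Closed fr (0 : Vec T) := fun i l => by simp

theorem closed_add {V V' : Vec T} (h : Closed fr V) (h' : Closed fr V') : Closed fr (V + V') :=
  fun i l => by
    have : D fr i ((V + V') l) - D fr l ((V + V') i) =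
        (D fr i (V l) - D fr l (V i)) + (D fr i (V' l) - D fr l (V' i)) := by
      simp only [Pi.add_apply, map_add]; ring
    rw [this, map_add, h i l, h' i l, add_zero]

theorem closed_smul (c : ℝ) {V : Vec T} (h : Closed fr V) : Closed fr (c • V) := fun i l => by
  have : D fr i ((c • V) l) - D fr l ((c • V) i) = c • (D fr i (V l) - D fr l (V i)) := by
    simp only [Pi.smul_apply, Derivation.map_smul, smul_sub]
  rw [this, Derivation.map_smul, h i l, smul_zero]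

theorem closed_neg {V : Vec T} (h : Closed fr V) : Closed fr (-V) := by
  have h1 := closed_smul (-1) h
  rwa [negv] at h1

theorem closed_sub {V V' : Vec T} (h : Closed fr V) (h' : Closed fr V') : Closed fr (V - V') := by
  rw [sub_eq_add_neg]; exact closed_add h (closed_neg h')

theorem closed_gr (hfr : fr.Ok) (q : A T) : Closed fr (gr fr q) := fun i l => by
  show pd lt (D fr i (D fr l q) - D fr l (D fr i q)) = 0
  rw [D_comm hfr, sub_self, map_zero]

theorem closed_of_dtv (hfr : fr.Ok) {V : Vec T} (h : dtv V = 0) : Closed fr V := fun i l => by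
  have h1 : ∀ i, pd lt (V i) = 0 := fun i => congrFun h i
  rw [map_sub, dt_D hfr, dt_D hfr, h1, h1, map_zero, map_zero, sub_self]

end RK

open RK

variable {fr : Frame T} {r r' : Let → ℝ}

/-! ### one level -/

section SB
variable {w w' : ℝ → ℝ} {l : Fin 4} {c c' : ℝ} {V V' : Vec T}

theorem SB.zero (hfr : fr.Ok) (hc : ∀ t ∈ Set.Ioo 0 T, 0 ≤ c * w t) : SB fr r w l c 0 :=
  ⟨fun _ => ty_zero fr l, fun _ => gb_zero fun t ht => by
    rw [div_mul_eq_mul_div]; exact div_nonneg (hc t ht) (N_pos hfr l).le⟩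

theorem SB.zero' : SB fr r w l 0 0 := ⟨fun _ => ty_zero fr l, fun _ => gb_zero (by simp)⟩

theorem SB.add (hr : ∀ i, 0 ≤ r i) (h : SB fr r w l c V) (h' : SB fr r w l c' V') :
    SB fr r w l (c + c') (V + V') :=
  ⟨fun i => ty_add (h.1 i) (h'.1 i), fun i => by
    rw [add_div]; exact gb_add hr (h.2 i) (h'.2 i)⟩

theorem SB.smul (a : ℝ) (h : SB fr r w l c V) : SB fr r w l (|a| * c) (a • V) :=
  ⟨fun i => ty_smul a (h.1 i), fun i => by rw [mul_div_assoc]; exact gb_smul a (h.2 i)⟩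

theorem SB.neg (h : SB fr r w l c V) : SB fr r w l c (-V) := by
  have h1 := h.smul (-1)
  rwa [negv, abs_neg, abs_one, one_mul] at h1

theorem SB.sub (hr : ∀ i, 0 ≤ r i) (h : SB fr r w l c V) (h' : SB fr r w l c' V') :
    SB fr r w l (c + c') (V - V') := by
  rw [sub_eq_add_neg]; exact h.add hr h'.neg

theorem SB.mono (hfr : fr.Ok) (h : SB fr r w l c V) (h0 : ∀ i, 0 ≤ r' i) (hr : ∀ i, r' i ≤ r i)
    (hc : ∀ t ∈ Set.Ioo 0 T, c * w t ≤ c' * w' t) : SB fr r' w' l c' V :=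
  ⟨h.1, fun i => gb_mono h0 hr (fun t ht => by
    rw [div_mul_eq_mul_div, div_mul_eq_mul_div]
    exact div_le_div_of_nonneg_right (hc t ht) (N_pos hfr l).le) (h.2 i)⟩

theorem SB.rad (h0 : ∀ i, 0 ≤ r' i) (hr : ∀ i, r' i ≤ r i) (h : SB fr r w l c V) :
    SB fr r' w l c V := ⟨h.1, fun i => gb_mono h0 hr (fun _ _ => le_rfl) (h.2 i)⟩

theorem SB.le (hfr : fr.Ok) (hw : ∀ t ∈ Set.Ioo 0 T, 0 ≤ w t) (hc : c ≤ c')
    (h : SB fr r w l c V) : SB fr r w l c' V :=
  ⟨h.1, fun i => gb_le (fun t ht => mul_le_mul_of_nonneg_right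
    (div_le_div_of_nonneg_right hc (N_pos hfr l).le) (hw t ht)) (h.2 i)⟩

theorem SB.nonneg (hfr : fr.Ok) (h : SB fr r w l c V) {t : ℝ} (ht : t ∈ Set.Ioo 0 T) :
    0 ≤ c * w t := by
  have h1 := mul_nonneg (gb_nonneg (h.2 0) ht) (N_pos hfr l).le
  rwa [div_mul_eq_mul_div, div_mul_cancel₀ _ (N_pos hfr l).ne'] at h1

end SB

/-! ### all levels -/

variable {w w' v : Fin 4 → ℝ → ℝ} {c c' : Fin 4 → ℝ}

/-- the weights are nonnegative -/
def Wn (T : ℝ) (w : Fin 4 → ℝ → ℝ) : Prop := ∀ l, ∀ t ∈ Set.Ioo 0 T, 0 ≤ w l t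

section FB
variable {R R' : Fin 4 → Vec T}

theorem FB.zero : FB fr r w 0 0 := fun _ => SB.zero'

theorem FB.add (hr : ∀ i, 0 ≤ r i) (h : FB fr r w c R) (h' : FB fr r w c' R') :
    FB fr r w (c + c') (R + R') := fun l => (h l).add hr (h' l)

theorem FB.smul (a : ℝ) (h : FB fr r w c R) : FB fr r w (|a| • c) (a • R) := fun l => (h l).smul a

theorem FB.neg (h : FB fr r w c R) : FB fr r w c (-R) := fun l => (h l).neg

theorem FB.monoW (hfr : fr.Ok) (h0 : ∀ i, 0 ≤ r' i) (hr : ∀ i, r' i ≤ r i)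
    (hc : ∀ l, ∀ t ∈ Set.Ioo 0 T, c l * w l t ≤ c' l * w' l t) (h : FB fr r w c R) :
    FB fr r' w' c' R := fun l => (h l).mono hfr h0 hr (hc l)

theorem FB.rad (h0 : ∀ i, 0 ≤ r' i) (hr : ∀ i, r' i ≤ r i) (h : FB fr r w c R) : FB fr r' w c R :=
  fun l => (h l).rad h0 hr

theorem FB.le (hfr : fr.Ok) (hw : Wn T w) (hc : ∀ l, c l ≤ c' l) (h : FB fr r w c R) :
    FB fr r w c' R := fun l => (h l).le hfr (hw l) (hc l)

theorem FB.of_SB {j : Fin 4} {y : ℝ} {V : Vec T} (h : SB fr r (w j) j y V) :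
    FB fr r w (Pi.single j y) (Pi.single j V) := fun l => by
  by_cases hl : l = j
  · subst hl; simpa using h
  · simpa [hl] using SB.zero'

theorem FB.single {j : Fin 4} {y : ℝ} {V : Vec T} (_hfr : fr.Ok) (h : SB fr r (w j) j y V) :
    FB fr r w (Pi.single j y) (Pi.single j V) := FB.of_SB h

theorem FB.mono (hfr : fr.Ok) (hw : ∀ l, ∀ t ∈ Set.Ioo 0 T, 0 ≤ w l t) (h : FB fr r w c R)
    (hr : ∀ i, 0 ≤ r' i) (hr' : ∀ i, r' i ≤ r i) (hc : ∀ l, c l ≤ c' l) : FB fr r' w c' R :=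
  (h.rad hr hr').le hfr hw hc

/-- remove the component `j` -/
theorem FB.erase (j : Fin 4) (h : FB fr r w c R) :
    FB fr r w (fun l => if l = j then 0 else c l) (Function.update R j 0) := fun l => by
  by_cases hl : l = j
  · subst hl; simpa using SB.zero'
  · simpa [hl] using h l

theorem sum_erase (j : Fin 4) (R : Fin 4 → Vec T) :
    ∑ l, Function.update R j 0 l = ∑ l, R l - R j := by
  rw [Finset.sum_update_of_mem (Finset.mem_univ j), zero_add, Finset.sdiff_singleton_eq_erase,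
    Finset.sum_erase_eq_sub (Finset.mem_univ j)]

end FB

section RW
variable {V V' : Vec T}

theorem RW.of_closed (_hfr : fr.Ok) (h : Closed fr V) : RW fr r w 0 V := ⟨0, FB.zero, by simpa using h⟩

theorem RW.of_FB {R : Fin 4 → Vec T} (h : FB fr r w c R) : RW fr r w c (∑ l, R l) :=
  ⟨R, h, by simpa using closed_zero⟩

theorem RW.of_SB {j : Fin 4} {y : ℝ} (h : SB fr r (w j) j y V) : RW fr r w (Pi.single j y) V := by
  simpa using RW.of_FB (FB.of_SB h)

theorem RW.single {j : Fin 4} {y : ℝ} (_hfr : fr.Ok) (h : SB fr r (w j) j y V) :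
    RW fr r w (Pi.single j y) V := RW.of_SB h

theorem RW.congr (h : RW fr r w c V) (hV : Closed fr (V' - V)) : RW fr r w c V' := by
  obtain ⟨R, h1, h2⟩ := h
  exact ⟨R, h1, by simpa using closed_add hV h2⟩

theorem RW.add (hr : ∀ i, 0 ≤ r i) (h : RW fr r w c V) (h' : RW fr r w c' V') :
    RW fr r w (c + c') (V + V') := by
  obtain ⟨R, h1, h2⟩ := h
  obtain ⟨R', h1', h2'⟩ := h'
  refine ⟨R + R', h1.add hr h1', ?_⟩
  have : V + V' - ∑ l, (R + R') l = (V - ∑ l, R l) + (V' - ∑ l, R' l) := by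
    simp only [Pi.add_apply, Finset.sum_add_distrib]; abel
  rw [this]; exact closed_add h2 h2'

theorem RW.smul (a : ℝ) (h : RW fr r w c V) : RW fr r w (|a| • c) (a • V) := by
  obtain ⟨R, h1, h2⟩ := h
  refine ⟨a • R, h1.smul a, ?_⟩
  have : a • V - ∑ l, (a • R) l = a • (V - ∑ l, R l) := by
    simp only [Pi.smul_apply, smul_sub, Finset.smul_sum]
  rw [this]; exact closed_smul a h2

theorem RW.neg (h : RW fr r w c V) : RW fr r w c (-V) := by
  have h1 := h.smul (-1)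
  rwa [negv, abs_neg, abs_one, one_smul] at h1

theorem RW.sub (hr : ∀ i, 0 ≤ r i) (h : RW fr r w c V) (h' : RW fr r w c' V') :
    RW fr r w (c + c') (V - V') := by
  rw [sub_eq_add_neg]; exact h.add hr h'.neg

theorem RW.monoW (hfr : fr.Ok) (h0 : ∀ i, 0 ≤ r' i) (hr : ∀ i, r' i ≤ r i)
    (hc : ∀ l, ∀ t ∈ Set.Ioo 0 T, c l * w l t ≤ c' l * w' l t) (h : RW fr r w c V) :
    RW fr r' w' c' V := h.imp fun _ h => ⟨h.1.monoW hfr h0 hr hc, h.2⟩

theorem RW.rad (h0 : ∀ i, 0 ≤ r' i) (hr : ∀ i, r' i ≤ r i) (h : RW fr r w c V) : RW fr r' w c V :=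
  h.imp fun _ h => ⟨h.1.rad h0 hr, h.2⟩

theorem RW.le (hfr : fr.Ok) (hw : Wn T w) (hc : ∀ l, c l ≤ c' l) (h : RW fr r w c V) :
    RW fr r w c' V := h.imp fun _ h => ⟨h.1.le hfr hw hc, h.2⟩

theorem RW.mono (hfr : fr.Ok) (hw : ∀ l, ∀ t ∈ Set.Ioo 0 T, 0 ≤ w l t) (h : RW fr r w c V)
    (hr : ∀ i, 0 ≤ r' i) (hr' : ∀ i, r' i ≤ r i) (hc : ∀ l, c l ≤ c' l) : RW fr r' w c' V :=
  (h.rad hr hr').le hfr hw hc

/-- a field of one type is a residual of any nonnegative size vector that dominates it -/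
theorem RW.of_SB_le (hfr : fr.Ok) (hw : Wn T w) {j : Fin 4} {y : ℝ} (hc : ∀ l, 0 ≤ c l)
    (hy : y ≤ c j) (h : SB fr r (w j) j y V) : RW fr r w c V :=
  (RW.of_SB h).le hfr hw fun l => by
    by_cases hl : l = j
    · subst hl; simpa using hy
    · simpa [hl] using hc l

theorem RW.sum {ι : Type*} (_hfr : fr.Ok) (hr : ∀ i, 0 ≤ r i) (s : Finset ι) {F : ι → Vec T}
    {m : ι → Fin 4 → ℝ}
    (h : ∀ i ∈ s, RW fr r w (m i) (F i)) : RW fr r w (∑ i ∈ s, m i) (∑ i ∈ s, F i) := by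
  classical
  induction s using Finset.induction_on with
  | empty => simpa using RW.of_FB FB.zero
  | insert a s ha ih =>
    rw [Finset.sum_insert ha, Finset.sum_insert ha]
    exact (h a (by simp)).add hr (ih fun i hi => h i (by simp [hi]))

end RW

section RV
variable {f f' : A T}

theorem RV.of_FB {R : Fin 4 → Vec T} (h : FB fr r w c R) : RV fr r w c (dv fr (∑ l, R l)) :=
  ⟨R, h, rfl⟩

theorem RV.zero (_hfr : fr.Ok) : RV fr r w 0 (0 : A T) := ⟨0, FB.zero, by simp [dv_zero]⟩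

theorem RV.of_SB {j : Fin 4} {y : ℝ} {V : Vec T} (h : SB fr r (w j) j y V) :
    RV fr r w (Pi.single j y) (dv fr V) := by
  simpa using RV.of_FB (FB.of_SB h)

theorem RV.single {j : Fin 4} {y : ℝ} {V : Vec T} (_hfr : fr.Ok) (h : SB fr r (w j) j y V) :
    RV fr r w (Pi.single j y) (dv fr V) := RV.of_SB h

theorem RV.add (hr : ∀ i, 0 ≤ r i) (h : RV fr r w c f) (h' : RV fr r w c' f') :
    RV fr r w (c + c') (f + f') := by
  obtain ⟨R, h1, rfl⟩ := h
  obtain ⟨R', h1', rfl⟩ := h'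
  exact ⟨R + R', h1.add hr h1', by simp only [Pi.add_apply, Finset.sum_add_distrib, dv_add]⟩

theorem RV.smul (a : ℝ) (h : RV fr r w c f) : RV fr r w (|a| • c) (a • f) := by
  obtain ⟨R, h1, rfl⟩ := h
  exact ⟨a • R, h1.smul a, by simp only [Pi.smul_apply, ← Finset.smul_sum, dv_smul]⟩

/-- multiplication by a natural number literal of the ring -/
theorem RV.natMul (n : ℕ) (h : RV fr r w c f) : RV fr r w ((n : ℝ) • c) ((n : A T) * f) := by
  have h1 := h.smul (n : ℝ)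
  rwa [Nat.abs_cast, Nat.cast_smul_eq_nsmul ℝ n f, nsmul_eq_mul] at h1

theorem RV.neg (h : RV fr r w c f) : RV fr r w c (-f) := by simpa using h.smul (-1)

theorem RV.sub (hr : ∀ i, 0 ≤ r i) (h : RV fr r w c f) (h' : RV fr r w c' f') :
    RV fr r w (c + c') (f - f') := by
  rw [sub_eq_add_neg]; exact h.add hr h'.neg

theorem RV.monoW (hfr : fr.Ok) (h0 : ∀ i, 0 ≤ r' i) (hr : ∀ i, r' i ≤ r i)
    (hc : ∀ l, ∀ t ∈ Set.Ioo 0 T, c l * w l t ≤ c' l * w' l t) (h : RV fr r w c f) :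
    RV fr r' w' c' f := h.imp fun _ h => ⟨h.1.monoW hfr h0 hr hc, h.2⟩

theorem RV.rad (h0 : ∀ i, 0 ≤ r' i) (hr : ∀ i, r' i ≤ r i) (h : RV fr r w c f) : RV fr r' w c f :=
  h.imp fun _ h => ⟨h.1.rad h0 hr, h.2⟩

theorem RV.le (hfr : fr.Ok) (hw : Wn T w) (hc : ∀ l, c l ≤ c' l) (h : RV fr r w c f) :
    RV fr r w c' f := h.imp fun _ h => ⟨h.1.le hfr hw hc, h.2⟩

theorem RV.mono (hfr : fr.Ok) (hw : ∀ l, ∀ t ∈ Set.Ioo 0 T, 0 ≤ w l t) (h : RV fr r w c f)
    (hr : ∀ i, 0 ≤ r' i) (hr' : ∀ i, r' i ≤ r i) (hc : ∀ l, c l ≤ c' l) : RV fr r' w c' f :=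
  (h.rad hr hr').le hfr hw hc

theorem RV.of_SB_le (hfr : fr.Ok) (hw : Wn T w) {j : Fin 4} {y : ℝ} {V : Vec T}
    (hc : ∀ l, 0 ≤ c l) (hy : y ≤ c j) (h : SB fr r (w j) j y V) : RV fr r w c (dv fr V) :=
  (RV.of_SB h).le hfr hw fun l => by
    by_cases hl : l = j
    · subst hl; simpa using hy
    · simpa [hl] using hc l

theorem RV.sum {ι : Type*} (hfr : fr.Ok) (hr : ∀ i, 0 ≤ r i) (s : Finset ι) {F : ι → A T}
    {m : ι → Fin 4 → ℝ}
    (h : ∀ i ∈ s, RV fr r w (m i) (F i)) : RV fr r w (∑ i ∈ s, m i) (∑ i ∈ s, F i) := by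
  classical
  induction s using Finset.induction_on with
  | empty => simpa using RV.zero hfr
  | insert a s ha ih =>
    rw [Finset.sum_insert ha, Finset.sum_insert ha]
    exact (h a (by simp)).add hr (ih fun i hi => h i (by simp [hi]))

end RV

theorem St.monoW {X : Vec T} (hfr : fr.Ok) (h0 : ∀ i, 0 ≤ r' i) (hr : ∀ i, r' i ≤ r i)
    (hc : ∀ l, ∀ t ∈ Set.Ioo 0 T, c l * w l t ≤ c' l * w' l t) (h : St fr r w c X) :
    St fr r' w' c' X := ⟨h.1.monoW hfr h0 hr hc, h.2.monoW hfr h0 hr hc⟩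

theorem St.rad {X : Vec T} (h0 : ∀ i, 0 ≤ r' i) (hr : ∀ i, r' i ≤ r i) (h : St fr r w c X) :
    St fr r' w c X := ⟨h.1.rad h0 hr, h.2.rad h0 hr⟩

theorem St.le {X : Vec T} (hfr : fr.Ok) (hw : Wn T w) (hc : ∀ l, c l ≤ c' l) (h : St fr r w c X) :
    St fr r w c' X := ⟨h.1.le hfr hw hc, h.2.le hfr hw hc⟩

theorem St.mono {X : Vec T} (hfr : fr.Ok) (hw : ∀ l, ∀ t ∈ Set.Ioo 0 T, 0 ≤ w l t)
    (h : St fr r w c X) (hr : ∀ i, 0 ≤ r' i) (hr' : ∀ i, r' i ≤ r i) (hc : ∀ l, c l ≤ c' l) :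
    St fr r' w c' X := (h.rad hr hr').le hfr hw hc

/-! ### radii and sizes -/

namespace RK

variable {K K' θ ε ε' : ℝ}

theorem sh_zero (θ : ℝ) (r : Let → ℝ) : sh θ 0 r = r := by funext i; simp [sh]

theorem sh_sh (θ : ℝ) (m n : ℕ) (r : Let → ℝ) : sh θ m (sh θ n r) = sh θ (m + n) r := by
  funext i; simp [sh, pow_add, mul_assoc]

theorem sh_nonneg (hθ : 0 ≤ θ) (hr : ∀ i, 0 ≤ r i) (n : ℕ) (i : Let) : 0 ≤ sh θ n r i :=
  mul_nonneg (pow_nonneg hθ n) (hr i)

theorem sh_anti (hθ : 0 ≤ θ) (hθ1 : θ ≤ 1) (hr : ∀ i, 0 ≤ r i) {m n : ℕ} (h : m ≤ n) (i : Let) :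
    sh θ n r i ≤ sh θ m r i :=
  mul_le_mul_of_nonneg_right (pow_le_pow_of_le_one hθ hθ1 h) (hr i)

theorem sh_le (hθ : 0 ≤ θ) (hθ1 : θ ≤ 1) (hr : ∀ i, 0 ≤ r i) (n : ℕ) (i : Let) :
    sh θ n r i ≤ r i := by
  simpa [sh] using sh_anti hθ hθ1 hr (Nat.zero_le n) i

theorem sh_iso (h : ∀ i l, r (la i) = r (la l)) (θ : ℝ) (n : ℕ) (i l : Fin 3) :
    sh θ n r (la i) = sh θ n r (la l) := by simp only [sh, h i l]

theorem up_nonneg (hε : 0 ≤ ε) {y : ℝ} (hy : 0 ≤ y) (j l : Fin 4) : 0 ≤ up ε j y l := by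
  unfold up; split_ifs <;> positivity

theorem up_mono (hε : 0 ≤ ε) {y y' : ℝ} (hy : y ≤ y') (j l : Fin 4) : up ε j y l ≤ up ε j y' l := by
  unfold up; split_ifs
  · exact mul_le_mul_of_nonneg_left hy hε
  · exact hy

theorem up_add (ε y y' : ℝ) (j l : Fin 4) : up ε j (y + y') l = up ε j y l + up ε j y' l := by
  unfold up; split_ifs <;> ring

theorem up_mul (ε a y : ℝ) (j l : Fin 4) : up ε j (a * y) l = a * up ε j y l := by
  unfold up; split_ifs <;> ring

theorem le_up (hε : ε ≤ 1) {y : ℝ} (hy : 0 ≤ y) (j l : Fin 4) : ε * y ≤ up ε j y l := by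
  unfold up; split_ifs
  · exact le_rfl
  · exact mul_le_of_le_one_left hy hε

theorem up_le (hε : ε ≤ 1) {y : ℝ} (hy : 0 ≤ y) (j l : Fin 4) : up ε j y l ≤ y := by
  unfold up; split_ifs
  · exact mul_le_of_le_one_left hy hε
  · exact le_rfl

theorem reg_K_one (h : Reg fr K θ ε r) : 1 ≤ K := by linarith [h.K_two]

theorem reg_K_pos (h : Reg fr K θ ε r) : 0 < K := by linarith [h.K_two]

theorem reg_th_pos (h : Reg fr K θ ε r) : 0 < θ := by linarith [h.th_half]

theorem reg_r_pos (hfr : fr.Ok) (h : Reg fr K θ ε r) (i : Let) : 0 < r i := by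
  have hK := (reg_K_pos h)
  rcases i with _ | i | j
  · exact (mul_pos_iff_of_pos_left hK).1 (lt_of_lt_of_le one_pos h.r_t)
  · exact (mul_pos_iff_of_pos_left (mul_pos hK (N_pos hfr 0))).1 (lt_of_lt_of_le one_pos (h.r_a i))
  · exact (mul_pos_iff_of_pos_left hK).1 (lt_of_lt_of_le one_pos (h.r_p j))

theorem reg_r_nonneg (hfr : fr.Ok) (h : Reg fr K θ ε r) (i : Let) : 0 ≤ r i := (reg_r_pos hfr h i).le

theorem reg_sh_nonneg (hfr : fr.Ok) (h : Reg fr K θ ε r) (n : ℕ) (i : Let) : 0 ≤ sh θ n r i :=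
  sh_nonneg (reg_th_pos h).le (reg_r_nonneg hfr h) n i

theorem reg_sh_anti (hfr : fr.Ok) (h : Reg fr K θ ε r) {m n : ℕ} (hm : m ≤ n) (i : Let) :
    sh θ n r i ≤ sh θ m r i := sh_anti (reg_th_pos h).le h.th_one.le (reg_r_nonneg hfr h) hm i

theorem reg_sh_le (hfr : fr.Ok) (h : Reg fr K θ ε r) (n : ℕ) (i : Let) : sh θ n r i ≤ r i :=
  sh_le (reg_th_pos h).le h.th_one.le (reg_r_nonneg hfr h) n i

/-- smaller radii `r'` with `r ≤ a r'` cost the factor `a` in `K` -/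
theorem reg_of_le (hfr : fr.Ok) (h : Reg fr K θ ε r) {a : ℝ} (ha : 1 ≤ a) (hK : a * K ≤ K')
    (h1 : ∀ i, r' i ≤ r i) (h2 : ∀ i, r i ≤ a * r' i) : Reg fr K' θ ε r' := by
  have hK0 := (reg_K_pos h)
  have hKK : K ≤ K' := by nlinarith
  have h0 : ∀ i, 0 ≤ r' i := fun i =>
    ((mul_pos_iff_of_pos_left (by linarith)).1 (lt_of_lt_of_le (reg_r_pos hfr h i) (h2 i))).le
  have key : ∀ (i : Let) (x : ℝ), 0 < x → 1 ≤ K * x * r i → 1 ≤ K' * x * r' i := fun i x hx hi => by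
    have e1 : K * x * r i ≤ K * x * (a * r' i) := mul_le_mul_of_nonneg_left (h2 i) (by positivity)
    have e2 : a * K * (x * r' i) ≤ K' * (x * r' i) :=
      mul_le_mul_of_nonneg_right hK (mul_nonneg hx.le (h0 i))
    nlinarith
  have hw : ∀ t ∈ Set.Ioo 0 T, K * w1 t ≤ K' * w1 t := fun t _ => by simpa [w1] using hKK
  refine ⟨h.K_two.trans hKK, h.th_half, h.th_one, ?_, fun i => (h1 i).trans (h.r_one i), ?_,
    fun j => ?_, fun i => key _ _ (N_pos hfr 0) (h.r_a i),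
    fun j i => gb_mono h0 h1 hw (h.k_bd j i), fun j => gb_mono h0 h1 hw (h.ki_bd j), h.e_pos,
    h.e_one, h.e_N⟩
  · exact h.th_K.trans (mul_le_mul_of_nonneg_right hKK (by linarith [h.th_one]))
  · simpa using key lt 1 one_pos (by simpa using h.r_t)
  · simpa using key (lp j) 1 one_pos (by simpa using h.r_p j)

theorem reg_mono (hfr : fr.Ok) (h : Reg fr K θ ε r) (hK : K ≤ K') : Reg fr K' θ ε r :=
  reg_of_le hfr h le_rfl (by simpa using hK) (fun _ => le_rfl) (fun i => by simp)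

theorem reg_shrink (hfr : fr.Ok) (h : Reg fr K θ ε r) (n : ℕ) (hK : 2 ^ n * K ≤ K') :
    Reg fr K' θ ε (sh θ n r) :=
  reg_of_le hfr h (one_le_pow₀ (by norm_num)) hK (reg_sh_le hfr h n) fun i => by
    have e1 : (1 : ℝ) ≤ 2 ^ n * θ ^ n := by
      rw [← mul_pow]; exact one_le_pow₀ (by linarith [h.th_half])
    have := mul_le_mul_of_nonneg_right e1 (reg_r_nonneg hfr h i)
    simpa [sh, mul_assoc] using this

/-- the same with a power of `K` -/
theorem reg_shrink_pow (hfr : fr.Ok) (h : Reg fr K θ ε r) (n : ℕ) :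
    Reg fr (K ^ (n + 1)) θ ε (sh θ n r) :=
  reg_shrink hfr h n (by
    rw [pow_succ]
    exact mul_le_mul_of_nonneg_right (pow_le_pow_left₀ (by norm_num) h.K_two n) (reg_K_pos h).le)

theorem reg_eps (hfr : fr.Ok) (h : Reg fr K θ ε r) (h1 : ε ≤ ε') (h2 : ε' ≤ 1) :
    Reg fr K θ ε' r :=
  { h with
    e_pos := lt_of_lt_of_le h.e_pos h1
    e_one := h2
    e_N := fun j => (h.e_N j).trans (mul_le_mul_of_nonneg_right h1 (N_pos hfr _).le) }

theorem wt_wn (h : Wt T K w v) : Wn T w := h.w_nonneg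

theorem wt_vn (h : Wt T K w v) : Wn T v := fun l t ht => (h.w_nonneg l t ht).trans (h.w_le l t ht)

theorem wt_w_le_K (h : Wt T K w v) (l : Fin 4) {t : ℝ} (ht : t ∈ Set.Ioo 0 T) : w l t ≤ K :=
  (h.w_le l t ht).trans (h.v_le l t ht)

theorem wt_mono (h : Wt T K w v) (hK : K ≤ K') : Wt T K' w v :=
  ⟨h.w_nonneg, h.w_le, fun l t ht => (h.v_le l t ht).trans hK,
    fun i j t ht => (h.v_mul i j t ht).trans (mul_le_mul_of_nonneg_right hK (h.w_nonneg _ t ht)),
    fun j t ht => (h.w_down j t ht).trans (mul_le_mul_of_nonneg_right hK (h.w_nonneg _ t ht))⟩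

end RK

end Pool.Agent.Lib.MP_fbbbeb_an.Cas
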