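import Mathlib
import Pool.Agent.Lib.MP_fbbbeb_an.Cas.TypA
import Pool.Agent.Lib.MP_fbbbeb_an.Cas.TypB

/-! Types, sizes and residuals: the whole kit. -/

set_option autoImplicit false

noncomputable section

namespace Pool.Agent.Lib.MP_fbbbeb_an.Cas

open Pool.Agent.Lib.MP_fbbbeb_an.Pub
open scoped ContDiff Topology RealInnerProductSpace Matrix Nat

variable {T : ℝ} {fr : Frame T} {f : A T} {K θ ε y : ℝ} {r : Let → ℝ} {w v : Fin 4 → ℝ → ℝ}

/-- size of a function that is the divergence of a small residual -/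
theorem RV.bound (hfr : fr.Ok) (h : Reg fr K θ ε r) (hw : Wt T K w v) (hy : 0 ≤ y)
    (hf : RV fr r w (fun _ => y) f) : GB 0 (sh θ 1 r) w1 (K ^ 15 * y) f := by
  obtain ⟨R, hR, rfl⟩ := hf
  have hr := h.sh_nonneg hfr 1
  have hK := h.K_two
  have h1 : ∀ l ∈ (Finset.univ : Finset (Fin 4)),
      GB 0 (sh θ 1 r) w1 (∑ _i : Fin 3, K ^ 11 * y) (dv fr (R l)) := fun l _ =>
    GB.sum hr _ fun i _ =>
      ((hR l).Dm hfr h ((hR l).nn hfr) i i).mono hr (fun _ => le_rfl) fun t ht => by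
        have := mul_le_mul_of_nonneg_left (hw.w_le_K l t ht) (show 0 ≤ K ^ 10 * y by positivity)
        simp only [w1]
        linarith
  rw [dv_sum]
  refine (GB.sum hr _ h1).monoM (fun _ _ => zero_le_one) ?_
  have a : (2 : ℝ) ^ 4 ≤ K ^ 4 := pow_le_pow_left₀ zero_le_two hK 4
  have b : 0 ≤ K ^ 11 * y := by positivity
  simp only [Fin.sum_univ_three, Fin.sum_univ_four]
  nlinarith

end Pool.Agent.Lib.MP_fbbbeb_an.Cas
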