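import Pool.Agent.Lib.MP_fbbbeb_an.Cas.BaseB
import Pool.Agent.Lib.MP_fbbbeb_an.Cas.BaseD
import Pool.Agent.Lib.MP_fbbbeb_an.Cas.EvG
import Pool.Agent.Lib.MP_fbbbeb_an.Cas.Typ
import Pool.Agent.Lib.MP_fbbbeb_an.B.Solv

/-! The base solver in the algebra `A T`. -/

set_option autoImplicit false

noncomputable section

namespace Pool.Agent.Lib.MP_fbbbeb_an.Cas

open Pool.Agent.Lib.MP_fbbbeb_an.Pub
open scoped ContDiff Topology RealInnerProductSpace Matrix Nat


open Bs in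
theorem baseSt (hF : FlowSt) : BaseSt := by
  obtain ⟨Cs, hs⟩ := B.solv0
  obtain ⟨Cb, hb⟩ := bm_bd
  refine ⟨(Cb + 3) * Cs, ?_⟩
  intro T X0 Ji w K L θ lam r rlo hK hKL _ hr hr1 hin he hh gF gdF hJ gJ hp h0 hw hlam _ hθ hθ1 hLθ hLr
    r' lo hi c ε hc hε f fin fe gf
  have K1 : (1 : ℝ) ≤ K := by linarith
  have K0 : (0 : ℝ) < K := by linarith
  have L0 : (0 : ℝ) < L := by linarith
  have pm : ∀ {a b : ℕ}, a ≤ b → K ^ a ≤ K ^ b := fun h => pow_le_pow_right₀ K1 h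
  have KK : K ≤ K ^ (Cb + 1) := by simpa using pm (a := 1) (b := Cb + 1) (by omega)
  have hKC : (K ^ (Cb + 1)) ^ Cs ≤ K ^ ((Cb + 3) * Cs) := by
    rw [← pow_mul]; exact pm (Nat.mul_le_mul_right _ (by omega))
  have one : ∀ t ∈ Set.Ioo (0 : ℝ) T, (0 : ℝ) ≤ (fun _ => 1) t := fun _ _ => zero_le_one
  have Fin0 : ∀ i j, In 0 (D0m X0 i j) := fun i j => In.pd _ (hin i)
  have gB := hb T (D0m X0) Ji K r hK (fun i => (hr i).le) gF gdF gJ
  have hX := dif_xm hF X0 he hh hp h0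
  have lo' : ∀ i, L⁻¹ ≤ r' i := fun i => by
    refine le_trans ?_ (lo i)
    rw [inv_le_iff_one_le_mul₀' L0]
    exact hLr i
  obtain ⟨ζ, ρ, q, hq, h1, h2, h3⟩ := hs (Gp : Set (E ≃ₗᵢ[ℝ] E)) T (K ^ (Cb + 1)) L⁻¹ θ lam c ε
    (fun i => r (emb i)) (fun i => r' (emb i)) w (xm X0) (fun i j => res (bm (D0m X0) Ji i j))
    (fun i => res (f i)) sym_Gp hX (hK.trans KK) (inv_pos.2 L0) (fun i => lo' _)
    (fun i => by
      have h := hi (emb i)
      rw [dvr, le_div_iff₀ (pow_pos K0 _)] at h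
      exact le_trans (mul_le_mul_of_nonneg_left hKC ((inv_pos.2 L0).le.trans (lo' _))) h)
    (fun i => hr1 _) (hKC.trans hlam)
    ⟨hw.1, fun t ht s hs' => hw.2 s t hs'.1 hs'.2.le ht.2⟩ hθ hθ1 hc hε
    (fun i j => ((gs_of_gb (gF i j)).mono (fun l => (hr _).le) (fun _ => le_rfl) KK one).congr
      fun z hz => by rw [jac_xm X0 hz]; rfl)
    (((gs_of_gb gJ).mono (fun l => (hr _).le) (fun _ => le_rfl) KK one).congr
      fun z hz => inv_xm X0 hJ hz)
    (fun i j => ⟨res_ht (gB i j).1,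
      (gs_of_gb (gB i j)).mono (fun l => (hr _).le) (fun _ => le_rfl) (pm (by omega)) one⟩)
    (fun t _ V hV => eqvM_res (bm_eqv he.D0m hJ) t V hV)
    (fun i => ⟨res_ht (gf i).1, gs_of_gb (gf i)⟩) (fun t _ => eqv_res fe t)
  have iζ : InV 0 fun i => lift T (ζ i) := fun i => in_lift (h1 i).1
  have iρ : InV 0 fun i => lift T (ρ i) := fun i => in_lift (h1 i).2.1
  have iq : In 0 (lift T q) := in_lift hq
  have iJ : In 0 Ji := In.of_mul_eq_one (In.det Fin0) hJ
  refine ⟨fun i => lift T (ζ i), lift T q, fun i => lift T (ρ i), ?_, ?_, iζ, iq, iρ,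
    eqv_lift (fun i => (h1 i).1) h2, fun i => gb_lift (h1 i).1 ?_, fun i => gb_lift (h1 i).2.1 ?_⟩
  · have key : dtv (fun i => lift T (ζ i)) = (Ji • ((D0m X0).adjugate * (D0m X0).adjugateᵀ)) *ᵥ
        (gr0 (lift T q) + bm (D0m X0) Ji *ᵥ (fun i => lift T (ζ i)) + f + fun i => lift T (ρ i)) := by
      funext i
      refine ext_res (In.pd _ (iζ i)) (In.sum _ fun j _ => In.mul
        (In.mul iJ (In.sum _ fun k _ => In.mul (In.adjugate Fin0 _ _) (In.adjugate Fin0 _ _)))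
        (In.add (In.add (In.add (In.pd _ iq) (In.sum _ fun k _ => In.mul (bm_in Fin0 hJ _ _) (iζ k)))
          (fin j)) (iρ j))) fun y hy => ?_
      have e1 : res (dtv (fun i => lift T (ζ i)) i) y = B.dd none (ζ i) y := res_pd_lift (h1 i).1 none hy
      rw [e1, (h3 y hy).2 i]
      show _ = ev (∑ j, _ * _) _
      rw [ev_sum]
      refine Finset.sum_congr rfl fun j _ => ?_
      rw [ev_mul, ah_xm X0 hJ hy]
      congr 1
      show _ = ev (pd (la j) (lift T q) + ∑ k, bm (D0m X0) Ji j k * lift T (ζ k) + f j + lift T (ρ j)) _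
      rw [ev_add, ev_add, ev_add, ev_sum, ← res_pd_lift hq (some j) hy, ← res_lift (h1 j).2.1 hy]
      congr 3
      refine Finset.sum_congr rfl fun k _ => ?_
      rw [ev_mul, ← res_lift (h1 k).1 hy]
      rfl
    rw [key, Matrix.mulVec_mulVec, gm_ah hJ, Matrix.one_mulVec, bm]
    abel
  · refine ext_res (In.sum _ fun i _ => In.pd _ (iζ i)) (fun j _ => map_zero _) fun y hy => ?_
    show ev (∑ i, pd (la i) (lift T (ζ i))) _ = ev 0 _
    rw [ev_sum, ev_zero, ← (h3 y hy).1]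
    exact Finset.sum_congr rfl fun i _ => res_pd_lift (h1 i).1 (some i) hy
  · refine (h1 i).2.2.1.mono (fun l => ?_) (fun l => by simp [sh]) ?_ hw.1
    · have := (inv_pos.2 L0).trans_le (lo' (emb l))
      simp only [sh]
      positivity
    · refine mul_le_mul_of_nonneg_right ?_ hc
      have hθ' : 0 < 1 - θ := by linarith
      rw [pow_mul]
      refine pow_le_pow_left₀ (by positivity) ?_ _
      rw [div_le_iff₀ (by positivity)]
      have h4 : K ^ (Cb + 1) ≤ L ^ (Cb + 1) := pow_le_pow_left₀ K0.le hKL _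
      have e : L ^ (Cb + 3) * (L⁻¹ * (1 - θ)) = L ^ (Cb + 1) * (L * (1 - θ)) := by
        field_simp
        ring
      rw [e]
      exact h4.trans (le_mul_of_one_le_right (by positivity) hLθ)
  · refine (h1 i).2.2.2.mono (fun l => ?_) (fun l => by simp [sh]) le_rfl hw.1
    have := (inv_pos.2 L0).trans_le (lo' (emb l))
    simp only [sh]
    positivity

end Pool.Agent.Lib.MP_fbbbeb_an.Cas
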