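import Mathlib
import Pool.Agent.Lib.MP_fbbbeb_an.Cas.Defs

/-! One-variable Gevrey bounds: the cutoff `bmp`, `1/x`, `sqrt`, powers, `sin`, `cos`. -/

set_option autoImplicit false

noncomputable section

namespace Pool.Agent.Lib.MP_fbbbeb_an.Cas

open Set
open scoped ContDiff Nat

namespace OneVar

open Polynomial in
theorem glue_aux (l : ℕ) : ∀ (k : ℕ) (x : ℝ), |iteratedDeriv l
    (fun x => x⁻¹ ^ k * expNegInvGlue x) x| ≤ 2 ^ l * (k + 2 * l)! := by
  have sm : ∀ k : ℕ, ContDiff ℝ ∞ fun x : ℝ => x⁻¹ ^ k * expNegInvGlue x := fun k => by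
    simpa using expNegInvGlue.contDiff_polynomial_eval_inv_mul (n := ⊤) (X ^ k)
  induction l with
  | zero =>
    intro k x
    simp only [iteratedDeriv_zero, pow_zero, one_mul, mul_zero, add_zero]
    rcases le_or_gt x 0 with h | h
    · simp [expNegInvGlue.zero_of_nonpos h]
    · have h1 := Real.pow_div_factorial_le_exp x⁻¹ (inv_pos.2 h).le k
      rw [div_le_iff₀ (by positivity)] at h1
      rw [expNegInvGlue, if_neg h.not_ge, abs_of_nonneg (by positivity), Real.exp_neg,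
        ← div_eq_mul_inv, div_le_iff₀' (Real.exp_pos _)]
      exact h1
  | succ l ih =>
    intro k x
    have e : deriv (fun x : ℝ => x⁻¹ ^ k * expNegInvGlue x) = fun x =>
        x⁻¹ ^ (k + 2) * expNegInvGlue x - k * (x⁻¹ ^ (k + 1) * expNegInvGlue x) := by
      funext x
      have := (expNegInvGlue.hasDerivAt_polynomial_eval_inv_mul (X ^ k) x).deriv
      simp only [eval_pow, eval_X, eval_mul, eval_sub, derivative_X_pow, eval_C] at this
      rw [this]
      cases k with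
      | zero => simp
      | succ k => rw [Nat.add_sub_cancel]; ring
    have c : ∀ k : ℕ, ContDiffAt ℝ l (fun x : ℝ => x⁻¹ ^ k * expNegInvGlue x) x := fun k =>
      ((sm k).of_le (by exact_mod_cast le_top)).contDiffAt
    rw [iteratedDeriv_succ', e, iteratedDeriv_fun_sub (c _) (contDiffAt_const.mul (c _)),
      iteratedDeriv_const_mul _ (c _)]
    have h1 := ih (k + 2) x
    have h2 := ih (k + 1) x
    have h3 : (k : ℝ) * (k + 1 + 2 * l)! ≤ (k + 2 + 2 * l)! := by
      have : k * (k + 1 + 2 * l)! ≤ (k + 2 + 2 * l)! := by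
        rw [show k + 2 + 2 * l = (k + 1 + 2 * l) + 1 by ring, Nat.factorial_succ]
        exact Nat.mul_le_mul_right _ (by omega)
      exact_mod_cast this
    refine (abs_sub _ _).trans ?_
    rw [abs_mul, Nat.abs_cast, show k + 2 * (l + 1) = k + 2 + 2 * l by ring]
    have h4 := mul_le_mul_of_nonneg_left h2 (k.cast_nonneg (α := ℝ))
    have h5 := mul_le_mul_of_nonneg_left h3 (show (0 : ℝ) ≤ 2 ^ l by positivity)
    rw [pow_succ]
    nlinarith

theorem glue_le (l : ℕ) (x : ℝ) : |iteratedDeriv l expNegInvGlue x| ≤ 8 ^ l * (l ! : ℝ) ^ 2 := by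
  have h1 := glue_aux l 0 x
  simp only [pow_zero, one_mul, zero_add] at h1
  have h2 : (2 * l)! ≤ 4 ^ l * l ! ^ 2 := by
    have a := Nat.choose_mul_factorial_mul_factorial (show l ≤ 2 * l by omega)
    have b : (2 * l).choose l ≤ 4 ^ l := by
      have := Nat.choose_le_two_pow (2 * l) l
      rwa [pow_mul] at this
    rw [show 2 * l - l = l by omega] at a
    rw [← a, mul_assoc, ← sq]
    exact Nat.mul_le_mul_right _ b
  have h3 : (((2 * l)! : ℕ) : ℝ) ≤ 4 ^ l * (l ! : ℝ) ^ 2 := by exact_mod_cast h2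
  calc _ ≤ (2 : ℝ) ^ l * (4 ^ l * (l ! : ℝ) ^ 2) := h1.trans (by gcongr)
    _ = _ := by rw [← mul_assoc, ← mul_pow]; norm_num

theorem choose_fact_le {l i : ℕ} (h : i ≤ l) :
    (l.choose i : ℝ) * ((i ! : ℝ) ^ 2 * ((l - i)! : ℝ) ^ 2) ≤ (l ! : ℝ) ^ 2 := by
  have a := Nat.choose_mul_factorial_mul_factorial h
  have b : i ! * (l - i)! ≤ l ! := by
    rw [← a, mul_assoc]
    exact Nat.le_mul_of_pos_left _ (Nat.choose_pos h)
  have : l.choose i * (i ! ^ 2 * (l - i)! ^ 2) ≤ l ! ^ 2 := by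
    calc _ = (l.choose i * i ! * (l - i)!) * (i ! * (l - i)!) := by ring
      _ ≤ l ! * l ! := by rw [a]; exact Nat.mul_le_mul_left _ b
      _ = _ := by ring
  exact_mod_cast this

theorem den_ge (x : ℝ) : 1 / 8 ≤ expNegInvGlue x + expNegInvGlue (1 - x) := by
  have h0 : 1 / 8 ≤ expNegInvGlue (1 / 2) := by
    rw [expNegInvGlue, if_neg (by norm_num), show -(1 / 2 : ℝ)⁻¹ = -(1 + 1) by norm_num,
      Real.exp_neg, Real.exp_add, one_div]
    have := Real.exp_one_lt_d9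
    have h1 := Real.exp_pos 1
    exact inv_anti₀ (by positivity) (by nlinarith)
  rcases le_total (1 / 2) x with h | h
  · linarith [expNegInvGlue.monotone h, expNegInvGlue.nonneg (1 - x)]
  · linarith [expNegInvGlue.monotone (show 1 / 2 ≤ 1 - x by linarith), expNegInvGlue.nonneg x]

theorem den_le (l : ℕ) (x : ℝ) :
    |iteratedDeriv l (fun u => expNegInvGlue u + expNegInvGlue (1 - u)) x| ≤
      2 * (8 ^ l * (l ! : ℝ) ^ 2) := by
  have c1 : ContDiffAt ℝ l expNegInvGlue x := (expNegInvGlue.contDiff (n := l)).contDiffAt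
  have c2 : ContDiffAt ℝ l (fun u : ℝ => expNegInvGlue (1 - u)) x :=
    ((expNegInvGlue.contDiff (n := l)).comp (contDiff_const.sub contDiff_id)).contDiffAt
  rw [iteratedDeriv_fun_add c1 c2, iteratedDeriv_comp_const_sub]
  refine (abs_add_le _ _).trans ?_
  simp only [smul_eq_mul, abs_mul, abs_pow, abs_neg, abs_one, one_pow, one_mul]
  linarith [glue_le l x, glue_le l (1 - x)]

theorem smoothTransition_le (n : ℕ) : ∀ x : ℝ,
    |iteratedDeriv n Real.smoothTransition x| ≤ 320 ^ n * (n ! : ℝ) ^ 2 := by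
  induction n using Nat.strong_induction_on with
  | _ n ih =>
  intro x
  rcases n with _ | n
  · simpa [abs_of_nonneg (Real.smoothTransition.nonneg x)] using Real.smoothTransition.le_one x
  set den : ℝ → ℝ := fun u => expNegInvGlue u + expNegInvGlue (1 - u) with hden
  have e : den * Real.smoothTransition = expNegInvGlue := by
    funext u
    have := (Real.smoothTransition.pos_denom u).ne'
    simp only [hden, Pi.mul_apply, Real.smoothTransition]
    field_simp
  have c1 : ContDiffAt ℝ (n + 1 : ℕ) den x := ((expNegInvGlue.contDiff (n := (n + 1 : ℕ))).add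
    ((expNegInvGlue.contDiff (n := (n + 1 : ℕ))).comp (contDiff_const.sub contDiff_id))).contDiffAt
  have c2 : ContDiffAt ℝ (n + 1 : ℕ) Real.smoothTransition x :=
    Real.smoothTransition.contDiffAt (n := (n + 1 : ℕ))
  have h := iteratedDeriv_mul c1 c2
  rw [e, Finset.sum_range_succ'] at h
  simp only [Nat.choose_zero_right, Nat.cast_one, one_mul, iteratedDeriv_zero, Nat.sub_zero] at h
  set B : ℝ := 320 ^ (n + 1) * ((n + 1)! : ℝ) ^ 2 with hB
  have hB0 : 0 < B := by positivity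
  have h1 : ∀ i ∈ Finset.range (n + 1), |((n + 1).choose (i + 1) : ℝ) * iteratedDeriv (i + 1) den x *
      iteratedDeriv (n + 1 - (i + 1)) Real.smoothTransition x| ≤ B / 20 * (1 / 2) ^ i := by
    intro i hi
    have hi' : i + 1 ≤ n + 1 := by simpa [Nat.lt_succ_iff] using hi
    obtain ⟨m, hm⟩ := Nat.exists_eq_add_of_le hi'
    have a1 := den_le (i + 1) x
    have a2 := ih (n + 1 - (i + 1)) (by omega) x
    have a3 := choose_fact_le hi'
    have a4 : (8 : ℝ) ^ i ≤ 320 ^ i * (1 / 2) ^ i := by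
      rw [← mul_pow]
      exact pow_le_pow_left₀ (by norm_num) (by norm_num) _
    rw [abs_mul, abs_mul, Nat.abs_cast]
    calc _ ≤ ((n + 1).choose (i + 1) : ℝ) * (2 * (8 ^ (i + 1) * ((i + 1)! : ℝ) ^ 2)) *
          (320 ^ (n + 1 - (i + 1)) * ((n + 1 - (i + 1))! : ℝ) ^ 2) := by gcongr
      _ = 16 * 8 ^ i * 320 ^ (n + 1 - (i + 1)) * (((n + 1).choose (i + 1) : ℝ) *
          (((i + 1)! : ℝ) ^ 2 * ((n + 1 - (i + 1))! : ℝ) ^ 2)) := by ring
      _ ≤ 16 * (320 ^ i * (1 / 2) ^ i) * 320 ^ (n + 1 - (i + 1)) * ((n + 1)! : ℝ) ^ 2 := by gcongr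
      _ = _ := by
          rw [hB, show n + 1 - (i + 1) = m by omega,
            show (320 : ℝ) ^ (n + 1) = 320 ^ (i + 1 + m) by rw [hm]]
          ring
  have h2 := (Finset.abs_sum_le_sum_abs _ _).trans (Finset.sum_le_sum h1)
  rw [← Finset.mul_sum] at h2
  have h3 := mul_le_mul_of_nonneg_left (sum_geometric_two_le (n + 1)) (show 0 ≤ B / 20 by positivity)
  have h4 : |iteratedDeriv (n + 1) expNegInvGlue x| ≤ B / 40 := by
    refine (glue_le _ _).trans ?_
    have : (8 : ℝ) ^ n ≤ 320 ^ n := pow_le_pow_left₀ (by norm_num) (by norm_num) _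
    calc _ = 8 * 8 ^ n * ((n + 1)! : ℝ) ^ 2 := by ring
      _ ≤ 8 * 320 ^ n * ((n + 1)! : ℝ) ^ 2 := by gcongr
      _ = _ := by rw [hB]; ring
  have h5 : 1 / 8 ≤ den x := den_ge x
  have h6 : den x * |iteratedDeriv (n + 1) Real.smoothTransition x| ≤ B / 8 := by
    rw [← abs_of_nonneg (show 0 ≤ den x by linarith), ← abs_mul, ← sub_eq_iff_eq_add'.2 h]
    refine (abs_sub _ _).trans ?_
    linarith
  have h7 := mul_le_mul_of_nonneg_right h5
    (abs_nonneg (iteratedDeriv (n + 1) Real.smoothTransition x))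
  linarith

theorem abs_descPochhammer_le {r : ℝ} {m : ℕ} (h : |r| ≤ m) (n : ℕ) :
    |(descPochhammer ℝ n).eval r| ≤ (m.ascFactorial n : ℝ) := by
  induction n with
  | zero => simp
  | succ n ih =>
    rw [descPochhammer_succ_right, Nat.ascFactorial_succ]
    simp only [Polynomial.eval_mul, Polynomial.eval_sub, Polynomial.eval_X,
      Polynomial.eval_natCast, abs_mul]
    push_cast
    rw [mul_comm]
    refine mul_le_mul ((abs_sub _ _).trans ?_) ih (abs_nonneg _) (by positivity)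
    rw [Nat.abs_cast]
    linarith

/-- real powers, any exponent -/
theorem rpow_le {r x : ℝ} {m : ℕ} (h : |r| ≤ m) (hx : 0 < x) (n : ℕ) :
    |iteratedDeriv n (fun y : ℝ => y ^ r) x| ≤ 2 ^ m * (2 / x) ^ n * n ! * x ^ r := by
  rw [iteratedDeriv_eq_iterate, Real.iter_deriv_rpow_const, abs_mul,
    abs_of_pos (Real.rpow_pos_of_pos hx _), Real.rpow_sub hx, Real.rpow_natCast]
  have h1 : m.ascFactorial n ≤ 2 ^ m * 2 ^ n * n ! := by
    rw [Nat.ascFactorial_eq_factorial_mul_choose', mul_comm, ← pow_add]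
    exact Nat.mul_le_mul_right _ ((Nat.choose_le_two_pow _ _).trans
      (Nat.pow_le_pow_right (by norm_num) (by omega)))
  have h2 : (m.ascFactorial n : ℝ) ≤ 2 ^ m * 2 ^ n * n ! := by exact_mod_cast h1
  have h3 := Real.rpow_pos_of_pos hx r
  calc _ ≤ (2 ^ m * 2 ^ n * n ! : ℝ) * (x ^ r / x ^ n) :=
        mul_le_mul_of_nonneg_right ((abs_descPochhammer_le h n).trans h2) (by positivity)
    _ = _ := by rw [div_pow]; ring

/-- real powers with exponent in `[-1, 1]` -/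
theorem rpow_le_one {r x : ℝ} (h : |r| ≤ 1) (hx : 0 < x) (n : ℕ) :
    |iteratedDeriv n (fun y : ℝ => y ^ r) x| ≤ x⁻¹ ^ n * n ! * x ^ r := by
  rw [iteratedDeriv_eq_iterate, Real.iter_deriv_rpow_const, abs_mul,
    abs_of_pos (Real.rpow_pos_of_pos hx _), Real.rpow_sub hx, Real.rpow_natCast]
  have h1 := abs_descPochhammer_le (m := 1) (by simpa using h) n
  rw [Nat.one_ascFactorial] at h1
  have h3 := Real.rpow_pos_of_pos hx r
  calc _ ≤ (n ! : ℝ) * (x ^ r / x ^ n) := mul_le_mul_of_nonneg_right h1 (by positivity)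
    _ = _ := by rw [inv_pow]; ring

theorem inv_le {x : ℝ} (hx : 0 < x) (n : ℕ) :
    |iteratedDeriv n (fun y : ℝ => y⁻¹) x| ≤ x⁻¹ ^ n * n ! * x⁻¹ := by
  have h := rpow_le_one (r := -1) (by simp) hx n
  simpa only [Real.rpow_neg_one] using h

theorem sqrt_le {x : ℝ} (hx : 0 < x) (n : ℕ) :
    |iteratedDeriv n Real.sqrt x| ≤ x⁻¹ ^ n * n ! * Real.sqrt x := by
  have h := rpow_le_one (r := 1 / 2) (by rw [abs_le]; constructor <;> norm_num) hx n
  have e : Real.sqrt = fun y : ℝ => y ^ (1 / 2 : ℝ) := funext Real.sqrt_eq_rpow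
  rw [e]
  exact h

/-- one-variable Gevrey-2 bound on a set: `|b^(n) x| ≤ M L^n n!^2` -/
def G2 (s : Set ℝ) (M L : ℝ) (b : ℝ → ℝ) : Prop :=
  ∀ n : ℕ, ∀ x ∈ s, |iteratedDeriv n b x| ≤ M * L ^ n * (n ! : ℝ) ^ 2

theorem fact_le_sq (n : ℕ) : (n ! : ℝ) ≤ (n ! : ℝ) ^ 2 := by
  have : (1 : ℝ) ≤ n ! := by exact_mod_cast n.factorial_pos
  nlinarith

theorem G2_inv {c : ℝ} (hc : 0 < c) : G2 (Ici c) c⁻¹ c⁻¹ fun y => y⁻¹ := fun n x hx => by
  have hx0 : 0 < x := hc.trans_le hx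
  have h1 : x⁻¹ ≤ c⁻¹ := inv_anti₀ hc hx
  have h2 := fact_le_sq n
  calc _ ≤ x⁻¹ ^ n * n ! * x⁻¹ := inv_le hx0 n
    _ ≤ c⁻¹ ^ n * (n ! : ℝ) ^ 2 * c⁻¹ := by gcongr
    _ = _ := by ring

theorem G2_sqrt {c d : ℝ} (hc : 0 < c) : G2 (Icc c d) (Real.sqrt d) c⁻¹ Real.sqrt :=
  fun n x hx => by
  have hx0 : 0 < x := hc.trans_le hx.1
  have h1 : x⁻¹ ≤ c⁻¹ := inv_anti₀ hc hx.1
  have h2 := fact_le_sq n
  have h3 := hx.2
  calc _ ≤ x⁻¹ ^ n * n ! * Real.sqrt x := sqrt_le hx0 n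
    _ ≤ c⁻¹ ^ n * (n ! : ℝ) ^ 2 * Real.sqrt d := by gcongr
    _ = _ := by ring

/-- `y ^ r` on `[c, d]`, `|r| ≤ m` -/
theorem G2_rpow {r c d : ℝ} {m : ℕ} (h : |r| ≤ m) (hc : 0 < c) :
    G2 (Icc c d) (2 ^ m * max (c ^ r) (d ^ r)) (2 / c) fun y => y ^ r := fun n x hx => by
  have hx0 : 0 < x := hc.trans_le hx.1
  have h2 := fact_le_sq n
  have h3 := hx.1
  have h4 : x ^ r ≤ max (c ^ r) (d ^ r) := by
    rcases le_total 0 r with hr | hr
    · exact (Real.rpow_le_rpow hx0.le hx.2 hr).trans (le_max_right _ _)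
    · exact (Real.rpow_le_rpow_of_nonpos hc hx.1 hr).trans (le_max_left _ _)
  have h5 := Real.rpow_pos_of_pos hx0 r
  calc _ ≤ 2 ^ m * (2 / x) ^ n * n ! * x ^ r := rpow_le h hx0 n
    _ ≤ 2 ^ m * (2 / c) ^ n * (n ! : ℝ) ^ 2 * max (c ^ r) (d ^ r) := by gcongr
    _ = _ := by ring

theorem one_le_fact_sq (n : ℕ) : (1 : ℝ) ≤ (n ! : ℝ) ^ 2 :=
  one_le_pow₀ (by exact_mod_cast n.factorial_pos)

theorem G2_sin : G2 univ 1 1 Real.sin := fun n x _ => by
  simpa using (Real.abs_iteratedDeriv_sin_le_one n x).trans (one_le_fact_sq n)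

theorem G2_cos : G2 univ 1 1 Real.cos := fun n x _ => by
  simpa using (Real.abs_iteratedDeriv_cos_le_one n x).trans (one_le_fact_sq n)

end OneVar

open OneVar

theorem bmp_smooth : ContDiff ℝ ∞ bmp :=
  Real.smoothTransition.contDiff.comp ((contDiff_const.sub contDiff_id).mul contDiff_const)

theorem bmp_one {x : ℝ} (h : x ≤ 1 / 4) : bmp x = 1 :=
  Real.smoothTransition.one_of_one_le (by linarith)

theorem bmp_zero {x : ℝ} (h : 1 ≤ x) : bmp x = 0 :=
  Real.smoothTransition.zero_of_nonpos (by linarith)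

theorem bmp_nonneg (x : ℝ) : 0 ≤ bmp x := Real.smoothTransition.nonneg _

theorem bmp_le_one (x : ℝ) : bmp x ≤ 1 := Real.smoothTransition.le_one _

theorem bmp_anti : Antitone bmp := fun _ _ h => Real.smoothTransition.monotone (by linarith)

/-- A4: the cutoff is of Gevrey class two -/
theorem bmp_gev (n : ℕ) (x : ℝ) : |iteratedDeriv n bmp x| ≤ 512 ^ n * (n ! : ℝ) ^ 2 := by
  have sm1 : ContDiff ℝ n fun x : ℝ => Real.smoothTransition (4 / 3 + x) :=
    (Real.smoothTransition.contDiff (n := n)).comp (contDiff_const.add contDiff_id)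
  have e : bmp = fun x => Real.smoothTransition (4 / 3 + (-4 / 3) * x) := by
    funext x
    rw [bmp]
    congr 1
    ring
  rw [e, iteratedDeriv_comp_const_mul (n := n) sm1 (-4 / 3)]
  simp only
  rw [iteratedDeriv_comp_const_add, abs_mul, abs_pow, show (512 : ℝ) = 8 / 5 * 320 by norm_num,
    mul_pow, mul_assoc]
  exact mul_le_mul (pow_le_pow_left₀ (abs_nonneg _) (by rw [abs_le]; constructor <;> norm_num) _)
    (smoothTransition_le _ _) (abs_nonneg _) (by positivity)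

theorem G2_bmp : G2 univ 1 512 bmp := fun n x _ => by simpa using bmp_gev n x

end Pool.Agent.Lib.MP_fbbbeb_an.Cas
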