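import Mathlib
import Pool.Agent.Lib.MP_fbbbeb_an.Cas.Gev
import Pool.Agent.Lib.MP_fbbbeb_an.Cas.Ev
import Pool.Agent.Lib.MP_fbbbeb_an.Cas.Word
import Pool.Agent.Lib.MP_fbbbeb_an.Cas.Bmp

set_option autoImplicit false

noncomputable section

namespace Pool.Agent.Lib.MP_fbbbeb_an.Cas

open Pool.Agent.Lib.MP_fbbbeb_an.Pub
open scoped ContDiff Topology RealInnerProductSpace Matrix Nat

variable {T : ℝ}

namespace Ch

theorem dw_eq (u : List Let) (f : A T) : Word.dw (pd (T := T)) u f = pw u f := by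
  induction u with
  | nil => rfl
  | cons i u ih => rw [Word.dw_cons, ih]; rfl

theorem gp_iff {r : Let → ℝ} {M : ℝ} {f : A T} {z : Pt} (hz : z ∈ Om T) :
    Word.GP pd (evA z hz) r M f ↔ BdAt r M f z := by
  unfold Word.GP BdAt
  simp only [dw_eq]
  rfl

theorem smul_mem {z : Pt} {s : ℝ} (hs : 0 < s) :
    ((z.1, s • z.2.1, z.2.2) : Pt) ∈ Om T ↔ z ∈ Om T := by
  simp [Om, hs.ne']

theorem hom_of {d : ℤ} {f : A T}
    (h : ∀ z ∈ Om T, ∀ s : ℝ, 0 < s → ev f (z.1, s • z.2.1, z.2.2) = s ^ d * ev f z) :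
    Hom d f := by
  intro z s hs
  by_cases hz : z ∈ Om T
  · exact h z hz s hs
  · rw [ev_out f hz, ev_out f (fun h => hz ((smul_mem hs).1 h)), mul_zero]

theorem fac_one (n : ℕ) : (1 : ℝ) ≤ ((n ! : ℕ) : ℝ) ^ 2 := OneVar.one_le_fact_sq n

theorem fac_succ (n : ℕ) : ((n ! : ℕ) : ℝ) ^ 2 ≤ (((n + 1)! : ℕ) : ℝ) ^ 2 := by
  have : ((n ! : ℕ) : ℝ) ≤ (((n + 1)! : ℕ) : ℝ) := by
    exact_mod_cast Nat.factorial_le (Nat.le_succ n)
  gcongr

/-- bound from the value and from bounds of the first derivatives -/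
theorem bd_of_pd {r : Let → ℝ} {M : ℝ} {f : A T} {z : Pt} (h0 : |ev f z| ≤ M)
    (h : ∀ i, BdAt r M (r i • pd i f) z) (hr : ∀ i, 0 ≤ r i) : BdAt r M f z := by
  intro u
  have hM : 0 ≤ M := (abs_nonneg _).trans h0
  rcases List.eq_nil_or_concat u with rfl | ⟨u, i, rfl⟩
  · simpa using h0
  · have h1 := h i u
    rw [pw_smul, ev_smul, abs_mul, abs_of_nonneg (hr i)] at h1
    rw [List.concat_eq_append, pw_append, rpr_append, List.length_append, List.length_singleton]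
    have e : pw [i] f = pd i f := rfl
    have e2 : rpr r [i] = r i := by simp [rpr]
    rw [e, e2]
    have := mul_le_mul_of_nonneg_left (fac_succ u.length) hM
    linarith

theorem bd_one {r : Let → ℝ} (hr : ∀ i, 0 ≤ r i) (z : Pt) : BdAt r 1 (1 : A T) z := by
  simpa using BdAt.const (T := T) (z := z) 1 hr

theorem bd_ite {r : Let → ℝ} {M c : ℝ} {f : A T} {z : Pt} (hr : ∀ i, 0 ≤ r i) (p : Prop)
    [Decidable p] (hc0 : 0 ≤ c) (hc : p → c ≤ 1) (h : BdAt r M f z) :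
    BdAt r M (c • if p then f else 0) z := by
  split_ifs with hp
  · refine (h.smul c).mono hr (fun _ => le_rfl) ?_
    rw [abs_of_nonneg hc0]
    exact mul_le_of_le_one_left h.nonneg (hc hp)
  · rw [smul_zero]; exact BdAt.zero h.nonneg

theorem smooth_iter {b : ℝ → ℝ} {s : Set ℝ} (hs : IsOpen s) (hb : ContDiffOn ℝ ∞ b s) (n : ℕ) :
    ContDiffOn ℝ ∞ (iteratedDeriv n b) s := by
  induction n with
  | zero => simpa using hb
  | succ n ih => rw [iteratedDeriv_succ]; exact ih.deriv_of_isOpen hs (by simp)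

end Ch

/-- chain rule bound at a point -/
theorem chain {Λ : Type} [Fintype Λ] (Fam : List Λ → A T) (c : Let → Λ → A T)
    (hc : ∀ i v, pd i (Fam v) = ∑ l, c i l * Fam (l :: v)) {r ρ : Let → ℝ} {r' : Λ → ℝ}
    {κ : Let → Λ → ℝ} {M : ℝ} {z : Pt} (hρ : ∀ i, 0 ≤ ρ i) (hρ2 : ∀ i, 2 * ρ i ≤ r i)
    (hr' : ∀ l, 0 < r' l) (hκ : ∀ i l, BdAt r (κ i l) (c i l) z)
    (hs : ∀ i, 2 * ∑ l, κ i l * ρ i / r' l ≤ 1)
    (hF : ∀ v : List Λ, |ev (Fam v) z| * (v.map r').prod ≤ M * ((v.length ! : ℕ) : ℝ) ^ 2)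
    (u : List Let) (v : List Λ) :
    |ev (pw u (Fam v)) z| * rpr ρ u * (v.map r').prod ≤
      M * (((u.length + v.length)! : ℕ) : ℝ) ^ 2 := by
  by_cases hz : z ∈ Om T
  · have h := Word.chain pd (evA z hz) (r := r) hρ (fun i => by linarith [hρ2 i]) hr' Fam c κ hc hF
      (fun i l => (Ch.gp_iff hz).2 (hκ i l)) hs u v
    rw [Ch.dw_eq] at h
    rw [mul_assoc]
    exact h
  · have hM : 0 ≤ M := by simpa [ev_out _ hz] using hF []
    rw [ev_out _ hz]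
    simp only [abs_zero, zero_mul]
    positivity

/-- composition with a function of one variable -/
def cmp (b : ℝ → ℝ) (f : A T) : A T := mkA T fun z => b (ev f z)

theorem good_cmp {b : ℝ → ℝ} {f : A T} {s : Set ℝ} (hb : ContDiffOn ℝ ∞ b s)
    (hf : ∀ z ∈ Om T, ev f z ∈ s) : Good T fun z => b (ev f z) :=
  ⟨hb.comp (ev_smooth f) hf, fun j z _ => by simp only [ev_per]⟩

theorem ev_cmp {b : ℝ → ℝ} {f : A T} {s : Set ℝ} (hs : IsOpen s) (hb : ContDiffOn ℝ ∞ b s)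
    (hf : ∀ z ∈ Om T, ev f z ∈ s) {z : Pt} (hz : z ∈ Om T) : ev (cmp b f) z = b (ev f z) := by
  have _ := hs
  exact ev_mkA (good_cmp hb hf) hz

theorem pd_cmp {b : ℝ → ℝ} {f : A T} {s : Set ℝ} (hs : IsOpen s) (hb : ContDiffOn ℝ ∞ b s)
    (hf : ∀ z ∈ Om T, ev f z ∈ s) (i : Let) : pd i (cmp b f) = pd i f * cmp (deriv b) f := by
  refine A_ext fun z hz => ?_
  have hb' : ContDiffOn ℝ ∞ (deriv b) s := hb.deriv_of_isOpen hs (by simp)
  have e : ev (cmp b f) =ᶠ[𝓝 z] fun y => b (ev f y) :=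
    Filter.eventually_of_mem ((isOpen_Om T).mem_nhds hz) fun y hy => ev_cmp hs hb hf hy
  have hd : HasDerivAt b (deriv b (ev f z)) (ev f z) :=
    ((hb.contDiffAt (hs.mem_nhds (hf z hz))).differentiableAt (by simp)).hasDerivAt
  have h2 := hd.comp_hasFDerivAt z (ev_diff f hz).hasFDerivAt
  rw [ev_mul, ev_pd i _ hz, ev_pd i _ hz, ev_cmp hs hb' hf hz, e.fderiv_eq]
  have h3 : fderiv ℝ (fun y => b (ev f y)) z = deriv b (ev f z) • fderiv ℝ (ev f) z := h2.fderiv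
  rw [h3]
  simp [mul_comm]

theorem BdAt.cmp {b : ℝ → ℝ} {f : A T} {s : Set ℝ} (hs : IsOpen s) (hb : ContDiffOn ℝ ∞ b s)
    (hf : ∀ z ∈ Om T, ev f z ∈ s) {r : Let → ℝ} {M M' β : ℝ} {z : Pt} (hz : z ∈ Om T)
    (hr : ∀ i, 0 < r i) (hβ : 0 < β) (hβM : β ≤ M) (h : BdAt r M f z)
    (hb' : ∀ n : ℕ, |iteratedDeriv n b (ev f z)| * β ^ n ≤ M' * ((n ! : ℕ) : ℝ) ^ 2) :
    BdAt (dvr r (32 * M / β)) M' (cmp b f) z := by
  intro u
  have hM : 0 < M := hβ.trans_le hβM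
  have key := chain (Λ := Unit) (fun v => Cas.cmp (iteratedDeriv v.length b) f) (fun i _ => Cas.pd i f)
    (fun i v => by
      rw [pd_cmp hs (Ch.smooth_iter hs hb _) hf, ← iteratedDeriv_succ]
      simp)
    (r := sh (1 / 2) 1 r) (ρ := dvr r (32 * M / β)) (r' := fun _ => β)
    (κ := fun i _ => 4 / ((1 - 1 / 2) ^ 2 * r i) * M) (M := M') (z := z)
    (fun i => by have := hr i; unfold dvr; positivity)
    (fun i => by
      have := hr i
      have h1 : 32 ≤ 32 * M / β := by rw [le_div_iff₀ hβ]; linarith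
      have h2 : r i / (32 * M / β) ≤ r i / 32 := div_le_div_of_nonneg_left this.le (by norm_num) h1
      simp only [dvr, sh]
      linarith)
    (fun _ => hβ) (fun i _ => h.pd hr (by norm_num) (by norm_num) i)
    (fun i => by
      have := hr i
      simp only [dvr, Finset.univ_unique, Finset.sum_singleton]
      apply le_of_eq
      field_simp
      norm_num)
    (fun v => by
      rw [ev_cmp hs (Ch.smooth_iter hs hb _) hf hz]
      simpa using hb' v.length) u []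
  simpa using key

theorem Ch.ne_of_inv {f g : A T} (hg : g * f = 1) {z : Pt} (hz : z ∈ Om T) :
    ev f z ≠ 0 ∧ ev g z = (ev f z)⁻¹ := by
  have h : ev g z * ev f z = 1 := by rw [← ev_mul, hg, ev_one hz]
  exact ⟨right_ne_zero_of_mul_eq_one h, eq_inv_of_mul_eq_one_left h⟩

theorem Ch.inv_smooth : ContDiffOn ℝ ∞ (fun y : ℝ => y⁻¹) ({0}ᶜ : Set ℝ) := contDiffOn_inv ℝ

/-- inverse of a function that is bounded below -/
theorem BdAt.inv {f g : A T} (hg : g * f = 1) {r : Let → ℝ} {M β : ℝ} {z : Pt} (hz : z ∈ Om T)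
    (hr : ∀ i, 0 < r i) (hβ : 0 < β) (hβ' : β ≤ |ev f z|) (h : BdAt r M f z) :
    BdAt (dvr r (32 * M / β)) β⁻¹ g z := by
  have hf : ∀ y ∈ Om T, ev f y ∈ ({0}ᶜ : Set ℝ) := fun y hy => (Ch.ne_of_inv hg hy).1
  have e : g = Cas.cmp (fun y => y⁻¹) f := A_ext fun y hy => by
    rw [ev_cmp isOpen_compl_singleton Ch.inv_smooth hf hy, (Ch.ne_of_inv hg hy).2]
  rw [e]
  refine h.cmp isOpen_compl_singleton Ch.inv_smooth hf hz hr hβ (hβ'.trans h.abs_le) fun n => ?_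
  have hx : 0 < |ev f z| := hβ.trans_le hβ'
  have h1 : |iteratedDeriv n (fun y : ℝ => y⁻¹) (ev f z)| = n ! * (|ev f z|⁻¹ * |ev f z|⁻¹ ^ n) := by
    rw [iteratedDeriv_eq_iterate]
    erw [iter_deriv_inv]
    rw [abs_mul, abs_mul, abs_pow, abs_neg, abs_one, one_pow, one_mul, abs_zpow, Nat.abs_cast,
      zpow_sub₀ hx.ne', zpow_neg_one, zpow_natCast, div_eq_mul_inv, inv_pow]
  rw [h1]
  have h2 : |ev f z|⁻¹ ≤ β⁻¹ := inv_anti₀ hβ hβ'
  have h3 : |ev f z|⁻¹ ^ n * β ^ n ≤ 1 := by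
    rw [← mul_pow]
    refine pow_le_one₀ (by positivity) ?_
    rw [inv_mul_le_iff₀ hx]; linarith
  have h4 := OneVar.fact_le_sq n
  calc (n ! : ℝ) * (|ev f z|⁻¹ * |ev f z|⁻¹ ^ n) * β ^ n
      = |ev f z|⁻¹ * (n ! : ℝ) * (|ev f z|⁻¹ ^ n * β ^ n) := by ring
    _ ≤ β⁻¹ * (n ! : ℝ) ^ 2 * 1 := by gcongr
    _ = _ := mul_one _

theorem exists_inv {f : A T} (h : ∀ z ∈ Om T, ev f z ≠ 0) : ∃ g : A T, g * f = 1 :=
  ⟨cmp (fun y => y⁻¹) f, A_ext fun z hz => by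
    rw [ev_mul, ev_cmp isOpen_compl_singleton Ch.inv_smooth h hz, ev_one hz,
      inv_mul_cancel₀ (h z hz)]⟩

theorem GB.inv {d : ℤ} {f g : A T} {r : Let → ℝ} {M β : ℝ} (hg : g * f = 1) (hr : ∀ i, 0 < r i)
    (hβ : 0 < β) (h : GB d r w1 M f) (hl : ∀ z ∈ Sp T, β ≤ |ev f z|) :
    GB (-d) (dvr r (32 * M / β)) w1 β⁻¹ g := by
  refine ⟨h.1.of_mul_eq_one hg, fun z hz => ?_⟩
  have h1 := h.2 z hz
  simp only [w1, mul_one] at h1 ⊢
  exact h1.inv hg (Sp_sub T hz) hr hβ (hl z hz)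

/-- a homogeneous function without zeros on the sphere has no zeros -/
theorem Hom.ne_zero {d : ℤ} {f : A T} (h : Hom d f) (hl : ∀ z ∈ Sp T, ev f z ≠ 0) {z : Pt}
    (hz : z ∈ Om T) : ev f z ≠ 0 := by
  have hn : 0 < ‖z.2.1‖ := norm_pos_iff.2 hz.2.2
  have h1 := hl (z.1, ‖z.2.1‖⁻¹ • z.2.1, z.2.2) ⟨hz.1, hz.2.1, by simp [norm_smul, hn.ne']⟩
  rw [h z _ (inv_pos.2 hn)] at h1
  exact right_ne_zero_of_mul h1

theorem GB.exists_inv {d : ℤ} {f : A T} {r : Let → ℝ} {M β : ℝ} (hr : ∀ i, 0 < r i) (hβ : 0 < β)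
    (h : GB d r w1 M f) (hl : ∀ z ∈ Sp T, β ≤ |ev f z|) :
    ∃ g : A T, g * f = 1 ∧ GB (-d) (dvr r (32 * M / β)) w1 β⁻¹ g := by
  obtain ⟨g, hg⟩ := Cas.exists_inv (f := f) fun z hz =>
    h.1.ne_zero (fun y hy => abs_pos.1 (hβ.trans_le (hl y hy))) hz
  exact ⟨g, hg, h.inv hg hr hβ hl⟩

/-- the radii of letters that kill the element do not matter -/
theorem BdAt.of_indep {r r' : Let → ℝ} {M : ℝ} {f : A T} {z : Pt} (h : BdAt r' M f z)
    (hr : ∀ i, 0 ≤ r i) (hrr : ∀ i, Cas.pd i f = 0 ∨ r i ≤ r' i) : BdAt r M f z := by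
  intro u
  by_cases hu : ∃ i ∈ u, Cas.pd i f = 0
  · obtain ⟨i, hi, h0⟩ := hu
    rw [pw_eq_zero_of_mem hi h0, ev_zero, abs_zero, zero_mul]
    have := h.nonneg
    positivity
  · refine le_trans (mul_le_mul_of_nonneg_left ?_ (abs_nonneg _)) (h u)
    have hall : ∀ i ∈ u, r i ≤ r' i := fun i hi => (hrr i).resolve_left fun h0 => hu ⟨i, hi, h0⟩
    clear hu
    induction u with
    | nil => simp
    | cons i u ih =>
      rw [rpr_cons, rpr_cons]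
      have h1 := hall i (by simp)
      exact mul_le_mul h1 (ih fun j hj => hall j (by simp [hj])) (rpr_nonneg hr u)
        ((hr i).trans h1)

/-- for an element without time and phase dependence only the label radii matter -/
theorem BdAt.of_lab {r r' : Let → ℝ} {M : ℝ} {f : A T} {z : Pt} (h : BdAt r' M f z)
    (ht : Cas.pd lt f = 0) (hp : ∀ j, Cas.pd (lp j) f = 0) (hr : ∀ i, 0 ≤ r i)
    (hrr : ∀ i, r (la i) ≤ r' (la i)) : BdAt r M f z := by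
  refine h.of_indep hr fun i => ?_
  rcases i with _ | i | j
  · exact Or.inl ht
  · exact Or.inr (hrr i)
  · exact Or.inl (hp j)

theorem GB.of_indep {d : ℤ} {r r' : Let → ℝ} {w : ℝ → ℝ} {M : ℝ} {f : A T} (h : GB d r' w M f)
    (hr : ∀ i, 0 ≤ r i) (hrr : ∀ i, pd i f = 0 ∨ r i ≤ r' i) : GB d r w M f :=
  ⟨h.1, fun z hz => (h.2 z hz).of_indep hr hrr⟩

theorem GB.of_lab {d : ℤ} {r r' : Let → ℝ} {w : ℝ → ℝ} {M : ℝ} {f : A T} (h : GB d r' w M f)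
    (ht : pd lt f = 0) (hp : ∀ j, pd (lp j) f = 0) (hr : ∀ i, 0 ≤ r i)
    (hrr : ∀ i, r (la i) ≤ r' (la i)) : GB d r w M f :=
  ⟨h.1, fun z hz => (h.2 z hz).of_lab ht hp hr hrr⟩

/-- composition with a globally smooth function of an element of degree zero -/
theorem GB.cmp {b : ℝ → ℝ} {f : A T} (hb : ContDiff ℝ ∞ b) {r : Let → ℝ} {M M' β : ℝ}
    (hr : ∀ i, 0 < r i) (hβ : 0 < β) (hβM : β ≤ M) (h : GB 0 r w1 M f)
    (hb' : ∀ (n : ℕ) (x : ℝ), |iteratedDeriv n b x| * β ^ n ≤ M' * ((n ! : ℕ) : ℝ) ^ 2) :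
    GB 0 (dvr r (32 * M / β)) w1 M' (cmp b f) := by
  have hm : ∀ z ∈ Om T, ev f z ∈ (Set.univ : Set ℝ) := fun _ _ => trivial
  refine ⟨Ch.hom_of fun z hz s hs => ?_, fun z hz => ?_⟩
  · rw [ev_cmp isOpen_univ hb.contDiffOn hm hz,
      ev_cmp isOpen_univ hb.contDiffOn hm ((Ch.smul_mem hs).2 hz), h.1 z s hs]
    simp
  · have h1 := h.2 z hz
    simp only [w1, mul_one] at h1 ⊢
    exact h1.cmp isOpen_univ hb.contDiffOn hm (Sp_sub T hz) hr hβ hβM fun n => hb' n _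

theorem GBv_xA {r : Let → ℝ} (hr : ∀ i, 0 ≤ r i) (h1 : ∀ i, r (la i) ≤ 1) :
    GBv 1 r w1 1 (xA T) := by
  intro l
  refine ⟨Ch.hom_of fun z hz s hs => ?_, fun z hz => ?_⟩
  · rw [ev_xA l hz, ev_xA l ((Ch.smul_mem hs).2 hz)]; simp
  · simp only [w1, mul_one]
    refine Ch.bd_of_pd ?_ (fun i => ?_) hr
    · rw [ev_xA l (Sp_sub T hz), ← hz.2.2]
      exact PiLp.norm_apply_le z.2.1 l
    · rw [pd_xA]
      exact Ch.bd_ite hr _ (hr i) (fun h => h ▸ h1 l) (Ch.bd_one hr z)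

theorem Ch.sn_cs {r : Let → ℝ} (hr : ∀ i, 0 ≤ r i) (h1 : ∀ i, r (lp i) ≤ 1) (j : Fin 3) {z : Pt}
    (hz : z ∈ Om T) (u : List Let) :
    |ev (pw u (sn T j)) z| * rpr r u ≤ 1 ∧ |ev (pw u (cs T j)) z| * rpr r u ≤ 1 := by
  induction u using List.reverseRecOn with
  | nil =>
    simp only [pw_nil, rpr_nil, mul_one, ev_sn j hz, ev_cs j hz]
    exact ⟨Real.abs_sin_le_one _, Real.abs_cos_le_one _⟩
  | append_singleton u i ih =>
    have e : ∀ f : A T, pw [i] f = pd i f := fun _ => rfl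
    have e2 : rpr r [i] = r i := by simp [rpr]
    rw [pw_append, pw_append, rpr_append, e, e, e2, pd_sn, pd_cs]
    split_ifs with hi
    · have h2 : r i ≤ 1 := hi ▸ h1 j
      rw [pw_neg, ev_neg, abs_neg, ← mul_assoc, ← mul_assoc]
      exact ⟨mul_le_one₀ ih.2 (hr i) h2, mul_le_one₀ ih.1 (hr i) h2⟩
    · simp

theorem GB_sn {r : Let → ℝ} (hr : ∀ i, 0 ≤ r i) (h1 : ∀ i, r (lp i) ≤ 1) (j : Fin 3) :
    GB 0 r w1 1 (sn T j) := by
  refine ⟨Ch.hom_of fun z hz s hs => ?_, fun z hz u => ?_⟩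
  · rw [ev_sn j hz, ev_sn j ((Ch.smul_mem hs).2 hz)]; simp
  · simp only [w1, mul_one, one_mul]
    exact (Ch.sn_cs hr h1 j (Sp_sub T hz) u).1.trans (Ch.fac_one _)

theorem GB_cs {r : Let → ℝ} (hr : ∀ i, 0 ≤ r i) (h1 : ∀ i, r (lp i) ≤ 1) (j : Fin 3) :
    GB 0 r w1 1 (cs T j) := by
  refine ⟨Ch.hom_of fun z hz s hs => ?_, fun z hz u => ?_⟩
  · rw [ev_cs j hz, ev_cs j ((Ch.smul_mem hs).2 hz)]; simp
  · simp only [w1, mul_one, one_mul]
    exact (Ch.sn_cs hr h1 j (Sp_sub T hz) u).2.trans (Ch.fac_one _)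

theorem GB_tA {r : Let → ℝ} (hT : T ≤ 1) (hr : ∀ i, 0 ≤ r i) (h1 : r lt ≤ 1) :
    GB 0 r w1 1 (tA T) := by
  refine ⟨Ch.hom_of fun z hz s hs => ?_, fun z hz => ?_⟩
  · rw [ev_tA hz, ev_tA ((Ch.smul_mem hs).2 hz)]; simp
  · simp only [w1, mul_one]
    refine Ch.bd_of_pd ?_ (fun i => ?_) hr
    · rw [ev_tA (Sp_sub T hz), abs_of_pos hz.1]
      exact hz.2.1.le.trans hT
    · rw [pd_tA]
      exact Ch.bd_ite hr _ (hr i) (fun h => h ▸ h1) (Ch.bd_one hr z)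

theorem Ch.ev_q {z : Pt} (hz : z ∈ Om T) : ev (xA T ⬝ᵥ xA T) z = ‖z.2.1‖ ^ 2 := by
  have : evv (xA T) z = z.2.1 := by ext i; rw [evv_apply, ev_xA i hz]
  rw [ev_dot, this, real_inner_self_eq_norm_sq]

/-- powers of the length of the label -/
theorem Ch.bd_rpow {p : ℝ} (hp : |p| ≤ 1) {g : A T} (hg : ∀ z ∈ Om T, ev g z = (‖z.2.1‖ ^ 2) ^ p)
    {r : Let → ℝ} (hr : ∀ i, 0 ≤ r i) (h1 : ∀ i, 288 * r (la i) ≤ 1) {z : Pt} (hz : z ∈ Sp T) :
    BdAt r 1 g z := by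
  have hm : ∀ z ∈ Om T, ev (xA T ⬝ᵥ xA T) z ∈ Set.Ioi (0 : ℝ) := fun z hz => by
    rw [Ch.ev_q hz]; exact pow_pos (norm_pos_iff.2 hz.2.2) 2
  have hb : ContDiffOn ℝ ∞ (fun y : ℝ => y ^ p) (Set.Ioi 0) := fun y hy =>
    (Real.contDiffAt_rpow_const_of_ne (ne_of_gt hy)).contDiffWithinAt
  have e : g = cmp (fun y => y ^ p) (xA T ⬝ᵥ xA T) := A_ext fun y hy => by
    rw [hg y hy, ev_cmp isOpen_Ioi hb hm hy, Ch.ev_q hy]
  have hx := GBv_xA (T := T) (r := fun _ => 1) (fun _ => zero_le_one) fun _ => le_rfl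
  have hq := (hx.dot (fun _ => zero_le_one) hx).2 z hz
  simp only [w1, mul_one] at hq
  have h2 := hq.cmp (M' := 1) isOpen_Ioi hb hm (Sp_sub T hz) (fun _ => zero_lt_one) zero_lt_one
    (by norm_num) fun n => by
      rw [Ch.ev_q (Sp_sub T hz), hz.2.2]
      have h3 := OneVar.rpow_le_one hp zero_lt_one n
      have h4 := OneVar.fact_le_sq n
      simp only [inv_one, one_pow, one_mul, Real.one_rpow, mul_one] at h3 ⊢
      exact h3.trans h4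
  have hq0 : ∀ i, (∀ l, i ≠ la l) → pd i (xA T ⬝ᵥ xA T) = 0 := fun i hi => by
    simp [dotProduct, Derivation.leibniz, pd_xA, hi]
  rw [e]
  refine h2.of_lab ?_ (fun j => ?_) hr fun i => ?_
  · rw [pd_cmp isOpen_Ioi hb hm, hq0 _ (by simp), zero_mul]
  · rw [pd_cmp isOpen_Ioi hb hm, hq0 _ (by simp), zero_mul]
  · have := h1 i
    simp only [dvr]
    rw [le_div_iff₀ (by norm_num)]
    linarith

theorem Ch.gb_nA {r : Let → ℝ} (hr : ∀ i, 0 ≤ r i) (h1 : ∀ i, 288 * r (la i) ≤ 1) :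
    GB 1 r w1 1 (nA T) := by
  refine ⟨Ch.hom_of fun z hz s hs => ?_, fun z hz => ?_⟩
  · rw [ev_nA hz, ev_nA ((Ch.smul_mem hs).2 hz)]; simp [norm_smul, abs_of_pos hs]
  · simp only [w1, mul_one]
    refine Ch.bd_rpow (p := 1 / 2) (by rw [abs_le]; constructor <;> norm_num) (fun y hy => ?_)
      hr h1 hz
    rw [ev_nA hy, ← Real.sqrt_eq_rpow, Real.sqrt_sq (norm_nonneg _)]

theorem Ch.gb_ninv {g : A T} (hg : g * nA T = 1) {r : Let → ℝ} (hr : ∀ i, 0 ≤ r i)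
    (h1 : ∀ i, 288 * r (la i) ≤ 1) : GB (-1) r w1 1 g := by
  refine ⟨(Ch.gb_nA hr h1).1.of_mul_eq_one hg, fun z hz => ?_⟩
  simp only [w1, mul_one]
  refine Ch.bd_rpow (p := -(1 / 2)) (by rw [abs_le]; constructor <;> norm_num) (fun y hy => ?_)
    hr h1 hz
  rw [(Ch.ne_of_inv hg hy).2, ev_nA hy, Real.rpow_neg (by positivity), ← Real.sqrt_eq_rpow,
    Real.sqrt_sq (norm_nonneg _)]

/-- the length of the label and its inverse -/
theorem GB_nA : ∃ C : ℝ, 2 ≤ C ∧ ∀ (T : ℝ) (r : Let → ℝ), (∀ i, 0 ≤ r i) →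
    (∀ i, C * r (la i) ≤ 1) → GB 1 r w1 1 (nA T) ∧ ∃ g : A T, g * nA T = 1 ∧ GB (-1) r w1 1 g := by
  refine ⟨288, by norm_num, fun T r hr h1 => ⟨Ch.gb_nA hr h1, ?_⟩⟩
  obtain ⟨g, hg⟩ := exists_inv (f := nA T) fun z hz => by
    rw [ev_nA hz]; exact norm_ne_zero_iff.2 hz.2.2
  exact ⟨g, hg, Ch.gb_ninv hg hr h1⟩

end Pool.Agent.Lib.MP_fbbbeb_an.Cas
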