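import Mathlib
import Pool.Agent.Lib.MP_fbbbeb_an.Cas.Stmt
import Pool.Agent.Lib.MP_fbbbeb_an.Cas.AlgK
import Pool.Agent.Lib.MP_fbbbeb_an.Cas.Typ
import Pool.Agent.Lib.MP_fbbbeb_an.Cas.EvG
import Pool.Agent.Lib.MP_fbbbeb_an.Cas.Chain

/-! Insertion of a wave: size of the wave and the new residual. -/

set_option autoImplicit false

noncomputable section

namespace Pool.Agent.Lib.MP_fbbbeb_an.Cas.InsA

open Pool.Agent.Lib.MP_fbbbeb_an.Pub
open scoped Matrix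

variable {T : ℝ} {fr : Frame T}

/-- the wave with amplitude `η` -/
def wa (fr : Frame T) (j : Fin 3) (F : Mat T) (η : Vec T) : Vec T :=
  (fr.N j.succ)⁻¹ • (sn T j • (F *ᵥ η))

theorem N_pos (hfr : fr.Ok) (l : Fin 4) : 0 < fr.N l := lt_of_lt_of_le one_pos (hfr.N_one l)

theorem dt_sn (j : Fin 3) : pd lt (sn T j) = 0 := by
  rw [pd_sn]; simp

theorem web_main (j : Fin 3) (F : Mat T) (η : Vec T) :
    Fᵀ *ᵥ dtv (wa fr j F η) - (dtm F)ᵀ *ᵥ wa fr j F η =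
      (fr.N j.succ)⁻¹ • (sn T j • (gm F *ᵥ dtv η - Bf F *ᵥ η)) := by
  rw [← AK.main_web, wa, AK.dtv_rsmul, AK.dtv_smul, dt_sn, zero_smul, zero_add]
  simp only [Matrix.mulVec_smul, smul_sub]

theorem vol_main (hfr : fr.Ok) (j : Fin 3) (F : Mat T) {η : Vec T} (hη : Tyv fr j.succ η)
    (hk : fr.k j ⬝ᵥ η = 0) :
    F.adjugate *ᵥ wa fr j F η = fr.N j.succ • crossProduct (fr.k j)
      ((fr.N j.succ ^ 2)⁻¹ • ((fr.ki j * sn T j * F.det) • crossProduct η (fr.k j))) := by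
  have hN := (N_pos hfr j.succ).ne'
  have h1 : fr.ki j • ((fr.k j ⬝ᵥ fr.k j) • η) = η := by
    funext i
    have h2 := hfr.ki_mul j
    have h3 : fr.vp * η i = 0 := Ty.vp_mul hfr (hη i)
    simp only [Pi.smul_apply, smul_eq_mul]
    linear_combination η i * h2 - fr.ki j * h3
  rw [wa, Matrix.mulVec_smul, Matrix.mulVec_smul, AK.adj_mul, LinearMap.map_smul_of_tower,
    map_smul, cross_cross_eq_smul_sub_smul', dotProduct_comm η, hk, zero_smul, sub_zero, smul_smul (fr.N j.succ),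
    show fr.N j.succ * (fr.N j.succ ^ 2)⁻¹ = (fr.N j.succ)⁻¹ by field_simp]
  congr 1
  rw [show fr.ki j * sn T j * F.det = sn T j * F.det * fr.ki j by ring, mul_smul, mul_smul, h1]

theorem six (x : A T) : (1 / 6 : ℝ) • ((6 : A T) * x) = x := by
  rw [show (6 : A T) = algebraMap ℝ (A T) 6 from (map_ofNat _ 6).symm, ← Algebra.smul_def,
    smul_smul]
  norm_num

theorem det_step (hfr : fr.Ok) (X Y : Vec T) :
    (Dm fr (X + Y)).det - 1 = ((Dm fr X).det - 1) + dv fr ((Dm fr X).adjugate *ᵥ Y) +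
      (1 / 6 : ℝ) • (6 * dd (Dm fr Y) (Dm fr 0) (Dm fr X) + 3 * dd (Dm fr Y) (Dm fr 0) (Dm fr 0) +
        3 * dd (Dm fr Y) (Dm fr Y) (Dm fr (X + 0)) + dd (Dm fr Y) (Dm fr Y) (Dm fr Y)) := by
  have h1 := AK.det_add6 (Dm fr X) (Dm fr Y)
  have h2 := AK.dd_main hfr X Y
  rw [add_zero X, AK.Dm_zero, AK.dd_zero2, AK.dd_zero2, AK.Dm_add]
  have h3 : 6 * (0 : A T) + 3 * 0 + 3 * dd (Dm fr Y) (Dm fr Y) (Dm fr X) +
      dd (Dm fr Y) (Dm fr Y) (Dm fr Y) = 6 * ((Dm fr X + Dm fr Y).det - (Dm fr X).det -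
        dv fr ((Dm fr X).adjugate *ᵥ Y)) := by
    linear_combination -h1 - 3 * h2
  rw [h3, six]
  ring

theorem web_step (hfr : fr.Ok) (X Y : Vec T) :
    Closed fr (web fr (X + Y) (X + Y) - (web fr X X +
      ((Dm fr X)ᵀ *ᵥ dtv Y - (dtm (Dm fr X))ᵀ *ᵥ Y) +
      (web fr 0 Y + web fr Y 0 + web fr Y Y))) := by
  have h := AK.closed_web_swap hfr Y X
  convert h using 1
  rw [AK.web_add1, AK.web_add2, AK.web_add2, AK.web_zero1, AK.web_zero2]
  simp only [web]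
  abel

variable {K Kl θ ε ε' : ℝ} {r : Let → ℝ} {w v : Fin 4 → ℝ → ℝ} {j : Fin 3}

theorem in_up {f : A T} (h : In j.castSucc f) : In j.succ f :=
  h.mono (Fin.castSucc_lt_succ).le

/-- `sin` times a field, divided by a number -/
theorem gb_sn {d : ℤ} {wa : ℝ → ℝ} {M : ℝ} {V : Vec T} (hr : ∀ i, 0 ≤ r i) (h1 : ∀ i, r i ≤ 1)
    {a : ℝ} (ha : 0 < a) (h : GBv d r wa M V) :
    GBv d r wa (3 * M / a) (a⁻¹ • (sn T j • V)) := by
  have h2 := (GB.smulv hr (GB_sn (T := T) hr (fun i => h1 _) j) h).smul a⁻¹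
  rw [w1_mul, zero_add, abs_of_pos (inv_pos.2 ha)] at h2
  convert h2 using 1
  field_simp

theorem sb_wa (hfr : fr.Ok) (hR : Reg fr K θ ε r) (hW : Wt T K w v) (h2 : 2 ≤ Kl) {F : Mat T}
    {η : Vec T} (hFi : ∀ i l, In j.castSucc (F i l)) (hF : GBm 0 r w1 Kl F)
    (hη : Tyv fr j.succ η) (hb : GBv 1 r (w j.succ) (Kl * Kl) η) :
    SB fr r (w j.succ) j.succ (Kl ^ 8) (wa fr j F η) := by
  have hr : ∀ i, 0 ≤ r i := fun i => (hR.r_pos hfr i).le
  have hN := N_pos hfr j.succ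
  refine ⟨fun i => Ty.smul _ (Tyv.smulA (In.sn j) (Tyv.mulVec (fun i l => in_up (hFi i l)) hη) i),
    ?_⟩
  have h3 := hF.mulVec hr hb
  rw [w1_mul, zero_add] at h3
  refine (gb_sn hr hR.r_one hN h3).mono hr (fun _ => le_rfl) fun t ht => ?_
  refine mul_le_mul_of_nonneg_right (div_le_div_of_nonneg_right ?_ hN.le) (hW.w_nonneg _ t ht)
  have h5 : (2 : ℝ) ^ 5 ≤ Kl ^ 5 := pow_le_pow_left₀ (by norm_num) h2 5
  have h6 : 0 ≤ Kl ^ 3 := by positivity
  nlinarith [mul_le_mul_of_nonneg_right h5 h6]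

theorem pow_le {K : ℝ} (h2 : 2 ≤ K) {a b : ℕ} (h : a ≤ b) : K ^ a ≤ K ^ b :=
  pow_le_pow_right₀ (by linarith) h

/-- the residual after the insertion -/
theorem st_wa (hRed : RedSt) (hU : UpdSSt) : ∃ C : ℕ, ∀ (T : ℝ) (fr : Frame T)
    (K Kl θ ε : ℝ) (r : Let → ℝ) (w v : Fin 4 → ℝ → ℝ) (j : Fin 3) (X p η e : Vec T) (s : A T)
    (c : Fin 4 → ℝ), fr.Ok → Reg fr K θ ε r → Wt T K w v → 2 ≤ Kl → Kl ≤ K →
    InV j.castSucc X → GBm 0 r w1 Kl (Dm fr X) → GBv (-1) r w1 Kl (fr.k j) → St fr r w c X →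
    dtv p = 0 →
    gm (Dm fr X) *ᵥ dtv η - Bf (Dm fr X) *ᵥ η - p = s • fr.k j + e → fr.k j ⬝ᵥ η = 0 →
    Tyv fr j.succ η → Ty fr j.succ s → Tyv fr j.succ e → GBv 1 r (w j.succ) (Kl * Kl) η →
    GB 2 r (w j.succ) (Kl * Kl) s → GBv 1 r (w j.succ) ε e →
    St fr (sh θ 6 r) w (fun l => c l + ε * K ^ C) (X + wa fr j (Dm fr X) η) := by
  obtain ⟨C1, hRed⟩ := hRed
  obtain ⟨C2, hU⟩ := hU
  refine ⟨C1 + 8 * C2 + 21 + 2, ?_⟩
  intro T fr K Kl θ ε r w v j X p η e s c hfr hR hW h2 hKl hX hF hk hSt hp heq hkη hη hs he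
    hηb hsb heb
  have hrp : ∀ i, 0 < r i := hR.r_pos hfr
  have hr : ∀ i, 0 ≤ r i := fun i => (hrp i).le
  have hK := hR.K_two
  have hε := hR.e_pos
  have hθ0 : 0 < θ := by linarith [hR.th_half]
  have hθ1 := hR.th_one.le
  have hN := N_pos hfr j.succ
  have hw := hW.w_nonneg
  have hK0 : 0 < K := by linarith
  have hKl0 : 0 < Kl := by linarith
  have hr6 : ∀ i, 0 ≤ sh θ 6 r i := fun i => (sh_pos hθ0 6 hrp i).le
  have hs0 : ∀ i, sh θ 6 r i ≤ r i := fun i => by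
    have := sh_le hθ0.le hθ1 (Nat.zero_le 6) hr i
    rwa [sh_zero] at this
  have hs1 : ∀ i, sh θ 6 r i ≤ sh θ 1 r i := sh_le hθ0.le hθ1 (by norm_num) hr
  have hs2 : ∀ i, sh θ 6 r i ≤ sh θ 2 r i := sh_le hθ0.le hθ1 (by norm_num) hr
  have hFi : ∀ i l, In j.castSucc (Dm fr X i l) := fun i l => In.D hfr l (hX i)
  have hSB := sb_wa hfr hR hW h2 hFi hF hη hηb
  set W := wa fr j (Dm fr X) η with hWdef
  set m := C1 + 8 * C2 + 21 with hm
  have hK8 : K ≤ K ^ 8 := by simpa using pow_le hK (show 1 ≤ 8 by norm_num)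
  have hl8 : Kl ^ 8 ≤ K ^ 8 := pow_le_pow_left₀ hKl0.le hKl 8
  -- the terms with two fast factors
  obtain ⟨hU1, hU2⟩ := hU T fr (K ^ 8) θ ε r w v j.succ (Kl ^ 8) X 0 W hfr (hR.monoK hfr hK8)
    (hW.monoK hK8) (by positivity) hl8 (fun h => absurd h (Fin.succ_ne_zero j))
    (fun i => in_up (hX i))
    (hF.mono hr (fun _ => le_rfl) fun t _ => by simp only [w1, mul_one]; linarith)
    (SB.zero hfr fun t ht => mul_nonneg (by positivity) ((hw _ t ht).trans (hW.w_le _ t ht))) hSB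
  have hb0 : ε * ((K ^ 8) ^ C2 * Kl ^ 8) ≤ ε * K ^ m := by
    refine mul_le_mul_of_nonneg_left ?_ hε.le
    calc (K ^ 8) ^ C2 * Kl ^ 8 ≤ (K ^ 8) ^ C2 * K ^ 8 :=
          mul_le_mul_of_nonneg_left hl8 (by positivity)
      _ = K ^ (8 * C2 + 8) := by ring
      _ ≤ K ^ m := pow_le hK (by omega)
  have hred : ∀ y : ℝ, y ≤ K ^ 21 → ε * (K ^ C1 * y) ≤ ε * K ^ m := fun y hy => by
    refine mul_le_mul_of_nonneg_left ?_ hε.le
    calc K ^ C1 * y ≤ K ^ C1 * K ^ 21 := mul_le_mul_of_nonneg_left hy (by positivity)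
      _ = K ^ (C1 + 21) := by ring
      _ ≤ K ^ m := pow_le hK (by omega)
  have hfin : 3 * (ε * K ^ m) ≤ ε * K ^ (m + 2) := by
    have h4 : (2 : ℝ) ^ 2 ≤ K ^ 2 := pow_le_pow_left₀ (by norm_num) hK 2
    have h5 : 0 ≤ ε * K ^ m := by positivity
    calc 3 * (ε * K ^ m) ≤ K ^ 2 * (ε * K ^ m) := mul_le_mul_of_nonneg_right (by linarith) h5
      _ = ε * K ^ (m + 2) := by ring
  have hpos : 0 ≤ ε * K ^ m := by positivity
  constructor
  · -- the Weber form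
    have hy1 : 3 * (Kl * Kl) ≤ K ^ 21 := by
      have h4 : (2 : ℝ) ^ 2 ≤ K ^ 2 := pow_le_pow_left₀ (by norm_num) hK 2
      have h5 : Kl * Kl ≤ K ^ 2 := by nlinarith
      have h6 : K ^ 4 ≤ K ^ 21 := pow_le hK (by norm_num)
      nlinarith
    have hs' : GB 2 r (w j.succ) (3 * (Kl * Kl) / fr.N j.succ ^ 2)
        ((fr.N j.succ ^ 2)⁻¹ • (sn T j * s)) :=
      gb_sn (j := j) (V := fun _ => s) hr hR.r_one (by positivity) (fun _ => hsb) 0
    have hA := (hRed T fr K θ ε r w v j (3 * (Kl * Kl)) hfr hR hW (by positivity)).1 _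
      (Ty.smul _ (Ty.mul_left (In.sn j) hs)) hs'
    have hE : SB fr r (w j.succ) j.succ (3 * ε) ((fr.N j.succ)⁻¹ • (sn T j • e)) :=
      ⟨fun i => Ty.smul _ (Tyv.smulA (In.sn j) he i), gb_sn hr hR.r_one hN heb⟩
    have hE3 : 3 * ε ≤ ε * K ^ m := by
      have h4 : (2 : ℝ) ^ 2 ≤ K ^ 2 := pow_le_pow_left₀ (by norm_num) hK 2
      have h6 : K ^ 2 ≤ K ^ m := pow_le hK (by omega)
      nlinarith
    have hsum := (((hSt.1.mono hfr hw hr6 hs0 fun _ => le_rfl).add hr6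
      (hA.mono hfr hw hr6 hs1 (c' := fun _ => ε * K ^ m) fun _ => hred _ hy1)).add hr6
      ((RW.single hfr hE).mono hfr hw hr6 hs0 (c' := fun _ => ε * K ^ m) fun l => by
        by_cases hl : l = j.succ
        · subst hl; simpa using hE3
        · simpa [Pi.single_eq_of_ne hl] using hpos)).add hr6
      (hU1.mono hfr hw hr6 hs2 (c' := fun _ => ε * K ^ m) fun _ => hb0)
    refine (hsum.mono hfr hw hr6 (fun _ => le_rfl) fun l => ?_).congr ?_
    · simp only [Pi.add_apply]; linarith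
    · have hP : Closed fr ((fr.N j.succ)⁻¹ • (sn T j • p)) := by
        refine (closed_of_dtv hfr ?_).smul _
        rw [AK.dtv_smul, dt_sn, hp, zero_smul, smul_zero, add_zero]
      have h1 := (web_step hfr X W).add hP
      convert h1 using 1
      rw [hWdef, web_main, ← hWdef,
        show gm (Dm fr X) *ᵥ dtv η - Bf (Dm fr X) *ᵥ η = p + (s • fr.k j + e) by
          rw [← heq]; abel]
      have h7 : (fr.N j.succ • (fr.N j.succ ^ 2)⁻¹ • (sn T j * s)) • fr.k j =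
          (fr.N j.succ)⁻¹ • (sn T j • s • fr.k j) := by
        rw [smul_smul, show fr.N j.succ * (fr.N j.succ ^ 2)⁻¹ = (fr.N j.succ)⁻¹ by field_simp,
          smul_assoc, mul_smul]
      rw [h7]
      simp only [smul_add]
      abel
  · -- the volume
    have hki := (hR.ki_bd j).mul1 hr (GB_sn (T := T) hr (fun i => hR.r_one _) j)
    have hkd := hki.mul1 hr (hF.det hr)
    have hcr := hηb.cross hr hk
    rw [mul_w1] at hcr
    have hUb := (GB.smulv hr hkd hcr).smul (fr.N j.succ ^ 2)⁻¹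
    rw [w1_mul, abs_of_pos (by positivity)] at hUb
    have hy2 : 8748 * K * Kl ^ 6 ≤ K ^ 21 := by
      have h4 : (2 : ℝ) ^ 14 ≤ K ^ 14 := pow_le_pow_left₀ (by norm_num) hK 14
      have h5 : Kl ^ 6 ≤ K ^ 6 := pow_le_pow_left₀ hKl0.le hKl 6
      calc 8748 * K * Kl ^ 6 ≤ K ^ 14 * K * K ^ 6 := by
            gcongr
            linarith
        _ = K ^ 21 := by ring
    have hU' : GBv 2 r (w j.succ) (8748 * K * Kl ^ 6 / fr.N j.succ ^ 2) ((fr.N j.succ ^ 2)⁻¹ •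
        ((fr.ki j * sn T j * (Dm fr X).det) • crossProduct η (fr.k j))) := by
      convert hUb using 1
      · norm_num
      · field_simp
        ring
    have hcrT : Tyv fr j.succ (crossProduct η (fr.k j)) := fun i => by
      fin_cases i <;> simp only [cross_apply] <;>
        exact ((hη _).mul_right (In.k hfr j _)).sub ((hη _).mul_right (In.k hfr j _))
    have hA := (hRed T fr K θ ε r w v j (8748 * K * Kl ^ 6) hfr hR hW (by positivity)).2
      ((fr.N j.succ ^ 2)⁻¹ • ((fr.ki j * sn T j * (Dm fr X).det) • crossProduct η (fr.k j)))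
      (fun i => Ty.smul _ (Tyv.smulA (((In.ki hfr j).mul (In.sn j)).mul
        (In.det fun i l => in_up (hFi i l))) hcrT i)) hU'
    rw [← vol_main hfr j (Dm fr X) hη hkη, ← hWdef] at hA
    have hsum := ((hSt.2.mono hfr hw hr6 hs0 fun _ => le_rfl).add hr6
      (hA.mono hfr hw hr6 hs1 (c' := fun _ => ε * K ^ m) fun _ => hred _ hy2)).add hr6
      ((hU2.smul (1 / 6)).mono hfr hw hr6 hs2 (c' := fun _ => ε * K ^ m) fun l => by
        have h8 : 0 ≤ ε * ((K ^ 8) ^ C2 * Kl ^ 8) := by positivity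
        simp only [Pi.smul_apply, smul_eq_mul]
        rw [abs_of_pos (by norm_num)]
        linarith)
    rw [det_step hfr X W]
    refine hsum.mono hfr hw hr6 (fun _ => le_rfl) fun l => ?_
    simp only [Pi.add_apply]
    linarith

end Pool.Agent.Lib.MP_fbbbeb_an.Cas.InsA
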