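import Mathlib
import Pool.Agent.Lib.MP_fbbbeb_an.Cas.Defs

/-! The inserted wave. -/

set_option autoImplicit false

noncomputable section

namespace Pool.Agent.Lib.MP_fbbbeb_an.Cas.Ins

open scoped Matrix

variable {T : ℝ}

/-- the wave with amplitude `F η` in slot `j` -/
def wv (fr : Frame T) (j : Fin 3) (F : Mat T) (η : Vec T) : Vec T :=
  fun i => (fr.N j.succ)⁻¹ • (sn T j * (F *ᵥ η) i)

end Pool.Agent.Lib.MP_fbbbeb_an.Cas.Ins
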