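import Mathlib
import Pool.Agent.Lib.MP_fbbbeb_an.Cas.InsW
import Pool.Agent.Lib.MP_fbbbeb_an.Cas.Chain
import Pool.Agent.Lib.MP_fbbbeb_an.Cas.TypA

/-! Size and centre value of the gradient of the inserted wave. -/

set_option autoImplicit false

noncomputable section

namespace Pool.Agent.Lib.MP_fbbbeb_an.Cas.Ins

open Pool.Agent.Lib.MP_fbbbeb_an.Pub
open scoped ContDiff Topology RealInnerProductSpace Matrix Nat

variable {T : ℝ}

/-- the wave with a given amplitude -/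
def wy (fr : Frame T) (j : Fin 3) (Y : Vec T) : Vec T :=
  fun i => (fr.N j.succ)⁻¹ • (sn T j * Y i)

theorem wv_eq (fr : Frame T) (j : Fin 3) (F : Mat T) (η : Vec T) :
    wv fr j F η = wy fr j (F *ᵥ η) := rfl

theorem D_sn (fr : Frame T) (j l : Fin 3) :
    D fr l (sn T j) = fr.N j.succ • (fr.k j l * cs T j) := by
  rw [D_apply, pd_sn, if_neg (by simp), zero_add, Finset.sum_eq_single j]
  · rw [pd_sn, if_pos rfl]
  · intro m _ hm
    rw [pd_sn, if_neg (by simpa using hm), mul_zero, smul_zero]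
  · simp

theorem Dm_wy {fr : Frame T} (hfr : fr.Ok) (j : Fin 3) (Y : Vec T) (i l : Fin 3) :
    Dm fr (wy fr j Y) i l =
      fr.k j l * cs T j * Y i + (fr.N j.succ)⁻¹ • (sn T j * D fr l (Y i)) := by
  have hN : fr.N j.succ ≠ 0 := by have := hfr.N_one j.succ; positivity
  show D fr l ((fr.N j.succ)⁻¹ • (sn T j * Y i)) = _
  rw [Derivation.map_smul, Derivation.leibniz, D_sn, smul_eq_mul, smul_eq_mul, smul_add,
    mul_smul_comm, smul_smul, inv_mul_cancel₀ hN, one_smul, add_comm, mul_comm (Y i)]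

theorem dtv_wy (fr : Frame T) (j : Fin 3) (Y : Vec T) : dtv (wy fr j Y) = wy fr j (dtv Y) := by
  funext i
  show pd lt ((fr.N j.succ)⁻¹ • (sn T j * Y i)) = (fr.N j.succ)⁻¹ • (sn T j * pd lt (Y i))
  rw [Derivation.map_smul, Derivation.leibniz, pd_sn, if_neg (by simp), smul_zero, add_zero,
    smul_eq_mul]

theorem gb_Dm_wy {fr : Frame T} {K Kl θ ε M : ℝ} {r : Let → ℝ} {wa : ℝ → ℝ} {j : Fin 3}
    {Y : Vec T} (hfr : fr.Ok) (hR : Reg fr K θ ε r) (hM : 0 ≤ M)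
    (hw : ∀ t ∈ Set.Ioo 0 T, 0 ≤ wa t) (hk : GBv (-1) r w1 Kl (fr.k j))
    (hY : InV j.castSucc Y) (hb : GBv 1 r wa M Y) :
    GBm 0 (sh θ 2 r) wa (9 * Kl * M + ε * (3 * K ^ 10 * M)) (Dm fr (wy fr j Y)) := by
  intro i l
  have r0 : ∀ i, 0 ≤ r i := fun i => (hR.r_pos hfr i).le
  have t0 : 0 < θ := by linarith [hR.th_half]
  have s0 : ∀ n i, 0 ≤ sh θ n r i := fun n i => (sh_pos t0 n (hR.r_pos hfr) i).le
  have s1 : ∀ n i, sh θ n r i ≤ r i := fun n i => by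
    simpa [sh_zero] using sh_le t0.le hR.th_one.le (Nat.zero_le n) r0 i
  have s2 : ∀ i, sh θ 2 r i ≤ sh θ 1 r i := sh_le t0.le hR.th_one.le (by norm_num) r0
  have N0 : 0 < fr.N j.succ := by linarith [hfr.N_one j.succ]
  have h1 := ((hk l).mul1 r0 (GB_cs r0 (fun i => hR.r_one _) j)).mul1 r0 (hb i)
  have h2 := hR.D hfr (fun t ht => mul_nonneg hM (hw t ht)) l (hY i) (hb i)
  have h3 := ((GB_sn (T := T) (s0 1) (fun i => (s1 1 _).trans (hR.r_one _)) j).mul1 (s0 1) h2).smul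
    (fr.N j.succ)⁻¹
  rw [Dm_wy hfr]
  refine (((h1.monoR (s0 2) (s1 2)).cast (by norm_num)).add (s0 2)
    ((h3.monoR (s0 2) s2).cast (by norm_num))).monoM hw (add_le_add (le_of_eq (by ring)) ?_)
  have K0 : 0 ≤ K := by linarith [hR.K_two]
  have e1 : (fr.N j.succ)⁻¹ * fr.N j.castSucc ≤ ε := by
    rw [inv_mul_le_iff₀ N0, mul_comm]
    exact hR.e_N j
  rw [abs_of_pos (inv_pos.2 N0)]
  calc (fr.N j.succ)⁻¹ * (3 * (1 * (K ^ 10 * fr.N j.castSucc * M)))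
      = (fr.N j.succ)⁻¹ * fr.N j.castSucc * (3 * K ^ 10 * M) := by ring
    _ ≤ _ := mul_le_mul_of_nonneg_right e1 (by positivity)

/-- a bound of degree zero holds everywhere -/
theorem abs_le_all {f : A T} {r : Let → ℝ} {M : ℝ} (hM : 0 ≤ M) (h : GB 0 r w1 M f) (z : Pt) :
    |ev f z| ≤ M := by
  by_cases hz : z ∈ Om T
  · have n0 : 0 < ‖z.2.1‖ := norm_pos_iff.2 hz.2.2
    have h1 := h.1 z ‖z.2.1‖⁻¹ (inv_pos.2 n0)
    rw [zpow_zero, one_mul] at h1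
    have h2 : ((z.1, ‖z.2.1‖⁻¹ • z.2.1, z.2.2) : Pt) ∈ Sp T :=
      ⟨hz.1, hz.2.1, by rw [norm_smul, norm_inv, norm_norm, inv_mul_cancel₀ n0.ne']⟩
    have h3 := h.abs_le h2
    rw [h1] at h3
    simpa [w1] using h3
  · rw [ev_out f hz, abs_zero]
    exact hM

theorem evv_wy (fr : Frame T) (j : Fin 3) (Y : Vec T) (z : Pt) :
    evv (wy fr j Y) z = ((fr.N j.succ)⁻¹ * ev (sn T j) z) • evv Y z := by
  ext i
  simp [wy, mul_assoc]

theorem van_wv {fr : Frame T} (hfr : fr.Ok) (j : Fin 3) {F : Mat T} {η : Vec T} {r : Let → ℝ}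
    {M : ℝ} (hM : 0 ≤ M) (hF : GBm 0 r w1 M F) (hη : Van η) : Van (wv fr j F η) := by
  intro y
  have h1 : Filter.Tendsto (fun t : ℝ => 3 * M * ‖evv η (t, y)‖) (𝓝[>] 0) (𝓝 0) := by
    simpa using (hη y).norm.const_mul (3 * M)
  refine squeeze_zero_norm (fun t => ?_) h1
  have N1 := hfr.N_one j.succ
  have h2 : |ev (sn T j) (t, y)| ≤ 1 := by
    by_cases hz : ((t, y) : Pt) ∈ Om T
    · rw [ev_sn j hz]
      exact Real.abs_sin_le_one _
    · rw [ev_out _ hz]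
      simp
  have h3 : |(fr.N j.succ)⁻¹| ≤ 1 := by
    rw [abs_of_pos (by positivity)]
    exact inv_le_one_of_one_le₀ N1
  have h4 : ‖evm F (t, y)‖ ≤ 3 * M := norm_evm_le fun i l => abs_le_all hM (hF i l) _
  rw [wv_eq, evv_wy, norm_smul, Real.norm_eq_abs, abs_mul, evv_mulVec]
  calc _ ≤ 1 * 1 * (3 * M * ‖evv η (t, y)‖) :=
        mul_le_mul (mul_le_mul h3 h2 (abs_nonneg _) zero_le_one)
          (((evm F (t, y)).le_opNorm _).trans (mul_le_mul_of_nonneg_right h4 (norm_nonneg _)))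
          (norm_nonneg _) (by norm_num)
    _ = _ := by ring

theorem evm_Dm_wv {fr : Frame T} (hfr : fr.Ok) (j : Fin 3) (F : Mat T) (η : Vec T) {z : Pt}
    (hz : z ∈ Om T) (h0 : z.2.2 j = 0) :
    evm (Dm fr (wv fr j F η)) z = evm F z * r1 (evv η z) (evv (fr.k j) z) := by
  rw [← evm_vecMulVec, ← evm_mul]
  unfold evm
  congr 2
  funext i l
  have e : (F * Matrix.vecMulVec η (fr.k j)) i l = (F *ᵥ η) i * fr.k j l := by
    simp only [Matrix.mul_apply, Matrix.vecMulVec_apply, Matrix.mulVec, dotProduct,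
      Finset.sum_mul, mul_assoc]
  rw [wv_eq, Dm_wy hfr, e]
  simp only [ev_add, ev_mul, ev_smul, ev_sn j hz, ev_cs j hz, h0, Real.sin_zero, Real.cos_zero]
  ring

theorem insB : ∃ C : ℕ, ∀ (T : ℝ) (fr : Frame T) (K Kl θ ε : ℝ) (r : Let → ℝ)
    (w v : Fin 4 → ℝ → ℝ) (j : Fin 3) (X η : Vec T),
    fr.Ok → Reg fr K θ ε r → Wt T K w v → 2 ≤ Kl → Kl ≤ K → InV j.castSucc X →
    GBm 0 r w1 Kl (Dm fr X) → GBm 0 r w1 Kl (dtm (Dm fr X)) → GBv (-1) r w1 Kl (fr.k j) →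
    InV j.castSucc η → Van η → GBv 1 r (w j.succ) (Kl * Kl) η →
    GBv 1 r (w j.succ) (Kl * Kl) (dtv η) →
    GBm 0 (sh θ 2 r) (w j.succ) (Kl ^ C + ε * K ^ C) (Dm fr (wv fr j (Dm fr X) η)) ∧
    GBm 0 (sh θ 2 r) (w j.succ) (Kl ^ C + ε * K ^ C) (dtm (Dm fr (wv fr j (Dm fr X) η))) ∧
    Van (wv fr j (Dm fr X) η) ∧
    ∀ z ∈ Om T, z.2.2 j = 0 → evm (Dm fr (wv fr j (Dm fr X) η)) z =
      evm (Dm fr X) z * r1 (evv η z) (evv (fr.k j) z) := by
  refine ⟨19, ?_⟩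
  intro T fr K Kl θ ε r w v j X η hfr hR hW hKl hK hX hF hF1 hk hη hv hb hb1
  have r0 : ∀ i, 0 ≤ r i := fun i => (hR.r_pos hfr i).le
  have hw := hW.w_nonneg j.succ
  have L0 : 0 ≤ Kl := by linarith
  have iF : ∀ i m, In j.castSucc (Dm fr X i m) := hX.Dm hfr
  have iY : InV j.castSucc (Dm fr X *ᵥ η) := In.mulVec iF hη
  have c : ∀ {F : Mat T} {V : Vec T}, GBm 0 r w1 Kl F → GBv 1 r (w j.succ) (Kl * Kl) V →
      GBv 1 r (w j.succ) (9 * (Kl * (Kl * Kl))) (F *ᵥ V) := fun h h' => by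
    have := h.mulVec r0 h'
    rwa [w1_mul, zero_add] at this
  have num : ∀ M : ℝ, 0 ≤ M → M ≤ 18 * Kl ^ 3 →
      9 * Kl * M + ε * (3 * K ^ 10 * M) ≤ Kl ^ 19 + ε * K ^ 19 := fun M _ hM => by
    have K2 : 2 ≤ K := hKl.trans hK
    have a1 : (2 : ℝ) ^ 15 ≤ Kl ^ 15 := pow_le_pow_left₀ (by norm_num) hKl 15
    have a2 : (2 : ℝ) ^ 6 ≤ K ^ 6 := pow_le_pow_left₀ (by norm_num) K2 6
    have a3 : Kl ^ 3 ≤ K ^ 3 := pow_le_pow_left₀ L0 hK 3
    refine add_le_add ?_ (mul_le_mul_of_nonneg_left ?_ hR.e_pos.le)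
    · calc 9 * Kl * M ≤ 9 * Kl * (18 * Kl ^ 3) := mul_le_mul_of_nonneg_left hM (by positivity)
        _ = 162 * Kl ^ 4 := by ring
        _ ≤ Kl ^ 15 * Kl ^ 4 := mul_le_mul_of_nonneg_right (by linarith) (by positivity)
        _ = Kl ^ 19 := by ring
    · calc 3 * K ^ 10 * M ≤ 3 * K ^ 10 * (18 * K ^ 3) :=
            mul_le_mul_of_nonneg_left (by linarith) (by positivity)
        _ = 54 * K ^ 13 := by ring
        _ ≤ K ^ 6 * K ^ 13 := mul_le_mul_of_nonneg_right (by linarith) (by positivity)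
        _ = K ^ 19 := by ring
  have p3 : 0 ≤ Kl ^ 3 := by positivity
  refine ⟨fun i l => ?_, fun i l => ?_, van_wv hfr j L0 hF hv,
    fun z hz h0 => evm_Dm_wv hfr j _ _ hz h0⟩
  · exact (gb_Dm_wy hfr hR (by positivity) hw hk iY (c hF hb) i l).monoM hw
      (num _ (by positivity) (by nlinarith))
  · have h1 : GBv 1 r (w j.succ) (9 * (Kl * (Kl * Kl)) + 9 * (Kl * (Kl * Kl)))
        (dtv (Dm fr X *ᵥ η)) := by
      rw [dtv_mulVec]
      exact (c hF1 hb).add r0 (c hF hb1)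
    rw [dtm_Dm hfr, wv_eq, dtv_wy]
    exact (gb_Dm_wy hfr hR (by positivity) hw hk iY.dtv h1 i l).monoM hw
      (num _ (by positivity) (le_of_eq (by ring)))

end Pool.Agent.Lib.MP_fbbbeb_an.Cas.Ins
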