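import Mathlib
import Pool.Agent.Lib.MP_fbbbeb_an.Cas.InsA
import Pool.Agent.Lib.MP_fbbbeb_an.Cas.InsB

/-! Insertion of a wave. -/

set_option autoImplicit false

noncomputable section

namespace Pool.Agent.Lib.MP_fbbbeb_an.Cas

open Pool.Agent.Lib.MP_fbbbeb_an.Pub
open scoped Matrix

theorem insSt' (hRed : RedSt) (hU : UpdSSt) : InsSt := by
  obtain ⟨C1, h1⟩ := InsA.st_wa hRed hU
  obtain ⟨C2, h2⟩ := Ins.insB
  refine ⟨C1 + C2 + 8, ?_⟩
  intro T fr K Kl θ ε ε' r w v j X p c hfr hR hW hl hKl hε' hε hX hXe hF hF1 hk hSt hS hp hpi hpt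
    hpe hpb
  have hrp : ∀ i, 0 < r i := hR.r_pos hfr
  have hr : ∀ i, 0 ≤ r i := fun i => (hrp i).le
  have hK := hR.K_two
  have hε0 := hR.e_pos
  have hθ0 : 0 < θ := by linarith [hR.th_half]
  have hl0 : 0 < Kl := by linarith
  have hw := hW.w_nonneg
  obtain ⟨η, s, e, heq, hkη, hη, hs, he, hηe, hηv, hηb, hηt, hsb, heb, hin⟩ :=
    hS r hrp (fun _ => le_rfl) Kl (ε' / Kl) hl0.le (by positivity) p hp hpe hpb
  rw [div_mul_cancel₀ _ hl0.ne'] at heb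
  obtain ⟨b1, b2, b3, b4⟩ := h2 T fr K Kl θ ε r w v j X η hfr hR hW hl hKl hX hF hF1 hk
    (hin hpi).1 hηv hηb hηt
  have hr2 : ∀ i, 0 ≤ sh θ 2 r i := fun i => (sh_pos hθ0 2 hrp i).le
  have hr6 : ∀ i, 0 ≤ sh θ 6 r i := fun i => (sh_pos hθ0 6 hrp i).le
  have hb : ∀ t ∈ Set.Ioo 0 T, (Kl ^ C2 + ε * K ^ C2) * w j.succ t ≤
      (Kl ^ (C1 + C2 + 8) + ε * K ^ (C1 + C2 + 8)) * w j.succ t := fun t ht =>
    mul_le_mul_of_nonneg_right (add_le_add (InsA.pow_le hl (by omega))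
      (mul_le_mul_of_nonneg_left (InsA.pow_le hK (by omega)) hε0.le)) (hw _ t ht)
  refine ⟨InsA.wa fr j (Dm fr X) η, η, s, e, ?_, ?_, b1.mono hr2 (fun _ => le_rfl) hb,
    b2.mono hr2 (fun _ => le_rfl) hb, ?_, heq, hkη, hηv, heb, b3, b4⟩
  · exact (((hXe.Dm hfr).mulVec hηe).smulA (invG_sn j)).smul _
  · exact (InsA.sb_wa hfr hR hW hl (fun i l => In.D hfr l (hX i)) hF hη hηb).mono hfr hr
      (fun _ => le_rfl) fun t ht =>
        mul_le_mul_of_nonneg_right (InsA.pow_le hl (by omega)) (hw _ t ht)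
  · refine (h1 T fr K Kl θ ε r w v j X p η e s c hfr hR hW hl hKl hX hF hk hSt hpt heq hkη hη hs
      he hηb hsb (heb.mono hr (fun _ => le_rfl) fun t ht =>
        mul_le_mul_of_nonneg_right hε (hw _ t ht))).mono hfr hw hr6 (fun _ => le_rfl) fun l => ?_
    have := mul_le_mul_of_nonneg_left (InsA.pow_le hK (show C1 ≤ C1 + C2 + 8 by omega)) hε0.le
    linarith

theorem insSt (_ : AlgSt) (hRed : RedSt) (hU : UpdSSt) : InsSt := insSt' hRed hU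

end Pool.Agent.Lib.MP_fbbbeb_an.Cas
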