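import Mathlib
import Pool.Agent.Lib.MP_fbbbeb_an.Cas.Stmt

/-! The iteration of the four removal steps. -/

set_option autoImplicit false

noncomputable section

namespace Pool.Agent.Lib.MP_fbbbeb_an.Cas

open Pool.Agent.Lib.MP_fbbbeb_an.Pub
open scoped ContDiff Topology RealInnerProductSpace Matrix Nat

namespace It

variable {T : ℝ}

theorem pw_add (u : List Let) (f g : A T) : pw u (f + g) = pw u f + pw u g := by
  induction u with
  | nil => rfl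
  | cons i u ih =>
    show pd i (pw u (f + g)) = pd i (pw u f) + pd i (pw u g)
    rw [ih, map_add]

theorem pw_zero (u : List Let) : pw u (0 : A T) = 0 := by
  induction u with
  | nil => rfl
  | cons i u ih =>
    show pd i (pw u (0 : A T)) = 0
    rw [ih, map_zero]

theorem rpr_nonneg {r : Let → ℝ} (h : ∀ i, 0 ≤ r i) (u : List Let) : 0 ≤ rpr r u := by
  induction u with
  | nil => simp [rpr]
  | cons i u ih =>
    have : rpr r (i :: u) = r i * rpr r u := by simp [rpr]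
    rw [this]
    exact mul_nonneg (h i) ih

theorem rpr_mono {r r' : Let → ℝ} (h0 : ∀ i, 0 ≤ r' i) (h : ∀ i, r' i ≤ r i) (u : List Let) :
    rpr r' u ≤ rpr r u := by
  induction u with
  | nil => simp [rpr]
  | cons i u ih =>
    have e1 : rpr r (i :: u) = r i * rpr r u := by simp [rpr]
    have e2 : rpr r' (i :: u) = r' i * rpr r' u := by simp [rpr]
    rw [e1, e2]
    exact mul_le_mul (h i) ih (rpr_nonneg h0 u) ((h0 i).trans (h i))

theorem sp_t {z : Pt} (hz : z ∈ Sp T) : z.1 ∈ Set.Ioo 0 T := ⟨hz.1, hz.2.1⟩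

theorem gb_size {d : ℤ} {r : Let → ℝ} {w w' : ℝ → ℝ} {M M' : ℝ} {f : A T}
    (h : GB d r w M f) (hM : ∀ t ∈ Set.Ioo 0 T, M * w t ≤ M' * w' t) : GB d r w' M' f := by
  refine ⟨h.1, fun z hz u => (h.2 z hz u).trans ?_⟩
  exact mul_le_mul_of_nonneg_right (hM _ (sp_t hz)) (by positivity)

theorem gb_rad {d : ℤ} {r r' : Let → ℝ} {w : ℝ → ℝ} {M : ℝ} {f : A T}
    (h : GB d r w M f) (h0 : ∀ i, 0 ≤ r' i) (hr : ∀ i, r' i ≤ r i) : GB d r' w M f := by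
  refine ⟨h.1, fun z hz u => le_trans ?_ (h.2 z hz u)⟩
  exact mul_le_mul_of_nonneg_left (rpr_mono h0 hr u) (abs_nonneg _)

theorem gb_le {d : ℤ} {r : Let → ℝ} {w : ℝ → ℝ} {M M' : ℝ} {f : A T}
    (h : GB d r w M f) (hw : ∀ t ∈ Set.Ioo 0 T, 0 ≤ w t) (hM : M ≤ M') : GB d r w M' f :=
  gb_size h fun t ht => mul_le_mul_of_nonneg_right hM (hw t ht)

theorem w1_nonneg : ∀ t ∈ Set.Ioo 0 T, 0 ≤ w1 t := fun _ _ => zero_le_one

theorem gb_add {d : ℤ} {r : Let → ℝ} {w : ℝ → ℝ} {M M' : ℝ} {f g : A T} (h0 : ∀ i, 0 ≤ r i)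
    (h : GB d r w M f) (h' : GB d r w M' g) : GB d r w (M + M') (f + g) := by
  refine ⟨fun z s hs => ?_, fun z hz u => ?_⟩
  · rw [ev_add, ev_add, h.1 z s hs, h'.1 z s hs, mul_add]
  · have a := h.2 z hz u
    have b := h'.2 z hz u
    rw [pw_add, ev_add]
    have c := mul_le_mul_of_nonneg_right (abs_add_le (ev (pw u f) z) (ev (pw u g) z))
      (rpr_nonneg h0 u)
    nlinarith

theorem gb_zero {d : ℤ} {r : Let → ℝ} {w : ℝ → ℝ} : GB d r w 0 (0 : A T) := by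
  refine ⟨fun z s _ => by simp, fun z _ u => ?_⟩
  rw [pw_zero]
  simp

theorem ty_add {fr : Frame T} {l : Fin 4} {f g : A T} (h : Ty fr l f) (h' : Ty fr l g) :
    Ty fr l (f + g) := by
  refine ⟨fun j hj => ?_, fun z hz => ?_⟩
  · rw [map_add, h.1 j hj, h'.1 j hj, add_zero]
  · rw [ev_add, h.2 z hz, h'.2 z hz, add_zero]

theorem ty_zero {fr : Frame T} {l : Fin 4} : Ty fr l (0 : A T) :=
  ⟨fun _ _ => map_zero _, fun z _ => ev_zero z⟩

theorem evv_add (V W : Vec T) (z : Pt) : evv (V + W) z = evv V z + evv W z := by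
  ext i
  simp [evv]

theorem evv_zero (z : Pt) : evv (0 : Vec T) z = 0 := by
  ext i
  simp [evv]

theorem eqv_add {V W : Vec T} (h : Eqv V) (h' : Eqv W) : Eqv (V + W) := fun g hg z => by
  rw [evv_add, evv_add, h g hg z, h' g hg z, map_add]

theorem eqv_zero : Eqv (0 : Vec T) := fun g _ z => by rw [evv_zero, evv_zero, map_zero]

section
variable {fr : Frame T} {r r' : Let → ℝ}

theorem N_pos (hf : fr.Ok) (l : Fin 4) : 0 < fr.N l := lt_of_lt_of_le one_pos (hf.N_one l)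

theorem sb_size (hf : fr.Ok) {w w' : ℝ → ℝ} {l : Fin 4} {c c' : ℝ} {V : Vec T}
    (h : SB fr r w l c V) (hc : ∀ t ∈ Set.Ioo 0 T, c * w t ≤ c' * w' t) : SB fr r w' l c' V := by
  refine ⟨h.1, fun i => gb_size (h.2 i) fun t ht => ?_⟩
  have := div_le_div_of_nonneg_right (hc t ht) (N_pos hf l).le
  calc c / fr.N l * w t = c * w t / fr.N l := by ring
    _ ≤ c' * w' t / fr.N l := this
    _ = c' / fr.N l * w' t := by ring

theorem sb_le (hf : fr.Ok) {w : ℝ → ℝ} {l : Fin 4} {c c' : ℝ} {V : Vec T}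
    (h : SB fr r w l c V) (hw : ∀ t ∈ Set.Ioo 0 T, 0 ≤ w t) (hc : c ≤ c') : SB fr r w l c' V :=
  sb_size hf h fun t ht => mul_le_mul_of_nonneg_right hc (hw t ht)

theorem sb_rad {w : ℝ → ℝ} {l : Fin 4} {c : ℝ} {V : Vec T} (h : SB fr r w l c V)
    (h0 : ∀ i, 0 ≤ r' i) (hr : ∀ i, r' i ≤ r i) : SB fr r' w l c V :=
  ⟨h.1, fun i => gb_rad (h.2 i) h0 hr⟩

theorem sb_add {w : ℝ → ℝ} {l : Fin 4} {c c' : ℝ} {V V' : Vec T} (h0 : ∀ i, 0 ≤ r i)
    (h : SB fr r w l c V) (h' : SB fr r w l c' V') : SB fr r w l (c + c') (V + V') := by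
  refine ⟨fun i => ty_add (h.1 i) (h'.1 i), fun i => ?_⟩
  rw [add_div]
  exact gb_add h0 (h.2 i) (h'.2 i)

theorem sb_zero {w : ℝ → ℝ} {l : Fin 4} : SB fr r w l 0 (0 : Vec T) := by
  refine ⟨fun _ => ty_zero, fun i => ?_⟩
  rw [zero_div]
  exact gb_zero

theorem fb_mono (hf : fr.Ok) {w : Fin 4 → ℝ → ℝ} {c c' : Fin 4 → ℝ} {R : Fin 4 → Vec T}
    (h : FB fr r w c R) (hw : ∀ l, ∀ t ∈ Set.Ioo 0 T, 0 ≤ w l t) (hc : ∀ l, c l ≤ c' l)
    (h0 : ∀ i, 0 ≤ r' i) (hr : ∀ i, r' i ≤ r i) : FB fr r' w c' R :=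
  fun l => sb_rad (sb_le hf (h l) (hw l) (hc l)) h0 hr

theorem st_mono (hf : fr.Ok) {w : Fin 4 → ℝ → ℝ} {c c' : Fin 4 → ℝ} {X : Vec T}
    (h : St fr r w c X) (hw : ∀ l, ∀ t ∈ Set.Ioo 0 T, 0 ≤ w l t) (hc : ∀ l, c l ≤ c' l)
    (h0 : ∀ i, 0 ≤ r' i) (hr : ∀ i, r' i ≤ r i) : St fr r' w c' X := by
  obtain ⟨⟨R1, a1, b1⟩, ⟨R2, a2, b2⟩⟩ := h
  exact ⟨⟨R1, fb_mono hf a1 hw hc h0 hr, b1⟩, ⟨R2, fb_mono hf a2 hw hc h0 hr, b2⟩⟩

theorem reg_pos (hf : fr.Ok) {K θ ε : ℝ} (h : Reg fr K θ ε r) (i : Let) : 0 < r i := by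
  have hK : 0 < K := by linarith [h.K_two]
  rcases i with _ | i | i
  · have := h.r_t
    by_contra hn
    have := mul_nonpos_of_nonneg_of_nonpos hK.le (not_lt.1 hn)
    linarith
  · have := h.r_a i
    by_contra hn
    have := mul_nonpos_of_nonneg_of_nonpos (mul_pos hK (N_pos hf 0)).le (not_lt.1 hn)
    linarith
  · have := h.r_p i
    by_contra hn
    have := mul_nonpos_of_nonneg_of_nonpos hK.le (not_lt.1 hn)
    linarith

/-- the regime at a radius between `r / 2` and `r` -/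
theorem reg_sq (hf : fr.Ok) {K θ ε : ℝ} (h : Reg fr K θ ε r) (h1 : ∀ i, r i / 2 ≤ r' i)
    (h2 : ∀ i, r' i ≤ r i) : Reg fr (K ^ 2) θ ε r' := by
  have hK := h.K_two
  have hKK : 2 * K ≤ K ^ 2 := by nlinarith
  have hp := reg_pos hf h
  have h0 : ∀ i, 0 ≤ r' i := fun i => le_trans (by linarith [hp i]) (h1 i)
  have key : ∀ a i, 0 ≤ a → 1 ≤ K * a * r i → 1 ≤ K ^ 2 * a * r' i := by
    intro a i ha hi
    calc (1 : ℝ) ≤ K * a * r i := hi
      _ = 2 * K * a * (r i / 2) := by ring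
      _ ≤ K ^ 2 * a * r' i := by
        apply mul_le_mul (mul_le_mul_of_nonneg_right hKK ha) (h1 i) (by linarith [hp i])
        positivity
  refine ⟨by linarith, h.th_half, h.th_one, ?_, fun i => (h2 i).trans (h.r_one i), ?_, fun j => ?_,
    fun i => key _ _ (N_pos hf 0).le (h.r_a i), fun j i => ?_, fun j => ?_, h.e_pos, h.e_one, h.e_N⟩
  · have := h.th_K
    have h3 := h.th_one
    nlinarith
  · simpa using key 1 lt zero_le_one (by simpa using h.r_t)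
  · simpa using key 1 (lp j) zero_le_one (by simpa using h.r_p j)
  · exact gb_rad (gb_le (h.k_bd j i) w1_nonneg (by linarith)) h0 h2
  · exact gb_rad (gb_le (h.ki_bd j) w1_nonneg (by linarith)) h0 h2

theorem wt_le {K K' : ℝ} {w v : Fin 4 → ℝ → ℝ} (h : Wt T K w v) (hK : K ≤ K') : Wt T K' w v :=
  ⟨h.w_nonneg, h.w_le, fun l t ht => (h.v_le l t ht).trans hK,
    fun i j t ht => (h.v_mul i j t ht).trans
      (mul_le_mul_of_nonneg_right hK (h.w_nonneg _ t ht)),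
    fun j t ht => (h.w_down j t ht).trans (mul_le_mul_of_nonneg_right hK (h.w_nonneg _ t ht))⟩

theorem solvP_le {j : Fin 3} {F : Mat T} {w : ℝ → ℝ} {K K' : ℝ} (h : SolvP fr j F w K r)
    (hw : ∀ t ∈ Set.Ioo 0 T, 0 ≤ w t) (hK : K ≤ K') : SolvP fr j F w K' r := by
  intro r1 a1 a2 c ε' hc he f b1 b2 b3
  obtain ⟨ζ, s, e, c1, c2, c3, c4, c5, c6, c7, c8, c9, c10, c11, c12⟩ :=
    h r1 a1 a2 c ε' hc he f b1 b2 b3
  have hKc := mul_le_mul_of_nonneg_right hK hc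
  exact ⟨ζ, s, e, c1, c2, c3, c4, c5, c6, c7, fun i => gb_le (c8 i) hw hKc,
    fun i => gb_le (c9 i) hw hKc, gb_le c10 hw hKc, c11, c12⟩

theorem solv0_le {F : Mat T} {Ji : A T} {w : ℝ → ℝ} {K K' θ : ℝ} {rlo : Let → ℝ}
    (h : Solv0 F Ji w K θ rlo r) (hw : ∀ t ∈ Set.Ioo 0 T, 0 ≤ w t) (hK : K ≤ K') :
    Solv0 F Ji w K' θ rlo r := by
  intro r1 a1 a2 c ε' hc he f b1 b2 b3
  obtain ⟨ζ, q, e, c1, c2, c3, c4, c5, c6, c7, c8⟩ := h r1 a1 a2 c ε' hc he f b1 b2 b3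
  exact ⟨ζ, q, e, c1, c2, c3, c4, c5, c6,
    fun i => gb_le (c7 i) hw (mul_le_mul_of_nonneg_right hK hc), c8⟩

theorem bg_le (hf : fr.Ok) {K K' K1 θ : ℝ} {rlo : Let → ℝ} {w v : Fin 4 → ℝ → ℝ} {X0 : Vec T}
    {W : Fin 3 → Vec T} {Ji : Fin 4 → A T} (h : Bg fr K θ rlo r w v X0 W Ji) (hw : Wt T K1 w v)
    (hK : K ≤ K') : Bg fr K' θ rlo r w v X0 W Ji :=
  ⟨h.X_in, h.X_eqv,
    fun j => sb_le hf (h.W_bd j) (fun t ht => (hw.w_nonneg _ t ht).trans (hw.w_le _ t ht)) hK,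
    h.W_eqv, fun l i j => gb_le (h.F_bd l i j) w1_nonneg hK, h.J_mul,
    fun l => gb_le (h.J_bd l) w1_nonneg hK,
    fun j => solvP_le (h.solv j) (hw.w_nonneg _) hK, solv0_le h.solv0 (hw.w_nonneg _) hK⟩

end

theorem sh_sh (θ : ℝ) (m n : ℕ) (r : Let → ℝ) : sh θ m (sh θ n r) = sh θ (n + m) r := by
  funext i
  simp only [sh]
  ring

/-- a larger exponent in the removal statement -/
theorem killAt_le {C C' : ℕ} {j : Fin 4} (h : KillAt C j) (hC : C ≤ C') : KillAt C' j := by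
  intro T fr K θ ε rlo r0 r w v X0 W Ji Cr c hf hR hW hB h1 h2 h3 h4 h5 h6 h7 h8
  have hK : (1 : ℝ) ≤ K := by linarith [hR.K_two]
  have hp : K ^ C * c j ≤ K ^ C' * c j :=
    mul_le_mul_of_nonneg_right (pow_le_pow_right₀ hK hC) (h6 j)
  obtain ⟨Y, a1, a2, a3⟩ := h T fr K θ ε rlo r0 r w v X0 W Ji Cr c hf hR hW hB h1 h2 h3 h4 h5 h6
    (hp.trans h7) h8
  have hθ : 0 ≤ θ := by linarith [hR.th_half]
  have h0 : ∀ i, 0 ≤ sh θ 8 r i := fun i =>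
    mul_nonneg (pow_nonneg hθ 8) (reg_pos hf hR i).le
  refine ⟨Y, a1, sb_le hf a2 (hW.w_nonneg j) hp,
    st_mono hf a3 hW.w_nonneg (fun l => ?_) h0 fun _ => le_rfl⟩
  have : up ε j (K ^ C * c j) l ≤ up ε j (K ^ C' * c j) l := by
    unfold up
    split_ifs
    · exact mul_le_mul_of_nonneg_left hp hR.e_pos.le
    · exact hp
  linarith

/-- sizes of the residual inside one pass -/
def sz (ε L c : ℝ) (j : ℕ) : Fin 4 → ℝ := fun l =>
  if (l : ℕ) < j then j * (ε * (L * (1 + L) ^ 3 * c)) else (1 + L) ^ j * c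

/-- state after `n` removal steps -/
def Inv (fr : Frame T) (θ : ℝ) (r : Let → ℝ) (w : Fin 4 → ℝ → ℝ) (X : Vec T) (n : ℕ) (B : ℝ)
    (c : Fin 4 → ℝ) : Prop :=
  ∃ Cr : Fin 4 → Vec T, (∀ l, Eqv (Cr l)) ∧ FB fr (sh θ (8 * n) r) w (fun _ => B) Cr ∧
    St fr (sh θ (8 * n) r) w c (X + ∑ l, Cr l)

section
variable {C : ℕ} {fr : Frame T} {K θ ε : ℝ} {r : Let → ℝ} {w v : Fin 4 → ℝ → ℝ} {X0 : Vec T}
  {W : Fin 3 → Vec T} {Ji : Fin 4 → A T}

theorem sh_bounds (hf : fr.Ok) (hR : Reg fr K θ ε r) {n m : ℕ} (hn : n ≤ m)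
    (hm : 1 / 2 ≤ θ ^ m) (i : Let) : r i / 2 ≤ sh θ n r i ∧ sh θ n r i ≤ r i := by
  have hθ : 0 ≤ θ := by linarith [hR.th_half]
  have hp := reg_pos hf hR i
  have a1 : θ ^ m ≤ θ ^ n := pow_le_pow_of_le_one hθ hR.th_one.le hn
  have a2 : θ ^ n ≤ 1 := pow_le_one₀ hθ hR.th_one.le
  simp only [sh]
  constructor <;> nlinarith

theorem step (hK : ∀ j, KillAt C j) (hf : fr.Ok) (hR : Reg fr K θ ε r) (hW : Wt T K w v)
    (hB : Bg fr K θ (dvr r 2) r w v X0 W Ji) (ha : ∀ i l, r (la i) = r (la l)) {n m : ℕ}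
    (hn : 8 * n + 8 ≤ m) (hm : 1 / 2 ≤ θ ^ m) {B c : ℝ} (hc : 0 ≤ c) (hBε : B ≤ ε)
    (hcε : (K ^ 2) ^ C * (1 + (K ^ 2) ^ C) ^ 3 * c ≤ ε) (j : Fin 4)
    (h : Inv fr θ r w (X0 + ∑ i, W i) n B (sz ε ((K ^ 2) ^ C) c j)) :
    Inv fr θ r w (X0 + ∑ i, W i) (n + 1) (B + (K ^ 2) ^ C * (1 + (K ^ 2) ^ C) ^ 3 * c)
      (sz ε ((K ^ 2) ^ C) c (j + 1)) := by
  obtain ⟨Cr, e1, e2, e3⟩ := h
  have hK2 := hR.K_two
  have hKK : K ≤ K ^ 2 := by nlinarith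
  set L : ℝ := (K ^ 2) ^ C with hL
  have hL0 : 0 ≤ L := by positivity
  have hε := hR.e_pos.le
  have hj : (j : ℕ) ≤ 3 := Nat.lt_succ_iff.1 j.2
  have hpow : (1 + L) ^ (j : ℕ) ≤ (1 + L) ^ 3 := pow_le_pow_right₀ (by linarith) hj
  have hszj : sz ε L c j j = (1 + L) ^ (j : ℕ) * c := by simp [sz]
  have hy : L * sz ε L c j j ≤ L * (1 + L) ^ 3 * c := by
    rw [hszj, mul_assoc]
    exact mul_le_mul_of_nonneg_left (mul_le_mul_of_nonneg_right hpow hc) hL0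
  have b0 := sh_bounds hf hR (show 8 * n ≤ m by omega) hm
  have b2 := sh_bounds hf hR (show 8 * n + 2 ≤ m by omega) hm
  have b8 := sh_bounds hf hR hn hm
  have hp := reg_pos hf hR
  have hsz0 : ∀ l, 0 ≤ sz ε L c j l := fun l => by
    unfold sz
    split_ifs <;> positivity
  obtain ⟨Y, a1, a2, a3⟩ := hK j T fr (K ^ 2) θ ε (dvr r 2) r (sh θ (8 * n) r) w v X0 W Ji Cr
    (sz ε L c j) hf (reg_sq hf hR (fun i => (b0 i).1) fun i => (b0 i).2) (wt_le hW hKK)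
    (bg_le hf hB hW hKK) (fun i l => by simp only [sh, ha i l]) (fun i => (b0 i).2)
    (fun i => by rw [sh_sh]; exact (b2 i).1)
    (fun l => sb_size hf (e2 l) fun t ht =>
      (mul_le_mul_of_nonneg_right hBε (hW.w_nonneg l t ht)).trans
        (mul_le_mul_of_nonneg_left (hW.w_le l t ht) hε))
    e1 hsz0 (hy.trans hcε) e3
  rw [sh_sh] at a2 a3
  have hn1 : 8 * (n + 1) = 8 * n + 8 := by ring
  have h0 : ∀ i, 0 ≤ sh θ (8 * n + 8) r i := fun i => le_trans (by linarith [hp i]) (b8 i).1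
  have hle : ∀ i, sh θ (8 * n + 8) r i ≤ sh θ (8 * n) r i := fun i =>
    mul_le_mul_of_nonneg_right (pow_le_pow_of_le_one (by linarith [hR.th_half]) hR.th_one.le
      (by omega)) (hp i).le
  refine ⟨fun l => Cr l + if l = j then Y else 0, fun l => eqv_add (e1 l) ?_, fun l => ?_, ?_⟩
  · split_ifs
    · exact a1
    · exact eqv_zero
  · rw [hn1]
    refine sb_add h0 (sb_rad (e2 l) h0 hle) ?_
    split_ifs with hl
    · subst hl
      exact sb_le hf a2 (hW.w_nonneg l) hy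
    · exact sb_le hf sb_zero (hW.w_nonneg l) (by positivity)
  · rw [hn1, Finset.sum_add_distrib, Finset.sum_ite_eq' Finset.univ j fun _ => Y,
      if_pos (Finset.mem_univ j), ← add_assoc]
    refine st_mono hf a3 hW.w_nonneg (fun l => ?_) h0 fun _ => le_rfl
    have hεy := mul_le_mul_of_nonneg_left hy hε
    have hq : 0 ≤ ε * (L * (1 + L) ^ 3 * c) := by positivity
    rcases lt_trichotomy l j with hl | hl | hl
    · have h1 : (l : ℕ) < j := hl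
      have h2 : (l : ℕ) < j + 1 := by omega
      simp only [up, if_neg hl.ne, if_pos hl.le]
      rw [show sz ε L c (j + 1) l = ((j : ℕ) + 1 : ℕ) * (ε * (L * (1 + L) ^ 3 * c)) from if_pos h2,
        show sz ε L c j l = (j : ℕ) * (ε * (L * (1 + L) ^ 3 * c)) from if_pos h1]
      push_cast
      linarith
    · subst hl
      have h2 : (l : ℕ) < l + 1 := by omega
      simp only [up, if_true, le_refl]
      rw [show sz ε L c (l + 1) l = ((l : ℕ) + 1 : ℕ) * (ε * (L * (1 + L) ^ 3 * c)) from if_pos h2]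
      push_cast
      have : 0 ≤ ((l : ℕ) : ℝ) * (ε * (L * (1 + L) ^ 3 * c)) := by positivity
      linarith
    · have h1 : (j : ℕ) < l := hl
      simp only [up, if_neg hl.ne', if_neg (not_le.2 hl)]
      rw [show sz ε L c (j + 1) l = (1 + L) ^ ((j : ℕ) + 1) * c from if_neg (by omega),
        show sz ε L c j l = (1 + L) ^ (j : ℕ) * c from if_neg (by omega), hszj]
      exact le_of_eq (by ring)

theorem pass (hK : ∀ j, KillAt C j) (hf : fr.Ok) (hR : Reg fr K θ ε r) (hW : Wt T K w v)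
    (hB : Bg fr K θ (dvr r 2) r w v X0 W Ji) (ha : ∀ i l, r (la i) = r (la l)) {n m : ℕ}
    (hn : 8 * n + 32 ≤ m) (hm : 1 / 2 ≤ θ ^ m) {B c : ℝ} (hc : 0 ≤ c)
    (hBε : B + 4 * ((K ^ 2) ^ C * (1 + (K ^ 2) ^ C) ^ 3 * c) ≤ ε) (hB0 : 0 ≤ B)
    (hs : 8 * (ε * ((K ^ 2) ^ C * (1 + (K ^ 2) ^ C) ^ 3)) ≤ 1)
    (h : Inv fr θ r w (X0 + ∑ i, W i) n B fun _ => c) :
    Inv fr θ r w (X0 + ∑ i, W i) (n + 4) (B + 4 * ((K ^ 2) ^ C * (1 + (K ^ 2) ^ C) ^ 3 * c))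
      fun _ => c / 2 := by
  have hq : 0 ≤ (K ^ 2) ^ C * (1 + (K ^ 2) ^ C) ^ 3 * c := by positivity
  have hcε : (K ^ 2) ^ C * (1 + (K ^ 2) ^ C) ^ 3 * c ≤ ε := by linarith
  have h0 : Inv fr θ r w (X0 + ∑ i, W i) n B (sz ε ((K ^ 2) ^ C) c ((0 : Fin 4) : ℕ)) := by
    have : sz ε ((K ^ 2) ^ C) c ((0 : Fin 4) : ℕ) = fun _ => c := by
      funext l
      simp [sz]
    rwa [this]
  have h1 := step hK hf hR hW hB ha (by omega) hm hc (by linarith) hcε 0 h0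
  have h2 := step hK hf hR hW hB ha (by omega) hm hc (by linarith) hcε 1 h1
  have h3 := step hK hf hR hW hB ha (by omega) hm hc (by linarith) hcε 2 h2
  obtain ⟨Cr, e1, e2, e3⟩ := step hK hf hR hW hB ha (by omega) hm hc (by linarith) hcε 3 h3
  have hp := reg_pos hf hR
  have hθ : 0 ≤ θ := by linarith [hR.th_half]
  have h0 : ∀ i, 0 ≤ sh θ (8 * (n + 4)) r i := fun i => mul_nonneg (pow_nonneg hθ _) (hp i).le
  refine ⟨Cr, e1, fb_mono hf e2 hW.w_nonneg (fun _ => le_of_eq (by ring)) h0 fun _ => le_rfl,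
    st_mono hf e3 hW.w_nonneg (fun l => ?_) h0 fun _ => le_rfl⟩
  have hl : (l : ℕ) < ((3 : Fin 4) : ℕ) + 1 := l.2
  rw [show sz ε ((K ^ 2) ^ C) c (((3 : Fin 4) : ℕ) + 1) l = ((((3 : Fin 4) : ℕ) + 1 : ℕ) : ℝ) *
    (ε * ((K ^ 2) ^ C * (1 + (K ^ 2) ^ C) ^ 3 * c)) from if_pos hl]
  have h4 : ((((3 : Fin 4) : ℕ) + 1 : ℕ) : ℝ) = 4 := by norm_num
  rw [h4]
  nlinarith [mul_le_mul_of_nonneg_right hs hc]

theorem passes (hK : ∀ j, KillAt C j) (hf : fr.Ok) (hR : Reg fr K θ ε r) (hW : Wt T K w v)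
    (hB : Bg fr K θ (dvr r 2) r w v X0 W Ji) (ha : ∀ i l, r (la i) = r (la l)) {m : ℕ}
    (hm : 1 / 2 ≤ θ ^ m) {c : ℝ} (hc : 0 ≤ c)
    (hBε : 8 * ((K ^ 2) ^ C * (1 + (K ^ 2) ^ C) ^ 3 * c) ≤ ε)
    (hs : 8 * (ε * ((K ^ 2) ^ C * (1 + (K ^ 2) ^ C) ^ 3)) ≤ 1)
    (h : St fr r w (fun _ => c) (X0 + ∑ i, W i)) (n : ℕ) (hn : 32 * n ≤ m) :
    Inv fr θ r w (X0 + ∑ i, W i) (4 * n)
      (8 * ((K ^ 2) ^ C * (1 + (K ^ 2) ^ C) ^ 3 * (c - c / 2 ^ n))) fun _ => c / 2 ^ n := by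
  induction n with
  | zero =>
    have e : sh θ (8 * (4 * 0)) r = r := by
      funext i
      simp [sh]
    refine ⟨fun _ => 0, fun _ => eqv_zero, fun l => ?_, ?_⟩
    · simpa using (sb_zero (fr := fr) (r := sh θ (8 * (4 * 0)) r) (w := w l) (l := l))
    · rw [e]
      simpa using h
  | succ n ih =>
    have hL : 0 ≤ (K ^ 2) ^ C * (1 + (K ^ 2) ^ C) ^ 3 := by positivity
    have hc1 : 0 ≤ c / 2 ^ n := by positivity
    have hc2 : c / 2 ^ n ≤ c := div_le_self hc (one_le_pow₀ one_le_two)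
    have h1 := pass hK hf hR hW hB ha (n := 4 * n) (by omega) hm hc1
      (by nlinarith [mul_nonneg hL hc1]) (by positivity [sub_nonneg.2 hc2]) hs (ih (by omega))
    have e1 : 4 * (n + 1) = 4 * n + 4 := by ring
    have e2 : c / 2 ^ (n + 1) = c / 2 ^ n / 2 := by rw [pow_succ, div_div]
    rw [e1, e2]
    convert h1 using 1
    ring

end

end It

theorem iterSt (hP : KillPSt) (h0 : Kill0St) : IterSt := by
  obtain ⟨C1, h1⟩ := hP
  obtain ⟨C0, h0⟩ := h0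
  have hK : ∀ j, KillAt (max C0 C1) j := fun j => by
    refine Fin.cases (It.killAt_le h0 (le_max_left _ _)) (fun j => ?_) j
    exact It.killAt_le (h1 j) (le_max_right _ _)
  set C := max C0 C1
  refine ⟨8 * C + 6, ?_⟩
  intro T fr K θ ε r w v X0 W Ji c M hf hR hW hB ha hm he hc hce hs
  have hK2 := hR.K_two
  have hL1 : 1 ≤ (K ^ 2) ^ C := one_le_pow₀ (by nlinarith)
  have hb : 8 * ((K ^ 2) ^ C * (1 + (K ^ 2) ^ C) ^ 3) ≤ K ^ (8 * C + 6) := by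
    have a1 : (1 + (K ^ 2) ^ C) ^ 3 ≤ (2 * (K ^ 2) ^ C) ^ 3 :=
      pow_le_pow_left₀ (by linarith) (by linarith) 3
    have a2 : (2 : ℝ) ^ 6 ≤ K ^ 6 := pow_le_pow_left₀ (by norm_num) hK2 6
    calc 8 * ((K ^ 2) ^ C * (1 + (K ^ 2) ^ C) ^ 3)
        ≤ 8 * ((K ^ 2) ^ C * (2 * (K ^ 2) ^ C) ^ 3) := by gcongr
      _ = 2 ^ 6 * K ^ (8 * C) := by ring
      _ ≤ K ^ 6 * K ^ (8 * C) := by gcongr
      _ = K ^ (8 * C + 6) := by ring
  have hbc := mul_le_mul_of_nonneg_right hb hc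
  have hbe := mul_le_mul_of_nonneg_left hb hR.e_pos.le
  obtain ⟨Cr, e1, e2, e3⟩ := It.passes hK hf hR hW hB ha hm hc (by linarith) (by linarith) hs M
    (by omega)
  have b := It.sh_bounds hf hR (show 8 * (4 * M) ≤ 40 * M by omega) hm
  have hp := It.reg_pos hf hR
  have hr0 : ∀ i, 0 ≤ dvr r 2 i := fun i => by
    have := hp i
    simp only [dvr]
    positivity
  refine ⟨Cr, e1, It.fb_mono hf e2 hW.w_nonneg (fun _ => ?_) hr0 fun i => (b i).1,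
    It.st_mono hf e3 hW.w_nonneg (fun _ => le_rfl) hr0 fun i => (b i).1⟩
  have hL : 0 ≤ (K ^ 2) ^ C * (1 + (K ^ 2) ^ C) ^ 3 := by positivity
  have hc1 : 0 ≤ c / 2 ^ M := by positivity
  nlinarith [mul_nonneg hL hc1]

end Pool.Agent.Lib.MP_fbbbeb_an.Cas
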