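import Mathlib
import Pool.Agent.Lib.MP_fbbbeb_an.Cas.Stmt

/-! The part common to the removal steps: regrouping of the background and bookkeeping. -/

set_option autoImplicit false

noncomputable section

namespace Pool.Agent.Lib.MP_fbbbeb_an.Cas

open Pool.Agent.Lib.MP_fbbbeb_an.Pub
open scoped ContDiff Topology RealInnerProductSpace Matrix Nat

namespace KC

variable {T : ℝ}

theorem pw_add (u : List Let) (f g : A T) : pw u (f + g) = pw u f + pw u g := by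
  induction u with
  | nil => rfl
  | cons i u ih =>
    show pd i (pw u (f + g)) = pd i (pw u f) + pd i (pw u g)
    rw [ih, map_add]

theorem pw_zero (u : List Let) : pw u (0 : A T) = 0 := by
  induction u with
  | nil => rfl
  | cons i u ih =>
    show pd i (pw u 0) = 0
    rw [ih, map_zero]

theorem pw_neg (u : List Let) (f : A T) : pw u (-f) = -pw u f := by
  induction u with
  | nil => rfl
  | cons i u ih =>
    show pd i (pw u (-f)) = -pd i (pw u f)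
    rw [ih, map_neg]

theorem rpr_nonneg {r : Let → ℝ} (hr : ∀ i, 0 ≤ r i) (u : List Let) : 0 ≤ rpr r u := by
  induction u with
  | nil => simp [rpr]
  | cons i u ih =>
    have : rpr r (i :: u) = r i * rpr r u := by simp [rpr]
    rw [this]; exact mul_nonneg (hr i) ih

theorem rpr_mono {r r' : Let → ℝ} (h0 : ∀ i, 0 ≤ r' i) (h : ∀ i, r' i ≤ r i) (u : List Let) :
    rpr r' u ≤ rpr r u := by
  induction u with
  | nil => simp [rpr]
  | cons i u ih =>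
    have e1 : rpr r (i :: u) = r i * rpr r u := by simp [rpr]
    have e2 : rpr r' (i :: u) = r' i * rpr r' u := by simp [rpr]
    rw [e1, e2]
    exact mul_le_mul (h i) ih (rpr_nonneg h0 u) ((h0 i).trans (h i))

theorem gb_mono {d : ℤ} {r r' : Let → ℝ} {w : ℝ → ℝ} {M M' : ℝ} {f : A T} (h : GB d r w M f)
    (h0 : ∀ i, 0 ≤ r' i) (hr : ∀ i, r' i ≤ r i) (hw : ∀ t ∈ Set.Ioo 0 T, 0 ≤ w t) (hM : M ≤ M') :
    GB d r' w M' f := by
  refine ⟨h.1, fun z hz u => ?_⟩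
  have h1 := h.2 z hz u
  have h2 : |ev (pw u f) z| * rpr r' u ≤ |ev (pw u f) z| * rpr r u :=
    mul_le_mul_of_nonneg_left (rpr_mono h0 hr u) (abs_nonneg _)
  have h3 : M * w z.1 * ((u.length ! : ℕ) : ℝ) ^ 2 ≤ M' * w z.1 * ((u.length ! : ℕ) : ℝ) ^ 2 :=
    mul_le_mul_of_nonneg_right (mul_le_mul_of_nonneg_right hM (hw _ ⟨hz.1, hz.2.1⟩)) (by positivity)
  linarith

theorem gb_add {d : ℤ} {r : Let → ℝ} {w : ℝ → ℝ} {M M' : ℝ} {f g : A T} (h : GB d r w M f)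
    (h' : GB d r w M' g) (h0 : ∀ i, 0 ≤ r i) : GB d r w (M + M') (f + g) := by
  refine ⟨fun z s hs => ?_, fun z hz u => ?_⟩
  · rw [ev_add, ev_add, h.1 z s hs, h'.1 z s hs]; ring
  · have h1 := h.2 z hz u
    have h2 := h'.2 z hz u
    rw [pw_add, ev_add]
    have h3 := mul_le_mul_of_nonneg_right (abs_add_le (ev (pw u f) z) (ev (pw u g) z)) (rpr_nonneg h0 u)
    nlinarith

theorem gb_neg {d : ℤ} {r : Let → ℝ} {w : ℝ → ℝ} {M : ℝ} {f : A T} (h : GB d r w M f) :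
    GB d r w M (-f) := by
  refine ⟨fun z s hs => ?_, fun z hz u => ?_⟩
  · rw [ev_neg, ev_neg, h.1 z s hs]; ring
  · rw [pw_neg, ev_neg, abs_neg]; exact h.2 z hz u

theorem gb_sub {d : ℤ} {r : Let → ℝ} {w : ℝ → ℝ} {M M' : ℝ} {f g : A T} (h : GB d r w M f)
    (h' : GB d r w M' g) (h0 : ∀ i, 0 ≤ r i) : GB d r w (M + M') (f - g) := by
  rw [sub_eq_add_neg]; exact gb_add h (gb_neg h') h0

theorem gb_zero {d : ℤ} {r : Let → ℝ} {w : ℝ → ℝ} {M : ℝ} (hw : ∀ t ∈ Set.Ioo 0 T, 0 ≤ w t)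
    (hM : 0 ≤ M) : GB d r w M (0 : A T) := by
  refine ⟨fun z s _ => by simp, fun z hz u => ?_⟩
  rw [pw_zero, ev_zero, abs_zero, zero_mul]
  exact mul_nonneg (mul_nonneg hM (hw _ ⟨hz.1, hz.2.1⟩)) (by positivity)

theorem in_mono {l l' : Fin 4} (h : l ≤ l') {f : A T} (hf : In l f) : In l' f :=
  fun j hj => hf j (h.trans hj)

theorem in_add {l : Fin 4} {f g : A T} (hf : In l f) (hg : In l g) : In l (f + g) :=
  fun j hj => by rw [map_add, hf j hj, hg j hj, add_zero]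

theorem in_sub {l : Fin 4} {f g : A T} (hf : In l f) (hg : In l g) : In l (f - g) :=
  fun j hj => by rw [map_sub, hf j hj, hg j hj, sub_zero]

theorem in_zero {l : Fin 4} : In l (0 : A T) := fun _ _ => map_zero _

theorem in_mul {l : Fin 4} {f g : A T} (hf : In l f) (hg : In l g) : In l (f * g) :=
  fun j hj => by rw [Derivation.leibniz, hf j hj, hg j hj]; simp

theorem in_pd {l : Fin 4} {f : A T} (hf : In l f) (i : Let) : In l (pd i f) :=
  fun j hj => by rw [pd_comm, hf j hj, map_zero]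

theorem in_sum {ι : Type*} {l : Fin 4} (s : Finset ι) {f : ι → A T} (hf : ∀ i ∈ s, In l (f i)) :
    In l (∑ i ∈ s, f i) :=
  fun j hj => by rw [map_sum]; exact Finset.sum_eq_zero fun i hi => hf i hi j hj

theorem ty_add {fr : Frame T} {l : Fin 4} {f g : A T} (hf : Ty fr l f) (hg : Ty fr l g) :
    Ty fr l (f + g) :=
  ⟨in_add hf.1 hg.1, fun z hz => by rw [ev_add, hf.2 z hz, hg.2 z hz, add_zero]⟩

theorem ty_zero {fr : Frame T} {l : Fin 4} : Ty fr l (0 : A T) := ⟨in_zero, fun z _ => ev_zero z⟩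

theorem sb_mono {fr : Frame T} (hfr : fr.Ok) {r r' : Let → ℝ} {w : ℝ → ℝ} {l : Fin 4} {c c' : ℝ}
    {V : Vec T} (h : SB fr r w l c V) (h0 : ∀ i, 0 ≤ r' i) (hr : ∀ i, r' i ≤ r i)
    (hw : ∀ t ∈ Set.Ioo 0 T, 0 ≤ w t) (hc : c ≤ c') : SB fr r' w l c' V :=
  ⟨h.1, fun i => gb_mono (h.2 i) h0 hr hw
    (div_le_div_of_nonneg_right hc (zero_le_one.trans (hfr.N_one l)))⟩

theorem sb_add {fr : Frame T} {r : Let → ℝ} {w : ℝ → ℝ} {l : Fin 4} {c c' : ℝ} {V V' : Vec T}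
    (h : SB fr r w l c V) (h' : SB fr r w l c' V') (h0 : ∀ i, 0 ≤ r i) :
    SB fr r w l (c + c') (V + V') :=
  ⟨fun i => ty_add (h.1 i) (h'.1 i), fun i => by
    rw [add_div]; exact gb_add (h.2 i) (h'.2 i) h0⟩

theorem sb_zero {fr : Frame T} (hfr : fr.Ok) {r : Let → ℝ} {w : ℝ → ℝ} {l : Fin 4} {c : ℝ}
    (hw : ∀ t ∈ Set.Ioo 0 T, 0 ≤ w t) (hc : 0 ≤ c) : SB fr r w l c (0 : Vec T) :=
  ⟨fun _ => ty_zero, fun _ => gb_zero hw (div_nonneg hc (zero_le_one.trans (hfr.N_one l)))⟩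

theorem st_mono {fr : Frame T} (hfr : fr.Ok) {r r' : Let → ℝ} {w : Fin 4 → ℝ → ℝ}
    {c c' : Fin 4 → ℝ} {X : Vec T} (h : St fr r w c X) (h0 : ∀ i, 0 ≤ r' i) (hr : ∀ i, r' i ≤ r i)
    (hw : ∀ l, ∀ t ∈ Set.Ioo 0 T, 0 ≤ w l t) (hc : ∀ l, c l ≤ c' l) : St fr r' w c' X := by
  obtain ⟨⟨R, hR, hcl⟩, ⟨R', hR', hd⟩⟩ := h
  exact ⟨⟨R, fun l => sb_mono hfr (hR l) h0 hr (hw l) (hc l), hcl⟩,
    ⟨R', fun l => sb_mono hfr (hR' l) h0 hr (hw l) (hc l), hd⟩⟩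

theorem reg_pos {fr : Frame T} (hfr : fr.Ok) {K θ ε : ℝ} {r : Let → ℝ} (h : Reg fr K θ ε r)
    (i : Let) : 0 < r i := by
  have hK : 0 < K := by linarith [h.K_two]
  have hN : 0 < fr.N 0 := by linarith [hfr.N_one 0]
  rcases i with _ | i | j
  · have := h.r_t
    by_contra hc
    have h2 : r lt ≤ 0 := not_lt.1 hc
    have := mul_nonpos_of_nonneg_of_nonpos hK.le h2
    linarith
  · have := h.r_a i
    by_contra hc
    have h2 : r (la i) ≤ 0 := not_lt.1 hc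
    have := mul_nonpos_of_nonneg_of_nonpos (mul_pos hK hN).le h2
    linarith
  · have := h.r_p j
    by_contra hc
    have h2 : r (lp j) ≤ 0 := not_lt.1 hc
    have := mul_nonpos_of_nonneg_of_nonpos hK.le h2
    linarith

theorem sh_pos {θ : ℝ} (hθ : 0 < θ) {r : Let → ℝ} (hr : ∀ i, 0 < r i) (n : ℕ) (i : Let) :
    0 < sh θ n r i := mul_pos (pow_pos hθ n) (hr i)

theorem sh_anti {θ : ℝ} (h0 : 0 ≤ θ) (h1 : θ ≤ 1) {r : Let → ℝ} (hr : ∀ i, 0 ≤ r i) {m n : ℕ}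
    (h : m ≤ n) (i : Let) : sh θ n r i ≤ sh θ m r i :=
  mul_le_mul_of_nonneg_right (pow_le_pow_of_le_one h0 h1 h) (hr i)

theorem sh_le {θ : ℝ} (h0 : 0 ≤ θ) (h1 : θ ≤ 1) {r : Let → ℝ} (hr : ∀ i, 0 ≤ r i) (n : ℕ)
    (i : Let) : sh θ n r i ≤ r i := by
  have := sh_anti h0 h1 hr (Nat.zero_le n) i
  simpa [sh] using this

theorem sh_sh (θ : ℝ) (m n : ℕ) (r : Let → ℝ) : sh θ m (sh θ n r) = sh θ (m + n) r := by
  funext i; simp [sh, pow_add, mul_assoc]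

theorem w1_nonneg : ∀ t ∈ Set.Ioo (0 : ℝ) T, 0 ≤ w1 t := fun _ _ => zero_le_one

/-- the regime at shrunk radii with a larger constant -/
theorem reg_sh {fr : Frame T} (hfr : fr.Ok) {K θ ε : ℝ} {r : Let → ℝ} (h : Reg fr K θ ε r)
    {n m : ℕ} (hn : n + 1 ≤ m) : Reg fr (K ^ m) θ ε (sh θ n r) := by
  have hK1 : 1 ≤ K := by linarith [h.K_two]
  have hθ : 0 < θ := by linarith [h.th_half]
  have hp := reg_pos hfr h
  have hKm : K ≤ K ^ m := le_self_pow₀ hK1 (by omega)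
  have hKθ : 1 ≤ K * θ := by nlinarith [h.K_two, h.th_half]
  have hle : ∀ i, sh θ n r i ≤ r i := sh_le hθ.le h.th_one.le (fun i => (hp i).le) n
  have key : ∀ x : ℝ, 0 ≤ x → 1 ≤ K * x → 1 ≤ K ^ m * (θ ^ n * x) := by
    intro x hx h1
    have h2 : 1 ≤ (K * θ) ^ n := one_le_pow₀ hKθ
    have h3 : K ^ (n + 1) ≤ K ^ m := pow_le_pow_right₀ hK1 hn
    have h4 : K ^ (n + 1) * (θ ^ n * x) = (K * θ) ^ n * (K * x) := by rw [mul_pow]; ring
    have h5 : 1 ≤ (K * θ) ^ n * (K * x) := one_le_mul_of_one_le_of_one_le h2 h1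
    have h6 : K ^ (n + 1) * (θ ^ n * x) ≤ K ^ m * (θ ^ n * x) :=
      mul_le_mul_of_nonneg_right h3 (mul_nonneg (pow_pos hθ n).le hx)
    linarith
  refine ⟨h.K_two.trans hKm, h.th_half, h.th_one, ?_, fun i => (hle i).trans (h.r_one i),
    key _ (hp _).le h.r_t, fun j => key _ (hp _).le (h.r_p j), fun i => ?_,
    fun j i => gb_mono (h.k_bd j i) (fun i => (sh_pos hθ hp n i).le) hle w1_nonneg hKm,
    fun j => gb_mono (h.ki_bd j) (fun i => (sh_pos hθ hp n i).le) hle w1_nonneg hKm,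
    h.e_pos, h.e_one, h.e_N⟩
  · have := mul_le_mul_of_nonneg_right hKm (by linarith [h.th_one] : 0 ≤ 1 - θ)
    linarith [h.th_K]
  · have h1 := key (fr.N 0 * r (la i)) (mul_nonneg (by linarith [hfr.N_one 0]) (hp _).le)
      (by have := h.r_a i; linarith [mul_assoc K (fr.N 0) (r (la i))])
    have e : K ^ m * fr.N 0 * sh θ n r (la i) = K ^ m * (θ ^ n * (fr.N 0 * r (la i))) := by
      simp only [sh]; ring
    linarith

theorem wt_mono {K K' : ℝ} {w v : Fin 4 → ℝ → ℝ} (h : Wt T K w v) (hK : K ≤ K') : Wt T K' w v :=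
  ⟨h.w_nonneg, h.w_le, fun l t ht => (h.v_le l t ht).trans hK,
    fun i j t ht => (h.v_mul i j t ht).trans
      (mul_le_mul_of_nonneg_right hK (h.w_nonneg _ t ht)),
    fun j t ht => (h.w_down j t ht).trans (mul_le_mul_of_nonneg_right hK (h.w_nonneg _ t ht))⟩

theorem v_nonneg {K : ℝ} {w v : Fin 4 → ℝ → ℝ} (h : Wt T K w v) (l : Fin 4) :
    ∀ t ∈ Set.Ioo 0 T, 0 ≤ v l t := fun t ht => (h.w_nonneg l t ht).trans (h.w_le l t ht)

/-- the wave of level `j` -/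
def Wj (W : Fin 3 → Vec T) (j : Fin 4) : Vec T := ∑ i : Fin 3, if i.succ = j then W i else 0

/-- the rest of the background at level `j` -/
def Qj (W : Fin 3 → Vec T) (Cr : Fin 4 → Vec T) (j l : Fin 4) : Vec T :=
  Cr l + if j < l then Wj W l else 0

theorem wj_zero (W : Fin 3 → Vec T) : Wj W 0 = 0 := by
  simp [Wj, Fin.succ_ne_zero]

theorem wj_succ (W : Fin 3 → Vec T) (i : Fin 3) : Wj W i.succ = W i := by
  simp [Wj, Fin.succ_inj]

theorem regroup (X0 : Vec T) (W : Fin 3 → Vec T) (Cr : Fin 4 → Vec T) (j : Fin 4) :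
    Xb X0 W j + Wj W j + ∑ l, Qj W Cr j l = X0 + ∑ i, W i + ∑ l, Cr l := by
  have h1 : ∑ l, Qj W Cr j l = ∑ l, Cr l + ∑ i : Fin 3, if j < i.succ then W i else 0 := by
    simp only [Qj, Finset.sum_add_distrib]
    congr 1
    rw [Fin.sum_univ_succ, if_neg (Fin.not_lt_zero j), zero_add]
    exact Finset.sum_congr rfl fun i _ => by rw [wj_succ]
  have h2 : ∀ i : Fin 3, W i = (if i.succ < j then W i else 0) + (if i.succ = j then W i else 0) +
      if j < i.succ then W i else 0 := by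
    intro i
    rcases lt_trichotomy i.succ j with h | h | h
    · simp [h, h.ne, not_lt.2 h.le]
    · simp [h]
    · simp [h, h.ne', not_lt.2 h.le]
  have h3 : ∑ i, W i = (∑ i : Fin 3, if i.succ < j then W i else 0) + Wj W j +
      ∑ i : Fin 3, if j < i.succ then W i else 0 := by
    rw [Wj, ← Finset.sum_add_distrib, ← Finset.sum_add_distrib]
    exact Finset.sum_congr rfl fun i _ => h2 i
  rw [h1, h3, Xb]
  abel

theorem xb_zero (X0 : Vec T) (W : Fin 3 → Vec T) : Xb X0 W 0 = X0 := by simp [Xb]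

theorem xb_in {fr : Frame T} {K θ : ℝ} {rlo r : Let → ℝ} {w v : Fin 4 → ℝ → ℝ} {X0 : Vec T}
    {W : Fin 3 → Vec T} {Ji : Fin 4 → A T} (h : Bg fr K θ rlo r w v X0 W Ji) (j : Fin 4) :
    InV j (Xb X0 W j) := by
  intro i
  have e : Xb X0 W j i = X0 i + ∑ a : Fin 3, (if a.succ < j then W a else 0) i := by
    simp only [Xb, Pi.add_apply, Finset.sum_apply]
  rw [e]
  refine in_add (in_mono (Fin.zero_le _) (h.X_in i)) (in_sum _ fun a _ => ?_)
  by_cases ha : a.succ < j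
  · rw [if_pos ha]; exact in_mono ha.le ((h.W_bd a).1 i).1
  · rw [if_neg ha]; exact in_zero

theorem wj_sb {fr : Frame T} (hfr : fr.Ok) {K θ : ℝ} {rlo r : Let → ℝ} {w v : Fin 4 → ℝ → ℝ}
    {X0 : Vec T} {W : Fin 3 → Vec T} {Ji : Fin 4 → A T} (h : Bg fr K θ rlo r w v X0 W Ji)
    (hw : Wt T K w v) (hK : 0 ≤ K) (l : Fin 4) : SB fr r (v l) l K (Wj W l) := by
  refine Fin.cases ?_ (fun i => ?_) l
  · rw [wj_zero]; exact sb_zero hfr (v_nonneg hw 0) hK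
  · rw [wj_succ]; exact h.W_bd i

end KC

open KC in
/-- the update step inside a removal step -/
theorem kill_core (hU : UpdSt) : ∃ C : ℕ, ∀ (T : ℝ) (fr : Frame T) (K θ ε : ℝ)
    (rlo r0 r : Let → ℝ) (w v : Fin 4 → ℝ → ℝ) (X0 : Vec T) (W : Fin 3 → Vec T)
    (Ji : Fin 4 → A T) (Cr : Fin 4 → Vec T) (j : Fin 4) (n : ℕ) (y : ℝ) (c : Fin 4 → ℝ) (Y : Vec T),
    fr.Ok → Reg fr K θ ε r → Wt T K w v → Bg fr K θ rlo r0 w v X0 W Ji → (∀ i, r i ≤ r0 i) →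
    FB fr r v (fun _ => ε) Cr → n ≤ 5 → 0 ≤ y → y ≤ ε → SB fr (sh θ n r) (w j) j y Y →
    RW fr (sh θ n r) w c (web fr (X0 + ∑ i, W i + ∑ l, Cr l) (X0 + ∑ i, W i + ∑ l, Cr l) +
      ((Dm fr (Xb X0 W j))ᵀ *ᵥ dtv Y - (dtm (Dm fr (Xb X0 W j)))ᵀ *ᵥ Y)) →
    RV fr (sh θ n r) w c ((Dm fr (X0 + ∑ i, W i + ∑ l, Cr l)).det - 1 +
      dv fr ((Dm fr (Xb X0 W j)).adjugate *ᵥ Y)) →
    St fr (sh θ 8 r) w (c + up ε j (K ^ C * y)) (X0 + ∑ i, W i + ∑ l, Cr l + Y) := by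
  obtain ⟨C, hC⟩ := hU
  refine ⟨6 * C, ?_⟩
  intro T fr K θ ε rlo r0 r w v X0 W Ji Cr j n y c Y hfr hreg hwt hbg hr0 hCr hn hy0 hy hY hRW hRV
  have hK1 : 1 ≤ K := by linarith [hreg.K_two]
  have hθ : 0 < θ := by linarith [hreg.th_half]
  have hp := reg_pos hfr hreg
  have hreg' : Reg fr (K ^ 6) θ ε (sh θ n r) := reg_sh hfr hreg (by omega)
  have hK6 : K + 1 ≤ K ^ 6 := by
    have h1 : K ^ 2 ≤ K ^ 6 := pow_le_pow_right₀ hK1 (by norm_num)
    nlinarith [hreg.K_two]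
  have hKK : K ≤ K ^ 6 := by linarith
  have h0 : ∀ i, 0 ≤ sh θ n r i := fun i => (sh_pos hθ hp n i).le
  have hle : ∀ i, sh θ n r i ≤ r i := sh_le hθ.le hreg.th_one.le (fun i => (hp i).le) n
  have hle0 : ∀ i, sh θ n r i ≤ r0 i := fun i => (hle i).trans (hr0 i)
  have hQ : FB fr (sh θ n r) v (qq ε (K ^ 6) j) (Qj W Cr j) := by
    intro l
    have h1 : SB fr (sh θ n r) (v l) l ε (Cr l) := sb_mono hfr (hCr l) h0 hle (v_nonneg hwt l) le_rfl
    by_cases hl : j < l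
    · have h2 : SB fr (sh θ n r) (v l) l K (Wj W l) :=
        sb_mono hfr (wj_sb hfr hbg hwt (by linarith) l) h0 hle0 (v_nonneg hwt l) le_rfl
      have h3 := sb_add h1 h2 h0
      simp only [Qj, qq, if_pos hl, if_neg (not_le.2 hl)]
      exact sb_mono hfr h3 h0 (fun _ => le_rfl) (v_nonneg hwt l) (by linarith [hreg.e_one])
    · simp only [Qj, qq, if_neg hl, if_pos (not_lt.1 hl), add_zero]
      exact h1
  have h := hC T fr (K ^ 6) θ ε (sh θ n r) w v j y c (Xb X0 W j) (Wj W j) Y (Qj W Cr j) hfr hreg'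
    (wt_mono hwt hKK) hy0 (by linarith [hreg.e_one]) (fun hj => ⟨by rw [hj, wj_zero], hy⟩)
    (xb_in hbg j) (fun a b => gb_mono (hbg.F_bd j a b) h0 hle0 w1_nonneg hKK)
    (sb_mono hfr (wj_sb hfr hbg hwt (by linarith) j) h0 hle0 (v_nonneg hwt j) hKK) hQ hY
    (by rw [regroup]; exact hRW) (by rw [regroup]; exact hRV)
  rw [regroup, sh_sh, ← pow_mul] at h
  exact st_mono hfr h (fun i => (sh_pos hθ hp 8 i).le)
    (sh_anti hθ.le hreg.th_one.le (fun i => (hp i).le) (by omega)) hwt.w_nonneg fun _ => le_rfl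

end Pool.Agent.Lib.MP_fbbbeb_an.Cas
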