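import Mathlib
import Pool.Agent.Lib.MP_fbbbeb_an.Cas.KillCore
import Pool.Agent.Lib.MP_fbbbeb_an.Cas.Typ
import Pool.Agent.Lib.MP_fbbbeb_an.Cas.EvG

/-! Removal of the mean component of the residual. -/

set_option autoImplicit false

noncomputable section

namespace Pool.Agent.Lib.MP_fbbbeb_an.Cas

open Pool.Agent.Lib.MP_fbbbeb_an.Pub
open scoped ContDiff Topology RealInnerProductSpace Matrix Nat

namespace K0

variable {T : ℝ}

theorem main_web (F : Mat T) (η : Vec T) :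
    Fᵀ *ᵥ dtv (F *ᵥ η) - (dtm F)ᵀ *ᵥ (F *ᵥ η) = gm F *ᵥ dtv η - Bf F *ᵥ η := by
  rw [dtv_mulVec, Matrix.mulVec_add, gm, Bf, Matrix.sub_mulVec]
  simp only [Matrix.mulVec_mulVec]
  abel

theorem main_det (F : Mat T) (η : Vec T) : F.adjugate *ᵥ (F *ᵥ η) = F.det • η := by
  rw [Matrix.mulVec_mulVec, Matrix.adjugate_mul, Matrix.smul_mulVec, Matrix.one_mulVec]

theorem pd_inv {J Ji : A T} (h : Ji * J = 1) (i : Let) : pd i Ji = -(Ji * Ji * pd i J) := by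
  have h1 : pd i (Ji * J) = 0 := by rw [h]; exact (pd i).map_one_eq_zero
  rw [Derivation.leibniz, smul_eq_mul, smul_eq_mul] at h1
  have h2 : pd i Ji = Ji * J * pd i Ji := by rw [h, one_mul]
  linear_combination h2 + Ji * h1

/-- the operator of the base solver -/
def Op (F : Mat T) (Ji : A T) (ζ : Vec T) : Vec T :=
  (Ji • gm F) *ᵥ dtv ζ - (Ji • Bf F + (Ji * Ji * pd lt F.det) • gm F) *ᵥ ζ

theorem op_sub (F : Mat T) (Ji : A T) (U V : Vec T) : Op F Ji (U - V) = Op F Ji U - Op F Ji V := by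
  simp only [Op, dtv_sub, Matrix.mulVec_sub]
  abel

theorem op_eq {F : Mat T} {Ji : A T} (h : Ji * F.det = 1) (U : Vec T) :
    gm F *ᵥ dtv (Ji • U) - Bf F *ᵥ (Ji • U) = Op F Ji U := by
  rw [dtv_smulA, pd_inv h, Op]
  simp only [Matrix.mulVec_add, Matrix.mulVec_smul, Matrix.add_mulVec, Matrix.smul_mulVec]
  funext i
  simp only [Pi.add_apply, Pi.sub_apply, Pi.smul_apply, smul_eq_mul]
  ring

theorem in_mat_mul {l : Fin 4} {F G : Mat T} (hF : ∀ i m, In l (F i m)) (hG : ∀ i m, In l (G i m))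
    (i m : Fin 3) : In l ((F * G) i m) := by
  rw [Matrix.mul_apply]
  exact In.sum _ fun a _ => (hF i a).mul (hG a m)

theorem op_in {F : Mat T} {Ji : A T} {U : Vec T} (hF : ∀ i m, In 0 (F i m)) (hJ : In 0 Ji)
    (hU : InV 0 U) : InV 0 (Op F Ji U) := by
  have hg : ∀ i m, In 0 (gm F i m) := in_mat_mul (fun i m => hF m i) hF
  have ht : ∀ i m, In 0 (dtm F i m) := fun i m => (hF i m).pd lt
  have hB : ∀ i m, In 0 (Bf F i m) := fun i m =>
    (in_mat_mul (fun i m => ht m i) hF i m).sub (in_mat_mul (fun i m => hF m i) ht i m)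
  have h1 : InV 0 ((Ji • gm F) *ᵥ dtv U) :=
    In.mulVec (fun i m => hJ.mul (hg i m)) fun i => (hU i).pd lt
  have h2 : InV 0 ((Ji • Bf F + (Ji * Ji * pd lt F.det) • gm F) *ᵥ U) :=
    In.mulVec (fun i m => (hJ.mul (hB i m)).add
      (((hJ.mul hJ).mul ((In.det hF).pd lt)).mul (hg i m))) hU
  exact fun i => (h1 i).sub (h2 i)

theorem op_eqv {F : Mat T} {Ji : A T} {U : Vec T} (hF : EqvM F) (hJ : InvG Ji) (hU : Eqv U) :
    Eqv (Op F Ji U) :=
  ((hF.gm.smulA hJ).mulVec hU.dtv).sub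
    (((hF.Bf.smulA hJ).add (hF.gm.smulA ((hJ.mul hJ).mul hF.det.pd_t))).mulVec hU)

/-- size of the operator -/
theorem op_bd {fr : Frame T} (hfr : fr.Ok) {K θ ε : ℝ} {r : Let → ℝ} (hreg : Reg fr K θ ε r)
    {F : Mat T} {Ji : A T} {U : Vec T} {w : ℝ → ℝ} {m : ℝ} (hw : ∀ t ∈ Set.Ioo 0 T, 0 ≤ w t)
    (hm : 0 ≤ m) (hF : GBm 0 r w1 K F) (hJ : GB 0 r w1 K Ji) (hU : GBv 1 r w m U) :
    GBv 1 (sh θ 1 r) w (K ^ 32 * m) (Op F Ji U) := by
  have hK2 := hreg.K_two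
  have hK1 : 1 ≤ K := by linarith
  have hK0 : 0 ≤ K := by linarith
  have hθ : 0 < θ := by linarith [hreg.th_half]
  have hp := KC.reg_pos hfr hreg
  have h0 : ∀ i, 0 ≤ sh θ 1 r i := fun i => (KC.sh_pos hθ hp 1 i).le
  have hle : ∀ i, sh θ 1 r i ≤ r i := KC.sh_le hθ.le hreg.th_one.le (fun i => (hp i).le) 1
  have hF1 : GBm 0 (sh θ 1 r) w1 K F := fun i l => (hF i l).monoR h0 hle
  have hJ1 : GB 0 (sh θ 1 r) w1 K Ji := hJ.monoR h0 hle
  have hU1 : GBv 1 (sh θ 1 r) w m U := fun i => (hU i).monoR h0 hle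
  have hFt : GBm 0 (sh θ 1 r) w1 (K ^ 5 * K) (dtm F) := fun i l =>
    hreg.pd_t hfr (fun t _ => by simp only [w1]; positivity) (hF i l)
  have hUt : GBv 1 (sh θ 1 r) w (K ^ 5 * m) (dtv U) := fun i =>
    hreg.pd_t hfr (fun t ht => mul_nonneg hm (hw t ht)) (hU i)
  have hdt : GB 0 (sh θ 1 r) w1 (K ^ 5 * (54 * K ^ 3)) (pd lt F.det) :=
    hreg.pd_t hfr (fun t _ => by simp only [w1]; positivity) (GBm.det (fun i => (hp i).le) hF)
  have hg : GBm 0 (sh θ 1 r) w1 (9 * (K * K)) (gm F) := by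
    have := GBm.mul h0 hF1.transpose hF1
    rwa [w1_mul] at this
  have hB : GBm 0 (sh θ 1 r) w1 (9 * (K ^ 5 * K * K) + 9 * (K * (K ^ 5 * K))) (Bf F) := by
    have h1 := GBm.mul h0 hFt.transpose hF1
    have h2 := GBm.mul h0 hF1.transpose hFt
    rw [w1_mul] at h1 h2
    exact GBm.sub h0 h1 h2
  have h1 := GB.smulm h0 hJ1 hg
  have h2 := GB.smulm h0 hJ1 hB
  have h3 := GB.smulm h0 (GB.mul1 h0 (GB.mul1 h0 hJ1 hJ1) hdt) hg
  rw [w1_mul] at h1 h2 h3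
  have h4 := GBm.mulVec h0 h1 hUt
  have h5 := GBm.mulVec h0 (GBm.add h0 h2 h3) hU1
  rw [w1_mul] at h4 h5
  have h6 := GBv.sub h0 h4 h5
  refine fun i => (h6 i).monoM hw ?_
  have e : 9 * (3 * (K * (9 * (K * K))) * (K ^ 5 * m)) +
      9 * ((3 * (K * (9 * (K ^ 5 * K * K) + 9 * (K * (K ^ 5 * K)))) +
        3 * (3 * (3 * (K * K) * (K ^ 5 * (54 * K ^ 3))) * (9 * (K * K)))) * m) =
      (729 * K ^ 8 + 118098 * K ^ 12) * m := by ring
  rw [e]
  refine mul_le_mul_of_nonneg_right ?_ hm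
  have a1 : K ^ 8 ≤ K ^ 12 := pow_le_pow_right₀ hK1 (by norm_num)
  have a2 : (2 : ℝ) ^ 20 ≤ K ^ 20 := pow_le_pow_left₀ (by norm_num) hK2 20
  have a3 : K ^ 32 = K ^ 20 * K ^ 12 := by ring
  have a4 : 0 ≤ K ^ 12 := by positivity
  nlinarith

end K0

open K0 in
theorem kill0St (hU : UpdSt) (hS : SymSt) : Kill0St := by
  obtain ⟨C, hC⟩ := kill_core hU
  refine ⟨C + 44, ?_⟩
  intro T fr K θ ε rlo r0 r w v X0 W Ji Cr c hfr hreg hwt hbg hra hr0 hrlo hCr hCe hc hsm hst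
  have hK2 := hreg.K_two
  have hK1 : 1 ≤ K := by linarith
  have hK0 : 0 ≤ K := by linarith
  have hθ : 0 < θ := by linarith [hreg.th_half]
  have hθ1 := hreg.th_one.le
  have hε := hreg.e_pos
  have hp := KC.reg_pos hfr hreg
  have hp0 : ∀ i, 0 ≤ r i := fun i => (hp i).le
  have hN : 0 < fr.N 0 := by linarith [hfr.N_one 0]
  have hsh0 : ∀ n i, 0 ≤ sh θ n r i := fun n i => (KC.sh_pos hθ hp n i).le
  have hshle : ∀ n i, sh θ n r i ≤ r i := fun n => KC.sh_le hθ.le hθ1 hp0 n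
  have hXe : Eqv (X0 + ∑ i, W i + ∑ l, Cr l) :=
    (hbg.X_eqv.add (Eqv.sum _ fun i _ => hbg.W_eqv i)).add (Eqv.sum _ fun l _ => hCe l)
  obtain ⟨R1, R2, hR1, hR2, hE1, hE2, hcl, hdet⟩ := hS T fr r w c _ hfr hra hp0 hXe hst
  set F : Mat T := Dm fr X0 with hFdef
  have hJm : Ji 0 * F.det = 1 := by have := hbg.J_mul 0; rwa [KC.xb_zero] at this
  have hF : GBm 0 r w1 K F := fun i l => by
    have := hbg.F_bd 0 i l
    rw [KC.xb_zero] at this
    exact this.monoR hp0 hr0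
  have hJ : GB 0 r w1 K (Ji 0) := (hbg.J_bd 0).monoR hp0 hr0
  have hFin : ∀ i l, In 0 (F i l) := fun i l => In.D hfr l (hbg.X_in i)
  have hJin : In 0 (Ji 0) := (In.det hFin).of_mul_eq_one hJm
  have hFe : EqvM F := hbg.X_eqv.Dm hfr
  have hJe : InvG (Ji 0) := hFe.det.of_mul_eq_one hJm
  set m : ℝ := c 0 / fr.N 0 with hmdef
  have hm : 0 ≤ m := div_nonneg (hc 0) hN.le
  have hw0 := hwt.w_nonneg 0
  have hR1in : InV 0 (R1 0) := fun i => ((hR1 0).1 i).1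
  have hR2in : InV 0 (R2 0) := fun i => ((hR2 0).1 i).1
  -- the source
  have hf : GBv 1 (sh θ 1 r) (w 0) (K ^ 33 * m) (Op F (Ji 0) (R2 0) - R1 0) := by
    have h1 := op_bd hfr hreg hw0 hm hF hJ (hR2 0).2
    have h2 : GBv 1 (sh θ 1 r) (w 0) m (R1 0) := fun i => ((hR1 0).2 i).monoR (hsh0 1) (hshle 1)
    refine fun i => (GBv.sub (hsh0 1) h1 h2 i).monoM hw0 ?_
    have a1 : 1 ≤ K ^ 32 := one_le_pow₀ hK1
    have a2 : K ^ 33 = K * K ^ 32 := by ring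
    have a3 : K ^ 32 + 1 ≤ K ^ 33 := by nlinarith
    nlinarith
  obtain ⟨ζ, q, e, heq, hdv, hζin, hqin, hein, hζe, hζ, he⟩ := hbg.solv0 (sh θ 1 r)
    (fun i => (hrlo i).trans (KC.sh_anti hθ.le hθ1 hp0 (by norm_num) i))
    (fun i => (hshle 1 i).trans (hr0 i)) (K ^ 33 * m) ε (by positivity) hε
    (Op F (Ji 0) (R2 0) - R1 0)
    (fun i => (op_in hFin hJin hR2in i).sub (hR1in i))
    ((op_eqv hFe hJe (hE2 0)).sub (hE1 0)) hf
  rw [KC.sh_sh] at hζ he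
  have heq' : Op F (Ji 0) ζ - (Op F (Ji 0) (R2 0) - R1 0) = gr0 q + e := heq
  -- the correction
  set Y : Vec T := F *ᵥ (Ji 0 • (ζ - R2 0)) with hYdef
  have hYe : Eqv Y := hFe.mulVec ((hζe.sub (hE2 0)).smulA hJe)
  have hYin : InV 0 Y := In.mulVec hFin fun i => hJin.mul ((hζin i).sub (hR2in i))
  have hYb : GBv 1 (sh θ 2 r) (w 0) (K ^ 42 * m) Y := by
    have h1 : GBv 1 (sh θ 2 r) (w 0) m (R2 0) := fun i => ((hR2 0).2 i).monoR (hsh0 2) (hshle 2)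
    have h2 := GB.smulv (hsh0 2) (hJ.monoR (hsh0 2) (hshle 2)) (GBv.sub (hsh0 2) hζ h1)
    rw [w1_mul] at h2
    have h3 := GBm.mulVec (hsh0 2) (fun i l => (hF i l).monoR (hsh0 2) (hshle 2)) h2
    rw [w1_mul] at h3
    refine fun i => (h3 i).monoM hw0 ?_
    have e1 : 9 * (K * (3 * (K * (K * (K ^ 33 * m) + m)))) = (27 * K ^ 36 + 27 * K ^ 2) * m := by ring
    rw [e1]
    refine mul_le_mul_of_nonneg_right ?_ hm
    have a1 : K ^ 2 ≤ K ^ 36 := pow_le_pow_right₀ hK1 (by norm_num)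
    have a2 : (2 : ℝ) ^ 6 ≤ K ^ 6 := pow_le_pow_left₀ (by norm_num) hK2 6
    have a3 : K ^ 42 = K ^ 6 * K ^ 36 := by ring
    have a4 : 0 ≤ K ^ 36 := by positivity
    nlinarith
  have hYs : SB fr (sh θ 2 r) (w 0) 0 (K ^ 42 * c 0) Y :=
    ⟨fun i => Ty.of_in_zero hfr (hYin i), by rw [mul_div_assoc]; exact hYb⟩
  have hpow : ∀ n, n ≤ C + 44 → K ^ n * c 0 ≤ K ^ (C + 44) * c 0 := fun n hn =>
    mul_le_mul_of_nonneg_right (pow_le_pow_right₀ hK1 hn) (hc 0)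
  -- the new residual before the update
  set c' : Fin 4 → ℝ := fun l => if l = 0 then ε * (K ^ 33 * c 0) else c l with hc'
  have hup : ∀ (R : Fin 4 → Vec T) (V : Vec T), FB fr r w c R →
      SB fr (sh θ 2 r) (w 0) 0 (ε * (K ^ 33 * c 0)) V →
      FB fr (sh θ 2 r) w c' (Function.update R 0 V) := by
    intro R V hR hV l
    by_cases hl : l = 0
    · subst hl
      simpa [hc'] using hV
    · rw [Function.update_of_ne hl]
      simp only [hc', if_neg hl]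
      exact KC.sb_mono hfr (hR l) (hsh0 2) (hshle 2) (hwt.w_nonneg l) le_rfl
  have hsum : ∀ (R : Fin 4 → Vec T) (V : Vec T),
      ∑ l, Function.update R 0 V l = ∑ l, R l - R 0 + V := by
    intro R V
    rw [Fin.sum_univ_succ, Fin.sum_univ_succ R, Function.update_self]
    have : ∑ i : Fin 3, Function.update R 0 V i.succ = ∑ i : Fin 3, R i.succ :=
      Finset.sum_congr rfl fun i _ => Function.update_of_ne (Fin.succ_ne_zero i) _ _
    rw [this]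
    abel
  have hes : SB fr (sh θ 2 r) (w 0) 0 (ε * (K ^ 33 * c 0)) e :=
    ⟨fun i => Ty.of_in_zero hfr (hein i), by rw [mul_div_assoc, mul_div_assoc]; exact he⟩
  have hRW : RW fr (sh θ 2 r) w c'
      (web fr (X0 + ∑ i, W i + ∑ l, Cr l) (X0 + ∑ i, W i + ∑ l, Cr l) +
        ((Dm fr (Xb X0 W 0))ᵀ *ᵥ dtv Y - (dtm (Dm fr (Xb X0 W 0)))ᵀ *ᵥ Y)) := by
    refine ⟨Function.update R1 0 e, hup R1 e hR1 hes, ?_⟩
    rw [KC.xb_zero, ← hFdef, hYdef, main_web, op_eq hJm, op_sub, hsum]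
    have h1 := hcl.add (closed_gr hfr q)
    rw [In.gr_zero fr hqin] at h1
    have h2 : gr0 q = Op F (Ji 0) ζ - (Op F (Ji 0) (R2 0) - R1 0) - e := by rw [heq']; abel
    rw [h2] at h1
    convert h1 using 1
    abel
  have hRV : RV fr (sh θ 2 r) w c' ((Dm fr (X0 + ∑ i, W i + ∑ l, Cr l)).det - 1 +
      dv fr ((Dm fr (Xb X0 W 0)).adjugate *ᵥ Y)) := by
    refine ⟨Function.update R2 0 0,
      hup R2 0 hR2 (KC.sb_zero hfr hw0 (mul_nonneg hε.le (mul_nonneg (by positivity) (hc 0)))), ?_⟩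
    rw [KC.xb_zero, ← hFdef, hYdef, main_det, smul_smul, mul_comm F.det, hJm, one_smul, hsum, hdet,
      add_zero, dv_sub, dv_sub, InV.dv_zero fr hζin, hdv]
    abel
  have h := hC T fr K θ ε rlo r0 r w v X0 W Ji Cr 0 2 (K ^ 42 * c 0) c' Y hfr hreg hwt hbg hr0 hCr
    (by norm_num) (mul_nonneg (by positivity) (hc 0)) ((hpow 42 (by omega)).trans hsm) hYs hRW hRV
  refine ⟨Y, hYe, KC.sb_mono hfr hYs (hsh0 8) (KC.sh_anti hθ.le hθ1 hp0 (by norm_num)) hw0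
    (hpow 42 (by omega)), KC.st_mono hfr h (hsh0 8) (fun _ => le_rfl) hwt.w_nonneg fun l => ?_⟩
  have b1 : K ^ C * (K ^ 42 * c 0) = K ^ (C + 42) * c 0 := by rw [pow_add]; ring
  have b2 : K ^ 33 * c 0 ≤ K ^ (C + 42) * c 0 :=
    mul_le_mul_of_nonneg_right (pow_le_pow_right₀ hK1 (by omega)) (hc 0)
  have b3 : K ^ (C + 44) * c 0 = K ^ 2 * (K ^ (C + 42) * c 0) := by
    rw [show C + 44 = 2 + (C + 42) by omega, pow_add]; ring
  have b4 : 0 ≤ K ^ (C + 42) * c 0 := mul_nonneg (by positivity) (hc 0)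
  have b5 : 2 * (K ^ (C + 42) * c 0) ≤ K ^ (C + 44) * c 0 := by
    rw [b3]; exact mul_le_mul_of_nonneg_right (by nlinarith) b4
  by_cases hl : l = 0
  · subst hl
    simp only [Pi.add_apply, hc', up, if_true, le_refl, zero_add, b1]
    nlinarith
  · have hl' : ¬ l ≤ 0 := fun h => hl (le_antisymm h (Fin.zero_le _))
    simp only [Pi.add_apply, hc', up, if_neg hl, if_neg hl', b1]
    linarith

end Pool.Agent.Lib.MP_fbbbeb_an.Cas
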