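import Mathlib
import Pool.Agent.Lib.MP_fbbbeb_an.Cas.Kill0

/-! Removal of an oscillating component of the residual. -/

set_option autoImplicit false

noncomputable section

namespace Pool.Agent.Lib.MP_fbbbeb_an.Cas

open Pool.Agent.Lib.MP_fbbbeb_an.Pub
open scoped ContDiff Topology RealInnerProductSpace Matrix Nat

namespace KP

variable {T : ℝ}

theorem ty_op {fr : Frame T} (hfr : fr.Ok) {l : Fin 4} {F : Mat T} {Ji : A T} {U : Vec T}
    (hF : ∀ i m, In l (F i m)) (hJ : In l Ji) (hU : Tyv fr l U) : Tyv fr l (K0.Op F Ji U) := by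
  have hg : ∀ i m, In l (gm F i m) := K0.in_mat_mul (fun i m => hF m i) hF
  have ht : ∀ i m, In l (dtm F i m) := fun i m => (hF i m).pd lt
  have hB : ∀ i m, In l (Bf F i m) := fun i m =>
    (K0.in_mat_mul (fun i m => ht m i) hF i m).sub (K0.in_mat_mul (fun i m => hF m i) ht i m)
  exact (Tyv.mulVec (fun i m => hJ.mul (hg i m)) (hU.dtv hfr)).sub
    (Tyv.mulVec (fun i m => (hJ.mul (hB i m)).add
      (((hJ.mul hJ).mul ((In.det hF).pd lt)).mul (hg i m))) hU)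

theorem ty_cross {fr : Frame T} {l : Fin 4} {U V : Vec T} (hU : Tyv fr l U) (hV : InV l V) :
    Tyv fr l (crossProduct U V) := by
  intro i
  rw [cross_apply]
  fin_cases i
  · exact ((hU 1).mul_right (hV 2)).sub ((hU 2).mul_right (hV 1))
  · exact ((hU 2).mul_right (hV 0)).sub ((hU 0).mul_right (hV 2))
  · exact ((hU 0).mul_right (hV 1)).sub ((hU 1).mul_right (hV 0))

theorem eq_cross {fr : Frame T} (hfr : fr.Ok) (j : Fin 3) {ζ : Vec T} (hζ : Tyv fr j.succ ζ)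
    (hk : fr.k j ⬝ᵥ ζ = 0) (J : A T) :
    fr.N j.succ • crossProduct (fr.k j)
      ((fr.N j.succ)⁻¹ • ((J * fr.ki j) • crossProduct ζ (fr.k j))) = J • ζ := by
  have hN : fr.N j.succ ≠ 0 := by linarith [hfr.N_one j.succ]
  rw [LinearMap.map_smul_of_tower, smul_smul, mul_inv_cancel₀ hN, one_smul, map_smul,
    cross_cross_eq_smul_sub_smul', dotProduct_comm ζ, hk, zero_smul, sub_zero]
  funext i
  have h1 := hfr.ki_mul j
  have h2 := (hζ i).vp_mul hfr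
  simp only [Pi.smul_apply, smul_eq_mul]
  linear_combination (J * ζ i) * h1 - (J * fr.ki j) * h2

theorem sum_update (R : Fin 4 → Vec T) (l : Fin 4) (V : Vec T) :
    ∑ a, Function.update R l V a = ∑ a, R a - R l + V := by
  rw [Finset.sum_update_of_mem (Finset.mem_univ l), Finset.sdiff_singleton_eq_erase,
    ← Finset.add_sum_erase Finset.univ R (Finset.mem_univ l)]
  abel

end KP

open K0 KP in
theorem killPSt (hRed : RedSt) (hU : UpdSt) (hS : SymSt) : KillPSt := by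
  obtain ⟨C, hC⟩ := kill_core hU
  obtain ⟨Cd, hCd⟩ := hRed
  refine ⟨C + 2 * Cd + 53, fun j => ?_⟩
  intro T fr K θ ε rlo r0 r w v X0 W Ji Cr c hfr hreg hwt hbg hra hr0 _ hCr hCe hc hsm hst
  have hK2 := hreg.K_two
  have hK1 : 1 ≤ K := by linarith
  have hK0 : 0 ≤ K := by linarith
  have hθ : 0 < θ := by linarith [hreg.th_half]
  have hθ1 := hreg.th_one.le
  have hε := hreg.e_pos
  have hp := KC.reg_pos hfr hreg
  have hp0 : ∀ i, 0 ≤ r i := fun i => (hp i).le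
  have hN : 0 < fr.N j.succ := by linarith [hfr.N_one j.succ]
  have hsh0 : ∀ n i, 0 ≤ sh θ n r i := fun n i => (KC.sh_pos hθ hp n i).le
  have hshle : ∀ n i, sh θ n r i ≤ r i := fun n => KC.sh_le hθ.le hθ1 hp0 n
  have h21 : ∀ i, sh θ 2 r i ≤ sh θ 1 r i := KC.sh_anti hθ.le hθ1 hp0 (by norm_num)
  have hXe : Eqv (X0 + ∑ i, W i + ∑ l, Cr l) :=
    (hbg.X_eqv.add (Eqv.sum _ fun i _ => hbg.W_eqv i)).add (Eqv.sum _ fun l _ => hCe l)
  obtain ⟨R1, R2, hR1, hR2, hE1, hE2, hcl, hdet⟩ := hS T fr r w c _ hfr hra hp0 hXe hst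
  set F : Mat T := Dm fr (Xb X0 W j.succ) with hFdef
  have hJm : Ji j.succ * F.det = 1 := hbg.J_mul j.succ
  have hF : GBm 0 r w1 K F := fun i l => (hbg.F_bd j.succ i l).monoR hp0 hr0
  have hJ : GB 0 r w1 K (Ji j.succ) := (hbg.J_bd j.succ).monoR hp0 hr0
  have hFin : ∀ i l, In j.succ (F i l) := fun i l => In.D hfr l (KC.xb_in hbg j.succ i)
  have hJin : In j.succ (Ji j.succ) := (In.det hFin).of_mul_eq_one hJm
  have hXbe : Eqv (Xb X0 W j.succ) := hbg.X_eqv.add (Eqv.sum _ fun i _ => by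
    by_cases h : i.succ < j.succ
    · rw [if_pos h]; exact hbg.W_eqv i
    · rw [if_neg h]; exact Eqv.zero)
  have hFe : EqvM F := hXbe.Dm hfr
  have hJe : InvG (Ji j.succ) := hFe.det.of_mul_eq_one hJm
  set m : ℝ := c j.succ / fr.N j.succ with hmdef
  have hcj := hc j.succ
  have hm : 0 ≤ m := div_nonneg hcj hN.le
  have hw0 := hwt.w_nonneg j.succ
  -- the source
  have hf : GBv 1 (sh θ 1 r) (w j.succ) (K ^ 33 * m) (Op F (Ji j.succ) (R2 j.succ) - R1 j.succ) := by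
    have h1 := op_bd hfr hreg hw0 hm hF hJ (hR2 j.succ).2
    have h2 : GBv 1 (sh θ 1 r) (w j.succ) m (R1 j.succ) :=
      fun i => ((hR1 j.succ).2 i).monoR (hsh0 1) (hshle 1)
    refine fun i => (GBv.sub (hsh0 1) h1 h2 i).monoM hw0 ?_
    have a1 : 1 ≤ K ^ 32 := one_le_pow₀ hK1
    have a2 : K ^ 33 = K * K ^ 32 := by ring
    have a3 : K ^ 32 + 1 ≤ K ^ 33 := by nlinarith
    nlinarith
  obtain ⟨ζ, s, e, heq, hkζ, hζty, hsty, hety, hζe, -, hζ, -, hs, he, -⟩ := hbg.solv j (sh θ 1 r)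
    (KC.sh_pos hθ hp 1) (fun i => (hshle 1 i).trans (hr0 i)) (K ^ 33 * m) ε (by positivity) hε
    (Op F (Ji j.succ) (R2 j.succ) - R1 j.succ)
    ((ty_op hfr hFin hJin (hR2 j.succ).1).sub (hR1 j.succ).1)
    ((op_eqv hFe hJe (hE2 j.succ)).sub (hE1 j.succ)) hf
  rw [← hFdef] at heq
  -- the correction
  set Y : Vec T := F *ᵥ (ζ - Ji j.succ • R2 j.succ) with hYdef
  have hYe : Eqv Y := hFe.mulVec (hζe.sub ((hE2 j.succ).smulA hJe))
  have hYty : Tyv fr j.succ Y := Tyv.mulVec hFin (hζty.sub (Tyv.smulA hJin (hR2 j.succ).1))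
  have hF1 : GBm 0 (sh θ 1 r) w1 K F := fun i l => (hF i l).monoR (hsh0 1) (hshle 1)
  have hYb : GBv 1 (sh θ 1 r) (w j.succ) (K ^ 42 * m) Y := by
    have h1 : GBv 1 (sh θ 1 r) (w j.succ) m (R2 j.succ) :=
      fun i => ((hR2 j.succ).2 i).monoR (hsh0 1) (hshle 1)
    have h2 := GB.smulv (hsh0 1) (hJ.monoR (hsh0 1) (hshle 1)) h1
    rw [w1_mul] at h2
    have h3 := GBm.mulVec (hsh0 1) hF1 (GBv.sub (hsh0 1) hζ h2)
    rw [w1_mul] at h3
    refine fun i => (h3 i).monoM hw0 ?_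
    have e1 : 9 * (K * (K * (K ^ 33 * m) + 3 * (K * m))) = (9 * K ^ 35 + 27 * K ^ 2) * m := by ring
    rw [e1]
    refine mul_le_mul_of_nonneg_right ?_ hm
    have a1 : K ^ 2 ≤ K ^ 35 := pow_le_pow_right₀ hK1 (by norm_num)
    have a2 : (2 : ℝ) ^ 7 ≤ K ^ 7 := pow_le_pow_left₀ (by norm_num) hK2 7
    have a3 : K ^ 42 = K ^ 7 * K ^ 35 := by ring
    have a4 : 0 ≤ K ^ 35 := by positivity
    nlinarith
  have hYs : SB fr (sh θ 2 r) (w j.succ) j.succ (K ^ 42 * c j.succ) Y :=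
    ⟨hYty, fun i => by rw [mul_div_assoc]; exact (hYb i).monoR (hsh0 2) h21⟩
  have hpow : ∀ n n', n ≤ n' → K ^ n * c j.succ ≤ K ^ n' * c j.succ := fun n n' hn =>
    mul_le_mul_of_nonneg_right (pow_le_pow_right₀ hK1 hn) hcj
  -- the two reductions
  have hreg1 : Reg fr (K ^ 2) θ ε (sh θ 1 r) := KC.reg_sh hfr hreg (by norm_num)
  have hwt1 : Wt T (K ^ 2) w v := KC.wt_mono hwt (le_self_pow₀ hK1 (by norm_num))
  obtain ⟨hRd1, hRd2⟩ := hCd T fr (K ^ 2) θ ε (sh θ 1 r) w v j (K ^ 51 * c j.succ) hfr hreg1 hwt1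
    (by positivity)
  have hsz : ∀ x : ℝ, x ≤ K ^ 51 →
      |(fr.N j.succ)⁻¹| * (x * m) ≤ K ^ 51 * c j.succ / fr.N j.succ ^ 2 := by
    intro x hx
    rw [abs_of_pos (inv_pos.2 hN)]
    have e1 : K ^ 51 * c j.succ / fr.N j.succ ^ 2 = (fr.N j.succ)⁻¹ * (K ^ 51 * m) := by
      rw [hmdef]; field_simp
    rw [e1]
    exact mul_le_mul_of_nonneg_left (mul_le_mul_of_nonneg_right hx hm) (inv_pos.2 hN).le
  have hr1 := hRd1 ((fr.N j.succ)⁻¹ • s) (hsty.smul _) ((hs.smul _).monoM hw0 (by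
    have := hsz (K ^ 34) (pow_le_pow_right₀ hK1 (by norm_num))
    have e1 : K * (K ^ 33 * m) = K ^ 34 * m := by ring
    rw [e1]; exact this))
  rw [smul_smul, mul_inv_cancel₀ hN.ne', one_smul, KC.sh_sh, ← pow_mul] at hr1
  have hUb : GBv 2 (sh θ 1 r) (w j.succ) (K ^ 51 * c j.succ / fr.N j.succ ^ 2)
      ((fr.N j.succ)⁻¹ • ((F.det * fr.ki j) • crossProduct ζ (fr.k j))) := by
    have h1 := GB.mul1 (hsh0 1) (GBm.det (hsh0 1) hF1) ((hreg.ki_bd j).monoR (hsh0 1) (hshle 1))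
    have h2 := GBv.cross (hsh0 1) hζ (fun i => (hreg.k_bd j i).monoR (hsh0 1) (hshle 1))
    rw [mul_w1] at h2
    have h3 := GB.smulv (hsh0 1) h1 h2
    rw [w1_mul] at h3
    refine fun i => ((h3.smul _ i).monoM hw0 ?_).cast (by norm_num)
    have e1 : 3 * (3 * (54 * K ^ 3 * K) * (6 * (K * (K ^ 33 * m) * K))) = 2916 * K ^ 39 * m := by ring
    rw [e1]
    refine hsz _ ?_
    have a2 : (2 : ℝ) ^ 12 ≤ K ^ 12 := pow_le_pow_left₀ (by norm_num) hK2 12
    have a3 : K ^ 51 = K ^ 12 * K ^ 39 := by ring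
    have a4 : 0 ≤ K ^ 39 := by positivity
    nlinarith
  have hUty : Tyv fr j.succ ((fr.N j.succ)⁻¹ • ((F.det * fr.ki j) • crossProduct ζ (fr.k j))) :=
    fun i => (Tyv.smulA ((In.det hFin).mul (In.ki hfr j))
      (ty_cross hζty fun a => In.k hfr j a) i).smul _
  have hr2 := hRd2 _ hUty hUb
  rw [eq_cross hfr j hζty hkζ, KC.sh_sh, ← pow_mul] at hr2
  -- the new residual before the update
  set c' : Fin 4 → ℝ := fun l => if l = j.succ then ε * (K ^ 33 * c j.succ) else c l with hc'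
  have hup : ∀ (R : Fin 4 → Vec T) (V : Vec T), FB fr r w c R →
      SB fr (sh θ 2 r) (w j.succ) j.succ (ε * (K ^ 33 * c j.succ)) V →
      FB fr (sh θ 2 r) w c' (Function.update R j.succ V) := by
    intro R V hR hV l
    by_cases hl : l = j.succ
    · subst hl
      simpa [hc'] using hV
    · rw [Function.update_of_ne hl]
      simp only [hc', if_neg hl]
      exact KC.sb_mono hfr (hR l) (hsh0 2) (hshle 2) (hwt.w_nonneg l) le_rfl
  have hes : SB fr (sh θ 2 r) (w j.succ) j.succ (ε * (K ^ 33 * c j.succ)) e :=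
    ⟨hety, fun i => by rw [mul_div_assoc, mul_div_assoc]; exact (he i).monoR (hsh0 2) h21⟩
  have hRW : RW fr (sh θ 2 r) w (c' + fun _ => ε * (K ^ (2 * Cd) * (K ^ 51 * c j.succ)))
      (web fr (X0 + ∑ i, W i + ∑ l, Cr l) (X0 + ∑ i, W i + ∑ l, Cr l) +
        (Fᵀ *ᵥ dtv Y - (dtm F)ᵀ *ᵥ Y)) := by
    have h1 : RW fr (sh θ 2 r) w c' (∑ l, Function.update R1 j.succ e l) :=
      ⟨_, hup R1 e hR1 hes, by rw [sub_self]; exact Closed.zero⟩
    refine (RW.add (hsh0 2) h1 hr1).congr ?_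
    rw [hYdef, main_web, dtv_sub, Matrix.mulVec_sub, Matrix.mulVec_sub, sum_update]
    have h2 := op_eq hJm (R2 j.succ)
    have h3 : s • fr.k j = gm F *ᵥ dtv ζ - Bf F *ᵥ ζ -
        (Op F (Ji j.succ) (R2 j.succ) - R1 j.succ) - e := by rw [heq]; abel
    rw [h3, ← h2]
    convert hcl using 1
    abel
  have hRV : RV fr (sh θ 2 r) w (c' + fun _ => ε * (K ^ (2 * Cd) * (K ^ 51 * c j.succ)))
      ((Dm fr (X0 + ∑ i, W i + ∑ l, Cr l)).det - 1 + dv fr (F.adjugate *ᵥ Y)) := by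
    have h1 : RV fr (sh θ 2 r) w c' (dv fr (∑ l, Function.update R2 j.succ 0 l)) :=
      ⟨_, hup R2 0 hR2 (KC.sb_zero hfr hw0 (by positivity)), rfl⟩
    have h2 := RV.add (hsh0 2) h1 hr2
    rw [hYdef, main_det, smul_sub, smul_smul, mul_comm F.det (Ji j.succ), hJm, one_smul, hdet, dv_sub]
    rw [sum_update, add_zero, dv_sub] at h2
    convert h2 using 1
    abel
  have h := hC T fr K θ ε rlo r0 r w v X0 W Ji Cr j.succ 2 (K ^ 42 * c j.succ) _ Y hfr hreg hwt hbg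
    hr0 hCr (by norm_num) (by positivity) ((hpow 42 _ (by omega)).trans hsm) hYs hRW hRV
  refine ⟨Y, hYe, KC.sb_mono hfr hYs (hsh0 8) (KC.sh_anti hθ.le hθ1 hp0 (by norm_num)) hw0
    (hpow 42 _ (by omega)), KC.st_mono hfr h (hsh0 8) (fun _ => le_rfl) hwt.w_nonneg fun l => ?_⟩
  set x : ℝ := K ^ (C + 2 * Cd + 51) * c j.succ with hx
  have b0 : 0 ≤ x := by positivity
  have b1 : K ^ C * (K ^ 42 * c j.succ) ≤ x := by
    rw [← mul_assoc, ← pow_add]; exact hpow _ _ (by omega)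
  have b2 : K ^ 33 * c j.succ ≤ x := hpow _ _ (by omega)
  have b3 : K ^ (2 * Cd) * (K ^ 51 * c j.succ) ≤ x := by
    rw [← mul_assoc, ← pow_add]; exact hpow _ _ (by omega)
  have b4 : 4 * x ≤ K ^ (C + 2 * Cd + 53) * c j.succ := by
    have e1 : K ^ (C + 2 * Cd + 53) * c j.succ = K ^ 2 * x := by
      rw [hx, show C + 2 * Cd + 53 = 2 + (C + 2 * Cd + 51) by omega, pow_add]; ring
    rw [e1]; exact mul_le_mul_of_nonneg_right (by nlinarith) b0
  have d1 := mul_le_mul_of_nonneg_left b1 hε.le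
  have d2 := mul_le_mul_of_nonneg_left b2 hε.le
  have d3 := mul_le_mul_of_nonneg_left b3 hε.le
  have d4 := mul_le_mul_of_nonneg_left b4 hε.le
  have d5 : ε * x ≤ x := mul_le_of_le_one_left b0 hreg.e_one
  have d6 : 0 ≤ ε * x := mul_nonneg hε.le b0
  simp only [Pi.add_apply, hc', up]
  split_ifs <;> linarith

end Pool.Agent.Lib.MP_fbbbeb_an.Cas
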