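import Mathlib
import Pool.Agent.Lib.MP_fbbbeb_an.Cas.Defs

/-! Mean and primitive in a phase. -/

set_option autoImplicit false

noncomputable section

namespace Pool.Agent.Lib.MP_fbbbeb_an.Cas

open Pool.Agent.Lib.MP_fbbbeb_an.Pub
open scoped ContDiff Topology RealInnerProductSpace Matrix Nat

variable {T : ℝ}

namespace Spl

open MeasureTheory

section
variable {U : Set Pt} {v : Pt} {κ : ℝ → ℝ} {a b : ℝ}

theorem cont_line {V : Type} [NormedAddCommGroup V] [NormedSpace ℝ V] {G : Pt → V}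
    (hG : ContinuousOn G U) (hs : ∀ z ∈ U, ∀ s : ℝ, z + s • v ∈ U) {z : Pt} (hz : z ∈ U) :
    Continuous fun s : ℝ => G (z + s • v) :=
  hG.comp_continuous (by fun_prop) fun s => hs z hz s

theorem hasF {V : Type} [NormedAddCommGroup V] [NormedSpace ℝ V] [CompleteSpace V]
    (hU : IsOpen U) (hs : ∀ z ∈ U, ∀ s : ℝ, z + s • v ∈ U) (hκ : Continuous κ) {G : Pt → V}
    (hG : ContDiffOn ℝ ∞ G U) {z : Pt} (hz : z ∈ U) :
    HasFDerivAt (fun y => ∫ s in a..b, κ s • G (y + s • v))
      (∫ s in a..b, κ s • fderiv ℝ G (z + s • v)) z := by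
  obtain ⟨e, he, hsub⟩ := Metric.nhds_basis_closedBall.mem_iff.1 (hU.mem_nhds hz)
  have hG0 : ContinuousOn G U := hG.continuousOn
  have hG1 : ContinuousOn (fderiv ℝ G) U := hG.continuousOn_fderiv_of_isOpen hU (by simp)
  have hK : IsCompact (Metric.closedBall z e ×ˢ Set.uIcc a b) :=
    (isCompact_closedBall z e).prod isCompact_uIcc
  have hΦ : ContinuousOn (fun p : Pt × ℝ => κ p.2 • fderiv ℝ G (p.1 + p.2 • v))
      (Metric.closedBall z e ×ˢ Set.uIcc a b) :=
    (hκ.comp continuous_snd).continuousOn.smul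
      (hG1.comp (by fun_prop) fun p hp => hs p.1 (hsub hp.1) p.2)
  obtain ⟨C, hC⟩ := hK.exists_bound_of_continuousOn hΦ
  refine intervalIntegral.hasFDerivAt_integral_of_dominated_of_fderiv_le (𝕜 := ℝ)
    (F := fun y s => κ s • G (y + s • v)) (F' := fun y s => κ s • fderiv ℝ G (y + s • v))
    (bound := fun _ => C) (Metric.closedBall_mem_nhds z he) ?_ ?_ ?_ ?_ ?_ ?_
  · exact Filter.eventually_of_mem (hU.mem_nhds hz) fun y hy =>
      (hκ.smul (cont_line hG0 hs hy)).aestronglyMeasurable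
  · exact (hκ.smul (cont_line hG0 hs hz)).intervalIntegrable _ _
  · exact (hκ.smul (cont_line hG1 hs hz)).aestronglyMeasurable
  · exact Filter.Eventually.of_forall fun s hs' y hy => hC (y, s) ⟨hy, Set.uIoc_subset_uIcc hs'⟩
  · exact intervalIntegrable_const
  · refine Filter.Eventually.of_forall fun s _ y hy => ?_
    have hy' := hs y (hsub hy) s
    have h1 : HasFDerivAt G (fderiv ℝ G (y + s • v)) (y + s • v) :=
      ((hG.contDiffAt (hU.mem_nhds hy')).differentiableAt (by simp)).hasFDerivAt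
    have h2 : HasFDerivAt (fun x => G (x + s • v)) (fderiv ℝ G (y + s • v)) y :=
      (hasFDerivAt_comp_add_right (s • v)).2 h1
    exact h2.const_smul (κ s)

theorem cd_nat (hU : IsOpen U) (hs : ∀ z ∈ U, ∀ s : ℝ, z + s • v ∈ U) (hκ : Continuous κ) (n : ℕ) :
    ∀ (V : Type) [NormedAddCommGroup V] [NormedSpace ℝ V] [CompleteSpace V] (G : Pt → V),
      ContDiffOn ℝ ∞ G U → ContDiffOn ℝ n (fun y => ∫ s in a..b, κ s • G (y + s • v)) U := by
  induction n with
  | zero =>
    intro V _ _ _ G hG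
    exact contDiffOn_zero.2 fun z hz => (hasF hU hs hκ hG hz).continuousAt.continuousWithinAt
  | succ n ih =>
    intro V _ _ _ G hG
    have h1 : ContDiffOn ℝ ∞ (fderiv ℝ G) U := hG.fderiv_of_isOpen hU (by simp)
    rw [Nat.cast_succ, contDiffOn_succ_iff_fderiv_of_isOpen hU]
    refine ⟨fun z hz => (hasF hU hs hκ hG hz).differentiableAt.differentiableWithinAt,
      by simp, ?_⟩
    exact (ih _ _ h1).congr fun z hz => (hasF hU hs hκ hG hz).fderiv

end

variable {κ : ℝ → ℝ} {j : Fin 3}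

theorem shift_in (j : Fin 3) : ∀ z ∈ Om T, ∀ s : ℝ, z + s • vec (lp j) ∈ Om T :=
  fun z hz s => (Om_shift z s j).2 hz

/-- weighted average along a phase -/
def avf (κ : ℝ → ℝ) (j : Fin 3) (f : A T) (z : Pt) : ℝ :=
  ∫ s in (0 : ℝ)..(2 * Real.pi), κ s • ev f (z + s • vec (lp j))

def av (κ : ℝ → ℝ) (j : Fin 3) (f : A T) : A T := mkA T (avf κ j f)

theorem good_avf (hκ : Continuous κ) (j : Fin 3) (f : A T) : Good T (avf κ j f) := by
  refine ⟨contDiffOn_infty.2 fun n => cd_nat (isOpen_Om T) (shift_in j) hκ n ℝ _ (ev_smooth f),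
    fun l z _ => ?_⟩
  unfold avf
  refine intervalIntegral.integral_congr fun s _ => ?_
  show κ s • ev f (z + (2 * Real.pi) • vec (lp l) + s • vec (lp j)) = κ s • ev f (z + s • vec (lp j))
  rw [add_right_comm, ev_per]

theorem ev_av (hκ : Continuous κ) (j : Fin 3) (f : A T) (z : Pt) :
    ev (av κ j f) z = avf κ j f z := by
  by_cases hz : z ∈ Om T
  · exact ev_mkA (good_avf hκ j f) hz
  · rw [ev_out _ hz]
    unfold avf
    have h : ∀ s : ℝ, ev f (z + s • vec (lp j)) = 0 := fun s =>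
      ev_out f fun h => hz ((Om_shift z s j).1 h)
    simp [h]

theorem av_zero (hκ : Continuous κ) (j : Fin 3) : av κ j (0 : A T) = 0 :=
  A_ext fun z _ => by rw [ev_av hκ]; simp [avf]

theorem pd_av (hκ : Continuous κ) (j : Fin 3) (i : Let) (f : A T) :
    pd i (av κ j f) = av κ j (pd i f) := by
  refine A_ext fun z hz => ?_
  have e : ev (av κ j f) = avf κ j f := funext (ev_av hκ j f)
  have hF := hasF (a := 0) (b := 2 * Real.pi) (isOpen_Om T) (shift_in j) hκ (ev_smooth f) hz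
  have hG1 : ContinuousOn (fderiv ℝ (ev f)) (Om T) :=
    (ev_smooth f).continuousOn_fderiv_of_isOpen (isOpen_Om T) (by simp)
  have hi : IntervalIntegrable (fun s : ℝ => κ s • fderiv ℝ (ev f) (z + s • vec (lp j))) volume 0
      (2 * Real.pi) := (hκ.smul (cont_line hG1 (shift_in j) hz)).intervalIntegrable _ _
  rw [ev_pd i _ hz, e, ev_av hκ]
  have h2 : fderiv ℝ (avf κ j f) z = _ := hF.fderiv
  rw [h2, ContinuousLinearMap.intervalIntegral_apply hi]
  unfold avf
  refine intervalIntegral.integral_congr fun s _ => ?_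
  show (κ s • fderiv ℝ (ev f) (z + s • vec (lp j))) (vec i) = κ s • ev (pd i f) (z + s • vec (lp j))
  rw [ev_pd i f (shift_in j z hz s)]
  rfl

theorem pw_av (hκ : Continuous κ) (j : Fin 3) (u : List Let) (f : A T) :
    pw u (av κ j f) = av κ j (pw u f) := by
  induction u with
  | nil => rfl
  | cons i u ih =>
    show pd i (pw u (av κ j f)) = av κ j (pd i (pw u f))
    rw [ih, pd_av hκ]

theorem in_av (hκ : Continuous κ) (j : Fin 3) {i : Let} {f : A T} (h : pd i f = 0) :
    pd i (av κ j f) = 0 := by rw [pd_av hκ, h, av_zero hκ]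

theorem off_av (hκ : Continuous κ) {fr : Frame T} (hfr : fr.Ok) {f : A T}
    (hf : ∀ z, z ∉ fr.Env j.succ → ev f z = 0) (z : Pt) (hz : z ∉ fr.Env j.succ) :
    ev (av κ j f) z = 0 := by
  rw [ev_av hκ]
  unfold avf
  have h : ∀ s : ℝ, ev f (z + s • vec (lp j)) = 0 := fun s => hf _ fun h => hz (by
    have h1 := hfr.env_p j.succ j le_rfl _ h (-s)
    rwa [add_assoc, ← add_smul, add_neg_cancel, zero_smul, add_zero] at h1)
  simp [h]

theorem hom_av (hκ : Continuous κ) (j : Fin 3) {d : ℤ} {f : A T} (h : Hom d f) :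
    Hom d (av κ j f) := by
  intro z c hc
  rw [ev_av hκ, ev_av hκ]
  unfold avf
  rw [← intervalIntegral.integral_const_mul]
  refine intervalIntegral.integral_congr fun s _ => ?_
  have h1 := h (z + s • vec (lp j)) c hc
  have h2 : ((z.1, c • z.2.1, z.2.2) : Pt) + s • vec (lp j) =
      ((z + s • vec (lp j)).1, c • (z + s • vec (lp j)).2.1, (z + s • vec (lp j)).2.2) := by
    simp [vec]
  show κ s • ev f ((z.1, c • z.2.1, z.2.2) + s • vec (lp j)) =
    c ^ d * (κ s • ev f (z + s • vec (lp j)))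
  rw [h2, h1, smul_eq_mul, smul_eq_mul]
  ring

theorem gb_av (hκ : Continuous κ) (j : Fin 3) {c : ℝ}
    (hc : ∀ s ∈ Set.uIoc (0 : ℝ) (2 * Real.pi), |κ s| ≤ c) {d : ℤ} {r : Let → ℝ} {w : ℝ → ℝ}
    {M : ℝ} (hr : ∀ i, 0 ≤ r i) {f : A T} (h : GB d r w M f) :
    Hom d (av κ j f) ∧ ∀ z ∈ Sp T, BdAt r (c * (2 * Real.pi) * (M * w z.1)) (av κ j f) z := by
  refine ⟨hom_av hκ j h.1, fun z hz u => ?_⟩
  have hρ : 0 ≤ rpr r u := List.prod_nonneg fun x hx => by
    obtain ⟨i, -, rfl⟩ := List.mem_map.1 hx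
    exact hr i
  rw [pw_av hκ, ev_av hκ, ← abs_of_nonneg hρ, ← abs_mul]
  unfold avf
  rw [← intervalIntegral.integral_mul_const]
  have key := intervalIntegral.norm_integral_le_of_norm_le_const (a := 0) (b := 2 * Real.pi)
    (C := c * (M * w z.1 * ((u.length ! : ℕ) : ℝ) ^ 2))
    (f := fun s => κ s • ev (pw u f) (z + s • vec (lp j)) * rpr r u) (fun s hs => by
      have hz' : z + s • vec (lp j) ∈ Sp T := by simpa [Sp, vec] using hz
      have h1 := h.2 _ hz' u
      have h2 : (z + s • vec (lp j)).1 = z.1 := by simp [vec]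
      rw [h2] at h1
      rw [Real.norm_eq_abs, smul_eq_mul, abs_mul, abs_mul, abs_of_nonneg hρ, mul_assoc]
      exact mul_le_mul (hc s hs) h1 (mul_nonneg (abs_nonneg _) hρ) ((abs_nonneg _).trans (hc s hs)))
  rw [Real.norm_eq_abs, sub_zero, abs_of_pos Real.two_pi_pos] at key
  refine key.trans_eq ?_
  ring

theorem line_deriv (j : Fin 3) (f : A T) {z : Pt} (hz : z ∈ Om T) (s : ℝ) :
    HasDerivAt (fun x : ℝ => ev f (z + x • vec (lp j))) (ev (pd (lp j) f) (z + s • vec (lp j))) s :=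
  hasDerivAt_ev (lp j) f z s (shift_in j z hz s)

theorem line_cont (j : Fin 3) (f : A T) {z : Pt} (hz : z ∈ Om T) :
    Continuous fun x : ℝ => ev f (z + x • vec (lp j)) :=
  cont_line (ev_smooth f).continuousOn (shift_in j) hz

/-- integration by parts against an affine weight -/
theorem av_pd (α β : ℝ) (j : Fin 3) (f : A T) :
    av (fun s => α * s + β) j (pd (lp j) f) + av (fun _ => α) j f = (α * (2 * Real.pi)) • f := by
  refine A_ext fun z hz => ?_
  have hk : Continuous fun s : ℝ => α * s + β := by fun_prop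
  have c1 := line_cont j f hz
  have c2 := line_cont j (pd (lp j) f) hz
  have d1 : Continuous fun s : ℝ => (α * s + β) • ev (pd (lp j) f) (z + s • vec (lp j)) := hk.smul c2
  have d2 : Continuous fun s : ℝ => α • ev f (z + s • vec (lp j)) := c1.const_smul α
  rw [ev_add, ev_av hk, ev_av continuous_const, ev_smul]
  unfold avf
  rw [← intervalIntegral.integral_add (d1.intervalIntegrable _ _) (d2.intervalIntegrable _ _)]
  have hd : ∀ s ∈ Set.uIcc (0 : ℝ) (2 * Real.pi),
      HasDerivAt (fun x : ℝ => (α * x + β) * ev f (z + x • vec (lp j)))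
        ((α * s + β) • ev (pd (lp j) f) (z + s • vec (lp j)) + α • ev f (z + s • vec (lp j))) s := by
    intro s _
    have h1 : HasDerivAt (fun x : ℝ => α * x + β) α s := by
      simpa using ((hasDerivAt_id s).const_mul α).add_const β
    have h2 := h1.mul (line_deriv j f hz s)
    refine h2.congr_deriv ?_
    simp only [smul_eq_mul]
    ring
  have d3 : Continuous fun s : ℝ => (α * s + β) • ev (pd (lp j) f) (z + s • vec (lp j)) +
      α • ev f (z + s • vec (lp j)) := d1.add d2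
  rw [intervalIntegral.integral_eq_sub_of_hasDerivAt hd (d3.intervalIntegrable _ _), ev_per]
  simp only [zero_smul, add_zero]
  ring

end Spl

open Spl in
/-- mean and primitive in a phase -/
theorem split {fr : Frame T} (hfr : fr.Ok) (j : Fin 3) {f : A T} (hf : Ty fr j.succ f) :
    ∃ fb fh : A T, f = fb + pd (lp j) fh ∧ Ty fr j.castSucc fb ∧ Ty fr j.succ fh ∧
      ∀ (d : ℤ) (r : Let → ℝ) (w : ℝ → ℝ) (M : ℝ), (∀ i, 0 ≤ r i) → GB d r w M f →
        GB d r w M fb ∧ GB d r w (7 * M) fh := by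
  have hp := Real.two_pi_pos
  have k1 : Continuous fun _ : ℝ => (2 * Real.pi)⁻¹ := continuous_const
  have k2 : Continuous fun s : ℝ => (2 * Real.pi)⁻¹ * s + 0 := by fun_prop
  refine ⟨av (fun _ => (2 * Real.pi)⁻¹) j f, av (fun s => (2 * Real.pi)⁻¹ * s + 0) j f, ?_,
    ⟨fun m hm => ?_, fun z hz => ?_⟩, ⟨fun m hm => in_av k2 j (hf.1 m hm), off_av k2 hfr hf.2⟩,
    fun d r w M hr h => ⟨?_, ?_⟩⟩
  · rw [pd_av k2, add_comm, av_pd, inv_mul_cancel₀ hp.ne', one_smul]
  · by_cases e : m = j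
    · have h := av_pd 0 (2 * Real.pi)⁻¹ j f
      have h0 : av (fun _ => (0 : ℝ)) j f = 0 :=
        A_ext fun z _ => by rw [ev_av continuous_const]; simp [avf]
      simp only [zero_mul, zero_add, zero_smul, h0, add_zero] at h
      rw [e, pd_av k1, h]
    · refine in_av k1 j (hf.1 m ?_)
      rw [Fin.le_def] at hm ⊢
      have h : (m : ℕ) ≠ j := fun h => e (Fin.ext h)
      simp only [Fin.val_succ, Fin.val_castSucc] at hm ⊢
      omega
  · exact off_av k1 hfr hf.2 z fun h => hz (hfr.env_anti (Fin.castSucc_lt_succ (i := j)).le h)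
  · obtain ⟨h1, h2⟩ := gb_av k1 j (c := (2 * Real.pi)⁻¹)
      (fun s _ => (abs_of_pos (inv_pos.2 hp)).le) hr h
    refine ⟨h1, fun z hz => ?_⟩
    have h3 := h2 z hz
    rwa [inv_mul_cancel₀ hp.ne', one_mul] at h3
  · obtain ⟨h1, h2⟩ := gb_av k2 j (c := 1) (fun s hs => by
      rw [Set.uIoc_of_le hp.le] at hs
      rw [add_zero, abs_of_nonneg (mul_nonneg (inv_pos.2 hp).le hs.1.le), inv_mul_le_iff₀ hp]
      simpa using hs.2) hr h
    refine ⟨h1, fun z hz u => (h2 z hz u).trans (mul_le_mul_of_nonneg_right ?_ (sq_nonneg _))⟩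
    have h0 : 0 ≤ M * w z.1 := by
      have h4 := h.2 z hz []
      simp only [pw, rpr, List.foldr_nil, List.map_nil, List.prod_nil, List.length_nil,
        Nat.factorial_zero, Nat.cast_one, one_pow, mul_one] at h4
      exact (abs_nonneg _).trans h4
    have h7 := Real.pi_lt_d2
    nlinarith

end Pool.Agent.Lib.MP_fbbbeb_an.Cas
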