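import Mathlib
import Pool.Agent.Lib.MP_fbbbeb_an.Cas.Stmt
import Pool.Agent.Lib.MP_fbbbeb_an.Cas.Typ
import Pool.Agent.Lib.MP_fbbbeb_an.Cas.Split

/-! The reduction step: a multiple of the fast covector is a small residual. -/

set_option autoImplicit false

noncomputable section

namespace Pool.Agent.Lib.MP_fbbbeb_an.Cas

open Pool.Agent.Lib.MP_fbbbeb_an.Pub

namespace Red

variable {T : ℝ}

theorem cross_at (a b : Vec T) (l : Fin 3) :
    crossProduct a b l = a (l + 1) * b (l + 2) - a (l + 2) * b (l + 1) := by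
  fin_cases l <;> simp [cross_apply]

/-- first identity -/
theorem id1 (fr : Frame T) (j : Fin 3) (sb sg : A T) :
    (fr.N j.succ • (sb + pd (lp j) sg)) • fr.k j -
      ((fun i => fr.N j.succ • (fr.k j i * sb)) + fun i => -Dj fr j i sg) = gr fr sg := by
  funext i
  simp only [Pi.sub_apply, Pi.add_apply, Pi.smul_apply, gr, D_eq_Dj fr j, smul_eq_mul]
  simp only [Algebra.smul_def]
  ring

/-- second identity -/
theorem id2 (fr : Frame T) (j : Fin 3) (U Ub Ug : Vec T)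
    (hU : ∀ i, U i = Ub i + pd (lp j) (Ug i)) :
    fr.N j.succ • crossProduct (fr.k j) U =
      ((fun l => fr.N j.succ • (fr.k j (l + 1) * Ub (l + 2)) -
          fr.N j.succ • (fr.k j (l + 2) * Ub (l + 1))) +
        fun l => Dj fr j (l + 2) (Ug (l + 1)) - Dj fr j (l + 1) (Ug (l + 2))) + curl fr Ug := by
  funext l
  simp only [Pi.add_apply, Pi.smul_apply, cross_at, hU, curl, D_eq_Dj fr j]
  simp only [Algebra.smul_def]
  ring

/-- a family supported on two neighbouring levels -/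
def two (j : Fin 3) (P Q : Vec T) : Fin 4 → Vec T :=
  fun l => if l = j.castSucc then P else if l = j.succ then Q else 0

theorem sum_two (j : Fin 3) (P Q : Vec T) : ∑ l, two j P Q l = P + Q := by
  fin_cases j <;> simp [two, Fin.sum_univ_four]

variable {fr : Frame T} {K θ ε y : ℝ} {r : Let → ℝ} {w v : Fin 4 → ℝ → ℝ} {j : Fin 3}

theorem fb_two (hfr : fr.Ok) (hW : Wt T K w v) {c : ℝ} (hc : 0 ≤ c) {P Q : Vec T}
    (hP : SB fr r (w j.castSucc) j.castSucc c P) (hQ : SB fr r (w j.succ) j.succ c Q) :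
    FB fr r w (fun _ => c) (two j P Q) := by
  intro l
  unfold two
  by_cases h1 : l = j.castSucc
  · rw [if_pos h1, h1]; exact hP
  · rw [if_neg h1]
    by_cases h2 : l = j.succ
    · rw [if_pos h2, h2]; exact hQ
    · rw [if_neg h2]
      exact SB.zero hfr fun t ht => mul_nonneg hc (hW.w_nonneg l t ht)

theorem N_pos (hfr : fr.Ok) (l : Fin 4) : 0 < fr.N l := lt_of_lt_of_le one_pos (hfr.N_one l)

theorem shn0 (hfr : fr.Ok) (hR : Reg fr K θ ε r) (i : Let) : 0 ≤ sh θ 1 r i :=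
  (sh_pos (by linarith [hR.th_half]) 1 (hR.r_pos hfr) i).le

theorem shle (hfr : fr.Ok) (hR : Reg fr K θ ε r) (i : Let) : sh θ 1 r i ≤ r i := by
  have h := hR.r_pos hfr i
  have h1 := hR.th_one
  simp only [sh, pow_one]
  nlinarith

/-- the mean part drops one level -/
theorem low (hfr : fr.Ok) (hR : Reg fr K θ ε r) (hW : Wt T K w v) (hy : 0 ≤ y) {sb : A T}
    (ht : Ty fr j.castSucc sb) (hb : GB 2 r (w j.succ) (y / fr.N j.succ ^ 2) sb) (i : Fin 3) :
    Ty fr j.castSucc (fr.N j.succ • (fr.k j i * sb)) ∧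
      GB 1 (sh θ 1 r) (w j.castSucc) (ε * (K ^ 13 * y) / fr.N j.castSucc)
        (fr.N j.succ • (fr.k j i * sb)) := by
  refine ⟨(Ty.mul_left (In.k hfr j i) ht).smul _, ?_⟩
  have hr : ∀ i, 0 ≤ r i := fun i => (hR.r_pos hfr i).le
  have h1 := ((GB.mul1 hr (hR.k_bd j i) hb).smul (fr.N j.succ)).cast (d' := 1) (by norm_num)
  refine h1.mono (shn0 hfr hR) (shle hfr hR) fun t htt => ?_
  have hN := N_pos hfr j.succ
  have hn := N_pos hfr j.castSucc
  have hK := hR.K_two
  have hK0 : 0 ≤ K := by linarith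
  have he := hR.e_pos.le
  have hw0 := hW.w_nonneg j.castSucc t htt
  have hinv : 1 / fr.N j.succ ≤ ε / fr.N j.castSucc := by
    rw [div_le_div_iff₀ hN hn, one_mul]; exact hR.e_N j
  have hp : 3 * K * K ≤ K ^ 13 := by
    have h2 : (2 : ℝ) ^ 11 ≤ K ^ 11 := pow_le_pow_left₀ (by norm_num) hK 11
    have h3 : 3 ≤ K ^ 11 := le_trans (by norm_num) h2
    calc 3 * K * K = 3 * (K * K) := by ring
      _ ≤ K ^ 11 * (K * K) := mul_le_mul_of_nonneg_right h3 (mul_nonneg hK0 hK0)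
      _ = K ^ 13 := by ring
  rw [abs_of_pos hN]
  calc fr.N j.succ * (3 * (K * (y / fr.N j.succ ^ 2))) * w j.succ t
      = 3 * K * y * (1 / fr.N j.succ) * w j.succ t := by field_simp
    _ ≤ 3 * K * y * (ε / fr.N j.castSucc) * (K * w j.castSucc t) :=
        mul_le_mul (mul_le_mul_of_nonneg_left hinv (by positivity)) (hW.w_down j t htt)
          (hW.w_nonneg _ t htt) (by positivity)
    _ = (3 * K * K) * (ε * y / fr.N j.castSucc * w j.castSucc t) := by ring
    _ ≤ K ^ 13 * (ε * y / fr.N j.castSucc * w j.castSucc t) :=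
        mul_le_mul_of_nonneg_right hp (by positivity)
    _ = ε * (K ^ 13 * y) / fr.N j.castSucc * w j.castSucc t := by ring

/-- the slow derivative of the primitive gains the ratio of the frequencies -/
theorem high (hfr : fr.Ok) (hR : Reg fr K θ ε r) (hW : Wt T K w v) (hy : 0 ≤ y) {sg : A T}
    (ht : Ty fr j.succ sg) (hb : GB 2 r (w j.succ) (7 * (y / fr.N j.succ ^ 2)) sg) (i : Fin 3) :
    Ty fr j.succ (Dj fr j i sg) ∧
      GB 1 (sh θ 1 r) (w j.succ) (ε * (K ^ 13 * y) / fr.N j.succ) (Dj fr j i sg) := by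
  refine ⟨ht.Dj hfr j i, ?_⟩
  have hN := N_pos hfr j.succ
  have hn := N_pos hfr j.castSucc
  have hK := hR.K_two
  have hK0 : 0 ≤ K := by linarith
  have he := hR.e_pos.le
  have h1 := (hR.Dj hfr (fun t htt => mul_nonneg (by positivity) (hW.w_nonneg j.succ t htt)) j i
    ht.1 hb).cast (d' := 1) (by norm_num)
  refine h1.monoM (hW.w_nonneg j.succ) ?_
  have h2 : (2 : ℝ) ^ 3 ≤ K ^ 3 := pow_le_pow_left₀ (by norm_num) hK 3
  have h3 : 7 ≤ K ^ 3 := le_trans (by norm_num) h2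
  calc K ^ 10 * fr.N j.castSucc * (7 * (y / fr.N j.succ ^ 2))
      ≤ K ^ 10 * (ε * fr.N j.succ) * (K ^ 3 * (y / fr.N j.succ ^ 2)) :=
        mul_le_mul (mul_le_mul_of_nonneg_left (hR.e_N j) (by positivity))
          (mul_le_mul_of_nonneg_right h3 (by positivity)) (by positivity) (by positivity)
    _ = ε * (K ^ 13 * y) / fr.N j.succ := by field_simp

theorem one_le (hfr : fr.Ok) (hR : Reg fr K θ ε r) (hy : 0 ≤ y) (l : Fin 4) :
    ε * (K ^ 13 * y) / fr.N l ≤ ε * (K ^ 14 * y) / fr.N l ∧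
    ε * (K ^ 13 * y) / fr.N l + ε * (K ^ 13 * y) / fr.N l ≤ ε * (K ^ 14 * y) / fr.N l := by
  have hN := N_pos hfr l
  have hK := hR.K_two
  have hK0 : 0 ≤ K := by linarith
  have he := hR.e_pos.le
  have h0 : 0 ≤ ε * (K ^ 13 * y) / fr.N l := by positivity
  have h1 : ε * (K ^ 14 * y) / fr.N l = K * (ε * (K ^ 13 * y) / fr.N l) := by ring
  rw [h1]
  constructor <;> nlinarith

end Red

open Red in
theorem redSt : RedSt := by
  refine ⟨14, fun T fr K θ ε r w v j y hfr hR hW hy => ?_⟩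
  have hr : ∀ i, 0 ≤ r i := fun i => (hR.r_pos hfr i).le
  have hs := shn0 hfr hR
  have hc : 0 ≤ ε * (K ^ 14 * y) := by
    have hK0 : 0 ≤ K := by linarith [hR.K_two]
    have he := hR.e_pos.le
    positivity
  refine ⟨fun s hst hsb => ?_, fun U hUt hUb => ?_⟩
  · obtain ⟨sb, sg, e, tb, tg, hb⟩ := split hfr j hst
    obtain ⟨b1, b2⟩ := hb _ _ _ _ hr hsb
    refine ⟨two j (fun i => fr.N j.succ • (fr.k j i * sb)) fun i => -Dj fr j i sg,
      fb_two hfr hW hc ⟨fun i => (low hfr hR hW hy tb b1 i).1, fun i => ?_⟩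
        ⟨fun i => (high hfr hR hW hy tg b2 i).1.neg, fun i => ?_⟩, ?_⟩
    · exact (low hfr hR hW hy tb b1 i).2.monoM (hW.w_nonneg _) (one_le hfr hR hy _).1
    · exact (high hfr hR hW hy tg b2 i).2.neg.monoM (hW.w_nonneg _) (one_le hfr hR hy _).1
    · rw [sum_two, e, id1]
      exact closed_gr hfr sg
  · choose Ub Ug e tb tg hb using fun i => split hfr j (hUt i)
    have lo := fun i m => low hfr hR hW hy (tb m) (hb m _ _ _ _ hr (hUb m)).1 i
    have hi := fun i m => high hfr hR hW hy (tg m) (hb m _ _ _ _ hr (hUb m)).2 i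
    refine ⟨two j (fun l => fr.N j.succ • (fr.k j (l + 1) * Ub (l + 2)) -
        fr.N j.succ • (fr.k j (l + 2) * Ub (l + 1)))
        fun l => Dj fr j (l + 2) (Ug (l + 1)) - Dj fr j (l + 1) (Ug (l + 2)),
      fb_two hfr hW hc ⟨fun l => (lo _ _).1.sub (lo _ _).1, fun l => ?_⟩
        ⟨fun l => (hi _ _).1.sub (hi _ _).1, fun l => ?_⟩, ?_⟩
    · exact (GB.sub hs (lo _ _).2 (lo _ _).2).monoM (hW.w_nonneg _) (one_le hfr hR hy _).2
    · exact (GB.sub hs (hi _ _).2 (hi _ _).2).monoM (hW.w_nonneg _) (one_le hfr hR hy _).2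
    · rw [sum_two, id2 fr j U Ub Ug e, dv_add, dv_curl hfr, add_zero]

end Pool.Agent.Lib.MP_fbbbeb_an.Cas
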