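import Mathlib
import Pool.Agent.Lib.MP_fbbbeb_an.Cas.Defs

/-! Statements of the three parts of the solver for an oscillating component. -/

set_option autoImplicit false

noncomputable section

namespace Pool.Agent.Lib.MP_fbbbeb_an.Cas

open Pool.Agent.Lib.MP_fbbbeb_an.Pub
open scoped ContDiff Topology RealInnerProductSpace Matrix Nat

/-- all derivatives without the time letter vanish at time zero -/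
def VanW {T : ℝ} (V : Vec T) : Prop := ∀ u : List Let, lt ∉ u → Van fun i => pw u (V i)

/-- coefficients: `P = g⁻¹ - κ (g⁻¹k)(g⁻¹k)ᵀ`, `a = κ g⁻¹k`, `κ (k·g⁻¹k + vp) = 1` -/
def SolvASt : Prop := ∃ C : ℕ, ∀ (T : ℝ) (fr : Frame T) (j : Fin 3) (F : Mat T) (Ji : A T)
    (K : ℝ) (r : Let → ℝ), fr.Ok → 2 ≤ K → (∀ i, 0 < r i) →
    (∀ i, r i ≤ 1) → (∀ i l, In j.castSucc (F i l)) → EqvM F → GBm 0 r w1 K F →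
    GBm 0 r w1 K (dtm F) → Ji * F.det = 1 → GB 0 r w1 K Ji → GBv (-1) r w1 K (fr.k j) →
    GB (-2) r w1 K fr.vp → GB 2 r w1 K (fr.ki j) →
    ∃ (P : Mat T) (a : Vec T),
      (∀ x : Vec T, gm F *ᵥ (P *ᵥ x) = x - (a ⬝ᵥ x) • fr.k j) ∧
      (∀ x : Vec T, Tyv fr j.succ x → fr.k j ⬝ᵥ (P *ᵥ x) = 0) ∧
      GBm 0 (dvr r (K ^ C)) w1 (K ^ C) P ∧ GBv 1 (dvr r (K ^ C)) w1 (K ^ C) a ∧
      GBm 0 (dvr r (K ^ C)) w1 (K ^ C) (Bf F) ∧ GBm 0 (dvr r (K ^ C)) w1 (K ^ C) (P * Bf F) ∧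
      (∀ i l, In j.castSucc (P i l)) ∧ InV j.castSucc a ∧ (∀ i l, In j.castSucc (Bf F i l)) ∧
      (∀ i l, In j.castSucc ((P * Bf F) i l)) ∧ EqvM P ∧ EqvM (P * Bf F) ∧
      ∀ z ∈ Sp T, z ∈ fr.Env j.succ → ∀ t ∈ Set.Ioo 0 T, evm (P * Bf F) (t, z.2) =
        Mop (evm F (t, z.2)) (evm (dtm F) (t, z.2)) (evv (fr.k j) z)

/-- fine bound without loss of radius -/
def SolvBSt : Prop := ∃ C : ℕ, ∀ (T : ℝ) (fr : Frame T) (l : Fin 4) (M : Mat T) (ζ h : Vec T)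
    (w : ℝ → ℝ) (K c : ℝ) (r r' : Let → ℝ), fr.Ok → 2 ≤ K → (∀ i, 0 < r' i) →
    (∀ i, r' i ≤ dvr r (K ^ C) i) → (∀ i, r i ≤ 1) → 0 ≤ c → (∀ t ∈ Set.Ioo 0 T, 0 ≤ w t) →
    GBm 0 r w1 K M → Tyv fr l ζ → (∀ i, Hom 1 (ζ i)) → VanW ζ → dtv ζ = M *ᵥ ζ + h →
    GBv 1 r' w c h →
    (∀ z ∈ Sp T, z ∈ fr.Env l → Prp T (fun t => evm M (t, z.2)) w K) →
    GBv 1 r' w (K ^ C * c) ζ

/-- finite Neumann series; `ρ` is its last term -/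
def SolvCSt : Prop := ∀ (T : ℝ) (fr : Frame T) (l : Fin 4) (M : Mat T) (h : Vec T)
    (w : ℝ → ℝ) (K c ε' wmin : ℝ) (r : Let → ℝ), fr.Ok → T ≤ 1 → 2 ≤ K → (∀ i, 0 < r i) →
    100 * K * r lt ≤ 1 → 0 ≤ c → 0 < ε' → 0 < wmin →
    (∀ t ∈ Set.Ioo 0 T, wmin ≤ w t ∧ w t ≤ K) → GBm 0 r w1 K M → (∀ i j, In l (M i j)) →
    EqvM M → Tyv fr l h → Eqv h → GBv 1 r w c h →
    ∃ ζ ρ : Vec T, dtv ζ = M *ᵥ (ζ - ρ) + h ∧ Tyv fr l ζ ∧ Tyv fr l ρ ∧ Eqv ζ ∧ VanW ζ ∧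
      (∀ i, Hom 1 (ζ i)) ∧ GBv 1 r w (ε' * c) ρ ∧
      ∀ l' : Fin 4, (∀ i j, In l' (M i j)) → InV l' h → InV l' ζ ∧ InV l' ρ

end Pool.Agent.Lib.MP_fbbbeb_an.Cas
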