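import Mathlib
import Pool.Agent.Lib.MP_fbbbeb_an.Cas.Stmt
import Pool.Agent.Lib.MP_fbbbeb_an.Cas.SolvS
import Pool.Agent.Lib.MP_fbbbeb_an.Cas.Word

/-! Assembly of the solver for an oscillating component. -/

set_option autoImplicit false

noncomputable section

namespace Pool.Agent.Lib.MP_fbbbeb_an.Cas

open Pool.Agent.Lib.MP_fbbbeb_an.Pub
open scoped ContDiff Topology RealInnerProductSpace Matrix Nat

namespace Sv

variable {T : ℝ}

theorem pw_eq (u : List Let) (f : A T) : pw u f = Word.dw pd u f := by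
  induction u with
  | nil => rfl
  | cons i u ih => rw [Word.dw_cons, ← ih]; rfl

theorem bd_iff {r : Let → ℝ} {M : ℝ} {f : A T} {z : Pt} (hz : z ∈ Om T) :
    BdAt r M f z ↔ Word.GP pd (evA z hz) r M f := by
  refine forall_congr' fun u => ?_
  rw [pw_eq]
  rfl

theorem gb_mul {d d' : ℤ} {r : Let → ℝ} {w : ℝ → ℝ} {M N : ℝ} {f g : A T} (hr : ∀ i, 0 ≤ r i)
    (hf : GB d r w1 M f) (hg : GB d' r w N g) : GB (d + d') r w (3 * M * N) (f * g) := by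
  refine ⟨fun z s hs => ?_, fun z hz => ?_⟩
  · rw [ev_mul, ev_mul, hf.1 z s hs, hg.1 z s hs, zpow_add₀ hs.ne']
    ring
  · have h := ((bd_iff (Sp_sub T hz)).1 (hf.2 z hz)).mul hr ((bd_iff (Sp_sub T hz)).1 (hg.2 z hz))
    have e : 3 * (M * w1 z.1) * (N * w z.1) = 3 * M * N * w z.1 := by simp only [w1]; ring
    rw [e] at h
    exact (bd_iff _).2 h

theorem gb_add {d : ℤ} {r : Let → ℝ} {w : ℝ → ℝ} {M N : ℝ} {f g : A T} (hr : ∀ i, 0 ≤ r i)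
    (hf : GB d r w M f) (hg : GB d r w N g) : GB d r w (M + N) (f + g) := by
  refine ⟨fun z s hs => ?_, fun z hz => ?_⟩
  · rw [ev_add, ev_add, hf.1 z s hs, hg.1 z s hs]
    ring
  · have h := ((bd_iff (Sp_sub T hz)).1 (hf.2 z hz)).add hr ((bd_iff (Sp_sub T hz)).1 (hg.2 z hz))
    rw [← add_mul] at h
    exact (bd_iff _).2 h

theorem gb_neg {d : ℤ} {r : Let → ℝ} {w : ℝ → ℝ} {M : ℝ} {f : A T}
    (hf : GB d r w M f) : GB d r w M (-f) := by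
  refine ⟨fun z s hs => ?_, fun z hz => ?_⟩
  · rw [ev_neg, ev_neg, hf.1 z s hs]
    ring
  · exact (bd_iff (Sp_sub T hz)).2 ((bd_iff (Sp_sub T hz)).1 (hf.2 z hz)).neg

theorem gb_mono {d : ℤ} {r ρ : Let → ℝ} {w : ℝ → ℝ} {M N : ℝ} {f : A T} (hf : GB d r w M f)
    (h0 : ∀ i, 0 ≤ ρ i) (hρ : ∀ i, ρ i ≤ r i) (hM : M ≤ N) (hw : ∀ t ∈ Set.Ioo 0 T, 0 ≤ w t) :
    GB d ρ w N f := by
  refine ⟨hf.1, fun z hz => ?_⟩
  exact (bd_iff (Sp_sub T hz)).2 (((bd_iff (Sp_sub T hz)).1 (hf.2 z hz)).mono h0 hρ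
    (mul_le_mul_of_nonneg_right hM (hw z.1 ⟨hz.1, hz.2.1⟩)))

theorem gb_dot {d d' : ℤ} {r : Let → ℝ} {w : ℝ → ℝ} {M N : ℝ} {a x : Vec T} (hr : ∀ i, 0 ≤ r i)
    (ha : GBv d r w1 M a) (hx : GBv d' r w N x) : GB (d + d') r w (9 * M * N) (a ⬝ᵥ x) := by
  have h := gb_add hr (gb_add hr (gb_mul hr (ha 0) (hx 0)) (gb_mul hr (ha 1) (hx 1)))
    (gb_mul hr (ha 2) (hx 2))
  have e : 3 * M * N + 3 * M * N + 3 * M * N = 9 * M * N := by ring
  rw [e] at h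
  simpa [dotProduct, Fin.sum_univ_three] using h

theorem gb_mulVec {r : Let → ℝ} {w : ℝ → ℝ} {M N : ℝ} {P : Mat T} {x : Vec T} (hr : ∀ i, 0 ≤ r i)
    (hP : GBm 0 r w1 M P) (hx : GBv 1 r w N x) : GBv 1 r w (9 * M * N) (P *ᵥ x) := fun i => by
  have h := gb_dot (a := fun l => P i l) hr (fun l => hP i l) hx
  simpa [Matrix.mulVec] using h

theorem gbv_add {d : ℤ} {r : Let → ℝ} {w : ℝ → ℝ} {M N : ℝ} {x y : Vec T} (hr : ∀ i, 0 ≤ r i)
    (hx : GBv d r w M x) (hy : GBv d r w N y) : GBv d r w (M + N) (x + y) :=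
  fun i => gb_add hr (hx i) (hy i)

theorem gbv_neg {d : ℤ} {r : Let → ℝ} {w : ℝ → ℝ} {M : ℝ} {x : Vec T}
    (hx : GBv d r w M x) : GBv d r w M (-x) := fun i => gb_neg (hx i)

theorem gbv_sub {d : ℤ} {r : Let → ℝ} {w : ℝ → ℝ} {M N : ℝ} {x y : Vec T} (hr : ∀ i, 0 ≤ r i)
    (hx : GBv d r w M x) (hy : GBv d r w N y) : GBv d r w (M + N) (x - y) := by
  rw [sub_eq_add_neg]
  exact gbv_add hr hx (gbv_neg hy)

theorem in_mono {l l' : Fin 4} {f : A T} (h : In l f) (hl : l ≤ l') : In l' f :=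
  fun j hj => h j (hl.trans hj)

theorem in_mul {l : Fin 4} {f g : A T} (hf : In l f) (hg : In l g) : In l (f * g) := fun j hj => by
  rw [Derivation.leibniz, hf j hj, hg j hj]
  simp

theorem in_add {l : Fin 4} {f g : A T} (hf : In l f) (hg : In l g) : In l (f + g) := fun j hj => by
  rw [map_add, hf j hj, hg j hj, add_zero]

theorem in_neg {l : Fin 4} {f : A T} (hf : In l f) : In l (-f) := fun j hj => by
  rw [map_neg, hf j hj, neg_zero]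

theorem in_dot {l : Fin 4} {a x : Vec T} (ha : InV l a) (hx : InV l x) : In l (a ⬝ᵥ x) := by
  have h := in_add (in_add (in_mul (ha 0) (hx 0)) (in_mul (ha 1) (hx 1))) (in_mul (ha 2) (hx 2))
  simpa [dotProduct, Fin.sum_univ_three] using h

theorem in_mulVec {l : Fin 4} {P : Mat T} {x : Vec T} (hP : ∀ i m, In l (P i m)) (hx : InV l x) :
    InV l (P *ᵥ x) := fun i => in_dot (a := fun m => P i m) (fun m => hP i m) hx

theorem inv_add {l : Fin 4} {x y : Vec T} (hx : InV l x) (hy : InV l y) : InV l (x + y) :=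
  fun i => in_add (hx i) (hy i)

theorem inv_neg {l : Fin 4} {x : Vec T} (hx : InV l x) : InV l (-x) := fun i => in_neg (hx i)

theorem inv_sub {l : Fin 4} {x y : Vec T} (hx : InV l x) (hy : InV l y) : InV l (x - y) := by
  rw [sub_eq_add_neg]
  exact inv_add hx (inv_neg hy)

theorem ty_dot {fr : Frame T} {l : Fin 4} {a x : Vec T} (ha : InV l a) (hx : Tyv fr l x) :
    Ty fr l (a ⬝ᵥ x) := by
  refine ⟨in_dot ha fun i => (hx i).1, fun z hz => ?_⟩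
  simp [dotProduct, Fin.sum_univ_three, (hx _).2 z hz]

theorem ty_mulVec {fr : Frame T} {l : Fin 4} {P : Mat T} {x : Vec T} (hP : ∀ i m, In l (P i m))
    (hx : Tyv fr l x) : Tyv fr l (P *ᵥ x) :=
  fun i => ty_dot (a := fun m => P i m) (fun m => hP i m) hx

theorem ty_neg {fr : Frame T} {l : Fin 4} {f : A T} (hf : Ty fr l f) : Ty fr l (-f) :=
  ⟨in_neg hf.1, fun z hz => by rw [ev_neg, hf.2 z hz, neg_zero]⟩

theorem tyv_add {fr : Frame T} {l : Fin 4} {x y : Vec T} (hx : Tyv fr l x) (hy : Tyv fr l y) :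
    Tyv fr l (x + y) := fun i =>
  ⟨in_add (hx i).1 (hy i).1, fun z hz => by
    rw [Pi.add_apply, ev_add, (hx i).2 z hz, (hy i).2 z hz, add_zero]⟩

theorem tyv_neg {fr : Frame T} {l : Fin 4} {x : Vec T} (hx : Tyv fr l x) : Tyv fr l (-x) :=
  fun i => ty_neg (hx i)

theorem tyv_sub {fr : Frame T} {l : Fin 4} {x y : Vec T} (hx : Tyv fr l x) (hy : Tyv fr l y) :
    Tyv fr l (x - y) := by
  rw [sub_eq_add_neg]
  exact tyv_add hx (tyv_neg hy)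

theorem evv_mulVec (P : Mat T) (x : Vec T) (z : Pt) : evv (P *ᵥ x) z = evm P z (evv x z) := by
  ext i
  simp [evv, evm, Matrix.mulVec, dotProduct, Fin.sum_univ_three]

theorem eqv_mulVec {P : Mat T} {x : Vec T} (hP : EqvM P) (hx : Eqv x) : Eqv (P *ᵥ x) :=
  fun g hg z => by rw [evv_mulVec, evv_mulVec, hx g hg z, hP g hg z]

/-- a function with vanishing time derivative does not depend on the time -/
theorem const_t {g : A T} (hg : pd lt g = 0) (y : E × E) (hy : y.1 ≠ 0) {s t : ℝ}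
    (hs : s ∈ Set.Ioo 0 T) (ht : t ∈ Set.Ioo 0 T) : ev g (s, y) = ev g (t, y) := by
  have key : ∀ x ∈ Set.Ioo 0 T, HasDerivAt (fun x : ℝ => ev g (x, y)) 0 x := fun x hx => by
    have e : ∀ x : ℝ, ((0, y) : Pt) + x • vec lt = (x, y) := fun x => by simp [vec]
    have h := hasDerivAt_ev lt g (0, y) x (by rw [e]; exact ⟨hx.1, hx.2, hy⟩)
    simpa only [e, hg, ev_zero] using h
  exact isOpen_Ioo.is_const_of_deriv_eq_zero (𝕜 := ℝ) isPreconnected_Ioo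
    (fun x hx => (key x hx).differentiableAt.differentiableWithinAt)
    (fun x hx => (key x hx).deriv) hs ht

theorem dot_zero {k ζ : Vec T} (hk : ∀ i, pd lt (k i) = 0) (h : k ⬝ᵥ dtv ζ = 0) (hv : Van ζ) :
    k ⬝ᵥ ζ = 0 := by
  have h1 : pd lt (k ⬝ᵥ ζ) = 0 := by
    rw [← h]
    simp [dotProduct, Fin.sum_univ_three, dtv, Derivation.leibniz, hk]
  refine A_ext fun z hz => ?_
  have ht : z.1 ∈ Set.Ioo 0 T := ⟨hz.1, hz.2.1⟩
  have h2 : Filter.Tendsto (fun t : ℝ => ⟪evv k z, evv ζ (t, z.2)⟫) (𝓝[>] 0) (𝓝 0) := by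
    have := (Filter.Tendsto.inner (𝕜 := ℝ) (tendsto_const_nhds (x := evv k z)) (hv z.2))
    simpa using this
  have h3 : (fun t : ℝ => ⟪evv k z, evv ζ (t, z.2)⟫) =ᶠ[𝓝[>] 0] fun _ => ev (k ⬝ᵥ ζ) z := by
    filter_upwards [Ioo_mem_nhdsGT (ht.1.trans ht.2)] with t h
    rw [← const_t h1 z.2 hz.2.2 h ht]
    have e : ∀ i, ev (k i) (t, z.2) = ev (k i) z := fun i => const_t (hk i) z.2 hz.2.2 h ht
    simp [evv, dotProduct, Fin.sum_univ_three, PiLp.inner_apply, e]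
    ring
  have h4 := tendsto_nhds_unique (h2.congr' h3) tendsto_const_nhds
  rw [← h4, ev_zero]

theorem prp_congr {M M' : ℝ → L3} {w : ℝ → ℝ} {K K' : ℝ} (h : Prp T M w K)
    (e : ∀ t ∈ Set.Ioo 0 T, M' t = M t) (hK : K ≤ K') (hw : ∀ t ∈ Set.Ioo 0 T, 0 ≤ w t) :
    Prp T M' w K' := fun y f c hc hy h0 hf t ht =>
  (h y f c hc (fun s hs => by rw [← e s hs]; exact hy s hs) h0 hf t ht).trans
    (mul_le_mul_of_nonneg_right (mul_le_mul_of_nonneg_right hK hc) (hw t ht))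

end Sv

open Sv in
theorem solvSt : SolvASt → SolvBSt → SolvCSt → SolvSt := by
  rintro ⟨CA, hA⟩ ⟨CB, hB⟩ hC
  refine ⟨(CA + 1) * (CB + 3) + 11, ?_⟩
  intro T fr j F Ji w K wmin r hfr hK hT hr0 hr1 hFi hFe hF hFt hJ hJb hkb hvb hkib hwm hw hP
  obtain ⟨P, a, hgP, hkP, hPb, hab, hBb, hMb, hPi, hai, hBi, hMi, hPe, hMe, hMp⟩ :=
    hA T fr j F Ji K r hfr hK hr0 hr1 hFi hFe hF hFt hJ hJb hkb hvb hkib
  intro r' hr' hrr c ε' hc hε f hft hfe hfb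
  have hK1 : (1 : ℝ) ≤ K := by linarith
  have hK0 : (0 : ℝ) < K := by linarith
  obtain ⟨L, hL⟩ : ∃ L : ℝ, L = K ^ (CA + 1) := ⟨_, rfl⟩
  have hAL : K ^ CA ≤ L := hL ▸ pow_le_pow_right₀ hK1 (by omega)
  have hKL : K ≤ L := by
    have := pow_le_pow_right₀ hK1 (show 1 ≤ CA + 1 by omega)
    rwa [pow_one, ← hL] at this
  have hL2 : 2 ≤ L := hK.trans hKL
  have hL1 : 1 ≤ L := by linarith
  obtain ⟨G, hG⟩ : ∃ G : ℝ, G = L ^ CB := ⟨_, rfl⟩
  have hG1 : 1 ≤ G := hG ▸ one_le_pow₀ hL1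
  have hA1 : 1 ≤ K ^ CA := one_le_pow₀ hK1
  have h11 : (2048 : ℝ) ≤ K ^ 11 := by
    have := pow_le_pow_left₀ (by norm_num : (0 : ℝ) ≤ 2) hK 11
    norm_num at this
    exact this
  have hC' : 2048 * (L ^ 3 * G) ≤ K ^ ((CA + 1) * (CB + 3) + 11) := by
    rw [pow_add, pow_mul, ← hL, pow_add, ← hG, mul_comm (G * L ^ 3), mul_comm G]
    exact mul_le_mul_of_nonneg_right h11 (by positivity)
  obtain ⟨Q, hQ⟩ : ∃ Q : ℝ, Q = K ^ ((CA + 1) * (CB + 3) + 11) := ⟨_, rfl⟩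
  rw [← hQ] at hC' hrr ⊢
  have hw0 : ∀ t ∈ Set.Ioo 0 T, 0 ≤ w t := fun t ht => hwm.le.trans (hw t ht).1
  have hw1 : ∀ t ∈ Set.Ioo 0 T, 0 ≤ w1 t := fun _ _ => zero_le_one
  have hr'0 : ∀ i, 0 ≤ r' i := fun i => (hr' i).le
  have hL3 : L ≤ L ^ 3 := le_self_pow₀ hL1 (by norm_num)
  have hL23 : L ^ 2 ≤ L ^ 3 := pow_le_pow_right₀ hL1 (by norm_num)
  have hLG : L * G ≤ L ^ 3 * G := mul_le_mul_of_nonneg_right hL3 (by linarith)
  have hLG2 : L ^ 2 * G ≤ L ^ 3 * G := mul_le_mul_of_nonneg_right hL23 (by linarith)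
  have hLG1 : L ≤ L * G := le_mul_of_one_le_right (by linarith) hG1
  have hQ0 : 0 < Q := by rw [hQ]; positivity
  have hr2 : ∀ i, r' i ≤ dvr (dvr r (K ^ CA)) (L ^ CB) i := fun i => by
    refine (hrr i).trans ?_
    simp only [dvr, ← hG]
    rw [div_div]
    refine div_le_div_of_nonneg_left (hr0 i).le (by positivity) ?_
    have : K ^ CA * G ≤ L * G := mul_le_mul_of_nonneg_right hAL (by linarith)
    linarith
  have hr3 : ∀ i, r' i ≤ dvr r (K ^ CA) i := fun i => by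
    refine (hr2 i).trans ?_
    simp only [dvr, ← hG]
    exact div_le_self (div_nonneg (hr0 i).le (by linarith)) hG1
  have hr4 : ∀ i, dvr r (K ^ CA) i ≤ 1 := fun i =>
    (div_le_self (hr0 i).le hA1).trans (hr1 i)
  have hrA0 : ∀ i, 0 ≤ dvr r (K ^ CA) i := fun i => div_nonneg (hr0 i).le (by linarith)
  have hrt : 100 * L * r' lt ≤ 1 := by
    have h1 : r' lt ≤ 1 / Q := (hrr lt).trans (div_le_div_of_nonneg_right (hr1 lt) hQ0.le)
    rw [le_div_iff₀ hQ0] at h1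
    have h2 : 100 * L ≤ Q := by linarith
    nlinarith [hr'0 lt]
  have hP' : GBm 0 r' w1 L P := fun i l => gb_mono (hPb i l) hr'0 hr3 hAL hw1
  have ha' : GBv 1 r' w1 L a := fun i => gb_mono (hab i) hr'0 hr3 hAL hw1
  have hB' : GBm 0 r' w1 L (Bf F) := fun i l => gb_mono (hBb i l) hr'0 hr3 hAL hw1
  have hM' : GBm 0 r' w1 L (P * Bf F) := fun i l => gb_mono (hMb i l) hr'0 hr3 hAL hw1
  have hM1 : GBm 0 (dvr r (K ^ CA)) w1 L (P * Bf F) :=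
    fun i l => gb_mono (hMb i l) hrA0 (fun _ => le_rfl) hAL hw1
  have hjj : j.castSucc ≤ j.succ := j.castSucc_lt_succ.le
  have hh : GBv 1 r' w (9 * L * c) (P *ᵥ f) := gb_mulVec hr'0 hP' hfb
  obtain ⟨η, hη⟩ : ∃ η : ℝ, η = min ε' 1 / (81 * L ^ 2) := ⟨_, rfl⟩
  have hη0 : 0 < η := by rw [hη]; positivity
  have hη1 : 9 * L * (η * (9 * L * c)) = min ε' 1 * c := by
    rw [hη]
    field_simp
    norm_num
  obtain ⟨ζ, ρ, hζ, hζt, hρt, hζe, hζv, hζh, hρb, hin⟩ := hC T fr j.succ (P * Bf F) (P *ᵥ f) w L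
    (9 * L * c) η wmin r' hfr hT hL2 hr' hrt (by positivity) hη0 hwm
    (fun t ht => ⟨(hw t ht).1, (hw t ht).2.trans hKL⟩) hM' (fun i l => in_mono (hMi i l) hjj) hMe
    (ty_mulVec (fun i l => in_mono (hPi i l) hjj) hft) (eqv_mulVec hPe hfe) hh
  have hm1 : min ε' 1 * c ≤ c := mul_le_of_le_one_left hc (min_le_right _ _)
  have hm2 : min ε' 1 * c ≤ ε' * c := mul_le_mul_of_nonneg_right (min_le_left _ _) hc
  have hMρ : GBv 1 r' w (min ε' 1 * c) ((P * Bf F) *ᵥ ρ) := hη1 ▸ gb_mulVec hr'0 hM' hρb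
  have hBρ : GBv 1 r' w (min ε' 1 * c) (Bf F *ᵥ ρ) := hη1 ▸ gb_mulVec hr'0 hB' hρb
  have hLc : c ≤ L * c := le_mul_of_one_le_left hc hL1
  have hh2 : GBv 1 r' w (10 * L * c) (P *ᵥ f - (P * Bf F) *ᵥ ρ) := fun i =>
    gb_mono (gbv_sub hr'0 hh hMρ i) hr'0 (fun _ => le_rfl) (by linarith) hw0
  have hζ2 : dtv ζ = (P * Bf F) *ᵥ ζ + (P *ᵥ f - (P * Bf F) *ᵥ ρ) := by
    rw [hζ, Matrix.mulVec_sub]
    abel
  have hζb : GBv 1 r' w (G * (10 * L * c)) ζ := hG ▸ hB T fr j.succ (P * Bf F) ζ _ w L (10 * L * c)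
    (dvr r (K ^ CA)) r' hfr hL2 hr' hr2 hr4 (by positivity) hw0 hM1 hζt hζh hζv hζ2 hh2
    (fun z hz he => prp_congr (hP z hz he) (hMp z hz he) hKL hw0)
  have hx : dtv ζ = P *ᵥ (Bf F *ᵥ ζ - Bf F *ᵥ ρ + f) := by
    rw [hζ, Matrix.mulVec_add, ← Matrix.mulVec_sub, Matrix.mulVec_mulVec]
  have hBj : ∀ i l, In j.succ (Bf F i l) := fun i l => in_mono (hBi i l) hjj
  have hxt : Tyv fr j.succ (Bf F *ᵥ ζ - Bf F *ᵥ ρ + f) :=
    tyv_add (tyv_sub (ty_mulVec hBj hζt) (ty_mulVec hBj hρt)) hft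
  have hxb := gbv_add hr'0 (gbv_sub hr'0 (gb_mulVec hr'0 hB' hζb) hBρ) hfb
  have hv : Van ζ := hζv [] (by simp)
  have c1 : L * c ≤ L ^ 3 * G * c := mul_le_mul_of_nonneg_right (hLG1.trans hLG) hc
  have c2 : L * G * c ≤ L ^ 3 * G * c := mul_le_mul_of_nonneg_right hLG hc
  have c3 : L ^ 2 * G * c ≤ L ^ 3 * G * c := mul_le_mul_of_nonneg_right hLG2 hc
  have c4 : 2048 * (L ^ 3 * G) * c ≤ Q * c := mul_le_mul_of_nonneg_right hC' hc
  have c5 : L * (min ε' 1 * c) ≤ L * c := mul_le_mul_of_nonneg_left hm1 (by linarith)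
  have c6 : 0 ≤ L * c := by positivity
  refine ⟨ζ, -(a ⬝ᵥ (Bf F *ᵥ ζ - Bf F *ᵥ ρ + f)), -(Bf F *ᵥ ρ), ?_, ?_, hζt,
    ty_neg (ty_dot (fun i => in_mono (hai i) hjj) hxt), tyv_neg (ty_mulVec hBj hρt), hζe, hv,
    fun i => gb_mono (hζb i) hr'0 (fun _ => le_rfl) (by nlinarith) hw0, ?_, ?_,
    fun i => gb_mono (gbv_neg hBρ i) hr'0 (fun _ => le_rfl) hm2 hw0, fun hf => ?_⟩
  · rw [hx, hgP]
    funext i
    simp only [Pi.add_apply, Pi.sub_apply, Pi.neg_apply, Pi.smul_apply, smul_eq_mul]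
    ring
  · exact dot_zero (hfr.k_t j) (hx ▸ hkP _ hxt) hv
  · intro i
    have h := gbv_add hr'0 (gb_mulVec hr'0 hM' hζb) hh2
    rw [← hζ2] at h
    exact gb_mono (h i) hr'0 (fun _ => le_rfl) (by nlinarith) hw0
  · have h := gb_neg (gb_dot hr'0 ha' hxb)
    exact gb_mono h hr'0 (fun _ => le_rfl) (by nlinarith) hw0
  · obtain ⟨h1, h2⟩ := hin j.castSucc hMi (in_mulVec hPi hf)
    exact ⟨h1, in_neg (in_dot hai (inv_add (inv_sub (in_mulVec hBi h1) (in_mulVec hBi h2)) hf)),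
      inv_neg (in_mulVec hBi h2)⟩

end Pool.Agent.Lib.MP_fbbbeb_an.Cas
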