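import Mathlib
import Pool.Agent.Lib.MP_fbbbeb_an.Cas.Stmt
import Pool.Agent.Lib.MP_fbbbeb_an.Cas.SolvS
import Pool.Agent.Lib.MP_fbbbeb_an.Cas.Chain
import Pool.Agent.Lib.MP_fbbbeb_an.Cas.EvG
import Pool.Agent.Lib.MP_fbbbeb_an.Cas.TypA1

/-! Coefficients of the solver for an oscillating component. -/

set_option autoImplicit false

noncomputable section

namespace Pool.Agent.Lib.MP_fbbbeb_an.Cas

open Pool.Agent.Lib.MP_fbbbeb_an.Pub
open scoped ContDiff Topology RealInnerProductSpace Matrix Nat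

variable {T : ℝ}

namespace SA

/-! ### numbers -/

theorem num {K c : ℝ} (hK : 2 ≤ K) (e a b n : ℕ) (hc : c ≤ 2 ^ e) (hn : e + a + b ≤ n) :
    c * (K ^ a * K ^ b) ≤ K ^ n := by
  have h1 : (1 : ℝ) ≤ K := by linarith
  have h2 : (2 : ℝ) ^ e ≤ K ^ e := pow_le_pow_left₀ (by norm_num) hK e
  have h3 : 0 ≤ K ^ a * K ^ b := by positivity
  calc c * (K ^ a * K ^ b) ≤ K ^ e * (K ^ a * K ^ b) :=
        mul_le_mul_of_nonneg_right (hc.trans h2) h3
    _ = K ^ (e + a + b) := by ring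
    _ ≤ K ^ n := pow_le_pow_right₀ h1 hn

theorem num_add {K : ℝ} (hK : 2 ≤ K) (a b n : ℕ) (ha : a + 1 ≤ n) (hb : b + 1 ≤ n) :
    K ^ a + K ^ b ≤ K ^ n := by
  have h1 : (1 : ℝ) ≤ K := by linarith
  obtain ⟨m, rfl⟩ : ∃ m, n = m + 1 := ⟨n - 1, by omega⟩
  have h2 : K ^ a ≤ K ^ m := pow_le_pow_right₀ h1 (by omega)
  have h3 : K ^ b ≤ K ^ m := pow_le_pow_right₀ h1 (by omega)
  have h4 : 0 ≤ K ^ m := by positivity
  rw [pow_succ]
  nlinarith

section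
variable {d : ℤ} {r r' : Let → ℝ} {M M' : ℝ}

theorem gb_le {f : A T} (h : GB d r w1 M f) (hr : ∀ i, 0 ≤ r' i) (hr' : ∀ i, r' i ≤ r i)
    (hM : M ≤ M') : GB d r' w1 M' f :=
  h.mono hr hr' fun _ _ => by simpa [w1] using hM

theorem gbv_le {V : Vec T} (h : GBv d r w1 M V) (hr : ∀ i, 0 ≤ r' i) (hr' : ∀ i, r' i ≤ r i)
    (hM : M ≤ M') : GBv d r' w1 M' V := fun i => gb_le (h i) hr hr' hM

theorem gbm_le {F : Mat T} (h : GBm d r w1 M F) (hr : ∀ i, 0 ≤ r' i) (hr' : ∀ i, r' i ≤ r i)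
    (hM : M ≤ M') : GBm d r' w1 M' F := fun i l => gb_le (h i l) hr hr' hM

end

theorem ww : (fun t => w1 t * w1 t) = w1 := w1_mul w1

/-! ### levels -/

theorem in_mul {l : Fin 4} {F G : Mat T} (h : ∀ i m, In l (F i m)) (h' : ∀ i m, In l (G i m))
    (i m : Fin 3) : In l ((F * G) i m) := by
  rw [Matrix.mul_apply]
  exact In.sum _ fun x _ => (h i x).mul (h' x m)

theorem in_dot {l : Fin 4} {U V : Vec T} (h : InV l U) (h' : InV l V) : In l (U ⬝ᵥ V) :=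
  In.sum _ fun x _ => (h x).mul (h' x)

theorem in_Bf {l : Fin 4} {F : Mat T} (h : ∀ i m, In l (F i m)) (i m : Fin 3) :
    In l (Bf F i m) := by
  have hd : ∀ i m, In l (dtm F i m) := fun i m => (h i m).pd lt
  exact (in_mul (F := (dtm F)ᵀ) (fun i m => hd m i) h i m).sub
    (in_mul (F := Fᵀ) (fun i m => h m i) hd i m)

/-! ### algebra -/

section
variable {R : Type*} [CommRing R] {F : Matrix (Fin 3) (Fin 3) R} {J : R}

theorem mul_H (h : J * F.det = 1) : F * (J • F.adjugate) = 1 := by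
  rw [Matrix.mul_smul, Matrix.mul_adjugate, smul_smul, h, one_smul]

theorem H_mul (h : J * F.det = 1) : (J • F.adjugate) * F = 1 := by
  rw [Matrix.smul_mul, Matrix.adjugate_mul, smul_smul, h, one_smul]

variable {H : Matrix (Fin 3) (Fin 3) R}

theorem g_G (h1 : F * H = 1) (h2 : H * F = 1) : Fᵀ * F * (H * Hᵀ) = 1 := by
  rw [Matrix.mul_assoc, ← Matrix.mul_assoc F, h1, Matrix.one_mul, ← Matrix.transpose_mul, h2,
    Matrix.transpose_one]

theorem G_g (h1 : F * H = 1) (h2 : H * F = 1) : H * Hᵀ * (Fᵀ * F) = 1 := by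
  rw [Matrix.mul_assoc, ← Matrix.mul_assoc Hᵀ, ← Matrix.transpose_mul, h1, Matrix.transpose_one,
    Matrix.one_mul, h2]

theorem dot_G (H : Matrix (Fin 3) (Fin 3) R) (k x : Fin 3 → R) :
    k ⬝ᵥ ((H * Hᵀ) *ᵥ x) = (Hᵀ *ᵥ k) ⬝ᵥ (Hᵀ *ᵥ x) := by
  rw [← Matrix.mulVec_mulVec, Matrix.dotProduct_mulVec, Matrix.mulVec_transpose H k]

theorem vv_mulVec (a m x : Fin 3 → R) : Matrix.vecMulVec a m *ᵥ x = (m ⬝ᵥ x) • a := by
  funext i
  simp only [Matrix.mulVec, dotProduct, Matrix.vecMulVec_apply, Pi.smul_apply, smul_eq_mul,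
    Finset.sum_mul]
  exact Finset.sum_congr rfl fun l _ => by ring

end

theorem inverse_eq {a b : L3} (h1 : a * b = 1) (h2 : b * a = 1) : Ring.inverse a = b :=
  Ring.inverse_unit (⟨a, b, h1, h2⟩ : L3ˣ)

theorem r1_smul (c : ℝ) (a b : E) : r1 (c • a) b = c • r1 a b := by
  ext x
  simp [r1]

/-- lower bound of the denominator -/
theorem den_ge {fr : Frame T} (hfr : fr.Ok) (j : Fin 3) {F : Mat T} {y : Vec T} {K : ℝ}
    {r : Let → ℝ} (hK : 2 ≤ K) (hF : GBm 0 r w1 K F) (hki : GB 2 r w1 K (fr.ki j))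
    (hy : Fᵀ *ᵥ y = fr.k j) {z : Pt} (hz : z ∈ Sp T) :
    (K ^ 7)⁻¹ ≤ |ev (y ⬝ᵥ y + fr.vp) z| := by
  have hO := Sp_sub T hz
  have h1 : ‖evm Fᵀ z‖ ≤ 3 * K := norm_evm_le fun i l => by
    simpa [w1] using (hF l i).abs_le hz
  have h2 : ‖evv (fr.k j) z‖ ≤ 3 * K * ‖evv y z‖ := by
    rw [← hy, evv_mulVec]
    exact ((evm Fᵀ z).le_opNorm _).trans (mul_le_mul_of_nonneg_right h1 (norm_nonneg _))
  have h3 : ev (fr.ki j) z * (‖evv (fr.k j) z‖ ^ 2 + ev fr.vp z) = 1 := by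
    have := congrArg (fun f => ev f z) (hfr.ki_mul j)
    simpa only [ev_mul, ev_add, ev_dot, real_inner_self_eq_norm_sq, ev_one hO] using this
  have h4 : ev (fr.ki j) z ≤ K := by
    have := hki.abs_le hz
    simp only [w1, mul_one] at this
    exact (le_abs_self _).trans this
  have h5 := hfr.vp_nonneg z
  have h6 : ‖evv (fr.k j) z‖ ^ 2 ≤ (3 * K * ‖evv y z‖) ^ 2 :=
    pow_le_pow_left₀ (norm_nonneg _) h2 2
  rw [ev_add, ev_dot, real_inner_self_eq_norm_sq]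
  set s := ‖evv y z‖ ^ 2 with hs
  set v := ev fr.vp z with hv
  have s0 : 0 ≤ s := by positivity
  have K0 : 0 < K := by linarith
  have h7 : 1 ≤ K * (‖evv (fr.k j) z‖ ^ 2 + v) := by
    rw [← h3]
    exact mul_le_mul_of_nonneg_right h4 (by positivity)
  have h8 : ‖evv (fr.k j) z‖ ^ 2 + v ≤ 9 * K ^ 2 * (s + v) := by
    have : 1 * v ≤ 9 * K ^ 2 * v := mul_le_mul_of_nonneg_right (by nlinarith) h5
    nlinarith
  have h9 : 9 * (K ^ 1 * K ^ 2) ≤ K ^ 7 := num hK 4 1 2 7 (by norm_num) (by norm_num)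
  rw [abs_of_nonneg (by positivity), inv_le_iff_one_le_mul₀' (by positivity)]
  calc (1 : ℝ) ≤ K * (9 * K ^ 2 * (s + v)) := h7.trans (mul_le_mul_of_nonneg_left h8 K0.le)
    _ = 9 * (K ^ 1 * K ^ 2) * (s + v) := by ring
    _ ≤ K ^ 7 * (s + v) := mul_le_mul_of_nonneg_right h9 (by positivity)

end SA

open SA

theorem solvASt0 : SolvASt := by
  refine ⟨73, ?_⟩
  intro T fr j F Ji K r hfr hK hr hr1 hFin hFe hF hF1 hJ hJb hk hvp hki
  have r0 : ∀ i, 0 ≤ r i := fun i => (hr i).le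
  have rr : ∀ i, r i ≤ r i := fun _ => le_rfl
  have K1 : (1 : ℝ) ≤ K := by linarith
  have K0 : (0 : ℝ) < K := by linarith
  obtain ⟨H, hH⟩ : ∃ H : Mat T, H = Ji • F.adjugate := ⟨_, rfl⟩
  have FH : F * H = 1 := hH ▸ mul_H hJ
  have HF : H * F = 1 := hH ▸ H_mul hJ
  obtain ⟨G, hG⟩ : ∃ G : Mat T, G = H * Hᵀ := ⟨_, rfl⟩
  have gG : gm F * G = 1 := hG ▸ g_G FH HF
  have Gg : G * gm F = 1 := hG ▸ G_g FH HF
  obtain ⟨m, hm⟩ : ∃ m : Vec T, m = G *ᵥ fr.k j := ⟨_, rfl⟩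
  have sym : ∀ x : Vec T, fr.k j ⬝ᵥ (G *ᵥ x) = m ⬝ᵥ x := fun x => by
    rw [hm, dotProduct_comm _ x, hG, dot_G, dot_G, dotProduct_comm]
  -- bounds at the radii `r`
  have bF : GBm 0 r w1 (K ^ 1) F := by simpa using hF
  have bF1 : GBm 0 r w1 (K ^ 1) (dtm F) := by simpa using hF1
  have bk : GBv (-1) r w1 (K ^ 1) (fr.k j) := by simpa using hk
  have bJ : GB 0 r w1 (K ^ 1) Ji := by simpa using hJb
  have bv : GB (-2) r w1 (K ^ 1) fr.vp := by simpa using hvp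
  have bA : GBm 0 r w1 (K ^ 5) F.adjugate :=
    gbm_le (hF.adjugate r0) r0 rr (by simpa using num (c := 6) hK 3 2 0 5 (by norm_num) le_rfl)
  have bH : GBm 0 r w1 (K ^ 8) H := by
    have := bJ.smulm r0 bA
    rw [ww, ← hH] at this
    exact gbm_le this r0 rr (num hK 2 1 5 8 (by norm_num) le_rfl)
  have bG : GBm 0 r w1 (K ^ 20) G := by
    have := bH.mul r0 bH.transpose
    rw [ww, ← hG] at this
    exact gbm_le this r0 rr (num hK 4 8 8 20 (by norm_num) le_rfl)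
  have bm : GBv (-1) r w1 (K ^ 25) m := by
    have := bG.mulVec r0 bk
    rw [ww, ← hm] at this
    exact gbv_le this r0 rr (num hK 4 20 1 25 (by norm_num) le_rfl)
  have bd : GB (-2) r w1 (K ^ 31) (fr.k j ⬝ᵥ m + fr.vp) := by
    have h1 := bk.dot r0 bm
    rw [ww] at h1
    have h2 : GB (-2) r w1 (K ^ 30) (fr.k j ⬝ᵥ m) :=
      gb_le h1 r0 rr (num hK 4 1 25 30 (by norm_num) le_rfl)
    exact gb_le (h2.add r0 bv) r0 rr (num_add hK 30 1 31 le_rfl (by norm_num))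
  have bB : GBm 0 r w1 (K ^ 7) (Bf F) := by
    have h1 := bF1.transpose.mul r0 bF
    have h2 := bF.transpose.mul r0 bF1
    rw [ww] at h1 h2
    have h3 : 9 * (K ^ 1 * K ^ 1) ≤ K ^ 6 := num hK 4 1 1 6 (by norm_num) le_rfl
    exact gbm_le ((gbm_le h1 r0 rr h3).sub r0 (gbm_le h2 r0 rr h3)) r0 rr
      (num_add hK 6 6 7 le_rfl le_rfl)
  -- the inverse of the denominator
  have low : ∀ z ∈ Sp T, (K ^ 7)⁻¹ ≤ |ev (fr.k j ⬝ᵥ m + fr.vp) z| := fun z hz => by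
    rw [hm, hG, dot_G]
    refine den_ge hfr j hK hF hki ?_ hz
    rw [Matrix.mulVec_mulVec, ← Matrix.transpose_mul, HF, Matrix.transpose_one, Matrix.one_mulVec]
  obtain ⟨κ, hκ, bκ0⟩ := bd.exists_inv hr (by positivity) low
  have ρ0 : ∀ i, 0 ≤ dvr r (K ^ 73) i := fun i => div_nonneg (r0 i) (by positivity)
  have ρr : ∀ i, dvr r (K ^ 73) i ≤ r i := fun i => div_le_self (r0 i) (one_le_pow₀ K1)
  have ρρ : ∀ i, dvr r (K ^ 73) i ≤ dvr r (K ^ 73) i := fun _ => le_rfl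
  have bκ : GB 2 (dvr r (K ^ 73)) w1 (K ^ 7) κ := by
    refine gb_le bκ0 ρ0 (fun i => ?_) (by rw [inv_inv])
    refine div_le_div_of_nonneg_left (r0 i) (by positivity) ?_
    rw [div_inv_eq_mul, mul_assoc]
    exact num hK 5 31 7 73 (by norm_num) (by norm_num)
  have bm' := gbv_le bm ρ0 ρr le_rfl
  have ba : GBv 1 (dvr r (K ^ 73)) w1 (K ^ 34) (κ • m) := by
    have := bκ.smulv ρ0 bm'
    rw [ww] at this
    exact gbv_le this ρ0 ρρ (num hK 2 7 25 34 (by norm_num) le_rfl)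
  have bP : GBm 0 (dvr r (K ^ 73)) w1 (K ^ 62) (G - Matrix.vecMulVec (κ • m) m) := by
    have h1 := ba.vecMulVec ρ0 bm'
    rw [ww] at h1
    have h2 : GBm 0 (dvr r (K ^ 73)) w1 (K ^ 61) (Matrix.vecMulVec (κ • m) m) :=
      gbm_le h1 ρ0 ρρ (num hK 2 34 25 61 (by norm_num) le_rfl)
    exact gbm_le ((gbm_le bG ρ0 ρr le_rfl).sub ρ0 h2) ρ0 ρρ
      (num_add hK 20 61 62 (by norm_num) le_rfl)
  have bB' := gbm_le bB ρ0 ρr le_rfl
  -- levels
  have iJ : In j.castSucc Ji := (In.det hFin).of_mul_eq_one hJ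
  have iH : ∀ i l, In j.castSucc (H i l) := fun i l => by
    rw [hH]
    exact iJ.mul (In.adjugate hFin i l)
  have iG : ∀ i l, In j.castSucc (G i l) := fun i l => by
    rw [hG]
    exact in_mul (G := Hᵀ) iH (fun i l => iH l i) i l
  have ik : InV j.castSucc (fr.k j) := fun i => In.k hfr j i
  have im : InV j.castSucc m := hm ▸ In.mulVec iG ik
  have iκ : In j.castSucc κ :=
    ((in_dot ik im).add fun l _ => hfr.vp_p l).of_mul_eq_one hκ
  have ia : InV j.castSucc (κ • m) := fun i => iκ.mul (im i)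
  have iP : ∀ i l, In j.castSucc ((G - Matrix.vecMulVec (κ • m) m) i l) := fun i l =>
    (iG i l).sub ((ia i).mul (im l))
  -- symmetry
  have eH : EqvM H := hH ▸ hFe.adjugate.smulA (hFe.det.of_mul_eq_one hJ)
  have eG : EqvM G := hG ▸ eH.mul eH.transpose
  have em : Eqv m := hm ▸ eG.mulVec (hfr.k_eqv j)
  have eκ : InvG κ := (((hfr.k_eqv j).dot em).add hfr.vp_inv).of_mul_eq_one hκ
  have eP : EqvM (G - Matrix.vecMulVec (κ • m) m) := eG.sub ((em.smulA eκ).vecMulVec em)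
  refine ⟨G - Matrix.vecMulVec (κ • m) m, κ • m, fun x => ?_, fun x hx => ?_,
    gbm_le bP ρ0 ρρ (pow_le_pow_right₀ K1 (by norm_num)),
    gbv_le ba ρ0 ρρ (pow_le_pow_right₀ K1 (by norm_num)),
    gbm_le bB' ρ0 ρρ (pow_le_pow_right₀ K1 (by norm_num)), ?_, iP, ia, in_Bf hFin,
    in_mul iP (in_Bf hFin), eP, eP.mul hFe.Bf, fun z hz hzE t ht => ?_⟩
  · have h1 : gm F *ᵥ m = fr.k j := by rw [hm, Matrix.mulVec_mulVec, gG, Matrix.one_mulVec]
    rw [Matrix.sub_mulVec, vv_mulVec, Matrix.mulVec_sub, Matrix.mulVec_mulVec, gG,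
      Matrix.one_mulVec, Matrix.mulVec_smul, Matrix.mulVec_smul, h1, smul_smul, smul_dotProduct,
      smul_eq_mul, mul_comm κ]
  · have h1 : fr.vp * (m ⬝ᵥ x) = 0 := by
      rw [dotProduct, Finset.mul_sum]
      refine Finset.sum_eq_zero fun i _ => ?_
      rw [mul_left_comm, Ty.vp_mul hfr (hx i), mul_zero]
    rw [Matrix.sub_mulVec, vv_mulVec, dotProduct_sub, sym, dotProduct_smul, dotProduct_smul,
      smul_eq_mul, smul_eq_mul]
    linear_combination κ * h1 - (m ⬝ᵥ x) * hκ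
  · have := bP.mul ρ0 bB'
    rw [ww] at this
    exact gbm_le this ρ0 ρρ (num hK 4 62 7 73 (by norm_num) le_rfl)
  · have hO := Sp_sub T hz
    have hO' : ((t, z.2) : Pt) ∈ Om T := ⟨ht.1, ht.2, hO.2.2⟩
    have hv : ev fr.vp (t, z.2) = 0 :=
      hfr.vp_zero _ (hfr.env_anti (Fin.one_le_of_ne_zero (Fin.succ_ne_zero j))
        (hfr.env_t _ z hzE t))
    have hkz : evv (fr.k j) z = evv (fr.k j) (t, z.2) := by
      ext i
      exact ev_of_pd_t (hfr.k_t j i) (s := z.1) (y := z.2) hO hO'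
    have hI : Ring.inverse (star (evm F (t, z.2)) * evm F (t, z.2)) = evm G (t, z.2) :=
      inverse_eq (by rw [← evm_gm, ← evm_mul, gG, evm_one hO'])
        (by rw [← evm_gm, ← evm_mul, Gg, evm_one hO'])
    have hmz : evv m (t, z.2) = evm G (t, z.2) (evv (fr.k j) (t, z.2)) := by
      rw [hm, evv_mulVec]
    have hκz : ev κ (t, z.2) = (⟪evv (fr.k j) (t, z.2), evv m (t, z.2)⟫)⁻¹ := by
      have := congrArg (fun f => ev f (t, z.2)) hκ
      simp only [ev_mul, ev_add, ev_dot, ev_one hO', hv, add_zero] at this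
      exact eq_inv_of_mul_eq_one_left this
    rw [evm_mul, evm_Bf, Mop, Pio, hI, hkz, ← hmz, ← hκz, evm_sub, evm_vecMulVec, evv_smulA,
      r1_smul]

theorem solvASt : PioSt → SolvASt := fun _ => solvASt0

end Pool.Agent.Lib.MP_fbbbeb_an.Cas
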