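import Mathlib
import Pool.Agent.Lib.MP_fbbbeb_an.Cas.SolvS
import Pool.Agent.Lib.MP_fbbbeb_an.Cas.Gev
import Pool.Agent.Lib.MP_fbbbeb_an.Cas.Ev

/-! Fine Gevrey bound for the solution of the projected system, without loss of radius. -/

set_option autoImplicit false

noncomputable section

namespace Pool.Agent.Lib.MP_fbbbeb_an.Cas

open Pool.Agent.Lib.MP_fbbbeb_an.Pub
open scoped ContDiff Topology RealInnerProductSpace Matrix Nat

namespace SoB

variable {T : ℝ}

theorem pd_off {fr : Frame T} (hf : fr.Ok) {l : Fin 4} {f : A T}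
    (h : ∀ z, z ∉ fr.Env l → ev f z = 0) (i : Let) : ∀ z, z ∉ fr.Env l → ev (pd i f) z = 0 := by
  intro z hz
  by_cases ho : z ∈ Om T
  · have e : ev f =ᶠ[𝓝 z] fun _ => 0 := (hf.env_open l z ho hz).mono fun y hy => h y hy
    rw [ev_pd i f ho, e.fderiv_eq]
    simp
  · exact ev_out _ ho

theorem pw_off {fr : Frame T} (hf : fr.Ok) {l : Fin 4} {f : A T}
    (h : ∀ z, z ∉ fr.Env l → ev f z = 0) (u : List Let) :
    ∀ z, z ∉ fr.Env l → ev (pw u f) z = 0 := by
  induction u with
  | nil => exact h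
  | cons i u ih => exact pd_off hf ih i

theorem list_bd {ι : Type*} (L : List ι) (F : ι → A T) (G : ι → ℝ) (z : Pt) {R : ℝ} (hR : 0 ≤ R)
    (h : ∀ p ∈ L, |ev (F p) z| * R ≤ G p) : |ev (L.map F).sum z| * R ≤ (L.map G).sum := by
  induction L with
  | nil => simp
  | cons p L ih =>
    rw [List.map_cons, List.sum_cons, List.map_cons, List.sum_cons, ev_add]
    have a := h p (by simp)
    have b := ih fun q hq => h q (by simp [hq])
    have c := mul_le_mul_of_nonneg_right (abs_add_le (ev (F p) z) (ev (L.map F).sum z)) hR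
    nlinarith

/-- the commutator of a word with a multiplication -/
def cm (u : List Let) (f g : A T) : A T := ((spl u).map fun p => pw p.1 f * pw p.2 g).sum

theorem cm_bd {r r' : Let → ℝ} {x K Z : ℝ} {f g : A T} {z : Pt} (u : List Let)
    (hr : ∀ i, 0 ≤ r' i) (hrr : ∀ i, r' i ≤ x * r i) (hx : 0 ≤ x) (hx2 : x ≤ 1 / 2) (hZ : 0 ≤ Z)
    (hf : BdAt r K f z)
    (hg : ∀ v : List Let, v.length < u.length →
      |ev (pw v g) z| * rpr r' v ≤ Z * ((v.length ! : ℕ) : ℝ) ^ 2) :
    |ev (cm u f g) z| * rpr r' u ≤ 2 * x * (K * Z) * ((u.length ! : ℕ) : ℝ) ^ 2 := by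
  have hK := hf.nonneg
  have h1 := list_bd (spl u) (fun p => pw p.1 f * pw p.2 g)
    (fun p => K * Z * (x ^ p.1.length * ((p.1.length ! : ℕ) : ℝ) ^ 2 *
      (((p.2.length + 0)! : ℕ) : ℝ) ^ 2)) z (rpr_nonneg hr u) (fun p hp => by
    obtain ⟨a, b⟩ := spl_perm hp
    have hl : p.2.length < u.length := by
      have := a.length_eq
      have := List.length_pos_iff.2 b
      simp only [List.length_append] at *
      omega
    have c1 : |ev (pw p.1 f) z| * rpr r' p.1 ≤
        x ^ p.1.length * (K * ((p.1.length ! : ℕ) : ℝ) ^ 2) :=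
      calc |ev (pw p.1 f) z| * rpr r' p.1
          ≤ |ev (pw p.1 f) z| * (x ^ p.1.length * rpr r p.1) :=
            mul_le_mul_of_nonneg_left (rpr_le hr hrr _) (abs_nonneg _)
        _ = x ^ p.1.length * (|ev (pw p.1 f) z| * rpr r p.1) := by ring
        _ ≤ _ := mul_le_mul_of_nonneg_left (hf p.1) (by positivity)
    have c2 := mul_le_mul c1 (hg p.2 hl) (mul_nonneg (abs_nonneg _) (rpr_nonneg hr _))
      (by positivity)
    rw [← rpr_perm r' a, rpr_append, ev_mul, abs_mul, add_zero]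
    linarith)
  rw [List.sum_map_mul_left] at h1
  have h2 := mul_le_mul_of_nonneg_left (spl_gev u 0 hx hx2) (mul_nonneg hK hZ)
  rw [add_zero] at h2
  unfold cm
  linarith

/-- the rest of the differentiated equation -/
def rs (u : List Let) (M : Mat T) (ζ h : Vec T) : Vec T :=
  fun i => ∑ l, cm u (M i l) (ζ l) + pw u (h i)

theorem pw_eq {M : Mat T} {ζ h : Vec T} (he : dtv ζ = M *ᵥ ζ + h) (u : List Let) :
    dtv (fun i => pw u (ζ i)) = (M *ᵥ fun i => pw u (ζ i)) + rs u M ζ h := by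
  funext i
  have e : pd lt (ζ i) = ∑ l, M i l * ζ l + h i := congrFun he i
  show pd lt (pw u (ζ i)) = ∑ l, M i l * pw u (ζ l) + (∑ l, cm u (M i l) (ζ l) + pw u (h i))
  rw [← pw_pd, e, pw_add, pw_sum, ← add_assoc, ← Finset.sum_add_distrib]
  congr 1
  exact Finset.sum_congr rfl fun l _ => pw_mul u _ _

theorem abs_sum3 (f : Fin 3 → A T) (z : Pt) {R B : ℝ} (hR : 0 ≤ R)
    (h : ∀ l, |ev (f l) z| * R ≤ B) : |ev (∑ l, f l) z| * R ≤ 3 * B := by
  rw [ev_sum]
  calc |∑ l, ev (f l) z| * R ≤ (∑ l, |ev (f l) z|) * R :=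
        mul_le_mul_of_nonneg_right (Finset.abs_sum_le_sum_abs _ _) hR
    _ = ∑ l, |ev (f l) z| * R := Finset.sum_mul _ _ _
    _ ≤ ∑ _l : Fin 3, B := Finset.sum_le_sum fun l _ => h l
    _ = 3 * B := by simp

theorem rs_bd {r r' : Let → ℝ} {x K Z c : ℝ} {M : Mat T} {ζ h : Vec T} {z : Pt} (u : List Let)
    (hr : ∀ i, 0 ≤ r' i) (hrr : ∀ i, r' i ≤ x * r i) (hx : 0 ≤ x) (hx2 : x ≤ 1 / 2) (hZ : 0 ≤ Z)
    (hM : ∀ i l, BdAt r K (M i l) z) (hh : ∀ i, BdAt r' c (h i) z)
    (hg : ∀ v : List Let, v.length < u.length → ∀ l,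
      |ev (pw v (ζ l)) z| * rpr r' v ≤ Z * ((v.length ! : ℕ) : ℝ) ^ 2) (i : Fin 3) :
    |ev (rs u M ζ h i) z| * rpr r' u ≤ (6 * x * K * Z + c) * ((u.length ! : ℕ) : ℝ) ^ 2 := by
  have a := abs_sum3 (fun l => cm u (M i l) (ζ l)) z (rpr_nonneg hr u)
    fun l => cm_bd u hr hrr hx hx2 hZ (hM i l) fun v hv => hg v hv l
  have b := hh i u
  have d := mul_le_mul_of_nonneg_right
    (abs_add_le (ev (∑ l, cm u (M i l) (ζ l)) z) (ev (pw u (h i)) z)) (rpr_nonneg hr u)
  unfold rs
  rw [ev_add]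
  nlinarith

end SoB

open SoB in
theorem solvBSt : SolvBSt := by
  refine ⟨7, ?_⟩
  intro T fr l M ζ h w K c r r' hf hK hr hrr hr1 hc hw hM hty hhom hvan he hh hP
  have hK0 : 0 < K := by linarith
  have hB : 0 < K ^ 7 := by positivity
  obtain ⟨x, hx⟩ : ∃ x : ℝ, x = (K ^ 7)⁻¹ := ⟨_, rfl⟩
  have hx0 : 0 < x := by rw [hx]; positivity
  have hxB : x * K ^ 7 = 1 := by rw [hx]; exact inv_mul_cancel₀ hB.ne'
  have h5 : (2 : ℝ) ^ 5 ≤ K ^ 5 := pow_le_pow_left₀ (by norm_num) hK 5
  have hB2 : 32 * K ^ 2 ≤ K ^ 7 := by nlinarith [sq_nonneg K]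
  have hxK2 : 32 * (x * K ^ 2) ≤ 1 := by nlinarith
  have hxK : 64 * (x * K) ≤ 1 := by nlinarith [mul_pos hx0 hK0]
  have hx2 : x ≤ 1 / 128 := by nlinarith
  have hrx : ∀ i, r' i ≤ x * r i := fun i => by
    have := hrr i
    rwa [dvr, div_eq_inv_mul, ← hx] at this
  have hr0 : ∀ i, 0 ≤ r' i := fun i => (hr i).le
  have hMz : ∀ z ∈ Sp T, ∀ i m, BdAt r K (M i m) z := fun z hz i m => by
    simpa [w1] using (hM i m).2 z hz
  have key : ∀ n : ℕ, ∀ u : List Let, u.length = n → ∀ z ∈ Sp T, ∀ i,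
      |ev (pw u (ζ i)) z| * rpr r' u ≤ K ^ 7 * c * w z.1 * ((u.length ! : ℕ) : ℝ) ^ 2 := by
    intro n
    induction n using Nat.strong_induction_on with
    | _ n ih =>
      intro u hu z hz i
      have hzt : z.1 ∈ Set.Ioo 0 T := ⟨hz.1, hz.2.1⟩
      have hwz := hw _ hzt
      by_cases hlt : lt ∈ u
      · obtain ⟨u', hp⟩ : ∃ u' : List Let, u.Perm (lt :: u') := by
          obtain ⟨a, b, rfl⟩ := List.append_of_mem hlt
          exact ⟨a ++ b, List.perm_middle⟩
        have hl : u.length = u'.length + 1 := by simpa using hp.length_eq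
        have hZ : 0 ≤ K ^ 7 * c * w z.1 := by positivity
        have a := rs_bd (ζ := ζ) u' hr0 hrx hx0.le (by linarith) hZ (hMz z hz)
          (fun i => (hh i).2 z hz) (fun v hv m => ih v.length (by omega) v rfl z hz m) i
        have b := abs_sum3 (fun m => M i m * pw u' (ζ m)) z (rpr_nonneg hr0 u')
          (B := K * (K ^ 7 * c * w z.1 * ((u'.length ! : ℕ) : ℝ) ^ 2)) fun m => by
            rw [ev_mul, abs_mul, mul_assoc]
            exact mul_le_mul (hMz z hz i m).abs_le (ih u'.length (by omega) u' rfl z hz m)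
              (mul_nonneg (abs_nonneg _) (rpr_nonneg hr0 _)) hK0.le
        have e : pw u (ζ i) = ∑ m, M i m * pw u' (ζ m) + rs u' M ζ h i := by
          rw [pw_perm hp, pw_cons]
          exact congrFun (pw_eq he u') i
        have d := mul_le_mul_of_nonneg_right
          (abs_add_le (ev (∑ m, M i m * pw u' (ζ m)) z) (ev (rs u' M ζ h i) z)) (rpr_nonneg hr0 u')
        have hfac : ((u'.length ! : ℕ) : ℝ) ^ 2 ≤ ((u.length ! : ℕ) : ℝ) ^ 2 := by
          have : (u'.length)! ≤ (u.length)! := Nat.factorial_le (by omega)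
          gcongr
        have hrl : r' lt ≤ x := (hrx lt).trans (by nlinarith [hr1 lt])
        have hcw : 0 ≤ c * w z.1 := mul_nonneg hc hwz
        rw [e, ev_add, rpr_perm r' hp, rpr_cons]
        set F : ℝ := ((u'.length ! : ℕ) : ℝ) ^ 2
        have hF : 0 ≤ F := by positivity
        set Z : ℝ := K ^ 7 * c * w z.1 with hZdef
        have hcZ : c * w z.1 = x * Z := by
          rw [hZdef]
          linear_combination (-(c * w z.1)) * hxB
        calc |ev (∑ m, M i m * pw u' (ζ m)) z + ev (rs u' M ζ h i) z| * (r' lt * rpr r' u')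
            = r' lt * (|ev (∑ m, M i m * pw u' (ζ m)) z + ev (rs u' M ζ h i) z| * rpr r' u') := by
              ring
          _ ≤ x * (3 * (K * (Z * F)) + (6 * x * K * Z + c * w z.1) * F) :=
              mul_le_mul hrl (by linarith) (mul_nonneg (abs_nonneg _) (rpr_nonneg hr0 _)) hx0.le
          _ = (3 * (x * K) + 6 * x * (x * K) + x * x) * (Z * F) := by rw [hcZ]; ring
          _ ≤ 1 * (Z * F) := by
              apply mul_le_mul_of_nonneg_right _ (mul_nonneg hZ hF)
              nlinarith [mul_pos hx0 hK0]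
          _ ≤ _ := by rw [one_mul]; exact mul_le_mul_of_nonneg_left hfac hZ
      · by_cases hE : z ∈ fr.Env l
        · have hR := rpr_pos hr u
          set F : ℝ := ((u.length ! : ℕ) : ℝ) ^ 2
          have hF : 0 ≤ F := by positivity
          have hsp : ∀ t ∈ Set.Ioo 0 T, ((t, z.2) : Pt) ∈ Sp T := fun t ht => ⟨ht.1, ht.2, hz.2.2⟩
          have h1 := hP z hz hE (fun t => evv (fun i => pw u (ζ i)) (t, z.2))
            (fun t => evv (rs u M ζ h) (t, z.2))
            (2 * ((6 * x * K * (K ^ 7 * c) + c) * F / rpr r' u)) (by positivity)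
            (fun t ht => by
              have := hasDerivAt_evv (fun i => pw u (ζ i)) (Sp_sub T (hsp t ht))
              rwa [pw_eq he u, evv_add, evv_mulVec] at this)
            (hvan u hlt z.2)
            (fun t ht => by
              have hwt := hw t ht
              rw [mul_assoc]
              refine norm_evv_le fun m => ?_
              have := rs_bd (ζ := ζ) (Z := K ^ 7 * c * w t) u hr0 hrx hx0.le (by linarith)
                (by positivity) (hMz _ (hsp t ht)) (fun i => (hh i).2 _ (hsp t ht))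
                (fun v hv m => ih v.length (by omega) v rfl _ (hsp t ht) m) m
              rw [div_mul_eq_mul_div, le_div_iff₀ hR]
              refine this.trans (le_of_eq ?_)
              ring) z.1 hzt
          have h2 := (abs_ev_le_evv (fun i => pw u (ζ i)) z i).trans h1
          have h3 := mul_le_mul_of_nonneg_right h2 hR.le
          refine h3.trans ?_
          have e : K * (2 * ((6 * x * K * (K ^ 7 * c) + c) * F / rpr r' u)) * w z.1 * rpr r' u =
              (12 * (x * K ^ 2) + 2 * (x * K)) * (K ^ 7 * c * w z.1 * F) := by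
            field_simp
            linear_combination (-(2 * c * F * w z.1)) * hxB
          rw [e]
          exact mul_le_of_le_one_left (by positivity) (by linarith)
        · rw [pw_off hf (hty i).2 u z hE, abs_zero, zero_mul]
          positivity
  exact fun i => ⟨hhom i, fun z hz u => key _ u rfl z hz i⟩

end Pool.Agent.Lib.MP_fbbbeb_an.Cas
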