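import Mathlib
import Pool.Agent.Lib.MP_fbbbeb_an.Cas.Stmt

/-! The residual can be chosen equivariant: averaging over the symmetry group. -/

set_option autoImplicit false

noncomputable section

namespace Pool.Agent.Lib.MP_fbbbeb_an.Cas

open Pool.Agent.Lib.MP_fbbbeb_an.Pub
open scoped ContDiff Topology RealInnerProductSpace Matrix Nat

namespace SyS

variable {T : ℝ}

/-- the action on points as a continuous linear map -/
def gL (g : E ≃ₗᵢ[ℝ] E) : Pt →L[ℝ] Pt :=
  (ContinuousLinearMap.id ℝ ℝ).prodMap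
    ((g.toContinuousLinearEquiv : E →L[ℝ] E).prodMap (ContinuousLinearMap.id ℝ E))

theorem gL_apply (g : E ≃ₗᵢ[ℝ] E) (z : Pt) : gL g z = gz g z := rfl

theorem gz_Om (g : E ≃ₗᵢ[ℝ] E) (z : Pt) : gz g z ∈ Om T ↔ z ∈ Om T := by
  simp [Om, gz]

theorem gz_Sp (g : E ≃ₗᵢ[ℝ] E) (z : Pt) : gz g z ∈ Sp T ↔ z ∈ Sp T := by
  simp [Sp, gz]

theorem gz_mul (g h : E ≃ₗᵢ[ℝ] E) (z : Pt) : gz (g * h) z = gz g (gz h z) := rfl

theorem gz_inv (g : E ≃ₗᵢ[ℝ] E) (z : Pt) : gz g⁻¹ (gz g z) = z := by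
  rw [← gz_mul, inv_mul_cancel]; rfl

theorem good_act (g : E ≃ₗᵢ[ℝ] E) (f : A T) : Good T fun z => ev f (gz g z) := by
  refine ⟨(ev_smooth f).comp (gL g).contDiff.contDiffOn fun z hz => (gz_Om g z).2 hz,
    fun j z _ => ?_⟩
  have h : gz g (z + (2 * Real.pi) • vec (lp j)) = gz g z + (2 * Real.pi) • vec (lp j) := by
    simp [gz, vec]
  simp only [h, ev_per]

theorem ev_act0 (g : E ≃ₗᵢ[ℝ] E) (f : A T) (z : Pt) :
    ev (mkA T fun z => ev f (gz g z)) z = ev f (gz g z) := by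
  by_cases hz : z ∈ Om T
  · exact ev_mkA (good_act g f) hz
  · rw [ev_out _ hz, ev_out _ (fun h => hz ((gz_Om g z).1 h))]

/-- pull-back along the action -/
def act (g : E ≃ₗᵢ[ℝ] E) : A T →ₐ[ℝ] A T where
  toFun f := mkA T fun z => ev f (gz g z)
  map_one' := A_ext fun z hz => by
    rw [ev_act0, ev_one hz, ev_one ((gz_Om g z).2 hz)]
  map_mul' f h := A_ext fun z _ => by
    rw [ev_mul, ev_act0, ev_act0, ev_act0, ev_mul]
  map_zero' := A_ext fun z _ => by rw [ev_act0, ev_zero, ev_zero]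
  map_add' f h := A_ext fun z _ => by
    rw [ev_add, ev_act0, ev_act0, ev_act0, ev_add]
  commutes' c := A_ext fun z hz => by
    rw [ev_act0, ev_algebraMap c hz, ev_algebraMap c ((gz_Om g z).2 hz)]

theorem ev_act (g : E ≃ₗᵢ[ℝ] E) (f : A T) (z : Pt) : ev (act g f) z = ev f (gz g z) :=
  ev_act0 g f z

theorem ev_pd_act (g : E ≃ₗᵢ[ℝ] E) (i : Let) (f : A T) {z : Pt} (hz : z ∈ Om T) :
    ev (pd i (act g f)) z = fderiv ℝ (ev f) (gz g z) (gz g (vec i)) := by
  have h : ev (act g f) = ev f ∘ gL g := funext fun y => ev_act g f y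
  have hd : DifferentiableAt ℝ (ev f) (gL g z) := ev_diff f ((gz_Om g z).2 hz)
  rw [ev_pd i _ hz, h, fderiv_comp z hd (gL g).differentiableAt, (gL g).fderiv]
  rfl

theorem pd_act_of {g : E ≃ₗᵢ[ℝ] E} {i j : Let} {e : ℝ} (h : gz g (vec i) = e • vec j) (f : A T) :
    pd i (act g f) = e • act g (pd j f) := A_ext fun z hz => by
  rw [ev_pd_act g i f hz, h, map_smul, ev_smul, ev_act, ev_pd j f ((gz_Om g z).2 hz), smul_eq_mul]

theorem pd_t_act (g : E ≃ₗᵢ[ℝ] E) (f : A T) : pd lt (act g f) = act g (pd lt f) := by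
  rw [pd_act_of (j := lt) (e := 1) (by simp [gz, vec]), one_smul]

theorem pd_p_act (g : E ≃ₗᵢ[ℝ] E) (j : Fin 3) (f : A T) :
    pd (lp j) (act g f) = act g (pd (lp j) f) := by
  rw [pd_act_of (j := lp j) (e := 1) (by simp [gz, vec]), one_smul]

/-- `g` sends the `i`-th basis vector to `e i` times the `σ i`-th one -/
structure Sg (g : E ≃ₗᵢ[ℝ] E) (σ : Equiv.Perm (Fin 3)) (e : Fin 3 → ℝ) : Prop where
  sq : ∀ i, e i * e i = 1
  app : ∀ (a : E) (i : Fin 3), g a (σ i) = e i * a i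

theorem exists_sg {g : E ≃ₗᵢ[ℝ] E} (hg : g ∈ Gp) : ∃ σ e, Sg g σ e := by
  obtain ⟨c, s, hs, h⟩ := hg
  refine ⟨Equiv.subRight c, fun i => s (i - c), fun i => ?_, fun a i => ?_⟩
  · rcases hs (i - c) with h1 | h1 <;> simp [h1]
  · rw [h]; simp

variable {g : E ≃ₗᵢ[ℝ] E} {σ : Equiv.Perm (Fin 3)} {e : Fin 3 → ℝ}

theorem Sg.abs (h : Sg g σ e) (i : Fin 3) : |e i| = 1 := by
  have h1 := h.sq i
  have h2 : |e i| * |e i| = 1 := by rw [← abs_mul, h1, abs_one]
  nlinarith [abs_nonneg (e i)]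

theorem Sg.single (h : Sg g σ e) (i : Fin 3) :
    g (EuclideanSpace.single i 1) = e i • EuclideanSpace.single (σ i) (1 : ℝ) := by
  ext m
  obtain ⟨l, rfl⟩ := σ.surjective m
  rw [h.app]
  by_cases hl : l = i
  · simp [hl]
  · have : σ l ≠ σ i := fun hh => hl (σ.injective hh)
    simp [hl, this]

theorem Sg.symm_app (h : Sg g σ e) (y : E) (i : Fin 3) : g.symm y i = e i * y (σ i) := by
  have h1 := h.app (g.symm y) i
  rw [g.apply_symm_apply] at h1
  rw [h1, ← mul_assoc, h.sq, one_mul]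

theorem Sg.pd_a (h : Sg g σ e) (i : Fin 3) (f : A T) :
    pd (la i) (act g f) = e i • act g (pd (la (σ i)) f) :=
  pd_act_of (by simp [gz, vec, h.single]) f

/-- action on vector fields -/
def actV (g : E ≃ₗᵢ[ℝ] E) (V : Vec T) : Vec T :=
  fun i => ∑ m, g (EuclideanSpace.single i 1) m • act g (V m)

theorem Sg.actV (h : Sg g σ e) (V : Vec T) (i : Fin 3) :
    actV g V i = e i • act g (V (σ i)) := by
  unfold SyS.actV
  rw [Finset.sum_eq_single (σ i)]
  · simp [h.single]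
  · intro m _ hm
    simp [h.single, hm]
  · simp

theorem evv_actV (hg : g ∈ Gp) (V : Vec T) (z : Pt) :
    evv (actV g V) z = g.symm (evv V (gz g z)) := by
  obtain ⟨σ, e, h⟩ := exists_sg hg
  ext i
  rw [h.symm_app]
  show ev (actV g V i) z = e i * ev (V (σ i)) (gz g z)
  rw [h.actV, ev_smul, ev_act]

theorem actV_of_eqv (hg : g ∈ Gp) {V : Vec T} (hV : Eqv V) : actV g V = V := by
  funext i
  refine A_ext fun z _ => ?_
  have h := evv_actV hg V z
  rw [hV g hg z, g.symm_apply_apply] at h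
  exact congrArg (fun y : E => y i) h

theorem D_app (fr : Frame T) (i : Fin 3) (f : A T) :
    D fr i f = pd (la i) f + ∑ j, (fr.N j.succ • fr.k j i) * pd (lp j) f := by
  simp [D, Df, Fin.sum_univ_three]

theorem Sg.D_act {fr : Frame T} (hf : fr.Ok) (hg : g ∈ Gp) (h : Sg g σ e) (i : Fin 3) (f : A T) :
    D fr i (act g f) = e i • act g (D fr (σ i) f) := by
  rw [D_app, D_app, map_add, map_sum, smul_add, h.pd_a, Finset.smul_sum]
  congr 1
  refine Finset.sum_congr rfl fun j _ => ?_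
  have hk : fr.k j i = e i • act g (fr.k j (σ i)) := by
    rw [← h.actV, actV_of_eqv hg (hf.k_eqv j)]
  rw [pd_p_act, map_mul, map_smul, hk]
  simp only [smul_mul_assoc, smul_smul, mul_comm (e i)]

theorem Sg.D_actV {fr : Frame T} (hf : fr.Ok) (hg : g ∈ Gp) (h : Sg g σ e) (V : Vec T)
    (i l : Fin 3) : D fr l (SyS.actV g V i) = (e i * e l) • act g (D fr (σ l) (V (σ i))) := by
  rw [h.actV, Derivation.map_smul, h.D_act hf hg, smul_smul]

theorem closed_actV {fr : Frame T} (hf : fr.Ok) (hg : g ∈ Gp) {V : Vec T} (hV : Closed fr V) :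
    Closed fr (actV g V) := by
  obtain ⟨σ, e, h⟩ := exists_sg hg
  intro i l
  rw [h.D_actV hf hg, h.D_actV hf hg, mul_comm (e l), ← smul_sub, ← map_sub, Derivation.map_smul,
    pd_t_act, hV, map_zero, smul_zero]

theorem dv_actV {fr : Frame T} (hf : fr.Ok) (hg : g ∈ Gp) (V : Vec T) :
    dv fr (actV g V) = act g (dv fr V) := by
  obtain ⟨σ, e, h⟩ := exists_sg hg
  unfold dv
  rw [map_sum, ← Equiv.sum_comp σ fun i => act g (D fr i (V i))]
  refine Finset.sum_congr rfl fun i _ => ?_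
  rw [h.D_actV hf hg, h.sq, one_smul]

theorem Sg.Dm_eq {fr : Frame T} (hf : fr.Ok) (hg : g ∈ Gp) (h : Sg g σ e) {X : Vec T}
    (hX : Eqv X) (i l : Fin 3) : Dm fr X i l = (e i * e l) • act g (Dm fr X (σ i) (σ l)) := by
  have h1 := h.D_actV hf hg X i l
  rw [actV_of_eqv hg hX] at h1
  exact h1

theorem web_actV {fr : Frame T} (hf : fr.Ok) (hg : g ∈ Gp) {X : Vec T} (hX : Eqv X) :
    actV g (web fr X X) = web fr X X := by
  obtain ⟨σ, e, h⟩ := exists_sg hg
  funext l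
  have hw : ∀ m, web fr X X m = ∑ i, Dm fr X i m * pd lt (X i) := fun m => by
    simp [web, Matrix.mulVec, dotProduct, dtv]
  rw [h.actV, hw, hw, map_sum, ← Equiv.sum_comp σ fun i => act g (Dm fr X i (σ l) * pd lt (X i)),
    Finset.smul_sum]
  refine Finset.sum_congr rfl fun i _ => ?_
  have hx : X i = e i • act g (X (σ i)) := by rw [← h.actV, actV_of_eqv hg hX]
  have hx' : pd lt (X i) = e i • act g (pd lt (X (σ i))) := by
    conv_lhs => rw [hx]
    rw [Derivation.map_smul, pd_t_act]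
  rw [h.Dm_eq hf hg hX i l, hx', map_mul, smul_mul_smul_comm, mul_right_comm, h.sq, one_mul]

theorem det_act {fr : Frame T} (hf : fr.Ok) (hg : g ∈ Gp) {X : Vec T} (hX : Eqv X) :
    act g (Dm fr X).det = (Dm fr X).det := by
  obtain ⟨σ, e, h⟩ := exists_sg hg
  have h1 : Dm fr X = Matrix.of fun i l => algebraMap ℝ (A T) (e i) *
      (Matrix.of fun i l => algebraMap ℝ (A T) (e l) *
        (((act g).mapMatrix (Dm fr X)).submatrix σ σ) i l) i l := by
    ext i l : 1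
    rw [h.Dm_eq hf hg hX i l]
    simp [Algebra.smul_def, mul_assoc]
  have h2 : (∏ i, algebraMap ℝ (A T) (e i)) * ∏ i, algebraMap ℝ (A T) (e i) = 1 := by
    rw [← Finset.prod_mul_distrib]
    simp only [← map_mul, h.sq, map_one, Finset.prod_const_one]
  conv_rhs => rw [h1]
  rw [Matrix.det_mul_column, Matrix.det_mul_row, ← mul_assoc, h2, one_mul,
    Matrix.det_submatrix_equiv_self, AlgHom.map_det]

/-- action on letters -/
def sl (σ : Equiv.Perm (Fin 3)) : Let → Let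
  | some (Sum.inl i) => la (σ i)
  | x => x

theorem Sg.pw_act (h : Sg g σ e) (u : List Let) (f : A T) :
    ∃ s : ℝ, |s| = 1 ∧ pw u (act g f) = s • act g (pw (u.map (sl σ)) f) := by
  induction u with
  | nil => exact ⟨1, abs_one, by simp [pw]⟩
  | cons i u ih =>
    obtain ⟨s, hs, hu⟩ := ih
    have h1 : pw (i :: u) (act g f) = s • pd i (act g (pw (u.map (sl σ)) f)) := by
      show pd i (pw u (act g f)) = _
      rw [hu, Derivation.map_smul]
    rcases i with _ | i | j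
    · exact ⟨s, hs, by rw [h1, pd_t_act]; rfl⟩
    · exact ⟨s * e i, by rw [abs_mul, hs, h.abs, one_mul], by rw [h1, h.pd_a, smul_smul]; rfl⟩
    · exact ⟨s, hs, by rw [h1, pd_p_act]; rfl⟩

theorem rpr_sl {r : Let → ℝ} (hr : ∀ i l, r (la i) = r (la l)) (σ : Equiv.Perm (Fin 3))
    (u : List Let) : rpr r (u.map (sl σ)) = rpr r u := by
  unfold rpr
  rw [List.map_map]
  congr 2
  funext i
  rcases i with _ | i | j
  · rfl
  · exact hr _ _
  · rfl

theorem gb_act {r : Let → ℝ} (hr : ∀ i l, r (la i) = r (la l)) (hg : g ∈ Gp) {d : ℤ}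
    {w : ℝ → ℝ} {M : ℝ} {f : A T} (hf : GB d r w M f) : GB d r w M (act g f) := by
  obtain ⟨σ, e, h⟩ := exists_sg hg
  refine ⟨fun z s hs => ?_, fun z hz u => ?_⟩
  · rw [ev_act, ev_act, ← hf.1 (gz g z) s hs]
    simp [gz]
  · obtain ⟨s, hs, hu⟩ := h.pw_act u f
    have h1 := hf.2 (gz g z) ((gz_Sp g z).2 hz) (u.map (sl σ))
    rw [rpr_sl hr, List.length_map] at h1
    rw [hu, ev_smul, abs_mul, hs, one_mul, ev_act]
    exact h1

theorem pw_smul (u : List Let) (c : ℝ) (f : A T) : pw u (c • f) = c • pw u f := by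
  induction u with
  | nil => rfl
  | cons i u ih =>
    show pd i (pw u (c • f)) = c • pd i (pw u f)
    rw [ih, Derivation.map_smul]

theorem pw_sum {ι : Type*} (s : Finset ι) (u : List Let) (f : ι → A T) :
    pw u (∑ i ∈ s, f i) = ∑ i ∈ s, pw u (f i) := by
  induction u with
  | nil => rfl
  | cons j u ih =>
    show pd j (pw u (∑ i ∈ s, f i)) = ∑ i ∈ s, pd j (pw u (f i))
    rw [ih, map_sum]

theorem gb_sign {r : Let → ℝ} {d : ℤ} {w : ℝ → ℝ} {M s : ℝ} {f : A T} (hs : |s| = 1)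
    (hf : GB d r w M f) : GB d r w M (s • f) := by
  refine ⟨fun z t ht => ?_, fun z hz u => ?_⟩
  · rw [ev_smul, ev_smul, hf.1 z t ht]; ring
  · rw [pw_smul, ev_smul, abs_mul, hs, one_mul]
    exact hf.2 z hz u

theorem card_pos : (0 : ℝ) < Fintype.card Gp := by
  exact_mod_cast Fintype.card_pos

theorem avg_const {M : Type*} [AddCommGroup M] [Module ℝ M] (x : M) :
    (Fintype.card Gp : ℝ)⁻¹ • ∑ _g : Gp, x = x := by
  rw [Finset.sum_const, Finset.card_univ, ← Nat.cast_smul_eq_nsmul ℝ, smul_smul,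
    inv_mul_cancel₀ card_pos.ne', one_smul]

theorem gb_avg {r : Let → ℝ} (hr : ∀ i, 0 ≤ r i) {d : ℤ} {w : ℝ → ℝ} {M : ℝ} {f : Gp → A T}
    (hf : ∀ g, GB d r w M (f g)) : GB d r w M ((Fintype.card Gp : ℝ)⁻¹ • ∑ g, f g) := by
  refine ⟨fun z t ht => ?_, fun z hz u => ?_⟩
  · rw [ev_smul, ev_smul, ev_sum, ev_sum, Finset.sum_congr rfl fun g _ => (hf g).1 z t ht,
      ← Finset.mul_sum]
    ring
  · have h0 : 0 ≤ rpr r u := List.prod_nonneg fun x hx => by
      obtain ⟨i, -, rfl⟩ := List.mem_map.1 hx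
      exact hr i
    rw [pw_smul, pw_sum, ev_smul, ev_sum, abs_mul, abs_of_pos (inv_pos.2 card_pos), mul_assoc]
    calc _ ≤ (Fintype.card Gp : ℝ)⁻¹ * ∑ _g : Gp, M * w z.1 * ((u.length ! : ℕ) : ℝ) ^ 2 := by
          refine mul_le_mul_of_nonneg_left ?_ (inv_pos.2 card_pos).le
          refine (mul_le_mul_of_nonneg_right (Finset.abs_sum_le_sum_abs _ _) h0).trans ?_
          rw [Finset.sum_mul]
          exact Finset.sum_le_sum fun g _ => (hf g).2 z hz u
      _ = _ := avg_const _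

/-- average of a vector field over the group -/
def avg (V : Vec T) : Vec T := (Fintype.card Gp : ℝ)⁻¹ • ∑ g : Gp, actV g.1 V

theorem avg_apply (V : Vec T) (i : Fin 3) :
    avg V i = (Fintype.card Gp : ℝ)⁻¹ • ∑ g : Gp, actV g.1 V i := by
  simp [avg, Finset.sum_apply]

theorem evv_avg (V : Vec T) (z : Pt) :
    evv (avg V) z = (Fintype.card Gp : ℝ)⁻¹ • ∑ g : Gp, g.1.symm (evv V (gz g.1 z)) := by
  ext i
  show ev (avg V i) z = _
  rw [avg_apply, ev_smul, ev_sum, PiLp.smul_apply, smul_eq_mul, WithLp.ofLp_sum, Finset.sum_apply]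
  congr 1
  refine Finset.sum_congr rfl fun g _ => ?_
  rw [← evv_actV g.2]
  rfl

theorem eqv_avg (V : Vec T) : Eqv (avg V) := by
  intro h hh z
  rw [evv_avg, evv_avg, map_smul, map_sum,
    ← Equiv.sum_comp (Equiv.mulRight (⟨h, hh⟩ : Gp)) fun g : Gp => h (g.1.symm (evv V (gz g.1 z)))]
  congr 1
  refine Finset.sum_congr rfl fun g _ => ?_
  show g.1.symm (evv V (gz g.1 (gz h z))) = h ((g.1 * h).symm (evv V (gz g.1 (gz h z))))
  show _ = h (h.symm (g.1.symm (evv V (gz g.1 (gz h z)))))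
  rw [h.apply_symm_apply]

theorem actV_sub (g : E ≃ₗᵢ[ℝ] E) (V W : Vec T) : actV g (V - W) = actV g V - actV g W := by
  funext i
  simp [actV, smul_sub, Finset.sum_sub_distrib]

theorem actV_sum (g : E ≃ₗᵢ[ℝ] E) (R : Fin 4 → Vec T) :
    actV g (∑ l, R l) = ∑ l, actV g (R l) := by
  funext i
  simp only [actV, Finset.sum_apply, map_sum, Finset.smul_sum]
  exact Finset.sum_comm

theorem avg_sum (R : Fin 4 → Vec T) : ∑ l, avg (R l) = avg (∑ l, R l) := by
  unfold avg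
  rw [← Finset.smul_sum, Finset.sum_comm]
  simp only [actV_sum]

theorem ty_act {fr : Frame T} (hf : fr.Ok) (hg : g ∈ Gp) {l : Fin 4} {f : A T} (h : Ty fr l f) :
    Ty fr l (act g f) := by
  refine ⟨fun j hj => by rw [pd_p_act, h.1 j hj, map_zero], fun z hz => ?_⟩
  rw [ev_act]
  refine h.2 _ fun hc => hz ?_
  have := hf.env_g l g⁻¹ (Gp.inv_mem hg) _ hc
  rwa [gz_inv] at this

theorem sb_avg {fr : Frame T} (hf : fr.Ok) {r : Let → ℝ} (hr : ∀ i l, r (la i) = r (la l))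
    (hr0 : ∀ i, 0 ≤ r i) {w : ℝ → ℝ} {l : Fin 4} {c : ℝ} {V : Vec T} (h : SB fr r w l c V) :
    SB fr r w l c (avg V) := by
  have hty : ∀ (g : Gp) i, Ty fr l (actV g.1 V i) := fun g i => by
    obtain ⟨σ, e, hs⟩ := exists_sg g.2
    have h1 := ty_act hf g.2 (h.1 (σ i))
    rw [hs.actV]
    exact ⟨fun j hj => by rw [Derivation.map_smul, h1.1 j hj, smul_zero],
      fun z hz => by rw [ev_smul, h1.2 z hz, mul_zero]⟩
  refine ⟨fun i => ⟨fun j hj => ?_, fun z hz => ?_⟩, fun i => ?_⟩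
  · rw [avg_apply, Derivation.map_smul, map_sum,
      Finset.sum_eq_zero fun g _ => (hty g i).1 j hj, smul_zero]
  · rw [avg_apply, ev_smul, ev_sum, Finset.sum_eq_zero fun g _ => (hty g i).2 z hz, mul_zero]
  · rw [avg_apply]
    refine gb_avg hr0 fun g => ?_
    obtain ⟨σ, e, hs⟩ := exists_sg g.2
    rw [hs.actV]
    exact gb_sign (hs.abs i) (gb_act hr g.2 (h.2 (σ i)))

theorem closed_avg {fr : Frame T} (hf : fr.Ok) {V : Vec T} (hV : Closed fr V) :
    Closed fr (avg V) := by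
  intro i l
  rw [avg_apply, avg_apply, Derivation.map_smul, Derivation.map_smul, ← smul_sub, map_sum, map_sum,
    ← Finset.sum_sub_distrib, Derivation.map_smul, map_sum,
    Finset.sum_eq_zero fun g _ => closed_actV hf g.2 hV i l, smul_zero]

theorem dv_avg {fr : Frame T} (hf : fr.Ok) (V : Vec T) :
    dv fr (avg V) = (Fintype.card Gp : ℝ)⁻¹ • ∑ g : Gp, act g.1 (dv fr V) := by
  simp only [← fun g : Gp => dv_actV hf g.2 V]
  unfold dv
  rw [Finset.sum_comm, Finset.smul_sum]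
  refine Finset.sum_congr rfl fun i _ => ?_
  rw [avg_apply, Derivation.map_smul, map_sum]

end SyS

open SyS in
theorem symSt : SymSt := by
  rintro T fr r w c X hf hr hr0 hX ⟨⟨R1, h1, hc⟩, ⟨R2, h2, hd⟩⟩
  refine ⟨fun l => avg (R1 l), fun l => avg (R2 l), fun l => sb_avg hf hr hr0 (h1 l),
    fun l => sb_avg hf hr hr0 (h2 l), fun l => eqv_avg _, fun l => eqv_avg _, ?_, ?_⟩
  · have h : avg (web fr X X - ∑ l, R1 l) = web fr X X - ∑ l, avg (R1 l) := by
      rw [avg_sum]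
      unfold avg
      simp only [actV_sub, Finset.sum_sub_distrib, smul_sub]
      rw [Finset.sum_congr rfl fun (g : Gp) _ => web_actV hf g.2 hX, avg_const]
    rw [← h]
    exact closed_avg hf hc
  · rw [avg_sum, dv_avg hf, ← hd,
      Finset.sum_congr rfl fun (g : Gp) _ => (show act g.1 ((Dm fr X).det - 1) = (Dm fr X).det - 1 by
        rw [map_sub, map_one, det_act hf g.2 hX]), avg_const]

end Pool.Agent.Lib.MP_fbbbeb_an.Cas
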