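import Mathlib
import Pool.Agent.Lib.MP_fbbbeb_an.Cas.Stmt
import Pool.Agent.Lib.MP_fbbbeb_an.Cas.Typ

/-! The update step: a new field `Y` is added to the background. -/

set_option autoImplicit false

noncomputable section

namespace Pool.Agent.Lib.MP_fbbbeb_an.Cas

open Pool.Agent.Lib.MP_fbbbeb_an.Pub
open scoped ContDiff Topology RealInnerProductSpace Matrix Nat

namespace Up

theorem det_four {R : Type*} [CommRing R] (L W S B : Matrix (Fin 3) (Fin 3) R) :
    6 * (L + W + S + B).det = 6 * (L + W + S).det + 3 * dd L L B +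
      (6 * dd B W L + 3 * dd B W W + 3 * dd B B (L + W) + dd B B B) +
      (6 * dd B S (L + W) + 3 * dd B S S + 3 * dd B B S) := by
  have a1 : (1 : Fin 3) + 1 = 2 := rfl
  have a2 : (1 : Fin 3) + 2 = 0 := rfl
  have a3 : (2 : Fin 3) + 1 = 0 := rfl
  have a4 : (2 : Fin 3) + 2 = 1 := rfl
  simp only [dd, cr, tp, Matrix.det_fin_three, Fin.sum_univ_three, cross_apply, dotProduct,
    Matrix.add_apply, zero_add, a1, a2, a3, a4, Matrix.cons_val_zero, Matrix.cons_val_one,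
    Matrix.cons_val_two, Matrix.head_cons, Matrix.tail_cons]
  ring

variable {T : ℝ}

theorem six_inv (f : A T) : (1 / 6 : ℝ) • (6 * f) = f := by
  have h : (6 : A T) * f = (6 : ℝ) • f := by
    have h1 := Nat.cast_smul_eq_nsmul ℝ 6 f
    rw [nsmul_eq_mul] at h1
    exact_mod_cast h1.symm
  rw [h, smul_smul]
  norm_num

end Up

open RK Up

theorem updSt (hA : AlgSt) (hQ : UpdQSt) (hS : UpdSSt) : UpdSt := by
  obtain ⟨C2, hQ⟩ := hQ
  obtain ⟨C1, hS⟩ := hS
  refine ⟨C1 + 13 * C2 + 1, ?_⟩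
  intro T fr K θ ε r w v j y c Xl W Y Q hfr hR hW hy hyK hj hXl hXb hWb hQb hY h1 h2
  obtain ⟨a1, a2, -, -, a5, -, -⟩ := hA T fr hfr
  have hK2 := hR.K_two
  have hK1 : 1 ≤ K := by linarith
  have hK0 : 0 ≤ K := by linarith
  have hr0 := reg_r_nonneg hfr hR
  have hs := reg_sh_nonneg hfr hR
  have hKK : K ≤ K ^ 13 := le_self_pow₀ hK1 (by norm_num)
  -- the same-frequency terms
  obtain ⟨s1, s2⟩ := hS T fr K θ ε r w v j y Xl W Y hfr hR hW hy hyK hj hXl hXb hWb hY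
  -- the terms with the rest of the background
  have hR' : Reg fr (K ^ 13) θ ε (sh θ 1 r) :=
    reg_mono hfr (reg_shrink_pow hfr hR 1) (pow_le_pow_right₀ hK1 (by norm_num))
  have hDW := SB.Dm hfr hR (fun t ht => mul_nonneg hK0 (wt_vn hW j t ht)) hWb
  have hP : GBm 0 (sh θ 1 r) w1 (K ^ 13) (Dm fr (Xl + W)) := fun i l => by
    rw [RK.Dm_add]
    have e1 : GB 0 (sh θ 1 r) w1 K (Dm fr Xl i l) :=
      gb_mono (hs 1) (reg_sh_le hfr hR 1) (fun _ _ => le_rfl) (hXb i l)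
    have e2 : GB 0 (sh θ 1 r) w1 (K ^ 12) (Dm fr W i l) :=
      gb_le (fun t ht => by
        have := mul_le_mul_of_nonneg_left (hW.v_le j t ht) (by positivity : 0 ≤ K ^ 10 * K)
        simp only [w1]
        calc K ^ 10 * K * v j t ≤ K ^ 10 * K * K := this
          _ = K ^ 12 * 1 := by ring) (hDW i l)
    refine gb_le (fun t _ => ?_) (gb_add (hs 1) e1 e2)
    have e3 : K ≤ K ^ 12 := le_self_pow₀ hK1 (by norm_num)
    have e4 : 2 * K ^ 12 ≤ K * K ^ 12 := mul_le_mul_of_nonneg_right hK2 (by positivity)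
    simp only [w1]
    calc (K + K ^ 12) * 1 ≤ K * K ^ 12 := by linarith
      _ = K ^ 13 * 1 := by ring
  have hQ' : FB fr (sh θ 1 r) v (qq ε (K ^ 13) j) Q :=
    hQb.mono hfr (wt_vn hW) (hs 1) (reg_sh_le hfr hR 1) fun l => by
      unfold qq; split_ifs
      · exact le_rfl
      · exact hKK
  obtain ⟨q1, q2⟩ := hQ T fr (K ^ 13) θ ε (sh θ 1 r) w v j y (Xl + W) Y Q hfr hR' (wt_mono hW hKK)
    hy (hyK.trans hKK) (fun i => in_add (hXl i) (hWb.1 i).1) hP hQ'
    (hY.rad (hs 1) (reg_sh_le hfr hR 1))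
  rw [sh_sh] at q1 q2
  have h23 := reg_sh_anti hfr hR (show 2 ≤ 3 by norm_num)
  have h03 := reg_sh_le hfr hR 3
  -- sizes
  have y1 : 0 ≤ K ^ C1 * y := by positivity
  have y2 : 0 ≤ (K ^ 13) ^ C2 * y := by positivity
  have hsz : ∀ l, ε * (K ^ C1 * y) + up ε j ((K ^ 13) ^ C2 * y) l ≤
      up ε j (K ^ (C1 + 13 * C2 + 1) * y) l := fun l => by
    have e1 := le_up hR.e_one y1 j l
    have e2 : K ^ C1 ≤ K ^ (C1 + 13 * C2) := pow_le_pow_right₀ hK1 (by omega)
    have e3 : (K ^ 13) ^ C2 ≤ K ^ (C1 + 13 * C2) := by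
      rw [← pow_mul]; exact pow_le_pow_right₀ hK1 (by omega)
    have e4 : 2 * K ^ (C1 + 13 * C2) ≤ K * K ^ (C1 + 13 * C2) :=
      mul_le_mul_of_nonneg_right hK2 (by positivity)
    have e5 : K ^ C1 * y + (K ^ 13) ^ C2 * y ≤ K ^ (C1 + 13 * C2 + 1) * y := by
      rw [← add_mul, pow_succ' K (C1 + 13 * C2)]
      exact mul_le_mul_of_nonneg_right (by linarith) hy
    have e6 := up_mono hR.e_pos.le e5 j l
    rw [up_add] at e6
    linarith
  constructor
  · have e := ((h1.rad (hs 3) h03).add (hs 3) (s1.rad (hs 3) h23)).add (hs 3) q1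
    refine (e.congr ?_).le hfr (wt_wn hW) fun l => ?_
    · convert a1 Y Xl using 1
      simp only [RK.web_add_left, RK.web_add_right]
      simp only [web]
      abel
    · have := hsz l
      simp only [Pi.add_apply]
      linarith
  · have e := ((h2.rad (hs 3) h03).add (hs 3) ((s2.rad (hs 3) h23).smul (1 / 6))).add (hs 3)
      (q2.smul (1 / 6))
    have hd := det_four (Dm fr Xl) (Dm fr W) (Dm fr (∑ l, Q l)) (Dm fr Y)
    rw [a2 Xl Xl Y, a5, two_smul, RK.dv_add, ← RK.Dm_add, ← RK.Dm_add, ← RK.Dm_add] at hd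
    refine RV.le hfr (wt_wn hW) (fun l => ?_) (Eq.mp (congrArg (RV fr (sh θ 3 r) w _) ?_) e)
    swap
    · rw [add_assoc, ← smul_add, ← six_inv ((Dm fr (Xl + W + ∑ l, Q l + Y)).det - 1),
        ← six_inv ((Dm fr (Xl + W + ∑ l, Q l)).det - 1 + dv fr ((Dm fr Xl).adjugate *ᵥ Y)),
        ← smul_add, mul_sub, hd]
      congr 1
      ring
    have e1 := hsz l
    have e2 := up_nonneg hR.e_pos.le y2 j l
    have e3 := mul_nonneg hR.e_pos.le y1
    have e4 : |(1 / 6 : ℝ)| = 1 / 6 := abs_of_pos (by norm_num)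
    simp only [Pi.add_apply, Pi.smul_apply, smul_eq_mul, e4]
    linarith

end Pool.Agent.Lib.MP_fbbbeb_an.Cas
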