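import Mathlib
import Pool.Agent.Lib.MP_fbbbeb_an.Cas.Stmt
import Pool.Agent.Lib.MP_fbbbeb_an.Cas.Typ

/-! Terms of the update with two factors of the same frequency. -/

set_option autoImplicit false

noncomputable section

namespace Pool.Agent.Lib.MP_fbbbeb_an.Cas

open Pool.Agent.Lib.MP_fbbbeb_an.Pub
open scoped ContDiff Topology RealInnerProductSpace Matrix Nat

namespace US

variable {T : ℝ}

def dpv (j : Fin 3) (Z : Vec T) : Vec T := fun i => pd (lp j) (Z i)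

def djm (fr : Frame T) (j : Fin 3) (Z : Vec T) : Mat T := Matrix.of fun i l => Dj fr j l (Z i)

theorem dm_split (fr : Frame T) (j : Fin 3) (Z : Vec T) :
    Dm fr Z = Matrix.vecMulVec (fr.N j.succ • dpv j Z) (fr.k j) + djm fr j Z := by
  refine Matrix.ext fun i l => ?_
  simp only [Dm, djm, dpv, Matrix.of_apply, Matrix.add_apply, Matrix.vecMulVec_apply, Pi.smul_apply]
  rw [D_eq_Dj fr j l, smul_mul_assoc, mul_comm, add_comm]

theorem web_split (fr : Frame T) (j : Fin 3) (Z Y : Vec T) :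
    web fr Z Y = (fr.N j.succ • (dpv j Z ⬝ᵥ dtv Y)) • fr.k j + (djm fr j Z)ᵀ *ᵥ dtv Y := by
  unfold web
  rw [dm_split fr j Z, Matrix.transpose_add, Matrix.add_mulVec]
  congr 1
  funext l
  simp only [Matrix.mulVec, dotProduct, Matrix.transpose_apply, Matrix.vecMulVec_apply,
    Pi.smul_apply, smul_eq_mul, Fin.sum_univ_three]
  simp only [Algebra.smul_def]
  ring

theorem cr_add_mid (P Q S : Mat T) (z : Vec T) : cr P (Q + S) z = cr P Q z + cr P S z := by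
  funext l
  simp only [cr, tp, dotProduct, cross_apply, Fin.sum_univ_three, Matrix.add_apply, Pi.add_apply,
    Matrix.cons_val_zero, Matrix.cons_val_one, Matrix.cons_val]
  ring

theorem cross_tp (P : Mat T) (N : ℝ) (k u z : Vec T) :
    (crossProduct k fun l => -tp (fun i => P i l) (N • u) z) =
      N • crossProduct k fun l => -tp (fun i => P i l) u z := by
  rw [← LinearMap.map_smul_of_tower]
  congr 1
  funext l
  simp only [tp, dotProduct, cross_apply, Fin.sum_univ_three, Pi.smul_apply,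
    Matrix.cons_val_zero, Matrix.cons_val_one, Matrix.cons_val]
  simp only [Algebra.smul_def]
  ring

variable {fr : Frame T} {l : Fin 4}

theorem ty_dot {U V : Vec T} (h : InV l U) (h' : Tyv fr l V) : Ty fr l (U ⬝ᵥ V) :=
  Ty.sum _ fun i _ => Ty.mul_left (h i) (h' i)

theorem ty_cross {U V : Vec T} (h : InV l U) (h' : Tyv fr l V) : Tyv fr l (crossProduct U V) := by
  intro i
  fin_cases i
  · exact (Ty.mul_left (h 1) (h' 2)).sub (Ty.mul_left (h 2) (h' 1))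
  · exact (Ty.mul_left (h 2) (h' 0)).sub (Ty.mul_left (h 0) (h' 2))
  · exact (Ty.mul_left (h 0) (h' 1)).sub (Ty.mul_left (h 1) (h' 0))

theorem ty_tp {U V Z : Vec T} (h : InV l U) (h' : InV l V) (h'' : Tyv fr l Z) :
    Ty fr l (tp U V Z) := ty_dot h (ty_cross h' h'')

theorem ty_cr {P Q : Mat T} {Z : Vec T} (h : ∀ i m, In l (P i m)) (h' : ∀ i m, In l (Q i m))
    (h'' : Tyv fr l Z) : Tyv fr l (cr P Q Z) := fun _ =>
  (ty_tp (fun i => h i _) (fun i => h' i _) h'').sub (ty_tp (fun i => h i _) (fun i => h' i _) h'')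

theorem num_pow {K : ℝ} (hK : 2 ≤ K) {c : ℝ} (n : ℕ) (hc : c ≤ 2 ^ n) : c ≤ K ^ n :=
  hc.trans (pow_le_pow_left₀ (by norm_num) hK n)

variable {K θ ε : ℝ} {r : Let → ℝ} {w v : Fin 4 → ℝ → ℝ} {u1 u2 : ℝ → ℝ} {a b c : ℝ} {Z Y : Vec T}

theorem rho_nonneg (hfr : fr.Ok) (h : Reg fr K θ ε r) (n : ℕ) (i : Let) : 0 ≤ sh θ n r i :=
  (sh_pos (by linarith [h.th_half]) n (h.r_pos hfr) i).le

theorem rho_le (hfr : fr.Ok) (h : Reg fr K θ ε r) (i : Let) : sh θ 1 r i ≤ r i := by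
  have := sh_le (θ := θ) (by linarith [h.th_half]) h.th_one.le (Nat.zero_le 1)
    (fun i => (h.r_pos hfr i).le) i
  rwa [sh_zero] at this

theorem rho_le2 (hfr : fr.Ok) (h : Reg fr K θ ε r) (i : Let) : sh θ 2 r i ≤ sh θ 1 r i :=
  sh_le (by linarith [h.th_half]) h.th_one.le (by norm_num) (fun i => (h.r_pos hfr i).le) i

theorem div_nn (hfr : fr.Ok) (l : Fin 4) (h1 : ∀ t ∈ Set.Ioo 0 T, 0 ≤ a * u1 t) :
    ∀ t ∈ Set.Ioo 0 T, 0 ≤ a / fr.N l * u1 t := fun t ht => by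
  have := hfr.N_one l
  rw [div_mul_eq_mul_div]
  exact div_nonneg (h1 t ht) (by linarith)

/-- the data of a pair of fields of the same type -/
structure Pair (fr : Frame T) (r : Let → ℝ) (w : Fin 4 → ℝ → ℝ) (l : Fin 4) (c : ℝ) (Z Y : Vec T)
    (u1 u2 : ℝ → ℝ) (a b : ℝ) : Prop where
  hZ : SB fr r u1 l a Z
  hY : SB fr r u2 l b Y
  h1 : ∀ t ∈ Set.Ioo 0 T, 0 ≤ a * u1 t
  h2 : ∀ t ∈ Set.Ioo 0 T, 0 ≤ b * u2 t
  hab : ∀ t ∈ Set.Ioo 0 T, a * u1 t * (b * u2 t) ≤ c * w l t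

theorem web_plain (hfr : fr.Ok) (h : Reg fr K θ ε r) (p : Pair fr r w l c Z Y u1 u2 a b) :
    SB fr (sh θ 1 r) (w l) l (K ^ 19 * c) (web fr Z Y) := by
  have hN := hfr.N_one l
  have hK := h.K_two
  have hd := p.hY.dtv hfr h p.h2
  refine ⟨Tyv.mulVec (fun i m => In.D hfr i (p.hZ.1 m).1) hd.1, ?_⟩
  have hb := GBm.mulVec (rho_nonneg hfr h 1) (p.hZ.Dm hfr h p.h1).transpose hd.2
  refine GBv.mono hb (rho_nonneg hfr h 1) (fun _ => le_rfl) fun t ht => ?_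
  have e1 := p.hab t ht
  have e0 := mul_nonneg (p.h1 t ht) (p.h2 t ht)
  have e2 : (9 : ℝ) ≤ K ^ 4 := num_pow hK 4 (by norm_num)
  calc _ = 9 * (K ^ 15 / fr.N l) * (a * u1 t * (b * u2 t)) := by ring
    _ ≤ K ^ 4 * (K ^ 15 / fr.N l) * (c * w l t) := by gcongr
    _ = _ := by ring

theorem cr_plain (hfr : fr.Ok) (h : Reg fr K θ ε r) (p : Pair fr r w l c Z Y u1 u2 a b)
    {P : Mat T} (hP : GBm 0 (sh θ 1 r) w1 (K ^ 13) P) (hP' : ∀ i m, In l (P i m)) :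
    SB fr (sh θ 1 r) (w l) l (K ^ 30 * c) (cr P (Dm fr Z) Y) := by
  have hN := hfr.N_one l
  have hK := h.K_two
  refine ⟨ty_cr hP' (fun i m => In.D hfr m (p.hZ.1 i).1) p.hY.1, ?_⟩
  have hY : GBv 1 (sh θ 1 r) u2 (b / fr.N l) Y :=
    fun i => (p.hY.2 i).monoR (rho_nonneg hfr h 1) (rho_le hfr h)
  have hb := GBm.cr (rho_nonneg hfr h 1) hP (p.hZ.Dm hfr h p.h1) hY
  refine GBv.mono hb (rho_nonneg hfr h 1) (fun _ => le_rfl) fun t ht => ?_
  have e1 := p.hab t ht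
  have e0 := mul_nonneg (p.h1 t ht) (p.h2 t ht)
  have e2 : (108 : ℝ) ≤ K ^ 7 := num_pow hK 7 (by norm_num)
  calc _ = 108 * (K ^ 23 / fr.N l) * (a * u1 t * (b * u2 t)) := by simp only [w1]; ring
    _ ≤ K ^ 7 * (K ^ 23 / fr.N l) * (c * w l t) := by gcongr
    _ = _ := by ring

variable {j : Fin 3}

theorem dpv_bd (hfr : fr.Ok) (h : Reg fr K θ ε r) (p : Pair fr r w j.succ c Z Y u1 u2 a b) :
    GBv 1 (sh θ 1 r) u1 (K ^ 5 * (a / fr.N j.succ)) (dpv j Z) :=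
  fun i => h.pd_p hfr (div_nn hfr _ p.h1) j (p.hZ.2 i)

theorem djm_bd (hfr : fr.Ok) (h : Reg fr K θ ε r) (p : Pair fr r w j.succ c Z Y u1 u2 a b) :
    GBm 0 (sh θ 1 r) u1 (ε * K ^ 10 * a) (djm fr j Z) := fun i m => by
  have hN := hfr.N_one j.succ
  have hK := h.K_two
  have hb := h.Dj hfr (div_nn hfr _ p.h1) j m (p.hZ.1 i).1 (p.hZ.2 i)
  refine GB.mono hb (rho_nonneg hfr h 1) (fun _ => le_rfl) fun t ht => ?_
  have e0 := p.h1 t ht
  have e1 : fr.N j.castSucc / fr.N j.succ ≤ ε := by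
    rw [div_le_iff₀ (by linarith)]; exact h.e_N j
  calc _ = fr.N j.castSucc / fr.N j.succ * (K ^ 10 * (a * u1 t)) := by ring
    _ ≤ ε * (K ^ 10 * (a * u1 t)) := by gcongr
    _ = _ := by ring

theorem web_fast (hfr : fr.Ok) (h : Reg fr K θ ε r) (p : Pair fr r w j.succ c Z Y u1 u2 a b) :
    Ty fr j.succ (dpv j Z ⬝ᵥ dtv Y) ∧
      GB 2 (sh θ 1 r) (w j.succ) (K ^ 14 * c / fr.N j.succ ^ 2) (dpv j Z ⬝ᵥ dtv Y) := by
  have hN := hfr.N_one j.succ
  have hK := h.K_two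
  have hd := p.hY.dtv hfr h p.h2
  refine ⟨ty_dot (fun i => In.pd _ (p.hZ.1 i).1) hd.1, ?_⟩
  have hb := GBv.dot (rho_nonneg hfr h 1) (dpv_bd hfr h p) hd.2
  refine GB.mono hb (rho_nonneg hfr h 1) (fun _ => le_rfl) fun t ht => ?_
  have e1 := p.hab t ht
  have e0 := mul_nonneg (p.h1 t ht) (p.h2 t ht)
  have e2 : (9 : ℝ) ≤ K ^ 4 := num_pow hK 4 (by norm_num)
  calc _ = 9 * (K ^ 10 / fr.N j.succ ^ 2) * (a * u1 t * (b * u2 t)) := by ring
    _ ≤ K ^ 4 * (K ^ 10 / fr.N j.succ ^ 2) * (c * w j.succ t) := by gcongr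
    _ = _ := by ring

theorem web_slow (hfr : fr.Ok) (h : Reg fr K θ ε r) (p : Pair fr r w j.succ c Z Y u1 u2 a b) :
    SB fr (sh θ 1 r) (w j.succ) j.succ (ε * (K ^ 19 * c)) ((djm fr j Z)ᵀ *ᵥ dtv Y) := by
  have hN := hfr.N_one j.succ
  have hK := h.K_two
  have he := h.e_pos
  have hd := p.hY.dtv hfr h p.h2
  refine ⟨Tyv.mulVec (fun i m => In.Dj hfr j i (p.hZ.1 m).1) hd.1, ?_⟩
  have hb := GBm.mulVec (rho_nonneg hfr h 1) (djm_bd hfr h p).transpose hd.2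
  refine GBv.mono hb (rho_nonneg hfr h 1) (fun _ => le_rfl) fun t ht => ?_
  have e1 := p.hab t ht
  have e0 := mul_nonneg (p.h1 t ht) (p.h2 t ht)
  have e2 : (9 : ℝ) ≤ K ^ 4 := num_pow hK 4 (by norm_num)
  calc _ = 9 * (ε * K ^ 15 / fr.N j.succ) * (a * u1 t * (b * u2 t)) := by ring
    _ ≤ K ^ 4 * (ε * K ^ 15 / fr.N j.succ) * (c * w j.succ t) := by gcongr
    _ = _ := by ring

theorem cr_fast (hfr : fr.Ok) (h : Reg fr K θ ε r) (p : Pair fr r w j.succ c Z Y u1 u2 a b)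
    {P : Mat T} (hP : GBm 0 (sh θ 1 r) w1 (K ^ 13) P) (hP' : ∀ i m, In j.succ (P i m)) :
    Tyv fr j.succ (fun l => -tp (fun i => P i l) (dpv j Z) Y) ∧
      GBv 2 (sh θ 1 r) (w j.succ) (K ^ 24 * c / fr.N j.succ ^ 2)
        (fun l => -tp (fun i => P i l) (dpv j Z) Y) := by
  have hN := hfr.N_one j.succ
  have hK := h.K_two
  refine ⟨fun l => (ty_tp (fun i => hP' i l) (fun i => In.pd _ (p.hZ.1 i).1) p.hY.1).neg,
    fun l => GB.neg ?_⟩
  have hY : GBv 1 (sh θ 1 r) u2 (b / fr.N j.succ) Y :=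
    fun i => (p.hY.2 i).monoR (rho_nonneg hfr h 1) (rho_le hfr h)
  have hc : GBv 0 (sh θ 1 r) w1 (K ^ 13) fun i => P i l := fun i => hP i l
  have hb := GBv.dot (rho_nonneg hfr h 1) hc (GBv.cross (rho_nonneg hfr h 1) (dpv_bd hfr h p) hY)
  refine GB.mono hb (rho_nonneg hfr h 1) (fun _ => le_rfl) fun t ht => ?_
  have e1 := p.hab t ht
  have e0 := mul_nonneg (p.h1 t ht) (p.h2 t ht)
  have e2 : (54 : ℝ) ≤ K ^ 6 := num_pow hK 6 (by norm_num)
  calc _ = 54 * (K ^ 18 / fr.N j.succ ^ 2) * (a * u1 t * (b * u2 t)) := by simp only [w1]; ring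
    _ ≤ K ^ 6 * (K ^ 18 / fr.N j.succ ^ 2) * (c * w j.succ t) := by gcongr
    _ = _ := by ring

theorem cr_slow (hfr : fr.Ok) (h : Reg fr K θ ε r) (p : Pair fr r w j.succ c Z Y u1 u2 a b)
    {P : Mat T} (hP : GBm 0 (sh θ 1 r) w1 (K ^ 13) P) (hP' : ∀ i m, In j.succ (P i m)) :
    SB fr (sh θ 1 r) (w j.succ) j.succ (ε * (K ^ 30 * c)) (cr P (djm fr j Z) Y) := by
  have hN := hfr.N_one j.succ
  have hK := h.K_two
  have he := h.e_pos
  refine ⟨ty_cr hP' (fun i m => In.Dj hfr j m (p.hZ.1 i).1) p.hY.1, ?_⟩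
  have hY : GBv 1 (sh θ 1 r) u2 (b / fr.N j.succ) Y :=
    fun i => (p.hY.2 i).monoR (rho_nonneg hfr h 1) (rho_le hfr h)
  have hb := GBm.cr (rho_nonneg hfr h 1) hP (djm_bd hfr h p) hY
  refine GBv.mono hb (rho_nonneg hfr h 1) (fun _ => le_rfl) fun t ht => ?_
  have e1 := p.hab t ht
  have e0 := mul_nonneg (p.h1 t ht) (p.h2 t ht)
  have e2 : (108 : ℝ) ≤ K ^ 7 := num_pow hK 7 (by norm_num)
  calc _ = 108 * (ε * K ^ 23 / fr.N j.succ) * (a * u1 t * (b * u2 t)) := by simp only [w1]; ring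
    _ ≤ K ^ 7 * (ε * K ^ 23 / fr.N j.succ) * (c * w j.succ t) := by gcongr
    _ = _ := by ring

/-- the statement `RedSt` at a fixed exponent -/
def RedAt (C : ℕ) : Prop := ∀ (T : ℝ) (fr : Frame T) (K θ ε : ℝ) (r : Let → ℝ)
    (w v : Fin 4 → ℝ → ℝ) (j : Fin 3) (y : ℝ), fr.Ok → Reg fr K θ ε r → Wt T K w v → 0 ≤ y →
    (∀ s : A T, Ty fr j.succ s → GB 2 r (w j.succ) (y / fr.N j.succ ^ 2) s →
      RW fr (sh θ 1 r) w (fun _ => ε * (K ^ C * y)) ((fr.N j.succ • s) • fr.k j)) ∧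
    (∀ U : Vec T, Tyv fr j.succ U → GBv 2 r (w j.succ) (y / fr.N j.succ ^ 2) U →
      RV fr (sh θ 1 r) w (fun _ => ε * (K ^ C * y))
        (dv fr (fr.N j.succ • crossProduct (fr.k j) U)))

theorem single_le {x : ℝ} (hx : 0 ≤ x) (l m : Fin 4) : (Pi.single l x : Fin 4 → ℝ) m ≤ x := by
  by_cases h : m = l
  · subst h; simp
  · simp [h, hx]

theorem two_terms {K ε c : ℝ} (hK : 2 ≤ K) (he : 0 ≤ ε) (hc : 0 ≤ c) (C m n : ℕ) (hm : m ≤ 30)
    (hn : n ≤ 30) : ε * ((K ^ 2) ^ C * (K ^ m * c)) + ε * (K ^ n * c) ≤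
      ε * (K ^ (2 * C + 31) * c) := by
  have h1 : (1 : ℝ) ≤ K := by linarith
  have a1 : (K ^ 2) ^ C * K ^ m ≤ K ^ (2 * C + 30) := by
    rw [← pow_mul, ← pow_add]; exact pow_le_pow_right₀ h1 (by omega)
  have a2 : K ^ n ≤ K ^ (2 * C + 30) := pow_le_pow_right₀ h1 (by omega)
  have a3 : 0 ≤ K ^ (2 * C + 30) := by positivity
  have a4 : (K ^ 2) ^ C * K ^ m + K ^ n ≤ K ^ (2 * C + 31) := by
    rw [pow_succ K (2 * C + 30)]; nlinarith
  calc _ = ε * c * ((K ^ 2) ^ C * K ^ m + K ^ n) := by ring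
    _ ≤ ε * c * K ^ (2 * C + 31) := by gcongr
    _ = _ := by ring

theorem sw {C : ℕ} (hR : RedAt C) (hfr : fr.Ok) (h : Reg fr K θ ε r) (hw : Wt T K w v) (hc : 0 ≤ c)
    (p : Pair fr r w j.succ c Z Y u1 u2 a b) :
    RW fr (sh θ 2 r) w (fun _ => ε * (K ^ (2 * C + 31) * c)) (web fr Z Y) := by
  have hK := h.K_two
  have he := h.e_pos.le
  have hf := web_fast hfr h p
  have h1 := (hR T fr (K ^ 2) θ ε (sh θ 1 r) w v j (K ^ 14 * c) hfr (h.sh hfr 1)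
    (hw.monoK (by nlinarith)) (by positivity)).1 _ hf.1 hf.2
  rw [sh_sh] at h1
  have h2 := (RW.single (w := w) hfr (web_slow hfr h p)).mono hfr hw.w_nonneg (rho_nonneg hfr h 2)
    (rho_le2 hfr h) (c' := fun _ => ε * (K ^ 19 * c)) (single_le (by positivity) _)
  rw [web_split fr j]
  exact (h1.add (rho_nonneg hfr h 2) h2).mono hfr hw.w_nonneg (rho_nonneg hfr h 2)
    (fun _ => le_rfl) fun _ => two_terms hK he hc C 14 19 (by norm_num) (by norm_num)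

theorem sv {C : ℕ} (hA : AlgSt) (hR : RedAt C) (hfr : fr.Ok) (h : Reg fr K θ ε r)
    (hw : Wt T K w v) (hc : 0 ≤ c) (p : Pair fr r w j.succ c Z Y u1 u2 a b) {X : Vec T}
    (hP : GBm 0 (sh θ 1 r) w1 (K ^ 13) (Dm fr X)) (hX : InV j.succ X) :
    RV fr (sh θ 2 r) w (fun _ => ε * (K ^ (2 * C + 31) * c))
      (dd (Dm fr X) (Dm fr Z) (Dm fr Y)) := by
  have hK := h.K_two
  have he := h.e_pos.le
  have hP' : ∀ i m, In j.succ (Dm fr X i m) := fun i m => In.D hfr m (hX i)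
  have hf := cr_fast hfr h p hP hP'
  have h1 := (hR T fr (K ^ 2) θ ε (sh θ 1 r) w v j (K ^ 24 * c) hfr (h.sh hfr 1)
    (hw.monoK (by nlinarith)) (by positivity)).2 _ hf.1 hf.2
  rw [sh_sh] at h1
  have h2 := (RV.single (w := w) hfr (cr_slow hfr h p hP hP')).mono hfr hw.w_nonneg
    (rho_nonneg hfr h 2) (rho_le2 hfr h) (c' := fun _ => ε * (K ^ 30 * c))
    (single_le (by positivity) _)
  obtain ⟨-, a2, -, -, -, a6, -⟩ := hA T fr hfr
  rw [a2, dm_split fr j Z, cr_add_mid, a6, cross_tp, dv_add]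
  exact (h1.add (rho_nonneg hfr h 2) h2).mono hfr hw.w_nonneg (rho_nonneg hfr h 2)
    (fun _ => le_rfl) fun _ => two_terms hK he hc C 24 30 (by norm_num) (by norm_num)

theorem dm_bd (hfr : fr.Ok) (h : Reg fr K θ ε r) (hZ : SB fr r u1 l a Z)
    (h1 : ∀ t ∈ Set.Ioo 0 T, 0 ≤ a * u1 t) (h2 : ∀ t ∈ Set.Ioo 0 T, a * u1 t ≤ K ^ 2) :
    GBm 0 (sh θ 1 r) w1 (K ^ 12) (Dm fr Z) := by
  have hK := h.K_two
  refine (hZ.Dm hfr h h1).mono (rho_nonneg hfr h 1) (fun _ => le_rfl) fun t ht => ?_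
  have := h2 t ht
  calc _ = K ^ 10 * (a * u1 t) := by ring
    _ ≤ K ^ 10 * K ^ 2 := by gcongr
    _ = _ := by simp only [w1]; ring

theorem up13 (hfr : fr.Ok) (h : Reg fr K θ ε r) {P : Mat T} {M : ℝ}
    (hP : GBm 0 (sh θ 1 r) w1 M P) (hM : M ≤ K ^ 13) : GBm 0 (sh θ 1 r) w1 (K ^ 13) P :=
  hP.mono (rho_nonneg hfr h 1) (fun _ => le_rfl) fun _ _ => by simpa only [w1, mul_one] using hM

theorem nat_mul (n : ℕ) [n.AtLeastTwo] (f : A T) :
    (OfNat.ofNat n : A T) * f = (OfNat.ofNat n : ℝ) • f := by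
  rw [Algebra.smul_def, map_ofNat]

theorem dd_zero_mid (P S : Mat T) : dd P 0 S = 0 := by
  simp [dd, cr, tp, dotProduct, cross_apply, Fin.sum_univ_three]

theorem web_zero_left (fr : Frame T) (Y : Vec T) : web fr 0 Y = 0 := by
  simp [web, Dm_zero]

theorem web_zero_right (fr : Frame T) (Y : Vec T) : web fr Y 0 = 0 := by
  simp [web, dtv_zero]

end US

open US in
theorem updSSt (hA : AlgSt) (hR : RedSt) : UpdSSt := by
  obtain ⟨C, hR⟩ := hR
  have hR' : RedAt C := hR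
  refine ⟨2 * C + 37, fun T fr K θ ε r w v j y Xl W Y hfr h hw hy hyK hj hXl hXb hW hY => ?_⟩
  have hK := h.K_two
  have hK1 : (1 : ℝ) ≤ K := by linarith
  have he := h.e_pos.le
  have hr2 := rho_nonneg hfr h 2
  have hw0 := hw.w_nonneg j
  have hv0 : ∀ t ∈ Set.Ioo 0 T, 0 ≤ v j t := fun t ht => (hw0 t ht).trans (hw.w_le j t ht)
  have hwK : ∀ t ∈ Set.Ioo 0 T, w j t ≤ K := fun t ht => (hw.w_le j t ht).trans (hw.v_le j t ht)
  have y0 : ∀ t ∈ Set.Ioo 0 T, 0 ≤ y * w j t := fun t ht => mul_nonneg hy (hw0 t ht)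
  have k0 : ∀ t ∈ Set.Ioo 0 T, 0 ≤ K * v j t := fun t ht => mul_nonneg (by linarith) (hv0 t ht)
  have y1 : ∀ t ∈ Set.Ioo 0 T, y * w j t ≤ K ^ 2 := fun t ht => by
    rw [sq]; exact mul_le_mul hyK (hwK t ht) (hw0 t ht) (by linarith)
  have k1 : ∀ t ∈ Set.Ioo 0 T, K * v j t ≤ K ^ 2 := fun t ht => by
    rw [sq]; exact mul_le_mul_of_nonneg_left (hw.v_le j t ht) (by linarith)
  have b1 : GBm 0 (sh θ 1 r) w1 K (Dm fr Xl) :=
    fun i m => (hXb i m).monoR (rho_nonneg hfr h 1) (rho_le hfr h)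
  have b2 := dm_bd hfr h hW k0 k1
  have b3 := dm_bd hfr h hY y0 y1
  have n1 : K ≤ K ^ 12 := le_self_pow₀ hK1 (by norm_num)
  have n2 : K ^ 12 ≤ K ^ 13 := pow_le_pow_right₀ hK1 (by norm_num)
  have n3 : K + K ^ 12 ≤ K ^ 13 := by rw [pow_succ K 12]; nlinarith
  have c1 := up13 hfr h b1 (n1.trans n2)
  have c2 := up13 hfr h b2 n2
  have c3 := up13 hfr h b3 n2
  have c4 : GBm 0 (sh θ 1 r) w1 (K ^ 13) (Dm fr (Xl + W)) := by
    rw [Dm_add]; exact up13 hfr h (b1.add (rho_nonneg hfr h 1) b2) n3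
  have i2 : InV j W := fun i => (hW.1 i).1
  have i3 : InV j Y := fun i => (hY.1 i).1
  have i4 : InV j (Xl + W) := fun i => (hXl i).add (i2 i)
  obtain ⟨-, a2, a3, -⟩ := hA T fr hfr
  have fin : ∀ (m : ℝ) (n : ℕ), m ≤ 16 → n ≤ 2 * C + 33 →
      m * (ε * (K ^ n * y)) ≤ ε * (K ^ (2 * C + 37) * y) := fun m n hm hn => by
    have e1 : m ≤ K ^ 4 := num_pow hK 4 (by linarith)
    have e2 : K ^ n ≤ K ^ (2 * C + 33) := pow_le_pow_right₀ hK1 hn
    calc _ = m * K ^ n * (ε * y) := by ring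
      _ ≤ K ^ 4 * K ^ (2 * C + 33) * (ε * y) := by gcongr
      _ = _ := by ring
  induction j using Fin.cases with
  | zero =>
    obtain ⟨rfl, hye⟩ := hj rfl
    have p : Pair fr r w 0 (ε * (K * y)) Y Y (w 0) (w 0) y y := ⟨hY, hY, y0, y0, fun t ht => by
      have e0 := y0 t ht
      have e1 : y * w 0 t ≤ ε * K := mul_le_mul hye (hwK t ht) (hw0 t ht) he
      calc _ ≤ ε * K * (y * w 0 t) := by gcongr
        _ = _ := by ring⟩
    have v1 : ∀ X : Vec T, GBm 0 (sh θ 1 r) w1 (K ^ 13) (Dm fr X) → InV 0 X →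
        RV fr (sh θ 2 r) w (fun _ => ε * (K ^ 31 * y)) (dd (Dm fr X) (Dm fr Y) (Dm fr Y)) :=
      fun X hP hX => by
        rw [a2]
        refine (RV.single (w := w) hfr (cr_plain hfr h p hP fun i m => In.D hfr m (hX i))).mono hfr
          hw.w_nonneg hr2 (rho_le2 hfr h) fun m => (single_le (by positivity) _ m).trans ?_
        exact le_of_eq (by ring)
    constructor
    · rw [web_zero_left, web_zero_right, zero_add, zero_add]
      refine (RW.single (w := w) hfr (web_plain hfr h p)).mono hfr hw.w_nonneg hr2 (rho_le2 hfr h)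
        fun m => (single_le (by positivity) _ m).trans ?_
      exact le_of_eq_of_le (by ring) (fin 1 20 (by norm_num) (by omega))
    · rw [Dm_zero, dd_zero_mid, dd_zero_mid, mul_zero, mul_zero, zero_add, zero_add,
        (a3 (Dm fr Y) (Dm fr Y) (Dm fr (Xl + 0))).2, (a3 (Dm fr Y) (Dm fr (Xl + 0)) (Dm fr Y)).1,
        nat_mul 3]
      refine (((v1 _ c4 i4).smul 3).add hr2 (v1 _ c3 i3)).mono hfr hw.w_nonneg hr2
        (fun _ => le_rfl) fun m => ?_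
      simp only [Pi.add_apply, Pi.smul_apply, smul_eq_mul, Nat.abs_ofNat]
      exact le_of_eq_of_le (by ring) (fin 4 31 (by norm_num) (by omega))
  | succ j =>
    have hc : 0 ≤ K ^ 2 * y := by positivity
    have q1 : ∀ t ∈ Set.Ioo 0 T, K * v j.succ t * (y * w j.succ t) ≤ K ^ 2 * y * w j.succ t :=
      fun t ht => by
        have e1 := hw.v_mul j.succ j.succ t ht
        rw [max_self] at e1
        calc _ = K * y * (v j.succ t * w j.succ t) := by ring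
          _ ≤ K * y * (K * w j.succ t) := by gcongr
          _ = _ := by ring
    have pWY : Pair fr r w j.succ (K ^ 2 * y) W Y (v j.succ) (w j.succ) K y :=
      ⟨hW, hY, k0, y0, q1⟩
    have pYW : Pair fr r w j.succ (K ^ 2 * y) Y W (w j.succ) (v j.succ) y K :=
      ⟨hY, hW, y0, k0, fun t ht => by rw [mul_comm]; exact q1 t ht⟩
    have pYY : Pair fr r w j.succ (K ^ 2 * y) Y Y (w j.succ) (w j.succ) y y :=
      ⟨hY, hY, y0, y0, fun t ht => by
        have e0 := y0 t ht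
        have e1 := y1 t ht
        calc _ ≤ K ^ 2 * (y * w j.succ t) := by gcongr
          _ = _ := by ring⟩
    constructor
    · refine (((sw hR' hfr h hw hc pWY).add hr2 (sw hR' hfr h hw hc pYW)).add hr2
        (sw hR' hfr h hw hc pYY)).mono hfr hw.w_nonneg hr2 (fun _ => le_rfl) fun m => ?_
      simp only [Pi.add_apply]
      exact le_of_eq_of_le (by ring) (fin 3 (2 * C + 33) (by norm_num) le_rfl)
    · have s1 : dd (Dm fr Y) (Dm fr W) (Dm fr Xl) = dd (Dm fr Xl) (Dm fr W) (Dm fr Y) := by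
        rw [(a3 _ _ _).1, (a3 _ _ _).2, (a3 _ _ _).1]
      have s2 : dd (Dm fr Y) (Dm fr W) (Dm fr W) = dd (Dm fr W) (Dm fr W) (Dm fr Y) := by
        rw [(a3 _ _ _).1, (a3 _ _ _).2]
      have s3 : dd (Dm fr Y) (Dm fr Y) (Dm fr (Xl + W)) =
          dd (Dm fr (Xl + W)) (Dm fr Y) (Dm fr Y) := by
        rw [(a3 _ _ _).2, (a3 _ _ _).1]
      rw [s1, s2, s3, nat_mul 6, nat_mul 3, nat_mul 3]
      refine (((((sv hA hR' hfr h hw hc pWY c1 hXl).smul 6).add hr2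
        ((sv hA hR' hfr h hw hc pWY c2 i2).smul 3)).add hr2
        ((sv hA hR' hfr h hw hc pYY c4 i4).smul 3)).add hr2
        (sv hA hR' hfr h hw hc pYY c3 i3)).mono hfr hw.w_nonneg hr2 (fun _ => le_rfl) fun m => ?_
      simp only [Pi.add_apply, Pi.smul_apply, smul_eq_mul, Nat.abs_ofNat]
      exact le_of_eq_of_le (by ring) (fin 13 (2 * C + 33) (by norm_num) le_rfl)

end Pool.Agent.Lib.MP_fbbbeb_an.Cas
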