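import Mathlib
import Pool.Agent.Lib.MP_fbbbeb_an.Cas.UpdS

/-! Terms of the update that contain the rest of the background. -/

set_option autoImplicit false

noncomputable section

namespace Pool.Agent.Lib.MP_fbbbeb_an.Cas

open Pool.Agent.Lib.MP_fbbbeb_an.Pub
open scoped ContDiff Topology RealInnerProductSpace Matrix Nat

namespace UQ2

open US

variable {T : ℝ} {fr : Frame T} {l m : Fin 4} {K θ ε : ℝ} {r : Let → ℝ} {w v : Fin 4 → ℝ → ℝ}
  {u1 u2 : ℝ → ℝ} {a b c : ℝ} {Z Y : Vec T}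

/-- a field `Z` of low type and a field `Y` of high type -/
structure Pair2 (fr : Frame T) (r : Let → ℝ) (w : Fin 4 → ℝ → ℝ) (l m : Fin 4) (c : ℝ)
    (Z Y : Vec T) (u1 u2 : ℝ → ℝ) (a b : ℝ) : Prop where
  hl : l ≤ m
  hZ : SB fr r u1 l a Z
  hY : SB fr r u2 m b Y
  h1 : ∀ t ∈ Set.Ioo 0 T, 0 ≤ a * u1 t
  h2 : ∀ t ∈ Set.Ioo 0 T, 0 ≤ b * u2 t
  hab : ∀ t ∈ Set.Ioo 0 T, a * u1 t * (b * u2 t) ≤ c * w m t

theorem rho_le20 (hfr : fr.Ok) (h : Reg fr K θ ε r) (i : Let) : sh θ 2 r i ≤ r i :=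
  (rho_le2 hfr h i).trans (rho_le hfr h i)

theorem web1 (hfr : fr.Ok) (h : Reg fr K θ ε r) (p : Pair2 fr r w l m c Z Y u1 u2 a b) :
    SB fr (sh θ 1 r) (w m) m (K ^ 19 * c) (web fr Z Y) := by
  have hN := hfr.N_one m
  have hK := h.K_two
  have hd := p.hY.dtv hfr h p.h2
  refine ⟨Tyv.mulVec (fun i n => In.D hfr i ((p.hZ.1 n).1.mono p.hl)) hd.1, ?_⟩
  have hb := GBm.mulVec (rho_nonneg hfr h 1) (p.hZ.Dm hfr h p.h1).transpose hd.2
  refine GBv.mono hb (rho_nonneg hfr h 1) (fun _ => le_rfl) fun t ht => ?_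
  have e1 := p.hab t ht
  have e0 := mul_nonneg (p.h1 t ht) (p.h2 t ht)
  have e2 : (9 : ℝ) ≤ K ^ 4 := num_pow hK 4 (by norm_num)
  calc _ = 9 * (K ^ 15 / fr.N m) * (a * u1 t * (b * u2 t)) := by ring
    _ ≤ K ^ 4 * (K ^ 15 / fr.N m) * (c * w m t) := by gcongr
    _ = _ := by ring

theorem web2 (hfr : fr.Ok) (h : Reg fr K θ ε r) (p : Pair2 fr r w l m c Z Y u1 u2 a b) :
    SB fr (sh θ 2 r) (w m) m (K ^ 24 * c) ((dtm (Dm fr Z))ᵀ *ᵥ Y) := by
  have hN := hfr.N_one m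
  have hK := h.K_two
  refine ⟨Tyv.mulVec (fun i n => In.pd lt (In.D hfr i ((p.hZ.1 n).1.mono p.hl))) p.hY.1, ?_⟩
  have h0 : ∀ t ∈ Set.Ioo 0 T, 0 ≤ K ^ 10 * a * u1 t := fun t ht => by
    have := p.h1 t ht
    rw [mul_assoc]; positivity
  have hd : GBm 0 (sh θ 2 r) u1 ((K ^ 2) ^ 5 * (K ^ 10 * a)) (dtm (Dm fr Z)) := fun i n => by
    have := (h.sh hfr 1).pd_t hfr h0 (p.hZ.Dm hfr h p.h1 i n)
    rwa [sh_sh] at this
  have hY : GBv 1 (sh θ 2 r) u2 (b / fr.N m) Y :=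
    fun i => (p.hY.2 i).monoR (rho_nonneg hfr h 2) (rho_le20 hfr h)
  have hb := GBm.mulVec (rho_nonneg hfr h 2) hd.transpose hY
  refine GBv.mono hb (rho_nonneg hfr h 2) (fun _ => le_rfl) fun t ht => ?_
  have e1 := p.hab t ht
  have e0 := mul_nonneg (p.h1 t ht) (p.h2 t ht)
  have e2 : (9 : ℝ) ≤ K ^ 4 := num_pow hK 4 (by norm_num)
  calc _ = 9 * (K ^ 20 / fr.N m) * (a * u1 t * (b * u2 t)) := by ring
    _ ≤ K ^ 4 * (K ^ 20 / fr.N m) * (c * w m t) := by gcongr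
    _ = _ := by ring

theorem wq (hA : AlgSt) (hfr : fr.Ok) (h : Reg fr K θ ε r) (hw : Wt T K w v) (hc : 0 ≤ c)
    (p : Pair2 fr r w l m c Z Y u1 u2 a b) :
    RW fr (sh θ 2 r) w (Pi.single m (K ^ 25 * c)) (web fr Z Y + web fr Y Z) := by
  have hK := h.K_two
  have hr2 := rho_nonneg hfr h 2
  have s1 : SB fr (sh θ 2 r) (w m) m (K ^ 19 * c) (web fr Z Y) :=
    (web1 hfr h p).mono hfr hr2 (rho_le2 hfr h) fun _ _ => le_rfl
  have s2 := (s1.add hr2 (web2 hfr h p).neg).mono (c' := K ^ 25 * c) (w' := w m) hfr hr2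
    (fun _ => le_rfl) fun t ht => by
      have e0 := hw.w_nonneg m t ht
      have e1 : K ^ 19 ≤ K ^ 24 := pow_le_pow_right₀ (by linarith) (by norm_num)
      have e2 : K ^ 19 + K ^ 24 ≤ K ^ 25 := by
        have : 0 ≤ K ^ 24 := by positivity
        rw [pow_succ K 24]; nlinarith
      calc _ = (K ^ 19 + K ^ 24) * (c * w m t) := by ring
        _ ≤ K ^ 25 * (c * w m t) := by gcongr
        _ = _ := by ring
  refine (RW.single (w := w) hfr s2).congr ?_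
  have := (hA T fr hfr).1 Y Z
  convert this using 1
  abel

theorem vq (hA : AlgSt) (hfr : fr.Ok) (h : Reg fr K θ ε r) (p : Pair2 fr r w l m c Z Y u1 u2 a b)
    {X : Vec T} (hP : GBm 0 (sh θ 1 r) w1 (K ^ 13) (Dm fr X)) (hX : InV m X) :
    RV fr (sh θ 1 r) w (Pi.single m (K ^ 30 * c)) (dd (Dm fr X) (Dm fr Z) (Dm fr Y)) := by
  have hN := hfr.N_one m
  have hK := h.K_two
  rw [(hA T fr hfr).2.1]
  refine RV.single (w := w) hfr ⟨ty_cr (fun i n => In.D hfr n (hX i))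
    (fun i n => In.D hfr n ((p.hZ.1 i).1.mono p.hl)) p.hY.1, ?_⟩
  have hY : GBv 1 (sh θ 1 r) u2 (b / fr.N m) Y :=
    fun i => (p.hY.2 i).monoR (rho_nonneg hfr h 1) (rho_le hfr h)
  have hb := GBm.cr (rho_nonneg hfr h 1) hP (p.hZ.Dm hfr h p.h1) hY
  refine GBv.mono hb (rho_nonneg hfr h 1) (fun _ => le_rfl) fun t ht => ?_
  have e1 := p.hab t ht
  have e0 := mul_nonneg (p.h1 t ht) (p.h2 t ht)
  have e2 : (108 : ℝ) ≤ K ^ 7 := num_pow hK 7 (by norm_num)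
  calc _ = 108 * (K ^ 23 / fr.N m) * (a * u1 t * (b * u2 t)) := by simp only [w1]; ring
    _ ≤ K ^ 7 * (K ^ 23 / fr.N m) * (c * w m t) := by gcongr
    _ = _ := by ring

theorem dd_add_mid (P Q S U : Mat T) : dd P (Q + S) U = dd P Q U + dd P S U := by
  simp only [dd, cr_add_mid, Pi.add_apply, Finset.sum_add_distrib]

theorem dd_sum_mid (P U : Mat T) (Q : Fin 4 → Mat T) : dd P (∑ l, Q l) U = ∑ l, dd P (Q l) U := by
  simp only [Fin.sum_univ_four, dd_add_mid]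

theorem up_nonneg {x : ℝ} (he : 0 ≤ ε) (hx : 0 ≤ x) (j n : Fin 4) : 0 ≤ up ε j x n := by
  unfold up; split_ifs <;> positivity

theorem single_lo {x : ℝ} (he : 0 ≤ ε) (hx : 0 ≤ x) (j n : Fin 4) :
    (Pi.single j (ε * x) : Fin 4 → ℝ) n ≤ up ε j x n := by
  by_cases h : n = j
  · subst h; simp [up]
  · simp [h, up_nonneg he hx]

theorem single_hi {x : ℝ} (he : 0 ≤ ε) (hx : 0 ≤ x) {j l : Fin 4} (hl : ¬l ≤ j) (n : Fin 4) :
    (Pi.single l x : Fin 4 → ℝ) n ≤ up ε j x n := by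
  by_cases h : n = l
  · subst h; simp [up, hl]
  · simp [h, up_nonneg he hx]

theorem up_mul {x x' k : ℝ} (he : 0 ≤ ε) (h : k * x ≤ x') (j n : Fin 4) :
    k * up ε j x n ≤ up ε j x' n := by
  unfold up
  split_ifs
  · calc _ = ε * (k * x) := by ring
      _ ≤ _ := by gcongr
  · exact h

end UQ2

open US UQ2 in
theorem updQSt (hA : AlgSt) : UpdQSt := by
  refine ⟨39, fun T fr K θ ε r w v j y P Y Q hfr h hw hy hyK hPl hPb hQ hY => ?_⟩
  have hK := h.K_two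
  have hK1 : (1 : ℝ) ≤ K := by linarith
  have he := h.e_pos.le
  have he1 := h.e_one
  have hr1 := rho_nonneg hfr h 1
  have hr2 := rho_nonneg hfr h 2
  have hv0 : ∀ l, ∀ t ∈ Set.Ioo 0 T, 0 ≤ v l t := fun l t ht =>
    (hw.w_nonneg l t ht).trans (hw.w_le l t ht)
  have y0 : ∀ t ∈ Set.Ioo 0 T, 0 ≤ y * w j t := fun t ht => mul_nonneg hy (hw.w_nonneg j t ht)
  have y1 : ∀ t ∈ Set.Ioo 0 T, y * w j t ≤ K ^ 2 := fun t ht => by
    rw [sq]
    exact mul_le_mul hyK ((hw.w_le j t ht).trans (hw.v_le j t ht)) (hw.w_nonneg j t ht) (by linarith)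
  have q0 : ∀ l, 0 ≤ qq ε K j l ∧ qq ε K j l ≤ K := fun l => by
    unfold qq; split_ifs <;> constructor <;> linarith
  have k0 : ∀ l, ∀ t ∈ Set.Ioo 0 T, 0 ≤ qq ε K j l * v l t := fun l t ht =>
    mul_nonneg (q0 l).1 (hv0 l t ht)
  have k1 : ∀ l, ∀ t ∈ Set.Ioo 0 T, qq ε K j l * v l t ≤ K ^ 2 := fun l t ht => by
    rw [sq]; exact mul_le_mul (q0 l).2 (hw.v_le l t ht) (hv0 l t ht) (by linarith)
  have n1 : K ≤ K ^ 13 := le_self_pow₀ hK1 (by norm_num)
  have n2 : K ^ 12 ≤ K ^ 13 := pow_le_pow_right₀ hK1 (by norm_num)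
  have c1 : GBm 0 (sh θ 1 r) w1 (K ^ 13) (Dm fr P) :=
    up13 hfr h (fun i m => (hPb i m).monoR hr1 (rho_le hfr h)) n1
  have c2 := fun l => up13 hfr h (dm_bd hfr h (hQ l) (k0 l) (k1 l)) n2
  have c3 := up13 hfr h (dm_bd hfr h hY y0 y1) n2
  have a3 := (hA T fr hfr).2.2.1
  have plo : ∀ l, l ≤ j → Pair2 fr r w l j (ε * (K ^ 2 * y)) (Q l) Y (v l) (w j) (qq ε K j l) y :=
    fun l hl => ⟨hl, hQ l, hY, k0 l, y0, fun t ht => by
      have e1 := hw.v_mul l j t ht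
      have e2 := hw.w_nonneg j t ht
      have e3 : K ≤ K ^ 2 := le_self_pow₀ hK1 (by norm_num)
      rw [max_eq_right hl] at e1
      simp only [qq, if_pos hl]
      calc _ = ε * y * (v l t * w j t) := by ring
        _ ≤ ε * y * (K * w j t) := by gcongr
        _ ≤ ε * y * (K ^ 2 * w j t) := by gcongr
        _ = _ := by ring⟩
  have phi : ∀ l, ¬l ≤ j → Pair2 fr r w j l (K ^ 2 * y) Y (Q l) (w j) (v l) y (qq ε K j l) :=
    fun l hl => ⟨(not_le.1 hl).le, hY, hQ l, y0, k0 l, fun t ht => by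
      have e1 := hw.v_mul l j t ht
      rw [max_eq_left (not_le.1 hl).le] at e1
      simp only [qq, if_neg hl]
      calc _ = K * y * (v l t * w j t) := by ring
        _ ≤ K * y * (K * w l t) := by gcongr
        _ = _ := by ring⟩
  have W1 : ∀ l, RW fr (sh θ 2 r) w (up ε j (K ^ 27 * y)) (web fr (Q l) Y + web fr Y (Q l)) :=
    fun l => by
      by_cases hl : l ≤ j
      · refine (wq hA hfr h hw (by positivity) (plo l hl)).mono hfr hw.w_nonneg hr2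
          (fun _ => le_rfl) fun n => ?_
        rw [show K ^ 25 * (ε * (K ^ 2 * y)) = ε * (K ^ 27 * y) by ring]
        exact single_lo he (by positivity) j n
      · rw [add_comm]
        refine (wq hA hfr h hw (by positivity) (phi l hl)).mono hfr hw.w_nonneg hr2
          (fun _ => le_rfl) fun n => ?_
        rw [show K ^ 25 * (K ^ 2 * y) = K ^ 27 * y by ring]
        exact single_hi he (by positivity) hl n
  have V1 : ∀ l (X : Vec T), GBm 0 (sh θ 1 r) w1 (K ^ 13) (Dm fr X) → InV (max l j) X →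
      RV fr (sh θ 2 r) w (up ε j (K ^ 32 * y)) (dd (Dm fr X) (Dm fr (Q l)) (Dm fr Y)) :=
    fun l X hb hX => by
      by_cases hl : l ≤ j
      · rw [max_eq_right hl] at hX
        refine (vq hA hfr h (plo l hl) hb hX).mono hfr hw.w_nonneg hr2 (rho_le2 hfr h) fun n => ?_
        rw [show K ^ 30 * (ε * (K ^ 2 * y)) = ε * (K ^ 32 * y) by ring]
        exact single_lo he (by positivity) j n
      · rw [max_eq_left (not_le.1 hl).le] at hX
        rw [(a3 _ _ _).2]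
        refine (vq hA hfr h (phi l hl) hb hX).mono hfr hw.w_nonneg hr2 (rho_le2 hfr h) fun n => ?_
        rw [show K ^ 30 * (K ^ 2 * y) = K ^ 32 * y by ring]
        exact single_hi he (by positivity) hl n
  have fin : ∀ (k : ℝ) (n : ℕ), k ≤ 128 → n ≤ 32 → k * (K ^ n * y) ≤ K ^ 39 * y := fun k n hk hn => by
    have e1 : k ≤ K ^ 7 := num_pow hK 7 (by linarith)
    have e2 : K ^ n ≤ K ^ 32 := pow_le_pow_right₀ hK1 hn
    calc _ = k * K ^ n * y := by ring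
      _ ≤ K ^ 7 * K ^ 32 * y := by gcongr
      _ = _ := by ring
  constructor
  · have e : web fr (∑ l, Q l) Y + web fr Y (∑ l, Q l) =
        ∑ l, (web fr (Q l) Y + web fr Y (Q l)) := by
      simp only [Fin.sum_univ_four, web_add_left, web_add_right]
      abel
    rw [e]
    refine (RW.sum hfr hr2 Finset.univ fun l _ => W1 l).mono hfr hw.w_nonneg hr2 (fun _ => le_rfl)
      fun n => ?_
    simp only [Fin.sum_univ_four, Pi.add_apply]
    exact le_of_eq_of_le (by ring) (up_mul he (fin 4 27 (by norm_num) (by norm_num)) j n)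
  · have V2 : ∀ l l', RV fr (sh θ 2 r) w (up ε j (K ^ 32 * y))
        (dd (Dm fr (Q l')) (Dm fr (Q l)) (Dm fr Y)) := fun l l' => by
      rcases le_total l' l with hl | hl
      · exact V1 l _ (c2 l') fun i => ((hQ l').1 i).1.mono (hl.trans (le_max_left _ _))
      · rw [(a3 _ _ _).1]
        exact V1 l' _ (c2 l) fun i => ((hQ l).1 i).1.mono (hl.trans (le_max_left _ _))
    have s1 : dd (Dm fr Y) (Dm fr (∑ l, Q l)) (Dm fr P) =
        ∑ l, dd (Dm fr P) (Dm fr (Q l)) (Dm fr Y) := by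
      rw [(a3 _ _ _).1, (a3 _ _ _).2, (a3 _ _ _).1, Dm_sum, dd_sum_mid]
    have s2 : dd (Dm fr Y) (Dm fr (∑ l, Q l)) (Dm fr (∑ l, Q l)) =
        ∑ l', ∑ l, dd (Dm fr (Q l')) (Dm fr (Q l)) (Dm fr Y) := by
      rw [Dm_sum, dd_sum_mid]
      refine Finset.sum_congr rfl fun l' _ => ?_
      rw [(a3 _ _ _).1, (a3 _ _ _).2, dd_sum_mid]
    have s3 : dd (Dm fr Y) (Dm fr Y) (Dm fr (∑ l, Q l)) =
        ∑ l, dd (Dm fr Y) (Dm fr (Q l)) (Dm fr Y) := by
      rw [(a3 _ _ _).2, Dm_sum, dd_sum_mid]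
    rw [s1, s2, s3, nat_mul 6, nat_mul 3, nat_mul 3]
    have r1 := RV.sum hfr hr2 Finset.univ fun l _ =>
      V1 l P c1 fun i => (hPl i).mono (le_max_right _ _)
    have r2 := RV.sum hfr hr2 Finset.univ fun l' _ => RV.sum hfr hr2 Finset.univ fun l _ => V2 l l'
    have r3 := RV.sum hfr hr2 Finset.univ fun l _ =>
      V1 l Y c3 fun i => (hY.1 i).1.mono (le_max_right _ _)
    refine (((r1.smul 6).add hr2 (r2.smul 3)).add hr2 (r3.smul 3)).mono hfr hw.w_nonneg hr2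
      (fun _ => le_rfl) fun n => ?_
    simp only [Fin.sum_univ_four, Pi.add_apply, Pi.smul_apply, smul_eq_mul, Nat.abs_ofNat]
    exact le_of_eq_of_le (by ring) (up_mul he (fin 84 32 (by norm_num) (by norm_num)) j n)

end Pool.Agent.Lib.MP_fbbbeb_an.Cas
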