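import Pool.Agent.Lib.MP_fbbbeb_an.Cas.AlgK
import Pool.Agent.Lib.MP_fbbbeb_an.Cas.Red
import Pool.Agent.Lib.MP_fbbbeb_an.Cas.UpdQ
import Pool.Agent.Lib.MP_fbbbeb_an.Cas.Upd
import Pool.Agent.Lib.MP_fbbbeb_an.Cas.SymS
import Pool.Agent.Lib.MP_fbbbeb_an.Cas.KillP
import Pool.Agent.Lib.MP_fbbbeb_an.Cas.Iter
import Pool.Agent.Lib.MP_fbbbeb_an.Cas.Solv
import Pool.Agent.Lib.MP_fbbbeb_an.Cas.SolvA
import Pool.Agent.Lib.MP_fbbbeb_an.Cas.SolvB
import Pool.Agent.Lib.MP_fbbbeb_an.Cas.SolvC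
import Pool.Agent.Lib.MP_fbbbeb_an.Cas.Ins

/-! The block solver without hypotheses. -/

set_option autoImplicit false

namespace Pool.Agent.Lib.MP_fbbbeb_an.Cas

theorem updSSt0 : UpdSSt := updSSt algSt redSt

theorem updSt0 : UpdSt := updSt algSt (updQSt algSt) updSSt0

theorem iterSt0 : IterSt := iterSt (killPSt redSt updSt0 symSt) (kill0St updSt0 symSt)

theorem insSt0 : InsSt := insSt algSt redSt updSSt0

theorem solvSt0 : SolvSt := solvSt solvASt0 solvBSt solvCSt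

end Pool.Agent.Lib.MP_fbbbeb_an.Cas
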