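import Mathlib
import Pool.Agent.Lib.MP_fbbbeb_an.Cas.Stmt

/-! The crude a priori bound on an envelope, and pointwise norm bounds for evaluated matrices. -/

set_option autoImplicit false

noncomputable section

namespace Pool.Agent.Lib.MP_fbbbeb_an.Cas

open Pool.Agent.Lib.MP_fbbbeb_an.Pub
open scoped ContDiff Topology RealInnerProductSpace Matrix Nat

namespace Cr

variable {T : ℝ}

/-- the operator of a real matrix -/
abbrev op (M : Matrix (Fin 3) (Fin 3) ℝ) : L3 := Matrix.toEuclideanCLM (n := Fin 3) (𝕜 := ℝ) M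

theorem op_apply (M : Matrix (Fin 3) (Fin 3) ℝ) (x : E) (i : Fin 3) :
    op M x i = ∑ j, M i j * x j := by
  have h : (op M x).ofLp = M *ᵥ x.ofLp := Matrix.ofLp_toEuclideanCLM M x
  have h2 := congrFun h i
  exact h2

theorem norm_sq3 (x : E) : ‖x‖ ^ 2 = x 0 ^ 2 + x 1 ^ 2 + x 2 ^ 2 := by
  rw [EuclideanSpace.real_norm_sq_eq, Fin.sum_univ_three]

theorem row_sq (a b c x y z k : ℝ) (ha : |a| ≤ k) (hb : |b| ≤ k) (hc : |c| ≤ k) :
    (a * x + b * y + c * z) ^ 2 ≤ 3 * k ^ 2 * (x ^ 2 + y ^ 2 + z ^ 2) := by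
  have h1 : a ^ 2 ≤ k ^ 2 := by rw [← sq_abs a]; exact pow_le_pow_left₀ (abs_nonneg _) ha 2
  have h2 : b ^ 2 ≤ k ^ 2 := by rw [← sq_abs b]; exact pow_le_pow_left₀ (abs_nonneg _) hb 2
  have h3 : c ^ 2 ≤ k ^ 2 := by rw [← sq_abs c]; exact pow_le_pow_left₀ (abs_nonneg _) hc 2
  have h4 : (a * x + b * y + c * z) ^ 2 ≤ (a ^ 2 + b ^ 2 + c ^ 2) * (x ^ 2 + y ^ 2 + z ^ 2) := by
    nlinarith [sq_nonneg (a * y - b * x), sq_nonneg (a * z - c * x), sq_nonneg (b * z - c * y)]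
  have h5 : 0 ≤ x ^ 2 + y ^ 2 + z ^ 2 := by positivity
  exact h4.trans (mul_le_mul_of_nonneg_right (by linarith) h5)

/-- operator norm from the entries -/
theorem op_norm_le (M : Matrix (Fin 3) (Fin 3) ℝ) (k : ℝ) (h : ∀ i j, |M i j| ≤ k) :
    ‖op M‖ ≤ 3 * k := by
  have hk : 0 ≤ k := (abs_nonneg _).trans (h 0 0)
  refine ContinuousLinearMap.opNorm_le_bound _ (by positivity) fun x => ?_
  refine (pow_le_pow_iff_left₀ (norm_nonneg _) (by positivity) two_ne_zero).1 ?_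
  rw [mul_pow, norm_sq3, norm_sq3 x]
  simp only [op_apply, Fin.sum_univ_three]
  have h0 := row_sq _ _ _ (x 0) (x 1) (x 2) k (h 0 0) (h 0 1) (h 0 2)
  have h1 := row_sq _ _ _ (x 0) (x 1) (x 2) k (h 1 0) (h 1 1) (h 1 2)
  have h2 := row_sq _ _ _ (x 0) (x 1) (x 2) k (h 2 0) (h 2 1) (h 2 2)
  linarith

theorem minor_le (a b c d k : ℝ) (ha : |a| ≤ k) (hb : |b| ≤ k) (hc : |c| ≤ k) (hd : |d| ≤ k) :
    |a * b - c * d| ≤ 2 * k ^ 2 := by
  have hk : 0 ≤ k := (abs_nonneg _).trans ha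
  have h1 : |a * b| ≤ k * k := by rw [abs_mul]; exact mul_le_mul ha hb (abs_nonneg _) hk
  have h2 : |c * d| ≤ k * k := by rw [abs_mul]; exact mul_le_mul hc hd (abs_nonneg _) hk
  have h3 := abs_sub (a * b) (c * d)
  nlinarith

theorem minor_le' (a b c d k : ℝ) (ha : |a| ≤ k) (hb : |b| ≤ k) (hc : |c| ≤ k) (hd : |d| ≤ k) :
    |-(a * b) + c * d| ≤ 2 * k ^ 2 := by
  have h := minor_le c d a b k hc hd ha hb
  rwa [show c * d - a * b = -(a * b) + c * d by ring] at h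

theorem adj_le (M : Matrix (Fin 3) (Fin 3) ℝ) (k : ℝ) (h : ∀ i j, |M i j| ≤ k) (i j : Fin 3) :
    |M.adjugate i j| ≤ 2 * k ^ 2 := by
  rw [Matrix.adjugate_fin_three]
  fin_cases i <;> fin_cases j <;> simp <;>
    first
      | exact minor_le _ _ _ _ k (h _ _) (h _ _) (h _ _) (h _ _)
      | exact minor_le' _ _ _ _ k (h _ _) (h _ _) (h _ _) (h _ _)

/-- lower bound of an operator from the entries and the inverse determinant -/
theorem op_lower (M : Matrix (Fin 3) (Fin 3) ℝ) (J k : ℝ) (h : ∀ i j, |M i j| ≤ k)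
    (hJ : J * M.det = 1) (hJk : |J| ≤ k) (x : E) : ‖x‖ ≤ 6 * k ^ 3 * ‖op M x‖ := by
  have hk : 0 ≤ k := (abs_nonneg _).trans hJk
  have h1 : (J • M.adjugate) * M = 1 := by
    rw [Matrix.smul_mul, Matrix.adjugate_mul, smul_smul, hJ, one_smul]
  have h2 : op (J • M.adjugate) (op M x) = x := by
    have h3 : op (J • M.adjugate) * op M = 1 := by rw [← map_mul, h1, map_one]
    have h4 := congrArg (fun L : L3 => L x) h3
    simpa using h4
  have h5 : ‖op (J • M.adjugate)‖ ≤ 3 * (k * (2 * k ^ 2)) := by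
    refine op_norm_le _ _ fun i j => ?_
    rw [Matrix.smul_apply, smul_eq_mul, abs_mul]
    exact mul_le_mul hJk (adj_le M k h i j) (abs_nonneg _) hk
  calc ‖x‖ = ‖op (J • M.adjugate) (op M x)‖ := by rw [h2]
    _ ≤ ‖op (J • M.adjugate)‖ * ‖op M x‖ := ContinuousLinearMap.le_opNorm _ _
    _ ≤ 3 * (k * (2 * k ^ 2)) * ‖op M x‖ := mul_le_mul_of_nonneg_right h5 (norm_nonneg _)
    _ = 6 * k ^ 3 * ‖op M x‖ := by ring

/-- value bound from a Gevrey bound at a point -/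
theorem bdAt_val {r : Let → ℝ} {M : ℝ} {f : A T} {z : Pt} (h : BdAt r M f z) : |ev f z| ≤ M := by
  simpa [pw, rpr] using h []

theorem gb_val {d : ℤ} {r : Let → ℝ} {w : ℝ → ℝ} {M : ℝ} {f : A T} (h : GB d r w M f) {z : Pt}
    (hz : z ∈ Sp T) : |ev f z| ≤ M * w z.1 := bdAt_val (h.2 z hz)

theorem gb_val1 {d : ℤ} {r : Let → ℝ} {M : ℝ} {f : A T} (h : GB d r w1 M f) {z : Pt}
    (hz : z ∈ Sp T) : |ev f z| ≤ M := by simpa [w1] using gb_val h hz

theorem sp_time {z : Pt} (hz : z ∈ Sp T) {t : ℝ} (ht : t ∈ Set.Ioo 0 T) : ((t, z.2) : Pt) ∈ Sp T :=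
  ⟨ht.1, ht.2, hz.2.2⟩

/-- norm of an evaluated matrix -/
theorem evm_norm_le {d : ℤ} {r : Let → ℝ} {w : ℝ → ℝ} {M : ℝ} {F : Mat T} (h : GBm d r w M F)
    {z : Pt} (hz : z ∈ Sp T) : ‖evm F z‖ ≤ 3 * (M * w z.1) :=
  op_norm_le _ _ fun i j => gb_val (h i j) hz

theorem evm_norm_le1 {d : ℤ} {r : Let → ℝ} {M : ℝ} {F : Mat T} (h : GBm d r w1 M F)
    {z : Pt} (hz : z ∈ Sp T) : ‖evm F z‖ ≤ 3 * M :=
  op_norm_le _ _ fun i j => gb_val1 (h i j) hz

theorem ev_det (F : Mat T) {z : Pt} (hz : z ∈ Om T) :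
    ev F.det z = (Matrix.of fun i j => ev (F i j) z).det := by
  simp [Matrix.det_fin_three]

/-- lower bound of an evaluated matrix -/
theorem evm_lower {d d' : ℤ} {r r' : Let → ℝ} {K : ℝ} {F : Mat T} {Ji : A T} (hF : GBm d r w1 K F)
    (hJ : Ji * F.det = 1) (hJb : GB d' r' w1 K Ji) {z : Pt} (hz : z ∈ Sp T) (x : E) :
    ‖x‖ ≤ 6 * K ^ 3 * ‖evm F z x‖ := by
  refine op_lower (Matrix.of fun i j => ev (F i j) z) (ev Ji z) K
    (fun i j => gb_val1 (hF i j) hz) ?_ (gb_val1 hJb hz) x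
  rw [← ev_det F (Sp_sub T hz), ← ev_mul, hJ, ev_one (Sp_sub T hz)]

theorem ev_dot_self (V : Vec T) (z : Pt) : ev (V ⬝ᵥ V) z = ‖evv V z‖ ^ 2 := by
  rw [norm_sq3]
  simp [dotProduct, Fin.sum_univ_three, evv, sq]

/-- on an envelope the covector is normalised by `ki` -/
theorem ki_norm {fr : Frame T} (h : fr.Ok) (j : Fin 3) {z : Pt} (hz : z ∈ Om T)
    (he : z ∈ fr.Env j.succ) : ev (fr.ki j) z * ‖evv (fr.k j) z‖ ^ 2 = 1 := by
  have h1 : z ∈ fr.Env 1 := h.env_anti (Fin.one_le_of_ne_zero (Fin.succ_ne_zero j)) he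
  have h2 := congrArg (fun f => ev f z) (h.ki_mul j)
  simp only [ev_mul, ev_add, ev_one hz, h.vp_zero z h1, add_zero, ev_dot_self] at h2
  exact h2

theorem k_ne {fr : Frame T} (h : fr.Ok) (j : Fin 3) {z : Pt} (hz : z ∈ Om T)
    (he : z ∈ fr.Env j.succ) : evv (fr.k j) z ≠ 0 := by
  intro h0
  have h1 := ki_norm h j hz he
  rw [h0] at h1
  simp at h1

theorem star_norm (F : L3) : ‖star F‖ = ‖F‖ := by
  rw [ContinuousLinearMap.star_eq_adjoint]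
  exact ContinuousLinearMap.adjoint.norm_map F

theorem bop_norm_le (F F1 : L3) : ‖Bop F F1‖ ≤ 2 * (‖F‖ * ‖F1‖) := by
  have h1 : ‖star F1 * F‖ ≤ ‖F‖ * ‖F1‖ := by
    have := norm_mul_le (star F1) F
    rwa [star_norm, mul_comm] at this
  have h2 : ‖star F * F1‖ ≤ ‖F‖ * ‖F1‖ := by
    have := norm_mul_le (star F) F1
    rwa [star_norm] at this
  have h3 := norm_sub_le (star F1 * F) (star F * F1)
  unfold Bop
  linarith

/-- size of the projected operator on an envelope -/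
theorem mop_le (hP : PioSt) {fr : Frame T} (j : Fin 3) {F : Mat T} {Ji : A T} {K : ℝ}
    {r : Let → ℝ} (h : fr.Ok) (hK : 2 ≤ K) (hF : GBm 0 r w1 K F) (hF1 : GBm 0 r w1 K (dtm F))
    (hJ : Ji * F.det = 1) (hJb : GB 0 r w1 K Ji) {z : Pt} (hz : z ∈ Sp T)
    (he : z ∈ fr.Env j.succ) {t : ℝ} (ht : t ∈ Set.Ioo 0 T) :
    ‖Mop (evm F (t, z.2)) (evm (dtm F) (t, z.2)) (evv (fr.k j) z)‖ ≤ K ^ 18 := by
  have hK0 : 0 < K := by linarith
  have hz' := sp_time hz ht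
  have h1 := (hP.1 (evm F (t, z.2)) (evv (fr.k j) z) (6 * K ^ 3) (by positivity)
    (evm_lower hF hJ hJb hz') (k_ne h j (Sp_sub T hz) he)).2.2.2
  have h2 := evm_norm_le1 hF hz'
  have h3 := evm_norm_le1 hF1 hz'
  have h4 : ‖Bop (evm F (t, z.2)) (evm (dtm F) (t, z.2))‖ ≤ 2 * (3 * K * (3 * K)) :=
    (bop_norm_le _ _).trans (mul_le_mul_of_nonneg_left
      (mul_le_mul h2 h3 (norm_nonneg _) (by positivity)) (by norm_num))
  have h5 : (648 : ℝ) ≤ K ^ 10 := by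
    have := pow_le_pow_left₀ (by norm_num : (0 : ℝ) ≤ 2) hK 10
    norm_num at this
    linarith
  calc ‖Mop (evm F (t, z.2)) (evm (dtm F) (t, z.2)) (evv (fr.k j) z)‖
      ≤ ‖Pio (evm F (t, z.2)) (evv (fr.k j) z)‖ *
        ‖Bop (evm F (t, z.2)) (evm (dtm F) (t, z.2))‖ := norm_mul_le _ _
    _ ≤ (6 * K ^ 3) ^ 2 * (2 * (3 * K * (3 * K))) :=
        mul_le_mul h1 h4 (norm_nonneg _) (by positivity)
    _ = 648 * K ^ 8 := by ring
    _ ≤ K ^ 10 * K ^ 8 := mul_le_mul_of_nonneg_right h5 (by positivity)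
    _ = K ^ 18 := by ring

end Cr

theorem crudeSt (hP : PioSt) (hR : PrpSt) : CrudeSt := by
  refine ⟨19, fun T fr j F Ji w K lam r h hK hF hF1 hJ hJb _ _ hw hl z hz he => ?_⟩
  refine hR.1 T lam _ w hw fun t ht => ?_
  have h1 := Cr.mop_le hP j h hK hF hF1 hJ hJb hz he ht
  have h2 : (1 : ℝ) ≤ K ^ 18 := one_le_pow₀ (by linarith)
  have h3 : K ^ 19 = K * K ^ 18 := by ring
  nlinarith

end Pool.Agent.Lib.MP_fbbbeb_an.Cas
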