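import Mathlib
import Pool.Agent.Lib.MP_fbbbeb_an.Cas.Stmt

/-! Statements of the pieces of one cycle (shared by the start and the cycle). -/

set_option autoImplicit false

noncomputable section

namespace Pool.Agent.Lib.MP_fbbbeb_an.Cas

open Pool.Agent.Lib.MP_fbbbeb_an.Pub
open scoped ContDiff Topology RealInnerProductSpace Matrix Nat ENNReal

/-- bound for the lifted gradient and its time derivative -/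
def CB {T : ℝ} (fr : Frame T) (r : Let → ℝ) (w : ℝ → ℝ) (M : ℝ) (X : Vec T) : Prop :=
  GBm 0 r w M (Dm fr X) ∧ GBm 0 r w M (dtm (Dm fr X))

/-- the Jacobian is at least `b` on the sphere -/
def DetGe {T : ℝ} (fr : Frame T) (b : ℝ) (X : Vec T) : Prop :=
  ∀ z ∈ Sp T, b ≤ ev (Dm fr X).det z

/-- level solver from the bound at the centre (uses `GeoSt`, `EnvSt`, `SolvSt`) -/
def LevESt : Prop := ∃ C : ℕ, ∀ (T : ℝ) (N : Fin 4 → ℝ) (kv : Fin 3 → E) (δ : ℝ) (j : Fin 3)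
    (X : Vec T) (w : ℝ → ℝ) (K wmin ρ : ℝ), CfOk N kv δ δ → j ≠ 0 → 2 ≤ K → T ≤ 1 → 0 < ρ →
    ρ ≤ 1 → InV j.castSucc X → Eqv X → CB (cf T N kv δ δ) (rad ρ (N 0)) w1 K X →
    DetGe (cf T N kv δ δ) (1 / 2) X → 0 < wmin → (∀ t ∈ Set.Ioo 0 T, wmin ≤ w t ∧ w t ≤ K) →
    K ^ C * wd j δ ≤ ρ / N 0 →
    Prp T (fun t => Mop ((cenM (Dm (cf T N kv δ δ) X)).f t) ((cenM (Dm (cf T N kv δ δ) X)).f1 t)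
      (kv j)) w K →
    ∃ Ji : A T, Ji * (Dm (cf T N kv δ δ) X).det = 1 ∧ GB 0 (rad (ρ / K ^ C) (N 0)) w1 2 Ji ∧
      SolvP (cf T N kv δ δ) j (Dm (cf T N kv δ δ) X) w (K ^ C) (rad (ρ / K ^ C) (N 0))

/-- level solver for a growing weight (uses `CrudeSt`, `SolvSt`) -/
def LevCSt : Prop := ∃ C : ℕ, ∀ (T : ℝ) (fr : Frame T) (j : Fin 3) (X : Vec T) (w : ℝ → ℝ)
    (K lam wmin : ℝ) (r : Let → ℝ), fr.Ok → 2 ≤ K → T ≤ 1 → (∀ i, 0 < r i) → (∀ i, r i ≤ 1) →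
    InV j.castSucc X → Eqv X → CB fr r w1 K X → DetGe fr (1 / 2) X →
    GBv (-1) r w1 K (fr.k j) → GB (-2) r w1 K fr.vp → GB 2 r w1 K (fr.ki j) → 0 < wmin →
    (∀ t ∈ Set.Ioo 0 T, wmin ≤ w t ∧ w t ≤ K) → Grow T lam w → K ^ C ≤ lam →
    ∃ Ji : A T, Ji * (Dm fr X).det = 1 ∧ GB 0 (dvr r (K ^ C)) w1 2 Ji ∧
      SolvP fr j (Dm fr X) w (K ^ C) (dvr r (K ^ C))

/-- base solver (uses `BaseSt`) -/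
def Lev0St : Prop := ∃ C : ℕ, ∀ (T : ℝ) (fr : Frame T) (X : Vec T) (w : ℝ → ℝ)
    (K L θ lam : ℝ) (r rlo : Let → ℝ), fr.Ok → 2 ≤ K → K ^ C ≤ L → T ≤ 1 → (∀ i, 0 < r i) →
    (∀ i, r i ≤ 1) → InV 0 X → Eqv X → (∀ i, Hom 1 (X i)) → CB fr r w1 K X →
    DetGe fr (1 / 2) X →
    (∃ t0 ∈ Set.Ioo 0 T, ∀ z ∈ Sp T, z.1 = t0 → ‖evm (Dm fr X) z - 1‖ ≤ 1 / 2) →
    Grow T lam w → K ^ C ≤ lam → (∀ t ∈ Set.Ioo 0 T, w t ≤ L) → 1 / 2 ≤ θ → θ < 1 →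
    1 ≤ L * (1 - θ) → (∀ i, 1 ≤ L * rlo i) →
    ∃ Ji : A T, Ji * (Dm fr X).det = 1 ∧ GB 0 (dvr r (K ^ C)) w1 2 Ji ∧
      Solv0 (Dm fr X) Ji w (L ^ C) θ rlo (dvr r (K ^ C))

/-- insertion of the wave with source `p` at the centre (uses `GeoSt`, `PifSt`, `InsSt`) -/
def InsWSt : Prop := ∃ C : ℕ, ∀ (T : ℝ) (N : Fin 4 → ℝ) (kv : Fin 3 → E) (δ : ℝ) (j : Fin 3)
    (K Kl θ ε ρ c : ℝ) (w v : Fin 4 → ℝ → ℝ) (X : Vec T) (p : E), CfOk N kv δ δ → j ≠ 0 →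
    Reg (cf T N kv δ δ) K θ ε (rad ρ (N 0)) → Wt T K w v → 2 ≤ Kl → Kl ^ C ≤ K →
    1 / 2 ≤ θ ^ 6 → InV j.castSucc X → Eqv X → CB (cf T N kv δ δ) (rad ρ (N 0)) w1 Kl X →
    St (cf T N kv δ δ) (rad ρ (N 0)) w (fun _ => c) X → 0 ≤ c →
    SolvP (cf T N kv δ δ) j (Dm (cf T N kv δ δ) X) (w j.succ) Kl (rad ρ (N 0)) →
    (∀ t ∈ Set.Ioo 0 T, ‖p‖ ≤ Kl * w j.succ t) → Kl ^ C * ρ ≤ wd j δ ^ 2 →
    ∃ W η : Vec T, Eqv W ∧ Van W ∧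
      SB (cf T N kv δ δ) (rad (ρ / 2) (N 0)) (w j.succ) j.succ (Kl ^ C) W ∧
      CB (cf T N kv δ δ) (rad (ρ / 2) (N 0)) (w j.succ) (Kl ^ C + ε * K ^ C) W ∧
      St (cf T N kv δ δ) (rad (ρ / 2) (N 0)) w (fun _ => c + ε * K ^ C) (X + W) ∧
      Wave T (ε * K ^ C) (w j.succ) (cenM (Dm (cf T N kv δ δ) X)) (kv j) p (cenV η) ∧
      (cenM (Dm (cf T N kv δ δ) (X + W))).Near T 0
        (mulH (cenM (Dm (cf T N kv δ δ) X)) (cenV η) (kv j))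

/-- iteration, with the bounds of the corrections that the end state needs (uses `IterSt`) -/
def FinSt : Prop := ∃ C : ℕ, ∀ (T : ℝ) (fr : Frame T) (K θ ε : ℝ) (r : Let → ℝ)
    (w v : Fin 4 → ℝ → ℝ) (X0 : Vec T) (W : Fin 3 → Vec T) (Ji : Fin 4 → A T) (c : ℝ) (M : ℕ),
    fr.Ok → Reg fr K θ ε r → Wt T K w v → Bg fr K θ (dvr r 2) r w v X0 W Ji →
    (∀ i l, r (la i) = r (la l)) → 1 / 2 ≤ θ ^ (40 * M) → ε * K ^ C ≤ 1 → 0 ≤ c → K ^ C * c ≤ ε →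
    St fr r w (fun _ => c) (X0 + ∑ i, W i) →
    ∃ Cr : Fin 4 → Vec T, (∀ l, Eqv (Cr l)) ∧ FB fr (dvr r 8) w (fun _ => K ^ C * c) Cr ∧
      FB fr (dvr r 8) (fun _ => w1) (fun _ => K ^ C * c) Cr ∧
      (∀ l, CB fr (dvr r 8) w1 (K ^ C * c) (Cr l)) ∧
      (∀ l, ∀ z ∈ Sp T, ‖evm (dtm (dtm (Dm fr (Cr l)))) z‖ ≤ K ^ C * c) ∧
      St fr (dvr r 8) (fun _ => w1) (fun _ => K * c / 2 ^ M) (X0 + ∑ i, W i + ∑ l, Cr l)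

/-- the end state from the finished cycle (uses `GeoSt`) -/
def EndSt : Prop := ∀ (Pre : ℝ → ℝ → ℝ → Cv L3 → Prop) (P B : ℕ) (t00 x T s ρ δ : ℝ)
    (N : Fin 4 → ℝ) (kv : Fin 3 → E) (X W : Vec T) (Cr : Fin 4 → Vec T) (Mlo Mhi e τ b : ℝ),
    0 < t00 → t00 ≤ s → s < T → T ≤ 1 → CfOk N kv δ δ → N 2 = ((x ^ B) ^ B) ^ 2 →
    N 3 = ((x ^ B) ^ B) ^ B → 0 < ρ → 1 ≤ ρ * (x ^ B) ^ P → ρ ≤ 1 →
    InV 2 X → Eqv X → (∀ i, Hom 1 (X i)) → CB (cf T N kv δ δ) (rad ρ (N 0)) w1 Mlo X →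
    DetGe (cf T N kv δ δ) (3 / 4) X →
    SB (cf T N kv δ δ) (rad ρ (N 0)) w1 3 Mhi W → Eqv W →
    CB (cf T N kv δ δ) (rad ρ (N 0)) w1 Mhi W →
    (∀ l, Eqv (Cr l)) → FB (cf T N kv δ δ) (rad ρ (N 0)) (fun _ => w1) (fun _ => e) Cr →
    (∀ l, CB (cf T N kv δ δ) (rad ρ (N 0)) w1 e (Cr l)) →
    (∀ l, ∀ z ∈ Sp T, ‖evm (dtm (dtm (Dm (cf T N kv δ δ) (Cr l)))) z‖ ≤ e) →
    St (cf T N kv δ δ) (rad ρ (N 0)) (fun _ => w1) (fun _ => Real.exp (-(x ^ B)))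
      (X + W + ∑ l, Cr l) →
    (∀ Fn : Cv L3, Fn.Ok T → Fn.Near T τ (cenM (Dm (cf T N kv δ δ) (X + W))) →
      Pre (x ^ B) T s Fn) →
    (∀ z ∈ Sp T, z.1 ≤ t00 →
      ‖evm (Dm (cf T N kv δ δ) X) z - 1‖ + ‖evm (Dm (cf T N kv δ δ) W) z‖ ≤ b) →
    0 ≤ e → 1 ≤ Mlo → Mlo + 3 * e ≤ x ^ (P * P) → Mhi + e ≤ (x ^ B) ^ P →
    1000 * Mlo ^ 2 * e ≤ 1 → 12 * e ≤ τ → b + 12 * e ≤ 1 / 2 - 1 / x →
    EndP Pre P B t00 x ⟨T, s, ρ, N, kv, δ, δ, X + Cr 0 + Cr 1 + Cr 2, W + Cr 3⟩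

/-- the increment of the substituted flow maps (uses `FulSt`) -/
def NxSt : Prop := ∃ C : ℝ, 2 ≤ C ∧ ∀ (Q : ℕ) (l ρ M : ℝ) (d d' : EndD) (X Y : Vec d'.T),
    CfOk d'.N d'.kv d'.δ d'.δa → d'.T ≤ d.T → d.s < d'.s → 0 < ρ → ρ ≤ 1 →
    d.Xf d'.T = (fun i => ful d'.T d'.N d'.kv (X i)) → d'.Xlo + d'.Xhi = X + Y →
    GBv 1 (rad ρ (d'.N 0)) (fun t => Real.exp (-(l / 4 * (d'.T - t)))) M Y →
    (∀ z ∈ Sp d'.T, z.1 ≤ d'.s → ‖evm (Dm d'.fr Y) z‖ ≤ 1 / l) →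
    l ≤ ‖evm (Dm d.fr (d.Xlo + d.Xhi)) (cz d'.s)‖ → M ≤ l ^ Q → C * d'.N 3 ≤ ρ * l ^ Q →
    Nx Q l d d'

/-- the Cauchy invariants of an approximate solution are almost constant (uses `AlgSt`) -/
def DefSt : Prop := ∃ C : ℕ, ∀ (T : ℝ) (fr : Frame T) (K θ ε c : ℝ) (r : Let → ℝ)
    (w v : Fin 4 → ℝ → ℝ) (X : Vec T), fr.Ok → Reg fr K θ ε r → Wt T K w v → 0 ≤ c →
    St fr r w (fun _ => c) X →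
    Defect T (K ^ C * c) (cenM (Dm fr X)) ∧ DetGe fr (1 - K ^ C * c) X

/-- the canonical frame is in the parameter regime (uses `GeoSt`) -/
def RegSt : Prop := ∃ C : ℝ, 2 ≤ C ∧ ∀ (T : ℝ) (N : Fin 4 → ℝ) (kv : Fin 3 → E)
    (δ δa K θ ε ρ n : ℝ), CfOk N kv δ δa → C ≤ K → 1 / 2 ≤ θ → θ < 1 → 1 ≤ K * (1 - θ) →
    0 < ρ → ρ ≤ 1 → 1 ≤ n → C * ρ ≤ n → n ≤ K * N 0 * ρ → 1 ≤ K * ρ → 0 < ε → ε ≤ 1 →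
    (∀ j : Fin 3, N j.castSucc ≤ ε * N j.succ) →
    (cf T N kv δ δa).Ok ∧ Reg (cf T N kv δ δa) K θ ε (rad ρ n) ∧
      ∀ j, GBv (-1) (rad ρ n) w1 C ((cf T N kv δ δa).k j) ∧
        GB (-2) (rad ρ n) w1 C (cf T N kv δ δa).vp ∧ GB 2 (rad ρ n) w1 C ((cf T N kv δ δa).ki j)

/-- the weights of a cycle -/
def wC (T lam : ℝ) (Aw : ℝ → ℝ) : Fin 4 → ℝ → ℝ :=
  ![fun t => Real.exp (-(lam * (T - t))), fun t => Real.exp (-(lam * (T - t))), Aw, Aw]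

def vC (Aw : ℝ → ℝ) : Fin 4 → ℝ → ℝ := ![w1, w1, Aw, Aw]

def WtSt : Prop := ∀ (T lam K : ℝ) (Aw : ℝ → ℝ), 0 ≤ lam → 1 ≤ K →
    (∀ t ∈ Set.Ioo 0 T, 0 ≤ Aw t ∧ Aw t ≤ K * Real.exp (-(lam * (T - t)))) →
    Wt T K (wC T lam Aw) (vC Aw) ∧ Grow T lam (wC T lam Aw 0)

/-- the background from its pieces -/
def BgSt : Prop := ∀ (T : ℝ) (fr : Frame T) (K θ : ℝ) (rlo r : Let → ℝ) (w v : Fin 4 → ℝ → ℝ)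
    (X0 W1 W2 W3 : Vec T) (J0 J1 J2 J3 : A T), fr.Ok → (∀ i, 0 < r i) → 2 ≤ K →
    InV 0 X0 → Eqv X0 → Eqv W1 → Eqv W2 → Eqv W3 →
    SB fr r (v 1) 1 K W1 → SB fr r (v 2) 2 K W2 → SB fr r (v 3) 3 K W3 →
    GBm 0 r w1 K (Dm fr X0) → GBm 0 r w1 K (Dm fr (X0 + W1)) →
    GBm 0 r w1 K (Dm fr (X0 + W1 + W2)) →
    J0 * (Dm fr X0).det = 1 → J1 * (Dm fr X0).det = 1 → J2 * (Dm fr (X0 + W1)).det = 1 →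
    J3 * (Dm fr (X0 + W1 + W2)).det = 1 →
    GB 0 r w1 2 J0 → GB 0 r w1 2 J1 → GB 0 r w1 2 J2 → GB 0 r w1 2 J3 →
    SolvP fr 0 (Dm fr X0) (w 1) K r → SolvP fr 1 (Dm fr (X0 + W1)) (w 2) K r →
    SolvP fr 2 (Dm fr (X0 + W1 + W2)) (w 3) K r → Solv0 (Dm fr X0) J0 (w 0) K θ rlo r →
    Bg fr K θ rlo r w v X0 ![W1, W2, W3] ![J0, J1, J2, J3]

end Pool.Agent.Lib.MP_fbbbeb_an.Cas
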