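import Mathlib
import Pool.Agent.Lib.MP_fbbbeb_an.Cas.Iter

/-! Transport of the state at the end of a cycle through the substitution of phases. -/

set_option autoImplicit false

noncomputable section

namespace Pool.Agent.Lib.MP_fbbbeb_an.Cas

open Pool.Agent.Lib.MP_fbbbeb_an.Pub
open scoped ContDiff Topology RealInnerProductSpace Matrix Nat

namespace Cu

variable {T T' : ℝ}

/-- image of a vector field -/
def mv (U : A T →ₐ[ℝ] A T') (V : Vec T) : Vec T' := fun i => U (V i)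

/-- image of a matrix field -/
def mm (U : A T →ₐ[ℝ] A T') (F : Mat T) : Mat T' := F.map U

/-- the map commutes with the time derivative and the lifted derivatives -/
structure Tr (fr : Frame T) (fr' : Frame T') (U : A T →ₐ[ℝ] A T') : Prop where
  pt : ∀ f, pd lt (U f) = U (pd lt f)
  pD : ∀ f i, D fr' i (U f) = U (D fr i f)

section
variable {U : A T →ₐ[ℝ] A T'} {fr : Frame T} {fr' : Frame T'}

theorem mv_apply (V : Vec T) (i : Fin 3) : mv U V i = U (V i) := rfl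

theorem mm_apply (F : Mat T) (i l : Fin 3) : mm U F i l = U (F i l) := rfl

theorem mv_add (V W : Vec T) : mv U (V + W) = mv U V + mv U W := by
  funext i
  simp [mv]

theorem mv_sub (V W : Vec T) : mv U (V - W) = mv U V - mv U W := by
  funext i
  simp [mv]

theorem mv_zero : mv U (0 : Vec T) = 0 := by
  funext i
  simp [mv]

theorem mv_sum {ι : Type*} (s : Finset ι) (V : ι → Vec T) :
    mv U (∑ l ∈ s, V l) = ∑ l ∈ s, mv U (V l) := by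
  funext i
  simp [mv, Finset.sum_apply]

theorem mm_add (F G : Mat T) : mm U (F + G) = mm U F + mm U G := by
  ext1 i l
  simp [mm]

theorem mm_mulVec (F : Mat T) (V : Vec T) : mm U F *ᵥ mv U V = mv U (F *ᵥ V) := by
  funext i
  simp [mm, mv, Matrix.mulVec, dotProduct]

theorem mm_transpose (F : Mat T) : (mm U F)ᵀ = mm U Fᵀ := rfl

theorem mm_det (F : Mat T) : (mm U F).det = U F.det := (AlgHom.map_det U F).symm

theorem Tr.Dm (h : Tr fr fr' U) (X : Vec T) : Dm fr' (mv U X) = mm U (Dm fr X) := by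
  ext1 i l
  exact h.pD _ _

theorem Tr.dtv (h : Tr fr fr' U) (X : Vec T) : dtv (mv U X) = mv U (dtv X) := by
  funext i
  exact h.pt _

theorem Tr.dtm (h : Tr fr fr' U) (F : Mat T) : dtm (mm U F) = mm U (dtm F) := by
  ext1 i l
  exact h.pt _

theorem Tr.web (h : Tr fr fr' U) (X Y : Vec T) :
    web fr' (mv U X) (mv U Y) = mv U (web fr X Y) := by
  unfold Cas.web
  rw [h.Dm, h.dtv, mm_transpose, mm_mulVec]

theorem Tr.dv (h : Tr fr fr' U) (V : Vec T) : dv fr' (mv U V) = U (dv fr V) := by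
  unfold Cas.dv
  rw [map_sum]
  exact Finset.sum_congr rfl fun i _ => h.pD _ _

theorem Tr.closed (h : Tr fr fr' U) {V : Vec T} (hV : Closed fr V) : Closed fr' (mv U V) := by
  intro i l
  rw [mv_apply, mv_apply, h.pD, h.pD, ← map_sub, h.pt, hV i l, map_zero]

theorem evm_mm {z z' : Pt} (h : ∀ f : A T, ev (U f) z = ev f z') (F : Mat T) :
    evm (mm U F) z = evm F z' := by
  unfold evm
  congr 1
  ext1 i l
  exact h _

theorem evv_mv {z z' : Pt} (h : ∀ f : A T, ev (U f) z = ev f z') (V : Vec T) :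
    evv (mv U V) z = evv V z' := by
  unfold evv
  congr 1
  funext i
  exact h _

/-- two curves agree, with their derivative data, on the time interval -/
def Same {X : Type} (T : ℝ) (P Q : Cv X) : Prop :=
  ∀ t ∈ Set.Ioo 0 T, P.f t = Q.f t ∧ P.f1 t = Q.f1 t ∧ P.f2 t = Q.f2 t

theorem Tr.cenM (h : Tr fr fr' U) (hc : ∀ f, ∀ t ∈ Set.Ioo 0 T', ev (U f) (cz t) = ev f (cz t))
    (F : Mat T) : Same T' (cenM (mm U F)) (cenM F) := by
  intro t ht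
  refine ⟨evm_mm (fun f => hc f t ht) F, ?_, ?_⟩
  · show evm (Cas.dtm (mm U F)) (cz t) = evm (Cas.dtm F) (cz t)
    rw [h.dtm]
    exact evm_mm (fun f => hc f t ht) _
  · show evm (Cas.dtm (Cas.dtm (mm U F))) (cz t) = evm (Cas.dtm (Cas.dtm F)) (cz t)
    rw [h.dtm, h.dtm]
    exact evm_mm (fun f => hc f t ht) _

/-- the residual family after the substitution -/
def dnR (U : A T →ₐ[ℝ] A T') (R : Fin 4 → Vec T) : Fin 4 → Vec T' :=
  ![mv U (R 0) + mv U (R 1) + mv U (R 2), mv U (R 3), 0, 0]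

theorem sum_dnR (R : Fin 4 → Vec T) : ∑ l, dnR U R l = mv U (∑ l, R l) := by
  rw [mv_sum, Fin.sum_univ_four, Fin.sum_univ_four]
  simp [dnR]

theorem fb_dnR {r r' : Let → ℝ} (hf : fr.Ok) (hf' : fr'.Ok) (hN : fr'.N 1 = fr.N 3)
    (hr : ∀ i, 0 ≤ r' i) (hty : ∀ l f, Ty fr l f → Ty fr' (dn l) (U f))
    (hgb : ∀ (M : ℝ) (f : A T), GB 1 r w1 M f → GB 1 r' w1 M (U f)) {c c' : ℝ} (hc : 0 ≤ c)
    {w : Fin 4 → ℝ → ℝ} (hw : ∀ l, ∀ t ∈ Set.Ioo 0 T', 0 ≤ c' * w l t)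
    (h0 : ∀ t ∈ Set.Ioo 0 T', 3 * fr'.N 0 * c ≤ c' * w 0 t)
    (h1 : ∀ t ∈ Set.Ioo 0 T', c ≤ c' * w 1 t) {R : Fin 4 → Vec T}
    (h : FB fr r (fun _ => w1) (fun _ => c) R) : FB fr' r' w (fun _ => c') (dnR U R) := by
  have key : ∀ l : Fin 4, l ≠ 3 → SB fr' r' w1 0 (fr'.N 0 * c) (mv U (R l)) := by
    intro l hl
    refine ⟨fun i => ?_, fun i => ?_⟩
    · have := hty l _ ((h l).1 i)
      rwa [dn, if_neg hl] at this
    · refine It.gb_le (hgb _ _ ((h l).2 i)) It.w1_nonneg ?_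
      rw [mul_div_cancel_left₀ _ (It.N_pos hf' 0).ne']
      exact div_le_self hc (hf.N_one l)
  have z : ∀ l, SB fr' r' (w l) l c' (0 : Vec T') := fun l =>
    It.sb_size hf' (It.sb_zero (w := w l)) fun t ht => by simpa using hw l t ht
  intro l
  fin_cases l
  · refine It.sb_size hf' (It.sb_add hr (It.sb_add hr (key 0 (by decide)) (key 1 (by decide)))
      (key 2 (by decide))) fun t ht => ?_
    have := h0 t ht
    simp only [w1, Fin.zero_eta]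
    linarith
  · have a : SB fr' r' w1 1 c (mv U (R 3)) := by
      refine ⟨fun i => hty 3 _ ((h 3).1 i), fun i => ?_⟩
      rw [hN]
      exact hgb _ _ ((h 3).2 i)
    exact It.sb_size hf' a fun t ht => by simpa [w1] using h1 t ht
  · exact z 2
  · exact z 3

theorem Tr.st {r r' : Let → ℝ} (h : Tr fr fr' U) (hf : fr.Ok) (hf' : fr'.Ok)
    (hN : fr'.N 1 = fr.N 3) (hr : ∀ i, 0 ≤ r' i) (hty : ∀ l f, Ty fr l f → Ty fr' (dn l) (U f))
    (hgb : ∀ (M : ℝ) (f : A T), GB 1 r w1 M f → GB 1 r' w1 M (U f)) {c c' : ℝ} (hc : 0 ≤ c)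
    {w : Fin 4 → ℝ → ℝ} (hw : ∀ l, ∀ t ∈ Set.Ioo 0 T', 0 ≤ c' * w l t)
    (h0 : ∀ t ∈ Set.Ioo 0 T', 3 * fr'.N 0 * c ≤ c' * w 0 t)
    (h1 : ∀ t ∈ Set.Ioo 0 T', c ≤ c' * w 1 t) {X : Vec T}
    (hX : St fr r (fun _ => w1) (fun _ => c) X) : St fr' r' w (fun _ => c') (mv U X) := by
  obtain ⟨⟨R1, a1, b1⟩, ⟨R2, a2, b2⟩⟩ := hX
  refine ⟨⟨dnR U R1, fb_dnR hf hf' hN hr hty hgb hc hw h0 h1 a1, ?_⟩,
    ⟨dnR U R2, fb_dnR hf hf' hN hr hty hgb hc hw h0 h1 a2, ?_⟩⟩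
  · rw [sum_dnR, h.web, ← mv_sub]
    exact h.closed b1
  · rw [sum_dnR, h.dv, h.Dm, mm_det, ← b2, map_sub, map_one]

end

theorem Ph_smul (k a : E) {s : ℝ} (hs : 0 < s) : Ph k (s • a) = Ph k a := by
  have key : ∀ y : E, ⟪s • a, y⟫ / ‖s • a‖ = ⟪a, y⟫ / ‖a‖ := fun y => by
    rw [real_inner_smul_left, norm_smul, Real.norm_of_nonneg hs.le,
      mul_div_mul_left _ _ hs.ne']
  unfold Ph dc
  refine Finset.sum_congr rfl fun g _ => ?_
  rw [mul_div_assoc, mul_div_assoc, key, real_inner_comm (s • a), key, real_inner_comm a]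

theorem hom_unl (N : Fin 4 → ℝ) (kv : Fin 3 → E) {d : ℤ} {f : A T} (h : Hom d f) :
    Hom d (unl T' N kv f) := by
  intro z s hs
  by_cases hz : z ∈ Om T'
  · have hz' : ((z.1, s • z.2.1, z.2.2) : Pt) ∈ Om T' :=
      ⟨hz.1, hz.2.1, smul_ne_zero hs.ne' hz.2.2⟩
    by_cases hg : Good T' fun z : Pt =>
        ev f (z.1, z.2.1, !₂[N 1 * Ph (kv 0) z.2.1, N 2 * Ph (kv 1) z.2.1, z.2.2 0])
    · unfold unl
      rw [ev_mkA hg hz, ev_mkA hg hz']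
      simp only [Ph_smul _ _ hs]
      exact h (z.1, z.2.1, !₂[N 1 * Ph (kv 0) z.2.1, N 2 * Ph (kv 1) z.2.1, z.2.2 0]) s hs
    · have : unl T' N kv f = 0 := by
        unfold unl mkA
        exact dif_neg hg
      rw [this]
      simp
  · have hz' : ((z.1, s • z.2.1, z.2.2) : Pt) ∉ Om T' := fun h' =>
      hz ⟨h'.1, h'.2.1, fun h0 => h'.2.2 (by simp [h0])⟩
    rw [ev_out _ hz, ev_out _ hz', mul_zero]

theorem rad_nonneg {ρ N : ℝ} (h : 0 ≤ ρ) (hN : 0 ≤ N) (i : Let) : 0 ≤ rad ρ N i := by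
  rcases i with _ | i | i
  · exact h
  · exact div_nonneg h hN
  · exact h

/-- the state at the beginning of a cycle, in the new frame `fr'` at the radii `r'` -/
structure Beg (P B : ℕ) (t00 x : ℝ) (d : EndD) {T' : ℝ} (N' : Fin 4 → ℝ) (kv' : Fin 3 → E)
    (fr' : Frame T') (r' : Let → ℝ) (X0 W1 : Vec T') : Prop where
  lo_in : InV 0 X0
  lo_eqv : Eqv X0
  lo_hom : ∀ i, Hom 1 (X0 i)
  lo_bd : GBm 0 r' w1 (x ^ (P * P)) (Dm fr' X0)
  lo_bdt : GBm 0 r' w1 (x ^ (P * P)) (dtm (Dm fr' X0))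
  lo_det : ∀ z ∈ Sp T', 1 / 2 ≤ ev (Dm fr' X0).det z
  hi_sb : SB fr' r' w1 1 ((x ^ B) ^ P) W1
  hi_eqv : Eqv W1
  hi_bd : GBm 0 r' w1 ((x ^ B) ^ P) (Dm fr' W1)
  hi_bdt : GBm 0 r' w1 ((x ^ B) ^ P) (dtm (Dm fr' W1))
  st : ∀ (c' : ℝ) (w : Fin 4 → ℝ → ℝ), (∀ l, ∀ t ∈ Set.Ioo 0 T', 0 ≤ c' * w l t) →
    (∀ t ∈ Set.Ioo 0 T', 3 * fr'.N 0 * Real.exp (-(x ^ B)) ≤ c' * w 0 t) →
    (∀ t ∈ Set.Ioo 0 T', Real.exp (-(x ^ B)) ≤ c' * w 1 t) → St fr' r' w (fun _ => c') (X0 + W1)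
  cen : Same T' (cenM (Dm fr' (X0 + W1))) (cenM (Dm d.fr (d.Xlo + d.Xhi)))
  small : ∀ z ∈ Sp T', z.1 ≤ t00 →
    ‖evm (Dm fr' X0) z - 1‖ + ‖evm (Dm fr' W1) z‖ ≤ 1 / 2 - 1 / x
  xf : d.Xf T' = fun i => ful T' N' kv' ((X0 + W1) i)

end Cu

open Cu in
/-- the end state of a cycle, seen in the frame of the next cycle -/
theorem unl_end (hG : GeoSt) (hU : UnlSt) : ∃ C : ℝ, 2 ≤ C ∧
    ∀ (Pre : ℝ → ℝ → ℝ → Cv L3 → Prop) (P B : ℕ) (t00 x : ℝ) (d : EndD) (T' : ℝ)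
      (N' : Fin 4 → ℝ) (kv' : Fin 3 → E) (δ' δa' : ℝ), EndP Pre P B t00 x d → 0 < d.ρ →
      T' ≤ d.T → CfOk N' kv' δ' δa' → N' 1 = d.N 3 → kv' 0 = d.kv 2 →
      ∃ X0 W1 : Vec T',
        Beg P B t00 x d N' kv' (cf T' N' kv' δ' δa') (rad (d.ρ / C) (d.N 2)) X0 W1 := by
  obtain ⟨_, -, hG⟩ := hG
  obtain ⟨C, hC, hU⟩ := hU
  refine ⟨C, hC, ?_⟩
  intro Pre P B t00 x d T' N' kv' δ' δa' h hρ hT hc h1 hk
  obtain ⟨U, u1, u2, u3, u4, u5, u6, u7, u8, u9, u10, u11⟩ :=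
    hU d.T T' d.N N' d.kv kv' d.δ d.δa δ' δa' h.cf_ok hT h1 hk
  have tr : Tr d.fr (cf T' N' kv' δ' δa') U := ⟨u2, u3⟩
  have hf : d.fr.Ok := (hG d.T d.N d.kv d.δ d.δa h.cf_ok).1
  have hf' : (cf T' N' kv' δ' δa').Ok := (hG T' N' kv' δ' δa' hc).1
  have gb : ∀ (e : ℤ) (M : ℝ) (f : A d.T), GB e d.r w1 M f →
      GB e (rad (d.ρ / C) (d.N 2)) w1 M (U f) := fun e M f hf =>
    u11 e d.ρ w1 M f hρ h.rho_hi hf
  have hr : ∀ i, 0 ≤ rad (d.ρ / C) (d.N 2) i :=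
    rad_nonneg (div_nonneg hρ.le (by linarith)) (It.N_pos hf 2).le
  refine ⟨mv U d.Xlo, mv U d.Xhi, fun i => u5 _ (h.lo_in i), u7 _ h.lo_eqv, fun i => ?_,
    ?_, ?_, fun z hz => ?_, ⟨fun i => u6 3 _ (h.hi_sb.1 i), fun i => ?_⟩, u7 _ h.hi_eqv, ?_, ?_,
    fun c' w a b c => ?_, ?_, fun z hz ht => ?_, ?_⟩
  · rw [mv_apply, u1]
    exact hom_unl _ _ (h.lo_hom i)
  · rw [tr.Dm]
    exact fun i l => gb _ _ _ (h.lo_bd i l)
  · rw [tr.Dm, tr.dtm]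
    exact fun i l => gb _ _ _ (h.lo_bdt i l)
  · obtain ⟨z', a, -, b⟩ := u9 z hz
    rw [tr.Dm, mm_det, b]
    exact h.lo_det z' a
  · have e : (cf T' N' kv' δ' δa').N 1 = d.fr.N 3 := h1
    rw [e]
    exact gb _ _ _ (h.hi_sb.2 i)
  · rw [tr.Dm]
    exact fun i l => gb _ _ _ (h.hi_bd i l)
  · rw [tr.Dm, tr.dtm]
    exact fun i l => gb _ _ _ (h.hi_bdt i l)
  · rw [← mv_add]
    exact tr.st hf hf' h1 hr u6 (gb 1) (Real.exp_pos _).le a b c h.st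
  · rw [← mv_add, tr.Dm]
    exact tr.cenM u8 _
  · obtain ⟨z', a, e, b⟩ := u9 z hz
    rw [tr.Dm, tr.Dm, evm_mm b, evm_mm b]
    exact h.small z' a (e ▸ ht)
  · funext i
    rw [← mv_add, mv_apply, u10]
    rfl

end Pool.Agent.Lib.MP_fbbbeb_an.Cas
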