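import Mathlib
import Pool.Agent.Lib.MP_fbbbeb_an.Cas.Stmt
import Pool.Agent.Lib.MP_fbbbeb_an.D.Prp

/-! The a priori bound: crude form, perturbation, covariance. -/

namespace Pool.Agent.Lib.MP_fbbbeb_an.Cas

open Pool.Agent.Lib.MP_fbbbeb_an.Pub Pool.Agent.Lib.MP_fbbbeb_an.D Set Filter Topology
open scoped RealInnerProductSpace

variable {T K : ℝ} {M : ℝ → L3} {w : ℝ → ℝ}

/-- the causal bound gives the bound -/
lemma Prp.of_prc (h : Prc T M w K) : Prp T M w K := fun y f c _ hy h0 hf t ht =>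
  h y f c t ht (fun s hs => hy s ⟨hs.1, hs.2.trans_lt ht.2⟩) h0
    fun s hs => hf s ⟨hs.1, hs.2.trans_lt ht.2⟩

lemma Prp.mono (h : Prp T M w K) {K' : ℝ} (hK : K ≤ K') : Prp T M w K' :=
  fun y f c c0 hy h0 hf t ht => (h y f c c0 hy h0 hf t ht).trans (by
    rw [mul_assoc, mul_assoc]
    exact mul_le_mul_of_nonneg_right hK ((norm_nonneg _).trans (hf t ht)))

lemma Prp.congr (h : Prp T M w K) {M' : ℝ → L3} {w' : ℝ → ℝ} (hM : ∀ t ∈ Ioo 0 T, M' t = M t)
    (hw : ∀ t ∈ Ioo 0 T, w' t = w t) : Prp T M' w' K := fun y f c c0 hy h0 hf t ht => by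
  rw [hw t ht]
  exact h y f c c0 (fun s hs => hM s hs ▸ hy s hs) h0 (fun s hs => hw s hs ▸ hf s hs) t ht

/-- comparable weights -/
lemma Prp.comp (h : Prp T M w K) {w' : ℝ → ℝ} {a b : ℝ} (K0 : 0 ≤ K) (a0 : 0 ≤ a)
    (h1 : ∀ t ∈ Ioo 0 T, w' t ≤ a * w t) (h2 : ∀ t ∈ Ioo 0 T, a * w t ≤ b * w' t) :
    Prp T M w' (K * b) := by
  intro y f c c0 hy h0 hf t ht
  refine (h y f (c * a) (by positivity) hy h0 (fun s hs => (hf s hs).trans ?_) t ht).trans ?_
  · rw [mul_assoc]; exact mul_le_mul_of_nonneg_left (h1 s hs) c0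
  · have := mul_le_mul_of_nonneg_left (h2 t ht) (mul_nonneg K0 c0)
    linarith

lemma Prp.crude {lam : ℝ} (hw : Grow T lam w) (hM : ∀ t ∈ Ioo 0 T, ‖M t‖ + 1 ≤ lam) :
    Prp T M w 1 := by
  intro y f c c0 hy h0 hf t0 t1
  have a0 := hw.1 t0 t1
  have m : ∀ t ∈ Ioc 0 t0, t ∈ Ioo 0 T := fun t ht => ⟨ht.1, ht.2.trans_lt t1.2⟩
  refine le_of_forall_pos_le_add fun e e0 => ?_
  have := barrier (B := fun t => (c * w t0 + e) * Real.exp (lam * (t - t0)))
    (B' := fun t => (c * w t0 + e) * (Real.exp (lam * (t - t0)) * lam)) t1.1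
    (fun t ht => hy t (m t ht)) h0
    (fun t => by
      simpa using ((((hasDerivAt_id t).sub_const t0).const_mul lam).exp).const_mul (c * w t0 + e))
    (by positivity) fun t ht q => by
      have h1 := ((M t).le_opNorm (y t)).trans (mul_le_mul_of_nonneg_right
        (le_sub_iff_add_le.2 (hM t (m t ht))) (norm_nonneg _))
      have h2 := (hf t (m t ht)).trans (mul_le_mul_of_nonneg_left (hw.2 t t0 ht.1 ht.2 t1.2) c0)
      rw [show - (lam * (t0 - t)) = lam * (t - t0) by ring] at h2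
      have h3 := mul_pos e0 (Real.exp_pos (lam * (t - t0)))
      rw [q] at h1
      refine (norm_add_le _ _).trans_lt ?_
      nlinarith
  simpa using this

lemma Prp.pert (h : Prp T M w K) {L wmin : ℝ} {M' : ℝ → L3} (K0 : 0 < K) (w0 : 0 < wmin)
    (H : ∀ t ∈ Ioo 0 T, wmin ≤ w t ∧ w t ≤ L ∧ ‖M' t‖ ≤ L ∧ 2 * K * ‖M' t - M t‖ ≤ 1) :
    Prp T M' w (2 * K) := by
  intro y f c c0 hy h0 hf t0 t1
  have L0 : 0 < L := w0.trans_le ((H t0 t1).1.trans (H t0 t1).2.1)
  have A0 : ∀ t ∈ Ioo 0 T, 0 < w t := fun t ht => w0.trans_le (H t ht).1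
  have hC := Prp.crude (T := T) (M := M') (w := fun t => L * Real.exp ((L + 1) * t)) (lam := L + 1)
    ⟨fun t _ => by positivity, fun s t _ _ _ => le_of_eq (by
      rw [mul_left_comm, ← Real.exp_add]; ring_nf)⟩
    (fun t ht => by linarith [(H t ht).2.2.1]) y f c c0 hy h0 fun t ht => (hf t ht).trans
      (mul_le_mul_of_nonneg_left ((H t ht).2.1.trans (le_mul_of_one_le_right L0.le
        (Real.one_le_exp (by have := ht.1; positivity)))) c0)
  have bd : BddAbove ((fun t => ‖y t‖ / w t) '' Ioo 0 T) :=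
    ⟨1 * c * (L * Real.exp ((L + 1) * T)) / wmin, by
      rintro _ ⟨t, ht, rfl⟩
      refine div_le_div₀ (by positivity) ((hC t ht).trans ?_) w0 (H t ht).1
      have := ht.2.le
      beta_reduce
      gcongr⟩
  set S := sSup ((fun t => ‖y t‖ / w t) '' Ioo 0 T) with hS
  have s1 : ∀ t ∈ Ioo 0 T, ‖y t‖ ≤ S * w t := fun t ht =>
    (div_le_iff₀ (A0 t ht)).1 (le_csSup bd ⟨t, ht, rfl⟩)
  have S0 : 0 ≤ S := nonneg_of_mul_nonneg_left ((norm_nonneg _).trans (s1 t0 t1)) (A0 t0 t1)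
  have s2 : S ≤ K * (c + S / (2 * K)) := by
    refine csSup_le ⟨_, t0, t1, rfl⟩ ?_
    rintro _ ⟨t, ht, rfl⟩
    refine (div_le_iff₀ (A0 t ht)).2 (h y (fun s => f s + (M' s - M s) (y s)) _ (by positivity)
      (fun s hs => (hy s hs).congr_deriv ?_) h0 (fun s hs => ?_) t ht)
    · simp only [sub_apply]; abel
    · refine (norm_add_le _ _).trans ?_
      have e : ‖M' s - M s‖ ≤ 1 / (2 * K) := by
        rw [le_div_iff₀ (by positivity), mul_comm]; exact (H s hs).2.2.2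
      have := ((M' s - M s).le_opNorm (y s)).trans (mul_le_mul e (s1 s hs) (norm_nonneg _)
        (by positivity))
      refine (add_le_add (hf s hs) this).trans_eq (by ring)
  have s3 : K * (c + S / (2 * K)) = K * c + S / 2 := by field_simp
  exact (s1 t0 t1).trans (mul_le_mul_of_nonneg_right (by linarith) (A0 t0 t1).le)

lemma Prp.conj (h : Prp T M w K) (g : E ≃ₗᵢ[ℝ] E) {M' : ℝ → L3}
    (hM : ∀ t ∈ Ioo 0 T, ∀ v, M' t (g v) = g (M t v)) : Prp T M' w K := by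
  intro y f c c0 hy h0 hf t0 t1
  have e : ∀ t ∈ Ioo 0 T, ∀ v, g.symm (M' t v) = M t (g.symm v) := fun t ht v => by
    rw [g.symm_apply_eq, ← hM t ht, g.apply_symm_apply]
  have := h (fun t => g.symm (y t)) (fun t => g.symm (f t)) c c0 (fun t ht => by
    have := (g.symm.toContinuousLinearEquiv : E →L[ℝ] E).hasFDerivAt.comp_hasDerivAt t (hy t ht)
    simpa [e t ht, Function.comp_def] using this)
    (by simpa [Function.comp_def] using (g.symm.continuous.tendsto 0).comp h0)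
    (fun t ht => by simpa using hf t ht) t0 t1
  simpa using this

/-- `G` is `F` conjugated by `g` -/
def Cj (g : E ≃ₗᵢ[ℝ] E) (F G : L3) : Prop := ∀ x, G (g x) = g (F x)

variable {g : E ≃ₗᵢ[ℝ] E} {F G F1 G1 : L3}

lemma Cj.mul (h : Cj g F G) (h1 : Cj g F1 G1) : Cj g (F * F1) (G * G1) := fun x => by
  rw [mul_apply_eq_comp, h1, h, mul_apply_eq_comp]

lemma Cj.sub (h : Cj g F G) (h1 : Cj g F1 G1) : Cj g (F - F1) (G - G1) := fun x => by
  rw [sub_apply, h1, h, sub_apply, map_sub]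

lemma Cj.smul (h : Cj g F G) (a : ℝ) : Cj g (a • F) (a • G) := fun x => by
  rw [smul_apply, h, smul_apply, map_smul]

lemma Cj.star (h : Cj g F G) : Cj g (star F) (star G) := fun x => by
  refine ext_inner_right ℝ fun v => ?_
  obtain ⟨u, rfl⟩ := g.surjective v
  rw [ContinuousLinearMap.star_eq_adjoint, ContinuousLinearMap.star_eq_adjoint,
    ContinuousLinearMap.adjoint_inner_left, h, g.inner_map_map, g.inner_map_map,
    ContinuousLinearMap.adjoint_inner_left]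

lemma Cj.r1 (g : E ≃ₗᵢ[ℝ] E) (a b : E) : Cj g (r1 a b) (r1 (g a) (g b)) := fun x => by
  simp [Cas.r1, g.inner_map_map]

lemma Cj.inverse (h : Cj g F G) : Cj g (Ring.inverse F) (Ring.inverse G) := by
  let u : L3ˣ := ⟨g.toContinuousLinearEquiv, g.symm.toContinuousLinearEquiv,
    by ext1 x; simp, by ext1 x; simp⟩
  have e : G = u * F * (u⁻¹ : L3ˣ) := by
    ext1 x
    obtain ⟨v, rfl⟩ := g.surjective x
    simp [u, h v]
  intro x
  by_cases q : IsUnit F
  · obtain ⟨F, rfl⟩ := q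
    rw [e, ← Units.val_mul, ← Units.val_mul, Ring.inverse_unit, Ring.inverse_unit]
    simp [u]
  · have q' : ¬ IsUnit G := by simpa [e] using q
    simp [Ring.inverse_non_unit _ q, Ring.inverse_non_unit _ q']

lemma Cj.pio (h : Cj g F G) (k : E) : Cj g (Pio F k) (Pio G (g k)) := by
  have i := (h.star.mul h).inverse
  unfold Pio
  rw [i k, g.inner_map_map]
  exact i.sub ((Cj.r1 g _ _).smul _)

lemma Cj.mop (h : Cj g F G) (h1 : Cj g F1 G1) (k : E) : Cj g (Mop F F1 k) (Mop G G1 (g k)) :=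
  (h.pio k).mul ((h1.star.mul h).sub (h.star.mul h1))

theorem prpSt : PrpSt :=
  ⟨fun _ _ _ _ hw hM => Prp.crude hw hM, fun _ _ _ _ _ _ _ K0 w0 H h => h.pert K0 w0 H,
    fun _ _ _ _ _ _ k g _ h1 h2 h => h.conj g fun t _ => Cj.mop (h1 t) (h2 t) k⟩

end Pool.Agent.Lib.MP_fbbbeb_an.Cas
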