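import Mathlib
import Pool.Agent.Lib.MP_fbbbeb_an.Cas.CycS
import Pool.Agent.Lib.MP_fbbbeb_an.Cas.CycU
import Pool.Agent.Lib.MP_fbbbeb_an.Cas.Gev
import Pool.Agent.Lib.MP_fbbbeb_an.Cas.TypA1
import Pool.Agent.Lib.MP_fbbbeb_an.Cas.TypB
import Pool.Agent.Lib.MP_fbbbeb_an.Cas.EvG
import Pool.Agent.Lib.MP_fbbbeb_an.Cas.Prp

/-! Stages of one cycle: the base solvers and the insertion of one wave. -/

set_option autoImplicit false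

noncomputable section

namespace Pool.Agent.Lib.MP_fbbbeb_an.Cas.Cy

open Pool.Agent.Lib.MP_fbbbeb_an.Pub
open scoped ContDiff Topology RealInnerProductSpace Matrix Nat ENNReal

variable {T : ℝ}

/-! ### radii -/

theorem rad_pos {ρ n : ℝ} (h : 0 < ρ) (hn : 0 < n) (i : Let) : 0 < rad ρ n i := by
  rcases i with _ | i | i
  · exact h
  · exact div_pos h hn
  · exact h

theorem rad_le {ρ ρ' n : ℝ} (h : ρ ≤ ρ') (hn : 0 < n) (i : Let) : rad ρ n i ≤ rad ρ' n i := by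
  rcases i with _ | i | i
  · exact h
  · exact div_le_div_of_nonneg_right h hn.le
  · exact h

theorem rad_one {ρ n : ℝ} (h : ρ ≤ 1) (hn : 1 ≤ n) (i : Let) : rad ρ n i ≤ 1 := by
  rcases i with _ | i | i
  · exact h
  · exact (div_le_one (by linarith)).2 (h.trans hn)
  · exact h

theorem dvr_rad (ρ n K : ℝ) : dvr (rad ρ n) K = rad (ρ / K) n := by
  funext i
  rcases i with _ | i | i
  · rfl
  · simp only [dvr, rad]
    ring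
  · rfl

theorem le_div_pow {a b K : ℝ} {m G : ℕ} (ha : 0 ≤ a) (hK : 1 ≤ K) (hm : m ≤ G)
    (h : a * K ^ G ≤ b) : a ≤ b / K ^ m := by
  rw [le_div_iff₀ (by positivity)]
  exact (mul_le_mul_of_nonneg_left (pow_le_pow_right₀ hK hm) ha).trans h

theorem pow_mul_le {a b K : ℝ} {m G : ℕ} (ha : 0 ≤ a) (hK : 1 ≤ K) (hm : m ≤ G)
    (h : K ^ G * a ≤ b) : K ^ m * a ≤ b :=
  (mul_le_mul_of_nonneg_right (pow_le_pow_right₀ hK hm) ha).trans h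

/-! ### gradient bounds -/

section
variable {fr : Frame T} {r r' : Let → ℝ} {w w' : ℝ → ℝ} {M M' : ℝ} {X Y : Vec T}

theorem cb_mono (h : CB fr r w M X) (hr : ∀ i, 0 ≤ r' i) (hr' : ∀ i, r' i ≤ r i)
    (hM : ∀ t ∈ Set.Ioo 0 T, M * w t ≤ M' * w' t) : CB fr r' w' M' X :=
  ⟨h.1.mono hr hr' hM, h.2.mono hr hr' hM⟩

theorem cb_add (hr : ∀ i, 0 ≤ r i) (h : CB fr r w M X) (h' : CB fr r w M' Y) :
    CB fr r w (M + M') (X + Y) := by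
  refine ⟨?_, ?_⟩
  · rw [Dm_add]
    exact h.1.add hr h'.1
  · rw [Dm_add, dtm_add]
    exact h.2.add hr h'.2

theorem w1_le (h : M ≤ M') : ∀ t ∈ Set.Ioo 0 T, M * w1 t ≤ M' * w1 t := fun _ _ => by
  simpa [w1] using h

theorem evm_le {F : Mat T} {d : ℤ} (h : GBm d r w M F) {z : Pt} (hz : z ∈ Sp T) :
    ‖evm F z‖ ≤ 3 * (M * w z.1) := norm_evm_le fun i l => (h i l).abs_le hz

theorem solvP_rad {j : Fin 3} {F : Mat T} {K : ℝ} (h : SolvP fr j F w K r)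
    (hr : ∀ i, r' i ≤ r i) : SolvP fr j F w K r' :=
  fun r1 a1 a2 => h r1 a1 fun i => (a2 i).trans (hr i)

theorem solv0_rad {F : Mat T} {Ji : A T} {K θ : ℝ} {rlo : Let → ℝ} (h : Solv0 F Ji w K θ rlo r)
    (hr : ∀ i, r' i ≤ r i) : Solv0 F Ji w K θ rlo r' :=
  fun r1 a1 a2 => h r1 a1 fun i => (a2 i).trans (hr i)

theorem detGe_mono {b b' : ℝ} (h : DetGe fr b X) (hb : b' ≤ b) : DetGe fr b' X :=
  fun z hz => hb.trans (h z hz)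

end

/-! ### curves at the centre -/

section
variable {T' ε ε' K : ℝ} {P Q S : Cv L3} {w : ℝ → ℝ} {k p : E} {η : Cv E}

theorem near_trans (h : P.Near T ε Q) (h' : Q.Near T ε' S) : P.Near T (ε + ε') S := fun t ht => by
  obtain ⟨a, b, c⟩ := h t ht
  obtain ⟨a', b', c'⟩ := h' t ht
  exact ⟨(norm_sub_le_norm_sub_add_norm_sub _ _ _).trans (add_le_add a a'),
    (norm_sub_le_norm_sub_add_norm_sub _ _ _).trans (add_le_add b b'),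
    (norm_sub_le_norm_sub_add_norm_sub _ _ _).trans (add_le_add c c')⟩

theorem near_le (h : P.Near T ε Q) (he : ε ≤ ε') : P.Near T ε' Q := fun t ht => by
  obtain ⟨a, b, c⟩ := h t ht
  exact ⟨a.trans he, b.trans he, c.trans he⟩

theorem wave_same (hn : Cu.Same T P Q) (h : Wave T ε w P k p η) (he : ε ≤ ε')
    (hw : ∀ t ∈ Set.Ioo 0 T, 0 ≤ w t) : Wave T ε' w Q k p η := by
  obtain ⟨h1, h2, s, e, e1, h3⟩ := h
  refine ⟨h1, h2, s, e, e1, fun t ht => ?_⟩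
  obtain ⟨a, b, -⟩ := hn t ht
  obtain ⟨c1, c2, c3, c4, c5⟩ := h3 t ht
  have := mul_le_mul_of_nonneg_right he (hw t ht)
  rw [← a, ← b]
  exact ⟨c1, c2, c3, c4.trans this, c5.trans this⟩

theorem near_mulH_same (hn : Cu.Same T P Q) (h : S.Near T ε (mulH P η k)) :
    S.Near T ε (mulH Q η k) := fun t ht => by
  obtain ⟨a, b, c⟩ := hn t ht
  have := h t ht
  simp only [mulH, a, b, c] at this ⊢
  exact this

theorem prp_same (hn : Cu.Same T P Q) (h : Prp T (fun t => Mop (Q.f t) (Q.f1 t) k) w K) :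
    Prp T (fun t => Mop (P.f t) (P.f1 t) k) w K := by
  intro y f c hc hy h0 hf
  refine h y f c hc (fun t ht => ?_) h0 hf
  obtain ⟨a, b, -⟩ := hn t ht
  simpa only [a, b] using hy t ht

theorem prp_le {M : ℝ → L3} {K' : ℝ} (h : Prp T M w K) (hK : K ≤ K')
    (hw : ∀ t ∈ Set.Ioo 0 T, 0 ≤ w t) : Prp T M w K' := fun y f c hc hy h0 hf t ht =>
  (h y f c hc hy h0 hf t ht).trans
    (mul_le_mul_of_nonneg_right (mul_le_mul_of_nonneg_right hK hc) (hw t ht))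

end

/-! ### the base solvers -/

theorem base (hC : LevCSt) (h0 : Lev0St) : ∃ G : ℕ, ∀ G' ≥ G, ∀ (T : ℝ) (fr : Frame T) (X : Vec T)
    (w : ℝ → ℝ) (K0 L K θ lam wmin ρ ρ' n : ℝ) (rlo : Let → ℝ), fr.Ok → 2 ≤ K0 → K0 ^ G' ≤ L →
    L ≤ K → L ^ G' ≤ K → T ≤ 1 → 0 < ρ' → ρ' * K0 ^ G' ≤ ρ → ρ ≤ 1 → 1 ≤ n → InV 0 X → Eqv X →
    (∀ i, Hom 1 (X i)) → CB fr (rad ρ n) w1 K0 X → DetGe fr (1 / 2) X →
    (∃ t0 ∈ Set.Ioo 0 T, ∀ z ∈ Sp T, z.1 = t0 → ‖evm (Dm fr X) z - 1‖ ≤ 1 / 2) →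
    GBv (-1) (rad ρ n) w1 K0 (fr.k 0) → GB (-2) (rad ρ n) w1 K0 fr.vp →
    GB 2 (rad ρ n) w1 K0 (fr.ki 0) → 0 < wmin → (∀ t ∈ Set.Ioo 0 T, wmin ≤ w t ∧ w t ≤ 1) →
    Grow T lam w → K0 ^ G' ≤ lam → 1 / 2 ≤ θ → θ < 1 → 1 ≤ L * (1 - θ) → (∀ i, 1 ≤ L * rlo i) →
    ∃ J0 J1 : A T, J0 * (Dm fr X).det = 1 ∧ J1 * (Dm fr X).det = 1 ∧
      GB 0 (rad ρ' n) w1 2 J0 ∧ GB 0 (rad ρ' n) w1 2 J1 ∧
      SolvP fr 0 (Dm fr X) w K (rad ρ' n) ∧ Solv0 (Dm fr X) J0 w K θ rlo (rad ρ' n) := by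
  obtain ⟨CC, hC⟩ := hC
  obtain ⟨C0, h0⟩ := h0
  refine ⟨CC + C0, fun G hG => ?_⟩
  intro T fr X w K0 L K θ lam wmin ρ ρ' n rlo hf hK0 hKL hLK hLG hT hρ' hρρ hρ1 hn hin heq hhom
    hcb hdet hinj hk hvp hki hwm hw hgr hlam hθ hθ1 hLθ hlo
  have k1 : 1 ≤ K0 := by linarith
  have n0 : 0 < n := by linarith
  have kG : 1 ≤ K0 ^ G := one_le_pow₀ k1
  have ρ0 : 0 < ρ := lt_of_lt_of_le (by positivity) hρρ
  have L1 : 1 ≤ L := kG.trans hKL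
  have hw0 : ∀ t ∈ Set.Ioo 0 T, 0 ≤ w t := hgr.1
  have pc : K0 ^ CC ≤ K0 ^ G := pow_le_pow_right₀ k1 (by omega)
  have p0 : K0 ^ C0 ≤ K0 ^ G := pow_le_pow_right₀ k1 (by omega)
  obtain ⟨J1, a1, a2, a3⟩ := hC T fr 0 X w K0 lam wmin (rad ρ n) hf hK0 hT (rad_pos ρ0 n0)
    (rad_one hρ1 hn) hin heq hcb hdet hk hvp hki hwm
    (fun t ht => ⟨(hw t ht).1, (hw t ht).2.trans k1⟩) hgr (pc.trans hlam)
  obtain ⟨J0, b1, b2, b3⟩ := h0 T fr X w K0 L θ lam (rad ρ n) rlo hf hK0 (p0.trans hKL) hT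
    (rad_pos ρ0 n0) (rad_one hρ1 hn) hin heq hhom hcb hdet hinj hgr (p0.trans hlam)
    (fun t ht => (hw t ht).2.trans L1) hθ hθ1 hLθ hlo
  rw [dvr_rad] at a2 a3 b2 b3
  have rc := rad_le (le_div_pow hρ'.le k1 (show CC ≤ G by omega) hρρ) n0
  have r0 := rad_le (le_div_pow hρ'.le k1 (show C0 ≤ G by omega) hρρ) n0
  have rn := fun i => (rad_pos hρ' n0 i).le
  exact ⟨J0, J1, b1, a1, b2.monoR rn r0, a2.monoR rn rc,
    It.solvP_le (solvP_rad a3 rc) hw0 (pc.trans (hKL.trans hLK)),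
    It.solv0_le (solv0_rad b3 r0) hw0 ((pow_le_pow_right₀ L1 (by omega)).trans hLG)⟩

/-! ### one wave -/

theorem wave (hE : LevESt) (hI : InsWSt) (hD : DefSt) : ∃ G : ℕ, ∀ G' ≥ G, ∀ (T : ℝ)
    (N : Fin 4 → ℝ) (kv : Fin 3 → E) (δ : ℝ) (j : Fin 3) (K Ka θ ε ρa ρb c wmin : ℝ)
    (w v : Fin 4 → ℝ → ℝ) (X : Vec T) (p : E), (cf T N kv δ δ).Ok → CfOk N kv δ δ → j ≠ 0 →
    T ≤ 1 → 2 ≤ Ka → Reg (cf T N kv δ δ) K θ ε (rad ρb (N 0)) → 1 / 2 ≤ θ ^ 6 → Wt T K w v →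
    0 < ρb → ρb * Ka ^ G' ≤ ρa → ρa ≤ 1 → InV j.castSucc X → Eqv X →
    CB (cf T N kv δ δ) (rad ρa (N 0)) w1 Ka X →
    St (cf T N kv δ δ) (rad ρa (N 0)) w (fun _ => c) X → 0 ≤ c → K ^ G' * c ≤ 1 / 4 →
    0 < wmin → (∀ t ∈ Set.Ioo 0 T, wmin ≤ w j.succ t ∧ w j.succ t ≤ Ka) →
    Ka ^ G' * wd j δ ≤ ρa / N 0 →
    Prp T (fun t => Mop ((cenM (Dm (cf T N kv δ δ) X)).f t) ((cenM (Dm (cf T N kv δ δ) X)).f1 t)
      (kv j)) (w j.succ) Ka →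
    (∀ t ∈ Set.Ioo 0 T, ‖p‖ ≤ Ka * w j.succ t) → Ka ^ G' ≤ K → Ka ^ G' * ρb ≤ wd j δ ^ 2 →
    DetGe (cf T N kv δ δ) (3 / 4) X ∧ ∃ (Ji : A T) (W η : Vec T),
      Ji * (Dm (cf T N kv δ δ) X).det = 1 ∧ GB 0 (rad ρb (N 0)) w1 2 Ji ∧
      SolvP (cf T N kv δ δ) j (Dm (cf T N kv δ δ) X) (w j.succ) K (rad ρb (N 0)) ∧ Eqv W ∧
      SB (cf T N kv δ δ) (rad (ρb / 2) (N 0)) (w j.succ) j.succ (Ka ^ G') W ∧
      CB (cf T N kv δ δ) (rad (ρb / 2) (N 0)) (w j.succ) (Ka ^ G' + ε * K ^ G') W ∧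
      St (cf T N kv δ δ) (rad (ρb / 2) (N 0)) w (fun _ => c + ε * K ^ G') (X + W) ∧
      Wave T (ε * K ^ G') (w j.succ) (cenM (Dm (cf T N kv δ δ) X)) (kv j) p (cenV η) ∧
      (cenM (Dm (cf T N kv δ δ) (X + W))).Near T 0
        (mulH (cenM (Dm (cf T N kv δ δ) X)) (cenV η) (kv j)) := by
  obtain ⟨CE, hE⟩ := hE
  obtain ⟨CI, hI⟩ := hI
  obtain ⟨CD, hD⟩ := hD
  refine ⟨(CE + 1) * (CI + 1) + CD, fun G hG => ?_⟩
  intro T N kv δ j K Ka θ ε ρa ρb c wmin w v X p hf hc hj hT hKa hR hθ hW hρb hρρ hρ1 hin heq hcb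
    hst hc0 hKc hwm hw hδ hP hp hKK hρδ
  have k1 : 1 ≤ Ka := by linarith
  have K1 : 1 ≤ K := by linarith [hR.K_two]
  have n0 : 0 < N 0 := lt_of_lt_of_le one_pos hc.1
  have kG : 1 ≤ Ka ^ G := one_le_pow₀ k1
  have hab : ρb ≤ ρa := le_trans (le_mul_of_one_le_right hρb.le kG) hρρ
  have ρ0 : 0 < ρa := hρb.trans_le hab
  have rn := fun i => (rad_pos hρb n0 i).le
  have rab := rad_le hab n0
  have hw0 := hW.w_nonneg
  have e1 : CE + 1 ≤ G := by nlinarith [Nat.zero_le (CE * CI), Nat.zero_le CI, Nat.zero_le CD]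
  have e2 : CI ≤ G := by nlinarith [Nat.zero_le (CE * CI), Nat.zero_le CE, Nat.zero_le CD]
  have e3 : (CE + 1) * CI ≤ G := by nlinarith [Nat.zero_le CE, Nat.zero_le CD]
  have e4 : CD ≤ G := by nlinarith [Nat.zero_le ((CE + 1) * (CI + 1))]
  have wd0 : 0 ≤ wd j δ := by
    have := hc.2.2.2.1
    unfold wd
    split_ifs <;> positivity
  have hstb := hst.rad rn rab
  have hdet : DetGe (cf T N kv δ δ) (3 / 4) X :=
    detGe_mono (hD T _ K θ ε c _ w v X hf hR hW hc0 hstb).2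
      (by linarith [pow_mul_le hc0 K1 e4 hKc])
  refine ⟨hdet, ?_⟩
  obtain ⟨Ji, a1, a2, a3⟩ := hE T N kv δ j X (w j.succ) Ka wmin ρa hc hj hKa hT ρ0 hρ1 hin heq hcb
    (detGe_mono hdet (by norm_num)) hwm hw (pow_mul_le wd0 k1 (by omega) hδ) hP
  have rb := rad_le (le_div_pow hρb.le k1 (show CE ≤ G by omega) hρρ) n0
  have l1 : Ka ≤ Ka ^ (CE + 1) := le_self_pow₀ k1 (by omega)
  have l2 : Ka ^ CE ≤ Ka ^ (CE + 1) := pow_le_pow_right₀ k1 (by omega)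
  have l3 : (Ka ^ (CE + 1)) ^ CI ≤ Ka ^ G := by
    rw [← pow_mul]
    exact pow_le_pow_right₀ k1 e3
  have l4 : ε * K ^ CI ≤ ε * K ^ G :=
    mul_le_mul_of_nonneg_left (pow_le_pow_right₀ K1 e2) hR.e_pos.le
  have a4 := It.solvP_le (solvP_rad a3 rb) (hw0 _) l2
  obtain ⟨W, η, b1, -, b3, b4, b5, b6, b7⟩ := hI T N kv δ j K (Ka ^ (CE + 1)) θ ε ρb c w v X p hc hj
    hR hW (hKa.trans l1) (l3.trans hKK) hθ hin heq (cb_mono hcb rn rab (w1_le l1)) hstb hc0 a4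
    (fun t ht => (hp t ht).trans (mul_le_mul_of_nonneg_right l1 (hw0 _ t ht)))
    ((mul_le_mul_of_nonneg_right l3 hρb.le).trans hρδ)
  have rh := fun i => (rad_pos (half_pos hρb) n0 i).le
  refine ⟨Ji, W, η, a1, a2.monoR rn rb,
    It.solvP_le a4 (hw0 _) ((pow_le_pow_right₀ k1 e1).trans hKK), b1, b3.le hf (hw0 _) l3,
    cb_mono b4 rh (fun _ => le_rfl) fun t ht =>
      mul_le_mul_of_nonneg_right (add_le_add l3 l4) (hw0 _ t ht),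
    b5.le hf hw0 fun _ => by linarith, ?_, b7⟩
  exact wave_same (fun _ _ => ⟨rfl, rfl, rfl⟩) b6 l4 (hw0 _)

end Pool.Agent.Lib.MP_fbbbeb_an.Cas.Cy
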