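import Mathlib

/-! The numerical parameters of one cycle. -/

set_option autoImplicit false

namespace Pool.Agent.Lib.MP_fbbbeb_an.Cas

/-- parameters of one cycle -/
structure Par where
  Ka : ℝ
  Mlo : ℝ
  Kc : ℝ
  L : ℝ
  K : ℝ
  θ : ℝ
  ε1 : ℝ
  ε2 : ℝ
  δ : ℝ
  ρ1 : ℝ
  ρ3 : ℝ
  ρ5 : ℝ
  c0 : ℝ
  M : ℕ

/-- all inequalities between the parameters; `l = x ^ B`, `y = l ^ B` -/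
structure Num (G C : ℕ) (Cr : ℝ) (P B Q : ℕ) (x l y : ℝ) (p : Par) : Prop where
  x_ge : 1000 ≤ x
  x_Cr : Cr ≤ x
  x_l : 2 * x ≤ l
  l_y : l ≤ y
  C_l : (C : ℝ) ≤ l
  lC_y : l ^ C ≤ y
  x_K0 : x ≤ x ^ (P * P)
  lP_one : 1 ≤ l ^ P
  def_small : (y ^ 2 * l ^ P) ^ G * Real.exp (-l) ≤ (y ^ C)⁻¹
  δ_pos : 0 < p.δ
  δ_le : p.δ ≤ 1 / 20
  ρ1_le : p.ρ1 * (Cr * l ^ P) ≤ 1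
  ρ3_pos : 0 < p.ρ3
  ρ5_pos : 0 < p.ρ5
  c0_nonneg : 0 ≤ p.c0
  c0_ge : 3 * y ^ 2 * Real.exp (-l) ≤ p.c0 * Real.exp (-(l / 4))
  K0_lam : (x ^ (P * P)) ^ G ≤ l / 4
  K0_L : (x ^ (P * P)) ^ G ≤ p.L
  K0_ρ : p.ρ5 * (x ^ (P * P)) ^ G ≤ p.ρ1
  L_K : p.L ^ G ≤ p.K
  L_le : p.L ≤ p.K
  L_θ : 1 ≤ p.L * (1 - p.θ)
  L_ρ : 4 * y ^ 2 ≤ p.L * p.ρ5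
  θ_half : 1 / 2 ≤ p.θ
  θ_one : p.θ < 1
  θ_six : 1 / 2 ≤ p.θ ^ 6
  θ_M : 1 / 2 ≤ p.θ ^ (40 * p.M)
  Ka_ge : x ^ (P * P) + l ^ P ≤ p.Ka
  Ka_C : l ^ C ≤ p.Ka
  Ka_δ : p.Ka ^ G * p.δ ≤ p.ρ1 / y ^ 2
  Ka_K : p.Ka ^ G ≤ p.K
  Ka_ρ : p.Ka ^ G * p.ρ3 ≤ p.δ ^ 2
  Ka_ρ' : p.ρ3 * p.Ka ^ G ≤ p.ρ1
  e1_C : p.ε1 * p.K ^ G ≤ (y ^ C)⁻¹
  e1_one : p.ε1 * p.K ^ G ≤ 1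
  Mlo_ge : p.Ka + (p.Ka ^ G + 1) * l ^ C ≤ p.Mlo
  Mlo_Kc : p.Mlo ≤ p.Kc
  Kc_C : y ^ C ≤ p.Kc
  Kc_δ : p.Kc ^ G * p.δ ^ 3 ≤ p.ρ3 / 2 / y ^ 2
  Kc_K : p.Kc ^ G ≤ p.K
  Kc_le : p.Kc ≤ p.K
  Kc_ρ : p.Kc ^ G * p.ρ5 ≤ (p.δ ^ 3) ^ 2
  Kc_ρ' : p.ρ5 * p.Kc ^ G ≤ p.ρ3 / 2
  ρ3_le : p.ρ3 ≤ p.ρ1
  ρ5_le : p.ρ5 ≤ p.ρ3 / 2
  K_ρ : 2 ≤ p.K * p.ρ5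
  K_A : 2 * l ^ C ≤ p.K
  ε1_pos : 0 < p.ε1
  ε1_le : p.ε1 ≤ p.ε2
  ε2_one : p.ε2 ≤ 1 / 4
  ε2_K : p.ε2 * p.K ^ G ≤ 1
  c_ε2 : p.K ^ G * (p.c0 + p.ε1 * p.K ^ G + p.ε1 * p.K ^ G) ≤ p.ε2
  N01 : y ^ 2 ≤ p.ε1 * y ^ B
  N12 : y ^ B ≤ p.ε1 * (y ^ B) ^ 2
  N23 : (y ^ B) ^ 2 ≤ p.ε1 * (y ^ B) ^ B
  res : 1 / 2 ^ p.M ≤ Real.exp (-y)
  lo_fin : p.Mlo + 3 * p.ε2 ≤ l ^ (P * P)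
  hi_fin : (p.Kc ^ G + 1) * l ^ C + p.ε2 ≤ y ^ P
  det_fin : 1000 * p.Mlo ^ 2 * p.ε2 ≤ 1
  near_fin : 12 * p.ε2 ≤ (y ^ C)⁻¹
  ρ_fin : 16 ≤ p.ρ5 * y ^ P
  small_fin : 3 * ((p.Ka ^ G + 1) * (l ^ C * Real.exp (-(l / 3)))) +
    3 * ((p.Kc ^ G + 1) * (l ^ C * Real.exp (-(l / 3)))) + 12 * p.ε2 ≤ 1 / l
  Q_size : p.K * (p.Ka ^ G + p.Kc ^ G + 4) ≤ l ^ Q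
  Q_rad : 16 * (Cr * (y ^ B) ^ B) ≤ p.ρ5 * l ^ Q

/-- the parameters can be chosen -/
def NumSt : Prop := ∀ (G C : ℕ) (Cr : ℝ), 1 ≤ G → 2 ≤ Cr →
    ∃ P0 : ℕ, ∀ P ≥ P0, ∃ B0 : ℕ, ∀ B ≥ B0, ∃ (Q : ℕ) (x0 : ℝ), ∀ x ≥ x0,
      ∃ p : Par, Num G C Cr P B Q x (x ^ B) ((x ^ B) ^ B) p

end Pool.Agent.Lib.MP_fbbbeb_an.Cas
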