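import Mathlib
import Pool.Agent.Lib.MP_fbbbeb_an.Cas.CycA
import Pool.Agent.Lib.MP_fbbbeb_an.Cas.CycP

/-! Numerical and pointwise preparations for one cycle. -/

set_option autoImplicit false

noncomputable section

namespace Pool.Agent.Lib.MP_fbbbeb_an.Cas

open Pool.Agent.Lib.MP_fbbbeb_an.Pub
open scoped ContDiff Topology RealInnerProductSpace Matrix Nat ENNReal

namespace Cy

variable {T : ℝ}

theorem wt_one {K : ℝ} (hK : 1 ≤ K) : Wt T K (fun _ => w1) (fun _ => w1) :=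
  ⟨fun _ _ _ => zero_le_one, fun _ _ _ => le_rfl, fun _ _ _ => hK,
    fun _ _ _ _ => by simpa [w1] using hK, fun _ _ _ => by simpa [w1] using hK⟩

/-- the defect of the old end state -/
theorem old_defect {CD G C P B Q : ℕ} {Cg Cr x l y t00 : ℝ} {p : Par}
    {Pre : ℝ → ℝ → ℝ → Cv L3 → Prop} {d : EndD}
    (hD : ∀ (T : ℝ) (fr : Frame T) (K θ ε c : ℝ) (r : Let → ℝ)
      (w v : Fin 4 → ℝ → ℝ) (X : Vec T), fr.Ok → Reg fr K θ ε r → Wt T K w v → 0 ≤ c →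
      St fr r w (fun _ => c) X →
      Defect T (K ^ CD * c) (cenM (Dm fr X)) ∧ DetGe fr (1 - K ^ CD * c) X)
    (hR : ∀ (K θ ε ρ n : ℝ), Cg ≤ K → 1 / 2 ≤ θ → θ < 1 → 1 ≤ K * (1 - θ) →
      0 < ρ → ρ ≤ 1 → 1 ≤ n → Cg * ρ ≤ n → n ≤ K * d.N 0 * ρ → 1 ≤ K * ρ → 0 < ε → ε ≤ 1 →
      (∀ j : Fin 3, d.N j.castSucc ≤ ε * d.N j.succ) → d.fr.Ok ∧ Reg d.fr K θ ε (rad ρ n))
    (hG : CD ≤ G) (hCg : 2 ≤ Cg) (hCr : Cg ≤ Cr) (hl : x ^ B = l) (hy : l ^ B = y)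
    (n : Num G C Cr P B Q x l y p) (hd : EndP Pre P B t00 x d) :
    Defect d.T (y ^ C)⁻¹ (cenM (Dm d.fr (d.Xlo + d.Xhi))) := by
  have h2 := hd.N_two
  have hρ := hd.rho_lo
  have hst := hd.st
  rw [hl] at h2 hρ hst
  rw [hy] at h2
  have x0 := n.x_ge
  have xl := n.x_l
  have ly := n.l_y
  have lP := n.lP_one
  have xc := n.x_Cr
  have ρ0 : 0 < d.ρ := by
    by_contra h
    nlinarith [not_lt.1 h]
  have y2 : y ≤ y ^ 2 := le_self_pow₀ (by linarith) (by norm_num)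
  have K1 : y ^ 2 ≤ y ^ 2 * l ^ P := le_mul_of_one_le_right (by positivity) lP
  have K2 : y ^ 2 ≤ y ^ 2 * l ^ P * d.ρ := by
    rw [mul_assoc]
    exact le_mul_of_one_le_right (by positivity) (by linarith)
  have N0 := hd.cf_ok.1
  obtain ⟨hf, hReg⟩ := hR (y ^ 2 * l ^ P) (1 / 2) 1 d.ρ (d.N 2) (by linarith) le_rfl (by norm_num)
    (by linarith) ρ0 hd.rho_hi (by linarith)
    (by nlinarith [hd.rho_hi])
    (by
      rw [h2, mul_right_comm]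
      exact K2.trans (le_mul_of_one_le_right (by positivity) N0))
    (by linarith) one_pos le_rfl
    (fun j => by simpa using hd.cf_ok.2.1 (Fin.castSucc_lt_succ (i := j)).le)
  have := (hD d.T d.fr _ _ _ _ d.r _ _ _ hf hReg (wt_one (by linarith)) (Real.exp_pos _).le hst).1
  exact fun t ht => (this t ht).trans
    (pow_mul_le (Real.exp_pos _).le (by linarith) hG n.def_small)

/-- the weight of the upper levels against the weight of the lower levels -/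
theorem weight_le {l K T' s a t : ℝ} {A : ℝ} (hl : 0 < l) (hT : T' ≤ 1) (ht : 0 < t) (ht' : t < T')
    (hs : T' - s ≤ 1 / l) (ha : 0 ≤ a) (hK : 2 * a ≤ K) (h1 : A ≤ a)
    (h2 : t ≤ s → A ≤ a * Real.exp (-(l / 3))) : A ≤ K * Real.exp (-(l / 4 * (T' - t))) := by
  have e0 := Real.exp_pos (-(l / 4 * (T' - t)))
  rcases le_or_gt t s with h | h
  · have : Real.exp (-(l / 3)) ≤ Real.exp (-(l / 4 * (T' - t))) :=
      Real.exp_le_exp.2 (by nlinarith)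
    calc A ≤ a * Real.exp (-(l / 3)) := h2 h
      _ ≤ a * Real.exp (-(l / 4 * (T' - t))) := mul_le_mul_of_nonneg_left this ha
      _ ≤ K * Real.exp (-(l / 4 * (T' - t))) := mul_le_mul_of_nonneg_right (by linarith) e0.le
  · have h3 : l * (T' - t) ≤ 1 := by
      have : T' - t ≤ 1 / l := by linarith
      rwa [le_div_iff₀ hl, mul_comm] at this
    have h4 : 1 / 2 ≤ Real.exp (-(l / 4 * (T' - t))) := by
      have := Real.add_one_le_exp (-(l / 4 * (T' - t)))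
      linarith
    nlinarith

theorem gbv_sb {fr : Frame T} (hf : fr.Ok) {r r' : Let → ℝ} {w w' : ℝ → ℝ} {j : Fin 4} {c c' : ℝ}
    {V : Vec T} (h : SB fr r w j c V) (hr : ∀ i, 0 ≤ r' i) (hr' : ∀ i, r' i ≤ r i)
    (hc : ∀ t ∈ Set.Ioo 0 T, c * w t ≤ c' * w' t) : GBv 1 r' w' c' V :=
  h.2.mono hr hr' fun t ht => by
    have h0 := h.nonneg hf ht
    rw [div_mul_eq_mul_div]
    exact (div_le_self h0 (hf.N_one j)).trans (hc t ht)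

/-! ### consequences of the numerical inequalities -/

structure Num2 (G C : ℕ) (Cg : ℝ) (P : ℕ) (x l y : ℝ) (p : Par) : Prop where
  l0 : 0 < l
  l4 : 0 ≤ l / 4
  y1 : 1 ≤ y
  lC : 0 ≤ l ^ C
  yC : 0 ≤ (y ^ C)⁻¹
  lP : 0 < l ^ P
  ρ1_pos : 0 < p.ρ1
  ρ1_Cg : Cg * p.ρ1 ≤ 1
  ρ1_one : p.ρ1 ≤ 1
  K02 : 2 ≤ x ^ (P * P)
  CgK0 : Cg ≤ x ^ (P * P)
  CgK : Cg ≤ p.K
  Ka2 : 2 ≤ p.Ka
  Kc2 : 2 ≤ p.Kc
  K1 : 1 ≤ p.K
  K2 : 2 ≤ p.K
  L0 : 0 ≤ p.L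
  KaG : 0 ≤ p.Ka ^ G + 1
  KcG : 0 ≤ p.Kc ^ G + 1
  KaK : p.Ka ≤ p.K
  K0K : x ^ (P * P) ≤ p.K
  lPK : l ^ P ≤ p.K
  MloK : p.Mlo ≤ p.K
  Mlo1 : 1 ≤ p.Mlo
  lCKc : l ^ C ≤ p.Kc
  e1 : 0 ≤ p.ε1 * p.K ^ G
  Kθ : 1 ≤ p.K * (1 - p.θ)
  ε2_pos : 0 < p.ε2
  ε1_one : p.ε1 ≤ 1
  ε2_one : p.ε2 ≤ 1
  cA : p.K ^ G * p.c0 ≤ 1 / 4
  cB0 : 0 ≤ p.c0 + p.ε1 * p.K ^ G
  cB : p.K ^ G * (p.c0 + p.ε1 * p.K ^ G) ≤ 1 / 4
  cC0 : 0 ≤ p.c0 + p.ε1 * p.K ^ G + p.ε1 * p.K ^ G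
  cK : p.K * (p.c0 + p.ε1 * p.K ^ G + p.ε1 * p.K ^ G) ≤ 1
  ρ31 : p.ρ3 / 2 ≤ p.ρ1
  ρ3_one : p.ρ3 / 2 ≤ 1
  ρ51 : p.ρ5 ≤ p.ρ1
  ρ61 : p.ρ5 / 2 ≤ p.ρ1
  ρ63 : p.ρ5 / 2 ≤ p.ρ3
  ρ63' : p.ρ5 / 2 ≤ p.ρ3 / 2
  ρ65 : p.ρ5 / 2 ≤ p.ρ5
  ρ7_pos : 0 < p.ρ5 / 2 / 8
  ρ76 : p.ρ5 / 2 / 8 ≤ p.ρ5 / 2
  ρ7_one : p.ρ5 / 2 / 8 ≤ 1
  ρ7P : 1 ≤ p.ρ5 / 2 / 8 * y ^ P
  Kρ : 1 ≤ p.K * (p.ρ5 / 2)
  K0ρ : p.ρ5 / 2 * (x ^ (P * P)) ^ G ≤ p.ρ1
  Lρ : 1 ≤ p.L * (p.ρ5 / 2 / 2 / y ^ 2)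
  xl : 1 / l + 1 / l ≤ 1 / x
  x0 : 0 < 1 / x

theorem num2 {G C P B Q : ℕ} {Cg Cr x l y : ℝ} {p : Par} (n : Num G C Cr P B Q x l y p)
    (hG : 1 ≤ G) (hCg : 2 ≤ Cg) (hCr : Cg ≤ Cr) : Num2 G C Cg P x l y p := by
  have x1 := n.x_ge
  have l1 : 1 ≤ l := by linarith only [n.x_ge, n.x_l]
  have y1 : 1 ≤ y := l1.trans n.l_y
  have lC : 1 ≤ l ^ C := one_le_pow₀ l1
  have ρ1_pos : 0 < p.ρ1 := n.ρ3_pos.trans_le n.ρ3_le
  have a1 : p.ρ1 * Cr ≤ 1 :=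
    (mul_le_mul_of_nonneg_left (le_mul_of_one_le_right (by linarith only [hCg, hCr]) n.lP_one)
      ρ1_pos.le).trans n.ρ1_le
  have a2 : Cg * p.ρ1 ≤ 1 := by
    rw [mul_comm]
    exact (mul_le_mul_of_nonneg_left hCr ρ1_pos.le).trans a1
  have a3 : p.ρ1 ≤ 1 := (le_mul_of_one_le_left ρ1_pos.le (by linarith only [hCg])).trans a2
  have K02 : 2 ≤ x ^ (P * P) := by linarith only [x1, n.x_K0]
  have Ka2 : 2 ≤ p.Ka := by linarith only [K02, n.Ka_ge, n.lP_one]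
  have Ka1 : 1 ≤ p.Ka := by linarith only [Ka2]
  have KaG : 1 ≤ p.Ka ^ G := one_le_pow₀ Ka1
  have KaK : p.Ka ≤ p.K := (le_self_pow₀ Ka1 (by omega)).trans n.Ka_K
  have K1 : 1 ≤ p.K := Ka1.trans KaK
  have KG : p.K ≤ p.K ^ G := le_self_pow₀ K1 (by omega)
  have KG0 : 0 ≤ p.K ^ G := by linarith only [K1, KG]
  have KaM : p.Ka ≤ p.Mlo :=
    (le_add_of_nonneg_right (mul_nonneg (by linarith only [KaG]) (by linarith only [lC]))).trans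
      n.Mlo_ge
  have Kc2 : 2 ≤ p.Kc := Ka2.trans (KaM.trans n.Mlo_Kc)
  have KcG : 1 ≤ p.Kc ^ G := one_le_pow₀ (by linarith only [Kc2])
  have e1 : 0 ≤ p.ε1 * p.K ^ G := mul_nonneg n.ε1_pos.le KG0
  have c0 := n.c0_nonneg
  have cc := n.c_ε2
  have q4 := n.ε2_one
  have r3 := n.ρ3_pos
  have r5 := n.ρ5_pos
  have r31 := n.ρ3_le
  have r53 := n.ρ5_le
  have L0 : 0 ≤ p.L := le_trans (pow_nonneg (by linarith only [K02]) _) n.K0_L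
  have cB : p.K ^ G * (p.c0 + p.ε1 * p.K ^ G) ≤ 1 / 4 :=
    (mul_le_mul_of_nonneg_left (le_add_of_nonneg_right e1) KG0).trans (cc.trans q4)
  have y2 : 0 < y ^ 2 := pow_pos (by linarith only [y1]) 2
  refine ⟨by linarith only [l1], by linarith only [l1], y1, by linarith only [lC],
    inv_nonneg.2 (pow_nonneg (by linarith only [y1]) _), by linarith only [n.lP_one], ρ1_pos, a2, a3,
    K02, by linarith only [hCr, n.x_Cr, n.x_K0],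
    by linarith only [hCr, n.x_Cr, n.x_K0, n.Ka_ge, n.lP_one, KaK], Ka2, Kc2, K1, Ka2.trans KaK, L0,
    by linarith only [KaG], by linarith only [KcG], KaK, by linarith only [n.Ka_ge, n.lP_one, KaK],
    by linarith only [n.Ka_ge, K02, KaK], n.Mlo_Kc.trans n.Kc_le, Ka1.trans KaM,
    n.Ka_C.trans (KaM.trans n.Mlo_Kc), e1,
    n.L_θ.trans (mul_le_mul_of_nonneg_right n.L_le (by linarith only [n.θ_one])),
    n.ε1_pos.trans_le n.ε1_le, by linarith only [n.ε1_le, q4], by linarith only [q4],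
    (mul_le_mul_of_nonneg_left (le_add_of_nonneg_right e1) KG0).trans cB, add_nonneg c0 e1, cB,
    add_nonneg (add_nonneg c0 e1) e1,
    (mul_le_mul_of_nonneg_right KG (add_nonneg (add_nonneg c0 e1) e1)).trans
      (cc.trans (by linarith only [q4])),
    by linarith only [r3, r31], by linarith only [r3, r31, a3], by linarith only [r3, r31, r53],
    by linarith only [r3, r5, r31, r53], by linarith only [r3, r5, r53], by linarith only [r5, r53],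
    by linarith only [r5], by linarith only [r5], by linarith only [r5],
    by linarith only [r3, r5, r31, r53, a3], by linarith only [n.ρ_fin], by linarith only [n.K_ρ],
    le_trans (mul_le_mul_of_nonneg_right (half_le_self r5.le)
      (pow_nonneg (by linarith only [K02]) _)) n.K0_ρ, ?_, ?_,
    one_div_pos.2 (by linarith only [x1])⟩
  · rw [← mul_div_assoc, le_div_iff₀ y2]
    linarith only [n.L_ρ]
  · rw [← add_div, div_le_div_iff₀ (by linarith only [l1]) (by linarith only [x1])]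
    linarith only [n.x_l]

end Cy

end Pool.Agent.Lib.MP_fbbbeb_an.Cas
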