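import Mathlib
import Pool.Agent.Lib.MP_fbbbeb_an.Cas.CycB

/-! One cycle of the cascade. -/

set_option autoImplicit false

noncomputable section

namespace Pool.Agent.Lib.MP_fbbbeb_an.Cas

open Pool.Agent.Lib.MP_fbbbeb_an.Pub
open scoped ContDiff Topology RealInnerProductSpace Matrix Nat ENNReal

namespace Cy

theorem frame_ok {N : Fin 4 → ℝ} {kv : Fin 3 → E} {y ε δ : ℝ} {B : ℕ} (y1 : 1 ≤ y)
    (e0 : N 0 = y ^ 2) (e1 : N 1 = y ^ B) (e2 : N 2 = (y ^ B) ^ 2) (e3 : N 3 = (y ^ B) ^ B)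
    (a1 : y ^ 2 ≤ ε * y ^ B) (a2 : y ^ B ≤ ε * (y ^ B) ^ 2) (a3 : (y ^ B) ^ 2 ≤ ε * (y ^ B) ^ B)
    (hε : ε ≤ 1) (k0 : ‖kv 0‖ = 1 ∧ ⟪kv 0, a0⟫ = 0) (k1 : ‖kv 1‖ = 1 ∧ ⟪kv 1, a0⟫ = 0)
    (k2 : ‖kv 2‖ = 1 ∧ ⟪kv 2, a0⟫ = 0) (h0 : 0 < δ) (h1 : δ ≤ 1 / 20) :
    CfOk N kv δ δ ∧ ∀ ε', ε ≤ ε' → ∀ j : Fin 3, N j.castSucc ≤ ε' * N j.succ := by
  have Npos : ∀ j : Fin 3, 0 ≤ N j.succ := fun j => by
    fin_cases j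
    · exact (show 0 ≤ N 1 by rw [e1]; positivity)
    · exact (show 0 ≤ N 2 by rw [e2]; positivity)
    · exact (show 0 ≤ N 3 by rw [e3]; positivity)
  have eN : ∀ j : Fin 3, N j.castSucc ≤ ε * N j.succ := fun j => by
    fin_cases j
    · exact (show N 0 ≤ ε * N 1 by rwa [e0, e1])
    · exact (show N 1 ≤ ε * N 2 by rwa [e1, e2])
    · exact (show N 2 ≤ ε * N 3 by rwa [e2, e3])
  refine ⟨⟨e0 ▸ one_le_pow₀ y1, Fin.monotone_iff_le_succ.2 fun j => (eN j).trans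
    (mul_le_of_le_one_left (Npos j) hε), fun j => ?_, h0, h1, h0, h1⟩,
    fun ε' h j => (eN j).trans (mul_le_mul_of_nonneg_right h (Npos j))⟩
  fin_cases j
  · exact k0
  · exact k1
  · exact k2

theorem bw_bounds {l T' t : ℝ} (hl : 0 ≤ l / 4) (hT : T' ≤ 1) (ht : t ∈ Set.Ioo 0 T') :
    Real.exp (-(l / 4)) ≤ Real.exp (-(l / 4 * (T' - t))) ∧ Real.exp (-(l / 4 * (T' - t))) ≤ 1 :=
  ⟨Real.exp_le_exp.2 (by nlinarith [ht.1]), Real.exp_le_one_iff.2 (by nlinarith [ht.2])⟩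

theorem lo_rad {L ρ n : ℝ} (L0 : 0 ≤ L) (hρ : 0 < ρ) (hn : 1 ≤ n) (h : 1 ≤ L * (ρ / 2 / n))
    (i : Let) : 1 ≤ L * dvr (rad ρ n) 2 i := by
  rw [dvr_rad]
  refine h.trans (mul_le_mul_of_nonneg_left ?_ L0)
  rcases i with _ | i | i
  · exact div_le_self (by positivity) hn
  · exact le_rfl
  · exact div_le_self (by positivity) hn

theorem rho_facts {ρ ρ1 Cr Cu a : ℝ} (ha : 0 < a) (h1 : 1 ≤ ρ * a) (h2 : ρ1 * (Cr * a) ≤ 1)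
    (hρ1 : 0 < ρ1) (hCu : 2 ≤ Cu) (hC : Cu ≤ Cr) : 0 < ρ ∧ ρ1 ≤ ρ / Cu := by
  have ρ0 : 0 < ρ := by
    by_contra h
    nlinarith [not_lt.1 h]
  refine ⟨ρ0, ?_⟩
  have h3 : ρ1 * Cr * a ≤ ρ * a := by linarith
  have h4 := le_of_mul_le_mul_right h3 ha
  rw [le_div_iff₀ (by linarith)]
  nlinarith

theorem norm_cb {T : ℝ} {fr : Frame T} {r : Let → ℝ} {A : ℝ → ℝ} {M M' a : ℝ} {W : Vec T}
    (h : CB fr r A M W) {z : Pt} (hz : z ∈ Sp T) (hM : M ≤ M') (hM' : 0 ≤ M') (h0 : 0 ≤ A z.1)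
    (ha : A z.1 ≤ a) : ‖evm (Dm fr W) z‖ ≤ 3 * (M' * a) :=
  (evm_le h.1 hz).trans (mul_le_mul_of_nonneg_left (mul_le_mul hM ha h0 hM') (by norm_num))

theorem norm_rest {T : ℝ} {fr : Frame T} {r : Let → ℝ} {e : ℝ} {R : Fin 4 → Vec T}
    (h : ∀ l, CB fr r w1 e (R l)) {z : Pt} (hz : z ∈ Sp T) :
    ‖evm (Dm fr (∑ l, R l)) z‖ ≤ 12 * e := by
  have q := fun l => evm_le (h l).1 hz
  simp only [w1, mul_one] at q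
  rw [Fin.sum_univ_four, Dm_add, Dm_add, Dm_add, evm_add, evm_add, evm_add]
  have a := norm_add₃_le (a := evm (Dm fr (R 0)) z + evm (Dm fr (R 1)) z) (b := evm (Dm fr (R 2)) z)
    (c := evm (Dm fr (R 3)) z)
  have b := norm_add_le (evm (Dm fr (R 0)) z) (evm (Dm fr (R 1)) z)
  linarith [q 0, q 1, q 2, q 3]

end Cy

open Cy in
theorem cycSt (hG : GeoSt) (hU : UnlSt) (hE : LevESt) (hC : LevCSt) (h0 : Lev0St) (hI : InsWSt)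
    (hF : FinSt) (hEnd : EndSt) (hN : NxSt) (hD : DefSt) (hR : RegSt) (hW : WtSt) (hB : BgSt)
    (hNum : NumSt) : CycSt := by
  intro Pre C hO
  obtain ⟨G1, hbase⟩ := base hC h0
  obtain ⟨G2, hwave⟩ := wave hE hI hD
  obtain ⟨CF, hF⟩ := hF
  obtain ⟨CD, hD⟩ := hD
  obtain ⟨Cu, hCu, hU⟩ := unl_end hG hU
  obtain ⟨Cn, hCn, hN⟩ := hN
  obtain ⟨Cg, hCg, hR⟩ := hR
  obtain ⟨G, g1, g2, g3, g4, g5⟩ : ∃ G : ℕ, G1 ≤ G ∧ G2 ≤ G ∧ CF ≤ G ∧ CD ≤ G ∧ 1 ≤ G :=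
    ⟨G1 + G2 + CF + CD + 1, by omega, by omega, by omega, by omega, by omega⟩
  obtain ⟨Cr, c1, c2, c3⟩ : ∃ Cr : ℝ, Cu ≤ Cr ∧ Cn ≤ Cr ∧ Cg ≤ Cr :=
    ⟨Cu + Cn + Cg, by linarith only [hCn, hCg], by linarith only [hCu, hCg],
      by linarith only [hCu, hCn]⟩
  obtain ⟨P0, hP0⟩ := hNum G C Cr g5 (hCg.trans c3)
  refine ⟨P0, fun P hP => ?_⟩
  obtain ⟨B0, hB0⟩ := hP0 P hP
  refine ⟨B0, fun B hB' => ?_⟩
  obtain ⟨Q, x0, hx0⟩ := hB0 B hB'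
  refine ⟨Q, x0, fun x hx t00 d hd => ?_⟩
  obtain ⟨p, n⟩ := hx0 x hx
  obtain ⟨l, hl⟩ : ∃ l, x ^ B = l := ⟨_, rfl⟩
  obtain ⟨y, hy⟩ : ∃ y, l ^ B = y := ⟨_, rfl⟩
  rw [hl] at n ⊢
  rw [hy] at n
  have m := num2 n g5 hCg c3
  have hdef := old_defect hD (fun K θ ε ρ u a1 a2 a3 a4 a5 a6 a7 a8 a9 a10 a11 a12 a13 =>
    have := hR d.T d.N d.kv d.δ d.δa K θ ε ρ u hd.cf_ok a1 a2 a3 a4 a5 a6 a7 a8 a9 a10 a11 a12 a13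
    ⟨this.1, this.2.1⟩) g4 hCg c3 hl hy n hd
  have hpre := hd.pre
  have h2 := hd.N_two
  have h3 := hd.N_three
  have hρ := hd.rho_lo
  rw [hl] at hpre h2 h3 hρ
  rw [hy] at h2 h3
  obtain ⟨T', s, amin, Aw, k2, p2, k3, p3, o1, o2, o3, o4, o5, o6, o7, o8, o9, o10, o11, o12, o13⟩ :=
    hO l y d.T d.s _ n.C_l n.lC_y hd.T_le (cenM_ok _) hpre hdef
  have T1 : T' ≤ 1 := o3.trans hd.T_le
  obtain ⟨ρ0, ρu⟩ := rho_facts m.lP hρ n.ρ1_le m.ρ1_pos hCu c1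
  have A0 : ∀ t ∈ Set.Ioo 0 T', 0 ≤ Aw t := fun t ht => o9.le.trans (o10 t ht).1
  -- the new frame
  obtain ⟨N, e0, e1, e2, e3⟩ : ∃ N : Fin 4 → ℝ, N 0 = y ^ 2 ∧ N 1 = y ^ B ∧ N 2 = (y ^ B) ^ 2 ∧
    N 3 = (y ^ B) ^ B := ⟨![y ^ 2, y ^ B, (y ^ B) ^ 2, (y ^ B) ^ B], rfl, rfl, rfl, rfl⟩
  obtain ⟨kv, f0, f1, f2⟩ : ∃ kv : Fin 3 → E, kv 0 = d.kv 2 ∧ kv 1 = k2 ∧ kv 2 = k3 :=
    ⟨![d.kv 2, k2, k3], rfl, rfl, rfl⟩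
  obtain ⟨hc, eN⟩ := frame_ok (kv := kv) m.y1 e0 e1 e2 e3 n.N01 n.N12 n.N23 m.ε1_one
    (f0 ▸ hd.cf_ok.2.2.1 2) (f1 ▸ ⟨o5, o6⟩) (f2 ▸ ⟨o7, o8⟩) n.δ_pos n.δ_le
  have N0 : 1 ≤ N 0 := hc.1
  have n0 : 0 < N 0 := lt_of_lt_of_le one_pos N0
  have ρ6 := half_pos n.ρ5_pos
  have reg := fun (ρ ε : ℝ) (a1 : p.ρ5 / 2 ≤ ρ) (a2 : ρ ≤ p.ρ1) (a3 : p.ε1 ≤ ε) (a4 : ε ≤ 1) =>
    have b1 : 1 ≤ p.K * ρ := m.Kρ.trans (mul_le_mul_of_nonneg_left a1 (zero_le_one.trans m.K1))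
    hR T' N kv p.δ p.δ p.K p.θ ε ρ (N 0) hc m.CgK n.θ_half n.θ_one m.Kθ (ρ6.trans_le a1)
      (a2.trans m.ρ1_one) N0
      ((mul_le_mul_of_nonneg_left a2 (zero_le_two.trans hCg)).trans (m.ρ1_Cg.trans N0))
      (by rw [mul_right_comm]; exact le_mul_of_one_le_left n0.le b1) b1 (n.ε1_pos.trans_le a3) a4
      (eN ε a3)
  obtain ⟨hf, -, hk⟩ := reg p.ρ1 p.ε1 m.ρ61 le_rfl le_rfl m.ε1_one
  have R3 := (reg p.ρ3 p.ε1 m.ρ63 n.ρ3_le le_rfl m.ε1_one).2.1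
  have R5 := (reg p.ρ5 p.ε1 m.ρ65 m.ρ51 le_rfl m.ε1_one).2.1
  have R6 := (reg (p.ρ5 / 2) p.ε2 le_rfl m.ρ61 n.ε1_le m.ε2_one).2.1
  have rn : ∀ ρ : ℝ, 0 < ρ → ∀ i, 0 ≤ rad ρ (N 0) i := fun ρ h i => (rad_pos h n0 i).le
  have rl : ∀ {ρ ρ' : ℝ}, ρ ≤ ρ' → ∀ i, rad ρ (N 0) i ≤ rad ρ' (N 0) i := fun h => rad_le h n0
  -- weights
  have AB : ∀ t ∈ Set.Ioo 0 T', Aw t ≤ p.K * Real.exp (-(l / 4 * (T' - t))) := fun t ht =>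
    weight_le m.l0 T1 ht.1 ht.2 o4 m.lC n.K_A (o10 t ht).2.1 (o10 t ht).2.2.1
  obtain ⟨hWt, hgr⟩ := hW T' (l / 4) p.K Aw m.l4 m.K1 fun t ht => ⟨A0 t ht, AB t ht⟩
  have Blo : ∀ t ∈ Set.Ioo 0 T', Real.exp (-(l / 4)) ≤ Real.exp (-(l / 4 * (T' - t))) ∧
      Real.exp (-(l / 4 * (T' - t))) ≤ 1 := fun t ht => bw_bounds m.l4 T1 ht
  -- the old state in the new frame
  obtain ⟨X0, W1, b⟩ := hU Pre P B t00 x d T' N kv p.δ p.δ hd ρ0 o3 hc (e1.trans h3.symm) f0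
  rw [h2, ← e0] at b
  have ru := rl ρu
  have r1 := rn _ m.ρ1_pos
  have cb0 : CB (cf T' N kv p.δ p.δ) (rad p.ρ1 (N 0)) w1 (x ^ (P * P)) X0 :=
    cb_mono ⟨b.lo_bd, b.lo_bdt⟩ r1 ru fun _ _ => le_rfl
  have cb1 : CB (cf T' N kv p.δ p.δ) (rad p.ρ1 (N 0)) w1 (l ^ P) W1 := by
    rw [← hl]
    exact cb_mono ⟨b.hi_bd, b.hi_bdt⟩ r1 ru fun _ _ => le_rfl
  have sb1 : SB (cf T' N kv p.δ p.δ) (rad p.ρ1 (N 0)) w1 1 (l ^ P) W1 := by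
    rw [← hl]
    exact b.hi_sb.rad r1 ru
  have st1 : St (cf T' N kv p.δ p.δ) (rad p.ρ1 (N 0)) (wC T' (l / 4) Aw) (fun _ => p.c0)
      (X0 + W1) := by
    have q : ∀ t ∈ Set.Ioo 0 T', 3 * N 0 * Real.exp (-l) ≤
        p.c0 * Real.exp (-(l / 4 * (T' - t))) := fun t ht => by
      rw [e0]
      exact n.c0_ge.trans (mul_le_mul_of_nonneg_left (Blo t ht).1 n.c0_nonneg)
    refine (b.st p.c0 _ (fun j t ht => mul_nonneg n.c0_nonneg (hWt.w_nonneg j t ht))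
      (fun t ht => ?_) fun t ht => ?_).rad r1 ru
    · rw [hl]
      exact q t ht
    · rw [hl]
      exact (le_mul_of_one_le_left (Real.exp_pos _).le (by linarith only [N0])).trans (q t ht)
  have ts : t00 ≤ s := hd.t_le.trans o1.le
  have t00m : t00 ∈ Set.Ioo 0 T' := ⟨hd.t_pos, ts.trans_lt o2⟩
  obtain ⟨J0, J1, j1, j2, j3, j4, j5, j6⟩ := hbase G g1 T' _ X0 (wC T' (l / 4) Aw 0) (x ^ (P * P))
    p.L p.K p.θ (l / 4) (Real.exp (-(l / 4))) p.ρ1 (p.ρ5 / 2) (N 0) (dvr (rad (p.ρ5 / 2) (N 0)) 2) hf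
    m.K02 n.K0_L n.L_le n.L_K T1 ρ6 m.K0ρ m.ρ1_one N0 b.lo_in b.lo_eqv b.lo_hom cb0 b.lo_det
    ⟨t00, t00m, fun z hz ht => by
      linarith only [b.small z hz ht.le, norm_nonneg (evm (Dm (cf T' N kv p.δ p.δ) W1) z), m.x0]⟩
    ((hk 0).1.mono r1 (fun _ => le_rfl) (w1_le m.CgK0))
    ((hk 0).2.1.mono r1 (fun _ => le_rfl) (w1_le m.CgK0))
    ((hk 0).2.2.mono r1 (fun _ => le_rfl) (w1_le m.CgK0)) (Real.exp_pos _) Blo hgr n.K0_lam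
    n.θ_half n.θ_one n.L_θ (lo_rad m.L0 ρ6 N0 (by rw [e0]; exact m.Lρ))
  -- the wave of the growing level
  have in1 : InV 1 (X0 + W1) := (b.lo_in.mono (by decide)).add sb1.1.inV
  have eq1 : Eqv (X0 + W1) := b.lo_eqv.add b.hi_eqv
  have cb01 : CB (cf T' N kv p.δ p.δ) (rad p.ρ1 (N 0)) w1 p.Ka (X0 + W1) :=
    cb_mono (cb_add r1 cb0 cb1) r1 (fun _ => le_rfl) (w1_le n.Ka_ge)
  obtain ⟨-, J2, W2, η2, u1, u2, u3, u4, u5, u6, u7, u8, u9⟩ := hwave G g2 T' N kv p.δ 1 p.K p.Ka p.θ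
    p.ε1 p.ρ1 p.ρ3 p.c0 amin (wC T' (l / 4) Aw) (vC Aw) (X0 + W1) p2 hf hc (by decide) T1 m.Ka2 R3
    n.θ_six hWt n.ρ3_pos n.Ka_ρ' m.ρ1_one in1 eq1 cb01 st1 n.c0_nonneg m.cA o9
    (fun t ht => ⟨(o10 t ht).1, (o10 t ht).2.1.trans n.Ka_C⟩) (by rw [e0]; exact n.Ka_δ)
    (by rw [f1]; exact prp_same b.cen (prp_le o12 n.Ka_C A0))
    (fun t ht => (o10 t ht).2.2.2.1.trans (mul_le_mul_of_nonneg_right n.Ka_C (A0 t ht))) n.Ka_K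
    n.Ka_ρ
  rw [f1] at u8 u9
  obtain ⟨o14, o15⟩ := o13 (cenV η2) (wave_same b.cen u8 n.e1_C A0) _ (cenM_ok _)
    (near_le (near_mulH_same b.cen u9) m.yC)
  -- the wave of the aligned level
  have r3 := rn _ (half_pos n.ρ3_pos)
  have in2 : InV 2 (X0 + W1 + W2) := (in1.mono (by decide)).add u5.1.inV
  have eq2 : Eqv (X0 + W1 + W2) := eq1.add u4
  have ea : p.Ka ^ G + p.ε1 * p.K ^ G ≤ p.Ka ^ G + 1 := by linarith only [n.e1_one]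
  have ec : p.Kc ^ G + p.ε1 * p.K ^ G ≤ p.Kc ^ G + 1 := by linarith only [n.e1_one]
  have cb2 : CB (cf T' N kv p.δ p.δ) (rad (p.ρ3 / 2) (N 0)) w1 ((p.Ka ^ G + 1) * l ^ C) W2 :=
    cb_mono u6 r3 (fun _ => le_rfl) fun t ht => by
      rw [w1, mul_one]
      exact mul_le_mul ea (o10 t ht).2.1 (A0 t ht) m.KaG
  have cb012 : CB (cf T' N kv p.δ p.δ) (rad (p.ρ3 / 2) (N 0)) w1 p.Mlo (X0 + W1 + W2) :=
    cb_mono (cb_add r3 (cb_mono cb01 r3 (rl m.ρ31) fun _ _ => le_rfl) cb2) r3 (fun _ => le_rfl)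
      (w1_le n.Mlo_ge)
  obtain ⟨v0, J3, W3, η3, v1, v2, v3, v4, v5, v6, v7, v8, v9⟩ := hwave G g2 T' N kv p.δ 2 p.K p.Kc
    p.θ p.ε1 (p.ρ3 / 2) p.ρ5 (p.c0 + p.ε1 * p.K ^ G) amin (wC T' (l / 4) Aw) (vC Aw) (X0 + W1 + W2)
    p3 hf hc (by decide) T1 m.Kc2 R5 n.θ_six hWt n.ρ5_pos n.Kc_ρ' m.ρ3_one in2 eq2
    (cb_mono cb012 r3 (fun _ => le_rfl) (w1_le n.Mlo_Kc)) u7 m.cB0 m.cB o9
    (fun t ht => ⟨(o10 t ht).1, (o10 t ht).2.1.trans m.lCKc⟩) (by rw [e0]; exact n.Kc_δ)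
    (by rw [f2]; exact prp_le o14 n.Kc_C A0)
    (fun t ht => (o10 t ht).2.2.2.2.trans (mul_le_mul_of_nonneg_right n.Kc_C (A0 t ht))) n.Kc_K
    n.Kc_ρ
  rw [f2] at v8 v9
  -- iteration
  have r6 := rn _ ρ6
  have bg := hB T' _ p.K p.θ (dvr (rad (p.ρ5 / 2) (N 0)) 2) (rad (p.ρ5 / 2) (N 0))
    (wC T' (l / 4) Aw) (vC Aw) X0 W1 W2 W3 J0 J1 J2 J3 hf (rad_pos ρ6 n0) m.K2 b.lo_in b.lo_eqv
    b.hi_eqv u4 v4 (sb1.mono hf r6 (rl m.ρ61) (w1_le m.lPK))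
    (u5.mono hf r6 (rl m.ρ63') fun t ht => mul_le_mul_of_nonneg_right n.Ka_K (A0 t ht))
    (v5.mono hf r6 (fun _ => le_rfl) fun t ht => mul_le_mul_of_nonneg_right n.Kc_K (A0 t ht))
    (cb0.1.mono r6 (rl m.ρ61) (w1_le m.K0K)) (cb01.1.mono r6 (rl m.ρ61) (w1_le m.KaK))
    (cb012.1.mono r6 (rl m.ρ63') (w1_le m.MloK)) j1 j2 u1 v1 j3 j4 (u2.monoR r6 (rl m.ρ63))
    (v2.monoR r6 (rl m.ρ65)) j5 (solvP_rad u3 (rl m.ρ63)) (solvP_rad v3 (rl m.ρ65)) j6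
  have sum3 : X0 + ∑ i, ![W1, W2, W3] i = X0 + W1 + W2 + W3 := by
    rw [Fin.sum_univ_three, ← add_assoc, ← add_assoc]
    rfl
  have eF : p.K ^ CF * (p.c0 + p.ε1 * p.K ^ G + p.ε1 * p.K ^ G) ≤ p.ε2 :=
    pow_mul_le m.cC0 m.K1 g3 n.c_ε2
  obtain ⟨R, s1, s2, s3, s4, s5, s6⟩ := hF T' _ p.K p.θ p.ε2 _ _ _ X0 _ _ _ p.M hf R6 hWt bg
    (fun _ _ => rfl) n.θ_M
    ((mul_le_mul_of_nonneg_left (pow_le_pow_right₀ m.K1 g3) m.ε2_pos.le).trans n.ε2_K) m.cC0 eF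
    (by rw [sum3]; exact v7)
  rw [dvr_rad] at s2 s3 s4 s6
  rw [sum3] at s6
  have r7 := rn _ m.ρ7_pos
  have r76 := rl m.ρ76
  have r73 := rl (m.ρ76.trans m.ρ63')
  have s4' := fun j => cb_mono (s4 j) r7 (fun _ => le_rfl) (w1_le eF)
  have nW : ∀ z ∈ Sp T', z.1 ≤ s →
      ‖evm (Dm (cf T' N kv p.δ p.δ) W2) z‖ ≤
        3 * ((p.Ka ^ G + 1) * (l ^ C * Real.exp (-(l / 3)))) ∧
      ‖evm (Dm (cf T' N kv p.δ p.δ) W3) z‖ ≤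
        3 * ((p.Kc ^ G + 1) * (l ^ C * Real.exp (-(l / 3)))) := fun z hz ht =>
    have zt : z.1 ∈ Set.Ioo 0 T' := ⟨hz.1, hz.2.1⟩
    ⟨norm_cb u6 hz ea m.KaG (A0 _ zt) ((o10 _ zt).2.2.1 ht),
      norm_cb v6 hz ec m.KcG (A0 _ zt) ((o10 _ zt).2.2.1 ht)⟩
  have hend := hEnd Pre P B t00 l T' s (p.ρ5 / 2 / 8) p.δ N kv (X0 + W1 + W2) W3 R p.Mlo
    ((p.Kc ^ G + 1) * l ^ C) p.ε2 (y ^ C)⁻¹
    (1 / 2 - 1 / x + 3 * ((p.Ka ^ G + 1) * (l ^ C * Real.exp (-(l / 3)))) +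
      3 * ((p.Kc ^ G + 1) * (l ^ C * Real.exp (-(l / 3))))) hd.t_pos ts o2 T1 hc
    (by rw [hy, e2]) (by rw [hy, e3]) m.ρ7_pos (by rw [hy]; exact m.ρ7P) m.ρ7_one in2 eq2
    (fun i => ((b.lo_hom i).add (sb1.2 i).1).add (u5.2 i).1)
    (cb_mono cb012 r7 r73 fun _ _ => le_rfl) v0
    (v5.mono hf r7 r76 fun t ht => by
      rw [w1, mul_one]
      exact mul_le_mul (le_add_of_nonneg_right zero_le_one) (o10 t ht).2.1 (A0 t ht) m.KcG)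
    v4
    (cb_mono v6 r7 r76 fun t ht => by
      rw [w1, mul_one]
      exact mul_le_mul ec (o10 t ht).2.1 (A0 t ht) m.KcG)
    s1 (fun j => (s3 j).le hf It.w1_nonneg eF) s4' (fun j z hz => (s5 j z hz).trans eF)
    (by
      rw [hy]
      exact s6.le hf (fun _ => It.w1_nonneg) fun _ =>
        (div_le_div_of_nonneg_right m.cK (pow_nonneg zero_le_two _)).trans n.res)
    (fun Fn a1 a2 => by
      rw [hy]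
      exact o15 (cenV η3) (wave_same (fun _ _ => ⟨rfl, rfl, rfl⟩) v8 n.e1_C A0) Fn a1
        (near_le (near_trans a2 v9) (add_zero _).le))
    (fun z hz ht => by
      obtain ⟨a1, a2⟩ := nW z hz (ht.trans ts)
      have a3 := b.small z hz ht
      rw [Dm_add, Dm_add, evm_add, evm_add, add_sub_right_comm, add_sub_right_comm]
      have a4 := norm_add₃_le (a := evm (Dm (cf T' N kv p.δ p.δ) X0) z - 1)
        (b := evm (Dm (cf T' N kv p.δ p.δ) W1) z) (c := evm (Dm (cf T' N kv p.δ p.δ) W2) z)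
      linarith only [a1, a2, a3, a4])
    m.ε2_pos.le m.Mlo1 n.lo_fin (by rw [hy]; exact n.hi_fin) n.det_fin n.near_fin
    (by linarith only [n.small_fin, m.xl])
  refine ⟨_, hend, hN Q l (p.ρ5 / 2 / 8) (p.K * (p.Ka ^ G + p.Kc ^ G + 4)) d _ (X0 + W1)
    (W2 + W3 + ∑ j, R j) hc o3 o1 m.ρ7_pos m.ρ7_one b.xf ?_ ?_ (fun z hz ht => ?_) o11 n.Q_size ?_⟩
  · show X0 + W1 + W2 + R 0 + R 1 + R 2 + (W3 + R 3) = X0 + W1 + (W2 + W3 + ∑ j, R j)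
    rw [Fin.sum_univ_four]
    abel
  · show GBv 1 (rad (p.ρ5 / 2 / 8) (N 0)) (fun t => Real.exp (-(l / 4 * (T' - t))))
      (p.K * (p.Ka ^ G + p.Kc ^ G + 4)) (W2 + W3 + ∑ j, R j)
    have wB : ∀ j, ∀ t ∈ Set.Ioo 0 T',
        wC T' (l / 4) Aw j t ≤ p.K * Real.exp (-(l / 4 * (T' - t))) := fun j t ht => by
      have q := le_mul_of_one_le_left (Real.exp_pos (-(l / 4 * (T' - t)))).le m.K1
      fin_cases j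
      exacts [q, q, AB t ht, AB t ht]
    have one : ∀ {j : Fin 4} {c c' : ℝ} {V : Vec T'} {r : Let → ℝ},
        SB (cf T' N kv p.δ p.δ) r (wC T' (l / 4) Aw j) j c V →
        (∀ i, rad (p.ρ5 / 2 / 8) (N 0) i ≤ r i) → c ≤ c' → 0 ≤ c' →
        GBv 1 (rad (p.ρ5 / 2 / 8) (N 0)) (fun t => Real.exp (-(l / 4 * (T' - t)))) (c' * p.K) V :=
      fun {j c c' V r} a1 a2 a3 a4 => gbv_sb hf a1 r7 a2 fun t ht => by
        rw [mul_assoc]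
        exact mul_le_mul a3 (wB j t ht) (hWt.w_nonneg j t ht) a4
    have q := fun j => one (s2 j) (fun _ => le_rfl) (eF.trans m.ε2_one) zero_le_one
    have q2 := one u5 r73 le_rfl (pow_nonneg (zero_le_two.trans m.Ka2) _)
    have q3 := one v5 r76 le_rfl (pow_nonneg (zero_le_two.trans m.Kc2) _)
    rw [Fin.sum_univ_four]
    exact ((q2.add r7 q3).add r7 ((((q 0).add r7 (q 1)).add r7 (q 2)).add r7 (q 3))).mono r7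
      (fun _ => le_rfl) fun t _ => le_of_eq (by ring)
  · show ‖evm (Dm (cf T' N kv p.δ p.δ) (W2 + W3 + ∑ j, R j)) z‖ ≤ 1 / l
    obtain ⟨a1, a2⟩ := nW z hz ht
    have a3 := norm_rest s4' hz
    rw [Dm_add, Dm_add, evm_add, evm_add]
    have a4 := norm_add₃_le (a := evm (Dm (cf T' N kv p.δ p.δ) W2) z)
      (b := evm (Dm (cf T' N kv p.δ p.δ) W3) z) (c := evm (Dm (cf T' N kv p.δ p.δ) (∑ j, R j)) z)
    linarith only [a1, a2, a3, a4, n.small_fin]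
  · show Cn * N 3 ≤ p.ρ5 / 2 / 8 * l ^ Q
    have q : Cn * N 3 ≤ Cr * (y ^ B) ^ B := by
      rw [e3]
      exact mul_le_mul_of_nonneg_right c2 (pow_nonneg (pow_nonneg (zero_le_one.trans m.y1) _) _)
    linarith only [q, n.Q_rad]

end Pool.Agent.Lib.MP_fbbbeb_an.Cas
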