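import Mathlib
import Pool.Agent.Lib.MP_fbbbeb_an.Cas.CycS
import Pool.Agent.Lib.MP_fbbbeb_an.Cas.Gev
import Pool.Agent.Lib.MP_fbbbeb_an.Cas.Ev
import Pool.Agent.Lib.MP_fbbbeb_an.Cas.TypA1
import Pool.Agent.Lib.MP_fbbbeb_an.Cas.TypB

/-! The end state of a cycle from the finished iteration. -/

set_option autoImplicit false

noncomputable section

namespace Pool.Agent.Lib.MP_fbbbeb_an.Cas

open Pool.Agent.Lib.MP_fbbbeb_an.Pub

namespace EnM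

variable {T : ℝ}

theorem tri {a b c x y z M δ : ℝ} (ha : |a| ≤ M) (hb : |b| ≤ M) (hc : |c| ≤ M) (hx : |x| ≤ δ)
    (hy : |y| ≤ δ) (hz : |z| ≤ δ) (h : δ ≤ M) :
    |(a + x) * (b + y) * (c + z) - a * b * c| ≤ 7 * M ^ 2 * δ := by
  have hM : 0 ≤ M := (abs_nonneg _).trans ha
  have hd : 0 ≤ δ := (abs_nonneg _).trans hx
  have h1 : |b + y| ≤ 2 * M := (abs_add_le _ _).trans (by linarith)
  have h2 : |c + z| ≤ 2 * M := (abs_add_le _ _).trans (by linarith)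
  have e : (a + x) * (b + y) * (c + z) - a * b * c =
      x * (b + y) * (c + z) + a * y * (c + z) + a * b * z := by ring
  have t1 : |x * (b + y) * (c + z)| ≤ δ * (2 * M) * (2 * M) := by
    rw [abs_mul, abs_mul]; gcongr
  have t2 : |a * y * (c + z)| ≤ M * δ * (2 * M) := by
    rw [abs_mul, abs_mul]; gcongr
  have t3 : |a * b * z| ≤ M * M * δ := by
    rw [abs_mul, abs_mul]; gcongr
  rw [e]
  refine (abs_add_three _ _ _).trans ?_
  nlinarith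

theorem det_low {F G : Mat T} {z : Pt} {M δ : ℝ} (hF : ∀ i l, |ev (F i l) z| ≤ M)
    (hG : ∀ i l, |ev (G i l) z| ≤ δ) (h : δ ≤ M) :
    ev F.det z - 42 * M ^ 2 * δ ≤ ev (F + G).det z := by
  have t := fun i j k l m n : Fin 3 => abs_le.1
    (tri (hF i j) (hF k l) (hF m n) (hG i j) (hG k l) (hG m n) h)
  have t1 := t 0 0 1 1 2 2
  have t2 := t 0 0 1 2 2 1
  have t3 := t 0 1 1 0 2 2
  have t4 := t 0 1 1 2 2 0
  have t5 := t 0 2 1 0 2 1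
  have t6 := t 0 2 1 1 2 0
  simp only [Matrix.det_fin_three, Matrix.add_apply, ev_add, ev_sub, ev_mul]
  linarith [t1.1, t2.2, t3.2, t4.1, t5.1, t6.2]

theorem rad_nonneg {ρ N : ℝ} (hρ : 0 ≤ ρ) (hN : 0 ≤ N) (i : Let) : 0 ≤ rad ρ N i := by
  rcases i with _ | i | i
  · exact hρ
  · exact div_nonneg hρ hN
  · exact hρ

theorem rad_anti {ρ N N' : ℝ} (hρ : 0 ≤ ρ) (hN : 0 < N) (h : N ≤ N') (i : Let) :
    rad ρ N' i ≤ rad ρ N i := by
  rcases i with _ | i | i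
  · exact le_rfl
  · exact div_le_div_of_nonneg_left hρ hN h
  · exact le_rfl

theorem eqv_add {V W : Vec T} (h : Eqv V) (h' : Eqv W) : Eqv (V + W) := fun g hg z => by
  rw [evv_add, evv_add, h g hg z, h' g hg z, map_add]

variable {fr : Frame T} {r r' : Let → ℝ} {M M' : ℝ} {X Y : Vec T}

theorem cb_add (hr : ∀ i, 0 ≤ r i) (h : CB fr r w1 M X) (h' : CB fr r w1 M' Y) :
    CB fr r w1 (M + M') (X + Y) := by
  unfold CB
  rw [Dm_add, dtm_add]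
  exact ⟨GBm.add hr h.1 h'.1, GBm.add hr h.2 h'.2⟩

theorem cb_mono (h : CB fr r w1 M X) (h0 : ∀ i, 0 ≤ r' i) (h1 : ∀ i, r' i ≤ r i) (hM : M ≤ M') :
    CB fr r' w1 M' X :=
  ⟨h.1.mono h0 h1 fun _ _ => by simpa [w1] using hM, h.2.mono h0 h1 fun _ _ => by simpa [w1] using hM⟩

theorem ent {F : Mat T} (h : GBm 0 r w1 M F) {z : Pt} (hz : z ∈ Sp T) (i l : Fin 3) :
    |ev (F i l) z| ≤ M := by simpa [w1] using (h i l).abs_le hz

theorem nrm {F : Mat T} (h : GBm 0 r w1 M F) {z : Pt} (hz : z ∈ Sp T) : ‖evm F z‖ ≤ 3 * M :=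
  norm_evm_le (ent h hz)

end EnM

open EnM in
theorem endSt (hG : GeoSt) : EndSt := by
  intro Pre P B t00 x T s ρ δ N kv X W Cr Mlo Mhi e τ b h1 h2 h3 h4 hcf hN2 hN3 hρ hρ1 hρ2 hXin
    hXe hXh hXb hXd hWs hWe hWb hCe hCf hCb hC2 hSt hPre hsm he hM1 hlo hhi hdet hτ hb
  obtain ⟨C, -, hgeo⟩ := hG
  have hfr := (hgeo T N kv δ δ hcf).1
  have hN0 : 0 < N 0 := lt_of_lt_of_le one_pos hcf.1
  have hN02 : N 0 ≤ N 2 := hcf.2.1 (by decide)
  have hr : ∀ i, 0 ≤ rad ρ (N 0) i := rad_nonneg hρ.le hN0.le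
  have hr' : ∀ i, 0 ≤ rad ρ (N 2) i := rad_nonneg hρ.le (hN0.le.trans hN02)
  have hle : ∀ i, rad ρ (N 2) i ≤ rad ρ (N 0) i := rad_anti hρ.le hN0 hN02
  have c012 := cb_add hr (cb_add hr (hCb 0) (hCb 1)) (hCb 2)
  have call := cb_add hr c012 (hCb 3)
  have elo : X + Cr 0 + Cr 1 + Cr 2 = X + (Cr 0 + Cr 1 + Cr 2) := by abel
  have eall : X + Cr 0 + Cr 1 + Cr 2 + (W + Cr 3) = X + W + (Cr 0 + Cr 1 + Cr 2 + Cr 3) := by abel
  have blo : CB (cf T N kv δ δ) (rad ρ (N 2)) w1 (x ^ (P * P)) (X + Cr 0 + Cr 1 + Cr 2) := by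
    rw [elo]
    exact cb_mono (cb_add hr hXb c012) hr' hle (by linarith)
  have bhi : CB (cf T N kv δ δ) (rad ρ (N 2)) w1 ((x ^ B) ^ P) (W + Cr 3) :=
    cb_mono (cb_add hr hWb (hCb 3)) hr' hle hhi
  refine ⟨h1, h2, h3, h4, hcf, hN2, hN3, hρ1, hρ2, ?_, ?_, ?_, blo.1, blo.2, ?_, ?_, ?_, bhi.1,
    bhi.2, ?_, ?_, ?_⟩
  · exact ((hXin.add ((hCf 0).1.inV.mono (by decide))).add ((hCf 1).1.inV.mono (by decide))).add
      (hCf 2).1.inV
  · exact eqv_add (eqv_add (eqv_add hXe (hCe 0)) (hCe 1)) (hCe 2)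
  · exact fun i => (((hXh i).add ((hCf 0).2 i).1).add ((hCf 1).2 i).1).add ((hCf 2).2 i).1
  · intro z hz
    show 1 / 2 ≤ ev (Dm (cf T N kv δ δ) (X + Cr 0 + Cr 1 + Cr 2)).det z
    have hM2 : 1 ≤ Mlo ^ 2 := one_le_pow₀ hM1
    have he1 : 1000 * e ≤ 1 := by nlinarith
    have h5 := det_low (ent hXb.1 hz) (ent c012.1 hz) (by linarith)
    have h6 := hXd z hz
    rw [elo, Dm_add]
    nlinarith
  · exact (SB.add hr hWs (hCf 3)).mono hfr hr' hle fun _ _ => by simpa [w1] using hhi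
  · exact eqv_add hWe (hCe 3)
  · show St (cf T N kv δ δ) (rad ρ (N 2)) _ _ (X + Cr 0 + Cr 1 + Cr 2 + (W + Cr 3))
    rw [eall, ← Fin.sum_univ_four Cr]
    exact hSt.rad hr' hle
  · show Pre (x ^ B) T s (cenM (Dm (cf T N kv δ δ) (X + Cr 0 + Cr 1 + Cr 2 + (W + Cr 3))))
    refine hPre _ (cenM_ok _) fun t ht => ?_
    have hz : cz t ∈ Sp T := cz_mem ht
    rw [eall, Dm_add _ (X + W)]
    simp only [cenM, dtm_add _ (Dm (cf T N kv δ δ) (Cr 0 + Cr 1 + Cr 2 + Cr 3)),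
      dtm_add _ (dtm (Dm (cf T N kv δ δ) (Cr 0 + Cr 1 + Cr 2 + Cr 3))), evm_add,
      add_sub_cancel_left]
    refine ⟨(nrm call.1 hz).trans (by linarith), (nrm call.2 hz).trans (by linarith), ?_⟩
    rw [Dm_add, Dm_add, Dm_add, dtm_add, dtm_add, dtm_add, dtm_add, dtm_add, dtm_add, evm_add,
      evm_add, evm_add]
    have a0 := hC2 0 _ hz
    have a1 := hC2 1 _ hz
    have a2 := hC2 2 _ hz
    have a3 := hC2 3 _ hz
    refine (norm_add_le _ _).trans ?_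
    refine (add_le_add (norm_add₃_le) le_rfl).trans ?_
    linarith
  · intro z hz hzt
    show ‖evm (Dm (cf T N kv δ δ) (X + Cr 0 + Cr 1 + Cr 2)) z - 1‖ +
      ‖evm (Dm (cf T N kv δ δ) (W + Cr 3)) z‖ ≤ 1 / 2 - 1 / x
    have h5 := hsm z hz hzt
    have h6 := nrm c012.1 hz
    have h7 := nrm (hCb 3).1 hz
    rw [elo, Dm_add _ X, Dm_add _ W, evm_add, evm_add, add_sub_right_comm]
    have h8 := norm_add_le (evm (Dm (cf T N kv δ δ) X) z - 1)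
      (evm (Dm (cf T N kv δ δ) (Cr 0 + Cr 1 + Cr 2)) z)
    have h9 := norm_add_le (evm (Dm (cf T N kv δ δ) W) z) (evm (Dm (cf T N kv δ δ) (Cr 3)) z)
    linarith

end Pool.Agent.Lib.MP_fbbbeb_an.Cas
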