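import Mathlib
import Pool.Agent.Lib.MP_fbbbeb_an.Cas.Defs

/-! Pointwise tools: homogeneity of derivatives, Lipschitz bound near the central label, phases modulo
`2π`, operator norms of evaluated matrices. -/

set_option autoImplicit false

noncomputable section

namespace Pool.Agent.Lib.MP_fbbbeb_an.Cas.En

open Pool.Agent.Lib.MP_fbbbeb_an.Pub
open scoped ContDiff Topology RealInnerProductSpace Matrix Nat

variable {T : ℝ}

theorem smul_mem_Om {z : Pt} {s : ℝ} (hs : 0 < s) :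
    ((z.1, s • z.2.1, z.2.2) : Pt) ∈ Om T ↔ z ∈ Om T := by
  simp [Om, hs.ne']

theorem hasDerivAt_zero (i : Let) (f : A T) {z : Pt} (hz : z ∈ Om T) :
    HasDerivAt (fun x : ℝ => ev f (z + x • vec i)) (ev (pd i f) z) 0 := by
  have h := hasDerivAt_ev i f z 0 (by simpa using hz)
  simpa using h

theorem hom_la {d : ℤ} {f : A T} (h : Hom d f) (i : Fin 3) : Hom (d - 1) (pd (la i) f) := by
  intro z s hs
  by_cases hz : z ∈ Om T
  · have hz' : ((z.1, s • z.2.1, z.2.2) : Pt) ∈ Om T := (smul_mem_Om hs).2 hz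
    have h1 := hasDerivAt_zero (la i) f hz'
    have h2 := (hasDerivAt_zero (la i) f hz).const_mul (s ^ d)
    have h3 : HasDerivAt (fun x : ℝ => s * x) s 0 := by simpa using (hasDerivAt_id (0 : ℝ)).const_mul s
    have h4 := HasDerivAt.comp (0 : ℝ) (h₂ := fun x : ℝ =>
      ev f (((z.1, s • z.2.1, z.2.2) : Pt) + x • vec (la i))) (h := fun x : ℝ => s * x)
      (by simpa using h1) h3
    have h5 : ((fun x : ℝ => ev f (((z.1, s • z.2.1, z.2.2) : Pt) + x • vec (la i))) ∘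
        fun x : ℝ => s * x) = fun x : ℝ => s ^ d * ev f (z + x • vec (la i)) := by
      funext x
      have := h (z + x • vec (la i)) s hs
      rw [← this]
      simp [vec, smul_smul]
    rw [h5] at h4
    have h6 := h4.unique h2
    rw [zpow_sub_one₀ hs.ne']
    field_simp
    linarith
  · rw [ev_out _ hz, ev_out _ (fun h' => hz ((smul_mem_Om hs).1 h'))]
    simp

theorem hom_lp {d : ℤ} {f : A T} (h : Hom d f) (j : Fin 3) : Hom d (pd (lp j) f) := by
  intro z s hs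
  by_cases hz : z ∈ Om T
  · have hz' : ((z.1, s • z.2.1, z.2.2) : Pt) ∈ Om T := (smul_mem_Om hs).2 hz
    have h1 := hasDerivAt_zero (lp j) f hz'
    have h2 := (hasDerivAt_zero (lp j) f hz).const_mul (s ^ d)
    have h5 : (fun x : ℝ => ev f (((z.1, s • z.2.1, z.2.2) : Pt) + x • vec (lp j))) =
        fun x : ℝ => s ^ d * ev f (z + x • vec (lp j)) := by
      funext x
      have := h (z + x • vec (lp j)) s hs
      rw [← this]
      simp [vec]
    rw [h5] at h1
    exact h1.unique h2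
  · rw [ev_out _ hz, ev_out _ (fun h' => hz ((smul_mem_Om hs).1 h'))]
    simp

/-- a bound on the sphere gives a bound everywhere -/
theorem bd_off {d : ℤ} {g : A T} (h : Hom d g) {M : ℝ} (hb : ∀ z ∈ Sp T, |ev g z| ≤ M) {z : Pt}
    (hz : z ∈ Om T) : |ev g z| ≤ ‖z.2.1‖ ^ d * M := by
  have hn : 0 < ‖z.2.1‖ := norm_pos_iff.2 hz.2.2
  have h1 := h ((z.1, ‖z.2.1‖⁻¹ • z.2.1, z.2.2) : Pt) ‖z.2.1‖ hn
  have h2 : ((z.1, ‖z.2.1‖ • ‖z.2.1‖⁻¹ • z.2.1, z.2.2) : Pt) = z := by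
    rw [smul_smul, mul_inv_cancel₀ hn.ne', one_smul]
  simp only [h2] at h1
  rw [h1, abs_mul, abs_of_pos (zpow_pos hn d)]
  refine mul_le_mul_of_nonneg_left (hb _ ⟨hz.1, hz.2.1, ?_⟩) (zpow_pos hn d).le
  simp [norm_smul, hn.ne']

theorem gb_zero {d : ℤ} {r : Let → ℝ} {K : ℝ} {f : A T} (h : GB d r w1 K f) {z : Pt}
    (hz : z ∈ Sp T) : |ev f z| ≤ K := by
  have := h.2 z hz []
  simpa [pw, rpr, w1] using this

theorem gb_one {d : ℤ} {r : Let → ℝ} {K : ℝ} {f : A T} (h : GB d r w1 K f) (i : Let)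
    (hr : 0 < r i) {z : Pt} (hz : z ∈ Sp T) : |ev (pd i f) z| ≤ K / r i := by
  have := h.2 z hz [i]
  rw [le_div_iff₀ hr]
  simpa [pw, rpr, w1] using this

theorem norm_a0 : ‖a0‖ = 1 := by
  have h : Real.sqrt 14 ^ 2 = 14 := Real.sq_sqrt (by norm_num)
  have hp : 0 < Real.sqrt 14 := Real.sqrt_pos.2 (by norm_num)
  have h2 : ‖(!₂[1, 2, 3] : E)‖ = Real.sqrt 14 := by
    rw [EuclideanSpace.norm_eq]
    congr 1
    simp [Fin.sum_univ_three]
    norm_num
  rw [a0, norm_smul, h2, norm_inv, Real.norm_eq_abs, abs_of_pos hp, inv_mul_cancel₀ hp.ne']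

theorem abs_apply_le (x : E) (i : Fin 3) : |x i| ≤ ‖x‖ := by
  simpa using PiLp.norm_apply_le x i

theorem pt_split (d ψ : E) : ((0, d, ψ) : Pt) =
    ∑ i, d i • vec (la i) + ∑ l, ψ l • vec (lp l) := by
  refine Prod.ext ?_ (Prod.ext ?_ ?_)
  · simp [Fin.sum_univ_three, vec]
  · ext i
    fin_cases i <;> simp [Fin.sum_univ_three, vec]
  · ext i
    fin_cases i <;> simp [Fin.sum_univ_three, vec]

/-- Lipschitz bound near the central label -/
theorem lip {r : Let → ℝ} {K ra rp δa δp t : ℝ} {f : A T} (h : GB 0 r w1 K f) (hra : 0 < ra)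
    (hrp : 0 < rp) (ha : ∀ i, r (la i) = ra) (hp : ∀ l, r (lp l) = rp) (ht : t ∈ Set.Ioo 0 T)
    {a ψ : E} (hd : ‖a - a0‖ ≤ δa) (hδ : δa ≤ 1 / 2) (hψ : ∀ l, |ψ l| ≤ δp) :
    |ev f (t, a, ψ) - ev f (cz t)| ≤ 6 * K * δa / ra + 3 * K * δp / rp := by
  set v : Pt := (0, a - a0, ψ) with hv
  have hK : 0 ≤ K := (abs_nonneg _).trans (gb_zero h (z := cz t) ⟨ht.1, ht.2, norm_a0⟩)
  have hn : ∀ s ∈ Set.Icc (0 : ℝ) 1, 1 / 2 ≤ ‖(cz t + s • v).2.1‖ := by
    intro s hs
    have h1 : (cz t + s • v).2.1 = a0 + s • (a - a0) := by simp [cz, hv]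
    have h2 : ‖s • (a - a0)‖ ≤ 1 / 2 := by
      rw [norm_smul, Real.norm_eq_abs, abs_of_nonneg hs.1]
      nlinarith [hs.1, hs.2, norm_nonneg (a - a0)]
    have h3 := norm_sub_le (a0 + s • (a - a0)) (s • (a - a0))
    rw [add_sub_cancel_right, norm_a0] at h3
    rw [h1]
    linarith
  have hin : ∀ s ∈ Set.Icc (0 : ℝ) 1, cz t + s • v ∈ Om T := by
    intro s hs
    refine ⟨by simpa [cz, hv] using ht.1, by simpa [cz, hv] using ht.2, fun h0 => ?_⟩
    have := hn s hs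
    rw [h0, norm_zero] at this
    linarith
  have hder : ∀ s ∈ Set.Icc (0 : ℝ) 1, HasDerivWithinAt (fun x : ℝ => ev f (cz t + x • v))
      (fderiv ℝ (ev f) (cz t + s • v) v) (Set.Icc 0 1) s := by
    intro s hs
    have h1 : HasDerivAt (fun x : ℝ => cz t + x • v) v s := by
      simpa using ((hasDerivAt_id s).smul_const v).const_add (cz t)
    exact ((ev_diff f (hin s hs)).hasFDerivAt.comp_hasDerivAt s h1).hasDerivWithinAt
  have hbd : ∀ s ∈ Set.Ico (0 : ℝ) 1, ‖fderiv ℝ (ev f) (cz t + s • v) v‖ ≤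
      6 * K * δa / ra + 3 * K * δp / rp := by
    intro s hs
    have hs' : s ∈ Set.Icc (0 : ℝ) 1 := ⟨hs.1, hs.2.le⟩
    have hz := hin s hs'
    have hn' := hn s hs'
    set z := cz t + s • v with hzdef
    have e1 : fderiv ℝ (ev f) z v = ∑ i, (a - a0) i * ev (pd (la i) f) z +
        ∑ l, ψ l * ev (pd (lp l) f) z := by
      rw [hv, pt_split, map_add, map_sum, map_sum]
      simp only [map_smul, smul_eq_mul, ev_pd _ f hz]
    have b1 : ∀ i, |(a - a0) i * ev (pd (la i) f) z| ≤ δa * (2 * (K / ra)) := by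
      intro i
      rw [abs_mul]
      refine mul_le_mul ((abs_apply_le _ i).trans hd) ?_ (abs_nonneg _)
        ((norm_nonneg _).trans hd)
      have := bd_off (hom_la h.1 i) (M := K / ra)
        (fun y hy => by simpa [ha i] using gb_one h (la i) (by rw [ha i]; exact hra) hy) hz
      refine this.trans (mul_le_mul_of_nonneg_right ?_ (div_nonneg hK hra.le))
      have h0 : 0 < ‖z.2.1‖ := by linarith
      rw [zero_sub, zpow_neg, zpow_one, inv_le_comm₀ h0 (by norm_num)]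
      linarith
    have b2 : ∀ l, |ψ l * ev (pd (lp l) f) z| ≤ δp * (K / rp) := by
      intro l
      rw [abs_mul]
      refine mul_le_mul (hψ l) ?_ (abs_nonneg _) ((abs_nonneg _).trans (hψ l))
      have := bd_off (hom_lp h.1 l) (M := K / rp)
        (fun y hy => by simpa [hp l] using gb_one h (lp l) (by rw [hp l]; exact hrp) hy) hz
      simpa using this
    rw [e1, Real.norm_eq_abs, Fin.sum_univ_three, Fin.sum_univ_three]
    have c0 := abs_le.1 (b1 0)
    have c1 := abs_le.1 (b1 1)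
    have c2 := abs_le.1 (b1 2)
    have d0 := abs_le.1 (b2 0)
    have d1 := abs_le.1 (b2 1)
    have d2 := abs_le.1 (b2 2)
    have e2 : 6 * K * δa / ra + 3 * K * δp / rp =
        3 * (δa * (2 * (K / ra))) + 3 * (δp * (K / rp)) := by ring
    rw [e2, abs_le]
    constructor <;> linarith [c0.1, c0.2, c1.1, c1.2, c2.1, c2.2, d0.1, d0.2, d1.1, d1.2, d2.1, d2.2]
  have key := norm_image_sub_le_of_norm_deriv_le_segment_01' hder hbd
  have e3 : cz t + v = (t, a, ψ) := by simp [cz, hv]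
  simpa [e3] using key

/-- a function that does not depend on a phase -/
theorem ev_shift_of_pd {f : A T} {l : Fin 3} (h : pd (lp l) f = 0) (z : Pt) (s : ℝ) :
    ev f (z + s • vec (lp l)) = ev f z := by
  by_cases hz : z ∈ Om T
  · have hd : ∀ x : ℝ, HasDerivAt (fun x : ℝ => ev f (z + x • vec (lp l))) 0 x := by
      intro x
      have := hasDerivAt_ev (lp l) f z x ((Om_shift z x l).2 hz)
      rwa [h, ev_zero] at this
    have := is_const_of_deriv_eq_zero (fun x => (hd x).differentiableAt) (fun x => (hd x).deriv) s 0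
    simpa using this
  · rw [ev_out f hz, ev_out f (fun h' => hz ((Om_shift z s l).1 h'))]

theorem ev_shift_int (f : A T) (l : Fin 3) (z : Pt) (n : ℤ) :
    ev f (z + ((n : ℝ) * (2 * Real.pi)) • vec (lp l)) = ev f z := by
  have hp : Function.Periodic (fun x : ℝ => ev f (z + x • vec (lp l))) (2 * Real.pi) := by
    intro x
    have := ev_per f l (z + x • vec (lp l))
    simpa [add_smul, add_assoc] using this
  have := hp.int_mul n 0
  simpa using this

/-- a phase close to a multiple of `2π` -/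
theorem near_node {x δ : ℝ} (hδ : 0 ≤ δ) (h : 1 - Real.cos x ≤ δ ^ 2) :
    ∃ (n : ℤ) (y : ℝ), x = y + n * (2 * Real.pi) ∧ |y| ≤ 3 * δ := by
  have hp : 0 < 2 * Real.pi := Real.two_pi_pos
  refine ⟨toIocDiv hp (-Real.pi) x, toIocMod hp (-Real.pi) x, ?_, ?_⟩
  · have := toIocMod_add_toIocDiv_zsmul hp (-Real.pi) x
    rw [zsmul_eq_mul] at this
    exact this.symm
  · set y := toIocMod hp (-Real.pi) x with hy
    have hm := toIocMod_mem_Ioc hp (-Real.pi) x
    have hy1 : |y| ≤ Real.pi := abs_le.2 ⟨hm.1.le, by linarith [hm.2]⟩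
    have hc : Real.cos y = Real.cos x := by
      have := toIocMod_add_toIocDiv_zsmul hp (-Real.pi) x
      rw [zsmul_eq_mul] at this
      rw [← this, Real.cos_add_int_mul_two_pi]
    have h1 := Real.cos_le_one_sub_mul_cos_sq hy1
    have h2 : 2 / Real.pi ^ 2 * y ^ 2 ≤ δ ^ 2 := by linarith
    have h3 : Real.pi ^ 2 ≤ 16 := by nlinarith [Real.pi_le_four, Real.pi_pos]
    have h4 : 0 < Real.pi ^ 2 := by positivity
    rw [div_mul_eq_mul_div, div_le_iff₀ h4] at h2
    refine abs_le_of_sq_le_sq' ?_ (by linarith) |> abs_le.2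
    nlinarith [sq_nonneg δ]

/-! ### matrices -/

theorem clm_apply (M : Matrix (Fin 3) (Fin 3) ℝ) (x : E) (i : Fin 3) :
    Matrix.toEuclideanCLM (n := Fin 3) (𝕜 := ℝ) M x i = ∑ j, M i j * x j := by
  simp [Matrix.mulVec, dotProduct]

theorem norm_clm_le (M : Matrix (Fin 3) (Fin 3) ℝ) {m : ℝ} (h : ∀ i j, |M i j| ≤ m) :
    ‖Matrix.toEuclideanCLM (n := Fin 3) (𝕜 := ℝ) M‖ ≤ 9 * m := by
  have hm : 0 ≤ m := (abs_nonneg _).trans (h 0 0)
  refine ContinuousLinearMap.opNorm_le_bound _ (by linarith) fun x => ?_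
  have h1 : ∀ i, |Matrix.toEuclideanCLM (n := Fin 3) (𝕜 := ℝ) M x i| ≤ 3 * (m * ‖x‖) := by
    intro i
    have b : ∀ j, |M i j * x j| ≤ m * ‖x‖ := fun j => by
      rw [abs_mul]
      exact mul_le_mul (h i j) (abs_apply_le x j) (abs_nonneg _) hm
    rw [clm_apply, Fin.sum_univ_three]
    have c0 := abs_le.1 (b 0)
    have c1 := abs_le.1 (b 1)
    have c2 := abs_le.1 (b 2)
    rw [abs_le]
    constructor <;> linarith [c0.1, c0.2, c1.1, c1.2, c2.1, c2.2]
  have h0 : 0 ≤ m * ‖x‖ := by positivity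
  rw [EuclideanSpace.norm_eq, Real.sqrt_le_left (by positivity), Fin.sum_univ_three]
  simp only [Real.norm_eq_abs]
  have s0 := pow_le_pow_left₀ (abs_nonneg _) (h1 0) 2
  have s1 := pow_le_pow_left₀ (abs_nonneg _) (h1 1) 2
  have s2 := pow_le_pow_left₀ (abs_nonneg _) (h1 2) 2
  nlinarith [sq_nonneg (m * ‖x‖)]

theorem inv_le (M : Matrix (Fin 3) (Fin 3) ℝ) {J K : ℝ} (hJ : J * M.det = 1) (hK : |J| ≤ K)
    (h : ∀ i j, |M i j| ≤ K) (x : E) :
    ‖x‖ ≤ 18 * K ^ 3 * ‖Matrix.toEuclideanCLM (n := Fin 3) (𝕜 := ℝ) M x‖ := by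
  have h0 : 0 ≤ K := (abs_nonneg _).trans hK
  have hp : ∀ i j k l, |M i j * M k l| ≤ K * K := fun i j k l => by
    rw [abs_mul]
    exact mul_le_mul (h i j) (h k l) (abs_nonneg _) h0
  have hq : ∀ i j k l i' j' k' l', |M i j * M k l - M i' j' * M k' l'| ≤ 2 * (K * K) :=
    fun i j k l i' j' k' l' => (abs_sub _ _).trans (by linarith [hp i j k l, hp i' j' k' l'])
  have hq' : ∀ i j k l i' j' k' l', |-(M i j * M k l) + M i' j' * M k' l'| ≤ 2 * (K * K) :=
    fun i j k l i' j' k' l' => by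
      rw [neg_add_eq_sub]
      exact hq _ _ _ _ _ _ _ _
  have hadj : ∀ i j, |M.adjugate i j| ≤ 2 * (K * K) := by
    intro i j
    rw [Matrix.adjugate_fin_three]
    fin_cases i <;> fin_cases j <;> first | exact hq _ _ _ _ _ _ _ _ | exact hq' _ _ _ _ _ _ _ _
  have hN : ∀ i j, |(J • M.adjugate) i j| ≤ K * (2 * (K * K)) := fun i j => by
    rw [Matrix.smul_apply, smul_eq_mul, abs_mul]
    exact mul_le_mul hK (hadj i j) (abs_nonneg _) h0
  have h1 : (J • M.adjugate) * M = 1 := by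
    rw [Matrix.smul_mul, Matrix.adjugate_mul, smul_smul, hJ, one_smul]
  have h2 : Matrix.toEuclideanCLM (n := Fin 3) (𝕜 := ℝ) (J • M.adjugate)
      (Matrix.toEuclideanCLM (n := Fin 3) (𝕜 := ℝ) M x) = x := by
    have h4 := map_mul (Matrix.toEuclideanCLM (n := Fin 3) (𝕜 := ℝ)) (J • M.adjugate) M
    rw [h1, map_one] at h4
    exact (congrArg (fun L : E →L[ℝ] E => L x) h4).symm
  have h3 := (Matrix.toEuclideanCLM (n := Fin 3) (𝕜 := ℝ) (J • M.adjugate)).le_of_opNorm_le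
    (norm_clm_le _ hN) (Matrix.toEuclideanCLM (n := Fin 3) (𝕜 := ℝ) M x)
  rw [h2] at h3
  refine h3.trans (le_of_eq ?_)
  ring

theorem evm_apply (F : Mat T) (z : Pt) (x : E) (i : Fin 3) :
    evm F z x i = ∑ j, ev (F i j) z * x j := by
  rw [evm, clm_apply]
  rfl

theorem norm_evm_le {F : Mat T} {z : Pt} {m : ℝ} (h : ∀ i j, |ev (F i j) z| ≤ m) :
    ‖evm F z‖ ≤ 9 * m := norm_clm_le _ h

theorem norm_evm_sub_le {F : Mat T} {z y : Pt} {m : ℝ}
    (h : ∀ i j, |ev (F i j) z - ev (F i j) y| ≤ m) : ‖evm F z - evm F y‖ ≤ 9 * m := by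
  rw [evm, evm, ← map_sub]
  exact norm_clm_le _ h

theorem evm_inv_le {F : Mat T} {Ji : A T} (hJ : Ji * F.det = 1) {z : Pt} (hz : z ∈ Om T) {K : ℝ}
    (hK : |ev Ji z| ≤ K) (h : ∀ i j, |ev (F i j) z| ≤ K) (x : E) :
    ‖x‖ ≤ 18 * K ^ 3 * ‖evm F z x‖ := by
  refine inv_le _ (J := ev Ji z) ?_ hK h x
  have h1 := congrArg (evA z hz) hJ
  rw [map_mul, map_one, AlgHom.map_det] at h1
  exact h1

theorem gz_mem_Om (g : E ≃ₗᵢ[ℝ] E) (z : Pt) : gz g z ∈ Om T ↔ z ∈ Om T := by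
  simp [Om, gz]

theorem eqvM_dtm {F : Mat T} (h : EqvM F) : EqvM (dtm F) := by
  intro g hg z x
  obtain ⟨c, s, hs, hgs⟩ := id hg
  ext i
  rw [hgs, evm_apply, evm_apply]
  by_cases hz : z ∈ Om T
  · have hz' : gz g z ∈ Om T := (gz_mem_Om g z).2 hz
    have h1 : HasDerivAt (fun y : ℝ => ∑ j, ev (F i j) (gz g z + y • vec lt) * g x j)
        (∑ j, ev (dtm F i j) (gz g z) * g x j) 0 :=
      HasDerivAt.fun_sum fun j _ => (hasDerivAt_zero lt (F i j) hz').mul_const _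
    have h2 : HasDerivAt (fun y : ℝ => s i * ∑ j, ev (F (i + c) j) (z + y • vec lt) * x j)
        (s i * ∑ j, ev (dtm F (i + c) j) z * x j) 0 :=
      (HasDerivAt.fun_sum fun j _ => (hasDerivAt_zero lt (F (i + c) j) hz).mul_const _).const_mul _
    have h3 : (fun y : ℝ => ∑ j, ev (F i j) (gz g z + y • vec lt) * g x j) =
        fun y : ℝ => s i * ∑ j, ev (F (i + c) j) (z + y • vec lt) * x j := by
      funext y
      have e : gz g z + y • vec lt = gz g (z + y • vec lt) := by simp [gz, vec]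
      rw [e, ← evm_apply, ← evm_apply, h g hg, hgs]
    rw [h3] at h1
    exact h1.unique h2
  · have hz' : gz g z ∉ Om T := fun h' => hz ((gz_mem_Om g z).1 h')
    simp [ev_out _ hz, ev_out _ hz']

end Pool.Agent.Lib.MP_fbbbeb_an.Cas.En
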