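import Mathlib
import Pool.Agent.Lib.MP_fbbbeb_an.Cas.Stmt
import Pool.Agent.Lib.MP_fbbbeb_an.Cas.EnvA

/-! From the central label to the envelope. -/

set_option autoImplicit false

noncomputable section

namespace Pool.Agent.Lib.MP_fbbbeb_an.Cas

open Pool.Agent.Lib.MP_fbbbeb_an.Pub
open scoped ContDiff Topology RealInnerProductSpace Matrix Nat

namespace En

variable {T : ℝ}

theorem dist_of_dc {a : E} (ha : ‖a‖ = 1) {δ : ℝ} (hδ : 0 ≤ δ) (h : dc 1 a ≤ δ ^ 2) :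
    ‖a - a0‖ ≤ δ := by
  have h1 : ‖a - a0‖ ^ 2 = dc 1 a := by
    rw [norm_sub_sq_real, ha, norm_a0, dc, ha]
    simp
    ring
  exact abs_le_of_sq_le_sq' (by rw [h1]; exact h) hδ |>.2

theorem dc_symm (g : E ≃ₗᵢ[ℝ] E) (a : E) : dc 1 (g.symm a) = dc g a := by
  have h : ⟪g.symm a, a0⟫ = ⟪a, g a0⟫ := by
    rw [← g.inner_map_map, g.apply_symm_apply]
  simp [dc, h]

/-- reduction of the phases -/
theorem phases {j : Fin 3} {δ : ℝ} (hδ : 0 ≤ δ) (ϑ : E)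
    (h : ∀ l : Fin 3, l < j → 1 - Real.cos (ϑ l) ≤ δ ^ 2) :
    ∃ ψ : E, (∀ l, |ψ l| ≤ 3 * δ) ∧ ∀ f : A T, In j.castSucc f → ∀ (t : ℝ) (a : E),
      ev f (t, a, ϑ) = ev f (t, a, ψ) := by
  have h1 : ∀ l : Fin 3, ∃ y : ℝ, |y| ≤ 3 * δ ∧ ∀ f : A T, In j.castSucc f → ∀ z : Pt,
      ev f (z + (ϑ l - y) • vec (lp l)) = ev f z := by
    intro l
    by_cases hl : l < j
    · obtain ⟨n, y, e, hy⟩ := near_node hδ (h l hl)
      refine ⟨y, hy, fun f _ z => ?_⟩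
      have : ϑ l - y = n * (2 * Real.pi) := by linarith
      rw [this, ev_shift_int]
    · refine ⟨0, by simpa using hδ, fun f hf z => ev_shift_of_pd (hf l ?_) z _⟩
      exact Fin.castSucc_le_castSucc_iff.2 (not_lt.1 hl)
  choose y hy hf using h1
  refine ⟨WithLp.toLp 2 y, fun l => hy l, fun f hin t a => ?_⟩
  have e : ((t, a, ϑ) : Pt) = ((t, a, WithLp.toLp 2 y) : Pt) + (ϑ 0 - y 0) • vec (lp 0) +
      (ϑ 1 - y 1) • vec (lp 1) + (ϑ 2 - y 2) • vec (lp 2) := by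
    refine Prod.ext (by simp [vec]) (Prod.ext (by simp [vec]) ?_)
    ext i
    fin_cases i <;> simp [vec]
  rw [e, hf 2 f hin, hf 1 f hin, hf 0 f hin]

theorem env_mem {N : Fin 4 → ℝ} {kv : Fin 3 → E} {δ δa : ℝ} {j : Fin 3} (hj : j ≠ 0) {z : Pt}
    (hz : z ∈ (cf T N kv δ δa).Env j.succ) :
    (∃ g ∈ Gp, dc g z.2.1 ≤ wd j δa ^ 2) ∧
      ∀ l : Fin 3, l < j → 1 - Real.cos (z.2.2 l) ≤ wd j δ ^ 2 := by
  fin_cases j
  · exact absurd rfl hj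
  · have h : z ∈ cone δa ∩ node δ 0 := hz
    refine ⟨h.1, fun l hl => ?_⟩
    fin_cases l
    · exact h.2
    · exact absurd hl (by decide)
    · exact absurd hl (by decide)
  · have h : z ∈ cone (δa ^ 3) ∩ node (δ ^ 3) 0 ∩ node (δ ^ 3) 1 := hz
    refine ⟨h.1.1, fun l hl => ?_⟩
    fin_cases l
    · exact h.1.2
    · exact h.2
    · exact absurd hl (by decide)

theorem wd_mem (j : Fin 3) {δ : ℝ} (h0 : 0 < δ) (h1 : δ ≤ 1 / 20) :
    0 < wd j δ ∧ wd j δ ≤ 1 / 20 := by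
  unfold wd
  split_ifs
  · refine ⟨by positivity, le_trans ?_ h1⟩
    exact pow_le_of_le_one h0.le (by linarith) (by norm_num)
  · exact ⟨h0, h1⟩

end En

open En in
theorem envSt (hG : GeoSt) (hP : PioSt) (hR : PrpSt) : EnvSt := by
  obtain ⟨_, _, hG⟩ := hG
  obtain ⟨C0, hP⟩ := hP.2
  refine ⟨8 * C0 + 11, ?_⟩
  intro T N kv δ' δa' j F Ji w K wmin ρ N0 hcf hj hK hρ hρ1 hN0 hin heq hF hFt hJ hJi hw0 hw hδ hδa
    hc z hz hzE
  obtain ⟨hOk, -, hk, -⟩ := hG T N kv δ' δa' hcf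
  obtain ⟨-, -, hkv, hδ0', hδ1', hδa0', hδa1'⟩ := hcf
  obtain ⟨⟨g, hg, hdc⟩, hph⟩ := env_mem hj hzE
  obtain ⟨hδ0, hδ1⟩ := wd_mem j hδ0' hδ1'
  obtain ⟨hδa0, hδa1⟩ := wd_mem j hδa0' hδa1'
  set δ : ℝ := wd j δ' with hδdef
  set δa : ℝ := wd j δa' with hδadef
  set fr := cf T N kv δ' δa' with hfr
  set a : E := g.symm z.2.1 with ha
  have hna : ‖a‖ = 1 := by rw [ha, g.symm.norm_map]; exact hz.2.2
  have hda : dc 1 a ≤ δa ^ 2 := by rw [ha, dc_symm]; exact hdc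
  have hdist : ‖a - a0‖ ≤ δa := dist_of_dc hna hδa0.le hda
  obtain ⟨ψ, hψ, hred⟩ := phases (T := T) hδ0.le z.2.2 hph
  have hz' : ((z.1, a, z.2.2) : Pt) ∈ Sp T := ⟨hz.1, hz.2.1, hna⟩
  have hgz : ∀ t : ℝ, gz g (t, a, z.2.2) = (t, z.2) := fun t => by simp [gz, ha]
  set k : E := evv (fr.k j) (z.1, a, z.2.2) with hkdef
  have hkz : evv (fr.k j) z = g k := by
    have := hOk.k_eqv j g hg (z.1, a, z.2.2)
    rw [hgz] at this
    exact this
  have hkf : k = kv j - ⟪kv j, a⟫ • a := by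
    have := hk j _ (Sp_sub T hz') (hda.trans (by nlinarith))
    simpa [hna] using this
  have hkd : ‖k - kv j‖ ≤ δa := by
    have e1 : ⟪kv j, a⟫ = ⟪kv j, a - a0⟫ := by rw [inner_sub_right, (hkv j).2, sub_zero]
    have e2 := abs_real_inner_le_norm (kv j) (a - a0)
    rw [(hkv j).1, one_mul] at e2
    rw [hkf, sub_sub_cancel_left, norm_neg, norm_smul, hna, mul_one, Real.norm_eq_abs, e1]
    exact e2.trans hdist
  have hk1 : 1 / 2 ≤ ‖k‖ ∧ ‖k‖ ≤ 2 := by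
    have e := abs_le.1 ((abs_norm_sub_norm_le k (kv j)).trans hkd)
    rw [(hkv j).1] at e
    constructor <;> linarith [e.1, e.2]
  rw [hkz]
  refine hR.2.2 T (2 * K) (fun t => evm F (t, a, z.2.2)) (fun t => evm (dtm F) (t, a, z.2.2))
    (fun t => evm F (t, z.2)) (fun t => evm (dtm F) (t, z.2)) k g w
    (fun t x => by rw [← hgz]; exact heq g hg _ x)
    (fun t x => by rw [← hgz]; exact eqvM_dtm heq g hg _ x) ?_
  have hK0 : 0 < K := by linarith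
  have hK1 : 1 ≤ K := by linarith
  have p5 : (32 : ℝ) ≤ K ^ 5 := le_trans (by norm_num) (pow_le_pow_left₀ (by norm_num) hK 5)
  have p7 : (128 : ℝ) ≤ K ^ 7 := le_trans (by norm_num) (pow_le_pow_left₀ (by norm_num) hK 7)
  have p8 : (256 : ℝ) ≤ K ^ 8 := le_trans (by norm_num) (pow_le_pow_left₀ (by norm_num) hK 8)
  have q1 : 9 * K ≤ K ^ 8 := by
    have : K ^ 8 = K ^ 7 * K := by ring
    nlinarith
  have q2 : 18 * K ^ 3 ≤ K ^ 8 := by
    have : K ^ 8 = K ^ 5 * K ^ 3 := by ring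
    have h3 : 0 < K ^ 3 := by positivity
    nlinarith
  set Q : ℝ := K ^ (8 * C0 + 11) with hQ
  have hQ0 : 0 < Q := by positivity
  have hra : 0 < ρ / N0 := by positivity
  have s1 : δa / (ρ / N0) ≤ 1 / Q := by
    rw [div_le_div_iff₀ hra hQ0]
    linarith
  have s2 : δ / ρ ≤ 1 / Q := by
    rw [div_le_div_iff₀ hρ hQ0]
    linarith
  have s3 : δa ≤ 1 / Q := by
    have : ρ / N0 ≤ 1 := (div_le_one (by linarith)).2 (by linarith)
    rw [le_div_iff₀ hQ0]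
    linarith
  have hQi : 0 < 1 / Q := by positivity
  have close : ∀ f : A T, GB 0 (rad ρ N0) w1 K f → In j.castSucc f → ∀ t ∈ Set.Ioo 0 T,
      |ev f (t, a, z.2.2) - ev f (cz t)| ≤ 15 * K * (1 / Q) := by
    intro f hf hi t ht
    rw [hred f hi]
    refine (lip hf hra hρ (fun _ => rfl) (fun _ => rfl) ht hdist (by linarith) hψ).trans ?_
    have e : 6 * K * δa / (ρ / N0) + 3 * K * (3 * δ) / ρ =
        6 * K * (δa / (ρ / N0)) + 9 * K * (δ / ρ) := by ring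
    rw [e]
    nlinarith [mul_le_mul_of_nonneg_left s1 hK0.le, mul_le_mul_of_nonneg_left s2 hK0.le]
  have hint : ∀ i l, In j.castSucc (dtm F i l) := by
    intro i l m hm
    show pd (lp m) (pd lt (F i l)) = 0
    rw [pd_comm, hin i l m hm, map_zero]
  have q3 : 9 * (15 * K * (1 / Q)) ≤ K ^ 9 * (1 / Q) := by
    have : K ^ 9 = K ^ 8 * K := by ring
    have h2 : 135 * K ≤ K ^ 9 := by nlinarith
    nlinarith [mul_le_mul_of_nonneg_right h2 hQi.le]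
  have q4 : δa ≤ K ^ 9 * (1 / Q) := by
    have h9 : 1 ≤ K ^ 9 := one_le_pow₀ hK1
    nlinarith [mul_le_mul_of_nonneg_right h9 hQi.le]
  refine hR.2.1 T K (K + (K ^ 8) ^ C0) wmin _ _ w hK0 hw0 (fun t ht => ?_) hc
  have hs : ((t, a, z.2.2) : Pt) ∈ Sp T := ⟨ht.1, ht.2, hna⟩
  have hs0 : cz t ∈ Sp T := ⟨ht.1, ht.2, norm_a0⟩
  have nb : ∀ G : Mat T, GBm 0 (rad ρ N0) w1 K G → ∀ y ∈ Sp T, ‖evm G y‖ ≤ K ^ 8 :=
    fun G hGm y hy => (norm_evm_le fun i l => gb_zero (hGm i l) hy).trans q1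
  have ib : ∀ y ∈ Sp T, ∀ x, ‖x‖ ≤ K ^ 8 * ‖evm F y x‖ := fun y hy x =>
    (evm_inv_le hJ (Sp_sub T hy) (gb_zero hJi hy) (fun i l => gb_zero (hF i l) hy) x).trans
      (mul_le_mul_of_nonneg_right q2 (norm_nonneg _))
  obtain ⟨m1, -, m2⟩ := hP (evm F (t, a, z.2.2)) (evm (dtm F) (t, a, z.2.2)) (evm F (cz t))
    (evm (dtm F) (cz t)) k (kv j) (K ^ 8) (K ^ 9 * (1 / Q)) (by linarith) (nb F hF _ hs)
    (nb _ hFt _ hs) (nb F hF _ hs0) (nb _ hFt _ hs0) (ib _ hs) (ib _ hs0)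
    (by nlinarith [hk1.1]) (by linarith [hk1.2]) (by rw [(hkv j).1]; linarith)
    (by rw [(hkv j).1]; linarith)
    ((norm_evm_sub_le fun i l => close _ (hF i l) (hin i l) t ht).trans q3)
    ((norm_evm_sub_le fun i l => close _ (hFt i l) (hint i l) t ht).trans q3) (hkd.trans q4)
  have hp : 0 < (K ^ 8) ^ C0 := by positivity
  refine ⟨(hw t ht).1, by linarith [(hw t ht).2], by linarith, ?_⟩
  have e : K * K * ((K ^ 8) ^ C0 * (K ^ 9 * (1 / Q))) = 1 := by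
    rw [hQ]
    field_simp
    ring
  have m3 : ‖Mop (evm F (t, a, z.2.2)) (evm (dtm F) (t, a, z.2.2)) k -
      Mop ((cenM F).f t) ((cenM F).f1 t) (kv j)‖ ≤ (K ^ 8) ^ C0 * (K ^ 9 * (1 / Q)) := m2
  have hKK : 2 * K ≤ K * K := by nlinarith
  calc _ ≤ K * K * ((K ^ 8) ^ C0 * (K ^ 9 * (1 / Q))) :=
        mul_le_mul hKK m3 (norm_nonneg _) (by positivity)
    _ = 1 := e

end Pool.Agent.Lib.MP_fbbbeb_an.Cas
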