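import Mathlib
import Pool.Agent.Lib.MP_fbbbeb_an.Cas.Typ
import Pool.Agent.Lib.MP_fbbbeb_an.Cas.Ev
import Pool.Agent.Lib.MP_fbbbeb_an.Cas.CycS

/-! The iteration with the bounds of the corrections that the end state needs. -/

set_option autoImplicit false

noncomputable section

namespace Pool.Agent.Lib.MP_fbbbeb_an.Cas

open Pool.Agent.Lib.MP_fbbbeb_an.Pub
open scoped ContDiff Topology RealInnerProductSpace Matrix Nat

namespace Fi

variable {T : ℝ} {fr : Frame T} {K : ℝ} {r r' : Let → ℝ} {w v : Fin 4 → ℝ → ℝ}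

theorem fb_w1 {y y' : ℝ} {R : Fin 4 → Vec T} (hfr : fr.Ok) (hw : Wt T K w v) (hy : 0 ≤ y)
    (hy' : K * y ≤ y') (hr : ∀ i, 0 ≤ r' i) (hr' : ∀ i, r' i ≤ r i)
    (h : FB fr r w (fun _ => y) R) : FB fr r' (fun _ => w1) (fun _ => y') R := fun l =>
  (h l).mono hfr hr hr' fun t ht => by
    have h1 := mul_le_mul_of_nonneg_left (hw.w_le_K l t ht) hy
    simp only [w1]
    linarith

theorem st_w1 {y y' : ℝ} {X : Vec T} (hfr : fr.Ok) (hw : Wt T K w v) (hy : 0 ≤ y)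
    (hy' : K * y ≤ y') (hr : ∀ i, 0 ≤ r' i) (hr' : ∀ i, r' i ≤ r i)
    (h : St fr r w (fun _ => y) X) : St fr r' (fun _ => w1) (fun _ => y') X := by
  obtain ⟨⟨R1, h1, h1'⟩, ⟨R2, h2, h2'⟩⟩ := h
  exact ⟨⟨R1, fb_w1 hfr hw hy hy' hr hr' h1, h1'⟩, ⟨R2, fb_w1 hfr hw hy hy' hr hr' h2, h2'⟩⟩

end Fi

theorem finSt (hI : IterSt) : FinSt := by
  obtain ⟨C, hC⟩ := hI
  refine ⟨C + 73, ?_⟩
  intro T fr K θ ε r w v X0 W Ji c M hfr hR hW hB hra hθ hε hc hcε hS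
  have hK := hR.K_one
  have hK0 := hR.K_pos
  have hp : ∀ n, n ≤ C + 73 → K ^ n * c ≤ K ^ (C + 73) * c := fun n hn =>
    mul_le_mul_of_nonneg_right (pow_le_pow_right₀ hK hn) hc
  obtain ⟨Cr, hE, hF, hSt⟩ := hC T fr K θ ε r w v X0 W Ji c M hfr hR hW hB hra hθ
    ((mul_le_mul_of_nonneg_left (pow_le_pow_right₀ hK (by omega)) hR.e_pos.le).trans hε) hc
    ((hp C (by omega)).trans hcε) hS
  have hr := hR.r_pos hfr
  have h8 : ∀ i, 0 ≤ dvr r 8 i := fun i => by have := hr i; simp only [dvr]; positivity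
  have h2 : ∀ i, 0 ≤ dvr r 2 i := fun i => by have := hr i; simp only [dvr]; positivity
  have h82 : ∀ i, dvr r 8 i ≤ dvr r 2 i := fun i => by
    have := hr i
    simp only [dvr]
    linarith
  have hy : 0 ≤ K ^ C * c := by positivity
  have hR2 : Reg fr (K ^ 2) θ ε (dvr r 2) :=
    (hR.radius hfr (x := 2) one_le_two (fun i => by have := hr i; simp only [dvr]; linarith)
      fun i => by simp only [dvr]; linarith).monoK hfr (by nlinarith [hR.K_two])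
  have hs2 : ∀ i, dvr r 8 i ≤ sh θ 2 (dvr r 2) i := fun i => by
    have h1 := hr i
    have h3 : (1 / 2 : ℝ) ^ 2 ≤ θ ^ 2 := pow_le_pow_left₀ (by norm_num) hR.th_half 2
    simp only [dvr, sh]
    nlinarith
  have hs1 : ∀ i, dvr r 8 i ≤ sh θ 1 (dvr r 2) i := fun i =>
    (hs2 i).trans (hR2.sh_anti hfr one_le_two i)
  have hF1 : FB fr (dvr r 2) (fun _ => w1) (fun _ => K ^ (C + 1) * c) Cr :=
    Fi.fb_w1 hfr hW hy (le_of_eq (by ring)) h2 (fun _ => le_rfl) hF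
  have hD : ∀ l, GBm 0 (sh θ 1 (dvr r 2)) w1 (K ^ (C + 21) * c) (Dm fr (Cr l)) := fun l => by
    have h := SB.Dm hfr hR2 (fun t _ => by simp only [w1]; positivity) (hF1 l)
    rwa [show (K ^ 2) ^ 10 * (K ^ (C + 1) * c) = K ^ (C + 21) * c by ring] at h
  have hD1 : ∀ l, GBm 0 (sh θ 2 (dvr r 2)) w1 (K ^ (C + 41) * c) (dtm (Dm fr (Cr l))) := fun l => by
    have h := (hR2.sh hfr 1).dtm hfr (hD l)
    rwa [sh_sh, show ((K ^ 2) ^ (1 + 1)) ^ 5 * (K ^ (C + 21) * c) = K ^ (C + 41) * c by ring] at h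
  have hD2 : ∀ l, GBm 0 (sh θ 1 (sh θ 2 (dvr r 2))) w1 (K ^ (C + 71) * c)
      (dtm (dtm (Dm fr (Cr l)))) := fun l => by
    have h := (hR2.sh hfr 2).dtm hfr (hD1 l)
    rwa [show ((K ^ 2) ^ (2 + 1)) ^ 5 * (K ^ (C + 41) * c) = K ^ (C + 71) * c by ring] at h
  refine ⟨Cr, hE, hF.mono hfr hW.w_nonneg h8 h82 fun _ => hp C (by omega),
    Fi.fb_w1 hfr hW hy ((le_of_eq (by ring)).trans (hp (C + 1) (by omega))) h8 h82 hF,
    fun l => ⟨(hD l).mono h8 hs1 fun t _ => ?_, (hD1 l).mono h8 hs2 fun t _ => ?_⟩,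
    fun l z hz => ?_,
    Fi.st_w1 hfr hW (by positivity) (le_of_eq (by ring)) h8 h82 hSt⟩
  · simpa [w1] using hp (C + 21) (by omega)
  · simpa [w1] using hp (C + 41) (by omega)
  · refine (norm_evm_le fun i m => (hD2 l i m).abs_le hz).trans ?_
    have h3 : (3 : ℝ) ≤ K ^ 2 := by nlinarith [hR.K_two]
    have h4 : 0 ≤ K ^ (C + 71) * c := by positivity
    calc 3 * (K ^ (C + 71) * c * w1 z.1) = 3 * (K ^ (C + 71) * c) := by simp [w1]
      _ ≤ K ^ 2 * (K ^ (C + 71) * c) := mul_le_mul_of_nonneg_right h3 h4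
      _ = K ^ (C + 73) * c := by ring

end Pool.Agent.Lib.MP_fbbbeb_an.Cas
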