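import Mathlib
import Pool.Agent.Lib.MP_fbbbeb_an.Cas.Stmt
import Pool.Agent.Lib.MP_fbbbeb_an.Lag.Bij

set_option autoImplicit false

noncomputable section

namespace Pool.Agent.Lib.MP_fbbbeb_an.Cas

open Pool.Agent.Lib.MP_fbbbeb_an.Pub

theorem flowSt : FlowSt := by
  rintro a b X hs hh hd ⟨t0, ht0, hn⟩
  have h : Lag.Hom1 (Set.Ioo a b) fun z : ℝ × E => X z.1 z.2 :=
    ⟨hs, fun z hz l hl => hh z.1 hz.1 z.2 hz.2 l hl⟩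
  have e : ∀ z ∈ Lag.Om (Set.Ioo a b),
      Lag.Da (fun z : ℝ × E => X z.1 z.2) z = fderiv ℝ (X z.1) z.2 := fun z hz =>
    (Lag.Da_eq (Lag.dfa isOpen_Ioo h.sm hz)).symm
  obtain ⟨Y, hY, hXY⟩ := h.inverse isOpen_Ioo isPreconnected_Ioo
    (fun z hz => Lag.inj_of_det (by rw [e z hz]; exact hd z.1 hz.1 z.2 hz.2)) ht0 fun x hx => by
      rw [e (t0, x) ⟨ht0, by rintro rfl; simp at hx⟩]
      exact hn x hx
  refine ⟨fun t x => Y (t, x), hY.sm, fun t ht x hx => ?_⟩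
  obtain ⟨h1, h2, h3, h4⟩ := hXY (t, x) ⟨ht, hx⟩
  exact ⟨h1, h2, h3, h4, fun s hs => hY.hom (t, x) ⟨ht, hx⟩ s hs⟩

end Pool.Agent.Lib.MP_fbbbeb_an.Cas
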