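import Mathlib
import Pool.Agent.Lib.MP_fbbbeb_an.Cas.Bmp
import Pool.Agent.Lib.MP_fbbbeb_an.Cas.Chain

/-! Geometry of the orbit of the central label; functions of the label only. -/

set_option autoImplicit false

noncomputable section

namespace Pool.Agent.Lib.MP_fbbbeb_an.Cas

open Pool.Agent.Lib.MP_fbbbeb_an.Pub
open scoped ContDiff Topology RealInnerProductSpace Matrix Nat

variable {T : ℝ}

namespace G0

theorem a0_apply (i : Fin 3) : a0 i = (Real.sqrt 14)⁻¹ * ((i.val : ℝ) + 1) := by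
  fin_cases i <;> simp [a0] <;> norm_num

theorem isq : (Real.sqrt 14)⁻¹ * (Real.sqrt 14)⁻¹ = 1 / 14 := by
  rw [← mul_inv, Real.mul_self_sqrt (by norm_num)]; norm_num

theorem inner_eq (x y : E) : ⟪x, y⟫ = x 0 * y 0 + x 1 * y 1 + x 2 * y 2 := by
  simp [PiLp.inner_apply, Fin.sum_univ_three, mul_comm]

theorem inner_a0 : ⟪a0, a0⟫ = 1 := by
  rw [inner_eq, a0_apply, a0_apply, a0_apply]
  have := isq
  simp only [Fin.val_zero, Fin.val_one, Fin.val_two]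
  push_cast
  nlinarith

theorem inner_a0_le {g : E ≃ₗᵢ[ℝ] E} (hg : g ∈ Gp) (h1 : g ≠ 1) : ⟪a0, g a0⟫ ≤ 6 / 7 := by
  obtain ⟨c, s, hs, hg⟩ := hg
  have key : c = 0 → s 0 = 1 → s 1 = 1 → s 2 = 1 → False := by
    rintro rfl h0 h1' h2
    apply h1
    ext a i
    rw [hg]
    fin_cases i <;> simp [h0, h1', h2]
  rw [inner_eq, hg, hg, hg]
  simp only [a0_apply]
  have hi := isq
  generalize (Real.sqrt 14)⁻¹ = w at hi ⊢
  have hc : c = 0 ∨ c = 1 ∨ c = 2 := by fin_cases c <;> simp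
  rcases hc with rfl | rfl | rfl <;> rcases hs 0 with h0 | h0 <;> rcases hs 1 with h1' | h1' <;>
    rcases hs 2 with h2 | h2 <;> simp only [h0, h1', h2] at key ⊢ <;>
    first
      | exact (key trivial trivial trivial trivial).elim
      | (norm_num [Fin.add_def]
         nlinarith)

/-- a function that is constant along the lines of a letter has derivative zero -/
theorem pd_mk_zero (f : Pt → ℝ) (i : Let) (h : ∀ z : Pt, ∀ s : ℝ, f (z + s • vec i) = f z) :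
    pd i (mkA T f) = 0 := by
  by_cases hf : Good T f
  swap
  · have : mkA T f = 0 := by simp [mkA, hf]
    rw [this, map_zero]
  refine A_ext fun z hz => ?_
  have h1 := hasDerivAt_ev i (mkA T f) z 0 (by simpa using hz)
  have hc : Continuous fun s : ℝ => z + s • vec i := by fun_prop
  have h2 : ∀ᶠ s : ℝ in 𝓝 0, z + s • vec i ∈ Om T :=
    hc.continuousAt.eventually_mem ((isOpen_Om T).mem_nhds (by simpa using hz))
  have h3 : (fun s : ℝ => ev (mkA T f) (z + s • vec i)) =ᶠ[𝓝 0] fun _ => f z :=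
    h2.mono fun s hs => (ev_mkA hf hs).trans (h z s)
  have h4 := (hasDerivAt_const (0 : ℝ) (f z)).congr_of_eventuallyEq h3
  simpa using h1.unique h4

theorem smul_mem (z : Pt) {s : ℝ} (hs : 0 < s) :
    ((z.1, s • z.2.1, z.2.2) : Pt) ∈ Om T ↔ z ∈ Om T := by
  simp [Om, hs.ne']

theorem gz_mem (g : E ≃ₗᵢ[ℝ] E) (z : Pt) : gz g z ∈ Om T ↔ z ∈ Om T := by
  simp [gz, Om]

end G0

theorem a0_norm : ‖a0‖ = 1 := by
  have h := G0.inner_a0
  rw [real_inner_self_eq_norm_sq] at h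
  nlinarith [norm_nonneg a0]

theorem a0_ne : a0 ≠ 0 := fun h => by
  have := a0_norm
  rw [h] at this
  simp at this

theorem orbit_sep {g g' : E ≃ₗᵢ[ℝ] E} (hg : g ∈ Gp) (hg' : g' ∈ Gp) (h : g ≠ g') :
    ⟪g a0, g' a0⟫ ≤ 6 / 7 := by
  have h1 : g⁻¹ * g' ≠ 1 := fun e => h (inv_mul_eq_one.1 e)
  have h2 := G0.inner_a0_le (Gp.mul_mem (Gp.inv_mem hg) hg') h1
  rw [← g.inner_map_map] at h2
  have e : g ((g⁻¹ * g') a0) = g' a0 := g.apply_symm_apply (g' a0)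
  rwa [e] at h2

theorem dc_eq (g : E ≃ₗᵢ[ℝ] E) {a : E} (ha : a ≠ 0) : dc g a = ‖‖a‖⁻¹ • a - g a0‖ ^ 2 := by
  have hn : ‖a‖ ≠ 0 := norm_ne_zero_iff.2 ha
  rw [norm_sub_sq_real, norm_smul, norm_inv, norm_norm, inv_mul_cancel₀ hn,
    LinearIsometryEquiv.norm_map, a0_norm, real_inner_smul_left, dc]
  field_simp
  ring

theorem dc_zero (g : E ≃ₗᵢ[ℝ] E) : dc g 0 = 2 := by simp [dc]

theorem dc_nonneg (g : E ≃ₗᵢ[ℝ] E) (a : E) : 0 ≤ dc g a := by
  by_cases ha : a = 0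
  · simp [dc, ha]
  · rw [dc_eq g ha]; positivity

theorem dc_smul (g : E ≃ₗᵢ[ℝ] E) {s : ℝ} (hs : 0 < s) (a : E) : dc g (s • a) = dc g a := by
  rw [dc, dc, real_inner_smul_left, norm_smul, Real.norm_of_nonneg hs.le]
  by_cases h : ‖a‖ = 0
  · simp [h]
  · field_simp

theorem dc_act (h g : E ≃ₗᵢ[ℝ] E) (a : E) : dc (h * g) (h a) = dc g a := by
  rw [dc, dc, LinearIsometryEquiv.norm_map]
  congr 3
  exact h.inner_map_map a (g a0)

theorem dc_a0 : dc 1 a0 = 0 := by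
  have : (1 : E ≃ₗᵢ[ℝ] E) a0 = a0 := rfl
  rw [dc, this, G0.inner_a0, a0_norm]; norm_num

theorem dc_sep {g g' : E ≃ₗᵢ[ℝ] E} (hg : g ∈ Gp) (hg' : g' ∈ Gp) (h : g ≠ g') {a : E}
    (ha : dc g a ≤ 1 / 25) : 1 / 10 ≤ dc g' a := by
  have ha0 : a ≠ 0 := by
    rintro rfl
    rw [dc_zero] at ha
    norm_num at ha
  have hs : 2 / 7 ≤ ‖g a0 - g' a0‖ ^ 2 := by
    rw [norm_sub_sq_real, LinearIsometryEquiv.norm_map, LinearIsometryEquiv.norm_map, a0_norm]
    linarith [orbit_sep hg hg' h]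
  rw [dc_eq _ ha0] at ha ⊢
  have a1 : ‖‖a‖⁻¹ • a - g a0‖ ≤ 1 / 5 := by nlinarith [norm_nonneg (‖a‖⁻¹ • a - g a0)]
  have a3 : ‖g a0 - g' a0‖ ≤ ‖‖a‖⁻¹ • a - g' a0‖ + ‖‖a‖⁻¹ • a - g a0‖ := by
    have e : g a0 - g' a0 = (‖a‖⁻¹ • a - g' a0) - (‖a‖⁻¹ • a - g a0) := by abel
    rw [e]
    exact norm_sub_le _ _
  have a4 : 53 / 100 ≤ ‖g a0 - g' a0‖ := by nlinarith [norm_nonneg (g a0 - g' a0)]
  nlinarith [norm_nonneg (‖a‖⁻¹ • a - g' a0)]

/-- smooth off the origin -/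
def SmL (f : E → ℝ) : Prop := ∀ a : E, a ≠ 0 → ContDiffAt ℝ ∞ f a

theorem smL_norm : SmL fun a => ‖a‖ := fun _ ha => contDiffAt_norm ℝ ha

theorem smL_ninv : SmL fun a => ‖a‖⁻¹ := fun a ha =>
  (smL_norm a ha).inv (norm_ne_zero_iff.2 ha)

theorem smL_dc (g : E ≃ₗᵢ[ℝ] E) : SmL (dc g) := fun a ha =>
  contDiffAt_const.sub ((contDiffAt_const.mul (contDiffAt_id.inner ℝ contDiffAt_const)).div
    (smL_norm a ha) (norm_ne_zero_iff.2 ha))

theorem smL_lin (k : E) : SmL fun a => ⟪k, a⟫ := fun _ _ =>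
  contDiffAt_const.inner ℝ contDiffAt_id

theorem smL_const (c : ℝ) : SmL fun _ => c := fun _ _ => contDiffAt_const

theorem SmL.add {f g : E → ℝ} (hf : SmL f) (hg : SmL g) : SmL fun a => f a + g a :=
  fun a ha => (hf a ha).add (hg a ha)

theorem SmL.mul {f g : E → ℝ} (hf : SmL f) (hg : SmL g) : SmL fun a => f a * g a :=
  fun a ha => (hf a ha).mul (hg a ha)

theorem SmL.sum {ι : Type*} (s : Finset ι) {f : ι → E → ℝ} (hf : ∀ i, SmL (f i)) :
    SmL fun a => ∑ i ∈ s, f i a := fun a ha => ContDiffAt.sum fun i _ => hf i a ha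

theorem smL_bmp_dc (c : ℝ) (g : E ≃ₗᵢ[ℝ] E) : SmL fun a => bmp (c * dc g a) := fun a ha =>
  bmp_smooth.contDiffAt.comp a (contDiffAt_const.mul (smL_dc g a ha))

/-- function of the label only -/
def lab (T : ℝ) (f : E → ℝ) : A T := mkA T fun z => f z.2.1

theorem good_lab {f : E → ℝ} (hf : SmL f) : Good T fun z => f z.2.1 :=
  ⟨fun z hz => ((hf _ hz.2.2).comp z (contDiffAt_fst.comp z contDiffAt_snd)).contDiffWithinAt,
    fun j z _ => by simp [vec]⟩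

theorem ev_lab {f : E → ℝ} (hf : SmL f) {z : Pt} (hz : z ∈ Om T) : ev (lab T f) z = f z.2.1 :=
  ev_mkA (good_lab hf) hz

theorem pd_lt_lab (f : E → ℝ) : pd lt (lab T f) = 0 :=
  G0.pd_mk_zero _ _ fun z s => by simp [vec]

theorem pd_lp_lab (f : E → ℝ) (j : Fin 3) : pd (lp j) (lab T f) = 0 :=
  G0.pd_mk_zero _ _ fun z s => by simp [vec]

theorem ev_pd_la_lab {f : E → ℝ} (hf : SmL f) (i : Fin 3) {z : Pt} (hz : z ∈ Om T) :
    ev (pd (la i) (lab T f)) z = fderiv ℝ f z.2.1 (EuclideanSpace.single i 1) := by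
  have h1 : ev (lab T f) =ᶠ[𝓝 z] fun y => f y.2.1 :=
    Filter.eventually_of_mem ((isOpen_Om T).mem_nhds hz) fun _ hy => ev_lab hf hy
  have h2 : HasFDerivAt (fun y : Pt => f y.2.1)
      ((fderiv ℝ f z.2.1).comp ((ContinuousLinearMap.fst ℝ E E).comp
        (ContinuousLinearMap.snd ℝ ℝ (E × E)))) z :=
    ((hf _ hz.2.2).differentiableAt (by simp)).hasFDerivAt.comp z
      (((ContinuousLinearMap.fst ℝ E E).comp (ContinuousLinearMap.snd ℝ ℝ (E × E))).hasFDerivAt)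
  rw [ev_pd _ _ hz, h1.fderiv_eq, h2.fderiv]
  simp [vec]

theorem hom_lab {f : E → ℝ} (hf : SmL f) {d : ℤ}
    (hh : ∀ a : E, a ≠ 0 → ∀ s : ℝ, 0 < s → f (s • a) = s ^ d * f a) : Hom d (lab T f) := by
  intro z s hs
  by_cases hz : z ∈ Om T
  · rw [ev_lab hf hz, ev_lab hf ((G0.smul_mem z hs).2 hz)]
    exact hh _ hz.2.2 s hs
  · rw [ev_out _ hz, ev_out _ fun h => hz ((G0.smul_mem z hs).1 h), mul_zero]

theorem invG_lab {f : E → ℝ} (hf : SmL f) (hh : ∀ g ∈ Gp, ∀ a : E, a ≠ 0 → f (g a) = f a) :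
    InvG (lab T f) := by
  intro g hg z
  by_cases hz : z ∈ Om T
  · rw [ev_lab hf hz, ev_lab hf ((G0.gz_mem g z).2 hz)]
    exact hh g hg _ hz.2.2
  · rw [ev_out _ hz, ev_out _ fun h => hz ((G0.gz_mem g z).1 h)]

theorem lab_add {f g : E → ℝ} (hf : SmL f) (hg : SmL g) :
    lab T (fun a => f a + g a) = lab T f + lab T g :=
  A_ext fun z hz => by rw [ev_add, ev_lab (hf.add hg) hz, ev_lab hf hz, ev_lab hg hz]

theorem lab_mul {f g : E → ℝ} (hf : SmL f) (hg : SmL g) :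
    lab T (fun a => f a * g a) = lab T f * lab T g :=
  A_ext fun z hz => by rw [ev_mul, ev_lab (hf.mul hg) hz, ev_lab hf hz, ev_lab hg hz]

theorem lab_sum {ι : Type*} (s : Finset ι) {f : ι → E → ℝ} (hf : ∀ i, SmL (f i)) :
    lab T (fun a => ∑ i ∈ s, f i a) = ∑ i ∈ s, lab T (f i) :=
  A_ext fun z hz => by
    rw [ev_sum, ev_lab (SmL.sum s hf) hz]
    exact Finset.sum_congr rfl fun i _ => (ev_lab (hf i) hz).symm

theorem lab_const (c : ℝ) : lab T (fun _ => c) = algebraMap ℝ (A T) c :=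
  A_ext fun z hz => by rw [ev_lab (smL_const c) hz, ev_algebraMap c hz]

/-- the geometric constant -/
def Cg : ℝ := 10 ^ 8

theorem GB_xA {r : Let → ℝ} (hr : ∀ i, 0 ≤ r i) (h1 : ∀ i, r (la i) ≤ 1) (i : Fin 3) :
    GB 1 r w1 1 (xA T i) := GBv_xA hr h1 i

theorem pd_la_lin (k : E) (i : Fin 3) :
    pd (la i) (lab T fun a => ⟪k, a⟫) = algebraMap ℝ (A T) (k i) :=
  A_ext fun z hz => by
    rw [ev_pd_la_lab (smL_lin k) i hz, ev_algebraMap _ hz]
    have : (fun a : E => ⟪k, a⟫) = innerSL ℝ k := rfl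
    rw [this, ContinuousLinearMap.fderiv]
    simp [EuclideanSpace.inner_single_right]

theorem GB_lin {r : Let → ℝ} (hr : ∀ i, 0 ≤ r i) (h1 : ∀ i, r (la i) ≤ 1) (k : E) :
    GB 1 r w1 ‖k‖ (lab T fun a => ⟪k, a⟫) := by
  refine ⟨hom_lab (smL_lin k) fun a _ s _ => by simp [real_inner_smul_right], fun z hz => ?_⟩
  have hz' := Sp_sub T hz
  refine BdAt.of_lab (r' := fun _ => 1) ?_ (pd_lt_lab _) (pd_lp_lab _) hr h1
  intro u
  have e1 : rpr (fun _ => 1) u = 1 := by simp [rpr]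
  have e2 := OneVar.one_le_fact_sq u.length
  have e3 := norm_nonneg k
  rw [e1, mul_one, w1, mul_one]
  refine le_trans ?_ (le_mul_of_one_le_right e3 e2)
  rcases List.eq_nil_or_concat u with rfl | ⟨u, i, rfl⟩
  · rw [pw_nil, ev_lab (smL_lin k) hz']
    simpa [hz.2.2] using abs_real_inner_le_norm k z.2.1
  · rw [List.concat_eq_append, pw_append, pw_cons, pw_nil]
    rcases i with _ | i | j
    · rw [pd_lt_lab]; simp
    · rw [pd_la_lin]
      rcases u with _ | ⟨l, u⟩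
      · rw [pw_nil, ev_algebraMap _ hz']
        simpa using PiLp.norm_apply_le k i
      · rw [pw_eq_zero_of_mem (i := l) (by simp) (Derivation.map_algebraMap _ _)]
        simp
    · rw [pd_lp_lab]; simp

namespace G0

/-- squared length -/
def qA (T : ℝ) : A T := ∑ i, xA T i * xA T i

theorem ev_qA {z : Pt} (hz : z ∈ Om T) : ev (qA T) z = ‖z.2.1‖ ^ 2 := by
  rw [qA, ev_sum, EuclideanSpace.real_norm_sq_eq]
  exact Finset.sum_congr rfl fun i _ => by rw [ev_mul, ev_xA i hz, sq]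

theorem qA_pos (z : Pt) (hz : z ∈ Om T) : ev (qA T) z ∈ Set.Ioi (0 : ℝ) := by
  rw [ev_qA hz]
  exact pow_pos (norm_pos_iff.2 hz.2.2) 2

theorem bd_qA {z : Pt} (hz : z ∈ Sp T) : BdAt (fun _ => 1) 9 (qA T) z := by
  have h0 : ∀ i : Let, (0 : ℝ) ≤ (fun _ => 1) i := fun _ => zero_le_one
  have h := GB.sum h0 Finset.univ (M := fun _ => 3 * (1 * 1)) (d := 1 + 1) (w := w1)
    (f := fun i => xA T i * xA T i) fun i _ =>
      GB.mul1 h0 (GB_xA h0 (fun _ => le_rfl) i) (GB_xA h0 (fun _ => le_rfl) i)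
  have h2 := h.2 z hz
  simp only [w1] at h2
  refine h2.mono h0 (fun _ => le_rfl) ?_
  simp
  norm_num

/-- powers of the length -/
theorem bd_pow {α : ℝ} (hα : |α| ≤ 1) {f : E → ℝ} (hf : SmL f)
    (he : ∀ a : E, a ≠ 0 → f a = (‖a‖ ^ 2) ^ α) {r : Let → ℝ} (hr : ∀ i, 0 ≤ r i)
    (h1 : ∀ i, 300 * r (la i) ≤ 1) {z : Pt} (hz : z ∈ Sp T) : BdAt r 1 (lab T f) z := by
  have hb : ContDiffOn ℝ ∞ (fun y : ℝ => y ^ α) (Set.Ioi 0) := fun y hy =>
    (Real.contDiffAt_rpow_const_of_ne (ne_of_gt hy)).contDiffWithinAt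
  have e : lab T f = cmp (fun y : ℝ => y ^ α) (qA T) := A_ext fun y hy => by
    rw [ev_lab hf hy, ev_cmp isOpen_Ioi hb qA_pos hy, ev_qA hy, he _ hy.2.2]
  have h := BdAt.cmp (M' := 1) (β := 1) isOpen_Ioi hb qA_pos (Sp_sub T hz) (fun _ => one_pos) one_pos
    (by norm_num) (bd_qA hz) fun n => by
      rw [ev_qA (Sp_sub T hz), hz.2.2]
      have := OneVar.rpow_le_one hα one_pos n
      have h2 := OneVar.fact_le_sq n
      simp only [inv_one, one_pow, one_mul, Real.one_rpow, mul_one] at this ⊢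
      exact this.trans h2
  rw [← e] at h
  refine h.of_lab (pd_lt_lab _) (pd_lp_lab _) hr fun i => ?_
  have := h1 i
  simp only [dvr]
  linarith [hr (la i)]

end G0

theorem GB_norm {r : Let → ℝ} (hr : ∀ i, 0 ≤ r i) (h1 : ∀ i, 300 * r (la i) ≤ 1) :
    GB 1 r w1 1 (nA T) := by
  refine ⟨hom_lab smL_norm fun a _ s hs => by
    rw [norm_smul, Real.norm_of_nonneg hs.le, zpow_one], fun z hz => ?_⟩
  simp only [w1, mul_one]
  refine G0.bd_pow (α := 1 / 2) (by rw [abs_le]; constructor <;> norm_num) smL_norm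
    (fun a _ => ?_) hr h1 hz
  rw [← Real.sqrt_eq_rpow, Real.sqrt_sq (norm_nonneg a)]

theorem GB_ninv {r : Let → ℝ} (hr : ∀ i, 0 ≤ r i) (h1 : ∀ i, 300 * r (la i) ≤ 1) :
    GB (-1) r w1 1 (lab T fun a => ‖a‖⁻¹) := by
  refine ⟨hom_lab smL_ninv fun a _ s hs => by
    rw [norm_smul, Real.norm_of_nonneg hs.le, zpow_neg_one, mul_inv], fun z hz => ?_⟩
  simp only [w1, mul_one]
  refine G0.bd_pow (α := -(1 / 2)) (by rw [abs_le]; constructor <;> norm_num) smL_ninv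
    (fun a _ => ?_) hr h1 hz
  rw [Real.rpow_neg (by positivity), ← Real.sqrt_eq_rpow, Real.sqrt_sq (norm_nonneg a)]

theorem GB_dc {r : Let → ℝ} (hr : ∀ i, 0 ≤ r i) (h1 : ∀ i, 300 * r (la i) ≤ 1)
    (g : E ≃ₗᵢ[ℝ] E) : GB 0 r w1 8 (lab T (dc g)) := by
  have h1' : ∀ i, r (la i) ≤ 1 := fun i => by linarith [h1 i, hr (la i)]
  have e : lab T (dc g) = (2 : ℝ) • (1 : A T) -
      (2 : ℝ) • (lab T (fun a => ⟪g a0, a⟫) * lab T fun a => ‖a‖⁻¹) := A_ext fun z hz => by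
    rw [ev_lab (smL_dc g) hz, ev_sub, ev_smul, ev_smul, ev_mul, ev_one hz, ev_lab (smL_lin _) hz,
      ev_lab smL_ninv hz, dc, real_inner_comm]
    ring
  have h2 := (GB.mul1 hr (GB_lin (T := T) hr h1' (g a0)) (GB_ninv hr h1)).cast
    (show (1 : ℤ) + -1 = 0 by norm_num)
  have h3 := GB.sub hr ((GB.one (T := T) hr).smul 2) (h2.smul 2)
  rw [e]
  refine h3.monoM (fun _ _ => zero_le_one) ?_
  rw [LinearIsometryEquiv.norm_map, a0_norm]
  norm_num

/-- `hb` is `bmp_gev` of `Cas/Bmp` -/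
theorem GB_bmp_dc (hs : ContDiff ℝ ∞ bmp)
    (hb : ∀ (n : ℕ) (x : ℝ), |iteratedDeriv n bmp x| ≤ 512 ^ n * (n ! : ℝ) ^ 2)
    {r : Let → ℝ} (hr : ∀ i, 0 ≤ r i) {c : ℝ} (hc : 1 ≤ c) (h1 : ∀ i, Cg * c * r (la i) ≤ 1)
    (g : E ≃ₗᵢ[ℝ] E) : GB 0 r w1 1 (lab T fun a => bmp (c * dc g a)) := by
  refine ⟨hom_lab (smL_bmp_dc c g) fun a _ s hs => by rw [dc_smul g hs]; simp, fun z hz => ?_⟩
  simp only [w1, mul_one]
  have hc0 : 0 < c := by linarith
  have e : (lab T fun a => bmp (c * dc g a)) = cmp bmp (c • lab T (dc g)) := A_ext fun y hy => by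
    rw [ev_lab (smL_bmp_dc c g) hy, ev_cmp isOpen_univ hs.contDiffOn (fun _ _ => trivial) hy,
      ev_smul, ev_lab (smL_dc g) hy]
  have h2 := ((GB_dc (T := T) (r := fun _ => 1 / 300) (fun _ => by norm_num)
    (fun _ => by norm_num) g).smul c).2 z hz
  simp only [w1, mul_one, abs_of_pos hc0] at h2
  have h := BdAt.cmp (M' := 1) (β := 1 / 512) isOpen_univ hs.contDiffOn (fun _ _ => trivial)
    (Sp_sub T hz) (fun _ => by norm_num) (by norm_num) (by linarith) h2 fun n => by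
      have h3 := mul_le_mul_of_nonneg_right (hb n (ev (c • lab T (dc g)) z))
        (show (0 : ℝ) ≤ (1 / 512) ^ n by positivity)
      refine h3.trans (le_of_eq ?_)
      rw [one_div, inv_pow]
      field_simp
  rw [← e] at h
  refine h.of_lab (pd_lt_lab _) (pd_lp_lab _) hr fun i => ?_
  have h4 := h1 i
  have h5 := mul_nonneg hc0.le (hr (la i))
  simp only [dvr, Cg] at h4 ⊢
  rw [le_div_iff₀ (by positivity)]
  nlinarith

end Pool.Agent.Lib.MP_fbbbeb_an.Cas
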