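import Mathlib
import Pool.Agent.Lib.MP_fbbbeb_an.Cas.Geo0
import Pool.Agent.Lib.MP_fbbbeb_an.Cas.Bmp

/-! The canonical frame: phase function, filler, gradient near the central orbit. -/

set_option autoImplicit false

noncomputable section

namespace Pool.Agent.Lib.MP_fbbbeb_an.Cas

open Pool.Agent.Lib.MP_fbbbeb_an.Pub
open scoped ContDiff Topology RealInnerProductSpace Matrix Nat

namespace Ge

variable {T : ℝ}

theorem sm_inner (k : E) : SmL fun a => ⟪k, a⟫ := fun _ _ =>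
  contDiffAt_const.inner ℝ contDiffAt_id

theorem sm_mul {f g : E → ℝ} (hf : SmL f) (hg : SmL g) : SmL fun a => f a * g a :=
  fun a ha => (hf a ha).mul (hg a ha)

theorem sm_lin (k : E) : SmL fun a => ⟪k, a⟫ / ‖a‖ := fun a ha =>
  (sm_inner k a ha).div (smL_norm a ha) (norm_ne_zero_iff.2 ha)

theorem sm_bmp (c : ℝ) (g : E ≃ₗᵢ[ℝ] E) : SmL fun a => bmp (c * dc g a) := fun a ha =>
  bmp_smooth.contDiffAt.comp a (contDiffAt_const.mul (smL_dc g a ha))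

theorem sm_Ph (k : E) : SmL (Ph k) := fun a ha =>
  ContDiffAt.sum fun g _ => sm_mul (sm_bmp 25 g.1) (sm_lin (g.1 k)) a ha

/-- the filler -/
def vpf (a : E) : ℝ := (1 - ∑ g : Gp, bmp (100 * dc g.1 a)) / ‖a‖ ^ 2

theorem sm_vpf : SmL vpf := fun a ha =>
  (contDiffAt_const.sub (ContDiffAt.sum fun g _ => sm_bmp 100 g.1 a ha)).div
    ((smL_norm a ha).pow 2) (pow_ne_zero 2 (norm_ne_zero_iff.2 ha))

theorem phA_eq (k : E) : phA T k = lab T (Ph k) := rfl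

theorem vpA_eq : vpA T = lab T vpf := rfl

theorem gz_mem {g : E ≃ₗᵢ[ℝ] E} {z : Pt} : gz g z ∈ Om T ↔ z ∈ Om T := by simp [Om, gz]

theorem evv_gr0_lab {f : E → ℝ} (h : SmL f) {z : Pt} (hz : z ∈ Om T) :
    evv (gr0 (lab T f)) z = gradient f z.2.1 := by
  ext i
  have : fderiv ℝ f z.2.1 (EuclideanSpace.single i 1) =
      ⟪gradient f z.2.1, EuclideanSpace.single i 1⟫ := by
    simp [gradient, InnerProductSpace.toDual_symm_apply]
  simp only [evv, gr0, ev_pd_la_lab h _ hz, this, EuclideanSpace.inner_single_right]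
  simp

theorem gradient_act {f : E → ℝ} (g : E ≃ₗᵢ[ℝ] E) (hg : ∀ a, f (g a) = f a) (a : E) :
    gradient f (g a) = g (gradient f a) := by
  have e : f ∘ g.toContinuousLinearEquiv = f := funext hg
  have h1 := g.toContinuousLinearEquiv.comp_right_fderiv (f := f) (x := a)
  rw [e] at h1
  refine ext_inner_right ℝ fun v => ?_
  obtain ⟨u, rfl⟩ := g.surjective v
  rw [g.inner_map_map]
  simp only [gradient, InnerProductSpace.toDual_symm_apply]
  rw [h1]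
  rfl

theorem eqv_gr0_lab {f : E → ℝ} (h : SmL f) (hg : ∀ g ∈ Gp, ∀ a, f (g a) = f a) :
    Eqv (gr0 (lab T f)) := by
  intro g hg' z
  by_cases hz : z ∈ Om T
  · rw [evv_gr0_lab h hz, evv_gr0_lab h (gz_mem.2 hz)]
    exact gradient_act g (hg g hg') _
  · have e : ∀ y, y ∉ Om T → evv (gr0 (lab T f)) y = 0 := fun y hy => by
      ext i
      simp [evv, ev_out _ hy]
    rw [e _ hz, e _ fun h => hz (gz_mem.1 h), map_zero]

theorem ev_dot' (U V : Vec T) (z : Pt) : ev (U ⬝ᵥ V) z = ⟪evv U z, evv V z⟫ := by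
  simp [dotProduct, ev_sum, evv, PiLp.inner_apply, mul_comm]

theorem Ph_act (k : E) {h : E ≃ₗᵢ[ℝ] E} (hh : h ∈ Gp) (a : E) : Ph k (h a) = Ph k a := by
  rw [Ph, Ph, ← Equiv.sum_comp (Equiv.mulLeft (⟨h, hh⟩ : Gp))]
  refine Finset.sum_congr rfl fun g _ => ?_
  have e : ((Equiv.mulLeft (⟨h, hh⟩ : Gp)) g : Gp).1 = h * g.1 := rfl
  have e2 : (h * g.1) k = h (g.1 k) := rfl
  rw [e, dc_act, e2, h.inner_map_map, h.norm_map]

theorem vpf_act {h : E ≃ₗᵢ[ℝ] E} (hh : h ∈ Gp) (a : E) : vpf (h a) = vpf a := by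
  rw [vpf, vpf, ← Equiv.sum_comp (Equiv.mulLeft (⟨h, hh⟩ : Gp)), h.norm_map]
  congr 2
  refine Finset.sum_congr rfl fun g _ => ?_
  have e : ((Equiv.mulLeft (⟨h, hh⟩ : Gp)) g : Gp).1 = h * g.1 := rfl
  rw [e, dc_act]

theorem Ph_smul (k a : E) {s : ℝ} (hs : 0 < s) : Ph k (s • a) = Ph k a := by
  refine Finset.sum_congr rfl fun g _ => ?_
  rw [dc_smul _ hs, real_inner_smul_right, norm_smul, Real.norm_eq_abs, abs_of_pos hs,
    mul_div_mul_left _ _ hs.ne']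

theorem vpf_smul (a : E) {s : ℝ} (hs : 0 < s) : vpf (s • a) = s ^ (-2 : ℤ) * vpf a := by
  simp only [vpf, dc_smul _ hs, norm_smul, Real.norm_eq_abs, abs_of_pos hs]
  rw [zpow_neg, zpow_two, mul_pow, mul_comm (s ^ 2), ← div_div, div_eq_inv_mul, sq]

/-- near one point of the orbit only one term of a cutoff sum survives -/
theorem sum_near {c : ℝ} (hc : 10 ≤ c) (g : Gp) {a : E} (h : dc g.1 a ≤ 1 / 25) (F : Gp → ℝ) :
    ∑ g' : Gp, bmp (c * dc g'.1 a) * F g' = bmp (c * dc g.1 a) * F g := by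
  refine Finset.sum_eq_single g (fun g' _ hne => ?_) (by simp)
  have := dc_sep g.2 g'.2 (fun e => hne (Subtype.ext e).symm) h
  rw [bmp_zero (by nlinarith), zero_mul]

theorem Ph_a0 {k : E} (hk : ⟪k, a0⟫ = 0) : Ph k a0 = 0 := by
  have h : dc (1 : Gp).1 a0 ≤ 1 / 25 := by
    show dc 1 a0 ≤ _
    rw [dc_a0]
    norm_num
  rw [Ph, sum_near (by norm_num) 1 h]
  show _ * (⟪k, a0⟫ / _) = 0
  simp [hk]

theorem sum_bmp_le (a : E) : ∑ g : Gp, bmp (100 * dc g.1 a) ≤ 1 := by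
  by_cases h : ∃ g : Gp, dc g.1 a ≤ 1 / 25
  · obtain ⟨g, hg⟩ := h
    have := sum_near (c := 100) (by norm_num) g hg fun _ => 1
    simp only [mul_one] at this
    rw [this]
    exact bmp_le_one _
  · push Not at h
    rw [Finset.sum_eq_zero fun g _ => bmp_zero (by linarith [h g])]
    norm_num

theorem vpf_nonneg (a : E) : 0 ≤ vpf a :=
  div_nonneg (sub_nonneg.2 (sum_bmp_le a)) (by positivity)

theorem vpf_zero (g : Gp) {a : E} (h : dc g.1 a ≤ 1 / 400) : vpf a = 0 := by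
  have := sum_near (c := 100) (by norm_num) g (h.trans (by norm_num)) fun _ => 1
  simp only [mul_one] at this
  rw [vpf, this, bmp_one (by linarith)]
  simp

theorem vpf_far {a : E} (h : ∀ g : Gp, 1 / 100 ≤ dc g.1 a) : vpf a = 1 / ‖a‖ ^ 2 := by
  rw [vpf, Finset.sum_eq_zero fun g _ => bmp_zero (by linarith [h g]), sub_zero]

theorem hasFDerivAt_lin (k : E) {a : E} (ha : a ≠ 0) :
    HasFDerivAt (fun y : E => ⟪k, y⟫ / ‖y‖)
      (innerSL ℝ (‖a‖⁻¹ • (k - (⟪k, a⟫ / ‖a‖ ^ 2) • a))) a := by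
  have h0 : ‖a‖ ≠ 0 := norm_ne_zero_iff.2 ha
  have h1 : HasFDerivAt (fun y : E => ‖y‖ ^ 2) (2 • innerSL ℝ a) a :=
    (hasStrictFDerivAt_norm_sq a).hasFDerivAt
  have h2 := h1.sqrt (pow_ne_zero 2 h0)
  simp only [Real.sqrt_sq (norm_nonneg _)] at h2
  have h3 := (hasDerivAt_inv h0).comp_hasFDerivAt a h2
  have h4 := (innerSL ℝ k).hasFDerivAt (x := a).mul h3
  have e : (fun y : E => ⟪k, y⟫ / ‖y‖) = ⇑(innerSL ℝ k) * ((fun y : ℝ => y⁻¹) ∘ fun y : E => ‖y‖) := by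
    funext y
    simp [div_eq_mul_inv]
  rw [e]
  refine h4.congr_fderiv ?_
  ext v
  simp
  field_simp
  ring

theorem grad_Ph (k : E) (g : Gp) {a : E} (ha : a ≠ 0) (h : dc g.1 a ≤ 1 / 100) :
    gradient (Ph k) a = ‖a‖⁻¹ • (g.1 k - (⟪g.1 k, a⟫ / ‖a‖ ^ 2) • a) := by
  have h1 : ∀ᶠ y in 𝓝 a, dc g.1 y < 1 / 25 :=
    (smL_dc g.1 a ha).continuousAt.eventually_lt continuousAt_const (by linarith)
  have h2 : Ph k =ᶠ[𝓝 a] fun y => bmp (25 * dc g.1 y) * (⟪g.1 k, y⟫ / ‖y‖) :=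
    h1.mono fun y hy => sum_near (by norm_num) g hy.le _
  have h3 : bmp (25 * dc g.1 a) = 1 := bmp_one (by linarith)
  have h4 : IsLocalMax (fun y => bmp (25 * dc g.1 y)) a :=
    Filter.Eventually.of_forall fun y => by
      show bmp _ ≤ bmp _
      rw [h3]
      exact bmp_le_one _
  have h5 := ((sm_bmp 25 g.1 a ha).differentiableAt (by simp)).hasFDerivAt
  rw [h4.fderiv_eq_zero] at h5
  have h6 := (h5.mul (hasFDerivAt_lin (g.1 k) ha)).congr_of_eventuallyEq h2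
  refine ext_inner_right ℝ fun v => ?_
  simp only [gradient, InnerProductSpace.toDual_symm_apply]
  rw [h6.fderiv, h3, smul_zero, add_zero, one_smul, innerSL_apply_apply]

theorem lower {k : E} (hk : ‖k‖ = 1) (hk0 : ⟪k, a0⟫ = 0) {a : E} (ha : a ≠ 0) :
    1 / 2 ≤ ‖a‖ ^ 2 * (‖gradient (Ph k) a‖ ^ 2 + vpf a) := by
  have h0 : 0 < ‖a‖ := norm_pos_iff.2 ha
  by_cases h : ∃ g : Gp, dc g.1 a ≤ 1 / 100
  · obtain ⟨g, hg⟩ := h
    have h1 : ‖g.1 k‖ = 1 := by rw [g.1.norm_map, hk]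
    have h2 : ⟪g.1 k, a⟫ / ‖a‖ = ⟪g.1 k, ‖a‖⁻¹ • a - g.1 a0⟫ := by
      rw [inner_sub_right, g.1.inner_map_map, hk0, real_inner_smul_right]
      ring
    have h3 : (⟪g.1 k, a⟫ / ‖a‖) ^ 2 ≤ 1 / 100 := by
      have := abs_real_inner_le_norm (g.1 k) (‖a‖⁻¹ • a - g.1 a0)
      rw [h1, one_mul] at this
      rw [h2, ← sq_abs]
      exact (pow_le_pow_left₀ (abs_nonneg _) this 2).trans (by rwa [← dc_eq _ ha])
    have h4 : ‖a‖ ^ 2 * ‖gradient (Ph k) a‖ ^ 2 = 1 - (⟪g.1 k, a⟫ / ‖a‖) ^ 2 := by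
      rw [grad_Ph k g ha hg, norm_smul, mul_pow, norm_sub_sq_real, h1, real_inner_smul_right,
        norm_smul, mul_pow, norm_inv, norm_norm, Real.norm_eq_abs, sq_abs]
      field_simp
      ring
    have h5 := mul_nonneg (sq_nonneg ‖a‖) (vpf_nonneg a)
    rw [mul_add, h4]
    linarith
  · push Not at h
    have h5 := mul_nonneg (sq_nonneg ‖a‖) (sq_nonneg ‖gradient (Ph k) a‖)
    rw [mul_add, vpf_far fun g => (h g).le, mul_one_div_cancel (by positivity)]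
    linarith

theorem ev_q (k : E) {z : Pt} (hz : z ∈ Om T) :
    ev (gr0 (phA T k) ⬝ᵥ gr0 (phA T k) + vpA T) z = ‖gradient (Ph k) z.2.1‖ ^ 2 + vpf z.2.1 := by
  rw [ev_add, ev_dot', phA_eq, vpA_eq, evv_gr0_lab (sm_Ph k) hz, ev_lab sm_vpf hz,
    real_inner_self_eq_norm_sq]

theorem q_pos {k : E} (hk : ‖k‖ = 1) (hk0 : ⟪k, a0⟫ = 0) {z : Pt} (hz : z ∈ Om T) :
    0 < ev (gr0 (phA T k) ⬝ᵥ gr0 (phA T k) + vpA T) z := by
  rw [ev_q k hz]
  have h := lower hk hk0 hz.2.2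
  by_contra hn
  nlinarith [sq_nonneg ‖z.2.1‖]

theorem inv_mul {f : A T} (h : ∀ z ∈ Om T, ev f z ≠ 0) :
    (mkA T fun z => (ev f z)⁻¹) * f = 1 := by
  have g : Good T fun z => (ev f z)⁻¹ :=
    ⟨(ev_smooth f).inv h, fun j z _ => by simp only [ev_per]⟩
  exact A_ext fun z hz => by rw [ev_mul, ev_mkA g hz, ev_one hz, inv_mul_cancel₀ (h z hz)]

end Ge

end Pool.Agent.Lib.MP_fbbbeb_an.Cas
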