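import Mathlib
import Pool.Agent.Lib.MP_fbbbeb_an.Cas.Stmt
import Pool.Agent.Lib.MP_fbbbeb_an.Cas.Geo1

/-! The canonical frame is a frame; Gevrey bounds of its fields. -/

set_option autoImplicit false

noncomputable section

namespace Pool.Agent.Lib.MP_fbbbeb_an.Cas

open Pool.Agent.Lib.MP_fbbbeb_an.Pub
open scoped ContDiff Topology RealInnerProductSpace Matrix Nat

namespace Ge

variable {T : ℝ}

/-! ### envelopes -/

theorem cone_mono {x y : ℝ} (h : x ^ 2 ≤ y ^ 2) : cone x ⊆ cone y :=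
  fun _ ⟨g, hg, h1⟩ => ⟨g, hg, h1.trans h⟩

theorem node_mono {x y : ℝ} (h : x ^ 2 ≤ y ^ 2) (j : Fin 3) : node x j ⊆ node y j :=
  fun _ h1 => le_trans h1 h

theorem cube_sq_le {x : ℝ} (h0 : 0 < x) (h1 : x ≤ 1 / 20) : (x ^ 3) ^ 2 ≤ x ^ 2 :=
  pow_le_pow_left₀ (by positivity) (pow_le_of_le_one h0.le (by linarith) (by norm_num)) 2

/-- the complement is open inside the domain -/
def Cl (T : ℝ) (S : Set Pt) : Prop := ∀ z ∈ Om T, z ∉ S → ∀ᶠ y in 𝓝 z, y ∉ S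

theorem Cl.inter {S S' : Set Pt} (h : Cl T S) (h' : Cl T S') : Cl T (S ∩ S') := by
  intro z hz hn
  by_cases h1 : z ∈ S
  · exact (h' z hz fun h2 => hn ⟨h1, h2⟩).mono fun y hy hy' => hy hy'.2
  · exact (h z hz h1).mono fun y hy hy' => hy hy'.1

theorem cl_cone (x : ℝ) : Cl T (cone x) := by
  intro z hz hn
  have h1 : ∀ g : Gp, ∀ᶠ y : Pt in 𝓝 z, x ^ 2 < dc g.1 y.2.1 := fun g => by
    have c : ContinuousAt (fun y : Pt => dc g.1 y.2.1) z :=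
      (smL_dc g.1 _ hz.2.2).continuousAt.comp (f := fun y : Pt => y.2.1) (by fun_prop)
    exact continuousAt_const.eventually_lt c (not_le.1 fun h => hn ⟨g.1, g.2, h⟩)
  exact (Filter.eventually_all.2 h1).mono fun y hy ⟨g, hg, h⟩ => (hy ⟨g, hg⟩).not_ge h

theorem cl_node (x : ℝ) (j : Fin 3) : Cl T (node x j) := by
  intro z _ hn
  have c : ContinuousAt (fun y : Pt => 1 - Real.cos (y.2.2 j)) z := by fun_prop
  exact (continuousAt_const.eventually_lt c (not_le.1 hn)).mono fun y hy h => hy.not_ge h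

theorem cone_p {x : ℝ} {z : Pt} (h : z ∈ cone x) (s : ℝ) (j : Fin 3) :
    z + s • vec (lp j) ∈ cone x := by simpa [cone, vec] using h

theorem node_p {x : ℝ} {z : Pt} {l j : Fin 3} (hl : l ≠ j) (h : z ∈ node x l) (s : ℝ) :
    z + s • vec (lp j) ∈ node x l := by simpa [node, vec, hl] using h

theorem cone_g {x : ℝ} {z : Pt} {g : E ≃ₗᵢ[ℝ] E} (hg : g ∈ Gp) (h : z ∈ cone x) :
    gz g z ∈ cone x := by
  obtain ⟨g', hg', h⟩ := h
  exact ⟨g * g', Gp.mul_mem hg hg', by rwa [gz, dc_act]⟩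

theorem cone_t {x : ℝ} {z : Pt} (h : z ∈ cone x) (t : ℝ) : ((t, z.2) : Pt) ∈ cone x := by
  obtain ⟨g, hg, h⟩ := h
  exact ⟨g, hg, h⟩

theorem node_t {x : ℝ} {z : Pt} {l : Fin 3} (h : z ∈ node x l) (t : ℝ) :
    ((t, z.2) : Pt) ∈ node x l := h

theorem node_g {x : ℝ} {z : Pt} {l : Fin 3} (h : z ∈ node x l) (g : E ≃ₗᵢ[ℝ] E) :
    gz g z ∈ node x l := h

section
variable (N : Fin 4 → ℝ) (kv : Fin 3 → E) (δ δa : ℝ)

theorem env0 : (cf T N kv δ δa).Env 0 = Set.univ := rfl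
theorem env1 : (cf T N kv δ δa).Env 1 = cone (1 / 20) := rfl
theorem env2 : (cf T N kv δ δa).Env 2 = cone δa ∩ node δ 0 := rfl
theorem env3 : (cf T N kv δ δa).Env 3 = cone (δa ^ 3) ∩ node (δ ^ 3) 0 ∩ node (δ ^ 3) 1 := rfl
theorem cf_k (j : Fin 3) : (cf T N kv δ δa).k j = gr0 (lab T (Ph (kv j))) := rfl
theorem cf_vp : (cf T N kv δ δa).vp = lab T vpf := rfl

theorem fin4 (l : Fin 4) : l = 0 ∨ l = 1 ∨ l = 2 ∨ l = 3 := by
  revert l
  decide

theorem env_open (l : Fin 4) : Cl T ((cf T N kv δ δa).Env l) := by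
  rcases fin4 l with rfl | rfl | rfl | rfl
  · rw [env0]
    exact fun z _ hn => absurd (Set.mem_univ z) hn
  · rw [env1]
    exact cl_cone _
  · rw [env2]
    exact (cl_cone _).inter (cl_node _ _)
  · rw [env3]
    exact ((cl_cone _).inter (cl_node _ _)).inter (cl_node _ _)

theorem env_t (l : Fin 4) (z : Pt) (hz : z ∈ (cf T N kv δ δa).Env l) (t : ℝ) :
    ((t, z.2) : Pt) ∈ (cf T N kv δ δa).Env l := by
  rcases fin4 l with rfl | rfl | rfl | rfl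
  · rw [env0]
    exact Set.mem_univ _
  · rw [env1] at hz ⊢
    exact cone_t hz t
  · rw [env2] at hz ⊢
    exact ⟨cone_t hz.1 t, node_t hz.2 t⟩
  · rw [env3] at hz ⊢
    exact ⟨⟨cone_t hz.1.1 t, node_t hz.1.2 t⟩, node_t hz.2 t⟩

theorem env_p (l : Fin 4) (j : Fin 3) (hl : l ≤ j.succ) (z : Pt) (hz : z ∈ (cf T N kv δ δa).Env l)
    (s : ℝ) : z + s • vec (lp j) ∈ (cf T N kv δ δa).Env l := by
  rcases fin4 l with rfl | rfl | rfl | rfl
  · rw [env0]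
    exact Set.mem_univ _
  · rw [env1] at hz ⊢
    exact cone_p hz s j
  · rw [env2] at hz ⊢
    exact ⟨cone_p hz.1 s j, node_p (by rintro rfl; revert hl; decide) hz.2 s⟩
  · rw [env3] at hz ⊢
    exact ⟨⟨cone_p hz.1.1 s j, node_p (by rintro rfl; revert hl; decide) hz.1.2 s⟩,
      node_p (by rintro rfl; revert hl; decide) hz.2 s⟩

theorem env_g (l : Fin 4) (g : E ≃ₗᵢ[ℝ] E) (hg : g ∈ Gp) (z : Pt)
    (hz : z ∈ (cf T N kv δ δa).Env l) : gz g z ∈ (cf T N kv δ δa).Env l := by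
  rcases fin4 l with rfl | rfl | rfl | rfl
  · rw [env0]
    exact Set.mem_univ _
  · rw [env1] at hz ⊢
    exact cone_g hg hz
  · rw [env2] at hz ⊢
    exact ⟨cone_g hg hz.1, node_g hz.2 g⟩
  · rw [env3] at hz ⊢
    exact ⟨⟨cone_g hg hz.1.1, node_g hz.1.2 g⟩, node_g hz.2 g⟩

variable {N kv δ δa}

theorem env_anti (h : CfOk N kv δ δa) : Antitone (cf T N kv δ δa).Env := by
  obtain ⟨-, -, -, h4, h5, h6, h7⟩ := h
  have a1 : (cf T N kv δ δa).Env 1 ≤ (cf T N kv δ δa).Env 0 := by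
    rw [env0]
    exact Set.subset_univ _
  have a2 : (cf T N kv δ δa).Env 2 ≤ (cf T N kv δ δa).Env 1 := by
    rw [env1, env2]
    exact fun z hz => cone_mono (pow_le_pow_left₀ h6.le h7 2) hz.1
  have a3 : (cf T N kv δ δa).Env 3 ≤ (cf T N kv δ δa).Env 2 := by
    rw [env2, env3]
    exact fun z hz => ⟨cone_mono (cube_sq_le h6 h7) hz.1.1, node_mono (cube_sq_le h4 h5) _ hz.1.2⟩
  refine Fin.antitone_iff_succ_le.2 fun i => ?_
  have c3 : ∀ i : Fin 3, i = 0 ∨ i = 1 ∨ i = 2 := by decide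
  rcases c3 i with rfl | rfl | rfl
  · exact a1
  · exact a2
  · exact a3

theorem ki_mul (h : CfOk N kv δ δa) (j : Fin 3) : (cf T N kv δ δa).ki j *
    ((cf T N kv δ δa).k j ⬝ᵥ (cf T N kv δ δa).k j + (cf T N kv δ δa).vp) = 1 :=
  inv_mul (f := gr0 (phA T (kv j)) ⬝ᵥ gr0 (phA T (kv j)) + vpA T)
    fun _ hz => (q_pos (h.2.2.1 j).1 (h.2.2.1 j).2 hz).ne'

theorem cf_ok (h : CfOk N kv δ δa) : (cf T N kv δ δa).Ok where
  N_one l := h.1.trans (h.2.1 (Fin.zero_le l))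
  N_mono := h.2.1
  k_t j i := by rw [cf_k, gr0, pd_comm, pd_lt_lab, map_zero]
  k_p j i l := by rw [cf_k, gr0, pd_comm, pd_lp_lab, map_zero]
  k_curl j i l := by rw [cf_k, gr0, gr0, pd_comm]
  k_eqv j := by
    rw [cf_k]
    exact eqv_gr0_lab (sm_Ph _) fun g hg a => Ph_act _ hg a
  vp_t := by rw [cf_vp, pd_lt_lab]
  vp_p l := by rw [cf_vp, pd_lp_lab]
  vp_inv := by
    rw [cf_vp]
    exact invG_lab sm_vpf fun g hg a _ => vpf_act hg a
  vp_nonneg z := by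
    rw [cf_vp]
    by_cases hz : z ∈ Om T
    · rw [ev_lab sm_vpf hz]
      exact vpf_nonneg _
    · rw [ev_out _ hz]
  vp_zero z hz := by
    rw [env1] at hz
    rw [cf_vp]
    by_cases hz' : z ∈ Om T
    · obtain ⟨g, hg, h⟩ := hz
      rw [ev_lab sm_vpf hz']
      exact vpf_zero ⟨g, hg⟩ (h.trans (by norm_num))
    · exact ev_out _ hz'
  ki_mul := ki_mul h
  env_zero := env0 N kv δ δa
  env_anti := env_anti h
  env_open := env_open N kv δ δa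
  env_t := env_t N kv δ δa
  env_p := env_p N kv δ δa
  env_g := env_g N kv δ δa

end

/-! ### Gevrey bounds -/

/-- a common radius -/
def ρ0 : ℝ := 1 / 10 ^ 10

theorem ρ0_pos : 0 < ρ0 := by unfold ρ0; positivity

theorem gb_bmp {c : ℝ} (h1 : 1 ≤ c) (h2 : c ≤ 100) (g : E ≃ₗᵢ[ℝ] E) :
    GB 0 (fun _ => ρ0) w1 1 (lab T fun a => bmp (c * dc g a)) :=
  GB_bmp_dc bmp_smooth bmp_gev (fun _ => ρ0_pos.le) h1 (fun _ => by unfold Cg ρ0; linarith) g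

theorem gb_ninv : GB (-1) (fun _ => ρ0) w1 1 (lab T fun a => ‖a‖⁻¹) :=
  GB_ninv (fun _ => ρ0_pos.le) fun _ => by unfold ρ0; norm_num

theorem gb_ph {k : E} (hk : ‖k‖ = 1) : GB 0 (fun _ => ρ0) w1 (∑ _g : Gp, 9) (phA T k) := by
  have h0 : ∀ i : Let, 0 ≤ (fun _ => ρ0) i := fun _ => ρ0_pos.le
  have e : phA T k = ∑ g : Gp, lab T fun a => bmp (25 * dc g.1 a) * (⟪g.1 k, a⟫ / ‖a‖) :=
    lab_sum _ fun g : Gp => sm_mul (sm_bmp 25 g.1) (sm_lin (g.1 k))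
  rw [e]
  refine GB.sum h0 _ fun g _ => ?_
  simp only [div_eq_mul_inv]
  rw [lab_mul (sm_bmp 25 g.1) (sm_mul (sm_inner _) smL_ninv), lab_mul (sm_inner _) smL_ninv]
  have h1 := GB_lin (T := T) h0 (fun _ => by unfold ρ0; norm_num) (g.1 k)
  rw [g.1.norm_map, hk] at h1
  have h2 := GB.mul1 h0 (gb_bmp (c := 25) (by norm_num) (by norm_num) g.1) (GB.mul1 h0 h1 gb_ninv)
  norm_num at h2
  exact h2

theorem gb_vp : GB (-2) (fun _ => ρ0) w1 (9 * (1 + ∑ _g : Gp, 1)) (vpA T) := by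
  have h0 : ∀ i : Let, 0 ≤ (fun _ => ρ0) i := fun _ => ρ0_pos.le
  have e : vpA T = (1 - ∑ g : Gp, lab T fun a => bmp (100 * dc g.1 a)) *
      ((lab T fun a => ‖a‖⁻¹) * lab T fun a => ‖a‖⁻¹) := by
    refine A_ext fun z hz => ?_
    rw [vpA_eq, ev_lab sm_vpf hz, ev_mul, ev_mul, ev_sub, ev_sum, ev_one hz, ev_lab smL_ninv hz,
      Finset.sum_congr rfl fun (g : Gp) _ => ev_lab (sm_bmp 100 g.1) hz, vpf, div_eq_mul_inv, sq,
      mul_inv]
  have h1 := GB.sub h0 (GB.one h0)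
    (GB.sum h0 Finset.univ fun (g : Gp) _ => gb_bmp (T := T) (c := 100) (by norm_num) le_rfl g.1)
  have h2 := GB.mul1 h0 h1 (GB.mul1 h0 gb_ninv gb_ninv)
  rw [e]
  refine (h2.cast (by norm_num)).monoM (fun _ _ => zero_le_one) (le_of_eq ?_)
  ring

theorem gb_all : ∃ ρ M : ℝ, 0 < ρ ∧ ∀ (T : ℝ) (k : E), ‖k‖ = 1 → ⟪k, a0⟫ = 0 →
    GBv (-1) (fun _ => ρ) w1 M (gr0 (phA T k)) ∧ GB (-2) (fun _ => ρ) w1 M (vpA T) ∧
    ∀ g : A T, g * (gr0 (phA T k) ⬝ᵥ gr0 (phA T k) + vpA T) = 1 → GB 2 (fun _ => ρ) w1 M g := by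
  have p0 := ρ0_pos
  obtain ⟨M2, hM2⟩ : ∃ M2 : ℝ, M2 = 4 / ((1 - 1 / 2) ^ 2 * ρ0) * ∑ _g : Gp, 9 := ⟨_, rfl⟩
  obtain ⟨M3, hM3⟩ : ∃ M3 : ℝ, M3 = 9 * (1 + ∑ _g : Gp, 1) := ⟨_, rfl⟩
  have m2 : 0 ≤ M2 := by rw [hM2]; positivity
  have m3 : 1 ≤ M3 := by
    have : (0 : ℝ) ≤ ∑ _g : Gp, 1 := by positivity
    rw [hM3]
    linarith
  obtain ⟨K, hK⟩ : ∃ K : ℝ, K = 32 * (9 * (M2 * M2) + M3) / (1 / 2) := ⟨_, rfl⟩
  have k1 : 1 ≤ K := by
    have := mul_nonneg m2 m2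
    rw [hK, le_div_iff₀ (by norm_num)]
    linarith
  have r1 : ρ0 / 2 / K ≤ ρ0 / 2 := div_le_self (by positivity) k1
  have w0 : ∀ T : ℝ, ∀ t ∈ Set.Ioo (0 : ℝ) T, 0 ≤ w1 t := fun _ _ _ => zero_le_one
  refine ⟨ρ0 / 2 / K, M2 + M3 + 2, by positivity, fun T k hk hk0 => ?_⟩
  have hr : ∀ _ : Let, 0 ≤ ρ0 / 2 / K := fun _ => by positivity
  have hh : ∀ _ : Let, 0 < ρ0 / 2 := fun _ => by positivity
  have h1 : GBv (-1) (fun _ => ρ0 / 2) w1 M2 (gr0 (phA T k)) := fun i => by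
    have := GB.pd_a (θ := 1 / 2) (fun _ => p0) (by norm_num) (by norm_num) i (gb_ph (T := T) hk)
    rw [← hM2] at this
    exact (this.cast (by norm_num)).monoR (fun i => (hh i).le) fun _ => le_of_eq (by simp [sh]; ring)
  have h2 : GB (-2) (fun _ => ρ0 / 2) w1 M3 (vpA T) := by
    rw [hM3]
    exact gb_vp.monoR (fun i => (hh i).le) fun _ => by linarith
  refine ⟨fun i => ((h1 i).monoR hr fun _ => r1).monoM (w0 T) (by linarith),
    (h2.monoR hr fun _ => r1).monoM (w0 T) (by linarith), fun g hg => ?_⟩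
  have h3 := GBv.dot (fun i => (hh i).le) h1 h1
  rw [w1_mul] at h3
  have h4 := GB.inv (β := 1 / 2) hg hh (by norm_num)
    (GB.add (fun i => (hh i).le) (h3.cast (by norm_num)) h2) fun z hz => by
      have h5 := lower hk hk0 (Sp_sub T hz).2.2
      rw [hz.2.2, ← ev_q k (Sp_sub T hz)] at h5
      exact le_trans (by linarith) (le_abs_self _)
  rw [← hK] at h4
  exact (h4.cast (by norm_num)).monoM (w0 T) (by norm_num; linarith)

theorem pd_inv {f g : A T} (h : g * f = 1) {i : Let} (hf : pd i f = 0) : pd i g = 0 := by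
  have h1 := congrArg (pd i) h
  rw [Derivation.leibniz, hf, Derivation.map_one_eq_zero, smul_zero, zero_add, smul_eq_mul] at h1
  rw [← one_mul (pd i g), ← h, mul_assoc, h1, mul_zero]

end Ge

open Ge in
theorem geoSt : GeoSt := by
  obtain ⟨ρ, M, hρ, H⟩ := gb_all
  refine ⟨max 2 (max M ρ⁻¹), le_max_left _ _, fun T N kv δ δa h => ?_⟩
  have ok := cf_ok (T := T) h
  have h3 := h.2.2.1
  refine ⟨ok, fun j => ⟨Ph_a0 (h3 j).2, good_lab (sm_Ph _),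
    invG_lab (sm_Ph _) fun g hg a _ => Ph_act _ hg a,
    hom_lab (sm_Ph _) fun a _ s hs => by rw [Ph_smul _ _ hs, zpow_zero, one_mul]⟩,
    fun j z hz hd => ?_, fun r hr hC j => ?_⟩
  · show evv (gr0 (lab T _)) z = _
    rw [evv_gr0_lab (sm_Ph _) hz]
    exact grad_Ph (kv j) 1 hz.2.2 hd
  · obtain ⟨b1, b2, b3⟩ := H T (kv j) (h3 j).1 (h3 j).2
    have hM : M ≤ max 2 (max M ρ⁻¹) := (le_max_left _ _).trans (le_max_right _ _)
    have hrr : ∀ i, r (la i) ≤ ρ := fun i => by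
      have h1 : ρ⁻¹ * r (la i) ≤ 1 := (mul_le_mul_of_nonneg_right
        ((le_max_right _ _).trans (le_max_right _ _)) (hr _)).trans (hC i)
      rwa [inv_mul_le_iff₀ hρ, mul_one] at h1
    have w0 : ∀ t ∈ Set.Ioo (0 : ℝ) T, 0 ≤ w1 t := fun _ _ => zero_le_one
    have q0 : ∀ i : Let, (∀ l, pd i ((cf T N kv δ δa).k j l) = 0) → pd i (vpA T) = 0 →
        pd i ((cf T N kv δ δa).ki j) = 0 := fun i a b => pd_inv (ok.ki_mul j) (by
      have b' : pd i (cf T N kv δ δa).vp = 0 := b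
      simp [dotProduct, Derivation.leibniz, a, b'])
    exact ⟨fun i => ((b1 i).of_lab (ok.k_t j i) (ok.k_p j i) hr hrr).monoM w0 hM,
      ((b3 _ (ok.ki_mul j)).of_lab (q0 _ (ok.k_t j) ok.vp_t)
        (fun l => q0 _ (fun i => ok.k_p j i l) (ok.vp_p l)) hr hrr).monoM w0 hM,
      (b2.of_lab ok.vp_t ok.vp_p hr hrr).monoM w0 hM⟩

end Pool.Agent.Lib.MP_fbbbeb_an.Cas
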