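import Mathlib
import Pool.Agent.Lib.MP_fbbbeb_an.Cas.CycS
import Pool.Agent.Lib.MP_fbbbeb_an.Cas.Gev
import Pool.Agent.Lib.MP_fbbbeb_an.Cas.Ev
import Pool.Agent.Lib.MP_fbbbeb_an.Cas.TypA1
import Pool.Agent.Lib.MP_fbbbeb_an.Cas.TypB
import Pool.Agent.Lib.MP_fbbbeb_an.Cas.Iter

/-! Insertion of the wave with a prescribed source at the centre. -/

set_option autoImplicit false

noncomputable section

namespace Pool.Agent.Lib.MP_fbbbeb_an.Cas

open Pool.Agent.Lib.MP_fbbbeb_an.Pub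
open scoped ContDiff Topology RealInnerProductSpace Matrix Nat

namespace IC

variable {T : ℝ}

theorem wave_of_eq {F : Mat T} {η p k e : Vec T} {s : A T} {kv p0 : E} {d : ℤ} {r : Let → ℝ}
    {w : ℝ → ℝ} {ε ε' : ℝ} (heq : gm F *ᵥ dtv η - Bf F *ᵥ η - p = s • k + e)
    (hk : k ⬝ᵥ η = 0) (hv : Van η) (hkv : ∀ t ∈ Set.Ioo 0 T, evv k (cz t) = kv)
    (hp : ∀ t ∈ Set.Ioo 0 T, evv p (cz t) = p0) (he : GBv d r w ε' e) (hr : 0 < r lt)
    (hr1 : r lt ≤ 1) (hε : ∀ t ∈ Set.Ioo 0 T, 2 * (ε' * w t) ≤ ε * w t * r lt) :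
    Wave T ε w (cenM F) kv p0 (cenV η) := by
  refine ⟨cenV_ok η, hv (a0, 0), fun t => ev s (cz t), fun t => evv e (cz t),
    fun t => evv (dtv e) (cz t), fun t ht => ?_⟩
  have hz := cz_mem ht
  have h0 : 0 ≤ ε' * w t := (abs_nonneg _).trans ((he 0).abs_le hz)
  have h1 : 2 * (ε' * w t / r lt) ≤ ε * w t := by
    rw [← mul_div_assoc, div_le_iff₀ hr]; exact hε t ht
  have h5 : ε' * w t ≤ ε' * w t / r lt := le_div_self h0 hr hr1
  have h6 : ‖evv e (cz t)‖ ≤ 2 * (ε' * w t) := norm_evv_le fun i => (he i).abs_le hz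
  have h7 : ‖evv (dtv e) (cz t)‖ ≤ 2 * (ε' * w t / r lt) := norm_evv_le fun i => by
    have := (he i).2 _ hz [lt]
    rw [le_div_iff₀ hr]
    simpa [pw, rpr, dtv, cz] using this
  refine ⟨?_, ?_, (cenV_ok e t ht).1, h6.trans (by linarith), h7.trans h1⟩
  · have := congrArg (fun V => evv V (cz t)) heq
    simp only [evv_sub, evv_add, evv_mulVec, evv_smulA, evm_gm, evm_Bf, hkv t ht, hp t ht] at this
    exact this
  · have := congrArg (fun f => ev f (cz t)) hk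
    simp only [ev_dot, hkv t ht, ev_zero] at this
    exact this

theorem near_mulH {F G : Mat T} {η k : Vec T} {kv : E} {j : Fin 3}
    (hG : ∀ z ∈ Om T, z.2.2 j = 0 → evm G z = evm F z * r1 (evv η z) (evv k z))
    (hkv : ∀ t ∈ Set.Ioo 0 T, evv k (cz t) = kv) :
    (cenM (F + G)).Near T 0 (mulH (cenM F) (cenV η) kv) := by
  refine Cv.near_of_eq (cenM_ok _) (mulH_ok kv (cenM_ok F) (cenV_ok η)) fun t ht => ?_
  have := hG (cz t) (Sp_sub T (cz_mem ht)) rfl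
  simp only [cenM, cenV, mulH, evm_add, this, hkv t ht, mul_add, mul_one]

theorem wd_le (j : Fin 3) {d : ℝ} (hd : 0 < d) (hd1 : d ≤ 1 / 20) : wd j d ^ 2 ≤ 1 := by
  have h1 : d ≤ 1 := by linarith
  rw [wd]
  split_ifs
  · exact pow_le_one₀ (by positivity) (pow_le_one₀ hd.le h1)
  · exact pow_le_one₀ hd.le h1

theorem rad_half {θ ρ n : ℝ} {m : ℕ} (hρ : 0 < ρ) (hn : 1 ≤ n) (h : 1 / 2 ≤ θ ^ m) (i : Let) :
    0 ≤ rad (ρ / 2) n i ∧ rad (ρ / 2) n i ≤ sh θ m (rad ρ n) i := by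
  have hn0 : 0 < n := by linarith
  have e : rad (ρ / 2) n i = 1 / 2 * rad ρ n i := by
    rcases i with _ | i | j <;> simp only [rad] <;> ring
  have p : 0 ≤ rad ρ n i := by
    rcases i with _ | i | j <;> simp only [rad] <;> positivity
  rw [e]
  exact ⟨by positivity, mul_le_mul_of_nonneg_right h p⟩

end IC

theorem insWSt (hG : GeoSt) (hP : PifSt) (hI : InsSt) : InsWSt := by
  obtain ⟨Cg, hCg, hG⟩ := hG
  obtain ⟨Cp, hCp, hP⟩ := hP
  obtain ⟨C0, hI⟩ := hI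
  obtain ⟨n, hn⟩ := pow_unbounded_of_one_lt (max Cg Cp) (one_lt_two (α := ℝ))
  refine ⟨(n + 1) * (C0 + 1) + 2, ?_⟩
  intro T N kv δ j K Kl θ ε ρ c w v X p hcf hj hR hW hKl hKK hθ hXin hXe hCB hSt hc hS hp hρw
  obtain ⟨hok, -, hk0, hkb⟩ := hG T N kv δ δ hcf
  obtain ⟨p1, p2, p3, p4, p5, p6⟩ := hP T N kv δ δ j p hcf hj
  set C := (n + 1) * (C0 + 1) + 2 with hC
  have hK2 := hR.K_two
  have hKl1 : 1 ≤ Kl := by linarith
  have hK1 : 1 ≤ K := by linarith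
  have hN : 1 ≤ N 0 := hcf.1
  have hρ1 : ρ ≤ 1 := hR.r_one lt
  have hKρ : 1 ≤ K * ρ := hR.r_t
  have hρ : 0 < ρ := by
    by_contra h
    have := mul_nonpos_of_nonneg_of_nonpos (by linarith : 0 ≤ K) (not_lt.1 h)
    linarith
  have hn2 : max Cg Cp ≤ Kl ^ n := hn.le.trans (pow_le_pow_left₀ (by norm_num) hKl n)
  have hg : Cg ≤ Kl ^ n := (le_max_left _ _).trans hn2
  have hp' : Cp ≤ Kl ^ n := (le_max_right _ _).trans hn2
  have a1 : Kl ^ n ≤ Kl ^ (n + 1) := pow_le_pow_right₀ hKl1 (by omega)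
  have a2 : Kl ^ (n + 1) ≤ Kl ^ C := pow_le_pow_right₀ hKl1 (by rw [hC]; nlinarith)
  have a3 : Kl ≤ Kl ^ (n + 1) := le_self_pow₀ hKl1 (by omega)
  have a4 : (Kl ^ (n + 1)) ^ C0 ≤ Kl ^ C := by
    rw [← pow_mul]; exact pow_le_pow_right₀ hKl1 (by rw [hC]; nlinarith)
  have a5 : K ^ C0 ≤ K ^ C := pow_le_pow_right₀ hK1 (by rw [hC]; nlinarith)
  have a6 : K ^ 2 ≤ K ^ C := pow_le_pow_right₀ hK1 (by rw [hC]; omega)
  have hε := hR.e_pos
  have hr0 : ∀ i, 0 ≤ rad ρ (N 0) i := fun i => by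
    rcases i with _ | i | j <;> simp only [rad] <;> positivity
  have hla : ρ / N 0 ≤ ρ := div_le_self hρ.le hN
  have hwd := IC.wd_le j hcf.2.2.2.1 hcf.2.2.2.2.1
  have b1 : ∀ x : ℝ, 0 ≤ x → x ≤ Kl ^ n → x * ρ ≤ wd j δ ^ 2 := fun x _ hx =>
    (mul_le_mul_of_nonneg_right (hx.trans (a1.trans a2)) hρ.le).trans hρw
  have b2 : ∀ x : ℝ, 0 ≤ x → x ≤ Kl ^ n → x * (ρ / N 0) ≤ wd j δ ^ 2 := fun x h0 hx =>
    (mul_le_mul_of_nonneg_left hla h0).trans (b1 x h0 hx)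
  have w1n : ∀ t ∈ Set.Ioo (0 : ℝ) T, 0 ≤ w1 t := fun _ _ => zero_le_one
  have wn := hW.w_nonneg j.succ
  have hkv : ∀ t ∈ Set.Ioo 0 T, evv ((cf T N kv δ δ).k j) (cz t) = kv j := fun t ht => by
    have h1 : dc 1 (cz t).2.1 ≤ 1 / 100 := by
      have : dc 1 a0 = 0 := by
        simp [dc, norm_a0]
      exact this.trans_le (by norm_num)
    rw [hk0 j _ (Sp_sub T (cz_mem ht)) h1]
    simp [cz, norm_a0, (hcf.2.2.1 j).2]
  obtain ⟨W, η, s, e, c1, c2, c3, c4, c5, c6, c7, c8, c9, c10, c11⟩ :=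
    hI T (cf T N kv δ δ) K (Kl ^ (n + 1)) θ ε ε (rad ρ (N 0)) w v j X
      (pif T j p (wd j δ) (wd j δ)) (fun _ => c) hok hR hW (hKl.trans a3) (a2.trans hKK) hε le_rfl
      hXin hXe (fun i l => (hCB.1 i l).monoM w1n a3) (fun i l => (hCB.2 i l).monoM w1n a3)
      (fun i => ((hkb _ hr0 (fun _ => (b2 Cg (by linarith) hg).trans hwd) j).1 i).monoM w1n
        (hg.trans a1))
      hSt (It.solvP_le hS wn a3) p1 p2 p3 p4
      ((p6 _ hr0 (fun _ => b2 Cp (by linarith) hp') (fun _ => b1 Cp (by linarith) hp')).mono hr0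
        (fun _ => le_rfl) fun t ht => by
          have h1 := hp t ht
          have h2 := wn t ht
          simp only [w1, mul_one]
          calc Cp * ‖p‖ ≤ Kl ^ n * (Kl * w j.succ t) :=
                mul_le_mul hp' h1 (norm_nonneg _) (by positivity)
            _ = _ := by ring)
  have hθ0 : 0 ≤ θ := by linarith [hR.th_half]
  have hθ2 : 1 / 2 ≤ θ ^ 2 := hθ.trans (pow_le_pow_of_le_one hθ0 hR.th_one.le (by norm_num))
  have q0 := IC.rad_half (θ := θ) (m := 0) hρ hN (by norm_num)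
  have q2 := IC.rad_half hρ hN hθ2
  have q6 := IC.rad_half hρ hN hθ
  have hsz : ∀ t ∈ Set.Ioo 0 T, ((Kl ^ (n + 1)) ^ C0 + ε * K ^ C0) * w j.succ t ≤
      (Kl ^ C + ε * K ^ C) * w j.succ t := fun t ht =>
    mul_le_mul_of_nonneg_right (add_le_add a4 (mul_le_mul_of_nonneg_left a5 hε.le)) (wn t ht)
  refine ⟨W, η, c1, c10, c2.mono hok (fun i => (q0 i).1) (fun i => by simpa [sh] using (q0 i).2)
    (fun t ht => mul_le_mul_of_nonneg_right a4 (wn t ht)),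
    ⟨c3.mono (fun i => (q2 i).1) (fun i => (q2 i).2) hsz,
      c4.mono (fun i => (q2 i).1) (fun i => (q2 i).2) hsz⟩,
    c5.mono hok hW.w_nonneg (fun i => (q6 i).1) (fun i => (q6 i).2)
      (fun _ => add_le_add le_rfl (mul_le_mul_of_nonneg_left a5 hε.le)),
    IC.wave_of_eq c6 c7 c8 hkv p5 c9 hρ hρ1 fun t ht => ?_, ?_⟩
  · have h1 : 2 ≤ K ^ C * ρ := by nlinarith [mul_le_mul_of_nonneg_right a6 hρ.le]
    have h2 := mul_le_mul_of_nonneg_right h1 (mul_nonneg hε.le (wn t ht))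
    show _ ≤ ε * K ^ C * w j.succ t * ρ
    linarith
  · rw [Dm_add]
    exact IC.near_mulH c11 hkv

end Pool.Agent.Lib.MP_fbbbeb_an.Cas
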