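import Mathlib
import Pool.Agent.Lib.MP_fbbbeb_an.Cas.CycS
import Pool.Agent.Lib.MP_fbbbeb_an.Cas.Chain
import Pool.Agent.Lib.MP_fbbbeb_an.Cas.EvG
import Pool.Agent.Lib.MP_fbbbeb_an.Cas.TypA1

/-! Level solvers for growing weights and the base solver from the gradient bounds. -/

set_option autoImplicit false

noncomputable section

namespace Pool.Agent.Lib.MP_fbbbeb_an.Cas

open Pool.Agent.Lib.MP_fbbbeb_an.Pub
open scoped ContDiff Topology RealInnerProductSpace Matrix Nat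

namespace LC

variable {T : ℝ}

theorem jinv {F : Mat T} {r : Let → ℝ} {K : ℝ} (hK : 2 ≤ K) (hr : ∀ i, 0 < r i)
    (hF : GBm 0 r w1 K F) (hd : ∀ z ∈ Sp T, 1 / 2 ≤ ev F.det z) :
    ∃ Ji : A T, Ji * F.det = 1 ∧ GB 0 (dvr r (K ^ 15)) w1 2 Ji := by
  obtain ⟨g, hg, hb⟩ := (hF.det fun i => (hr i).le).exists_inv hr (β := 1 / 2) (by norm_num)
    fun z hz => (hd z hz).trans (le_abs_self _)
  have hK0 : 0 < K := by linarith
  have h12 : (2 : ℝ) ^ 12 ≤ K ^ 12 := pow_le_pow_left₀ (by norm_num) hK 12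
  have h3 : 0 < K ^ 3 := pow_pos hK0 3
  refine ⟨g, hg, ?_⟩
  rw [neg_zero] at hb
  refine hb.mono (fun i => (dvr_pos hr (pow_pos hK0 _) i).le)
    (dvr_anti (fun i => (hr i).le) (by positivity) ?_) fun t _ => le_of_eq (by norm_num)
  calc 32 * (54 * K ^ 3) / (1 / 2) = 3456 * K ^ 3 := by ring
    _ ≤ K ^ 12 * K ^ 3 := mul_le_mul_of_nonneg_right (by linarith) h3.le
    _ = K ^ 15 := by ring

theorem solvP_mono {fr : Frame T} {j : Fin 3} {F : Mat T} {w : ℝ → ℝ} {K K' : ℝ} {r r' : Let → ℝ}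
    (h : SolvP fr j F w K r) (hw : ∀ t ∈ Set.Ioo 0 T, 0 ≤ w t) (hK : K ≤ K')
    (hr : ∀ i, r' i ≤ r i) : SolvP fr j F w K' r' := by
  intro r1 a1 a2 c ε' hc he f b1 b2 b3
  obtain ⟨ζ, s, e, c1, c2, c3, c4, c5, c6, c7, c8, c9, c10, c11, c12⟩ :=
    h r1 a1 (fun i => (a2 i).trans (hr i)) c ε' hc he f b1 b2 b3
  have hKc : K * c ≤ K' * c := mul_le_mul_of_nonneg_right hK hc
  exact ⟨ζ, s, e, c1, c2, c3, c4, c5, c6, c7, fun i => (c8 i).monoM hw hKc,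
    fun i => (c9 i).monoM hw hKc, c10.monoM hw hKc, c11, c12⟩

theorem solv0_mono {F : Mat T} {Ji : A T} {w : ℝ → ℝ} {K K' θ : ℝ} {rlo r r' : Let → ℝ}
    (h : Solv0 F Ji w K θ rlo r) (hw : ∀ t ∈ Set.Ioo 0 T, 0 ≤ w t) (hK : K ≤ K')
    (hr : ∀ i, r' i ≤ r i) : Solv0 F Ji w K' θ rlo r' := by
  intro r1 a1 a2 c ε' hc he f b1 b2 b3
  obtain ⟨ζ, q, e, c1, c2, c3, c4, c5, c6, c7, c8⟩ :=
    h r1 a1 (fun i => (a2 i).trans (hr i)) c ε' hc he f b1 b2 b3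
  exact ⟨ζ, q, e, c1, c2, c3, c4, c5, c6,
    fun i => (c7 i).monoM hw (mul_le_mul_of_nonneg_right hK hc), c8⟩

theorem prpOn_mono {fr : Frame T} {j : Fin 3} {F : Mat T} {w : ℝ → ℝ} {K K' : ℝ}
    (h : PrpOn fr j F w K) (hw : ∀ t ∈ Set.Ioo 0 T, 0 ≤ w t) (hK : K ≤ K') :
    PrpOn fr j F w K' := fun z hz he y f c hc h1 h2 h3 t ht =>
  (h z hz he y f c hc h1 h2 h3 t ht).trans
    (mul_le_mul_of_nonneg_right (mul_le_mul_of_nonneg_right hK hc) (hw t ht))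

end LC

open LC in
theorem levCSt (hC : CrudeSt) (hS : SolvSt) : LevCSt := by
  obtain ⟨C1, hC⟩ := hC
  obtain ⟨C2, hS⟩ := hS
  refine ⟨15 + C2 + C1, ?_⟩
  intro T fr j X w K lam wmin r hfr hK hT hr hr1 hin heq hcb hdet hk hvp hki hwm hw hg hlam
  obtain ⟨Ji, hJ, hJb⟩ := jinv hK hr hcb.1 hdet
  have hK0 : 0 < K := by linarith
  have hK1 : 1 ≤ K := by linarith
  have p0 : ∀ i, 0 < dvr r (K ^ 15) i := dvr_pos hr (pow_pos hK0 _)
  have p0' : ∀ i, 0 ≤ dvr r (K ^ 15) i := fun i => (p0 i).le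
  have p1 : ∀ i, dvr r (K ^ 15) i ≤ r i := dvr_le (fun i => (hr i).le) (one_le_pow₀ hK1)
  have hF : GBm 0 (dvr r (K ^ 15)) w1 K (Dm fr X) := fun i l => (hcb.1 i l).monoR p0' p1
  have hFt : GBm 0 (dvr r (K ^ 15)) w1 K (dtm (Dm fr X)) := fun i l => (hcb.2 i l).monoR p0' p1
  have hk' : GBv (-1) (dvr r (K ^ 15)) w1 K (fr.k j) := fun i => (hk i).monoR p0' p1
  have h1 := hC T fr j (Dm fr X) Ji w K lam _ hfr hK hF hFt hJ (hJb.mono1 hK) hk'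
    (hki.monoR p0' p1) hg ((pow_le_pow_right₀ hK1 (by omega)).trans hlam)
  have h2 := hS T fr j (Dm fr X) Ji w K wmin _ hfr hK hT p0 (fun i => (p1 i).trans (hr1 i))
    (fun i l => hin.Dm hfr i l) (heq.Dm hfr) hF hFt hJ (hJb.mono1 hK) hk' (hvp.monoR p0' p1)
    (hki.monoR p0' p1) hwm hw (prpOn_mono h1 hg.1 hK1)
  refine ⟨Ji, hJ, hJb.monoR (fun i => (dvr_pos hr (pow_pos hK0 _) i).le)
    (dvr_anti (fun i => (hr i).le) (pow_pos hK0 _) (pow_le_pow_right₀ hK1 (by omega))), ?_⟩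
  rw [dvr_dvr, ← pow_add] at h2
  exact solvP_mono h2 hg.1 (pow_le_pow_right₀ hK1 (by omega))
    (dvr_anti (fun i => (hr i).le) (pow_pos hK0 _) (pow_le_pow_right₀ hK1 (by omega)))

open LC in
theorem lev0St (hB : BaseSt) : Lev0St := by
  obtain ⟨C1, hB⟩ := hB
  refine ⟨15 + C1, ?_⟩
  intro T fr X w K L θ lam r rlo _ hK hL hT hr hr1 hin heq hhom hcb hdet hnear hg hlam hw h1 h2 h3 h4
  unfold CB DetGe at *
  rw [hin.Dm_zero fr] at hcb hdet hnear ⊢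
  obtain ⟨Ji, hJ, hJb⟩ := jinv hK hr hcb.1 hdet
  have hK0 : 0 < K := by linarith
  have hK1 : 1 ≤ K := by linarith
  have hKL : K ≤ L := (le_self_pow₀ hK1 (by omega)).trans hL
  have p0 : ∀ i, 0 < dvr r (K ^ 15) i := dvr_pos hr (pow_pos hK0 _)
  have p0' : ∀ i, 0 ≤ dvr r (K ^ 15) i := fun i => (p0 i).le
  have p1 : ∀ i, dvr r (K ^ 15) i ≤ r i := dvr_le (fun i => (hr i).le) (one_le_pow₀ hK1)
  have h5 := hB T X Ji w K L θ lam _ rlo hK hKL hT p0 (fun i => (p1 i).trans (hr1 i)) hin heq hhom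
    (fun i l => (hcb.1 i l).monoR p0' p1) (fun i l => (hcb.2 i l).monoR p0' p1) hJ (hJb.mono1 hK)
    (fun z hz => lt_of_lt_of_le (by norm_num) (hdet z hz)) hnear hg
    ((pow_le_pow_right₀ hK1 (by omega)).trans hlam) hw h1 h2 h3 h4
  refine ⟨Ji, hJ, hJb.monoR (fun i => (dvr_pos hr (pow_pos hK0 _) i).le)
    (dvr_anti (fun i => (hr i).le) (pow_pos hK0 _) (pow_le_pow_right₀ hK1 (by omega))), ?_⟩
  rw [dvr_dvr, ← pow_add] at h5
  exact solv0_mono h5 hg.1 (pow_le_pow_right₀ (hK1.trans hKL) (by omega)) fun _ => le_rfl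

end Pool.Agent.Lib.MP_fbbbeb_an.Cas
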