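import Mathlib
import Pool.Agent.Lib.MP_fbbbeb_an.Cas.CycS
import Pool.Agent.Lib.MP_fbbbeb_an.Cas.Chain
import Pool.Agent.Lib.MP_fbbbeb_an.Cas.TypA1
import Pool.Agent.Lib.MP_fbbbeb_an.Cas.EvG
import Pool.Agent.Lib.MP_fbbbeb_an.Cas.Solv

/-! The level solver from the bound at the centre. -/

set_option autoImplicit false

noncomputable section

namespace Pool.Agent.Lib.MP_fbbbeb_an.Cas

open Pool.Agent.Lib.MP_fbbbeb_an.Pub
open scoped ContDiff Topology RealInnerProductSpace Matrix Nat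

namespace LvE

theorem rad_pos {ρ n : ℝ} (hρ : 0 < ρ) (hn : 1 ≤ n) (i : Let) : 0 < rad ρ n i := by
  rcases i with _ | i | i
  · exact hρ
  · exact div_pos hρ (by linarith)
  · exact hρ

theorem rad_le_one {ρ n : ℝ} (h0 : 0 < ρ) (hρ : ρ ≤ 1) (hn : 1 ≤ n) (i : Let) : rad ρ n i ≤ 1 := by
  rcases i with _ | i | i
  · exact hρ
  · exact (div_le_self h0.le hn).trans hρ
  · exact hρ

theorem rad_mono {ρ ρ' n : ℝ} (h : ρ ≤ ρ') (hn : 1 ≤ n) (i : Let) : rad ρ n i ≤ rad ρ' n i := by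
  rcases i with _ | i | i
  · exact h
  · exact div_le_div_of_nonneg_right h (by linarith)
  · exact h

theorem dvr_rad (ρ n c : ℝ) : dvr (rad ρ n) c = rad (ρ / c) n := by
  funext i
  rcases i with _ | i | i
  · rfl
  · exact div_right_comm ρ n c
  · rfl

theorem solvP_mono {T : ℝ} {fr : Frame T} {j : Fin 3} {F : Mat T} {w : ℝ → ℝ} {K K' : ℝ}
    {r r' : Let → ℝ} (h : SolvP fr j F w K r) (hw : ∀ t ∈ Set.Ioo 0 T, 0 ≤ w t) (hK : K ≤ K')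
    (hr : ∀ i, r' i ≤ r i) : SolvP fr j F w K' r' := by
  intro r1 a1 a2 c ε' hc he f b1 b2 b3
  obtain ⟨ζ, s, e, c1, c2, c3, c4, c5, c6, c7, c8, c9, c10, c11, c12⟩ :=
    h r1 a1 (fun i => (a2 i).trans (hr i)) c ε' hc he f b1 b2 b3
  have hKc : K * c ≤ K' * c := mul_le_mul_of_nonneg_right hK hc
  exact ⟨ζ, s, e, c1, c2, c3, c4, c5, c6, c7, fun i => (c8 i).monoM hw hKc,
    fun i => (c9 i).monoM hw hKc, c10.monoM hw hKc, c11, c12⟩

end LvE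

open LvE in
theorem levESt : GeoSt → EnvSt → SolvSt → LevESt := by
  rintro ⟨Cg, hCg, hG⟩ ⟨CE, hE⟩ ⟨CS, hS⟩
  obtain ⟨m, hm⟩ := pow_unbounded_of_one_lt Cg (by norm_num : (1 : ℝ) < 2)
  refine ⟨CE + (15 + m) + (m + 2) * CS, ?_⟩
  intro T N kv δ j X w K wmin ρ hcf hj hK hT hρ0 hρ1 hXi hXe hX hdet hwm hw hwd hP
  obtain ⟨hok, -, -, hk⟩ := hG T N kv δ δ hcf
  have hN : 1 ≤ N 0 := hcf.1
  have hK1 : (1 : ℝ) ≤ K := by linarith
  have hK0 : (0 : ℝ) < K := by linarith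
  have hw0 : ∀ t ∈ Set.Ioo 0 T, 0 ≤ w t := fun t ht => hwm.le.trans (hw t ht).1
  have hmK : Cg ≤ K ^ m := hm.le.trans (pow_le_pow_left₀ (by norm_num) hK m)
  have hr0 := rad_pos hρ0 hN
  obtain ⟨Ji, hJ, hJb⟩ := GB.exists_inv (β := 1 / 2) hr0 (by norm_num)
    (GBm.det (fun i => (hr0 i).le) hX.1) (fun z hz => (hdet z hz).trans (le_abs_self _))
  rw [dvr_rad] at hJb
  obtain ⟨ρ1, hρ1e⟩ : ∃ ρ1 : ℝ, ρ1 = ρ / K ^ (15 + m) := ⟨_, rfl⟩
  have hp1 : 1 ≤ K ^ (15 + m) := one_le_pow₀ hK1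
  have h10 : 0 < ρ1 := by rw [hρ1e]; positivity
  have h1ρ : ρ1 ≤ ρ := hρ1e ▸ div_le_self hρ0.le hp1
  have h11 : ρ1 ≤ 1 := h1ρ.trans hρ1
  have hr1 := rad_pos h10 hN
  have hr1' : ∀ i, 0 ≤ rad ρ1 (N 0) i := fun i => (hr1 i).le
  have h12 : (4096 : ℝ) ≤ K ^ 12 := by
    have := pow_le_pow_left₀ (by norm_num : (0 : ℝ) ≤ 2) hK 12
    norm_num at this
    exact this
  have hJr : ρ1 ≤ ρ / (32 * (54 * K ^ 3) / (1 / 2)) := by
    rw [hρ1e]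
    refine div_le_div_of_nonneg_left hρ0.le (by positivity) ?_
    have a : K ^ 15 ≤ K ^ (15 + m) := pow_le_pow_right₀ hK1 (by omega)
    have b : 4096 * K ^ 3 ≤ K ^ 12 * K ^ 3 := mul_le_mul_of_nonneg_right h12 (by positivity)
    have c : 0 ≤ K ^ 3 := by positivity
    have d : K ^ 12 * K ^ 3 = K ^ 15 := by ring
    linarith
  have hJ1 : GB 0 (rad ρ1 (N 0)) w1 2 Ji :=
    ((hJb.monoR hr1' (rad_mono hJr hN)).cast (by simp)).mono1 (by norm_num)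
  have hF : GBm 0 (rad ρ1 (N 0)) w1 K (Dm (cf T N kv δ δ) X) :=
    fun i l => (hX.1 i l).monoR hr1' (rad_mono h1ρ hN)
  have hFt : GBm 0 (rad ρ1 (N 0)) w1 K (dtm (Dm (cf T N kv δ δ) X)) :=
    fun i l => (hX.2 i l).monoR hr1' (rad_mono h1ρ hN)
  have hFi : ∀ i l, In j.castSucc (Dm (cf T N kv δ δ) X i l) := hXi.Dm hok
  have hFe : EqvM (Dm (cf T N kv δ δ) X) := hXe.Dm hok
  have hwd0 : 0 ≤ wd j δ := by
    have := hcf.2.2.2.1
    unfold wd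
    split_ifs <;> positivity
  have hwd1 : K ^ CE * wd j δ ≤ ρ1 / N 0 := by
    rw [hρ1e, div_right_comm, le_div_iff₀ (by positivity)]
    refine le_trans ?_ hwd
    rw [mul_right_comm, ← pow_add]
    exact mul_le_mul_of_nonneg_right (pow_le_pow_right₀ hK1 (by omega)) hwd0
  have hPo := hE T N kv δ δ j _ Ji w K wmin ρ1 (N 0) hcf hj hK h10 h11 hN hFi hFe hF hFt hJ
    (hJ1.mono1 hK) hwm hw (hwd1.trans (div_le_self h10.le hN)) hwd1 hP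
  obtain ⟨L, hL⟩ : ∃ L : ℝ, L = K ^ (m + 2) := ⟨_, rfl⟩
  have hKm : 1 ≤ K ^ m := one_le_pow₀ hK1
  have h2L : 2 * K ≤ L := by
    rw [hL, pow_add]
    nlinarith
  have hKL : K ≤ L := by linarith
  have hgL : Cg ≤ L := hmK.trans (hL ▸ pow_le_pow_right₀ hK1 (by omega))
  have hgr : ∀ i, Cg * rad ρ1 (N 0) (la i) ≤ 1 := fun i => by
    have a : rad ρ1 (N 0) (la i) ≤ ρ1 := div_le_self h10.le hN
    have b : ρ1 * K ^ (15 + m) = ρ := by rw [hρ1e]; field_simp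
    have c : Cg ≤ K ^ (15 + m) := hmK.trans (pow_le_pow_right₀ hK1 (by omega))
    have d : Cg * rad ρ1 (N 0) (la i) ≤ K ^ (15 + m) * ρ1 :=
      mul_le_mul c a (hr1' _) (by positivity)
    linarith
  obtain ⟨hk1, hk2, hk3⟩ := hk (rad ρ1 (N 0)) hr1' hgr j
  have hsol := hS T (cf T N kv δ δ) j _ Ji w L wmin (rad ρ1 (N 0)) hok (hK.trans hKL) hT hr1
    (rad_le_one h10 h11 hN) hFi hFe (fun i l => (hF i l).mono1 hKL)
    (fun i l => (hFt i l).mono1 hKL) hJ (hJ1.mono1 (hK.trans hKL)) (fun i => (hk1 i).mono1 hgL)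
    (hk3.mono1 hgL) (hk2.mono1 hgL) hwm (fun t ht => ⟨(hw t ht).1, (hw t ht).2.trans hKL⟩)
    (fun z hz he => Sv.prp_congr (hPo z hz he) (fun _ _ => rfl) h2L hw0)
  rw [dvr_rad, hL, ← pow_mul, hρ1e, div_div, ← pow_add] at hsol
  have hq : ρ / K ^ (CE + (15 + m) + (m + 2) * CS) ≤ ρ / K ^ (15 + m + (m + 2) * CS) :=
    div_le_div_of_nonneg_left hρ0.le (by positivity) (pow_le_pow_right₀ hK1 (by omega))
  have hq1 : ρ / K ^ (CE + (15 + m) + (m + 2) * CS) ≤ ρ1 := hρ1e ▸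
    div_le_div_of_nonneg_left hρ0.le (by positivity) (pow_le_pow_right₀ hK1 (by omega))
  exact ⟨Ji, hJ, hJ1.monoR (fun i => (rad_pos (by positivity) hN i).le) (rad_mono hq1 hN),
    solvP_mono hsol hw0 (pow_le_pow_right₀ hK1 (by omega)) (rad_mono hq hN)⟩

end Pool.Agent.Lib.MP_fbbbeb_an.Cas
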