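import Pool.Agent.Lib.MP_fbbbeb_an.Cas.CycP

/-! The parameters of a cycle can be chosen. -/

set_option autoImplicit false

namespace Pool.Agent.Lib.MP_fbbbeb_an.Cas

namespace NumM

theorem exp_big (m : ℕ) {l : ℝ} (h : (4 : ℝ) ^ (m + 1) * ((m + 1).factorial : ℝ) ≤ l) :
    l ^ m * Real.exp (-(l / 4)) ≤ 1 := by
  have f0 : (0 : ℝ) < ((m + 1).factorial : ℝ) := by positivity
  have p0 : (0 : ℝ) < (4 : ℝ) ^ (m + 1) * ((m + 1).factorial : ℝ) := by positivity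
  have l0 : 0 < l := p0.trans_le h
  have a := Real.pow_div_factorial_le_exp (l / 4) (by positivity) (m + 1)
  have b : l ^ m ≤ (l / 4) ^ (m + 1) / ((m + 1).factorial : ℝ) := by
    rw [div_pow, div_div, le_div_iff₀ p0, pow_succ l m]
    exact mul_le_mul_of_nonneg_left h (by positivity)
  rw [Real.exp_neg, ← div_eq_mul_inv, div_le_one (Real.exp_pos _)]
  exact b.trans a

theorem theta {M : ℕ} (hM : 1 ≤ M) :
    1 / 2 ≤ (1 - 1 / (80 * (M : ℝ))) ^ (40 * M) := by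
  have m1 : (1 : ℝ) ≤ M := by exact_mod_cast hM
  have a : 1 / (80 * (M : ℝ)) ≤ 1 := by rw [div_le_one (by linarith)]; linarith
  have b := one_add_mul_le_pow (a := -(1 / (80 * (M : ℝ)))) (by linarith) (40 * M)
  have c : ((40 * M : ℕ) : ℝ) * -(1 / (80 * (M : ℝ))) = -(1 / 2) := by
    push_cast; field_simp; norm_num
  rw [c] at b
  calc (1 : ℝ) / 2 = 1 + -(1 / 2) := by norm_num
    _ ≤ _ := b
    _ = _ := by rw [sub_eq_add_neg]

theorem res {y : ℝ} {M : ℕ} (h : 2 * y ≤ M) : 1 / 2 ^ M ≤ Real.exp (-y) := by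
  have a : Real.exp (1 / 2) ≤ 2 := by
    have h1 : Real.exp (1 / 2) * Real.exp (1 / 2) = Real.exp 1 := by rw [← Real.exp_add]; norm_num
    have h2 := Real.exp_one_lt_d9
    have h3 := Real.exp_pos (1 / 2)
    nlinarith
  have b : Real.exp y ≤ 2 ^ M := by
    calc Real.exp y ≤ Real.exp (M * (1 / 2)) := Real.exp_le_exp.2 (by linarith)
      _ = Real.exp (1 / 2) ^ M := Real.exp_nat_mul _ _
      _ ≤ 2 ^ M := pow_le_pow_left₀ (Real.exp_pos _).le a M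
  rw [Real.exp_neg, one_div]
  exact inv_anti₀ (Real.exp_pos _) b

theorem main (G C H S n a k Z P B q E m : ℕ) (Cr x l y : ℝ) (hG : 1 ≤ G) (hH : H = G + C + 1)
    (hS : H * G ≤ S) (hn : n = S + 4) (ha : a = 6 * n + S + 4) (hk : a * G ≤ k) (hk1 : a ≤ k)
    (hk2 : H ≤ k) (hZ : k * G ≤ Z) (hZ1 : C ≤ Z) (hP : 6 * n + S + C + 2 ≤ P)
    (hm : m = (P + 1) * G + C) (hP2 : m + 3 ≤ P * P) (hB1 : P * P * G + 1 ≤ B) (hB2 : m + 2 ≤ B)
    (hB3 : 3 * Z + 9 ≤ B) (hB4 : P + 1 ≤ B) (hB5 : 3 * B ≤ B * B)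
    (hq : q = B * B + k + a + S + 3) (hE : E = 2 * Z + 3 * G + C + S + 9)
    (hx : 1000 ≤ x) (hCr : Cr ≤ x) (hCr0 : 0 ≤ Cr) (hC : (C : ℝ) ≤ x) (hl : l = x ^ B)
    (hy : y = l ^ B) (he : y ^ E * Real.exp (-(l / 4)) ≤ 1) :
    ∃ p : Par, Num G C Cr P B (B * q) x l y p := by
  have x1 : (1 : ℝ) ≤ x := by linarith
  have xl2 : 2 * x ≤ l := by
    calc 2 * x ≤ x ^ 2 := by nlinarith
      _ ≤ l := hl ▸ pow_le_pow_right₀ x1 (by omega)
  have l1 : (1 : ℝ) ≤ l := by linarith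
  have lk : (1000 : ℝ) ≤ l := by linarith
  have lp : ∀ {i j : ℕ}, i ≤ j → l ^ i ≤ l ^ j := fun h => pow_le_pow_right₀ l1 h
  have lpy : ∀ {i : ℕ}, i ≤ B → l ^ i ≤ y := fun h => hy ▸ lp h
  have lc : ∀ (c : ℝ) {i j : ℕ}, c ≤ 1000 → i + 1 ≤ j → c * l ^ i ≤ l ^ j := fun c i j h1 h2 => by
    calc c * l ^ i ≤ l * l ^ i := mul_le_mul_of_nonneg_right (h1.trans lk) (by positivity)
      _ = l ^ (i + 1) := by ring
      _ ≤ l ^ j := lp h2
  have ly : l ≤ y := by simpa using lpy (i := 1) (by omega)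
  have yk : (1000 : ℝ) ≤ y := lk.trans ly
  have y1 : (1 : ℝ) ≤ y := by linarith
  have y0 : (0 : ℝ) < y := by linarith
  have l0 : (0 : ℝ) < l := by linarith
  -- integer powers of `y`
  have le : ∀ {i j : ℤ}, i ≤ j → y ^ i ≤ y ^ j := fun h => zpow_le_zpow_right₀ y1 h
  have po : ∀ i : ℤ, 0 < y ^ i := fun i => zpow_pos y0 i
  have mu : ∀ i j : ℤ, y ^ i * y ^ j = y ^ (i + j) := fun i j => (zpow_add₀ y0.ne' i j).symm
  have pw : ∀ (i : ℤ) (j : ℕ), (y ^ i) ^ j = y ^ (i * j) := fun i j => by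
    rw [zpow_mul, zpow_natCast]
  have nt : ∀ j : ℕ, y ^ j = y ^ (j : ℤ) := fun j => (zpow_natCast y j).symm
  have iv : ∀ j : ℕ, (y ^ j)⁻¹ = y ^ (-(j : ℤ)) := fun j => by rw [zpow_neg, zpow_natCast]
  have y1' : y = y ^ (1 : ℤ) := (zpow_one y).symm
  have y2' : y ^ 2 = y ^ (2 : ℤ) := nt 2
  have cm : ∀ (c : ℝ) {i j : ℤ}, c ≤ 1000 → i + 1 ≤ j → c * y ^ i ≤ y ^ j := fun c i j h1 h2 => by
    calc c * y ^ i ≤ y ^ (1 : ℤ) * y ^ i :=
          mul_le_mul_of_nonneg_right (by rw [zpow_one]; linarith) (po i).le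
      _ = y ^ (1 + i) := mu _ _
      _ ≤ y ^ j := le (by omega)
  have c1 : ∀ (c : ℝ) {j : ℤ}, c ≤ 1000 → 1 ≤ j → c ≤ y ^ j := fun c j h1 h2 => by
    simpa using cm c (i := 0) (j := j) h1 (by omega)
  have o1 : ∀ {j : ℤ}, j ≤ 0 → y ^ j ≤ 1 := fun h => by simpa using le h
  have sm : ∀ (c : ℝ) {j : ℤ}, c ≤ 1000 → j ≤ -1 → c * y ^ j ≤ 1 := fun c j h1 h2 => by
    simpa using cm c (i := j) (j := 0) h1 (by omega)
  have yy : ∀ {u : ℝ} {j : ℤ}, u ≤ y → 1 ≤ j → u ≤ y ^ j := fun h1 h2 =>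
    h1.trans (y1'.le.trans (le h2))
  have my : ∀ {u : ℝ} {i j : ℤ}, u ≤ y → 1 + i ≤ j → u * y ^ i ≤ y ^ j := fun {u i j} h1 h2 => by
    calc u * y ^ i ≤ y ^ (1 : ℤ) * y ^ i :=
          mul_le_mul_of_nonneg_right (by rwa [zpow_one]) (po i).le
      _ = y ^ (1 + i) := mu _ _
      _ ≤ y ^ j := le h2
  have ym : ∀ {u : ℝ} {i j : ℤ}, u ≤ y → 1 + i ≤ j → y ^ i * u ≤ y ^ j := fun h1 h2 => by
    rw [mul_comm]; exact my h1 h2
  have hf : ∀ {i j : ℤ}, i + 1 ≤ j → y ^ i ≤ y ^ j / 2 := fun h => by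
    have := cm 2 (by norm_num) h; linarith
  have hS' : (H : ℤ) * G ≤ S := by exact_mod_cast hS
  have hk' : (a : ℤ) * G ≤ k := by exact_mod_cast hk
  have hZ' : (k : ℤ) * G ≤ Z := by exact_mod_cast hZ
  have hB5' : 3 * (B : ℤ) ≤ B * B := by exact_mod_cast hB5
  have hq' : (q : ℤ) = B * B + k + a + S + 3 := by exact_mod_cast hq
  -- the level of `l`
  have K0l : (x ^ (P * P)) ^ G ≤ l / 4 := by
    rw [← pow_mul, le_div_iff₀ (by norm_num)]
    calc x ^ (P * P * G) * 4 ≤ x ^ (P * P * G) * x := by gcongr; linarith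
      _ = x ^ (P * P * G + 1) := by ring
      _ ≤ l := hl ▸ pow_le_pow_right₀ x1 hB1
  have K0y : (x ^ (P * P)) ^ G ≤ y := by linarith
  have K0 : x ^ (P * P) ≤ l ^ P := by
    calc x ^ (P * P) ≤ (x ^ (P * P)) ^ G := le_self_pow₀ (one_le_pow₀ x1) (by omega)
      _ ≤ l ^ 1 := by rw [pow_one]; linarith
      _ ≤ l ^ P := lp (by omega)
  have KaG : (l ^ (P + 1)) ^ G = l ^ ((P + 1) * G) := (pow_mul _ _ _).symm
  have Kay : (l ^ (P + 1)) ^ G ≤ y := by rw [KaG]; exact lpy (by omega)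
  have lCy : l ^ C ≤ y := lpy (by omega)
  have My : l ^ (m + 2) ≤ y := lpy hB2
  have PG : P + 1 ≤ (P + 1) * G := Nat.le_mul_of_pos_right _ hG
  have ex : Real.exp (-(l / 4)) ≤ y ^ (-(E : ℤ)) := by
    rw [← iv, ← one_div, le_div_iff₀ (by positivity), mul_comm]; exact he
  have ex1 : Real.exp (-l) ≤ y ^ (-(E : ℤ)) := (Real.exp_le_exp.2 (by linarith)).trans ex
  have ex3 : Real.exp (-(l / 3)) ≤ y ^ (-(E : ℤ)) := (Real.exp_le_exp.2 (by linarith)).trans ex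
  have KcG : (y ^ (H : ℤ)) ^ G ≤ y ^ (S : ℤ) := by rw [pw]; exact le hS'
  have KG : (y ^ (k : ℤ)) ^ G ≤ y ^ (Z : ℤ) := by rw [pw]; exact le hZ'
  have S1 : (1 : ℝ) ≤ y ^ (S : ℤ) := c1 1 (by norm_num) (by
    have : 1 ≤ H * G := Nat.mul_pos (by omega) hG
    omega)
  have Sy : y ≤ y ^ (S : ℤ) := yy le_rfl (by
    have : 1 ≤ H * G := Nat.mul_pos (by omega) hG
    omega)
  -- the number of steps
  obtain ⟨M, hM1, hM2⟩ : ∃ M : ℕ, 2 * y ≤ M ∧ (M : ℝ) ≤ 3 * y :=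
    ⟨⌈2 * y⌉₊, Nat.le_ceil _, by have := Nat.ceil_lt_add_one (a := 2 * y) (by linarith); linarith⟩
  have M1 : (1 : ℝ) ≤ M := by linarith
  have M1' : 1 ≤ M := by exact_mod_cast M1
  have t0 : 0 < 1 / (80 * (M : ℝ)) := by positivity
  have t1 : 1 / (80 * (M : ℝ)) ≤ 1 / 2 := one_div_le_one_div_of_le (by norm_num) (by linarith)
  have tM := theta M1'
  have e1K : y ^ (-(3 * (Z : ℤ) + 6)) * (y ^ (k : ℤ)) ^ G ≤ y ^ (-(2 * (Z : ℤ) + 6)) := by
    rw [pw, mu]; exact le (by omega)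
  have e2s : 12 * y ^ (-((Z : ℤ) + 3)) ≤ 1 := sm 12 (by norm_num) (by omega)
  have e20 := po (-((Z : ℤ) + 3))
  have tail : ∀ u : ℝ, 0 ≤ u → u ≤ y ^ (S : ℤ) →
      3 * ((u + 1) * (l ^ C * Real.exp (-(l / 3)))) ≤ 6 * y ^ (-3 : ℤ) := fun u u0 hu => by
    calc 3 * ((u + 1) * (l ^ C * Real.exp (-(l / 3))))
        ≤ 3 * ((y ^ (S : ℤ) + y ^ (S : ℤ)) * (y ^ (1 : ℤ) * y ^ (-(E : ℤ)))) := by
          gcongr
          rwa [zpow_one]
      _ = 6 * (y ^ (S : ℤ) * (y ^ (1 : ℤ) * y ^ (-(E : ℤ)))) := by ring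
      _ ≤ 6 * y ^ (-3 : ℤ) := by
          rw [mu, mu]; exact mul_le_mul_of_nonneg_left (le (by omega)) (by norm_num)
  have lQ : l ^ (B * q) = y ^ (q : ℤ) := by rw [pow_mul, ← hy, nt]
  refine ⟨⟨l ^ (P + 1), l ^ (m + 2), y ^ (H : ℤ), y ^ (a : ℤ), y ^ (k : ℤ), 1 - 1 / (80 * (M : ℝ)),
    y ^ (-(3 * (Z : ℤ) + 6)), y ^ (-((Z : ℤ) + 3)), y ^ (-(n : ℤ)), y ^ (-1 : ℤ),
    y ^ (-(2 * (n : ℤ) + 1)), y ^ (-(6 * (n : ℤ) + S)), y ^ (-(2 * (Z : ℤ) + 6)), M⟩, ?_⟩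
  exact
  { x_ge := hx
    x_Cr := hCr
    x_l := xl2
    l_y := ly
    C_l := by linarith
    lC_y := lCy
    x_K0 := le_self_pow₀ x1 (by omega)
    lP_one := one_le_pow₀ l1
    def_small := by
      calc (y ^ 2 * l ^ P) ^ G * Real.exp (-l) ≤ (y ^ (3 : ℤ)) ^ G * y ^ (-(E : ℤ)) := by
            gcongr
            rw [y2']; exact ym (lpy (by omega)) (by omega)
        _ ≤ (y ^ C)⁻¹ := by rw [pw, mu, iv]; exact le (by omega)
    δ_pos := po _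
    δ_le := by
      have := sm 20 (j := -(n : ℤ)) (by norm_num) (by omega)
      show y ^ (-(n : ℤ)) ≤ _
      linarith
    ρ1_le := by
      have h1 : Cr * l ^ P ≤ y := by
        calc Cr * l ^ P ≤ l * l ^ P := by gcongr; linarith
          _ = l ^ (P + 1) := by ring
          _ ≤ y := lpy hB4
      simpa using ym (i := -1) (j := 0) h1 (by omega)
    ρ3_pos := po _
    ρ5_pos := po _
    c0_nonneg := (po _).le
    c0_ge := by
      have h1 : Real.exp (-l) ≤ y ^ (-(E : ℤ)) * Real.exp (-(l / 4)) := by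
        calc Real.exp (-l) ≤ Real.exp (-(l / 4) + -(l / 4)) := Real.exp_le_exp.2 (by linarith)
          _ = Real.exp (-(l / 4)) * Real.exp (-(l / 4)) := Real.exp_add _ _
          _ ≤ _ := mul_le_mul_of_nonneg_right ex (Real.exp_pos _).le
      calc 3 * y ^ 2 * Real.exp (-l) ≤ 3 * y ^ 2 * (y ^ (-(E : ℤ)) * Real.exp (-(l / 4))) := by
            gcongr
        _ = 3 * (y ^ (2 : ℤ) * y ^ (-(E : ℤ))) * Real.exp (-(l / 4)) := by rw [y2']; ring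
        _ ≤ _ := by
            rw [mu]
            exact mul_le_mul_of_nonneg_right (cm 3 (by norm_num) (by omega)) (Real.exp_pos _).le
    K0_lam := K0l
    K0_L := yy K0y (by omega)
    K0_ρ := ym K0y (by omega)
    L_K := by show (y ^ (a : ℤ)) ^ G ≤ _; rw [pw]; exact le hk'
    L_le := le (by omega)
    L_θ := by
      have h1 : 80 * (M : ℝ) ≤ y ^ (a : ℤ) := by
        have := cm 240 (i := 1) (j := a) (by norm_num) (by omega)
        rw [zpow_one] at this; linarith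
      show 1 ≤ y ^ (a : ℤ) * (1 - (1 - 1 / (80 * (M : ℝ))))
      rw [sub_sub_cancel, mul_one_div, le_div_iff₀ (by positivity)]; linarith
    L_ρ := by
      show _ ≤ y ^ (a : ℤ) * y ^ (-(6 * (n : ℤ) + S))
      rw [mu, y2']; exact cm 4 (by norm_num) (by omega)
    θ_half := by show 1 / 2 ≤ 1 - 1 / (80 * (M : ℝ)); linarith
    θ_one := by show 1 - 1 / (80 * (M : ℝ)) < 1; linarith
    θ_six := tM.trans (pow_le_pow_of_le_one (by linarith) (by linarith) (by omega))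
    θ_M := tM
    Ka_ge := by
      have := lc 2 (i := P) (j := P + 1) (by norm_num) le_rfl
      show _ ≤ l ^ (P + 1)
      linarith
    Ka_C := lp (by omega)
    Ka_δ := by
      show (l ^ (P + 1)) ^ G * y ^ (-(n : ℤ)) ≤ y ^ (-1 : ℤ) / y ^ 2
      rw [div_eq_mul_inv, iv, mu]; exact my Kay (by omega)
    Ka_K := yy Kay (by omega)
    Ka_ρ := by
      show (l ^ (P + 1)) ^ G * y ^ (-(2 * (n : ℤ) + 1)) ≤ (y ^ (-(n : ℤ))) ^ 2
      rw [pw]; exact my Kay (by omega)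
    Ka_ρ' := ym Kay (by omega)
    e1_C := by rw [iv]; exact e1K.trans (le (by omega))
    e1_one := e1K.trans (o1 (by omega))
    Mlo_ge := by
      show l ^ (P + 1) + ((l ^ (P + 1)) ^ G + 1) * l ^ C ≤ l ^ (m + 2)
      have h1 : l ^ (P + 1) ≤ l ^ m := lp (by omega)
      have h2 : l ^ C ≤ l ^ m := lp (by omega)
      have h3 : (l ^ (P + 1)) ^ G * l ^ C = l ^ m := by rw [KaG, ← pow_add, hm]
      have h4 := lc 3 (i := m) (j := m + 2) (by norm_num) (by omega)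
      rw [add_mul, h3]; linarith
    Mlo_Kc := yy My (by omega)
    Kc_C := by rw [nt]; exact le (by omega)
    Kc_δ := by
      show (y ^ (H : ℤ)) ^ G * (y ^ (-(n : ℤ))) ^ 3 ≤ y ^ (-(2 * (n : ℤ) + 1)) / 2 / y ^ 2
      rw [div_right_comm, div_eq_mul_inv _ (y ^ 2), iv, mu, pw, pw, mu]
      exact hf (by omega)
    Kc_K := KcG.trans (le (by omega))
    Kc_le := le (by omega)
    Kc_ρ := by
      show (y ^ (H : ℤ)) ^ G * y ^ (-(6 * (n : ℤ) + S)) ≤ ((y ^ (-(n : ℤ))) ^ 3) ^ 2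
      rw [pw, pw, pw, mu]; exact le (by omega)
    Kc_ρ' := by
      show y ^ (-(6 * (n : ℤ) + S)) * (y ^ (H : ℤ)) ^ G ≤ y ^ (-(2 * (n : ℤ) + 1)) / 2
      rw [pw, mu]; exact hf (by omega)
    ρ3_le := le (by omega)
    ρ5_le := hf (by omega)
    K_ρ := by
      show 2 ≤ y ^ (k : ℤ) * y ^ (-(6 * (n : ℤ) + S))
      rw [mu]; exact c1 2 (by norm_num) (by omega)
    K_A := by
      have := cm 2 (i := 1) (j := k) (by norm_num) (by omega)
      rw [zpow_one] at this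
      show _ ≤ y ^ (k : ℤ)
      linarith
    ε1_pos := po _
    ε1_le := le (by omega)
    ε2_one := by show y ^ (-((Z : ℤ) + 3)) ≤ _; linarith
    ε2_K := by
      show y ^ (-((Z : ℤ) + 3)) * (y ^ (k : ℤ)) ^ G ≤ 1
      rw [pw, mu]; exact o1 (by omega)
    c_ε2 := by
      have p1 := po (-(2 * (Z : ℤ) + 6))
      have p2 := po (-(3 * (Z : ℤ) + 6))
      have p3 := po (k : ℤ)
      have p4 := po (Z : ℤ)
      calc (y ^ (k : ℤ)) ^ G * (y ^ (-(2 * (Z : ℤ) + 6)) +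
            y ^ (-(3 * (Z : ℤ) + 6)) * (y ^ (k : ℤ)) ^ G + y ^ (-(3 * (Z : ℤ) + 6)) * (y ^ (k : ℤ)) ^ G)
          ≤ y ^ (Z : ℤ) * (y ^ (-(2 * (Z : ℤ) + 6)) + y ^ (-(2 * (Z : ℤ) + 6)) +
            y ^ (-(2 * (Z : ℤ) + 6))) :=
            mul_le_mul KG (by linarith) (by positivity) p4.le
        _ = 3 * (y ^ (Z : ℤ) * y ^ (-(2 * (Z : ℤ) + 6))) := by ring
        _ ≤ y ^ (-((Z : ℤ) + 3)) := by rw [mu]; exact cm 3 (by norm_num) (by omega)
    N01 := by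
      show y ^ 2 ≤ y ^ (-(3 * (Z : ℤ) + 6)) * y ^ B
      rw [y2', nt B, mu]; exact le (by omega)
    N12 := by
      show y ^ B ≤ y ^ (-(3 * (Z : ℤ) + 6)) * (y ^ B) ^ 2
      rw [nt B, pw, mu]; exact le (by omega)
    N23 := by
      show (y ^ B) ^ 2 ≤ y ^ (-(3 * (Z : ℤ) + 6)) * (y ^ B) ^ B
      rw [nt B, pw, pw, mu]; exact le (by push_cast; linarith [show (3 * Z + 9 : ℤ) ≤ B by omega])
    res := res hM1
    lo_fin := by
      have h1 := lc 2 (i := m + 2) (j := P * P) (by norm_num) hP2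
      have h2 : (1 : ℝ) ≤ l ^ (m + 2) := one_le_pow₀ l1
      show l ^ (m + 2) + 3 * y ^ (-((Z : ℤ) + 3)) ≤ _
      linarith
    hi_fin := by
      have p1 := po (S : ℤ)
      have h1 : ((y ^ (H : ℤ)) ^ G + 1) * l ^ C ≤ (y ^ (S : ℤ) + y ^ (S : ℤ)) * y := by gcongr
      have h2 : y ^ (S : ℤ) * y ≤ y ^ ((S : ℤ) + 1) := ym le_rfl (by omega)
      have h3 : (1 : ℝ) ≤ y ^ ((S : ℤ) + 1) := c1 1 (by norm_num) (by omega)
      have h4 := cm 3 (i := (S : ℤ) + 1) (j := P) (by norm_num) (by omega)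
      show ((y ^ (H : ℤ)) ^ G + 1) * l ^ C + y ^ (-((Z : ℤ) + 3)) ≤ y ^ P
      rw [nt P]; linarith
    det_fin := by
      calc 1000 * (l ^ (m + 2)) ^ 2 * y ^ (-((Z : ℤ) + 3))
          ≤ 1000 * y ^ 2 * y ^ (-((Z : ℤ) + 3)) := by gcongr
        _ = 1000 * (y ^ (2 : ℤ) * y ^ (-((Z : ℤ) + 3))) := by rw [y2']; ring
        _ ≤ 1 := by rw [mu]; exact sm 1000 le_rfl (by omega)
    near_fin := by rw [iv]; exact cm 12 (by norm_num) (by omega)
    ρ_fin := by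
      show 16 ≤ y ^ (-(6 * (n : ℤ) + S)) * y ^ P
      rw [nt P, mu]; exact c1 16 (by norm_num) (by omega)
    small_fin := by
      have h1 := tail _ (by positivity) (Kay.trans Sy)
      have h2 := tail _ (pow_nonneg (po _).le _) KcG
      have h3 : y ^ (-((Z : ℤ) + 3)) ≤ y ^ (-3 : ℤ) := le (by omega)
      have h4 := cm 24 (i := -3) (j := -1) (by norm_num) (by omega)
      have h5 : y ^ (-1 : ℤ) ≤ 1 / l := by
        rw [zpow_neg_one, one_div]; exact inv_anti₀ l0 ly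
      show 3 * (((l ^ (P + 1)) ^ G + 1) * (l ^ C * Real.exp (-(l / 3)))) +
        3 * (((y ^ (H : ℤ)) ^ G + 1) * (l ^ C * Real.exp (-(l / 3)))) +
        12 * y ^ (-((Z : ℤ) + 3)) ≤ 1 / l
      linarith
    Q_size := by
      have p1 := po (k : ℤ)
      have h1 := Kay.trans Sy
      calc y ^ (k : ℤ) * ((l ^ (P + 1)) ^ G + (y ^ (H : ℤ)) ^ G + 4)
          ≤ y ^ (k : ℤ) * (6 * y ^ (S : ℤ)) := mul_le_mul_of_nonneg_left (by linarith) p1.le
        _ = 6 * (y ^ (k : ℤ) * y ^ (S : ℤ)) := by ring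
        _ ≤ l ^ (B * q) := by
            rw [mu, lQ]
            exact cm 6 (by norm_num) (by linarith [show (0 : ℤ) ≤ B by omega, show (0 : ℤ) ≤ a by omega])
    Q_rad := by
      show 16 * (Cr * (y ^ B) ^ B) ≤ y ^ (-(6 * (n : ℤ) + S)) * l ^ (B * q)
      rw [lQ, nt B, pw, mu]
      have h1 : Cr * y ^ ((B : ℤ) * B) ≤ y ^ (1 + (B : ℤ) * B) := my (by linarith) le_rfl
      have h2 := cm 16 (i := 1 + (B : ℤ) * B) (j := -(6 * (n : ℤ) + S) + q) (by norm_num)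
        (by linarith [show (a : ℤ) = 6 * n + S + 4 by omega, show (0 : ℤ) ≤ k by omega,
          show (0 : ℤ) ≤ S by omega])
      linarith }

end NumM

theorem numSt : NumSt := by
  intro G C Cr hG hCr
  obtain ⟨H, hH⟩ : ∃ H, H = G + C + 1 := ⟨_, rfl⟩
  obtain ⟨n, hn⟩ : ∃ n, n = H * G + 4 := ⟨_, rfl⟩
  obtain ⟨a, ha⟩ : ∃ a, a = 6 * n + H * G + 4 := ⟨_, rfl⟩
  obtain ⟨k, hk⟩ : ∃ k, k = a * G + a + H := ⟨_, rfl⟩
  obtain ⟨Z, hZ⟩ : ∃ Z, Z = k * G + C := ⟨_, rfl⟩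
  refine ⟨6 * n + H * G + C + G + 3, fun P hP => ?_⟩
  refine ⟨P * P * G + (P + 1) * G + C + 3 * Z + P + 9, fun B hB => ?_⟩
  obtain ⟨E, hE⟩ : ∃ E, E = 2 * Z + 3 * G + C + H * G + 9 := ⟨_, rfl⟩
  refine ⟨B * (B * B + k + a + H * G + 3),
    max (max 1000 Cr) (max C ((4 : ℝ) ^ (B * E + 1) * ((B * E + 1).factorial : ℝ))), fun x hx => ?_⟩
  simp only [ge_iff_le, max_le_iff] at hx
  obtain ⟨⟨h1, h2⟩, h3, h4⟩ := hx
  have hB1 : 3 ≤ B := by omega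
  have xl : x ≤ x ^ B := le_self_pow₀ (by linarith) (by omega)
  have hP2 : (P + 1) * G + C + 3 ≤ P * P := by
    have h5 : G + C + 3 ≤ P := by omega
    nlinarith
  refine NumM.main G C H (H * G) n a k Z P B _ E ((P + 1) * G + C) Cr x _ _ hG hH le_rfl hn ha
    (by omega) (by omega) (by omega) (by omega) (by omega) (by omega) rfl hP2 (by omega) (by omega)
    (by omega) (by omega) (Nat.mul_le_mul_right B hB1) rfl hE h1 h2 (by linarith) h3 rfl rfl ?_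
  rw [← pow_mul]
  exact NumM.exp_big _ (h4.trans xl)

end Pool.Agent.Lib.MP_fbbbeb_an.Cas
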