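import Mathlib
import Pool.Agent.Lib.MP_fbbbeb_an.Cas.CycS
import Pool.Agent.Lib.MP_fbbbeb_an.Cas.Gev

/-! The increment of the substituted flow maps. -/

set_option autoImplicit false

noncomputable section

namespace Pool.Agent.Lib.MP_fbbbeb_an.Cas

open Pool.Agent.Lib.MP_fbbbeb_an.Pub

theorem nxSt (_hG : GeoSt) (hF : FulSt) : NxSt := by
  obtain ⟨C, hC, hF⟩ := hF
  refine ⟨C, hC, fun Q l ρ M d d' X Y hcf hT hs hρ hρ1 hX hXY hY hY1 hbig hM hQ => ?_⟩
  obtain ⟨U, hU, -, hUa, -, -, -, hUz, hUb⟩ := hF d'.T d'.T d'.N d'.kv d'.δ d'.δa hcf le_rfl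
  have hinc : d'.Xf d'.T - d.Xf d'.T = fun i => U (Y i) := by
    funext i
    rw [Pi.sub_apply, hX]
    simp only [EndD.Xf]
    rw [hXY]
    simp only [← hU, Pi.add_apply, map_add, add_sub_cancel_left]
  have hN0 : 1 ≤ d'.N 0 := hcf.1
  have hN03 : d'.N 0 ≤ d'.N 3 := hcf.2.1 (by decide)
  have hN3 : 1 ≤ d'.N 3 := hN0.trans hN03
  have hC0 : 0 < C := by linarith
  have hL : 0 < l ^ Q := by
    have h1 : 0 < ρ * l ^ Q := lt_of_lt_of_le (by positivity) hQ
    exact (mul_pos_iff_of_pos_left hρ).1 h1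
  have h3 : (l ^ Q)⁻¹ ≤ ρ / C / d'.N 3 := by
    rw [div_div, le_div_iff₀ (by positivity), inv_mul_le_iff₀ hL]
    linarith
  have h4 : ρ / C / d'.N 3 ≤ ρ / C := div_le_self (by positivity) hN3
  refine ⟨hT, hs, ?_, ?_, hbig⟩
  · rw [hinc]
    intro i
    have a : GB 1 (rad ρ (d'.N 3)) (fun t => Real.exp (-(l / 4 * (d'.T - t)))) M (Y i) := by
      refine (hY i).monoR (fun j => ?_) fun j => ?_
      · rcases j with _ | j | j <;> simp only [rad] <;> positivity
      · rcases j with _ | j | j <;> simp only [rad, le_refl]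
        exact div_le_div_of_nonneg_left hρ.le (by linarith) hN03
    refine (hUb 1 ρ _ M (Y i) hρ hρ1 a).mono (fun _ => by positivity) (fun j => ?_)
      fun t _ => mul_le_mul_of_nonneg_right hM (Real.exp_pos _).le
    rcases j with _ | j | j <;> simp only [rad]
    · exact h3.trans h4
    · exact h3
    · exact h3.trans h4
  · intro z hz hzs
    obtain ⟨z', hz', h1, h2⟩ := hUz z hz
    have e : evm (D0m (d'.Xf d'.T - d.Xf d'.T)) z = evm (Dm d'.fr Y) z' := by
      rw [hinc]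
      unfold evm
      congr 2
      funext i j
      simp only [D0m, Dm, Matrix.of_apply, hUa, h2, EndD.fr]
    rw [e]
    exact hY1 z' hz' (h1 ▸ hzs)

end Pool.Agent.Lib.MP_fbbbeb_an.Cas
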