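import Mathlib
import Pool.Agent.Lib.MP_fbbbeb_an.Cas.Stmt
import Pool.Agent.Lib.MP_fbbbeb_an.Cas.Geo0

/-! The source field of a wave. -/

set_option autoImplicit false

noncomputable section

namespace Pool.Agent.Lib.MP_fbbbeb_an.Cas

open Pool.Agent.Lib.MP_fbbbeb_an.Pub
open scoped ContDiff Topology RealInnerProductSpace Matrix Nat

namespace Pf

variable {T : ℝ}

theorem card_le : (Fintype.card Gp : ℝ) ≤ 24 := by
  classical
  have h : Fintype.card Gp ≤ Fintype.card (Fin 3 × (Fin 3 → Bool)) := by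
    choose c s hs hg using fun g : Gp => g.2
    refine Fintype.card_le_of_injective (fun g => (c g, fun i => decide (s g i = 1))) ?_
    intro g h e
    have e1 : c g = c h := congrArg Prod.fst e
    have e2 : ∀ i, s g i = s h i := fun i => by
      have e3 : decide (s g i = 1) = decide (s h i = 1) := congrFun (congrArg Prod.snd e) i
      rw [decide_eq_decide] at e3
      rcases hs g i with h1 | h1 <;> rcases hs h i with h2 | h2
      · rw [h1, h2]
      · exact absurd (e3.1 h1) (by rw [h2]; norm_num)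
      · exact absurd (e3.2 h2) (by rw [h1]; norm_num)
      · rw [h1, h2]
    apply Subtype.ext
    ext a i
    rw [hg, hg, e1, e2]
  have h2 : Fintype.card (Fin 3 × (Fin 3 → Bool)) = 24 := by simp
  rw [h2] at h
  exact_mod_cast h

/-- label part -/
def lb (p : E) (b : ℝ) (i : Fin 3) (a : E) : ℝ := ∑ g : Gp, bmp (dc g.1 a / b ^ 2) * ‖a‖ * g.1 p i

/-- phase part -/
def ph (j : Fin 3) (d : ℝ) (y : E) : ℝ :=
  ∏ l : Fin 3, if l < j then bmp ((1 - Real.cos (y l)) / d ^ 2) else 1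

theorem pif_eq (j : Fin 3) (p : E) (d b : ℝ) (i : Fin 3) :
    pif T j p d b i = mkA T fun z => lb p b i z.2.1 * ph j d z.2.2 := rfl

theorem smL_cut (b : ℝ) (g : E ≃ₗᵢ[ℝ] E) : SmL fun a => bmp (dc g a / b ^ 2) := by
  have := smL_bmp_dc (b ^ 2)⁻¹ g
  simpa only [div_eq_inv_mul] using this

theorem smL_lb (p : E) (b : ℝ) (i : Fin 3) : SmL (lb p b i) :=
  SmL.sum _ fun g => ((smL_cut b g.1).mul smL_norm).mul (smL_const _)

theorem ph1_smooth (l : Fin 3) (d : ℝ) :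
    ContDiff ℝ ∞ fun z : Pt => bmp ((1 - Real.cos (z.2.2 l)) / d ^ 2) := by
  refine bmp_smooth.comp ((contDiff_const.sub (Real.contDiff_cos.comp ?_)).div_const _)
  exact (EuclideanSpace.proj (𝕜 := ℝ) l).contDiff.comp (contDiff_snd.comp contDiff_snd)

theorem cos_per (z : Pt) (j l : Fin 3) :
    Real.cos ((z + (2 * Real.pi) • vec (lp j)).2.2 l) = Real.cos (z.2.2 l) := by
  by_cases h : l = j
  · subst h
    simp [vec]
  · simp [vec, h]

theorem good_ph1 (l : Fin 3) (d : ℝ) :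
    Good T fun z : Pt => bmp ((1 - Real.cos (z.2.2 l)) / d ^ 2) :=
  ⟨(ph1_smooth l d).contDiffOn, fun j z _ => by simp only [cos_per]⟩

theorem good_pif (j : Fin 3) (p : E) (d b : ℝ) (i : Fin 3) :
    Good T fun z => lb p b i z.2.1 * ph j d z.2.2 := by
  refine ⟨(good_lab (smL_lb p b i)).1.mul (ContDiff.contDiffOn ?_), fun l z _ => ?_⟩
  · refine contDiff_prod fun l _ => ?_
    split_ifs
    · exact ph1_smooth l d
    · exact contDiff_const
  · simp only [ph, cos_per]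
    simp [vec]

theorem ev_pif (j : Fin 3) (p : E) (d b : ℝ) (i : Fin 3) {z : Pt} (hz : z ∈ Om T) :
    ev (pif T j p d b i) z = lb p b i z.2.1 * ph j d z.2.2 := ev_mkA (good_pif j p d b i) hz

theorem pd_lp_pif (j : Fin 3) (p : E) (d b : ℝ) (i : Fin 3) {l : Fin 3} (h : j ≤ l) :
    pd (lp l) (pif T j p d b i) = 0 := by
  refine G0.pd_mk_zero _ _ fun z s => ?_
  congr 1
  · simp [vec]
  · refine Finset.prod_congr rfl fun m _ => ?_
    split_ifs with hm
    · have : m ≠ l := (hm.trans_le h).ne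
      simp [vec, this]
    · rfl

theorem pd_lt_pif (j : Fin 3) (p : E) (d b : ℝ) (i : Fin 3) : pd lt (pif T j p d b i) = 0 :=
  G0.pd_mk_zero _ _ fun z s => by simp [vec]

theorem lb_zero (p : E) {b : ℝ} (hb : 0 < b) (i : Fin 3) {z : Pt} (hz : z ∉ cone b) :
    lb p b i z.2.1 = 0 := by
  refine Finset.sum_eq_zero fun g _ => ?_
  have h : b ^ 2 < dc g.1 z.2.1 := lt_of_not_ge fun h => hz ⟨g.1, g.2, h⟩
  rw [bmp_zero ((one_le_div (by positivity)).2 h.le)]
  simp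

theorem ph_zero {j l : Fin 3} (h : l < j) {d : ℝ} (hd : 0 < d) {z : Pt} (hz : z ∉ node d l) :
    ph j d z.2.2 = 0 := by
  refine Finset.prod_eq_zero (Finset.mem_univ l) ?_
  have h1 : d ^ 2 < 1 - Real.cos (z.2.2 l) := lt_of_not_ge hz
  rw [if_pos h, bmp_zero ((one_le_div (by positivity)).2 h1.le)]

theorem evv_pif (j : Fin 3) (p : E) (d b : ℝ) {z : Pt} (hz : z ∈ Om T) :
    evv (pif T j p d b) z =
      ph j d z.2.2 • ∑ g : Gp, (bmp (dc g.1 z.2.1 / b ^ 2) * ‖z.2.1‖) • g.1 p := by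
  ext i
  have e : evv (pif T j p d b) z i = ev (pif T j p d b i) z := rfl
  rw [e, ev_pif j p d b i hz, mul_comm]
  simp [lb, Finset.sum_apply]

theorem eqv_pif (j : Fin 3) (p : E) (d b : ℝ) : Eqv (pif T j p d b) := by
  intro h hh z
  by_cases hz : z ∈ Om T
  · rw [evv_pif j p d b hz, evv_pif j p d b ((G0.gz_mem h z).2 hz), map_smul, map_sum]
    congr 1
    symm
    refine Fintype.sum_equiv (Equiv.mulLeft (⟨h, hh⟩ : Gp)) _ _ fun g => ?_
    have e1 : ((Equiv.mulLeft (⟨h, hh⟩ : Gp) g : Gp) : E ≃ₗᵢ[ℝ] E) = h * g.1 := rfl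
    have e2 : (gz h z).2.1 = h z.2.1 := rfl
    rw [e1, e2, dc_act, LinearIsometryEquiv.norm_map, map_smul]
    rfl
  · have e : ∀ y, y ∉ Om T → evv (pif T j p d b) y = 0 := fun y hy => by
      ext i
      exact ev_out _ hy
    rw [e z hz, e _ fun h' => hz ((G0.gz_mem h z).1 h'), map_zero]

theorem cen_pif (j : Fin 3) (p : E) (d : ℝ) {b : ℝ} (hb : 0 < b) (hb1 : b ≤ 1 / 20) {t : ℝ}
    (ht : t ∈ Set.Ioo 0 T) : evv (pif T j p d b) (cz t) = p := by
  have hz : cz t ∈ Om T := ⟨ht.1, ht.2, a0_ne⟩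
  have e1 : (cz t).2.1 = a0 := rfl
  have e2 : ph j d (cz t).2.2 = 1 := by
    refine Finset.prod_eq_one fun l _ => ?_
    split_ifs
    · exact bmp_one (by simp [cz])
    · rfl
  rw [evv_pif j p d b hz, e1, e2, one_smul, Finset.sum_eq_single (1 : Gp)]
  · have e3 : ((1 : Gp) : E ≃ₗᵢ[ℝ] E) = 1 := rfl
    rw [e3, dc_a0, zero_div, bmp_one (by norm_num), a0_norm]
    simp
  · intro g _ hg
    have h1 : (1 : E ≃ₗᵢ[ℝ] E) ≠ g.1 := fun h => hg (Subtype.ext h.symm)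
    have h2 := dc_sep Gp.one_mem g.2 h1 (a := a0) (by rw [dc_a0]; norm_num)
    rw [bmp_zero ((one_le_div (by positivity)).2 (by nlinarith))]
    simp
  · simp

/-- bound of the label part -/
theorem GB_lb (p : E) {b : ℝ} (hb : 0 < b) (hb1 : b ≤ 1) (i : Fin 3) {r : Let → ℝ}
    (hr : ∀ i, 0 ≤ r i) (h1 : ∀ i, Cg * r (la i) ≤ b ^ 2) :
    GB 1 r w1 (72 * ‖p‖) (lab T (lb p b i)) := by
  have hb2 : 0 < b ^ 2 := by positivity
  have hb3 : b ^ 2 ≤ 1 := by nlinarith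
  have hc : 1 ≤ (b ^ 2)⁻¹ := (one_le_inv₀ hb2).2 hb3
  have h2 : ∀ i, Cg * (b ^ 2)⁻¹ * r (la i) ≤ 1 := fun i => by
    rw [mul_right_comm, ← div_eq_mul_inv, div_le_one hb2]
    exact h1 i
  have h3 : ∀ i, 300 * r (la i) ≤ 1 := fun i => by
    have := h1 i
    have h4 := hr (la i)
    simp only [Cg] at this
    nlinarith
  have e : lab T (lb p b i) = ∑ g : Gp, (g.1 p i) •
      ((lab T fun a => bmp ((b ^ 2)⁻¹ * dc g.1 a)) * nA T) := A_ext fun z hz => by
    rw [ev_lab (smL_lb p b i) hz, ev_sum]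
    refine Finset.sum_congr rfl fun g _ => ?_
    rw [ev_smul, ev_mul, ev_lab (smL_bmp_dc _ _) hz, ev_nA hz, div_eq_inv_mul, mul_comm]
  have h := GB.sum hr Finset.univ (d := 1) (w := w1) (M := fun _ : Gp => 3 * ‖p‖)
    (f := fun g : Gp => (g.1 p i) • ((lab T fun a => bmp ((b ^ 2)⁻¹ * dc g.1 a)) * nA T))
    fun g _ => by
      have h5 := ((GB.mul1 hr (GB_bmp_dc (T := T) bmp_smooth bmp_gev hr hc h2 g.1)
        (GB_norm hr h3)).cast (zero_add 1)).smul (g.1 p i)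
      refine h5.monoM (fun _ _ => zero_le_one) ?_
      have h6 : |g.1 p i| ≤ ‖p‖ := by
        simpa using PiLp.norm_apply_le (g.1 p) i
      linarith
  rw [e]
  refine h.monoM (fun _ _ => zero_le_one) ?_
  rw [Finset.sum_const, Finset.card_univ, nsmul_eq_mul]
  nlinarith [card_le, norm_nonneg p]

/-- one factor of the phase part -/
def pA (T : ℝ) (j : Fin 3) (d : ℝ) (l : Fin 3) : A T :=
  if l < j then mkA T fun z => bmp ((1 - Real.cos (z.2.2 l)) / d ^ 2) else 1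

theorem ev_pA (j : Fin 3) (d : ℝ) (l : Fin 3) {z : Pt} (hz : z ∈ Om T) :
    ev (pA T j d l) z = if l < j then bmp ((1 - Real.cos (z.2.2 l)) / d ^ 2) else 1 := by
  rw [pA]
  split_ifs
  · exact ev_mkA (good_ph1 l d) hz
  · exact ev_one hz

theorem GB_pA (j : Fin 3) {d : ℝ} (hd : 0 < d) (hd1 : d ≤ 1) (l : Fin 3) {r : Let → ℝ}
    (hr : ∀ i, 0 ≤ r i) (h1 : ∀ i, Cg * r (lp i) ≤ d ^ 2) : GB 0 r w1 1 (pA T j d l) := by
  rw [pA]
  split_ifs
  swap
  · exact GB.one hr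
  have hg := good_ph1 (T := T) l d
  refine ⟨fun z s hs => ?_, fun z hz => ?_⟩
  · by_cases hz : z ∈ Om T
    · rw [ev_mkA hg hz, ev_mkA hg ((G0.smul_mem z hs).2 hz)]
      simp
    · rw [ev_out _ hz, ev_out _ fun h => hz ((G0.smul_mem z hs).1 h), mul_zero]
  simp only [w1, mul_one]
  have hd2 : 0 < d ^ 2 := by positivity
  have hd3 : d ^ 2 ≤ 1 := by nlinarith
  have hc : 1 ≤ (d ^ 2)⁻¹ := (one_le_inv₀ hd2).2 hd3
  have e : (mkA T fun z => bmp ((1 - Real.cos (z.2.2 l)) / d ^ 2)) =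
      cmp bmp ((d ^ 2)⁻¹ • (1 - cs T l)) := A_ext fun y hy => by
    rw [ev_mkA hg hy, ev_cmp isOpen_univ bmp_smooth.contDiffOn (fun _ _ => trivial) hy,
      ev_smul, ev_sub, ev_one hy, ev_cs l hy, div_eq_inv_mul]
  have h0 : ∀ i : Let, (0 : ℝ) ≤ (fun _ => 1) i := fun _ => zero_le_one
  have h2 := ((GB.sub h0 (GB.one (T := T) h0) (GB_cs h0 (fun _ => le_rfl) l)).smul (d ^ 2)⁻¹).2 z hz
  simp only [w1, mul_one, abs_of_pos (inv_pos.2 hd2)] at h2
  have h := BdAt.cmp (M' := 1) (β := 1 / 512) isOpen_univ bmp_smooth.contDiffOn (fun _ _ => trivial)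
    (Sp_sub T hz) (fun _ => one_pos) (by norm_num) (by linarith) h2 fun n => by
      have h3 := mul_le_mul_of_nonneg_right (bmp_gev n (ev ((d ^ 2)⁻¹ • (1 - cs T l)) z))
        (show (0 : ℝ) ≤ (1 / 512) ^ n by positivity)
      refine h3.trans (le_of_eq ?_)
      rw [one_div, inv_pow]
      field_simp
  rw [← e] at h
  refine h.of_indep hr fun i => ?_
  rcases i with _ | i | i
  · exact Or.inl (G0.pd_mk_zero _ _ fun z s => by simp [vec])
  · exact Or.inl (G0.pd_mk_zero _ _ fun z s => by simp [vec])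
  · right
    have h4 := h1 i
    have h5 := hr (lp i)
    simp only [dvr, Cg] at h4 ⊢
    rw [le_div_iff₀ (by positivity)]
    have h6 : r (lp i) * (32 * ((d ^ 2)⁻¹ * (1 + 1)) / (1 / 512)) = 32768 * r (lp i) / d ^ 2 := by
      field_simp
      ring
    rw [h6, div_le_one hd2]
    nlinarith

theorem GB_pif (j : Fin 3) (p : E) {d b : ℝ} (hd : 0 < d) (hd1 : d ≤ 1) (hb : 0 < b) (hb1 : b ≤ 1)
    {r : Let → ℝ} (hr : ∀ i, 0 ≤ r i) (h1 : ∀ i, Cg * r (la i) ≤ b ^ 2)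
    (h2 : ∀ i, Cg * r (lp i) ≤ d ^ 2) : GBv 1 r w1 (Cg * ‖p‖) (pif T j p d b) := by
  intro i
  have e : pif T j p d b i = pA T j d 0 * (pA T j d 1 * (pA T j d 2 * lab T (lb p b i))) :=
    A_ext fun z hz => by
      rw [ev_pif j p d b i hz, ev_mul, ev_mul, ev_mul, ev_pA j d 0 hz, ev_pA j d 1 hz,
        ev_pA j d 2 hz, ev_lab (smL_lb p b i) hz, ph, Fin.prod_univ_three]
      ring
  have h := GB.mul1 hr (GB_pA (T := T) j hd hd1 0 hr h2) (GB.mul1 hr (GB_pA j hd hd1 1 hr h2)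
    (GB.mul1 hr (GB_pA j hd hd1 2 hr h2) (GB_lb p hb hb1 i hr h1)))
  rw [e]
  refine (h.cast (by norm_num)).monoM (fun _ _ => zero_le_one) ?_
  simp only [Cg]
  nlinarith [norm_nonneg p]

theorem wd_pos (j : Fin 3) {d : ℝ} (hd : 0 < d) : 0 < wd j d := by
  rw [wd]
  split_ifs <;> positivity

theorem wd_le (j : Fin 3) {d : ℝ} (hd : 0 < d) (hd1 : d ≤ 1 / 20) : wd j d ≤ 1 / 20 := by
  rw [wd]
  split_ifs
  · nlinarith [mul_pos hd hd]
  · exact hd1

end Pf

theorem pifSt : PifSt := by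
  refine ⟨Cg, by norm_num [Cg], fun T N kv δ δa j p hok hj => ?_⟩
  obtain ⟨-, -, -, hd, hd1, hb, hb1⟩ := hok
  have hd' := Pf.wd_pos j hd
  have hb' := Pf.wd_pos j hb
  have hd1' := Pf.wd_le j hd hd1
  have hb1' := Pf.wd_le j hb hb1
  refine ⟨fun i => ⟨fun l hl => Pf.pd_lp_pif j p _ _ i ?_, fun z hz => ?_⟩,
    fun i l hl => Pf.pd_lp_pif j p _ _ i (Fin.castSucc_le_castSucc_iff.1 hl),
    funext fun i => Pf.pd_lt_pif j p _ _ i, Pf.eqv_pif j p _ _,
    fun t ht => Pf.cen_pif j p _ hb' hb1' ht,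
    fun r hr h1 h2 => Pf.GB_pif j p hd' (by linarith) hb' (by linarith) hr h1 h2⟩
  · exact (Fin.succ_le_castSucc_iff.1 hl).le
  · by_cases hz' : z ∈ Om T
    swap
    · exact ev_out _ hz'
    rw [Pf.ev_pif j p _ _ i hz', mul_eq_zero]
    by_cases hc : z ∈ cone (wd j δa)
    swap
    · exact Or.inl (Pf.lb_zero p hb' i hc)
    right
    have hj' : j = 1 ∨ j = 2 := by
      fin_cases j
      · exact absurd rfl hj
      · exact Or.inl rfl
      · exact Or.inr rfl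
    rcases hj' with rfl | rfl
    · exact Pf.ph_zero (j := 1) (l := 0) (by decide) hd' fun h => hz ⟨hc, h⟩
    · by_cases h0 : z ∈ node (wd 2 δ) 0
      · exact Pf.ph_zero (j := 2) (l := 1) (by decide) hd' fun h => hz ⟨⟨hc, h0⟩, h⟩
      · exact Pf.ph_zero (j := 2) (l := 0) (by decide) hd' h0

end Pool.Agent.Lib.MP_fbbbeb_an.Cas
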