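import Mathlib
import Pool.Agent.Lib.MP_fbbbeb_an.Cas.Stmt

/-! Algebra of the projected inverse metric. -/

set_option autoImplicit false

noncomputable section

namespace Pool.Agent.Lib.MP_fbbbeb_an.Cas

open Pool.Agent.Lib.MP_fbbbeb_an.Pub
open scoped RealInnerProductSpace

namespace PioA

theorem inner_gm (F : L3) (x y : E) : ⟪x, (star F * F) y⟫ = ⟪F x, F y⟫ := by
  rw [mul_apply_eq_comp, ContinuousLinearMap.star_eq_adjoint,
    ContinuousLinearMap.adjoint_inner_right]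

theorem gm_symm (F : L3) (x y : E) : ⟪x, (star F * F) y⟫ = ⟪(star F * F) x, y⟫ := by
  rw [inner_gm, real_inner_comm y, inner_gm, real_inner_comm]

theorem gm_inj {F : L3} {K : ℝ} (h : ∀ x, ‖x‖ ≤ K * ‖F x‖) {x : E} (hx : (star F * F) x = 0) :
    x = 0 := by
  have h1 := inner_gm F x x
  rw [hx, inner_zero_right, real_inner_self_eq_norm_sq] at h1
  have h2 : ‖F x‖ = 0 := by simpa using h1.symm
  have h3 := h x
  rw [h2, mul_zero] at h3
  exact norm_le_zero_iff.1 h3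

theorem gm_unit {F : L3} {K : ℝ} (h : ∀ x, ‖x‖ ≤ K * ‖F x‖) : IsUnit (star F * F) := by
  rw [ContinuousLinearMap.isUnit_iff_bijective]
  have hi : Function.Injective ((star F * F : L3) : E →ₗ[ℝ] E) := by
    rw [injective_iff_map_eq_zero]
    intro x hx
    exact gm_inj h hx
  exact ⟨hi, LinearMap.injective_iff_surjective.1 hi⟩

theorem gm_inv {F : L3} {K : ℝ} (h : ∀ x, ‖x‖ ≤ K * ‖F x‖) (x : E) :
    (star F * F) (Ring.inverse (star F * F) x) = x := by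
  rw [← mul_apply_eq_comp, Ring.mul_inverse_cancel _ (gm_unit h)]
  rfl

theorem inv_gm {F : L3} {K : ℝ} (h : ∀ x, ‖x‖ ≤ K * ‖F x‖) (x : E) :
    Ring.inverse (star F * F) ((star F * F) x) = x := by
  rw [← mul_apply_eq_comp, Ring.inverse_mul_cancel _ (gm_unit h)]
  rfl

theorem inv_symm {F : L3} {K : ℝ} (h : ∀ x, ‖x‖ ≤ K * ‖F x‖) (x y : E) :
    ⟪x, Ring.inverse (star F * F) y⟫ = ⟪Ring.inverse (star F * F) x, y⟫ := by
  conv_lhs => rw [← gm_inv h x]
  rw [← gm_symm, gm_inv h]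

theorem kk_ne {F : L3} {K : ℝ} (h : ∀ x, ‖x‖ ≤ K * ‖F x‖) {k : E} (hk : k ≠ 0) :
    ⟪k, Ring.inverse (star F * F) k⟫ ≠ 0 := by
  intro h0
  set y := Ring.inverse (star F * F) k with hy
  have h1 : (star F * F) y = k := gm_inv h k
  have h2 := inner_gm F y y
  rw [h1, real_inner_comm, h0, real_inner_self_eq_norm_sq] at h2
  have h3 : ‖F y‖ = 0 := by simpa using h2.symm
  have h4 := h y
  rw [h3, mul_zero] at h4
  have h5 : y = 0 := norm_le_zero_iff.1 h4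
  rw [h5, map_zero] at h1
  exact hk h1.symm

theorem pio_apply (F : L3) (k x : E) : Pio F k x = Ring.inverse (star F * F) x -
    ((⟪k, Ring.inverse (star F * F) k⟫)⁻¹ * ⟪Ring.inverse (star F * F) k, x⟫) •
      Ring.inverse (star F * F) k := by
  simp [Pio, r1, smul_smul]

theorem pio_perp {F : L3} {K : ℝ} (h : ∀ x, ‖x‖ ≤ K * ‖F x‖) {k : E} (hk : k ≠ 0) (x : E) :
    ⟪k, Pio F k x⟫ = 0 := by
  have h0 := kk_ne h hk
  rw [pio_apply, inner_sub_right, real_inner_smul_right, inv_symm h k x]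
  field_simp
  ring

theorem pio_eq {F : L3} {K : ℝ} (h : ∀ x, ‖x‖ ≤ K * ‖F x‖) (k x : E) :
    ∃ s : ℝ, (star F * F) (Pio F k x) = x + s • k := by
  refine ⟨-((⟪k, Ring.inverse (star F * F) k⟫)⁻¹ * ⟪Ring.inverse (star F * F) k, x⟫), ?_⟩
  rw [pio_apply, map_sub, map_smul, gm_inv h, gm_inv h, neg_smul, sub_eq_add_neg]

theorem pio_uniq {F : L3} {K : ℝ} (h : ∀ x, ‖x‖ ≤ K * ‖F x‖) {k : E} (hk : k ≠ 0) (y x : E)
    (s : ℝ) (hy : ⟪k, y⟫ = 0) (he : (star F * F) y = x + s • k) : y = Pio F k x := by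
  have h0 := kk_ne h hk
  have h1 : y = Ring.inverse (star F * F) x + s • Ring.inverse (star F * F) k := by
    rw [← map_smul, ← map_add, ← he, inv_gm h]
  have h2 : ⟪Ring.inverse (star F * F) k, x⟫ + s * ⟪k, Ring.inverse (star F * F) k⟫ = 0 := by
    rw [← inv_symm h k x, ← real_inner_smul_right, ← inner_add_right, ← h1, hy]
  have h3 : s = -((⟪k, Ring.inverse (star F * F) k⟫)⁻¹ * ⟪Ring.inverse (star F * F) k, x⟫) := by
    field_simp
    linarith
  rw [pio_apply, h1, h3, neg_smul, sub_eq_add_neg]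

theorem pio_le {F : L3} {K : ℝ} (h : ∀ x, ‖x‖ ≤ K * ‖F x‖) {k : E} (hk : k ≠ 0) (x : E) :
    ‖Pio F k x‖ ≤ K ^ 2 * ‖x‖ := by
  obtain ⟨s, hs⟩ := pio_eq h k x
  set y := Pio F k x with hy
  have hp : ⟪y, k⟫ = 0 := by rw [real_inner_comm]; exact pio_perp h hk x
  have h1 := inner_gm F y y
  rw [hs, inner_add_right, real_inner_smul_right, hp, mul_zero, add_zero,
    real_inner_self_eq_norm_sq] at h1
  have h2 : ⟪y, x⟫ ≤ ‖y‖ * ‖x‖ := real_inner_le_norm y x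
  have h3 : ‖y‖ ^ 2 ≤ (K * ‖F y‖) ^ 2 := pow_le_pow_left₀ (norm_nonneg _) (h y) 2
  rcases (norm_nonneg y).eq_or_lt with h0 | h0
  · rw [← h0]; positivity
  · have h4 : ‖y‖ * ‖y‖ ≤ ‖y‖ * (K ^ 2 * ‖x‖) := by
      have : K ^ 2 * ‖F y‖ ^ 2 ≤ K ^ 2 * (‖y‖ * ‖x‖) :=
        mul_le_mul_of_nonneg_left (by linarith) (sq_nonneg K)
      nlinarith
    exact le_of_mul_le_mul_left h4 h0

theorem pio_norm {F : L3} {K : ℝ} (h : ∀ x, ‖x‖ ≤ K * ‖F x‖) {k : E} (hk : k ≠ 0) :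
    ‖Pio F k‖ ≤ K ^ 2 :=
  ContinuousLinearMap.opNorm_le_bound _ (sq_nonneg K) (pio_le h hk)

theorem nstar (A : L3) : ‖star A‖ = ‖A‖ := by
  rw [ContinuousLinearMap.star_eq_adjoint, LinearIsometryEquiv.norm_map]

theorem star_sub' (A B : L3) : star (A - B) = star A - star B := by
  simp only [ContinuousLinearMap.star_eq_adjoint, map_sub]

theorem nmul {A B : L3} {a b : ℝ} (ha : ‖A‖ ≤ a) (hb : ‖B‖ ≤ b) : ‖A * B‖ ≤ a * b :=
  (norm_mul_le A B).trans (mul_le_mul ha hb (norm_nonneg _) ((norm_nonneg _).trans ha))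

theorem napp {A : L3} {x : E} {a b : ℝ} (ha : ‖A‖ ≤ a) (hb : ‖x‖ ≤ b) : ‖A x‖ ≤ a * b :=
  (A.le_opNorm x).trans (mul_le_mul ha hb (norm_nonneg _) ((norm_nonneg _).trans ha))

theorem smul_diff {A B A' B' : L3} {K δ : ℝ} (hA : ‖A‖ ≤ K) (hB' : ‖B'‖ ≤ K)
    (h1 : ‖A - A'‖ ≤ δ) (h2 : ‖B - B'‖ ≤ δ) : ‖star A * B - star A' * B'‖ ≤ 2 * K * δ := by
  have e : star A * B - star A' * B' = star A * (B - B') + star (A - A') * B' := by
    rw [star_sub', mul_sub, sub_mul]; abel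
  rw [e]
  have a1 : ‖star A * (B - B')‖ ≤ K * δ := nmul (by rwa [nstar]) h2
  have a2 : ‖star (A - A') * B'‖ ≤ δ * K := nmul (by rwa [nstar]) hB'
  have := norm_add_le (star A * (B - B')) (star (A - A') * B')
  linarith

theorem pio_lip {F G : L3} {k k' : E} {K δ : ℝ} (hK : 2 ≤ K) (hF : ‖F‖ ≤ K) (hG : ‖G‖ ≤ K)
    (h : ∀ x, ‖x‖ ≤ K * ‖F x‖) (h' : ∀ x, ‖x‖ ≤ K * ‖G x‖) (hk : 1 ≤ K * ‖k‖)
    (hk' : 1 ≤ K * ‖k'‖) (d1 : ‖F - G‖ ≤ δ) (d2 : ‖k - k'‖ ≤ δ) :
    ‖Pio F k - Pio G k'‖ ≤ K ^ 9 * δ := by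
  have hδ : 0 ≤ δ := (norm_nonneg _).trans d1
  have K0 : 0 < K := by linarith
  have k0 : k ≠ 0 := by rintro rfl; simp at hk; linarith
  have k0' : k' ≠ 0 := by rintro rfl; simp at hk'; linarith
  have kp : 0 < ‖k‖ := norm_pos_iff.2 k0
  refine ContinuousLinearMap.opNorm_le_bound _ (by positivity) fun x => ?_
  rw [sub_apply]
  obtain ⟨s, hs⟩ := pio_eq h k x
  obtain ⟨s', hs'⟩ := pio_eq h' k' x
  have p1 := pio_perp h k0 x
  have p2 := pio_perp h' k0' x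
  have n2 := pio_le h' k0' x
  set y := Pio F k x with hy
  set y' := Pio G k' x with hy'
  set n := ‖x‖ with hn
  have n0 : 0 ≤ n := norm_nonneg x
  have gF : ‖star F * F‖ ≤ K * K := nmul (by rwa [nstar]) hF
  have gG : ‖star G * G‖ ≤ K * K := nmul (by rwa [nstar]) hG
  have gd : ‖star F * F - star G * G‖ ≤ 2 * K * δ := smul_diff hF hG d1 d1
  -- size of `s'`
  have b1 : |s'| * ‖k'‖ ≤ K * K * (K ^ 2 * n) + n := by
    have e : s' • k' = (star G * G) y' - x := by rw [hs']; abel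
    have := norm_sub_le ((star G * G) y') x
    rw [← e, norm_smul, Real.norm_eq_abs] at this
    have := napp gG n2
    linarith
  have b2 : |s'| ≤ K * (K * K * (K ^ 2 * n) + n) := by
    have := mul_le_mul_of_nonneg_left hk' (abs_nonneg s')
    have := mul_le_mul_of_nonneg_left b1 K0.le
    nlinarith
  -- component along `k`
  set a : ℝ := ⟪k, y - y'⟫ / ‖k‖ ^ 2 with ha
  have b3 : |⟪k, y - y'⟫| ≤ δ * (K ^ 2 * n) := by
    have e : ⟪k, y - y'⟫ = -⟪k - k', y'⟫ := by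
      rw [inner_sub_right, inner_sub_left, p1, p2]; ring
    rw [e, abs_neg]
    exact (abs_real_inner_le_norm _ _).trans (mul_le_mul d2 n2 (norm_nonneg _) hδ)
  have b4 : ‖a • k‖ ≤ K * (δ * (K ^ 2 * n)) := by
    have e : ‖a • k‖ = |⟪k, y - y'⟫| / ‖k‖ := by
      rw [norm_smul, Real.norm_eq_abs, ha, abs_div, abs_of_pos (by positivity : 0 < ‖k‖ ^ 2)]
      field_simp
    rw [e, div_le_iff₀ kp]
    have : 0 ≤ δ * (K ^ 2 * n) := by positivity
    nlinarith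
  have p3 : ⟪k, y - y' - a • k⟫ = 0 := by
    rw [inner_sub_right, real_inner_smul_right, real_inner_self_eq_norm_sq, ha]
    field_simp
    ring
  have e1 : (star F * F) (y - y' - a • k) =
      (s' • (k - k') - (star F * F - star G * G) y' - (star F * F) (a • k)) + (s - s') • k := by
    rw [map_sub, map_sub, hs, sub_apply, hs']
    module
  have u := pio_uniq h k0 _ _ _ p3 e1
  have b5 : ‖s' • (k - k') - (star F * F - star G * G) y' - (star F * F) (a • k)‖ ≤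
      K * (K * K * (K ^ 2 * n) + n) * δ + 2 * K * δ * (K ^ 2 * n) +
        K * K * (K * (δ * (K ^ 2 * n))) := by
    have t1 : ‖s' • (k - k')‖ ≤ K * (K * K * (K ^ 2 * n) + n) * δ := by
      rw [norm_smul, Real.norm_eq_abs]
      exact mul_le_mul b2 d2 (norm_nonneg _) (by positivity)
    have t2 := napp gd n2
    have t3 := napp gF b4
    have := norm_sub_le (s' • (k - k') - (star F * F - star G * G) y') ((star F * F) (a • k))
    have := norm_sub_le (s' • (k - k')) ((star F * F - star G * G) y')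
    linarith
  have b6 : ‖y - y' - a • k‖ ≤ K ^ 2 * (K * (K * K * (K ^ 2 * n) + n) * δ +
      2 * K * δ * (K ^ 2 * n) + K * K * (K * (δ * (K ^ 2 * n)))) := by
    rw [u]
    exact (pio_le h k0 _).trans (mul_le_mul_of_nonneg_left b5 (sq_nonneg K))
  have b7 : ‖y - y'‖ ≤ ‖y - y' - a • k‖ + ‖a • k‖ := by
    simpa using norm_add_le (y - y' - a • k) (a • k)
  have c : 2 * K ^ 7 + 2 * K ^ 5 + 2 * K ^ 3 ≤ K ^ 9 := by
    have q2 : 4 ≤ K ^ 2 := by nlinarith
    have q3 : 0 ≤ K ^ 3 := by positivity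
    have q5 : 4 * K ^ 3 ≤ K ^ 5 := by nlinarith
    have q7 : 4 * K ^ 5 ≤ K ^ 7 := by nlinarith
    have q9 : 4 * K ^ 7 ≤ K ^ 9 := by nlinarith
    linarith
  have c2 := mul_le_mul_of_nonneg_right c (mul_nonneg hδ n0)
  nlinarith

end PioA

open PioA

theorem pioSt : PioSt := by
  refine ⟨fun F k K _ h hk => ⟨pio_perp h hk, pio_eq h k, pio_uniq h hk, pio_norm h hk⟩, 13, ?_⟩
  intro F F1 G G1 k k' K δ hK hF hF1 hG hG1 h h' hk _ hk' _ d1 d2 d3
  have hδ : 0 ≤ δ := (norm_nonneg _).trans d1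
  have K1 : 1 ≤ K := by linarith
  have k0 : k ≠ 0 := by rintro rfl; simp at hk; linarith
  have k0' : k' ≠ 0 := by rintro rfl; simp at hk'; linarith
  have l := pio_lip hK hF hG h h' hk hk' d1 d3
  have bF : ‖Bop F F1‖ ≤ K * K + K * K :=
    (norm_sub_le _ _).trans (add_le_add (nmul (by rwa [nstar]) hF)
      (nmul (by rwa [nstar]) hF1))
  have bd : ‖Bop F F1 - Bop G G1‖ ≤ 2 * K * δ + 2 * K * δ := by
    have e : Bop F F1 - Bop G G1 =
        (star F1 * F - star G1 * G) - (star F * F1 - star G * G1) := by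
      simp only [Bop]; abel
    rw [e]
    exact (norm_sub_le _ _).trans (add_le_add (smul_diff hF1 hG d2 d1) (smul_diff hF hG1 d1 d2))
  have q2 : 4 ≤ K ^ 2 := by nlinarith
  have p11 : K ^ 3 ≤ K ^ 9 := pow_le_pow_right₀ K1 (by norm_num)
  have p9 : 0 ≤ K ^ 9 := by positivity
  have q11 : 4 * K ^ 9 ≤ K ^ 11 := by nlinarith
  have q13 : 4 * K ^ 11 ≤ K ^ 13 := by nlinarith
  refine ⟨?_, l.trans (mul_le_mul_of_nonneg_right (by linarith) hδ), ?_⟩
  · have := nmul (pio_norm h k0) bF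
    have p4 : K ^ 4 ≤ K ^ 9 := pow_le_pow_right₀ K1 (by norm_num)
    unfold Mop
    nlinarith
  · have e : Mop F F1 k - Mop G G1 k' =
        (Pio F k - Pio G k') * Bop F F1 + Pio G k' * (Bop F F1 - Bop G G1) := by
      simp only [Mop, mul_sub, sub_mul]; abel
    rw [e]
    have t1 := nmul l bF
    have t2 := nmul (pio_norm h' k0') bd
    have t3 := norm_add_le ((Pio F k - Pio G k') * Bop F F1) (Pio G k' * (Bop F F1 - Bop G G1))
    have c : 2 * K ^ 11 + 4 * K ^ 3 ≤ K ^ 13 := by linarith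
    have c2 := mul_le_mul_of_nonneg_right c hδ
    nlinarith

end Pool.Agent.Lib.MP_fbbbeb_an.Cas
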