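import Mathlib
import Pool.Agent.Lib.MP_fbbbeb_an.Cas.CycS
import Pool.Agent.Lib.MP_fbbbeb_an.Cas.TypB

/-! Parameter regime of the canonical frame, weights of a cycle, background from its pieces. -/

set_option autoImplicit false

noncomputable section

namespace Pool.Agent.Lib.MP_fbbbeb_an.Cas

open Pool.Agent.Lib.MP_fbbbeb_an.Pub
open scoped ContDiff Topology RealInnerProductSpace Matrix Nat

open RK

theorem regSt (hG : GeoSt) : RegSt := by
  obtain ⟨C, hC, hG⟩ := hG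
  refine ⟨C, hC, ?_⟩
  intro T N kv δ δa K θ ε ρ n hcf hK h1 h2 h3 hρ hρ1 hn hCn hnK hKρ hε hε1 hN
  obtain ⟨hok, -, -, hb⟩ := hG T N kv δ δa hcf
  have hn0 : 0 < n := by linarith
  have hr0 : ∀ i, 0 ≤ rad ρ n i := by
    rintro (_ | i | j)
    · exact hρ.le
    · exact div_nonneg hρ.le hn0.le
    · exact hρ.le
  have hb' := hb (rad ρ n) hr0 fun i => by
    show C * (ρ / n) ≤ 1
    rw [← mul_div_assoc, div_le_one hn0]
    exact hCn
  have hw : ∀ t ∈ Set.Ioo 0 T, C * w1 t ≤ K * w1 t := fun t _ => by simpa [w1] using hK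
  refine ⟨hok, ⟨hC.trans hK, h1, h2, h3, ?_, hKρ, fun _ => hKρ, fun i => ?_,
    fun j i => gb_le hw ((hb' j).1 i), fun j => gb_le hw (hb' j).2.1, hε, hε1, hN⟩,
    fun j => ⟨(hb' j).1, (hb' j).2.2, (hb' j).2.1⟩⟩
  · rintro (_ | i | j)
    · exact hρ1
    · show ρ / n ≤ 1
      rw [div_le_one hn0]
      linarith
    · exact hρ1
  · show 1 ≤ K * N 0 * (ρ / n)
    rw [← mul_div_assoc, le_div_iff₀ hn0, one_mul]
    exact hnK

theorem wtSt : WtSt := by
  intro T lam K Aw hl hK hA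
  have hB : ∀ t ∈ Set.Ioo 0 T, 0 < Real.exp (-(lam * (T - t))) ∧
      Real.exp (-(lam * (T - t))) ≤ 1 := fun t ht =>
    ⟨Real.exp_pos _, Real.exp_le_one_iff.2 (by
      have := mul_nonneg hl (sub_nonneg.2 ht.2.le)
      linarith)⟩
  have hAK : ∀ t ∈ Set.Ioo 0 T, Aw t ≤ K := fun t ht =>
    (hA t ht).2.trans (mul_le_of_le_one_right (by linarith) (hB t ht).2)
  refine ⟨⟨?_, ?_, ?_, ?_, ?_⟩, fun t ht => (hB t ht).1.le, fun s t _ _ _ => ?_⟩
  · intro l t ht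
    fin_cases l
    exacts [(hB t ht).1.le, (hB t ht).1.le, (hA t ht).1, (hA t ht).1]
  · intro l t ht
    fin_cases l
    exacts [(hB t ht).2, (hB t ht).2, le_rfl, le_rfl]
  · intro l t ht
    fin_cases l
    exacts [hK, hK, hAK t ht, hAK t ht]
  · intro i j t ht
    obtain ⟨b0, b1⟩ := hB t ht
    obtain ⟨a0, a1⟩ := hA t ht
    have a2 := hAK t ht
    set b := Real.exp (-(lam * (T - t))) with hb
    have e1 : 1 * b ≤ K * b := mul_le_mul_of_nonneg_right hK b0.le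
    have e2 : 1 * Aw t ≤ K * Aw t := mul_le_mul_of_nonneg_right hK a0
    have e3 : Aw t * b ≤ K * Aw t := by nlinarith
    have e4 : Aw t * Aw t ≤ K * Aw t := mul_le_mul_of_nonneg_right a2 a0
    have e5 : 1 * b ≤ K * b := e1
    fin_cases i <;> fin_cases j
    exacts [e1, e1, e2, e2, e1, e1, e2, e2, e3, e3, e4, e4, e3, e3, e4, e4]
  · intro j t ht
    obtain ⟨b0, b1⟩ := hB t ht
    obtain ⟨a0, a1⟩ := hA t ht
    fin_cases j
    exacts [le_mul_of_one_le_left b0.le hK, a1, le_mul_of_one_le_left a0 hK]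
  · show Real.exp (-(lam * (T - s))) ≤ Real.exp (-(lam * (t - s))) * Real.exp (-(lam * (T - t)))
    rw [← Real.exp_add]
    exact le_of_eq (congrArg _ (by ring))

theorem bgSt : BgSt := by
  intro T fr K θ rlo r w v X0 W1 W2 W3 J0 J1 J2 J3 _ _ hK hin e0 e1 e2 e3 s1 s2 s3 f0 f1 f2
    m0 m1 m2 m3 b0 b1 b2 b3 p0 p1 p2 p3
  have x0 : Xb X0 ![W1, W2, W3] 0 = X0 := by simp [Xb]
  have x1 : Xb X0 ![W1, W2, W3] 1 = X0 := by
    simp [Xb, Fin.sum_univ_three, Fin.lt_def]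
  have x2 : Xb X0 ![W1, W2, W3] 2 = X0 + W1 := by
    simp [Xb, Fin.sum_univ_three, Fin.lt_def]
  have x3 : Xb X0 ![W1, W2, W3] 3 = X0 + W1 + W2 := by
    simp [Xb, Fin.sum_univ_three, Fin.lt_def, add_assoc]
  have hw : ∀ t ∈ Set.Ioo 0 T, 2 * w1 t ≤ K * w1 t := fun t _ => by simpa [w1] using hK
  refine ⟨hin, e0, ?_, ?_, ?_, ?_, ?_, ?_, p3⟩
  · intro j
    fin_cases j
    exacts [s1, s2, s3]
  · intro j
    fin_cases j
    exacts [e1, e2, e3]
  · intro l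
    fin_cases l
    exacts [x0.symm ▸ f0, x1.symm ▸ f0, x2.symm ▸ f1, x3.symm ▸ f2]
  · intro l
    fin_cases l
    exacts [x0.symm ▸ m0, x1.symm ▸ m1, x2.symm ▸ m2, x3.symm ▸ m3]
  · intro l
    fin_cases l
    exacts [gb_le hw b0, gb_le hw b1, gb_le hw b2, gb_le hw b3]
  · intro j
    fin_cases j
    exacts [x1.symm ▸ p0, x2.symm ▸ p1, x3.symm ▸ p2]

end Pool.Agent.Lib.MP_fbbbeb_an.Cas
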