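import Mathlib
import Pool.Agent.Lib.MP_fbbbeb_an.Cas.Stmt

/-! From the start and the cycle to a sequence of approximate flow maps. -/

set_option autoImplicit false

noncomputable section

namespace Pool.Agent.Lib.MP_fbbbeb_an.Cas

open Pool.Agent.Lib.MP_fbbbeb_an.Pub
open scoped ContDiff Topology RealInnerProductSpace Matrix Nat

namespace Sq

variable {T : ℝ}

theorem rpr_nonneg {r : Let → ℝ} (h : ∀ i, 0 ≤ r i) (u : List Let) : 0 ≤ rpr r u := by
  induction u with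
  | nil => simp [rpr]
  | cons a u ih => simpa [rpr] using mul_nonneg (h a) ih

theorem rpr_mono {r r' : Let → ℝ} (h0 : ∀ i, 0 ≤ r' i) (h : ∀ i, r' i ≤ r i) (u : List Let) :
    rpr r' u ≤ rpr r u := by
  induction u with
  | nil => simp [rpr]
  | cons a u ih =>
    simpa [rpr] using mul_le_mul (h a) ih (rpr_nonneg h0 u) ((h0 a).trans (h a))

theorem gb_mono {d : ℤ} {r r' : Let → ℝ} {w w' : ℝ → ℝ} {M M' : ℝ} {f : A T} (hf : GB d r w M f)
    (h0 : ∀ i, 0 ≤ r' i) (h : ∀ i, r' i ≤ r i) (hM : ∀ t, M * w t ≤ M' * w' t) :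
    GB d r' w' M' f :=
  ⟨hf.1, fun z hz u => ((mul_le_mul_of_nonneg_left (rpr_mono h0 h u) (abs_nonneg _)).trans
    (hf.2 z hz u)).trans (mul_le_mul_of_nonneg_right (hM _) (by positivity))⟩

theorem pw_add (u : List Let) (f g : A T) : pw u (f + g) = pw u f + pw u g := by
  induction u with
  | nil => rfl
  | cons a u ih =>
    show pd a (pw u (f + g)) = pd a (pw u f) + pd a (pw u g)
    rw [ih, map_add]

theorem hom_add {d : ℤ} {f g : A T} (hf : Hom d f) (hg : Hom d g) : Hom d (f + g) :=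
  fun z s hs => by rw [ev_add, ev_add, hf z s hs, hg z s hs, mul_add]

theorem gb_add {d : ℤ} {r : Let → ℝ} {w : ℝ → ℝ} {M M' : ℝ} {f g : A T} (h0 : ∀ i, 0 ≤ r i)
    (hf : GB d r w M f) (hg : GB d r w M' g) : GB d r w (M + M') (f + g) := by
  refine ⟨hom_add hf.1 hg.1, fun z hz u => ?_⟩
  rw [pw_add, ev_add]
  have h1 := hf.2 z hz u
  have h2 := hg.2 z hz u
  have h3 := mul_le_mul_of_nonneg_right (abs_add_le (ev (pw u f) z) (ev (pw u g) z))
    (rpr_nonneg h0 u)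
  linarith

theorem evv_add (V W : Vec T) (z : Pt) : evv (V + W) z = evv V z + evv W z := by
  ext i; simp [evv]

theorem eqv_add {V W : Vec T} (hV : Eqv V) (hW : Eqv W) : Eqv (V + W) := fun g hg z => by
  rw [evv_add, evv_add, hV g hg, hW g hg, map_add]

theorem evm_add (F G : Mat T) (z : Pt) : evm (F + G) z = evm F z + evm G z := by
  unfold evm
  rw [← map_add]
  congr 1
  ext i j; simp

theorem Dm_add (fr : Frame T) (V W : Vec T) : Dm fr (V + W) = Dm fr V + Dm fr W := by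
  ext1 i j; simp [Dm]

/-- the substitution of all phases -/
def sub (N : Fin 4 → ℝ) (kv : Fin 3 → E) (z : Pt) : Pt :=
  (z.1, z.2.1, !₂[N 1 * Ph (kv 0) z.2.1, N 2 * Ph (kv 1) z.2.1, N 3 * Ph (kv 2) z.2.1])

theorem ev_ful {T' : ℝ} {N : Fin 4 → ℝ} {kv : Fin 3 → E} (hT : T' ≤ T)
    (h : ∀ j, Good T' fun z => Ph (kv j) z.2.1) (f : A T) {z : Pt} (hz : z ∈ Om T') :
    ev (ful T' N kv f) z = ev f (sub N kv z) := by
  refine ev_mkA (f := fun z => ev f (sub N kv z)) ⟨?_, fun j y _ => by simp [sub, vec]⟩ hz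
  refine (ev_smooth f).comp (f := sub N kv) ?_ fun y hy => ⟨hy.1, hy.2.1.trans_le hT, hy.2.2⟩
  refine contDiffOn_fst.prodMk ((contDiff_fst.comp contDiff_snd).contDiffOn.prodMk ?_)
  refine contDiffOn_euclidean.2 fun i => ?_
  fin_cases i
  · simpa using contDiffOn_const.mul (h 0).1
  · simpa using contDiffOn_const.mul (h 1).1
  · simpa using contDiffOn_const.mul (h 2).1

theorem hom_ful {N : Fin 4 → ℝ} {kv : Fin 3 → E} (h : ∀ j, Good T fun z => Ph (kv j) z.2.1)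
    (h0 : ∀ j, Hom 0 (phA T (kv j))) {d : ℤ} {f : A T} (hf : Hom d f) : Hom d (ful T N kv f) := by
  intro z s hs
  by_cases hz : z ∈ Om T
  · have hz' : ((z.1, s • z.2.1, z.2.2) : Pt) ∈ Om T := ⟨hz.1, hz.2.1, smul_ne_zero hs.ne' hz.2.2⟩
    have e : ∀ j, Ph (kv j) (s • z.2.1) = Ph (kv j) z.2.1 := fun j => by
      have h1 := h0 j z s hs
      rw [phA, ev_mkA (h j) hz', ev_mkA (h j) hz] at h1
      simpa using h1
    rw [ev_ful le_rfl h f hz', ev_ful le_rfl h f hz, ← hf (sub N kv z) s hs]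
    simp only [sub, e]
  · have hz' : ((z.1, s • z.2.1, z.2.2) : Pt) ∉ Om T := fun h1 =>
      hz ⟨h1.1, h1.2.1, fun h2 => h1.2.2 (by simp [h2])⟩
    rw [ev_out _ hz, ev_out _ hz', mul_zero]

theorem rad_nonneg {ρ N : ℝ} (hρ : 0 ≤ ρ) (hN : 0 ≤ N) (i : Let) : 0 ≤ rad ρ N i := by
  rcases i with _ | i | i
  · exact hρ
  · exact div_nonneg hρ hN
  · exact hρ

theorem rad_anti {ρ N N' : ℝ} (hρ : 0 ≤ ρ) (hN : 0 < N) (h : N ≤ N') (i : Let) :
    rad ρ N' i ≤ rad ρ N i := by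
  rcases i with _ | i | i
  · exact le_rfl
  · exact div_le_div_of_nonneg_left hρ hN h
  · exact le_rfl

theorem le_rad {ρ N : ℝ} (hρ : 0 ≤ ρ) (hN : 1 ≤ N) (i : Let) : ρ / N ≤ rad ρ N i := by
  rcases i with _ | i | i
  · exact div_le_self hρ hN
  · exact le_rfl
  · exact div_le_self hρ hN

/-- what one state gives after the substitution of all phases -/
structure One (d : EndD) (t00 L lam : ℝ) (R1 R2 : Vec d.T) : Prop where
  X_in : InV 0 (d.Xf d.T)
  X_hom : ∀ i, Hom 1 (d.Xf d.T i)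
  X_eqv : Eqv (d.Xf d.T)
  res : ∀ T' ≤ d.T, ∀ i, ∀ z ∈ Om T', ev (d.Xf T' i) z = ev (d.Xf d.T i) z
  R1_bd : GBv 1 (fun _ => L⁻¹) w1 (L * Real.exp (-lam)) R1
  R2_bd : GBv 1 (fun _ => L⁻¹) w1 (L * Real.exp (-lam)) R2
  web_eq : Closed0 ((D0m (d.Xf d.T))ᵀ *ᵥ dtv (d.Xf d.T) - R1)
  det_eq : (D0m (d.Xf d.T)).det - 1 = dv0 R2
  small : ∀ z ∈ Sp d.T, z.1 ≤ t00 → ‖evm (D0m (d.Xf d.T)) z - 1‖ ≤ 1 / 2
  cen : ∀ t ∈ Set.Ioo 0 d.T,
    evm (D0m (d.Xf d.T)) (cz t) = evm (Dm d.fr (d.Xlo + d.Xhi)) (cz t)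

theorem one (hG : GeoSt) (hF : FulSt) : ∃ C : ℝ, 4 ≤ C ∧
    ∀ (Pre : ℝ → ℝ → ℝ → Cv L3 → Prop) (P B : ℕ) (t00 x L lam : ℝ) (d : EndD),
      EndP Pre P B t00 x d → 1 ≤ x → C * ((x ^ B) ^ P * ((x ^ B) ^ B) ^ B) ≤ L → lam ≤ x ^ B →
      ∃ R1 R2 : Vec d.T, One d t00 L lam R1 R2 := by
  obtain ⟨C, hC, hF⟩ := hF
  obtain ⟨_, -, hG⟩ := hG
  refine ⟨2 * C, by linarith, fun Pre P B t00 x L lam d h hx hL hl => ?_⟩
  obtain ⟨U, hU, ut, ua, uin, ueq, ucen, usp, ugb⟩ := hF d.T d.T d.N d.kv d.δ d.δa h.cf_ok le_rfl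
  have hg := fun T' => (hG T' d.N d.kv d.δ d.δa h.cf_ok).2.1
  have eX : d.Xf d.T = fun i => U ((d.Xlo + d.Xhi) i) := funext fun i => (hU _).symm
  have eD : D0m (d.Xf d.T) = U.mapMatrix (Dm d.fr (d.Xlo + d.Xhi)) := by
    rw [eX]; ext1 i l; exact ua _ l
  have hl1 : 1 ≤ x ^ B := one_le_pow₀ hx
  have hP1 : 1 ≤ (x ^ B) ^ P := one_le_pow₀ hl1
  have hN : ∀ l, 1 ≤ d.N l := fun l => h.cf_ok.1.trans (h.cf_ok.2.1 (Fin.zero_le l))
  have hρ : 0 < d.ρ := pos_of_mul_pos_left (zero_lt_one.trans_le h.rho_lo) (by positivity)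
  have hN3 := hN 3
  rw [← h.N_three] at hL
  have hL4 : 4 ≤ L := by nlinarith [one_le_mul_of_one_le_of_one_le hP1 hN3]
  have bd : ∀ R : Fin 4 → Vec d.T,
      FB d.fr d.r (fun _ => w1) (fun _ => Real.exp (-(x ^ B))) R →
      GBv 1 (fun _ => L⁻¹) w1 (L * Real.exp (-lam)) fun i => U ((∑ l, R l) i) := by
    intro R hR i
    have r0 := rad_nonneg hρ.le (zero_le_one.trans hN3)
    have h1 : ∀ l, GB 1 (rad d.ρ (d.N 3)) w1 (Real.exp (-lam)) (R l i) := fun l =>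
      gb_mono ((hR l).2 i) r0
        (rad_anti hρ.le (zero_lt_one.trans_le (hN 2)) (h.cf_ok.2.1 (by decide))) fun t => by
        simp only [w1, mul_one]
        exact (div_le_self (Real.exp_pos _).le (hN l)).trans (Real.exp_le_exp.2 (by linarith))
    have h2 := ugb _ _ _ _ _ hρ h.rho_hi
      (gb_add r0 (gb_add r0 (gb_add r0 (h1 0) (h1 1)) (h1 2)) (h1 3))
    beta_reduce
    rw [Finset.sum_apply, Fin.sum_univ_four]
    refine gb_mono h2 (fun _ => by positivity) (fun j => le_trans ?_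
      (le_rad (by positivity) hN3 j)) fun t => ?_
    · rw [div_div, inv_eq_one_div, div_le_div_iff₀ (by positivity) (by positivity)]
      have h3 : C * d.N 3 * 1 ≤ C * d.N 3 * (d.ρ * (x ^ B) ^ P) :=
        mul_le_mul_of_nonneg_left h.rho_lo (by positivity)
      have h4 : d.ρ * (2 * C * ((x ^ B) ^ P * d.N 3)) ≤ d.ρ * L :=
        mul_le_mul_of_nonneg_left hL hρ.le
      have h5 : 0 ≤ C * d.N 3 := by positivity
      linarith
    · simp only [w1, mul_one]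
      nlinarith [Real.exp_pos (-lam)]
  obtain ⟨⟨R1, b1, c1⟩, R2, b2, c2⟩ := h.st
  refine ⟨_, _, eX ▸ fun i => uin _, fun i => ?_, eX ▸ ueq _ (eqv_add h.lo_eqv h.hi_eqv),
    fun T' hT' i z hz => ?_, bd R1 b1, bd R2 b2, fun i l => ?_, ?_, fun z hz ht => ?_,
    fun t ht => ?_⟩
  · exact hom_ful (fun j => (hg _ j).2.1) (fun j => (hg _ j).2.2.2)
      (hom_add (h.lo_hom i) (h.hi_sb.2 i).1)
  · exact (ev_ful hT' (fun j => (hg _ j).2.1) _ hz).trans
      (ev_ful le_rfl (fun j => (hg _ j).2.1) _ ⟨hz.1, hz.2.1.trans_le hT', hz.2.2⟩).symm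
  · have e : ∀ a, ((D0m (d.Xf d.T))ᵀ *ᵥ dtv (d.Xf d.T) - fun i => U ((∑ l, R1 l) i)) a =
        U ((web d.fr (d.Xlo + d.Xhi) (d.Xlo + d.Xhi) - ∑ l, R1 l) a) := fun a => by
      rw [eD, eX]
      simp only [Pi.sub_apply, map_sub, web, Matrix.mulVec, dotProduct, map_sum, map_mul, dtv, ut,
        Matrix.transpose_apply, AlgHom.mapMatrix_apply, Matrix.map_apply]
    rw [e, e, ua, ua, ← map_sub, ut]
    exact (congrArg U (c1 i l)).trans (map_zero U)
  · rw [eD, ← AlgHom.map_det, ← map_one U, ← map_sub, c2, dv, dv0, map_sum]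
    exact Finset.sum_congr rfl fun i _ => (ua _ i).symm
  · obtain ⟨z', hz', h1, h2⟩ := usp z hz
    have e : evm (D0m (d.Xf d.T)) z = evm (Dm d.fr (d.Xlo + d.Xhi)) z' := by
      rw [eD]; unfold evm; congr 1; ext i l; exact h2 _
    have h3 := h.small z' hz' (h1 ▸ ht)
    rw [e, Dm_add, evm_add, add_sub_right_comm]
    have h4 : 0 ≤ 1 / x := by positivity
    linarith [norm_add_le (evm (Dm d.fr d.Xlo) z' - 1) (evm (Dm d.fr d.Xhi) z')]
  · rw [eD]; unfold evm; congr 1; ext i l; exact ucen _ t ht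

theorem summable_pow_exp {l : ℕ → ℝ} (hl : ∀ m, 2 ^ m ≤ l m) (k : ℕ) {c : ℝ} (hc : 0 < c) :
    Summable fun m => l m ^ k * Real.exp (-(c * l m)) := by
  have l0 : ∀ m, 0 < l m := fun m => lt_of_lt_of_le (by positivity) (hl m)
  refine Summable.of_nonneg_of_le (fun m => by have := l0 m; positivity) (fun m => ?_)
    (summable_geometric_two.mul_left (((k + 1)! : ℕ) / c ^ (k + 1)))
  have h0 := l0 m
  have h1 := Real.pow_div_factorial_le_exp (c * l m) (by positivity) (k + 1)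
  have h2 : (0 : ℝ) < ((k + 1)! : ℕ) := by exact_mod_cast Nat.factorial_pos _
  rw [div_le_iff₀ h2] at h1
  rw [Real.exp_neg, one_div, inv_pow, ← div_eq_mul_inv, ← div_eq_mul_inv, div_div,
    div_le_div_iff₀ (Real.exp_pos _) (by positivity)]
  calc l m ^ k * (c ^ (k + 1) * 2 ^ m) ≤ l m ^ k * (c ^ (k + 1) * l m) := by
        gcongr; exact hl m
    _ = (c * l m) ^ (k + 1) := by ring
    _ ≤ _ := by linarith

end Sq

open Sq in
theorem seqSt (hG : GeoSt) (hF : FulSt) (hO : OdeSt) (hS : StartSt) (hC : CycSt) : SeqSt := by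
  obtain ⟨C, hC4, h1⟩ := one hG hF
  obtain ⟨Pre, C0, o1, o2⟩ := hO
  obtain ⟨P1, hS⟩ := hS Pre C0 o1
  obtain ⟨P2, hC⟩ := hC Pre C0 o2
  obtain ⟨B1, hS⟩ := hS (max P1 P2) (le_max_left _ _)
  obtain ⟨B2, hC⟩ := hC (max P1 P2) (le_max_right _ _)
  generalize max P1 P2 = P at hS hC
  obtain ⟨B, hB1, hB2, hB⟩ : ∃ B, B1 ≤ B ∧ B2 ≤ B ∧ 2 ≤ B := ⟨B1 + B2 + 2, by omega, by omega, by omega⟩
  obtain ⟨x1, hS⟩ := hS B hB1
  obtain ⟨Q, x2, hC⟩ := hC B hB2
  obtain ⟨x, hx1, hx2, hx⟩ : ∃ x, x1 ≤ x ∧ x2 ≤ x ∧ C ≤ x :=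
    ⟨max x1 (max x2 C), le_max_left _ _, (le_max_left _ _).trans (le_max_right _ _),
      (le_max_right _ _).trans (le_max_right _ _)⟩
  obtain ⟨t00, d0, h0⟩ := hS x hx1
  let y : ℕ → ℝ := fun m => (fun z => z ^ B)^[m] x
  have ys : ∀ m, y (m + 1) = y m ^ B := fun m => Function.iterate_succ_apply' _ _ _
  have yx : ∀ m, 2 ^ m * x ≤ y m := by
    intro m
    induction m with
    | zero => simp [y]
    | succ m ih =>
      have h2 : x ≤ 2 ^ m * x := le_mul_of_one_le_left (by linarith) (one_le_pow₀ one_le_two)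
      have h3 : y m ^ 2 ≤ y m ^ B := pow_le_pow_right₀ (by linarith) hB
      rw [ys, pow_succ]
      nlinarith
  have y1 : ∀ m, x ≤ y m := fun m =>
    (le_mul_of_one_le_left (by linarith) (one_le_pow₀ one_le_two)).trans (yx m)
  have y2 : ∀ m, 2 ^ m ≤ y m ^ B := fun m => by
    have h2 := yx (m + 1)
    have h3 : (0 : ℝ) < 2 ^ m := by positivity
    rw [ys, pow_succ] at h2
    nlinarith
  have y3 : ∀ m, C ≤ y m ^ B := fun m => by rw [← ys]; exact hx.trans (y1 _)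
  have step : ∀ m (d : {d : EndD // EndP Pre P B t00 (y m) d}),
      ∃ d' : {d : EndD // EndP Pre P B t00 (y (m + 1)) d}, Nx Q (y m ^ B) d.1 d'.1 := fun m d => by
    obtain ⟨d', a1, a2⟩ := hC (y m) (hx2.trans (y1 m)) t00 d.1 d.2
    exact ⟨⟨d', ys m ▸ a1⟩, a2⟩
  choose nx hnx using step
  let ds : ∀ m, {d : EndD // EndP Pre P B t00 (y m) d} := fun m => Nat.rec ⟨d0, h0⟩ nx m
  let d : ℕ → EndD := fun m => (ds m).1
  have hd : ∀ m, EndP Pre P B t00 (y m) (d m) := fun m => (ds m).2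
  have hn : ∀ m, Nx Q (y m ^ B) (d m) (d (m + 1)) := fun m => hnx m (ds m)
  have l1 : ∀ m, 1 ≤ y m ^ B := fun m => by linarith [y3 m]
  have hone : ∀ m, ∃ R1 R2 : Vec (d m).T,
      One (d m) t00 ((y m ^ B) ^ (1 + P + B * B + Q)) (y m ^ B / 4) R1 R2 := fun m => by
    refine h1 Pre P B t00 (y m) _ _ (d m) (hd m) (by linarith [y1 m]) ?_ (by linarith [l1 m])
    have h2 := l1 m
    have h3 : 1 ≤ (y m ^ B) ^ Q := one_le_pow₀ h2
    calc C * ((y m ^ B) ^ P * ((y m ^ B) ^ B) ^ B) =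
          C * ((y m ^ B) ^ P * ((y m ^ B) ^ B) ^ B) * 1 := (mul_one _).symm
      _ ≤ y m ^ B * ((y m ^ B) ^ P * ((y m ^ B) ^ B) ^ B) * (y m ^ B) ^ Q := by
          gcongr; exact y3 m
      _ = _ := by generalize y m ^ B = l; rw [← pow_mul]; ring
  choose R1 R2 ho using hone
  refine ⟨⟨fun m => (d m).T, fun m => (d (m + 1)).s, fun m => (y m ^ B) ^ (1 + P + B * B + Q),
    fun m => y m ^ B / 4, fun m => 1 / y m ^ B, t00, fun m => (d m).Xf (d m).T,
    fun m => (d (m + 1)).Xf (d (m + 1)).T - (d m).Xf (d (m + 1)).T, R1, R2⟩,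
    h0.t_pos, (hd 1).t_le, monotone_nat_of_le_succ fun m => (hn (m + 1)).s_lt.le,
    antitone_nat_of_succ_le fun m => (hn m).T_le, fun m => (hd (m + 1)).s_lt, (hn 1).s_lt,
    fun m => one_le_pow₀ (l1 m), fun m => by have := l1 m; positivity, fun n η hη => ?_, ?_,
    fun m => (ho m).X_in, fun m => (ho m).X_hom, fun m => (ho m).X_eqv, fun m i z hz => ?_,
    fun m i => ?_, fun m => (hn m).inc1, fun m => (ho m).R1_bd, fun m => (ho m).R2_bd,
    fun m => (ho m).web_eq, fun m => (ho m).det_eq, fun m => (ho m).small, fun m => ?_⟩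
  · refine (summable_pow_exp y2 ((1 + P + B * B + Q) * n) (c := η / 4) (by positivity)).congr
      fun m => ?_
    simp only [pow_mul]
    congr 3; ring
  · refine Summable.of_nonneg_of_le (fun m => by have := l1 m; positivity) (fun m => ?_)
      summable_geometric_two
    rw [one_div_pow]
    exact one_div_le_one_div_of_le (by positivity) (y2 m)
  · show ev ((d (m + 1)).Xf _ i - (d m).Xf _ i) z = _
    rw [ev_sub, (ho m).res _ (hn m).T_le i z hz]
  · have h2 := l1 m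
    have h3 : (y m ^ B) ^ Q ≤ (y m ^ B) ^ (1 + P + B * B + Q) := pow_le_pow_right₀ h2 (by omega)
    exact gb_mono ((hn m).inc i) (fun _ => by positivity)
      (fun _ => inv_anti₀ (by positivity) h3) fun t =>
        mul_le_mul_of_nonneg_right h3 (Real.exp_pos _).le
  · show (m : ℝ) ≤ ‖evm (D0m ((d m).Xf (d m).T)) (cz (d (m + 1)).s)‖
    rw [(ho m).cen _ ⟨h0.t_pos.trans_le (hd (m + 1)).t_le, (hd (m + 1)).s_lt.trans_le (hn m).T_le⟩]
    have h2 : (m : ℝ) ≤ 2 ^ m := by exact_mod_cast (Nat.lt_two_pow_self (n := m)).le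
    exact h2.trans ((y2 m).trans (hn m).big)

end Pool.Agent.Lib.MP_fbbbeb_an.Cas
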