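import Mathlib
import Pool.Agent.Lib.MP_fbbbeb_an.Cas.Chain
import Pool.Agent.Lib.MP_fbbbeb_an.Cas.EvG
import Pool.Agent.Lib.MP_fbbbeb_an.Cas.Typ

/-! The seed field of the first cycle. -/

set_option autoImplicit false

noncomputable section

namespace Pool.Agent.Lib.MP_fbbbeb_an.Cas.Sta

open Pool.Agent.Lib.MP_fbbbeb_an.Pub
open scoped ContDiff Topology RealInnerProductSpace Matrix Nat

variable {T : ℝ}

/-- cubic numerator of the seed field -/
def cub (T : ℝ) : Vec T := fun i =>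
  xA T i * (xA T (i + 1) * xA T (i + 1) - xA T (i + 2) * xA T (i + 2))

theorem pdx_a (i l : Fin 3) : pd (la i) (xA T l) = if i = l then 1 else 0 := by
  rw [pd_xA]
  by_cases h : i = l <;> simp [h]

theorem pdx_t (l : Fin 3) : pd lt (xA T l) = 0 := by
  rw [pd_xA]; simp

theorem pdx_p (j l : Fin 3) : pd (lp j) (xA T l) = 0 := by
  rw [pd_xA]; simp

theorem in_xA (l : Fin 4) : InV l (xA T) := fun i j _ => pdx_p j i

theorem eqv_cub : Eqv (cub T) := by
  rintro g ⟨c, s, hs, hg⟩ z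
  by_cases hz : z ∈ Om T
  · have hz' : gz g z ∈ Om T := (gz_mem_Om g).2 hz
    ext i
    rw [hg]
    simp only [evv_apply, cub, ev_mul, ev_sub, ev_xA _ hz, ev_xA _ hz']
    simp only [gz, hg]
    have e1 : i + 1 + c = i + c + 1 := by abel
    have e2 : i + 2 + c = i + c + 2 := by abel
    rw [e1, e2]
    rcases hs (i + 1) with h1 | h1 <;> rcases hs (i + 2) with h2 | h2 <;> rw [h1, h2] <;> ring
  · have hz' : gz g z ∉ Om T := fun h => hz ((gz_mem_Om g).1 h)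
    have h1 : evv (cub T) z = 0 := by ext i; simp [ev_out _ hz]
    have h2 : evv (cub T) (gz g z) = 0 := by ext i; simp [ev_out _ hz']
    rw [h1, h2, map_zero]

theorem gb_cub {r : Let → ℝ} (hr : ∀ i, 0 ≤ r i) (h1 : ∀ i, r (la i) ≤ 1) :
    GBv 3 r w1 18 (cub T) := by
  intro i
  have hx := GBv_xA (T := T) hr h1
  have a := GB.mul1 hr (hx (i + 1)) (hx (i + 1))
  have b := GB.mul1 hr (hx (i + 2)) (hx (i + 2))
  have c := GB.mul1 hr (hx i) (GB.sub hr a b)
  refine (c.cast (by norm_num)).monoM (fun _ _ => zero_le_one) (by norm_num)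

theorem ev_n2 {z : Pt} (hz : z ∈ Sp T) : ev (xA T ⬝ᵥ xA T) z = 1 := by
  have h : evv (xA T) z = z.2.1 := by
    ext i; rw [evv_apply, ev_xA _ (Sp_sub T hz)]
  rw [ev_dot, h, real_inner_self_eq_norm_sq, hz.2.2]; norm_num

theorem pd_q {q : A T} (hq : q * (xA T ⬝ᵥ xA T) = 1) (i : Let) :
    pd i q = -(q * q * pd i (xA T ⬝ᵥ xA T)) := by
  have h := congrArg (pd i) hq
  rw [Derivation.leibniz, Derivation.map_one_eq_zero, smul_eq_mul, smul_eq_mul] at h
  have h2 : pd i q = pd i q * (q * (xA T ⬝ᵥ xA T)) := by rw [hq, mul_one]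
  linear_combination h2 + q * h

theorem pd_n2_a (j : Fin 3) : pd (la j) (xA T ⬝ᵥ xA T) = 2 * xA T j := by
  simp only [dotProduct, Fin.sum_univ_three, map_add, Derivation.leibniz, smul_eq_mul, pdx_a]
  fin_cases j <;> simp <;> ring

theorem pd_n2_t : pd lt (xA T ⬝ᵥ xA T) = 0 := by
  simp [dotProduct, Fin.sum_univ_three, Derivation.leibniz, pdx_t]

theorem pd_n2_p (j : Fin 3) : pd (lp j) (xA T ⬝ᵥ xA T) = 0 := by
  simp [dotProduct, Fin.sum_univ_three, Derivation.leibniz, pdx_p]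

/-- the gradient of the seed field on the central label -/
def Um : Matrix (Fin 3) (Fin 3) ℝ :=
  !![-30 / 98, 38 / 98, -27 / 98; -44 / 98, 24 / 98, 36 / 98; 51 / 98, -66 / 98, 6 / 98]

theorem a0_val (i : Fin 3) : a0 i = (Real.sqrt 14)⁻¹ * ((i : ℕ) + 1 : ℝ) := by
  fin_cases i <;> simp [a0] <;> norm_num

theorem sq14 : (Real.sqrt 14)⁻¹ * (Real.sqrt 14)⁻¹ = 1 / 14 := by
  rw [← mul_inv, Real.mul_self_sqrt (by norm_num)]; norm_num

theorem seed : ∃ (u : Vec 1) (ρ K : ℝ) (U : L3), 0 < ρ ∧ ρ ≤ 1 ∧ 1 ≤ K ∧ InV 0 u ∧ Eqv u ∧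
    dtv u = 0 ∧ GBv 1 (fun _ => ρ) w1 K u ∧ GBm 0 (fun _ => ρ) w1 K (D0m u) ∧ dv0 u = 0 ∧
    (∀ t ∈ Set.Ioo (0 : ℝ) 1, evm (D0m u) (cz t) = U) ∧ ‖U‖ ≤ 10 ∧ 1 / 10 ≤ ‖U a0‖ ∧
    ∀ x, ⟪a0, U x⟫ + ⟪x, U a0⟫ = 0 := by
  have hr1 : ∀ i : Let, (0 : ℝ) < (fun _ => (1 : ℝ)) i := fun _ => one_pos
  have hx := GBv_xA (T := 1) (r := fun _ => 1) (fun _ => zero_le_one) (fun _ => le_rfl)
  have hn := GBv.dot (fun i => (hr1 i).le) hx hx
  rw [w1_mul] at hn
  obtain ⟨q, hq, hqb⟩ := GB.exists_inv hr1 one_pos hn fun z hz => by rw [ev_n2 hz]; simp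
  have hr : dvr (fun _ : Let => (1 : ℝ)) (32 * (9 * (1 * 1)) / 1) = fun _ => 1 / 288 := by
    funext i; simp only [dvr]; norm_num
  rw [hr] at hqb
  have hc := gb_cub (T := 1) (r := fun _ => 1 / 288) (fun _ => by norm_num) (fun _ => by norm_num)
  have hu := GB.smulv (fun _ => by norm_num) hqb hc
  rw [w1_mul] at hu
  have hu1 : GBv 1 (fun _ => (1 : ℝ) / 288) w1 54 (q • cub 1) := fun i =>
    ((hu i).cast (by norm_num)).monoM (fun _ _ => zero_le_one) (by norm_num)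
  have hsh : sh (1 / 2) 1 (fun _ : Let => (1 : ℝ) / 288) = fun _ => 1 / 576 := by
    funext i; simp only [sh]; norm_num
  have hqt : pd lt q = 0 := by rw [pd_q hq, pd_n2_t]; simp
  have hqp : ∀ j, pd (lp j) q = 0 := fun j => by rw [pd_q hq, pd_n2_p]; simp
  have hqa : ∀ j, pd (la j) q = -(q * q * (2 * xA 1 j)) := fun j => by rw [pd_q hq, pd_n2_a]
  refine ⟨q • cub 1, 1 / 576, 10 ^ 6, Matrix.toEuclideanCLM (n := Fin 3) (𝕜 := ℝ) Um,
    by norm_num, by norm_num, by norm_num, ?_, ?_, ?_, ?_, ?_, ?_, ?_, ?_, ?_, ?_⟩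
  · intro i j _
    simp [cub, Derivation.leibniz, hqp, pdx_p]
  · exact Eqv.smulA ((eqv_xA.dot eqv_xA).of_mul_eq_one hq) eqv_cub
  · funext i
    simp [dtv, cub, Derivation.leibniz, hqt, pdx_t]
  · exact hu1.mono (fun _ => by norm_num) (fun _ => by norm_num) fun _ _ => by
      simp only [w1]; norm_num
  · intro i j
    have := GB.pd_a (θ := 1 / 2) (fun _ => by norm_num) (by norm_num) (by norm_num) j (hu1 i)
    rw [hsh] at this
    exact (this.cast (by norm_num)).monoM (fun _ _ => zero_le_one) (by norm_num)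
  · simp only [dv0, Fin.sum_univ_three, Pi.smul_apply, smul_eq_mul, cub, Derivation.leibniz,
      map_sub, hqa, pdx_a]
    simp
    ring
  · intro t ht
    have hz : cz t ∈ Sp 1 := cz_mem ht
    have hz' := Sp_sub 1 hz
    have hq1 : ev q (cz t) = 1 := by
      have := congrArg (fun f => ev f (cz t)) hq
      simpa [ev_n2 hz, ev_one hz'] using this
    have hxv : ∀ i, ev (xA 1 i) (cz t) = (Real.sqrt 14)⁻¹ * ((i : ℕ) + 1 : ℝ) := fun i => by
      rw [ev_xA _ hz']; exact a0_val i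
    have h2 : ev (2 : A 1) (cz t) = 2 := by
      rw [show (2 : A 1) = 1 + 1 by norm_num, ev_add, ev_one hz']; norm_num
    unfold evm
    congr 1
    ext i j
    have hs := sq14
    generalize (Real.sqrt 14)⁻¹ = s at hxv hs
    have hs4 : s ^ 4 = 1 / 196 := by
      rw [show s ^ 4 = (s * s) * (s * s) by ring, hs]; norm_num
    have hs2 : s ^ 2 = 1 / 14 := by rw [sq, hs]
    fin_cases i <;> fin_cases j <;>
      simp [D0m, cub, Um, Derivation.leibniz, hqa, pdx_a, hq1, hxv, h2] <;>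
      ring_nf <;> rw [hs4, hs2] <;> norm_num
  · refine ContinuousLinearMap.opNorm_le_bound _ (by norm_num) fun x => ?_
    have hx2 : ‖x‖ ^ 2 = x 0 ^ 2 + x 1 ^ 2 + x 2 ^ 2 := by
      rw [EuclideanSpace.norm_sq_eq]; simp [Fin.sum_univ_three]
    refine abs_le_of_sq_le_sq' ?_ (by positivity) |>.2
    rw [mul_pow, hx2, EuclideanSpace.norm_sq_eq]
    simp [Fin.sum_univ_three, Um, Matrix.mulVec, dotProduct]
    nlinarith [sq_nonneg (x 0 - x 1), sq_nonneg (x 0 + x 1), sq_nonneg (x 0 - x 2),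
      sq_nonneg (x 0 + x 2), sq_nonneg (x 1 - x 2), sq_nonneg (x 1 + x 2)]
  · refine abs_le_of_sq_le_sq' ?_ (norm_nonneg _) |>.2
    rw [EuclideanSpace.norm_sq_eq]
    have hs := sq14
    simp [Fin.sum_univ_three, Um, Matrix.mulVec, dotProduct, a0_val]
    generalize (Real.sqrt 14)⁻¹ = s at hs
    nlinarith
  · intro x
    simp [Fin.sum_univ_three, Um, Matrix.mulVec, dotProduct, a0_val, PiLp.inner_apply]
    ring

end Pool.Agent.Lib.MP_fbbbeb_an.Cas.Sta
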