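import Mathlib
import Pool.Agent.Lib.MP_fbbbeb_an.Cas.Stmt
import Pool.Agent.Lib.MP_fbbbeb_an.Cas.Typ
import Pool.Agent.Lib.MP_fbbbeb_an.Cas.Ev
import Pool.Agent.Lib.MP_fbbbeb_an.Cas.Chain
import Pool.Agent.Lib.MP_fbbbeb_an.Cas.Prp

/-! From the field statements to the curves on the central label. -/

set_option autoImplicit false

noncomputable section

namespace Pool.Agent.Lib.MP_fbbbeb_an.Cas.Cen

open Pool.Agent.Lib.MP_fbbbeb_an.Pub
open scoped ContDiff Topology RealInnerProductSpace Matrix Nat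

variable {T : ℝ}

/-! ### sizes at points of the sphere -/

section
variable {d : ℤ} {r : Let → ℝ} {w : ℝ → ℝ} {M : ℝ} {f : A T} {V : Vec T} {F G : Mat T} {z : Pt}

theorem sp_t (hz : z ∈ Sp T) : z.1 ∈ Set.Ioo 0 T := ⟨hz.1, hz.2.1⟩

theorem gb_nonneg (h : GB d r w M f) (hz : z ∈ Sp T) : 0 ≤ M * w z.1 :=
  (abs_nonneg _).trans (h.abs_le hz)

theorem abs_pd_le (h : GB d r w M f) {i : Let} (hr : 0 < r i) (hz : z ∈ Sp T) :
    |ev (pd i f) z| ≤ M * w z.1 / r i := by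
  have := h.2 z hz [i]
  rw [le_div_iff₀ hr]
  simpa [pw, rpr] using this

theorem abs_pd2_le (h : GB d r w M f) {i j : Let} (hi : 0 < r i) (hj : 0 < r j) (hz : z ∈ Sp T) :
    |ev (pd i (pd j f)) z| ≤ 4 * (M * w z.1) / (r i * r j) := by
  have := h.2 z hz [i, j]
  rw [le_div_iff₀ (mul_pos hi hj)]
  have e : (((([i, j] : List Let).length)! : ℕ) : ℝ) ^ 2 = 4 := by norm_num [Nat.factorial]
  rw [e] at this
  simpa [pw, rpr, mul_comm] using this

theorem evv_le (h : GBv d r w M V) (hz : z ∈ Sp T) : ‖evv V z‖ ≤ 2 * (M * w z.1) :=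
  norm_evv_le fun i => (h i).abs_le hz

theorem evv_dt_le (h : GBv d r w M V) (hr : 0 < r lt) (hz : z ∈ Sp T) :
    ‖evv (dtv V) z‖ ≤ 2 * (M * w z.1 / r lt) :=
  norm_evv_le fun i => abs_pd_le (h i) hr hz

theorem evm_le (h : GBm d r w M F) (hz : z ∈ Sp T) : ‖evm F z‖ ≤ 3 * (M * w z.1) :=
  norm_evm_le fun i l => (h i l).abs_le hz

theorem evm_dt_le (h : GBm d r w M F) (hr : 0 < r lt) (hz : z ∈ Sp T) :
    ‖evm (dtm F) z‖ ≤ 3 * (M * w z.1 / r lt) :=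
  norm_evm_le fun i l => abs_pd_le (h i l) hr hz

theorem evm_dt2_le (h : GBm d r w M F) (hr : 0 < r lt) (hz : z ∈ Sp T) :
    ‖evm (dtm (dtm F)) z‖ ≤ 3 * (4 * (M * w z.1) / (r lt * r lt)) :=
  norm_evm_le fun i l => abs_pd2_le (h i l) hr hr hz

end

/-! ### closeness of curves -/

section
variable {X : Type} [NormedAddCommGroup X] {T' ε ε' : ℝ} {P Q S : Cv X}

theorem near_refl (P : Cv X) : P.Near T 0 P := fun _ _ => by simp

theorem near_symm (h : P.Near T ε Q) : Q.Near T ε P := fun t ht => by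
  obtain ⟨a, b, c⟩ := h t ht
  exact ⟨by rwa [norm_sub_rev], by rwa [norm_sub_rev], by rwa [norm_sub_rev]⟩

theorem near_trans (h : P.Near T ε Q) (h' : Q.Near T ε' S) : P.Near T (ε + ε') S := fun t ht => by
  obtain ⟨a, b, c⟩ := h t ht
  obtain ⟨a', b', c'⟩ := h' t ht
  exact ⟨(norm_sub_le_norm_sub_add_norm_sub _ _ _).trans (add_le_add a a'),
    (norm_sub_le_norm_sub_add_norm_sub _ _ _).trans (add_le_add b b'),
    (norm_sub_le_norm_sub_add_norm_sub _ _ _).trans (add_le_add c c')⟩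

theorem near_mono (h : P.Near T ε Q) (hT : T' ≤ T) (he : ε ≤ ε') : P.Near T' ε' Q := fun t ht => by
  obtain ⟨a, b, c⟩ := h t ⟨ht.1, ht.2.trans_le hT⟩
  exact ⟨a.trans he, b.trans he, c.trans he⟩

theorem near_zero_iff : P.Near T 0 Q ↔
    ∀ t ∈ Set.Ioo 0 T, P.f t = Q.f t ∧ P.f1 t = Q.f1 t ∧ P.f2 t = Q.f2 t := by
  simp only [Cv.Near, norm_le_zero_iff, sub_eq_zero]

theorem ok_mono [NormedSpace ℝ X] (h : P.Ok T) (hT : T' ≤ T) : P.Ok T' :=
  fun t ht => h t ⟨ht.1, ht.2.trans_le hT⟩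

end

section
variable {T' ε ε' K : ℝ} {P Q : Cv L3} {w w' : ℝ → ℝ} {k p : E} {η : Cv E}

theorem defect_mono (h : Defect T ε P) (hT : T' ≤ T) (he : ε ≤ ε') : Defect T' ε' P :=
  fun t ht => (h t ⟨ht.1, ht.2.trans_le hT⟩).trans he

theorem defect_congr (hn : P.Near T 0 Q) (h : Defect T ε P) : Defect T ε Q := fun t ht => by
  obtain ⟨a, -, c⟩ := near_zero_iff.1 hn t ht
  rw [← a, ← c]
  exact h t ht

theorem wave_congr (hn : P.Near T 0 Q) (h : Wave T ε w P k p η) : Wave T ε w Q k p η := by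
  obtain ⟨h1, h2, s, e, e1, h3⟩ := h
  refine ⟨h1, h2, s, e, e1, fun t ht => ?_⟩
  obtain ⟨a, b, -⟩ := near_zero_iff.1 hn t ht
  rw [← a, ← b]
  exact h3 t ht

theorem wave_mono (h : Wave T ε w P k p η) (he : ∀ t ∈ Set.Ioo 0 T, ε * w t ≤ ε' * w' t) :
    Wave T ε' w' P k p η := by
  obtain ⟨h1, h2, s, e, e1, h3⟩ := h
  refine ⟨h1, h2, s, e, e1, fun t ht => ?_⟩
  obtain ⟨a, b, c, d, d'⟩ := h3 t ht
  exact ⟨a, b, c, d.trans (he t ht), d'.trans (he t ht)⟩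

theorem mulH_congr (hn : P.Near T 0 Q) (η : Cv E) (k : E) :
    (mulH P η k).Near T 0 (mulH Q η k) := near_zero_iff.2 fun t ht => by
  obtain ⟨a, b, c⟩ := near_zero_iff.1 hn t ht
  simp only [mulH, a, b, c, and_self]

theorem prp_congr (hn : P.Near T 0 Q) (h : Prp T (fun t => Mop (P.f t) (P.f1 t) k) w K) :
    Prp T (fun t => Mop (Q.f t) (Q.f1 t) k) w K :=
  h.congr (fun t ht => by
    obtain ⟨a, b, -⟩ := near_zero_iff.1 hn t ht
    simp only [a, b]) fun _ _ => rfl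

end

/-- a small rest moves the central curve little, with two time derivatives -/
theorem near_add (F : Mat T) {G : Mat T} {d : ℤ} {r : Let → ℝ} {w : ℝ → ℝ} {M ε : ℝ}
    (h : GBm d r w M G) (hr : 0 < r lt) (hr1 : r lt ≤ 1)
    (he : ∀ t ∈ Set.Ioo 0 T, 12 * (M * w t) ≤ ε * r lt ^ 2) :
    (cenM (F + G)).Near T ε (cenM F) := by
  intro t ht
  have hz := cz_mem ht
  have h0 : 0 ≤ M * w t := gb_nonneg (h 0 0) hz
  have h1 := he t ht
  have h2 : 12 * (M * w t) / (r lt * r lt) ≤ ε := by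
    rw [div_le_iff₀ (mul_pos hr hr)]; nlinarith
  have h3 : r lt * r lt ≤ r lt := by nlinarith
  have h4 : M * w t / r lt ≤ M * w t / (r lt * r lt) :=
    div_le_div_of_nonneg_left h0 (mul_pos hr hr) h3
  have h5 : M * w t ≤ M * w t / r lt := le_div_self h0 hr hr1
  have h6 : 12 * (M * w t) / (r lt * r lt) = 12 * (M * w t / (r lt * r lt)) := by ring
  have h7 : 0 ≤ M * w t / r lt := div_nonneg h0 hr.le
  have a := evm_le h hz
  have b := evm_dt_le h hr hz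
  have c := evm_dt2_le h hr hz
  simp only [cenM, dtm_add, evm_add, add_sub_cancel_left]
  have e : (cz t).1 = t := rfl
  rw [e] at a b c
  refine ⟨by linarith, by linarith, c.trans ?_⟩
  refine le_trans (le_of_eq ?_) h2
  ring

/-- the wave equation of the insertion step, read on the central label -/
theorem wave_of_eq {F : Mat T} {η p k e : Vec T} {s : A T} {kv p0 : E} {d : ℤ} {r : Let → ℝ}
    {w w' : ℝ → ℝ} {ε ε' : ℝ} (heq : gm F *ᵥ dtv η - Bf F *ᵥ η - p = s • k + e)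
    (hk : k ⬝ᵥ η = 0) (hv : Van η) (hkv : ∀ t ∈ Set.Ioo 0 T, evv k (cz t) = kv)
    (hp : ∀ t ∈ Set.Ioo 0 T, evv p (cz t) = p0) (he : GBv d r w ε' e) (hr : 0 < r lt)
    (hr1 : r lt ≤ 1) (hε : ∀ t ∈ Set.Ioo 0 T, 2 * (ε' * w t) ≤ ε * w' t * r lt) :
    Wave T ε w' (cenM F) kv p0 (cenV η) := by
  refine ⟨cenV_ok η, hv (a0, 0), fun t => ev s (cz t), fun t => evv e (cz t),
    fun t => evv (dtv e) (cz t), fun t ht => ?_⟩
  have hz := cz_mem ht
  have h0 : 0 ≤ ε' * w t := gb_nonneg (he 0) hz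
  have h1 : 2 * (ε' * w t / r lt) ≤ ε * w' t := by
    rw [← mul_div_assoc, div_le_iff₀ hr]; exact hε t ht
  have h5 : ε' * w t ≤ ε' * w t / r lt := le_div_self h0 hr hr1
  refine ⟨?_, ?_, (cenV_ok e t ht).1, (evv_le he hz).trans ?_, (evv_dt_le he hr hz).trans h1⟩
  · have := congrArg (fun V => evv V (cz t)) heq
    simp only [evv_sub, evv_add, evv_mulVec, evv_smulA, evm_gm, evm_Bf, hkv t ht, hp t ht] at this
    exact this
  · have := congrArg (fun f => ev f (cz t)) hk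
    simp only [ev_dot, hkv t ht, ev_zero] at this
    exact this
  · show 2 * (ε' * w t) ≤ _
    linarith

/-- the gradient after the insertion is `F (1 + η ⊗ k)` on the central label -/
theorem near_mulH {F G : Mat T} {η k : Vec T} {kv : E} {j : Fin 3}
    (hG : ∀ z ∈ Om T, z.2.2 j = 0 → evm G z = evm F z * r1 (evv η z) (evv k z))
    (hkv : ∀ t ∈ Set.Ioo 0 T, evv k (cz t) = kv) :
    (cenM (F + G)).Near T 0 (mulH (cenM F) (cenV η) kv) := by
  refine Cv.near_of_eq (cenM_ok _) (mulH_ok kv (cenM_ok F) (cenV_ok η)) fun t ht => ?_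
  have := hG (cz t) (Sp_sub T (cz_mem ht)) rfl
  simp only [cenM, cenV, mulH, evm_add, this, hkv t ht, mul_add, mul_one]

/-- the same with a small rest -/
theorem near_mulH_rest {F G R : Mat T} {η k : Vec T} {kv : E} {j : Fin 3} {d : ℤ} {r : Let → ℝ}
    {w : ℝ → ℝ} {M ε : ℝ}
    (hG : ∀ z ∈ Om T, z.2.2 j = 0 → evm G z = evm F z * r1 (evv η z) (evv k z))
    (hkv : ∀ t ∈ Set.Ioo 0 T, evv k (cz t) = kv) (h : GBm d r w M R) (hr : 0 < r lt)
    (hr1 : r lt ≤ 1) (he : ∀ t ∈ Set.Ioo 0 T, 12 * (M * w t) ≤ ε * r lt ^ 2) :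
    (cenM (F + G + R)).Near T ε (mulH (cenM F) (cenV η) kv) := by
  simpa using near_trans (near_add (F + G) h hr hr1 he) (near_mulH hG hkv)

/-- the covector of the canonical frame on the central label -/
theorem cf_k_cz (hG : GeoSt) {N : Fin 4 → ℝ} {kv : Fin 3 → E} {δ δa : ℝ} (h : CfOk N kv δ δa)
    (j : Fin 3) : ∀ t ∈ Set.Ioo 0 T, evv ((cf T N kv δ δa).k j) (cz t) = kv j := by
  obtain ⟨C, -, H⟩ := hG
  intro t ht
  have h1 : dc 1 (cz t).2.1 ≤ 1 / 100 := by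
    show 2 - 2 * ⟪a0, a0⟫ / ‖a0‖ ≤ 1 / 100
    rw [real_inner_self_eq_norm_sq, norm_a0]
    norm_num
  rw [(H T N kv δ δa h).2.2.1 j (cz t) (Sp_sub T (cz_mem ht)) h1]
  show ‖a0‖⁻¹ • (kv j - (⟪kv j, a0⟫ / ‖a0‖ ^ 2) • a0) = kv j
  rw [(h.2.2.1 j).2, norm_a0]
  simp

/-! ### consequences of a small residual -/

section
variable {fr : Frame T} {K θ ε y : ℝ} {r : Let → ℝ} {w : Fin 4 → ℝ → ℝ} {c : Fin 4 → ℝ}
  {X : Vec T}

/-- gradient of a sum over the levels -/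
theorem fb_Dm {R : Fin 4 → Vec T} (hfr : fr.Ok) (h : Reg fr K θ ε r)
    (hc : ∀ l, ∀ t ∈ Set.Ioo 0 T, 0 ≤ c l * w l t ∧ c l * w l t ≤ y) (hR : FB fr r w c R) :
    GBm 0 (sh θ 1 r) w1 (K ^ 12 * y) (Dm fr (∑ l, R l)) := by
  intro i m
  have hr : ∀ i, 0 ≤ sh θ 1 r i := fun i =>
    (sh_pos (by linarith [h.th_half]) 1 (h.r_pos hfr) i).le
  have K0 : 0 ≤ K := by linarith [h.K_two]
  have h1 : ∀ l, GB 0 (sh θ 1 r) w1 (K ^ 10 * y) (Dm fr (R l) i m) := fun l =>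
    (SB.Dm hfr h (fun t ht => (hc l t ht).1) (hR l) i m).mono hr (fun _ => le_rfl) fun t ht => by
      rw [mul_assoc, w1, mul_one]
      exact mul_le_mul_of_nonneg_left (hc l t ht).2 (pow_nonneg K0 _)
  rw [Dm_sum, Matrix.sum_apply]
  refine (GB.sum hr Finset.univ fun l _ => h1 l).mono hr (fun _ => le_rfl) fun t ht => ?_
  have y0 : 0 ≤ y := (hc 0 t ht).1.trans (hc 0 t ht).2
  have h4 : 4 ≤ K ^ 2 := by nlinarith [h.K_two]
  have h5 : 0 ≤ K ^ 10 * y := by positivity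
  simp only [Finset.sum_const, Finset.card_univ, Fintype.card_fin, nsmul_eq_mul, w1, mul_one]
  calc ((4 : ℕ) : ℝ) * (K ^ 10 * y) ≤ K ^ 2 * (K ^ 10 * y) :=
        mul_le_mul_of_nonneg_right (by simpa using h4) h5
    _ = K ^ 12 * y := by ring

theorem dtm_Bf (F : Mat T) : dtm (Bf F) = (dtm (dtm F))ᵀ * F - Fᵀ * dtm (dtm F) := by
  simp only [Bf, dtm_sub, dtm_mul, dtm_transpose]
  abel

theorem defect_of_st (hA : AlgSt) (hfr : fr.Ok) (h : Reg fr K θ ε r)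
    (hc : ∀ l, ∀ t ∈ Set.Ioo 0 T, 0 ≤ c l * w l t ∧ c l * w l t ≤ y) (hs : St fr r w c X) :
    Defect T (K ^ 17 * y) (cenM (Dm fr X)) := by
  obtain ⟨R, hR, hcl⟩ := hs.1
  have hb := fb_Dm hfr h hc hR
  have e : dtm (Bf (Dm fr X)) = (dtm (Dm fr (∑ l, R l)))ᵀ - dtm (Dm fr (∑ l, R l)) := by
    ext1 i l
    have h1 := hcl i l
    have h2 := (hA T fr hfr).2.2.2.2.2.2 X i l
    simp only [Pi.sub_apply, map_sub] at h1
    simp only [dtm, Dm, Matrix.of_apply, Matrix.sub_apply, Matrix.transpose_apply]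
    have h3 := congrArg (pd lt) h2
    simp only [map_sub] at h3
    rw [← sub_eq_zero, ← h1]
    show pd lt (Bf (Dm fr X) i l) - _ = _
    rw [← h3]
    abel
  intro t ht
  have hz := cz_mem ht
  have th : 0 < θ := by linarith [h.th_half]
  have hr : 0 < sh θ 1 r lt := sh_pos th 1 (h.r_pos hfr) lt
  have h1 := evm_dt_le hb hr hz
  have e2 := congrArg (fun F => evm F (cz t)) e
  simp only [dtm_Bf, evm_sub, evm_mul, evm_transpose] at e2
  simp only [cenM]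
  rw [e2]
  refine (norm_sub_le _ _).trans ?_
  have hst : ∀ P : L3, ‖star P‖ = ‖P‖ := fun P => ContinuousLinearMap.adjoint.norm_map P
  rw [hst]
  have y0 : 0 ≤ y := (hc 0 t ht).1.trans (hc 0 t ht).2
  have K2 := h.K_two
  have h2 : K ^ 12 * y * w1 (cz t).1 / sh θ 1 r lt ≤ 2 * K * (K ^ 12 * y) := by
    rw [div_le_iff₀ hr]
    simp only [w1, sh, pow_one, mul_one]
    have h3 : 1 ≤ 2 * K * (θ * r lt) := by
      have := h.r_t
      have h4 : 0 ≤ K * r lt := by linarith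
      nlinarith [h.th_half]
    have h5 : 0 ≤ K ^ 12 * y := by positivity
    nlinarith
  have h6 : 12 ≤ K ^ 4 := by
    have : (2 : ℝ) ^ 4 ≤ K ^ 4 := pow_le_pow_left₀ (by norm_num) K2 4
    linarith
  have h7 : 0 ≤ K ^ 13 * y := by positivity
  calc _ ≤ 12 * (K ^ 13 * y) := by
        have : 2 * K * (K ^ 12 * y) = 2 * (K ^ 13 * y) := by ring
        linarith
    _ ≤ K ^ 4 * (K ^ 13 * y) := mul_le_mul_of_nonneg_right h6 h7
    _ = K ^ 17 * y := by ring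

theorem det_of_st (hfr : fr.Ok) (h : Reg fr K θ ε r)
    (hc : ∀ l, ∀ t ∈ Set.Ioo 0 T, 0 ≤ c l * w l t ∧ c l * w l t ≤ y) (hs : St fr r w c X) :
    ∀ z ∈ Sp T, |ev (Dm fr X).det z - 1| ≤ K ^ 14 * y := by
  obtain ⟨R, hR, he⟩ := hs.2
  have hb := fb_Dm hfr h hc hR
  intro z hz
  have e := congrArg (fun f => ev f z) he
  simp only [ev_sub, ev_one (Sp_sub T hz), dv, ev_sum] at e
  rw [e]
  have h1 : ∀ i, |ev (D fr i ((∑ l, R l) i)) z| ≤ K ^ 12 * y := fun i => by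
    simpa [w1, Dm] using (hb i i).abs_le hz
  have y0 : 0 ≤ y := (hc 0 _ (sp_t hz)).1.trans (hc 0 _ (sp_t hz)).2
  have K2 := h.K_two
  have h4 : 3 ≤ K ^ 2 := by nlinarith
  have h5 : 0 ≤ K ^ 12 * y := by positivity
  refine (Finset.abs_sum_le_sum_abs _ _).trans ((Finset.sum_le_sum fun i _ => h1 i).trans ?_)
  simp only [Finset.sum_const, Finset.card_univ, Fintype.card_fin, nsmul_eq_mul]
  calc ((3 : ℕ) : ℝ) * (K ^ 12 * y) ≤ K ^ 2 * (K ^ 12 * y) :=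
        mul_le_mul_of_nonneg_right (by simpa using h4) h5
    _ = K ^ 14 * y := by ring

end

theorem tri_pert {a b c x y z M δ : ℝ} (ha : |a| ≤ M) (hb : |b| ≤ M) (hc : |c| ≤ M) (hx : |x| ≤ δ)
    (hy : |y| ≤ δ) (hz : |z| ≤ δ) (hδ : δ ≤ M) :
    |(a + x) * (b + y) * (c + z) - a * b * c| ≤ 7 * (M ^ 2 * δ) := by
  have d0 : 0 ≤ δ := (abs_nonneg _).trans hx
  have M0 : 0 ≤ M := d0.trans hδ
  have k : ∀ {p q s : ℝ}, |p| ≤ M → |q| ≤ M → |s| ≤ δ → |p * q * s| ≤ M ^ 2 * δ := by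
    intro p q s hp hq hs
    rw [abs_mul, abs_mul, sq]
    gcongr
  have e : (a + x) * (b + y) * (c + z) - a * b * c = a * b * z + a * c * y + b * c * x +
      a * y * z + b * x * z + c * x * y + x * y * z := by ring
  have := abs_le.1 (k ha hb hz)
  have := abs_le.1 (k ha hc hy)
  have := abs_le.1 (k hb hc hx)
  have := abs_le.1 (k ha (hy.trans hδ) hz)
  have := abs_le.1 (k hb (hx.trans hδ) hz)
  have := abs_le.1 (k hc (hx.trans hδ) hy)
  have := abs_le.1 (k (hx.trans hδ) (hy.trans hδ) hz)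
  rw [e, abs_le]
  constructor <;> linarith

/-- perturbation of the determinant -/
theorem det_pert {F G : Mat T} {z : Pt} {M δ : ℝ} (hF : ∀ i l, |ev (F i l) z| ≤ M)
    (hG : ∀ i l, |ev (G i l) z| ≤ δ) (hδ : δ ≤ M) :
    |ev (F + G).det z - ev F.det z| ≤ 42 * M ^ 2 * δ := by
  have k := fun a b c : Fin 3 => abs_le.1 (tri_pert (hF 0 a) (hF 1 b) (hF 2 c) (hG 0 a) (hG 1 b)
    (hG 2 c) hδ)
  simp only [Matrix.det_fin_three, Matrix.add_apply, ev_add, ev_sub, ev_mul]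
  have h1 := k 0 1 2
  have h2 := k 0 2 1
  have h3 := k 1 0 2
  have h4 := k 1 2 0
  have h5 := k 2 0 1
  have h6 := k 2 1 0
  rw [abs_le]
  constructor <;> linarith

/-- the inverse Jacobian -/
theorem exists_Ji {F : Mat T} {r : Let → ℝ} {M : ℝ} (hr : ∀ i, 0 < r i) (h : GBm 0 r w1 M F)
    (hd : ∀ z ∈ Sp T, 1 / 2 ≤ ev F.det z) :
    ∃ Ji : A T, Ji * F.det = 1 ∧ GB 0 (dvr r (3456 * M ^ 3)) w1 2 Ji := by
  obtain ⟨g, h1, h2⟩ := (h.det fun i => (hr i).le).exists_inv hr (β := 1 / 2) (by norm_num)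
    fun z hz => (hd z hz).trans (le_abs_self _)
  refine ⟨g, h1, ?_⟩
  have e : 32 * (54 * M ^ 3) / (1 / 2) = 3456 * M ^ 3 := by ring
  have e2 : (1 / 2 : ℝ)⁻¹ = 2 := by norm_num
  rw [e, e2, neg_zero] at h2
  exact h2

/-! ### early times -/

theorem not_Om {y : E × E} (h : ¬(0 < T ∧ y.1 ≠ 0)) (t : ℝ) : ((t, y) : Pt) ∉ Om T :=
  fun hz => h ⟨lt_trans hz.1 hz.2.1, hz.2.2⟩

/-- bounds on an annulus of labels -/
theorem bdd_ann {d : ℤ} {f : A T} (hf : Bdd d f) (u : List Let) {α β : ℝ} (hα : 0 < α) :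
    ∃ C : ℝ, 0 ≤ C ∧ ∀ z ∈ Om T, α ≤ ‖z.2.1‖ → ‖z.2.1‖ ≤ β → |ev (pw u f) z| ≤ C := by
  obtain ⟨M, hM⟩ := hf.2 u
  have hc : ContinuousOn (fun x : ℝ => x ^ (d - nla u)) (Set.Icc α β) :=
    (continuousOn_zpow₀ _).mono fun x hx => ne_of_gt (hα.trans_le hx.1)
  obtain ⟨B, hB⟩ := isCompact_Icc.exists_bound_of_continuousOn hc
  refine ⟨|B| * |M|, by positivity, fun z hz h1 h2 => ?_⟩
  have n0 : 0 < ‖z.2.1‖ := hα.trans_le h1
  have h3 := hf.1.pw u (z.1, ‖z.2.1‖⁻¹ • z.2.1, z.2.2) ‖z.2.1‖ n0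
  simp only [smul_smul, mul_inv_cancel₀ n0.ne', one_smul] at h3
  have h4 : ((z.1, ‖z.2.1‖⁻¹ • z.2.1, z.2.2) : Pt) ∈ Sp T :=
    ⟨hz.1, hz.2.1, by simp [norm_smul, n0.ne']⟩
  show |ev (pw u f) (z.1, z.2.1, z.2.2)| ≤ _
  rw [h3, abs_mul]
  exact mul_le_mul ((hB _ ⟨h1, h2⟩).trans (le_abs_self _)) ((hM _ h4).trans (le_abs_self _))
    (abs_nonneg _) (abs_nonneg _)

/-- first derivative from the values and the second derivative -/
theorem landau {g g1 g2 : ℝ → ℝ} {h C : ℝ} (h0 : 0 < h)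
    (h1 : ∀ s ∈ Set.Icc 0 h, HasDerivAt g (g1 s) s) (h2 : ∀ s ∈ Set.Icc 0 h, HasDerivAt g1 (g2 s) s)
    (hC : ∀ s ∈ Set.Icc 0 h, |g2 s| ≤ C) : |g1 0| ≤ (|g h| + |g 0|) / h + C * h := by
  have C0 : 0 ≤ C := (abs_nonneg _).trans (hC 0 ⟨le_rfl, h0.le⟩)
  have a := norm_image_sub_le_of_norm_deriv_le_segment' (f := g1) (f' := g2) (a := 0) (b := h)
    (C := C) (fun s hs => (h2 s hs).hasDerivWithinAt) fun s hs => hC s (Set.Ico_subset_Icc_self hs)
  have b := norm_image_sub_le_of_norm_deriv_le_segment' (f := fun s => g s - s * g1 0)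
    (f' := fun s => g1 s - g1 0) (a := 0) (b := h) (C := C * h)
    (fun s hs => by
      simpa using ((h1 s hs).fun_sub ((hasDerivAt_id s).mul_const (g1 0))).hasDerivWithinAt)
    (fun s hs => (a s (Set.Ico_subset_Icc_self hs)).trans (by
      rw [sub_zero]; exact mul_le_mul_of_nonneg_left hs.2.le C0)) h ⟨h0.le, le_rfl⟩
  simp only [Real.norm_eq_abs, zero_mul, sub_zero] at b
  have e : g1 0 = (g h - g 0 - (g h - h * g1 0 - g 0)) / h := by field_simp; ring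
  have c : |g h - g 0 - (g h - h * g1 0 - g 0)| ≤ |g h| + |g 0| + C * h * h :=
    (abs_sub _ _).trans (add_le_add (abs_sub _ _) b)
  calc |g1 0| = |g h - g 0 - (g h - h * g1 0 - g 0)| / h := by
        conv_lhs => rw [e, abs_div, abs_of_pos h0]
    _ ≤ (|g h| + |g 0| + C * h * h) / h := by gcongr
    _ = _ := by field_simp

/-- a derivative of a bounded function that vanishes at time zero vanishes at time zero -/
theorem van_pd {d : ℤ} {f : A T} (hf : Bdd d f)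
    (hv : ∀ y : E × E, Filter.Tendsto (fun t : ℝ => ev f (t, y)) (𝓝[>] 0) (𝓝 0)) {i : Let}
    (hi : i ≠ lt) (y : E × E) :
    Filter.Tendsto (fun t : ℝ => ev (pd i f) (t, y)) (𝓝[>] 0) (𝓝 0) := by
  by_cases h : 0 < T ∧ y.1 ≠ 0
  swap
  · simp only [ev_out _ (not_Om h _)]
    exact tendsto_const_nhds
  have n0 : 0 < ‖y.1‖ := norm_pos_iff.2 h.2
  obtain ⟨C, C0, hC⟩ := bdd_ann hf [i, i] (α := ‖y.1‖ / 2) (β := 2 * ‖y.1‖) (by positivity)
  have v1 : (vec i).1 = 0 := by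
    rcases i with _ | i | i
    · exact absurd rfl hi
    · rfl
    · rfl
  have v2 : ‖(vec i).2.1‖ ≤ 1 := by
    rcases i with _ | i | i <;> simp [vec]
  have e : ∀ t s : ℝ, ((t, y) : Pt) + s • vec i = (t, y + s • (vec i).2) := fun t s => by
    ext1
    · simp [v1]
    · rfl
  rw [Metric.tendsto_nhds]
  intro ε ε0
  obtain ⟨a, a0, a1, a2⟩ : ∃ a : ℝ, 0 < a ∧ a ≤ ‖y.1‖ / 2 ∧ C * a ≤ ε / 2 := by
    refine ⟨min (‖y.1‖ / 2) (ε / 2 / (C + 1)), by positivity, min_le_left _ _, ?_⟩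
    have : C * (ε / 2 / (C + 1)) ≤ ε / 2 := by
      rw [← mul_div_assoc, div_le_iff₀ (by positivity)]; nlinarith
    exact (mul_le_mul_of_nonneg_left (min_le_right _ _) C0).trans this
  have n : ∀ s ∈ Set.Icc 0 a, ‖y.1‖ / 2 ≤ ‖(y + s • (vec i).2).1‖ ∧
      ‖(y + s • (vec i).2).1‖ ≤ 2 * ‖y.1‖ := fun s hs => by
    have h1 : ‖s • (vec i).2.1‖ ≤ ‖y.1‖ / 2 := by
      rw [norm_smul, Real.norm_of_nonneg hs.1]
      nlinarith [hs.1, hs.2, norm_nonneg (vec i).2.1]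
    have h2 := norm_add_le y.1 (s • (vec i).2.1)
    have h3 := norm_sub_le (y.1 + s • (vec i).2.1) (s • (vec i).2.1)
    rw [add_sub_cancel_right] at h3
    show _ ≤ ‖y.1 + s • (vec i).2.1‖ ∧ ‖y.1 + s • (vec i).2.1‖ ≤ _
    constructor <;> linarith
  have lim : Filter.Tendsto (fun t : ℝ => (|ev f (t, y + a • (vec i).2)| + |ev f (t, y)|) / a)
      (𝓝[>] 0) (𝓝 0) := by
    simpa using ((hv (y + a • (vec i).2)).abs.add (hv y).abs).div_const a
  filter_upwards [lim.eventually (gt_mem_nhds (half_pos ε0)), Ioo_mem_nhdsGT h.1] with t h1 ht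
  have m : ∀ s ∈ Set.Icc 0 a, ((t, y) : Pt) + s • vec i ∈ Om T := fun s hs => by
    rw [e]
    exact ⟨ht.1, ht.2, norm_pos_iff.1 (lt_of_lt_of_le (by positivity) (n s hs).1)⟩
  have L := landau a0 (fun s hs => hasDerivAt_ev i f (t, y) s (m s hs))
    (fun s hs => hasDerivAt_ev i (pd i f) (t, y) s (m s hs))
    (fun s hs => hC _ (m s hs) (by rw [e]; exact (n s hs).1) (by rw [e]; exact (n s hs).2))
  simp only [e, zero_smul, add_zero] at L
  rw [Real.dist_eq, sub_zero]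
  linarith

theorem van_Dm {fr : Frame T} (hfr : fr.Ok) {d : ℤ} {W : Vec T} (hW : ∀ i, Bdd d (W i))
    (hv : Van W) (y : E × E) :
    Filter.Tendsto (fun t : ℝ => evm (Dm fr W) (t, y)) (𝓝[>] 0) (𝓝 0) := by
  have h0 : ∀ i, ∀ y : E × E, Filter.Tendsto (fun t : ℝ => ev (W i) (t, y)) (𝓝[>] 0) (𝓝 0) :=
    fun i y => squeeze_zero_norm (fun t => abs_ev_le_evv W (t, y) i) (by simpa using (hv y).norm)
  have h1 : ∀ i l, Filter.Tendsto (fun t : ℝ => ev (Dm fr W i l) (t, y)) (𝓝[>] 0) (𝓝 0) := by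
    intro i l
    by_cases h : 0 < T ∧ y.1 ≠ 0
    swap
    · simp only [ev_out _ (not_Om h _)]
      exact tendsto_const_nhds
    have a := van_pd (hW i) (h0 i) (i := la l) (by simp) y
    have b := fun j : Fin 3 => ((van_pd (hW i) (h0 i) (i := lp j) (by simp) y).const_mul
      (ev (fr.k j l) (T / 2, y))).const_mul (fr.N j.succ)
    have c := a.add (tendsto_finsetSum Finset.univ fun j _ => b j)
    simp only [mul_zero, Finset.sum_const_zero, add_zero] at c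
    refine c.congr' ?_
    filter_upwards [Ioo_mem_nhdsGT h.1] with t ht
    have m : ∀ j, ev (fr.k j l) (t, y) = ev (fr.k j l) (T / 2, y) := fun j =>
      ev_of_pd_t (hfr.k_t j l) ⟨ht.1, ht.2, h.2⟩ ⟨half_pos h.1, half_lt_self h.1, h.2⟩
    simp only [Dm, Matrix.of_apply, D_apply, ev_add, ev_sum, ev_smul, ev_mul, m]
  have h2 : Filter.Tendsto (fun t : ℝ => 3 * ∑ i, ∑ l, |ev (Dm fr W i l) (t, y)|) (𝓝[>] 0)
      (𝓝 0) := by
    simpa using (tendsto_finsetSum Finset.univ fun i _ =>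
      tendsto_finsetSum Finset.univ fun l _ => (h1 i l).abs).const_mul 3
  refine squeeze_zero_norm (fun t => norm_evm_le fun i l => ?_) h2
  exact (Finset.single_le_sum (f := fun l => |ev (Dm fr W i l) (t, y)|)
    (fun _ _ => abs_nonneg _) (Finset.mem_univ l)).trans
    (Finset.single_le_sum (f := fun i => ∑ l, |ev (Dm fr W i l) (t, y)|)
      (fun _ _ => Finset.sum_nonneg fun _ _ => abs_nonneg _) (Finset.mem_univ i))

/-- the gradient of a wave grows at most linearly from time zero -/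
theorem early {fr : Frame T} (hfr : fr.Ok) {d : ℤ} {W : Vec T} (hW : ∀ i, Bdd d (W i))
    (hv : Van W) {L : ℝ} (hL : ∀ z ∈ Sp T, ‖evm (dtm (Dm fr W)) z‖ ≤ L) :
    ∀ z ∈ Sp T, ‖evm (Dm fr W) z‖ ≤ L * z.1 := by
  intro z hz
  have m : ∀ t ∈ Set.Ioc 0 z.1, ((t, z.2) : Pt) ∈ Sp T := fun t ht =>
    ⟨ht.1, ht.2.trans_lt hz.2.1, hz.2.2⟩
  exact D.bound0 (y := fun t => evm (Dm fr W) (t, z.2)) hz.1
    (fun t ht => hasDerivAt_evm _ (Sp_sub T (m t ht))) (van_Dm hfr hW hv z.2)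
    fun t ht => hL _ (m t ht)

/-- the form with graded bounds -/
theorem early_gb {fr : Frame T} (hfr : fr.Ok) {W : Vec T} {d d' : ℤ} {r r' : Let → ℝ}
    {w w' : ℝ → ℝ} {M M' L L' : ℝ} (hr : ∀ i, 0 < r i) (hW : GBv d r w M W)
    (hw : ∀ t ∈ Set.Ioo 0 T, M * w t ≤ L) (hv : Van W) (hW' : GBm d' r' w' M' (dtm (Dm fr W)))
    (hw' : ∀ t ∈ Set.Ioo 0 T, M' * w' t ≤ L') :
    ∀ z ∈ Sp T, ‖evm (Dm fr W) z‖ ≤ 3 * L' * z.1 :=
  early hfr (fun i => (hW i).bdd hr hw) hv fun z hz =>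
    (evm_le hW' hz).trans (by linarith [hw' _ (sp_t hz)])

theorem pos_of_mul_pos_left' {a b : ℝ} (ha : 0 < a) (h : 0 < a * b) : 0 < b :=
  (pos_iff_pos_of_mul_pos h).1 ha

/-- the regime on a canonical frame -/
theorem reg_cf (hG : GeoSt) : ∃ Cg : ℝ, 2 ≤ Cg ∧ ∀ (T : ℝ) (N : Fin 4 → ℝ) (kv : Fin 3 → E)
    (δ δa K θ ε : ℝ) (r : Let → ℝ), CfOk N kv δ δa → Cg ≤ K → 1 / 2 ≤ θ → θ < 1 →
    1 ≤ K * (1 - θ) → (∀ i, r i ≤ 1) → 1 ≤ K * r lt → (∀ j, 1 ≤ K * r (lp j)) →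
    (∀ i, 1 ≤ K * N 0 * r (la i)) → (∀ i, Cg * r (la i) ≤ 1) → 0 < ε → ε ≤ 1 →
    (∀ j : Fin 3, N j.castSucc ≤ ε * N j.succ) → Reg (cf T N kv δ δa) K θ ε r := by
  obtain ⟨C, C2, H⟩ := hG
  refine ⟨C, C2, fun T N kv δ δa K θ ε r h hK h1 h2 h3 h4 h5 h6 h7 h8 h9 h10 h11 => ?_⟩
  have K0 : 0 < K := by linarith
  have N0 : 0 < K * N 0 := mul_pos K0 (by linarith [h.1])
  have hr : ∀ i, 0 ≤ r i := by
    rintro (_ | i | j)
    · exact (pos_of_mul_pos_left' K0 (lt_of_lt_of_le one_pos h5)).le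
    · exact (pos_of_mul_pos_left' N0 (lt_of_lt_of_le one_pos (h7 i))).le
    · exact (pos_of_mul_pos_left' K0 (lt_of_lt_of_le one_pos (h6 j))).le
  have G := (H T N kv δ δa h).2.2.2 r hr h8
  have w0 : ∀ t ∈ Set.Ioo 0 T, 0 ≤ w1 t := fun _ _ => zero_le_one
  exact ⟨by linarith, h1, h2, h3, h4, h5, h6, h7, fun j i => ((G j).1 i).monoM w0 hK,
    fun j => (G j).2.1.monoM w0 hK, h9, h10, h11⟩

end Pool.Agent.Lib.MP_fbbbeb_an.Cas.Cen
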