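import Mathlib
import Pool.Agent.Lib.MP_fbbbeb_an.Cas.Cen
import Pool.Agent.Lib.MP_fbbbeb_an.Cas.Iter
import Pool.Agent.Lib.MP_fbbbeb_an.Cas.EvG
import Pool.Agent.Lib.MP_fbbbeb_an.Cas.CycS

/-! Solvers on a base that is close to the identity, and one iteration on such a base. -/

set_option autoImplicit false

noncomputable section

namespace Pool.Agent.Lib.MP_fbbbeb_an.Cas.Sta

open Pool.Agent.Lib.MP_fbbbeb_an.Pub
open scoped ContDiff Topology RealInnerProductSpace Matrix Nat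

/-- the weight of the first cycle -/
def Bw (Λ : ℝ) : ℝ → ℝ := fun t => Real.exp (-(Λ * (1 - t)))

theorem Bw_pos (Λ t : ℝ) : 0 < Bw Λ t := Real.exp_pos _

theorem Bw_le {Λ t : ℝ} (hΛ : 0 ≤ Λ) (ht : t ∈ Set.Ioo (0 : ℝ) 1) : Bw Λ t ≤ 1 := by
  have : 0 ≤ Λ * (1 - t) := mul_nonneg hΛ (by linarith [ht.2])
  exact Real.exp_le_one_iff.2 (by linarith)

theorem Bw_lo {Λ t : ℝ} (hΛ : 0 ≤ Λ) (ht : t ∈ Set.Ioo (0 : ℝ) 1) : Real.exp (-Λ) ≤ Bw Λ t := by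
  have : 0 ≤ Λ * t := mul_nonneg hΛ ht.1.le
  exact Real.exp_le_exp.2 (by linarith)

theorem Bw_inv {Λ t : ℝ} (hΛ : 0 ≤ Λ) (ht : t ∈ Set.Ioo (0 : ℝ) 1) : 1 ≤ Real.exp Λ * Bw Λ t := by
  have h := mul_le_mul_of_nonneg_left (Bw_lo hΛ ht) (Real.exp_pos Λ).le
  rwa [← Real.exp_add, add_neg_cancel, Real.exp_zero] at h

theorem Bw_grow (Λ : ℝ) : Grow 1 Λ (Bw Λ) := by
  refine ⟨fun t _ => (Bw_pos Λ t).le, fun s t _ _ _ => le_of_eq ?_⟩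
  simp only [Bw, ← Real.exp_add]
  congr 1; ring

theorem Bw_wt {Λ K : ℝ} (hΛ : 0 ≤ Λ) (hK : 1 ≤ K) : Wt 1 K (fun _ => Bw Λ) fun _ => w1 := by
  refine ⟨fun _ t _ => (Bw_pos Λ t).le, fun _ t ht => Bw_le hΛ ht, fun _ _ _ => hK,
    fun _ _ t _ => ?_, fun _ t _ => ?_⟩
  · simp only [w1]; nlinarith [Bw_pos Λ t]
  · nlinarith [Bw_pos Λ t]

theorem w1_nn {T : ℝ} : ∀ t ∈ Set.Ioo 0 T, 0 ≤ w1 t := fun _ _ => zero_le_one

section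
variable {T : ℝ} {d : ℤ} {ρ M : ℝ} {w : ℝ → ℝ}

theorem sh_half (ρ : ℝ) : sh (1 / 2) 1 (fun _ : Let => ρ) = fun _ => ρ / 2 := by
  funext i; simp only [sh]; ring

theorem gbD0 {V : Vec T} (hρ : 0 < ρ) (h : GBv 1 (fun _ => ρ) w M V) :
    GBm 0 (fun _ => ρ / 2) w (16 / ρ * M) (D0m V) := by
  intro i j
  have := GB.pd_a (θ := 1 / 2) (fun _ => hρ) (by norm_num) (by norm_num) j (h i)
  rw [sh_half] at this
  have e : 4 / ((1 - 1 / 2) ^ 2 * ρ) = 16 / ρ := by field_simp; norm_num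
  rw [e] at this
  exact this.cast (by norm_num)

theorem gbdt {G : Mat T} (hρ : 0 < ρ) (h : GBm d (fun _ => ρ) w M G) :
    GBm d (fun _ => ρ / 2) w (16 / ρ * M) (dtm G) := by
  intro i j
  have := GB.pd_t (θ := 1 / 2) (fun _ => hρ) (by norm_num) (by norm_num) (h i j)
  rw [sh_half] at this
  have e : 4 / ((1 - 1 / 2) ^ 2 * ρ) = 16 / ρ := by field_simp; norm_num
  rwa [e] at this

theorem gbm_one {r : Let → ℝ} (hr : ∀ i, 0 ≤ r i) : GBm 0 r w1 1 (1 : Mat T) := by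
  intro i j
  by_cases h : i = j
  · subst h; rw [Matrix.one_apply_eq]; exact GB.one hr
  · rw [Matrix.one_apply_ne h]; exact GB.zero fun _ _ => by simp [w1]

theorem gbm_le {r r' : Let → ℝ} {M' : ℝ} {G : Mat T} (h : GBm d r w1 M G) (h0 : ∀ i, 0 ≤ r' i)
    (h1 : ∀ i, r' i ≤ r i) (hM : M ≤ M') : GBm d r' w1 M' G :=
  h.mono h0 h1 fun _ _ => by simpa [w1] using hM

theorem gbv_le {r r' : Let → ℝ} {M' : ℝ} {V : Vec T} (h : GBv d r w1 M V) (h0 : ∀ i, 0 ≤ r' i)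
    (h1 : ∀ i, r' i ≤ r i) (hM : M ≤ M') : GBv d r' w1 M' V :=
  h.mono h0 h1 fun _ _ => by simpa [w1] using hM

theorem gb_le {r r' : Let → ℝ} {M' : ℝ} {f : A T} (h : GB d r w1 M f) (h0 : ∀ i, 0 ≤ r' i)
    (h1 : ∀ i, r' i ≤ r i) (hM : M ≤ M') : GB d r' w1 M' f :=
  h.mono h0 h1 fun _ _ => by simpa [w1] using hM

theorem det_half {F : Mat T} {z : Pt} (hz : z ∈ Om T)
    (h : ∀ i j, |ev ((F - 1) i j) z| ≤ 1 / 200) : 3 / 4 ≤ ev F.det z := by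
  have h1 : ∀ i l, |ev ((1 : Mat T) i l) z| ≤ 1 := by
    intro i l
    by_cases e : i = l
    · subst e; rw [Matrix.one_apply_eq, ev_one hz]; simp
    · rw [Matrix.one_apply_ne e]; simp
  have := Cen.det_pert h1 h (by norm_num)
  rw [add_sub_cancel, Matrix.det_one, ev_one hz, abs_le] at this
  linarith [this.1]

theorem solvP_rad {fr : Frame T} {j : Fin 3} {F : Mat T} {K : ℝ} {r r' : Let → ℝ}
    (h : SolvP fr j F w K r) (hr : ∀ i, r' i ≤ r i) : SolvP fr j F w K r' :=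
  fun r1 a b => h r1 a fun i => (b i).trans (hr i)

theorem solv0_rad {F : Mat T} {Ji : A T} {K θ : ℝ} {rlo r r' : Let → ℝ}
    (h : Solv0 F Ji w K θ rlo r) (hr : ∀ i, r' i ≤ r i) : Solv0 F Ji w K θ rlo r' :=
  fun r1 a b => h r1 a fun i => (b i).trans (hr i)

end

/-- a base close to the identity -/
structure Nr (ρ : ℝ) (X : Vec 1) : Prop where
  x_in : InV 0 X
  eqv : Eqv X
  hom : ∀ i, Hom 1 (X i)
  near : GBm 0 (fun _ => ρ) w1 (1 / 200) (D0m X - 1)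
  dt : GBm 0 (fun _ => ρ) w1 1 (dtm (D0m X))

theorem Nr.bd {ρ : ℝ} {X : Vec 1} (h : Nr ρ X) (hρ : 0 ≤ ρ) :
    GBm 0 (fun _ => ρ) w1 2 (D0m X) := by
  have := GBm.add (fun _ => hρ) h.near (gbm_one fun _ => hρ)
  rw [sub_add_cancel] at this
  exact gbm_le this (fun _ => hρ) (fun _ => le_rfl) (by norm_num)

theorem Nr.det34 {ρ : ℝ} {X : Vec 1} (h : Nr ρ X) :
    ∀ z ∈ Sp 1, 3 / 4 ≤ ev (D0m X).det z := fun _ hz =>
  det_half (Sp_sub 1 hz) fun i j => (h.near i j).abs_le1 hz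

theorem Nr.det {ρ : ℝ} {X : Vec 1} (h : Nr ρ X) :
    ∀ z ∈ Sp 1, 1 / 2 ≤ ev (D0m X).det z := fun z hz => by linarith [h.det34 z hz]

theorem Nr.norm {ρ : ℝ} {X : Vec 1} (h : Nr ρ X) :
    ∀ z ∈ Sp 1, ‖evm (D0m X) z - 1‖ ≤ 3 / 200 := fun z hz => by
  have := Cen.evm_le h.near hz
  rw [evm_sub, evm_one (Sp_sub 1 hz)] at this
  simp only [w1] at this
  linarith

theorem Nr.inF {ρ : ℝ} {X : Vec 1} (h : Nr ρ X) (l : Fin 4) (i j : Fin 3) : In l (D0m X i j) :=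
  ((h.x_in i).pd (la j)).mono (Fin.zero_le l)

/-- what the solvers give on such a base -/
structure Pk (Λ κ : ℝ) (Cb : ℕ) (ρ : ℝ) (X : Vec 1) (Ji : A 1) : Prop where
  J_mul : Ji * (D0m X).det = 1
  J_bd : GB 0 (fun _ => ρ) w1 2 Ji
  s0 : ∀ (L θ : ℝ) (rlo : Let → ℝ), κ ≤ L → 1 / 2 ≤ θ → θ < 1 → 1 ≤ L * (1 - θ) →
    (∀ i, 1 ≤ L * rlo i) → Solv0 (D0m X) Ji (Bw Λ) (L ^ Cb) θ rlo fun _ => ρ
  sP : ∀ (N : Fin 4 → ℝ) (kv : Fin 3 → E) (δ δa : ℝ), CfOk N kv δ δa → ∀ j,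
    SolvP (cf 1 N kv δ δa) j (D0m X) (Bw Λ) κ (fun _ => ρ) ∧
      GBv (-1) (fun _ => ρ) w1 κ ((cf 1 N kv δ δa).k j) ∧
      GB 2 (fun _ => ρ) w1 κ ((cf 1 N kv δ δa).ki j)

theorem pack (hB : BaseSt) (hS : SolvSt) (hC : CrudeSt) (hG : GeoSt) :
    ∃ (Λ κ : ℝ) (Cb : ℕ), 0 ≤ Λ ∧ 2 ≤ κ ∧ ∀ (ρ : ℝ) (X : Vec 1), 0 < ρ → ρ ≤ 1 → Nr ρ X →
      ∃ Ji : A 1, Pk Λ κ Cb (ρ / κ) X Ji := by
  obtain ⟨Cb, hB⟩ := hB
  obtain ⟨Cs, hS⟩ := hS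
  obtain ⟨Cc, hC⟩ := hC
  obtain ⟨G, hG2, hG⟩ := hG
  have hG1 : 1 ≤ G := by linarith
  have hG0 : 0 < G := by linarith
  have hp : ∀ a b : ℕ, G ^ a ≤ G ^ (a + b) := fun a b => pow_le_pow_right₀ hG1 (by omega)
  have hp' : ∀ a b : ℕ, G ^ b ≤ G ^ (a + b) := fun a b => pow_le_pow_right₀ hG1 (by omega)
  have hE : 1 ≤ G ^ (Cs + Cb) := one_le_pow₀ hG1
  refine ⟨G ^ (Cc + Cb), 27648 * G * G ^ (Cs + Cb), Cb, by positivity, by nlinarith,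
    fun ρ X hρ hρ1 h => ?_⟩
  obtain ⟨Ji, hJ, hJb⟩ := Cen.exists_Ji (fun _ => hρ) (h.bd hρ.le) h.det
  set ρ' := ρ / (27648 * G) with hρ'
  have hρ'0 : 0 < ρ' := by positivity
  have hρ'1 : ρ' ≤ ρ := div_le_self hρ.le (by linarith)
  have hρ'2 : ρ' ≤ ρ / (3456 * 2 ^ 3) :=
    div_le_div_of_nonneg_left hρ.le (by norm_num) (by linarith)
  have hρ'3 : G * ρ' ≤ 1 := by
    rw [hρ', ← mul_div_assoc, div_le_one (by positivity)]; nlinarith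
  have hF : GBm 0 (fun _ => ρ') w1 G (D0m X) :=
    gbm_le (h.bd hρ.le) (fun _ => hρ'0.le) (fun _ => hρ'1) hG2
  have hFt : GBm 0 (fun _ => ρ') w1 G (dtm (D0m X)) :=
    gbm_le h.dt (fun _ => hρ'0.le) (fun _ => hρ'1) hG1
  have hJ2 : GB 0 (fun _ => ρ') w1 2 Ji := gb_le hJb (fun _ => hρ'0.le) (fun _ => hρ'2) le_rfl
  have hJG : GB 0 (fun _ => ρ') w1 G Ji := gb_le hJ2 (fun _ => hρ'0.le) (fun _ => le_rfl) hG2
  have hΛ : 0 ≤ G ^ (Cc + Cb) := by positivity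
  have e : ρ / (27648 * G * G ^ (Cs + Cb)) = ρ' / G ^ (Cs + Cb) := by rw [hρ', div_div]
  have hκ : G * G ^ (Cs + Cb) ≤ 27648 * G * G ^ (Cs + Cb) := by nlinarith [mul_pos hG0 (by linarith : 0 < G ^ (Cs + Cb))]
  have hκ1 : G ≤ 27648 * G * G ^ (Cs + Cb) := by nlinarith
  have hκ2 : G ^ Cs ≤ 27648 * G * G ^ (Cs + Cb) := by nlinarith [hp Cs Cb]
  have hle : ρ' / G ^ (Cs + Cb) ≤ ρ' := div_le_self hρ'0.le hE
  have hle0 : 0 ≤ ρ' / G ^ (Cs + Cb) := by positivity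
  rw [e]
  refine ⟨Ji, hJ, gb_le hJ2 (fun _ => hle0) (fun _ => hle) le_rfl, fun L θ rlo a1 a2 a3 a4 a5 => ?_,
    fun N kv δ δa hc j => ?_⟩
  · refine solv0_rad (hB 1 X Ji _ G L θ _ (fun _ => ρ') rlo hG2 (hκ1.trans a1) le_rfl
      (fun _ => hρ'0) (fun _ => hρ'1.trans hρ1) h.x_in h.eqv h.hom hF hFt hJ hJG
      (fun z hz => by linarith [h.det z hz])
      ⟨1 / 2, by norm_num, fun z hz _ => by linarith [h.norm z hz]⟩ (Bw_grow _) (hp' Cc Cb)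
      (fun t ht => (Bw_le hΛ ht).trans (by linarith)) a2 a3 a4 a5) fun i => ?_
    exact div_le_div_of_nonneg_left hρ'0.le (by positivity) (hp' Cs Cb)
  · obtain ⟨g1, -, -, g4⟩ := hG 1 N kv δ δa hc
    obtain ⟨k1, k2, k3⟩ := g4 (fun _ => ρ') (fun _ => hρ'0.le) (fun _ => hρ'3) j
    have hP := hC 1 _ j (D0m X) Ji _ G _ (fun _ => ρ') g1 hG2 hF hFt hJ hJG k1 k2 (Bw_grow _)
      (hp Cc Cb)
    have hS' := hS 1 _ j (D0m X) Ji (Bw (G ^ (Cc + Cb))) G (Real.exp (-G ^ (Cc + Cb)))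
      (fun _ => ρ') g1 hG2 le_rfl (fun _ => hρ'0) (fun _ => hρ'1.trans hρ1)
      (fun i l => h.inF _ i l) h.eqv.D0m hF hFt hJ hJG k1 k3 k2 (Real.exp_pos _)
      (fun t ht => ⟨Bw_lo hΛ ht, (Bw_le hΛ ht).trans hG1⟩) fun z hz hz' => (hP z hz hz').mono hG1
    refine ⟨solvP_rad (It.solvP_le hS' (fun t _ => (Bw_pos _ t).le) hκ2) fun i => ?_,
      gbv_le k1 (fun _ => hle0) (fun _ => hle) hκ1, gb_le k2 (fun _ => hle0) (fun _ => hle) hκ1⟩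
    exact div_le_div_of_nonneg_left hρ'0.le (by positivity) (hp Cs Cb)

/-- what the iteration needs from the frame -/
def FrS (Λ κ ρ : ℝ) (X : Vec 1) (fr : Frame 1) : Prop :=
  ∀ j, SolvP fr j (D0m X) (Bw Λ) κ (fun _ => ρ) ∧
    GBv (-1) (fun _ => ρ) w1 κ (fr.k j) ∧ GB 2 (fun _ => ρ) w1 κ (fr.ki j)

theorem FrS.rad {Λ κ ρ ρ' : ℝ} {X : Vec 1} {fr : Frame 1} (h : FrS Λ κ ρ X fr) (h0 : 0 ≤ ρ')
    (h1 : ρ' ≤ ρ) : FrS Λ κ ρ' X fr := fun j =>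
  ⟨solvP_rad (h j).1 fun _ => h1, gbv_le (h j).2.1 (fun _ => h0) (fun _ => h1) le_rfl,
    gb_le (h j).2.2 (fun _ => h0) (fun _ => h1) le_rfl⟩

theorem FrS.reg {Λ κ ρ K θ ε : ℝ} {X : Vec 1} {fr : Frame 1} (hS : FrS Λ κ ρ X fr)
    (hN : fr.N 0 = 1) (hρ : 0 < ρ) (hρ1 : ρ ≤ 1) (hκ : 2 ≤ κ) (hK : κ ≤ K) (hKρ : 1 ≤ K * ρ)
    (h1 : 1 / 2 ≤ θ) (h2 : θ < 1) (h3 : 1 ≤ K * (1 - θ)) (hε : 0 < ε) (hε1 : ε ≤ 1)
    (hεN : ∀ j : Fin 3, fr.N j.castSucc ≤ ε * fr.N j.succ) : Reg fr K θ ε fun _ => ρ :=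
  ⟨by linarith, h1, h2, h3, fun _ => hρ1, hKρ, fun _ => hKρ,
    fun _ => by rw [hN, mul_one]; exact hKρ,
    fun j => gbv_le (hS j).2.1 (fun _ => hρ.le) (fun _ => le_rfl) hK,
    fun j => gb_le (hS j).2.2 (fun _ => hρ.le) (fun _ => le_rfl) hK, hε, hε1, hεN⟩

/-- one run of the iteration on a base close to the identity, with one wave in the last slot -/
theorem iter1 (hI : FinSt) (Cb : ℕ) : ∃ Ei : ℕ, 1 ≤ Ei ∧ ∀ (Λ κ ρ0 ρ1 ρ L ε c : ℝ) (M : ℕ)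
    (fr : Frame 1) (X W : Vec 1) (Ji : A 1), fr.Ok → fr.N 0 = 1 → 0 ≤ Λ → 0 < ρ → ρ ≤ ρ0 →
    ρ ≤ ρ1 → ρ ≤ 1 → 2 ≤ κ → κ ≤ L → 80 * ((M : ℝ) + 1) ≤ L → 2 ≤ L * ρ → Nr ρ0 X →
    Pk Λ κ Cb ρ1 X Ji → FrS Λ κ ρ X fr →
    SB fr (fun _ => ρ) w1 3 L W → Eqv W → 0 < ε → (∀ j : Fin 3, fr.N j.castSucc ≤ ε * fr.N j.succ) →
    ε * L ^ Ei ≤ 1 → 0 ≤ c → L ^ Ei * c ≤ ε → St fr (fun _ => ρ) (fun _ => Bw Λ) (fun _ => c) (X + W) →
    ∃ Cr : Fin 4 → Vec 1, (∀ l, Eqv (Cr l)) ∧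
      FB fr (fun _ => ρ / 8) (fun _ => w1) (fun _ => L ^ Ei * c) Cr ∧
      (∀ l, CB fr (fun _ => ρ / 8) w1 (L ^ Ei * c) (Cr l)) ∧
      (∀ l, ∀ z ∈ Sp 1, ‖evm (dtm (dtm (Dm fr (Cr l)))) z‖ ≤ L ^ Ei * c) ∧
      St fr (fun _ => ρ / 8) (fun _ => w1) (fun _ => L ^ Ei * c / 2 ^ M) (X + W + ∑ l, Cr l) := by
  obtain ⟨C, hI⟩ := hI
  refine ⟨(Cb + 1) * (C + 1), Nat.one_le_iff_ne_zero.2 (by positivity), ?_⟩
  intro Λ κ ρ0 ρ1 ρ L ε c M fr X W Ji hfr hN hΛ hρ h0 h1 hρ1 hκ hL hM hLρ hX hP hS hW hWe hε hεN a1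
    hc a2 hst
  have hL1 : 1 ≤ L := by linarith
  have hM0 : (0 : ℝ) < 80 * ((M : ℝ) + 1) := by positivity
  set θ : ℝ := 1 - 1 / (80 * ((M : ℝ) + 1)) with hθ
  have hx0 : 0 < 1 / (80 * ((M : ℝ) + 1)) := by positivity
  have hx1 : 1 / (80 * ((M : ℝ) + 1)) ≤ 1 / 2 :=
    div_le_div_of_nonneg_left zero_le_one (by norm_num) (by nlinarith [Nat.cast_nonneg (α := ℝ) M])
  have hθL : 1 ≤ L * (1 - θ) := by
    rw [hθ, sub_sub_cancel, mul_one_div, le_div_iff₀ hM0]; linarith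
  have hθM : 1 / 2 ≤ θ ^ (40 * M) := by
    have hb := one_add_mul_le_pow (a := -(1 / (80 * ((M : ℝ) + 1)))) (by linarith) (40 * M)
    have : ((40 * M : ℕ) : ℝ) * (1 / (80 * ((M : ℝ) + 1))) ≤ 1 / 2 := by
      rw [mul_one_div, div_le_iff₀ hM0]; push_cast; linarith
    rw [← sub_eq_add_neg] at hb
    linarith
  set K := L ^ (Cb + 1) with hK
  have hLK : L ≤ K := le_self_pow₀ hL1 (by omega)
  have hbK : L ^ Cb ≤ K := pow_le_pow_right₀ hL1 (by omega)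
  have hK1 : 1 ≤ K := hL1.trans hLK
  have hKC : K ^ C ≤ L ^ ((Cb + 1) * (C + 1)) := by
    rw [hK, ← pow_mul]; exact pow_le_pow_right₀ hL1 (Nat.mul_le_mul_left _ (by omega))
  have hKE : K ≤ L ^ ((Cb + 1) * (C + 1)) :=
    pow_le_pow_right₀ hL1 (Nat.le_mul_of_pos_right _ (by omega))
  have hE1 : 1 ≤ L ^ ((Cb + 1) * (C + 1)) := one_le_pow₀ hL1
  have hKρ : 1 ≤ K * ρ := by nlinarith
  have hreg : Reg fr K θ ε fun _ => ρ :=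
    hS.reg hN hρ hρ1 hκ (hL.trans hLK) hKρ (by linarith) (by linarith) (hθL.trans (by nlinarith)) hε
      (by nlinarith) hεN
  have hXb : ∀ l, Xb X ![0, 0, W] l = X := by
    intro l
    have : ¬ (3 : Fin 4) < l := not_lt.2 (Fin.le_last l)
    simp [Xb, Fin.sum_univ_three, this]
  have hD : Dm fr X = D0m X := hX.x_in.Dm_zero fr
  have hbg : Bg fr K θ (dvr (fun _ => ρ) 2) (fun _ => ρ) (fun _ => Bw Λ) (fun _ => w1) X
      ![0, 0, W] fun _ => Ji := by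
    refine ⟨hX.x_in, hX.eqv, fun j => ?_, fun j => ?_, fun l => ?_, fun l => ?_, fun l => ?_,
      fun j => ?_, ?_⟩
    · fin_cases j
      · exact SB.zero hfr fun _ _ => by simp only [w1]; linarith
      · exact SB.zero hfr fun _ _ => by simp only [w1]; linarith
      · exact It.sb_le hfr hW w1_nn hLK
    · fin_cases j
      · exact Eqv.zero
      · exact Eqv.zero
      · exact hWe
    · rw [hXb, hD]
      exact gbm_le (hX.bd (hρ.le.trans h0)) (fun _ => hρ.le) (fun _ => h0) (by linarith)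
    · rw [hXb, hD]; exact hP.J_mul
    · exact gb_le hP.J_bd (fun _ => hρ.le) (fun _ => h1) (by linarith)
    · rw [hXb, hD]
      exact It.solvP_le (hS j).1 (fun t _ => (Bw_pos _ t).le) (hL.trans hLK)
    · rw [hD]
      refine It.solv0_le (solv0_rad (hP.s0 L θ _ hL (by linarith) (by linarith) hθL fun i => ?_)
        fun _ => h1) (fun t _ => (Bw_pos _ t).le) hbK
      simp only [dvr]; linarith
  have hsum : ∑ i, (![0, 0, W] : Fin 3 → Vec 1) i = W := by simp [Fin.sum_univ_three]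
  obtain ⟨Cr, b1, -, b2, b3, b4, b5⟩ := hI 1 fr K θ ε (fun _ => ρ) _ _ X _ _ c M hfr hreg
    (Bw_wt hΛ hK1) hbg (fun _ _ => rfl) hθM (le_trans (by gcongr) a1) hc (le_trans (by gcongr) a2)
    (by rw [hsum]; exact hst)
  rw [hsum] at b5
  have hm : K ^ C * c ≤ L ^ ((Cb + 1) * (C + 1)) * c := by gcongr
  have h8 : ∀ _ : Let, 0 ≤ ρ / 8 := fun _ => by positivity
  exact ⟨Cr, b1, It.fb_mono hfr b2 (fun _ => w1_nn) (fun _ => hm) h8 (fun _ => le_rfl),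
    fun l => ⟨gbm_le (b3 l).1 h8 (fun _ => le_rfl) hm, gbm_le (b3 l).2 h8 (fun _ => le_rfl) hm⟩,
    fun l z hz => (b4 l z hz).trans hm,
    It.st_mono hfr b5 (fun _ => w1_nn) (fun _ => by gcongr) h8 fun _ => le_rfl⟩

end Pool.Agent.Lib.MP_fbbbeb_an.Cas.Sta
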