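import Mathlib
import Pool.Agent.Lib.MP_fbbbeb_an.Cas.StartA
import Pool.Agent.Lib.MP_fbbbeb_an.Cas.StartB

/-! First stage of the start: an almost exact base without phases. -/

set_option autoImplicit false

noncomputable section

namespace Pool.Agent.Lib.MP_fbbbeb_an.Cas.Sta

open Pool.Agent.Lib.MP_fbbbeb_an.Pub Filter
open scoped ContDiff Topology RealInnerProductSpace Matrix Nat

/-- the frame with empty envelopes -/
def fe (fr : Frame 1) : Frame 1 := { fr with Env := fun l => if l = 0 then Set.univ else ∅ }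

theorem fe_ok {fr : Frame 1} (h : fr.Ok) : (fe fr).Ok := by
  refine ⟨h.N_one, h.N_mono, h.k_t, h.k_p, h.k_curl, h.k_eqv, h.vp_t, h.vp_p, h.vp_inv,
    h.vp_nonneg, fun z hz => ?_, h.ki_mul, by simp [fe], fun a b hab => ?_, fun l z _ hz => ?_,
    fun l z hz t => ?_, fun l j _ z hz s => ?_, fun l g _ z hz => ?_⟩
  · simp [fe] at hz
  · by_cases hb : b = 0
    · subst hb
      rw [Fin.le_zero_iff.1 hab]
    · simp [fe, hb]
  all_goals by_cases hl : l = 0 <;> simp_all [fe]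

theorem ty_fe {fr : Frame 1} {l : Fin 4} {V : Vec 1} (hl : l ≠ 0) (h : Tyv (fe fr) l V) : V = 0 := by
  funext i
  exact A_ext fun z _ => by rw [(h i).2 z (by simp [fe, hl])]; simp

theorem sum_fe {fr : Frame 1} {r : Let → ℝ} {w : Fin 4 → ℝ → ℝ} {c : Fin 4 → ℝ}
    {R : Fin 4 → Vec 1} (h : FB (fe fr) r w c R) : ∑ l, R l = R 0 :=
  Finset.sum_eq_single 0 (fun l _ hl => ty_fe hl (h l).1) (by simp)

theorem solvP_fe (fr : Frame 1) (j : Fin 3) (F : Mat 1) {w : ℝ → ℝ} {K : ℝ} (r : Let → ℝ)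
    (hw : ∀ t, 0 ≤ w t) (hK : 0 ≤ K) : SolvP (fe fr) j F w K r := by
  intro r' _ _ c ε' hc hε f hf _ _
  obtain rfl := ty_fe (Fin.succ_ne_zero j) hf
  have h1 : ∀ t ∈ Set.Ioo (0 : ℝ) 1, 0 ≤ K * c * w t := fun t _ => by have := hw t; positivity
  have h2 : ∀ t ∈ Set.Ioo (0 : ℝ) 1, 0 ≤ ε' * c * w t := fun t _ => by have := hw t; positivity
  refine ⟨0, 0, 0, by simp [dtv_zero], by simp, fun _ => Ty.zero, Ty.zero, fun _ => Ty.zero,
    Eqv.zero, fun y => by simp [evv_zero], fun _ => GB.zero h1, ?_, GB.zero h1,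
    fun _ => GB.zero h2, fun _ => ⟨fun _ => In.zero, In.zero, fun _ => In.zero⟩⟩
  rw [dtv_zero]; exact fun _ => GB.zero h1

theorem in_D0m {X : Vec 1} (h : InV 0 X) (i j : Fin 3) : In 0 (D0m X i j) := (h i).pd (la j)

theorem closed_tr {fr fr' : Frame 1} {V : Vec 1} (hV : InV 0 V) (h : Closed fr V) :
    Closed fr' V := fun i l => by
  have := h i l
  rwa [(hV l).D_zero, (hV i).D_zero, ← (hV l).D_zero fr', ← (hV i).D_zero fr'] at this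

theorem sb_tr {fr fr' : Frame 1} {r : Let → ℝ} {w : ℝ → ℝ} {c : ℝ} {V : Vec 1} (h' : fr'.Ok)
    (hN : fr.N 0 = fr'.N 0) (h : SB fr r w 0 c V) : SB fr' r w 0 c V :=
  ⟨fun i => Ty.of_in_zero h' (h.1 i).1, hN ▸ h.2⟩

theorem single_le {c : ℝ} (hc : 0 ≤ c) (l : Fin 4) : (Pi.single 0 c : Fin 4 → ℝ) l ≤ c := by
  by_cases h : l = 0
  · subst h; simp
  · simp [h, hc]

/-- a residual without phases serves in every frame -/
theorem st_tr {fr fr' : Frame 1} {r : Let → ℝ} {c : ℝ} {X : Vec 1} (h' : fr'.Ok)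
    (hN : fr.N 0 = fr'.N 0) (hr : ∀ i, 0 ≤ r i) (hc : 0 ≤ c) (hX : InV 0 X)
    (h : St (fe fr) r (fun _ => w1) (fun _ => c) X) : St fr' r (fun _ => w1) (fun _ => c) X := by
  obtain ⟨⟨R, a1, a2⟩, ⟨S, b1, b2⟩⟩ := h
  rw [sum_fe a1] at a2
  rw [sum_fe b1] at b2
  have hR : InV 0 (R 0) := fun i => ((a1 0).1 i).1
  have hS : InV 0 (S 0) := fun i => ((b1 0).1 i).1
  have e : web (fe fr) X X = web fr' X X := by simp only [web, hX.Dm_zero]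
  have hw : InV 0 (web fr' X X) := by
    simp only [web, hX.Dm_zero]
    exact In.mulVec (fun i m => in_D0m hX m i) fun i => (hX i).pd lt
  rw [e] at a2
  rw [hX.Dm_zero, hS.dv_zero, ← hS.dv_zero fr', ← hX.Dm_zero fr'] at b2
  refine ⟨RW.mono h' (fun _ => w1_nn) (RW.congr (RW.single (w := fun _ => w1) (j := 0) h'
    (sb_tr (fr := fe fr) h' hN (a1 0))) (closed_tr (fun i => (hw i).sub (hR i)) a2)) hr (fun _ => le_rfl) (single_le hc), ?_⟩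
  rw [b2]
  exact RV.mono h' (fun _ => w1_nn) (RV.single (w := fun _ => w1) (j := 0) h'
    (sb_tr (fr := fe fr) h' hN (b1 0))) hr (fun _ => le_rfl) (single_le hc)

/-- change of the weight of a residual -/
theorem st_w {fr : Frame 1} {r : Let → ℝ} {w w' : ℝ → ℝ} {c c' : ℝ} {X : Vec 1} (hfr : fr.Ok)
    (hc : ∀ t ∈ Set.Ioo (0 : ℝ) 1, c * w t ≤ c' * w' t)
    (h : St fr r (fun _ => w) (fun _ => c) X) : St fr r (fun _ => w') (fun _ => c') X := by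
  obtain ⟨⟨R, a1, a2⟩, ⟨S, b1, b2⟩⟩ := h
  exact ⟨⟨R, fun l => It.sb_size hfr (a1 l) hc, a2⟩, ⟨S, fun l => It.sb_size hfr (b1 l) hc, b2⟩⟩

theorem st_Bw {fr : Frame 1} {r : Let → ℝ} {c Λ : ℝ} {X : Vec 1} (hfr : fr.Ok) (hΛ : 0 ≤ Λ)
    (hc : 0 ≤ c) (h : St fr r (fun _ => w1) (fun _ => c) X) :
    St fr r (fun _ => Bw Λ) (fun _ => Real.exp Λ * c) X :=
  st_w hfr (fun t ht => by have := Bw_inv hΛ ht; simp only [w1]; nlinarith) h

theorem det_exp {R : Type*} [CommRing R] (P : Matrix (Fin 3) (Fin 3) R) :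
    6 * ((1 + P).det - 1) = 6 * (∑ i, P i i) + (3 * dd 1 P P + dd P P P) := by
  simp [dd, cr, tp, Matrix.det_fin_three, Fin.sum_univ_three, cross_apply, dotProduct,
    Matrix.one_apply]
  ring

theorem in_cr {P Q : Mat 1} {Y : Vec 1} (hP : ∀ i m, In 0 (P i m)) (hQ : ∀ i m, In 0 (Q i m))
    (hY : InV 0 Y) : InV 0 (cr P Q Y) := by
  intro l j hj
  have h1 := fun a b => hP a b j hj
  have h2 := fun a b => hQ a b j hj
  have h3 := fun a => hY a j hj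
  simp [cr, tp, Fin.sum_univ_three, cross_apply, dotProduct, h1, h2, h3]

section
variable {u : Vec 1} {δ ρ K : ℝ}

/-- displacement that is linear in time -/
def Yl (δ : ℝ) (u : Vec 1) : Vec 1 := (δ • tA 1) • u

theorem D0m_xA : D0m (xA 1) = 1 := by
  ext i l
  simp only [D0m, Matrix.of_apply, pdx_a, Matrix.one_apply, eq_comm]

theorem D0m_add (U V : Vec 1) : D0m (U + V) = D0m U + D0m V := by
  ext i l; simp [D0m]

theorem D0m_Yl : D0m (Yl δ u) = (δ • tA 1) • D0m u := by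
  ext i l; simp [D0m, Yl, pd_tA, la, lt]

theorem dtv_Yl (h : dtv u = 0) : dtv (xA 1 + Yl δ u) = δ • u := by
  funext i
  have : pd lt (u i) = 0 := congrFun h i
  simp [dtv, Yl, pd_tA, pdx_t, this]

theorem dtm_Yl (h : dtv u = 0) : dtm (D0m (xA 1 + Yl δ u)) = δ • D0m u := by
  ext i l
  have := congrFun (dtv_Yl (δ := δ) h) i
  simp only [dtv] at this
  simp only [dtm, D0m, Matrix.of_apply, Matrix.smul_apply]
  rw [pd_comm, this]; simp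

theorem in_s : In 0 (δ • tA 1) := fun j _ => by simp [pd_tA, lp, lt]

theorem in_Yl (h : InV 0 u) : InV 0 (Yl δ u) := fun i => in_s.mul (h i)

theorem gb_s (hρ : 0 ≤ ρ) (hρ1 : ρ ≤ 1) (hδ : 0 ≤ δ) : GB 0 (fun _ => ρ) w1 δ (δ • tA 1) := by
  have := (GB_tA (T := 1) (r := fun _ => ρ) le_rfl (fun _ => hρ) hρ1).smul δ
  rwa [abs_of_nonneg hδ, mul_one] at this

theorem gb_Yl (hρ : 0 ≤ ρ) (hρ1 : ρ ≤ 1) (hδ : 0 ≤ δ) (h : GBv 1 (fun _ => ρ) w1 K u) :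
    GBv 1 (fun _ => ρ) w1 (3 * (δ * K)) (Yl δ u) := fun i =>
  (GB.mul1 (fun _ => hρ) (gb_s hρ hρ1 hδ) (h i)).cast (by norm_num)

theorem gb_DYl (hρ : 0 ≤ ρ) (hρ1 : ρ ≤ 1) (hδ : 0 ≤ δ) (h : GBm 0 (fun _ => ρ) w1 K (D0m u)) :
    GBm 0 (fun _ => ρ) w1 (3 * (δ * K)) (D0m (Yl δ u)) := fun i j => by
  rw [D0m_Yl]
  exact (GB.mul1 (fun _ => hρ) (gb_s hρ hρ1 hδ) (h i j)).cast (by norm_num)

theorem web_Yl {fr : Frame 1} (hfr : fr.Ok) (h0 : InV 0 u) (ht : dtv u = 0) :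
    Closed fr (web fr (xA 1 + Yl δ u) (xA 1 + Yl δ u)) := by
  have hX : InV 0 (xA 1 + Yl δ u) := fun i => (in_xA 0 i).add (in_Yl h0 i)
  have hq : In 0 ((δ • δ • tA 1) * ((1 / 2 : ℝ) • (u ⬝ᵥ u))) :=
    (in_s.smul δ).mul ((In.sum _ fun i _ => (h0 i).mul (h0 i)).smul _)
  have hG : ∀ i, pd (la i) ((1 / 2 : ℝ) • (u ⬝ᵥ u)) = ∑ m, u m * pd (la i) (u m) := by
    intro i
    simp only [dotProduct, Derivation.map_smul, map_sum, Derivation.leibniz, smul_eq_mul]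
    rw [Finset.sum_add_distrib, ← two_smul ℝ, smul_smul]; norm_num
  have e : web fr (xA 1 + Yl δ u) (xA 1 + Yl δ u) =
      δ • u + gr fr ((δ • δ • tA 1) * ((1 / 2 : ℝ) • (u ⬝ᵥ u))) := by
    rw [web, hX.Dm_zero, dtv_Yl ht, D0m_add, D0m_xA, D0m_Yl, hq.gr_zero, Matrix.transpose_add,
      Matrix.transpose_one, Matrix.add_mulVec, Matrix.one_mulVec]
    congr 1
    funext i
    have : pd (la i) (δ • δ • tA 1) = 0 := by simp [pd_tA, la, lt]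
    simp only [gr0, Derivation.leibniz, hG, this, smul_zero, add_zero]
    simp only [Matrix.mulVec, dotProduct, Matrix.transpose_apply, Matrix.smul_apply, D0m,
      Matrix.of_apply, Pi.smul_apply, smul_eq_mul, Finset.mul_sum]
    refine Finset.sum_congr rfl fun m _ => ?_
    simp only [Algebra.smul_def]; ring
  rw [e]
  refine (closed_of_dtv hfr ?_).add (closed_gr hfr _)
  funext i
  have : pd lt (u i) = 0 := congrFun ht i
  simp [dtv, this]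

theorem st_Yl (hA : AlgSt) {fr : Frame 1} (hfr : fr.Ok) (hN : fr.N 0 = 1) (hρ : 0 ≤ ρ) (hρ1 : ρ ≤ 1)
    (hδ : 0 ≤ δ) (hK : 0 ≤ K) (ha : 3 * (δ * K) ≤ 1) (h0 : InV 0 u) (ht : dtv u = 0)
    (hd : dv0 u = 0) (h1 : GBv 1 (fun _ => ρ) w1 K u) (h2 : GBm 0 (fun _ => ρ) w1 K (D0m u)) :
    St fr (fun _ => ρ) (fun _ => w1) (fun _ => 72 * (3 * (δ * K)) ^ 2) (xA 1 + Yl δ u) := by
  have hr : ∀ _ : Let, 0 ≤ ρ := fun _ => hρ
  have hX : InV 0 (xA 1 + Yl δ u) := fun i => (in_xA 0 i).add (in_Yl h0 i)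
  have hY := in_Yl (δ := δ) h0
  have g1 := gb_Yl hρ hρ1 hδ h1
  have g2 := gb_DYl hρ hρ1 hδ h2
  set a := 3 * (δ * K) with hadef
  have ha0 : 0 ≤ a := by positivity
  refine ⟨RW.mono hfr (fun _ => w1_nn) (RW.of_closed (r := fun _ => ρ) hfr (web_Yl hfr h0 ht)) hr
    (fun _ => le_rfl) fun _ => by simp only [Pi.zero_apply]; positivity, ?_⟩
  have hone : ∀ i m, In 0 ((1 : Mat 1) i m) := fun i m => D0m_xA ▸ in_D0m (in_xA 0) i m
  have i1 := in_cr hone (in_D0m hY) hY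
  have i2 := in_cr (in_D0m hY) (in_D0m hY) hY
  have c1 := GBm.cr hr (gbm_one hr) g2 g1
  have c2 := GBm.cr hr g2 g2 g1
  have c3 := (GBv.add hr (c1.smul 3) c2).smul (1 / 6)
  have hsb : SB fr (fun _ => ρ) w1 0 (72 * a ^ 2) ((1 / 6 : ℝ) • ((3 : ℝ) • cr 1 (D0m (Yl δ u)) (Yl δ u) +
      cr (D0m (Yl δ u)) (D0m (Yl δ u)) (Yl δ u))) := by
    refine ⟨fun i => Ty.of_in_zero hfr ((((i1 i).smul 3).add (i2 i)).smul _), fun i => ?_⟩
    refine ((c3 i).cast (by norm_num)).monoW fun t _ => ?_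
    rw [hN, abs_of_pos (by norm_num : (0 : ℝ) < 1 / 6), abs_of_pos (by norm_num : (0 : ℝ) < 3)]
    simp only [w1]
    nlinarith [mul_nonneg (mul_nonneg ha0 ha0) (sub_nonneg.2 ha)]
  have e : (Dm fr (xA 1 + Yl δ u)).det - 1 = dv fr ((1 / 6 : ℝ) • ((3 : ℝ) •
      cr 1 (D0m (Yl δ u)) (Yl δ u) + cr (D0m (Yl δ u)) (D0m (Yl δ u)) (Yl δ u))) := by
    have e1 := (hA 1 fr hfr).2.1 (xA 1) (Yl δ u) (Yl δ u)
    have e2 := (hA 1 fr hfr).2.1 (Yl δ u) (Yl δ u) (Yl δ u)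
    rw [hY.Dm_zero] at e1 e2
    rw [(in_xA 0).Dm_zero, D0m_xA] at e1
    have e3 : ∑ i, D0m (Yl δ u) i i = 0 := by
      rw [D0m_Yl]
      simp only [Matrix.smul_apply, smul_eq_mul, ← Finset.mul_sum]
      exact mul_eq_zero_of_right _ hd
    have e4 := det_exp (D0m (Yl δ u))
    rw [e3, mul_zero, zero_add] at e4
    rw [dv_smul, dv_add, dv_smul, ← e1, ← e2, hX.Dm_zero, D0m_add, D0m_xA,
      Algebra.smul_def (3 : ℝ), map_ofNat, ← e4,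
      show ∀ x : A 1, (6 : A 1) * x = (6 : ℝ) • x from fun x => by rw [Algebra.smul_def, map_ofNat],
      smul_smul]
    norm_num
  rw [e]
  exact RV.mono hfr (fun _ => w1_nn) (RV.single (w := fun _ => w1) (j := 0) hfr hsb) hr
    (fun _ => le_rfl) (single_le (by positivity))

end

theorem num1 (a : ℝ) (ha : 0 ≤ a) (n E : ℕ) : ∀ᶠ l : ℝ in atTop, ∃ (M : ℕ) (L : ℝ),
    l ^ n ≤ 2 ^ M ∧ 80 * ((M : ℝ) + 1) ≤ L ∧ a ≤ L ∧ a * L ^ E ≤ l := by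
  set b : ℝ := 160 * n + 160 + a with hb
  have hn : (0 : ℝ) ≤ n := Nat.cast_nonneg n
  have hb0 : 0 ≤ b := by positivity
  have h1 := (Real.isLittleO_pow_log_id_atTop (n := E)).bound
    (show 0 < 1 / (a * b ^ E + 1) by positivity)
  filter_upwards [h1, Real.tendsto_log_atTop.eventually_ge_atTop 1, eventually_gt_atTop 0] with
    l h2 h3 h4
  have h5 : 0 ≤ 2 * n * Real.log l := by positivity
  refine ⟨⌈2 * n * Real.log l⌉₊, b * Real.log l, ?_, ?_, by nlinarith, ?_⟩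
  · have e1 : l ^ n = Real.exp (n * Real.log l) := by rw [Real.exp_nat_mul, Real.exp_log h4]
    have e2 : (2 : ℝ) ^ ⌈2 * n * Real.log l⌉₊ = Real.exp (⌈2 * n * Real.log l⌉₊ * Real.log 2) := by
      rw [Real.exp_nat_mul, Real.exp_log two_pos]
    rw [e1, e2]
    have := Nat.le_ceil (2 * n * Real.log l)
    exact Real.exp_le_exp.2 (by nlinarith [Real.log_two_gt_d9])
  · have := Nat.ceil_lt_add_one h5
    nlinarith
  · rw [Real.norm_of_nonneg (by positivity), id, Real.norm_of_nonneg h4.le, one_div,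
      ← div_eq_inv_mul, le_div_iff₀ (by positivity)] at h2
    rw [mul_pow]
    nlinarith [pow_nonneg (by linarith : 0 ≤ Real.log l) E]

theorem cfok_pow {l : ℝ} (hl : 1 ≤ l) {k : E} (h1 : ‖k‖ = 1) (h2 : ⟪k, a0⟫ = 0) :
    CfOk (fun j => l ^ (j : ℕ)) (fun _ => k) (1 / 20) (1 / 20) :=
  ⟨by simp, fun _ _ h => pow_le_pow_right₀ hl h, fun _ => ⟨h1, h2⟩, by norm_num, le_rfl,
    by norm_num, le_rfl⟩

theorem num2 {A0 K κ ρ : ℝ} (hA0' : 0 < A0) (hK : 1 ≤ K) (hκ : 2 ≤ κ) (hρ : 0 < ρ) (hρ' : ρ ≤ 1)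
    (n Ei : ℕ) : ∀ᶠ l : ℝ in atTop, ∃ (M : ℕ) (L δ e : ℝ), δ = (l ^ 12)⁻¹ ∧
      e = L ^ Ei * (A0 * δ ^ 2) ∧ 1 ≤ l ∧ 80 * ((M : ℝ) + 1) ≤ L ∧ κ ≤ L ∧ 8 ≤ L * ρ ∧
      δ * K ≤ 1 / 1200 ∧ l⁻¹ * L ^ Ei ≤ 1 ∧ 0 ≤ e ∧ e ≤ l⁻¹ ∧ e ≤ 1 / 800 ∧
      12 * e ≤ (l ^ 22)⁻¹ * (ρ / 8) ^ 2 ∧ L ^ 17 * (e / 2 ^ M) ≤ (l ^ n)⁻¹ ∧
      e / 2 ^ M ≤ (l ^ n)⁻¹ := by
  set z := 800 / ρ ^ 2 with hz
  have hzρ : z * ρ ^ 2 = 800 := by rw [hz]; field_simp
  have hz0 : 0 < z := by positivity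
  have hz1 : 800 ≤ z := by
    nlinarith [mul_nonneg hz0.le (sub_nonneg.2 (pow_le_one₀ (n := 2) hρ.le hρ'))]
  have h8 : 0 < 8 / ρ := by positivity
  filter_upwards [num1 (A0 * z + 1200 * K + κ + 8 / ρ) (by positivity) n (Ei + 17)] with l hl
  obtain ⟨M, L, n1, n2, n3, n4⟩ := hl
  have hAz : 0 < A0 * z := by positivity
  have hL : κ ≤ L := by linarith
  have hL1 : 1 ≤ L := by linarith
  have hLρ : 8 ≤ L * ρ := (div_le_iff₀ hρ).1 (by linarith)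
  have hLE : 1 ≤ L ^ Ei := one_le_pow₀ hL1
  have hL17 : 1 ≤ L ^ 17 := one_le_pow₀ hL1
  rw [pow_add] at n4
  have hLL : L ^ Ei ≤ L ^ Ei * L ^ 17 := le_mul_of_one_le_right (by linarith) hL17
  have n5 : A0 * z * (L ^ Ei * L ^ 17) ≤ l := le_trans (by gcongr; linarith) n4
  have n6 : 1200 * K ≤ l :=
    le_trans (le_trans (by linarith) (le_mul_of_one_le_right (by linarith) (hLE.trans hLL))) n4
  have n7 : L ^ Ei ≤ l :=
    le_trans (hLL.trans (le_mul_of_one_le_left (by linarith) (by linarith))) n4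
  have hl1 : 1 ≤ l := by linarith
  have hl0 : 0 < l := by linarith
  set δ := (l ^ 12)⁻¹ with hδ
  have hδ0 : 0 < δ := by positivity
  have hδl : δ * l ≤ 1 := by
    rw [hδ, inv_mul_le_iff₀ (by positivity), mul_one]; exact le_self_pow₀ hl1 (by norm_num)
  have hδK : δ * K ≤ 1 / 1200 := by linarith [mul_le_mul_of_nonneg_left n6 hδ0.le]
  set e := L ^ Ei * (A0 * δ ^ 2) with he
  have he0 : 0 ≤ e := by positivity
  have hl' : l⁻¹ ≤ 1 := inv_le_one_of_one_le₀ hl1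
  have hδ2 : l * δ ^ 2 ≤ (l ^ 22)⁻¹ := by
    have : l * δ ^ 2 = (l ^ 22)⁻¹ * l⁻¹ := by rw [hδ]; field_simp
    rw [this]; exact mul_le_of_le_one_right (by positivity) hl'
  have h22 : (l ^ 22)⁻¹ ≤ l⁻¹ := inv_anti₀ hl0 (le_self_pow₀ hl1 (by norm_num))
  have e1 : z * (L ^ 17 * e) ≤ (l ^ 22)⁻¹ :=
    le_trans (le_of_eq (by rw [he]; ring)) ((mul_le_mul_of_nonneg_right n5 (sq_nonneg δ)).trans hδ2)
  have e0 : e ≤ L ^ 17 * e := le_mul_of_one_le_left he0 hL17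
  have e2 : z * e ≤ (l ^ 22)⁻¹ := le_trans (by gcongr) e1
  have e3 : 800 * (L ^ 17 * e) ≤ (l ^ 22)⁻¹ := le_trans (by gcongr) e1
  have hM : ∀ y : ℝ, y ≤ 1 → y / 2 ^ M ≤ (l ^ n)⁻¹ := fun y hy => by
    rw [← one_div]; exact div_le_div₀ zero_le_one hy (by positivity) n1
  refine ⟨M, L, δ, e, rfl, rfl, hl1, n2, hL, hLρ, hδK, by rw [inv_mul_le_iff₀ hl0]; linarith, he0,
    by linarith, by linarith, ?_, by rw [← mul_div_assoc]; exact hM _ (by linarith),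
    hM _ (by linarith)⟩
  have := mul_le_mul_of_nonneg_right e2 (sq_nonneg ρ)
  rw [mul_right_comm, hzρ] at this
  linarith

theorem stage1 (hA : AlgSt) (hI : FinSt) (hB : BaseSt) (hS : SolvSt) (hC : CrudeSt) (hG : GeoSt) :
    ∃ (ρ : ℝ) (U : L3), 0 < ρ ∧ ρ ≤ 1 ∧ ‖U‖ ≤ 10 ∧ 1 / 10 ≤ ‖U a0‖ ∧
      (∀ x, ⟪a0, U x⟫ + ⟪x, U a0⟫ = 0) ∧ ∀ n : ℕ, ∀ᶠ l : ℝ in atTop, ∃ X : Vec 1, Nr ρ X ∧
        (cenM (D0m X)).Near 1 (l ^ 22)⁻¹
          ⟨fun t => 1 + (t * (l ^ 12)⁻¹) • U, fun _ => (l ^ 12)⁻¹ • U, fun _ => 0⟩ ∧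
        Defect 1 (l ^ n)⁻¹ (cenM (D0m X)) ∧
        ∀ fr : Frame 1, fr.Ok → fr.N 0 = 1 →
          St fr (fun _ => ρ) (fun _ => w1) (fun _ => (l ^ n)⁻¹) X := by
  obtain ⟨u, ρ0, K, U, hρ0, hρ1, hK, u0, ue, ut, u1, u2, ud, uc, U1, U2, U3⟩ := seed
  obtain ⟨Λ, κ, Cb, hΛ, hκ, hP⟩ := pack hB hS hC hG
  obtain ⟨Ei, hEi, hI⟩ := iter1 hI Cb
  obtain ⟨G, -, hG'⟩ := hG
  have hUa : 0 < ‖U a0‖ := by linarith
  have k1 : ‖‖U a0‖⁻¹ • U a0‖ = 1 := by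
    rw [norm_smul, norm_inv, norm_norm, inv_mul_cancel₀ hUa.ne']
  have k2 : ⟪‖U a0‖⁻¹ • U a0, a0⟫ = 0 := by
    have := U3 a0
    rw [real_inner_smul_left, real_inner_comm, show ⟪a0, U a0⟫ = 0 by linarith, mul_zero]
  set ρ := ρ0 / κ with hρdef
  have hρ : 0 < ρ := by positivity
  have hρρ : ρ ≤ ρ0 := div_le_self hρ0.le (by linarith)
  have hρ' : ρ ≤ 1 := hρρ.trans hρ1
  refine ⟨ρ / 8, U, by positivity, by linarith, U1, U2, U3, fun n => ?_⟩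
  filter_upwards [num2 (A0 := Real.exp Λ * (72 * (3 * K) ^ 2)) (by positivity) hK hκ hρ hρ' n Ei]
    with l hl
  obtain ⟨M, L, δ, e, hδ, he, hl1, n2, hL, hLρ, hδK, n3, he0, e1, e2, e3, e4, e5⟩ := hl
  have hl0 : 0 < l := by linarith
  have hδ0 : 0 < δ := by rw [hδ]; positivity
  rw [← hδ]
  have hX0 : InV 0 (xA 1 + Yl δ u) := fun i => (in_xA 0 i).add (in_Yl u0 i)
  have f1 : GBm 0 (fun _ => ρ0) w1 (3 * (δ * K)) (D0m (xA 1 + Yl δ u) - 1) := by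
    rw [D0m_add, D0m_xA, add_sub_cancel_left]; exact gb_DYl hρ0.le hρ1 hδ0.le u2
  have f2 : GBm 0 (fun _ => ρ0) w1 (δ * K) (dtm (D0m (xA 1 + Yl δ u))) := by
    rw [dtm_Yl ut]
    intro i j
    have := (u2 i j).smul δ
    rwa [abs_of_pos hδ0] at this
  have hN0 : Nr ρ0 (xA 1 + Yl δ u) :=
    ⟨hX0, eqv_xA.add (ue.smulA (invG_tA.smul δ)), fun i =>
      (GBv_xA (r := fun _ => 0) (fun _ => le_rfl) (fun _ => zero_le_one) i).1.add
        (gb_Yl hρ0.le hρ1 hδ0.le u1 i).1,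
      gbm_le f1 (fun _ => hρ0.le) (fun _ => le_rfl) (by linarith),
      gbm_le f2 (fun _ => hρ0.le) (fun _ => le_rfl) (by linarith)⟩
  obtain ⟨Ji, hPk⟩ := hP ρ0 _ hρ0 hρ1 hN0
  have hcf := cfok_pow hl1 k1 k2
  set fr0 := cf 1 (fun j => l ^ (j : ℕ)) (fun _ => ‖U a0‖⁻¹ • U a0) (1 / 20) (1 / 20) with hfr0
  have ok : (fe fr0).Ok := fe_ok (hG' 1 _ _ _ _ hcf).1
  have hN : (fe fr0).N 0 = 1 := by simp [fe, hfr0, cf]
  have hεN : ∀ j : Fin 3, (fe fr0).N j.castSucc ≤ l⁻¹ * (fe fr0).N j.succ := fun j => by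
    simp only [fe, hfr0, cf, Fin.val_castSucc, Fin.val_succ, pow_succ]
    exact le_of_eq (by field_simp)
  have hFS : FrS Λ κ ρ (xA 1 + Yl δ u) (fe fr0) := fun j =>
    ⟨solvP_fe _ _ _ _ (fun t => (Bw_pos _ t).le) (by linarith), (hPk.sP _ _ _ _ hcf j).2⟩
  have hst := st_Bw ok hΛ (by positivity) (st_Yl hA ok hN hρ.le hρ' hδ0.le (by linarith)
    (by linarith) u0 ut ud (gbv_le u1 (fun _ => hρ.le) (fun _ => hρρ) le_rfl)
    (gbm_le u2 (fun _ => hρ.le) (fun _ => hρρ) le_rfl))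
  have ec : Real.exp Λ * (72 * (3 * (δ * K)) ^ 2) = Real.exp Λ * (72 * (3 * K) ^ 2) * δ ^ 2 := by ring
  rw [ec] at hst
  obtain ⟨Cr, c1, c2, c3, -, c5⟩ := hI Λ κ ρ0 ρ ρ L l⁻¹ _ M (fe fr0) _ 0 Ji ok hN hΛ hρ hρρ
    le_rfl hρ' hκ hL n2 (by linarith) hN0 hPk hFS (SB.zero ok fun _ _ => by simp only [w1]; linarith)
    Eqv.zero (by positivity) hεN n3 (by positivity) (he ▸ e1) (by rw [add_zero]; exact hst)
  rw [add_zero, sum_fe c2, ← he] at c5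
  rw [← he] at c3
  have hC0 : InV 0 (Cr 0) := fun i => ((c2 0).1 i).1
  have hX : InV 0 (xA 1 + Yl δ u + Cr 0) := fun i => (hX0 i).add (hC0 i)
  obtain ⟨d1, d2⟩ := c3 0
  rw [hC0.Dm_zero] at d1 d2
  have r8 : ∀ _ : Let, 0 ≤ ρ / 8 := fun _ => by positivity
  have r9 : ∀ _ : Let, ρ / 8 ≤ ρ0 := fun _ => by linarith
  refine ⟨xA 1 + Yl δ u + Cr 0, ⟨hX, hN0.eqv.add (c1 0), fun i => (hN0.hom i).add ((c2 0).2 i).1,
    ?_, ?_⟩, ?_, ?_, fun fr hfr hfN => ?_⟩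
  · rw [D0m_add _ (Cr 0), add_sub_right_comm]
    exact gbm_le (GBm.add r8 (gbm_le f1 r8 r9 le_rfl) d1) r8 (fun _ => le_rfl) (by linarith)
  · rw [D0m_add _ (Cr 0), dtm_add]
    exact gbm_le (GBm.add r8 (gbm_le f2 r8 r9 le_rfl) d2) r8 (fun _ => le_rfl) (by linarith)
  · rw [D0m_add _ (Cr 0)]
    have m1 := Cen.near_add (ε := (l ^ 22)⁻¹) (D0m (xA 1 + Yl δ u)) d1 (by positivity) (by linarith)
      fun t _ => by simpa only [w1, mul_one] using e3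
    have m2 : (cenM (D0m (xA 1 + Yl δ u))).Near 1 0
        ⟨fun t => 1 + (t * δ) • U, fun _ => δ • U, fun _ => 0⟩ := by
      refine Cv.near_of_eq (cenM_ok _) (fun t _ => ⟨?_, hasDerivAt_const _ _⟩) fun t ht => ?_
      · simpa using (((hasDerivAt_id t).mul_const δ).smul_const U).const_add 1
      · have hz := Sp_sub 1 (cz_mem ht)
        simp only [cenM]
        rw [D0m_add, D0m_xA, D0m_Yl, evm_add, evm_one hz, evm_smulA, uc t ht, ev_smul, ev_tA hz,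
          mul_comm]
        rfl
    simpa using Cen.near_trans m1 m2
  · have hreg : Reg (fe fr0) L (1 / 2) l⁻¹ fun _ => ρ / 8 :=
      (hFS.rad (r8 lt) (by linarith)).reg hN (by positivity) (by linarith) hκ hL (by linarith) le_rfl
        (by norm_num) (by linarith) (by positivity) (inv_le_one_of_one_le₀ hl1) hεN
    have := Cen.defect_of_st (y := e / 2 ^ M) hA ok hreg
      (fun _ _ _ => by simp only [w1, mul_one]; exact ⟨by positivity, le_rfl⟩) c5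
    rw [hX.Dm_zero] at this
    exact Cen.defect_mono this le_rfl e4
  · exact st_tr (fr := fr0) hfr (hN.trans hfN.symm) r8 (by positivity) hX
      (It.st_mono ok c5 (fun _ => w1_nn) (fun _ => e5) r8 fun _ => le_rfl)

end Pool.Agent.Lib.MP_fbbbeb_an.Cas.Sta
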