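import Mathlib
import Pool.Agent.Lib.MP_fbbbeb_an.Cas.StartC
import Pool.Agent.Lib.MP_fbbbeb_an.Cas.Fin
import Pool.Agent.Lib.MP_fbbbeb_an.Cas.EndM
import Pool.Agent.Lib.MP_fbbbeb_an.Cas.InsC

/-! Second stage of the start: the first wave and the first end state. -/

set_option autoImplicit false

noncomputable section

namespace Pool.Agent.Lib.MP_fbbbeb_an.Cas

open Pool.Agent.Lib.MP_fbbbeb_an.Pub Filter
open scoped ContDiff Topology RealInnerProductSpace Matrix Nat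

namespace Sta

theorem rad_one (ρ : ℝ) : rad ρ 1 = fun _ => ρ := by
  funext i
  rcases i with _ | i | i <;> simp [rad]

theorem num3 {C Cw Ei B k : ℕ} {a l Kl K L g c e : ℝ} (hk : k = (C + 1) * (Cw + 1))
    (hB : 2 * ((k + 1) * Ei) + k * Cw + C + 3 ≤ B) (hl : 2 ≤ l) (ha0 : 0 ≤ a) (ha : a ≤ l)
    (h1 : Kl = l ^ (C + 1)) (h2 : K = Kl ^ (Cw + 1)) (h3 : L = l * K) (h4 : g = l ^ B)
    (h5 : c = a * (l ^ (B + C))⁻¹ + g⁻¹ * K ^ Cw) (h6 : e = L ^ Ei * c) :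
    l ≤ Kl ∧ Kl ≤ K ∧ Kl ^ Cw ≤ K ∧ Kl ^ Cw * K⁻¹ ≤ l⁻¹ ∧ L = l ^ (k + 1) ∧ L ^ Ei ≤ g ∧
      g⁻¹ * K ^ Cw ≤ (l ^ C)⁻¹ ∧ 0 ≤ c ∧ e ≤ (L ^ Ei)⁻¹ ∧ l * e ≤ (l ^ C)⁻¹ := by
  have hl1 : 1 ≤ l := by linarith
  have hl0 : 0 < l := by linarith
  have hp : ∀ {m n : ℕ}, m ≤ n → l ^ m ≤ l ^ n := fun h => pow_le_pow_right₀ hl1 h
  have a1 : l ≤ Kl := h1 ▸ le_self_pow₀ hl1 (by omega)
  have hK1 : 1 ≤ Kl := by linarith
  have eK : K = l ^ k := by rw [h2, h1, ← pow_mul, hk]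
  have eL : L = l ^ (k + 1) := by rw [h3, eK, pow_succ']
  have eE : L ^ Ei = l ^ ((k + 1) * Ei) := by rw [eL, ← pow_mul]
  have eW : K ^ Cw = l ^ (k * Cw) := by rw [eK, ← pow_mul]
  have hg : 0 < g := by rw [h4]; positivity
  have hc : c ≤ g⁻¹ * l ^ (k * Cw + 2) := by
    have b1 : (l ^ (B + C))⁻¹ ≤ g⁻¹ := h4 ▸ inv_anti₀ (by positivity) (hp (by omega))
    have b2 : a ≤ l ^ (k * Cw + 1) := ha.trans (le_self_pow₀ hl1 (by omega))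
    have b3 : l ^ (k * Cw) ≤ l ^ (k * Cw + 1) := hp (by omega)
    have b4 : 2 * l ^ (k * Cw + 1) ≤ l ^ (k * Cw + 2) := by
      rw [pow_succ' l (k * Cw + 1)]; gcongr
    have b5 : a * (l ^ (B + C))⁻¹ ≤ l ^ (k * Cw + 1) * g⁻¹ := by gcongr
    have b6 := mul_le_mul_of_nonneg_left b3 (inv_nonneg.2 hg.le)
    have b7 := mul_le_mul_of_nonneg_left b4 (inv_nonneg.2 hg.le)
    rw [h5, eW]; linarith
  have key : ∀ m n : ℕ, m + n ≤ B → g⁻¹ * l ^ m ≤ (l ^ n)⁻¹ := fun m n h => by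
    rw [inv_mul_le_iff₀ hg, le_mul_inv_iff₀ (by positivity), ← pow_add, h4]; exact hp h
  have he : ∀ m : ℕ, l ^ m * e ≤ g⁻¹ * l ^ (m + (k + 1) * Ei + (k * Cw + 2)) := fun m => by
    rw [h6, eE, pow_add, pow_add, ← mul_assoc, mul_left_comm]; gcongr
  refine ⟨a1, h2 ▸ le_self_pow₀ hK1 (by omega), h2 ▸ pow_le_pow_right₀ hK1 (by omega), ?_, eL,
    by rw [eE, h4]; exact hp (by omega), by rw [eW]; exact key _ _ (by omega), ?_, ?_, ?_⟩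
  · have : Kl ^ Cw * K⁻¹ = Kl⁻¹ := by rw [h2]; field_simp; ring
    rw [this]; exact inv_anti₀ hl0 a1
  · rw [h5, eW]; positivity
  · have := (he 0).trans (key _ ((k + 1) * Ei) (by omega))
    rwa [pow_zero, one_mul, ← eE] at this
  · have := (he 1).trans (key _ C (by omega))
    rwa [pow_one] at this

theorem num4 {l : ℝ} (hl : 320 ≤ l) : ∃ M : ℕ, 80 * ((M : ℝ) + 1) ≤ l * l ∧
    ∀ y : ℝ, y ≤ 1 → y / 2 ^ M ≤ Real.exp (-l) := by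
  have h1 := Nat.ceil_lt_add_one (show 0 ≤ 2 * l by linarith)
  have h2 := Nat.le_ceil (2 * l)
  refine ⟨⌈2 * l⌉₊, by nlinarith, fun y hy => ?_⟩
  have e2 : (2 : ℝ) ^ ⌈2 * l⌉₊ = Real.exp (⌈2 * l⌉₊ * Real.log 2) := by
    rw [Real.exp_nat_mul, Real.exp_log two_pos]
  rw [Real.exp_neg, ← one_div, e2]
  exact div_le_div₀ zero_le_one hy (Real.exp_pos _)
    (Real.exp_le_exp.2 (by nlinarith [Real.log_two_gt_d9]))

theorem cfok_N {g : ℝ} {B : ℕ} (hg : 1 ≤ g) (hB : 3 ≤ B) {k : E} (h1 : ‖k‖ = 1) (h2 : ⟪k, a0⟫ = 0) :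
    CfOk ![1, g, g ^ 2, g ^ B] (fun _ => k) (1 / 20) (1 / 20) := by
  refine ⟨by simp, Fin.monotone_iff_le_succ.2 fun j => ?_, fun _ => ⟨h1, h2⟩, by norm_num, le_rfl,
    by norm_num, le_rfl⟩
  fin_cases j
  · exact hg
  · exact le_self_pow₀ hg two_ne_zero
  · exact pow_le_pow_right₀ hg (by omega)

theorem step_N {g ε : ℝ} {B : ℕ} (hg : 1 ≤ g) (hB : 3 ≤ B) (hε : 0 ≤ ε) (h : 1 ≤ ε * g) (j : Fin 3) :
    (![1, g, g ^ 2, g ^ B] : Fin 4 → ℝ) j.castSucc ≤ ε * (![1, g, g ^ 2, g ^ B] : Fin 4 → ℝ) j.succ := by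
  fin_cases j
  · exact h
  · show g ≤ ε * g ^ 2
    nlinarith
  · show g ^ 2 ≤ ε * g ^ B
    have h3 : g ^ 3 ≤ g ^ B := pow_le_pow_right₀ hg hB
    nlinarith [mul_le_mul_of_nonneg_left h3 hε, mul_le_mul_of_nonneg_right h (sq_nonneg g)]

theorem cb_w {fr : Frame 1} {r r' : Let → ℝ} {Λ M M' : ℝ} {X : Vec 1} (hΛ : 0 ≤ Λ) (hM : 0 ≤ M)
    (hMM : M ≤ M') (h0 : ∀ i, 0 ≤ r' i) (h1 : ∀ i, r' i ≤ r i) (h : CB fr r (Bw Λ) M X) :
    CB fr r' w1 M' X := by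
  have : ∀ t ∈ Set.Ioo (0 : ℝ) 1, M * Bw Λ t ≤ M' * w1 t := fun t ht => by
    simp only [w1]; nlinarith [Bw_le hΛ ht]
  exact ⟨h.1.mono h0 h1 this, h.2.mono h0 h1 this⟩

theorem Nr.cb {ρ ρ' M : ℝ} {X : Vec 1} (h : Nr ρ X) (fr : Frame 1) (h0 : 0 ≤ ρ') (h1 : ρ' ≤ ρ)
    (hM : 2 ≤ M) : CB fr (fun _ => ρ') w1 M X := by
  rw [CB, h.x_in.Dm_zero]
  exact ⟨gbm_le (h.bd (h0.trans h1)) (fun _ => h0) (fun _ => h1) hM,
    gbm_le h.dt (fun _ => h0) (fun _ => h1) (by linarith)⟩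

theorem start_of (hA : AlgSt) (hF : FinSt) (hW : InsWSt) (hE : EndSt) (hS : SolvSt) (hB : BaseSt)
    (hC : CrudeSt) (hG : GeoSt) : StartSt := by
  intro Pre C hO
  obtain ⟨ρa, U, hρa, hρa1, U1, U2, U3, h1⟩ := stage1 hA hF hB hS hC hG
  obtain ⟨Λ, κ, Cb, hΛ, hκ, hP⟩ := pack hB hS hC hG
  obtain ⟨Ei, hEi, hI⟩ := iter1 hF Cb
  obtain ⟨Cw, hW⟩ := hW
  obtain ⟨G, -, hG'⟩ := hG
  obtain ⟨k, hk⟩ : ∃ k, k = (C + 1) * (Cw + 1) := ⟨_, rfl⟩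
  refine ⟨k + 1, fun P hPk => ⟨2 * ((k + 1) * Ei) + k * Cw + C + 3, fun B hBk => ?_⟩⟩
  have hB3 : 3 ≤ B := by omega
  have ht : Tendsto (fun x : ℝ => x ^ B) atTop atTop := tendsto_pow_atTop (by omega)
  refine eventually_atTop.1 ?_
  filter_upwards [ht.eventually (h1 (B + C)), eventually_ge_atTop 8,
    ht.eventually_ge_atTop 64000000, ht.eventually_ge_atTop (Real.exp Λ),
    ht.eventually_ge_atTop κ, ht.eventually_ge_atTop (κ / ρa), ht.eventually_ge_atTop (C : ℝ)]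
    with x hx hx8 l1 l2 l3 l4 l5
  obtain ⟨X, hX, hn, hd, hst⟩ := hx
  obtain ⟨l, hl⟩ : ∃ l, l = x ^ B := ⟨_, rfl⟩
  rw [← hl] at hn hd hst l1 l2 l3 l4 l5
  have hl0 : 0 < l := by linarith
  have hl1 : 1 ≤ l := by linarith
  obtain ⟨Kl, e1⟩ : ∃ y, y = l ^ (C + 1) := ⟨_, rfl⟩
  obtain ⟨K, e2⟩ : ∃ y, y = Kl ^ (Cw + 1) := ⟨_, rfl⟩
  obtain ⟨L, e3⟩ : ∃ y, y = l * K := ⟨_, rfl⟩
  obtain ⟨g, e4⟩ : ∃ y, y = l ^ B := ⟨_, rfl⟩
  obtain ⟨c, e5⟩ : ∃ y, y = Real.exp Λ * (l ^ (B + C))⁻¹ + g⁻¹ * K ^ Cw := ⟨_, rfl⟩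
  obtain ⟨e, e6⟩ : ∃ y, y = L ^ Ei * c := ⟨_, rfl⟩
  obtain ⟨n1, n2, n3, n4, n5, n6, n7, n8, n9, n10⟩ :=
    num3 hk hBk (by linarith) (Real.exp_pos Λ).le l2 e1 e2 e3 e4 e5 e6
  obtain ⟨M, m1, m2⟩ := num4 (l := l) (by linarith)
  have hK0 : 0 < K := by linarith
  have hKl0 : 0 < Kl := by linarith
  have hg1 : 1 ≤ g := e4 ▸ one_le_pow₀ hl1
  have hg0 : 0 < g := by linarith
  have hKL : 64000000 * K ≤ L := e3 ▸ mul_le_mul_of_nonneg_right l1 hK0.le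
  have hL0 : 0 < L := by linarith
  have hlC : (l ^ C)⁻¹ ≤ 1 := inv_le_one_of_one_le₀ (one_le_pow₀ hl1)
  have he0 : 0 ≤ e := by rw [e6]; positivity
  have he1 : 64000000 * e ≤ (l ^ C)⁻¹ := (mul_le_mul_of_nonneg_right l1 he0).trans n10
  have hLP : L ≤ l ^ P := n5 ▸ pow_le_pow_right₀ hl1 hPk
  have hρ : 0 < K⁻¹ := inv_pos.2 hK0
  have hKρ : K * K⁻¹ = 1 := mul_inv_cancel₀ hK0.ne'
  have hρκ : K⁻¹ ≤ ρa / κ := by
    rw [← inv_div]; exact inv_anti₀ (by positivity) (by linarith)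
  have hρa' : K⁻¹ ≤ ρa := hρκ.trans (div_le_self hρa.le (by linarith))
  have hLρ : 64000000 ≤ L * K⁻¹ := by rw [e3, mul_assoc, hKρ, mul_one]; exact l1
  obtain ⟨kk, p, k1, k2, p1, hPre⟩ := hO l U (cenM (D0m X)) l5 U1 U2 U3 (cenM_ok _) hn
    (Cen.defect_mono hd le_rfl (inv_anti₀ (by positivity) (pow_le_pow_right₀ hl1 (by omega))))
  have hcf := cfok_N hg1 hB3 k1 k2
  obtain ⟨N, hN⟩ : ∃ N : Fin 4 → ℝ, N = ![1, g, g ^ 2, g ^ B] := ⟨_, rfl⟩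
  have hN0 : N 0 = 1 := by rw [hN]; rfl
  have hεN : ∀ ε : ℝ, 0 ≤ ε → 1 ≤ ε * g → ∀ j : Fin 3, N j.castSucc ≤ ε * N j.succ :=
    fun ε a b => hN ▸ step_N hg1 hB3 a b
  rw [← hN] at hcf
  have hr : ∀ ρ, rad ρ (N 0) = fun _ => ρ := fun ρ => by rw [hN0, rad_one]
  have ok := (hG' 1 _ _ _ _ hcf).1
  obtain ⟨Ji, hPk'⟩ := hP ρa X hρa hρa1 hX
  have hFS : FrS Λ κ K⁻¹ X (cf 1 N (fun _ => kk) (1 / 20) (1 / 20)) :=
    FrS.rad (hPk'.sP _ _ _ _ hcf) hρ.le hρκ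
  have hD : Dm (cf 1 N (fun _ => kk) (1 / 20) (1 / 20)) X = D0m X := hX.x_in.Dm_zero _
  have hwd : wd 2 (1 / 20) ^ 2 = (64000000 : ℝ)⁻¹ := by simp only [wd, if_true]; norm_num
  obtain ⟨W, η, w1', w2, w3, w4, w5, w6, w7⟩ := hW 1 N (fun _ => kk) (1 / 20) 2 K Kl (9 / 10) g⁻¹ K⁻¹
    (Real.exp Λ * (l ^ (B + C))⁻¹) (fun _ => Bw Λ) (fun _ => w1) X p hcf (by decide)
    (by
      rw [hr]
      exact hFS.reg hN0 hρ (hρa'.trans hρa1) hκ (by linarith) hKρ.ge (by norm_num) (by norm_num)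
        (by linarith) (by positivity) (inv_le_one_of_one_le₀ hg1)
        (hεN _ (by positivity) (inv_mul_cancel₀ hg0.ne').ge))
    (Bw_wt hΛ (by linarith)) (by linarith) n3 (by norm_num)
    (fun i => (hX.x_in i).mono (Fin.zero_le _)) hX.eqv
    (by rw [hr]; exact hX.cb _ hρ.le hρa' (by linarith))
    (by
      rw [hr]
      exact st_Bw ok hΛ (by positivity) (It.st_mono ok (hst _ ok hN0) (fun _ => w1_nn)
        (fun _ => le_rfl) (fun _ => hρ.le) fun _ => hρa'))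
    (by positivity)
    (by rw [hr, hD]; exact It.solvP_le (hFS 2).1 (fun t _ => (Bw_pos _ t).le) (by linarith))
    (fun t ht => by
      have b1 := mul_le_mul_of_nonneg_left ((Bw_inv hΛ ht).trans
        (mul_le_mul_of_nonneg_right l2 (Bw_pos Λ t).le)) (pow_nonneg hl0.le C)
      rw [e1, pow_succ, mul_assoc]; linarith)
    (by rw [hwd]; exact n4.trans (inv_anti₀ (by norm_num) l1))
  rw [hr] at w3 w4 w5
  rw [← e5] at w5
  have r2 : ∀ _ : Let, 0 ≤ K⁻¹ / 2 := fun _ => by positivity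
  have r8 : ∀ _ : Let, 0 ≤ K⁻¹ / 2 / 8 := fun _ => by positivity
  have r9 : ∀ _ : Let, K⁻¹ / 2 / 8 ≤ K⁻¹ / 2 := fun _ => by linarith
  have hKw : 0 ≤ Kl ^ Cw := by positivity
  have w3' : SB (cf 1 N (fun _ => kk) (1 / 20) (1 / 20)) (fun _ => K⁻¹ / 2) w1 3 K W :=
    It.sb_size ok w3 fun t ht => by
      simp only [w1, mul_one]; exact (mul_le_of_le_one_right hKw (Bw_le hΛ ht)).trans n3
  have w4' := cb_w (M' := 2 * K) hΛ (by positivity) (by linarith) r2 (fun _ => le_rfl) w4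
  obtain ⟨Cr, c1, c2, c3, c4, c5⟩ := hI Λ κ ρa (ρa / κ) (K⁻¹ / 2) L (L ^ Ei)⁻¹ c M _ X W Ji ok hN0 hΛ
    (by positivity) (by linarith) (by linarith) (by linarith) hκ (by linarith)
    (m1.trans (e3 ▸ mul_le_mul_of_nonneg_left (n1.trans n2) hl0.le)) (by linarith) hX hPk'
    (hFS.rad (r2 lt) (by linarith)) (It.sb_le ok w3' w1_nn (by linarith)) w1' (by positivity)
    (hεN _ (by positivity) (by rw [le_inv_mul_iff₀ (by positivity), mul_one]; exact n6))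
    (inv_mul_cancel₀ (by positivity)).le n8 (e6 ▸ n9) w5
  rw [← e6] at c2 c3 c4 c5
  have hsm := Cen.early_gb (L := K / N 3) (L' := 2 * K) ok (fun _ => half_pos hρ) w3'.2
    (fun _ _ => by simp only [w1, mul_one]; exact le_rfl) w2 w4'.2
    (fun _ _ => by simp only [w1, mul_one]; exact le_rfl)
  have hx1 : 1 / x ≤ 1 / 8 := one_div_le_one_div_of_le (by norm_num) hx8
  have hxP : x ≤ x ^ (P * P) := le_self_pow₀ (by linarith) (Nat.mul_ne_zero (by omega) (by omega))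
  have hK1 : K⁻¹ ≤ 1 := hρa'.trans hρa1
  refine ⟨K⁻¹ / 48, _, hE Pre P B (K⁻¹ / 48) x 1 (1 / 4) (K⁻¹ / 2 / 8) (1 / 20) N (fun _ => kk) X W Cr
    2 (2 * K) e (l ^ C)⁻¹ (1 / 4) (by positivity) (by linarith) (by norm_num) le_rfl hcf
    (by rw [hN, ← hl, ← e4]; rfl) (by rw [hN, ← hl, ← e4]; rfl) (by positivity) ?_ (by linarith)
    (fun i => (hX.x_in i).mono (Fin.zero_le _)) hX.eqv hX.hom
    (by rw [hr]; exact hX.cb _ (r8 lt) (by linarith) le_rfl)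
    (by rw [DetGe, hD]; exact hX.det34)
    (by rw [hr]; exact It.sb_rad (It.sb_le ok w3' w1_nn (by linarith)) r8 r9) w1'
    (by rw [hr]; exact ⟨gbm_le w4'.1 r8 r9 le_rfl, gbm_le w4'.2 r8 r9 le_rfl⟩) c1
    (by rw [hr]; exact c2) (by rw [hr]; exact c3) c4
    (by
      rw [hr, ← hl]
      exact It.st_mono ok c5 (fun _ => w1_nn) (fun _ => m2 _ (by linarith)) r8 fun _ => le_rfl)
    (fun Fn f1 f2 => ?_) (fun z hz hz' => ?_) he0 (by norm_num) (by linarith) (by rw [← hl]; linarith)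
    (by linarith) (by linarith) (by linarith)⟩
  · rw [← hl]
    linarith [mul_le_mul_of_nonneg_right hLP hρ.le]
  · rw [← hl]
    rw [hD] at w6 w7
    refine hPre _ (Cen.wave_mono w6 fun t ht => ?_) Fn f1 (by simpa using Cen.near_trans f2 w7)
    simp only [w1, mul_one]
    exact (mul_le_of_le_one_right (by positivity) (Bw_le hΛ ht)).trans n7
  · have b1 := hsm z hz
    have b2 := hX.norm z hz
    have b3 := mul_le_mul_of_nonneg_left hz' hK0.le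
    rw [hD]
    linarith

end Sta

theorem startSt (hA : AlgSt) (hI : IterSt) (hN : InsSt) (hS : SolvSt) (hB : BaseSt) (hC : CrudeSt)
    (hG : GeoSt) (hP : PifSt) : StartSt :=
  Sta.start_of hA (finSt hI) (insWSt hG hP hN) (endSt hG) hS hB hC hG

end Pool.Agent.Lib.MP_fbbbeb_an.Cas
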