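import Mathlib
import Pool.Agent.Lib.MP_fbbbeb_an.Cas.Defs

/-! Substitution of the phases: the algebra map and its derivatives. -/

set_option autoImplicit false

noncomputable section

namespace Pool.Agent.Lib.MP_fbbbeb_an.Cas.Un

open Pool.Agent.Lib.MP_fbbbeb_an.Pub
open scoped ContDiff Topology RealInnerProductSpace Matrix Nat

/-- the substitution on points -/
def sb (n1 n2 x y : ℝ) (kv : Fin 3 → E) (z : Pt) : Pt :=
  (z.1, z.2.1, !₂[n1 * Ph (kv 0) z.2.1, n2 * Ph (kv 1) z.2.1, x * z.2.2 0 + y * Ph (kv 2) z.2.1])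

/-- standing hypotheses -/
structure Hy (T T' x : ℝ) (kv : Fin 3 → E) : Prop where
  le : T' ≤ T
  hx : x = 0 ∨ x = 1
  good : ∀ j, Good T fun z => Ph (kv j) z.2.1
  good' : ∀ j, Good T' fun z => Ph (kv j) z.2.1

variable {T T' n1 n2 x y : ℝ} {kv : Fin 3 → E}

theorem sb_eq (z : Pt) : sb n1 n2 x y kv z = ((z.1, z.2.1, 0) : Pt) +
    (n1 * Ph (kv 0) z.2.1) • vec (lp 0) + (n2 * Ph (kv 1) z.2.1) • vec (lp 1) +
    (x * z.2.2 0 + y * Ph (kv 2) z.2.1) • vec (lp 2) := by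
  refine Prod.ext (by simp [sb, vec]) (Prod.ext (by simp [sb, vec]) ?_)
  ext i
  fin_cases i <;> simp [sb, vec]

theorem sb_mem (h : T' ≤ T) {z : Pt} (hz : z ∈ Om T') : sb n1 n2 x y kv z ∈ Om T :=
  ⟨hz.1, hz.2.1.trans_le h, hz.2.2⟩

theorem sb_sp (h : T' ≤ T) {z : Pt} (hz : z ∈ Sp T') : sb n1 n2 x y kv z ∈ Sp T :=
  ⟨hz.1, hz.2.1.trans_le h, hz.2.2⟩

theorem sb_smooth (H : Hy T T' x kv) : ContDiffOn ℝ ∞ (sb n1 n2 x y kv) (Om T') := by
  have h0 := (H.good' 0).1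
  have h1 := (H.good' 1).1
  have h2 := (H.good' 2).1
  have e : sb n1 n2 x y kv = _ := funext fun z => sb_eq z
  rw [e]
  have p0 : ContDiff ℝ ∞ fun z : Pt => ((z.1, z.2.1, 0) : Pt) := by fun_prop
  have p1 : ContDiff ℝ ∞ fun z : Pt => x * z.2.2 0 := by fun_prop
  exact ((p0.contDiffOn.add ((contDiffOn_const.mul h0).smul contDiffOn_const)).add
    ((contDiffOn_const.mul h1).smul contDiffOn_const)).add
    ((p1.contDiffOn.add (contDiffOn_const.mul h2)).smul contDiffOn_const)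

theorem sb_shift (z : Pt) (s : ℝ) (j : Fin 3) : sb n1 n2 x y kv (z + s • vec (lp j)) =
    sb n1 n2 x y kv z + (s * if j = 0 then x else 0) • vec (lp 2) := by
  generalize hc : (s * if j = 0 then x else 0) = c
  refine Prod.ext (by simp [sb, vec]) (Prod.ext (by simp [sb, vec]) ?_)
  subst hc
  ext i
  fin_cases i <;> fin_cases j <;> simp [sb, vec] <;> ring

theorem good_sb (H : Hy T T' x kv) (f : A T) : Good T' fun z => ev f (sb n1 n2 x y kv z) := by
  refine ⟨(ev_smooth f).comp (sb_smooth H) fun z hz => sb_mem H.le hz, fun j z _ => ?_⟩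
  show ev f (sb n1 n2 x y kv _) = ev f (sb n1 n2 x y kv z)
  rw [sb_shift]
  by_cases hj : j = 0
  · rcases H.hx with h | h
    · simp [h]
    · rw [if_pos hj, h, mul_one, ev_per]
  · simp [hj]

/-- the substitution as an algebra map -/
def UA (H : Hy T T' x kv) (n1 n2 y : ℝ) : A T →ₐ[ℝ] A T' where
  toFun f := mkA T' fun z => ev f (sb n1 n2 x y kv z)
  map_one' := A_ext fun z hz => by
    rw [ev_mkA (good_sb H _) hz, ev_one hz, ev_one (sb_mem H.le hz)]
  map_mul' f g := A_ext fun z hz => by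
    rw [ev_mul, ev_mkA (good_sb H _) hz, ev_mkA (good_sb H _) hz, ev_mkA (good_sb H _) hz, ev_mul]
  map_zero' := A_ext fun z hz => by rw [ev_mkA (good_sb H _) hz, ev_zero, ev_zero]
  map_add' f g := A_ext fun z hz => by
    rw [ev_add, ev_mkA (good_sb H _) hz, ev_mkA (good_sb H _) hz, ev_mkA (good_sb H _) hz, ev_add]
  commutes' c := A_ext fun z hz => by
    rw [ev_mkA (good_sb H _) hz, ev_algebraMap c hz, ev_algebraMap c (sb_mem H.le hz)]

theorem UA_def (H : Hy T T' x kv) (f : A T) :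
    UA H n1 n2 y f = mkA T' fun z => ev f (sb n1 n2 x y kv z) := rfl

theorem ev_UA (H : Hy T T' x kv) (f : A T) {z : Pt} (hz : z ∈ Om T') :
    ev (UA H n1 n2 y f) z = ev f (sb n1 n2 x y kv z) := ev_mkA (good_sb H f) hz

theorem line_mem {z : Pt} (hz : z ∈ Om T) (v : Pt) : ∀ᶠ s in 𝓝 (0 : ℝ), z + s • v ∈ Om T := by
  have hc : Continuous fun s : ℝ => z + s • v := by fun_prop
  exact hc.continuousAt.eventually_mem (by simpa using (isOpen_Om T).mem_nhds hz)

theorem hasDerivAt_ev0 (i : Let) (f : A T) {z : Pt} (hz : z ∈ Om T) :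
    HasDerivAt (fun s : ℝ => ev f (z + s • vec i)) (ev (pd i f) z) 0 := by
  simpa using hasDerivAt_ev i f z 0 (by simpa using hz)

theorem ev_pd_UA (H : Hy T T' x kv) (i : Let) (f : A T) {z : Pt} (hz : z ∈ Om T') (v : Pt)
    (h : HasDerivAt (fun s : ℝ => sb n1 n2 x y kv (z + s • vec i)) v 0) :
    ev (pd i (UA H n1 n2 y f)) z = fderiv ℝ (ev f) (sb n1 n2 x y kv z) v := by
  have h1 := hasDerivAt_ev0 i (UA H n1 n2 y f) hz
  have hd : HasFDerivAt (ev f) (fderiv ℝ (ev f) (sb n1 n2 x y kv z))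
      (sb n1 n2 x y kv (z + (0 : ℝ) • vec i)) := by
    simpa using (ev_diff f (sb_mem H.le hz)).hasFDerivAt
  have h2 := hd.comp_hasDerivAt (0 : ℝ) h
  refine h1.unique (h2.congr_of_eventuallyEq ?_)
  filter_upwards [line_mem hz (vec i)] with s hs
  exact ev_UA H f hs

theorem pd_lt_UA (H : Hy T T' x kv) (f : A T) :
    pd lt (UA H n1 n2 y f) = UA H n1 n2 y (pd lt f) := by
  refine A_ext fun z hz => ?_
  rw [ev_UA H _ hz, ev_pd _ _ (sb_mem H.le hz)]
  refine ev_pd_UA H lt f hz _ ?_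
  have e : (fun s : ℝ => sb n1 n2 x y kv (z + s • vec lt)) =
      fun s : ℝ => sb n1 n2 x y kv z + s • vec lt := by
    funext s
    simp [sb, vec]
  rw [e]
  simpa using ((hasDerivAt_id (0 : ℝ)).smul_const (vec lt)).const_add (sb n1 n2 x y kv z)

theorem pd_lp_UA (H : Hy T T' x kv) (j : Fin 3) (f : A T) :
    pd (lp j) (UA H n1 n2 y f) = (if j = 0 then x else 0) • UA H n1 n2 y (pd (lp 2) f) := by
  refine A_ext fun z hz => ?_
  rw [ev_smul, ev_UA H _ hz, ev_pd _ _ (sb_mem H.le hz), ← smul_eq_mul, ← map_smul]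
  refine ev_pd_UA H (lp j) f hz _ ?_
  have e : (fun s : ℝ => sb n1 n2 x y kv (z + s • vec (lp j))) =
      fun s : ℝ => sb n1 n2 x y kv z + s • ((if j = 0 then x else 0) • vec (lp 2)) := by
    funext s
    rw [sb_shift, smul_smul]
  rw [e]
  simpa using ((hasDerivAt_id (0 : ℝ)).smul_const ((if j = 0 then x else 0) • vec (lp 2))).const_add
    (sb n1 n2 x y kv z)

theorem hasDerivAt_Ph {k : E} (hk : Good T fun z => Ph k z.2.1) (i : Let) {z : Pt} (hz : z ∈ Om T) :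
    HasDerivAt (fun s : ℝ => Ph k (z + s • vec i).2.1) (ev (pd i (phA T k)) z) 0 := by
  refine (hasDerivAt_ev0 i (phA T k) hz).congr_of_eventuallyEq ?_
  filter_upwards [line_mem hz (vec i)] with s hs
  exact (ev_mkA hk hs).symm

theorem pd_la_UA (H : Hy T T' x kv) (i : Fin 3) (f : A T) :
    pd (la i) (UA H n1 n2 y f) = UA H n1 n2 y (pd (la i) f) +
      (n1 • gr0 (phA T' (kv 0)) i) * UA H n1 n2 y (pd (lp 0) f) +
      (n2 • gr0 (phA T' (kv 1)) i) * UA H n1 n2 y (pd (lp 1) f) +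
      (y • gr0 (phA T' (kv 2)) i) * UA H n1 n2 y (pd (lp 2) f) := by
  refine A_ext fun z hz => ?_
  have hs : sb n1 n2 x y kv z ∈ Om T := sb_mem H.le hz
  simp only [ev_add, ev_mul, ev_smul, ev_UA H _ hz, ev_pd _ _ hs, gr0]
  have h0 := hasDerivAt_Ph (H.good' 0) (la i) hz
  have h1 := hasDerivAt_Ph (H.good' 1) (la i) hz
  have h2 := hasDerivAt_Ph (H.good' 2) (la i) hz
  have e : (fun s : ℝ => sb n1 n2 x y kv (z + s • vec (la i))) = fun s : ℝ =>
      (((z.1, z.2.1, 0) : Pt) + s • vec (la i)) +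
      (n1 * Ph (kv 0) (z + s • vec (la i)).2.1) • vec (lp 0) +
      (n2 * Ph (kv 1) (z + s • vec (la i)).2.1) • vec (lp 1) +
      (x * z.2.2 0 + y * Ph (kv 2) (z + s • vec (la i)).2.1) • vec (lp 2) := by
    funext s
    rw [sb_eq]
    simp [vec]
  have hl : HasDerivAt (fun s : ℝ => ((z.1, z.2.1, 0) : Pt) + s • vec (la i)) (vec (la i)) 0 := by
    simpa using ((hasDerivAt_id (0 : ℝ)).smul_const (vec (la i))).const_add ((z.1, z.2.1, 0) : Pt)
  have hd := ((hl.add ((h0.const_mul n1).smul_const (vec (lp 0)))).add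
    ((h1.const_mul n2).smul_const (vec (lp 1)))).add
    (((h2.const_mul y).const_add (x * z.2.2 0)).smul_const (vec (lp 2)))
  rw [ev_pd_UA H (la i) f hz _ (by rw [e]; exact hd)]
  simp only [map_add, map_smul, smul_eq_mul]

theorem pd_lp_ph {k : E} (hk : Good T fun z => Ph k z.2.1) (l : Fin 3) :
    pd (lp l) (phA T k) = 0 := by
  refine A_ext fun z hz => ?_
  have h := hasDerivAt_Ph hk (lp l) hz
  have e : (fun s : ℝ => Ph k (z + s • vec (lp l)).2.1) = fun _ => Ph k z.2.1 := by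
    funext s
    simp [vec]
  rw [e] at h
  rw [ev_zero]
  exact h.unique (hasDerivAt_const _ _)

theorem UA_ph (H : Hy T T' x kv) (j : Fin 3) : UA H n1 n2 y (phA T (kv j)) = phA T' (kv j) := by
  refine A_ext fun z hz => ?_
  rw [ev_UA H _ hz, phA, phA, ev_mkA (H.good j) (sb_mem H.le hz), ev_mkA (H.good' j) hz]
  rfl

theorem UA_k (H : Hy T T' x kv) (j i : Fin 3) :
    UA H n1 n2 y (gr0 (phA T (kv j)) i) = gr0 (phA T' (kv j)) i := by
  have h := pd_la_UA (n1 := n1) (n2 := n2) (y := y) H i (phA T (kv j))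
  simp only [pd_lp_ph (H.good j), map_zero, mul_zero, add_zero, UA_ph] at h
  exact h.symm

theorem mkA_congr {f g : Pt → ℝ} (hf : Good T f) (h : ∀ z ∈ Om T, g z = f z) :
    mkA T g = mkA T f :=
  A_ext fun z hz => by rw [ev_mkA (hf.congr h) hz, ev_mkA hf hz, h z hz]

theorem gz_mem (g : E ≃ₗᵢ[ℝ] E) (z : Pt) : gz g z ∈ Om T ↔ z ∈ Om T := by
  simp [gz, Om]

theorem UA_eqv (H : Hy T T' x kv) (hI : ∀ j, InvG (phA T' (kv j))) (V : Vec T) (hV : Eqv V) :
    Eqv fun i => UA H n1 n2 y (V i) := by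
  intro g hg z
  by_cases hz : z ∈ Om T'
  · have hz' := (gz_mem g z).2 hz
    have hp : ∀ j, Ph (kv j) (g z.2.1) = Ph (kv j) z.2.1 := fun j => by
      have h := hI j g hg z
      rwa [phA, ev_mkA (H.good' j) hz', ev_mkA (H.good' j) hz] at h
    have e : sb n1 n2 x y kv (gz g z) = gz g (sb n1 n2 x y kv z) := by simp [sb, gz, hp]
    have h := hV g hg (sb n1 n2 x y kv z)
    simp only [evv, ev_UA H _ hz, ev_UA H _ hz', e] at h ⊢
    exact h
  · have hz' : gz g z ∉ Om T' := fun h => hz ((gz_mem g z).1 h)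
    have e0 : (WithLp.toLp 2 fun _ : Fin 3 => (0 : ℝ)) = (0 : E) := rfl
    simp only [evv, ev_out _ hz, ev_out _ hz', e0, map_zero]

theorem UA_hom (H : Hy T T' x kv) (hI : ∀ j, Hom 0 (phA T' (kv j))) {d : ℤ} {f : A T}
    (hf : Hom d f) : Hom d (UA H n1 n2 y f) := by
  intro z s hs
  have hm : ((z.1, s • z.2.1, z.2.2) : Pt) ∈ Om T' ↔ z ∈ Om T' := by simp [Om, hs.ne']
  by_cases hz : z ∈ Om T'
  · have hz' := hm.2 hz
    have hp : ∀ j, Ph (kv j) (s • z.2.1) = Ph (kv j) z.2.1 := fun j => by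
      have h := hI j z s hs
      rw [phA, ev_mkA (H.good' j) hz', ev_mkA (H.good' j) hz] at h
      simpa using h
    rw [ev_UA H _ hz, ev_UA H _ hz', ← hf _ s hs]
    simp [sb, hp]
  · rw [ev_out _ hz, ev_out _ (fun h => hz (hm.1 h)), mul_zero]

theorem a0_ne : a0 ≠ 0 := by
  intro h
  have h1 := congrArg (fun v : E => v 0) h
  simp [a0] at h1

theorem UA_cz (H : Hy T T' x kv) (h0 : ∀ j, Ph (kv j) a0 = 0) (f : A T) {t : ℝ}
    (ht : t ∈ Set.Ioo 0 T') : ev (UA H n1 n2 y f) (cz t) = ev f (cz t) := by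
  rw [ev_UA H _ (show cz t ∈ Om T' from ⟨ht.1, ht.2, a0_ne⟩), sb_eq]
  simp [cz, h0]

end Pool.Agent.Lib.MP_fbbbeb_an.Cas.Un
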