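import Mathlib
import Pool.Agent.Lib.MP_fbbbeb_an.Cas.Stmt
import Pool.Agent.Lib.MP_fbbbeb_an.Cas.Word
import Pool.Agent.Lib.MP_fbbbeb_an.Cas.UnlA

/-! Substitution of the phases: the Gevrey bound and the two statements. -/

set_option autoImplicit false

noncomputable section

namespace Pool.Agent.Lib.MP_fbbbeb_an.Cas

open Pool.Agent.Lib.MP_fbbbeb_an.Pub
open scoped ContDiff Topology RealInnerProductSpace Matrix Nat

namespace Un

variable {T T' n1 n2 x y : ℝ} {kv : Fin 3 → E}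

theorem dw_pd (u : List Let) (f : A T) : Word.dw pd u f = pw u f := by
  induction u with
  | nil => rfl
  | cons i u ih => rw [Word.dw_cons, ih]; rfl

theorem gp_iff {r : Let → ℝ} {M : ℝ} {f : A T} {z : Pt} (hz : z ∈ Om T) :
    Word.GP pd (evA z hz) r M f ↔ BdAt r M f z := by
  simp only [Word.GP, BdAt, dw_pd]
  rfl

theorem gp_const {r : Let → ℝ} {z : Pt} (hz : z ∈ Om T) {c M : ℝ} (h : |c| ≤ M) :
    Word.GP pd (evA z hz) r M (algebraMap ℝ (A T) c) := by
  intro u
  rcases List.eq_nil_or_concat u with rfl | ⟨v, i, rfl⟩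
  · simpa using h
  · rw [List.concat_eq_append, Word.dw_concat, Derivation.map_algebraMap, Word.dw_zero, map_zero,
      abs_zero, zero_mul]
    exact mul_nonneg ((abs_nonneg c).trans h) (by positivity)

/-- coefficients of the chain rule -/
def cm (T' : ℝ) (n : Fin 3 → ℝ) (x : ℝ) (kv : Fin 3 → E) : Let → Let → A T'
  | none, none => algebraMap ℝ _ 1
  | some (Sum.inl i), some (Sum.inl l) => algebraMap ℝ _ (if l = i then 1 else 0)
  | some (Sum.inl i), some (Sum.inr j) => n j • gr0 (phA T' (kv j)) i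
  | some (Sum.inr j), some (Sum.inr l) => algebraMap ℝ _ (if l = 2 then (if j = 0 then x else 0) else 0)
  | _, _ => algebraMap ℝ _ 0

/-- bounds of the coefficients -/
def km (a : ℝ) : Let → Let → ℝ
  | none, none => 1
  | some (Sum.inl i), some (Sum.inl l) => if l = i then 1 else 0
  | some (Sum.inl _), some (Sum.inr _) => a
  | some (Sum.inr _), some (Sum.inr l) => if l = 2 then 1 else 0
  | _, _ => 0

theorem pd_UA (H : Hy T T' x kv) (i : Let) (f : A T) : pd i (UA H n1 n2 y f) =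
    ∑ l, cm T' ![n1, n2, y] x kv i l * UA H n1 n2 y (pd l f) := by
  rcases i with _ | i | j
  · rw [pd_lt_UA]
    simp [Fintype.sum_option, cm]
  · rw [pd_la_UA]
    simp only [Fintype.sum_option, Fintype.sum_sum_type, cm, map_zero, zero_mul, zero_add,
      apply_ite (algebraMap ℝ (A T')), map_one, ite_mul, one_mul, Finset.sum_ite_eq',
      Finset.mem_univ, if_true]
    rw [Fin.sum_univ_three]
    simp only [add_assoc]
    rfl
  · rw [pd_lp_UA]
    simp only [Fintype.sum_option, Fintype.sum_sum_type, cm, map_zero, zero_mul, zero_add,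
      Finset.sum_const_zero]
    rw [Fin.sum_univ_three, Algebra.smul_def]
    simp

theorem rad_pos {ρ N : ℝ} (hρ : 0 < ρ) (hN : 0 < N) (i : Let) : 0 < rad ρ N i := by
  rcases i with _ | i | j
  · exact hρ
  · exact div_pos hρ hN
  · exact hρ

theorem UA_gb (H : Hy T T' x kv) (hI : ∀ j, Hom 0 (phA T' (kv j))) {Cg N : ℝ} (hC : 2 ≤ Cg)
    (hN : 1 ≤ N) (hn : ∀ j, |(![n1, n2, y] : Fin 3 → ℝ) j| ≤ N)
    (hk : ∀ r : Let → ℝ, (∀ i, 0 ≤ r i) → (∀ i, Cg * r (la i) ≤ 1) → ∀ j,
      GBv (-1) r w1 Cg (gr0 (phA T' (kv j))))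
    {d : ℤ} {ρ : ℝ} {w : ℝ → ℝ} {M : ℝ} {f : A T} (h0 : 0 < ρ) (h1 : ρ ≤ 1)
    (hf : GB d (rad ρ N) w M f) : GB d (rad (ρ / (2 + 6 * Cg)) N) w M (UA H n1 n2 y f) := by
  refine ⟨UA_hom H hI hf.1, fun z hz u => ?_⟩
  have hz' := Sp_sub _ hz
  have N0 : 0 < N := by linarith
  have C0 : 0 < 2 + 6 * Cg := by linarith
  have p0 : 0 < ρ / (2 + 6 * Cg) := div_pos h0 C0
  have hr := rad_pos p0 N0
  have hk' := hk (fun i => 2 * rad (ρ / (2 + 6 * Cg)) N i) (fun i => by linarith [hr i]) fun i => by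
    have a : ρ / (2 + 6 * Cg) / N ≤ 1 / (2 + 6 * Cg) :=
      (div_le_self p0.le hN).trans (div_le_div_of_nonneg_right h1 C0.le)
    have b : Cg * (2 * (1 / (2 + 6 * Cg))) ≤ 1 := by
      rw [mul_one_div, ← mul_div_assoc, div_le_one C0]
      linarith
    exact (mul_le_mul_of_nonneg_left (mul_le_mul_of_nonneg_left a (by norm_num))
      (by linarith)).trans b
  have hx : |x| ≤ 1 := by rcases H.hx with h | h <;> simp [h]
  have key := Word.chain pd (evA z hz') (r := fun i => 2 * rad (ρ / (2 + 6 * Cg)) N i)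
    (ρ := rad (ρ / (2 + 6 * Cg)) N) (r' := rad ρ N) (fun i => (hr i).le)
    (fun i => le_of_eq (by ring)) (rad_pos h0 N0) (fun v => UA H n1 n2 y (pw v f))
    (cm T' ![n1, n2, y] x kv) (km (N * Cg)) (M := M * w z.1) (fun i v => pd_UA H i _)
    (fun v => by
      have := hf.2 _ (sb_sp (n1 := n1) (n2 := n2) (x := x) (y := y) (kv := kv) H.le hz) v
      rw [← ev_UA H _ hz'] at this
      exact this)
    (fun i l => by
      rcases i with _ | i | j <;> rcases l with _ | l | l
      · exact gp_const hz' (by simp [km])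
      · exact gp_const hz' (by simp [km])
      · exact gp_const hz' (by simp [km])
      · exact gp_const hz' (by simp [km])
      · exact gp_const hz' (by simp only [km]; split_ifs <;> simp)
      · have a := ((gp_iff hz').2 ((hk' l i).2 z hz)).smul ((![n1, n2, y] : Fin 3 → ℝ) l)
        refine a.mono (fun i => by linarith [hr i]) (fun _ => le_rfl) ?_
        simp only [w1, mul_one, km]
        exact mul_le_mul_of_nonneg_right (hn l) (by linarith)
      · exact gp_const hz' (by simp [km])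
      · exact gp_const hz' (by simp [km])
      · exact gp_const hz' (by simp only [km]; split_ifs <;> simp [hx]))
    (fun i => by
      have e1 : ρ / (2 + 6 * Cg) / ρ = 1 / (2 + 6 * Cg) := by field_simp
      have e2 : ρ / (2 + 6 * Cg) / N / (ρ / N) = 1 / (2 + 6 * Cg) := by field_simp
      have e3 : N * Cg * (ρ / (2 + 6 * Cg) / N) / ρ = Cg / (2 + 6 * Cg) := by field_simp
      have b1 : 2 * (1 / (2 + 6 * Cg)) ≤ 1 := by
        rw [mul_one_div, div_le_one C0]
        linarith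
      have b2 : 2 * (1 / (2 + 6 * Cg) + 3 * (Cg / (2 + 6 * Cg))) ≤ 1 := le_of_eq (by field_simp; ring)
      rcases i with _ | i | j
      · simpa [Fintype.sum_option, Fintype.sum_sum_type, km, rad, e1] using b1
      · simpa [Fintype.sum_option, Fintype.sum_sum_type, km, rad, ite_mul, ite_div, e2, e3] using b2
      · simpa [Fintype.sum_option, Fintype.sum_sum_type, km, rad, ite_mul, ite_div, e1] using b1)
    u []
  rw [dw_pd, Word.rw_nil, mul_one, List.length_nil, add_zero] at key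
  exact key

theorem n_bd {N : Fin 4 → ℝ} (h0 : 1 ≤ N 0) (hm : Monotone N) {a b : Fin 4} (h : a ≤ b) :
    |N a| ≤ N b := by
  rw [abs_of_nonneg (by linarith [hm (Fin.zero_le a)])]
  exact hm h

end Un

open Un in
theorem unlSt (geo : GeoSt) : UnlSt := by
  obtain ⟨Cg, hC, hg⟩ := geo
  refine ⟨2 + 6 * Cg, by linarith, fun T T' N N' kv kv' δ δa δ' δa' hc hT hN hk => ?_⟩
  obtain ⟨-, g1, -, -⟩ := hg T N kv δ δa hc
  obtain ⟨-, g2, -, g3⟩ := hg T' N kv δ δa hc
  have H : Hy T T' 1 kv := ⟨hT, Or.inr rfl, fun j => (g1 j).2.1, fun j => (g2 j).2.1⟩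
  have e : ∀ z : Pt, sb (N 1) (N 2) 1 0 kv z =
      (z.1, z.2.1, !₂[N 1 * Ph (kv 0) z.2.1, N 2 * Ph (kv 1) z.2.1, z.2.2 0]) := fun z => by
    simp [sb]
  have hin1 : ∀ f, In 1 (UA H (N 1) (N 2) 0 f) := fun f j hj => by
    rw [pd_lp_UA, if_neg (by rintro rfl; revert hj; decide), zero_smul]
  have hin0 : ∀ f, In 2 f → In 0 (UA H (N 1) (N 2) 0 f) := fun f hf j _ => by
    rw [pd_lp_UA, hf 2 (by decide), map_zero, smul_zero]
  refine ⟨UA H (N 1) (N 2) 0, fun f => ?_, pd_lt_UA H, fun f i => ?_, hin1, hin0,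
    fun l f hf => ?_, UA_eqv H fun j => (g2 j).2.2.1, fun f t ht => UA_cz H (fun j => (g1 j).1) f ht,
    fun z hz => ⟨_, sb_sp hT hz, rfl, fun f => ev_UA H f (Sp_sub _ hz)⟩, fun f => ?_,
    fun d ρ w M f h0 h1 hf => UA_gb H (fun j => (g2 j).2.2.2) hC
      (hc.1.trans (hc.2.1 (Fin.zero_le _))) (fun j => ?_)
      (fun r a b j => (g3 r a b j).1) h0 h1 hf⟩
  · rw [UA_def, unl]
    simp only [e]
  · simp only [D, Df, cf, Fin.sum_univ_three, Derivation.add_apply, Derivation.smul_apply,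
      smul_eq_mul, pd_la_UA, pd_lp_UA, map_add, map_mul, map_smul, UA_k, hk]
    have a1 : N' (Fin.succ 0) = N (Fin.succ 2) := hN
    rw [a1]
    simp
    ring
  · by_cases hl : l = 3
    · subst hl
      refine ⟨hin1 f, fun z hz => ?_⟩
      by_cases hz' : z ∈ Om T'
      · rw [ev_UA H f hz']
        refine hf.2 _ fun h => hz ?_
        obtain ⟨g, hg1, hg2⟩ := h.1.1
        refine ⟨g, hg1, hg2.trans ?_⟩
        have a1 : 0 < δa := by unfold CfOk at hc; tauto
        have a2 : δa ≤ 1 / 20 := by unfold CfOk at hc; tauto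
        exact pow_le_pow_left₀ (by positivity)
          ((pow_le_of_le_one a1.le (by linarith) (by norm_num)).trans a2) 2
      · exact ev_out _ hz'
    · rw [dn, if_neg hl]
      refine ⟨hin0 f fun j hj => hf.1 j (le_trans ?_ hj), fun z hz => absurd (Set.mem_univ z) hz⟩
      have : ∀ l : Fin 4, ¬ l = 3 → l ≤ 2 := by decide
      exact this l hl
  · rw [ful, ful]
    refine mkA_congr ?_ fun z hz => ?_
    · have H0 : Hy T T' 0 kv := ⟨hT, Or.inl rfl, H.good, H.good'⟩
      refine (good_sb (n1 := N 1) (n2 := N 2) (y := N 3) H0 f).congr fun z _ => ?_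
      simp [sb]
    · rw [ev_UA H f (by exact hz), e]
      simp [hN, hk]
  · fin_cases j
    · exact n_bd hc.1 hc.2.1 (a := 1) (b := 2) (by decide)
    · exact n_bd hc.1 hc.2.1 (a := 2) (b := 2) le_rfl
    · have := hc.1.trans (hc.2.1 (Fin.zero_le 2))
      simp
      linarith

open Un in
theorem fulSt (geo : GeoSt) : FulSt := by
  obtain ⟨Cg, hC, hg⟩ := geo
  refine ⟨2 + 6 * Cg, by linarith, fun T T' N kv δ δa hc hT => ?_⟩
  obtain ⟨-, g1, -, -⟩ := hg T N kv δ δa hc
  obtain ⟨-, g2, -, g3⟩ := hg T' N kv δ δa hc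
  have H : Hy T T' 0 kv := ⟨hT, Or.inl rfl, fun j => (g1 j).2.1, fun j => (g2 j).2.1⟩
  refine ⟨UA H (N 1) (N 2) (N 3), fun f => ?_, pd_lt_UA H, fun f i => ?_, fun f j _ => ?_,
    UA_eqv H fun j => (g2 j).2.2.1, fun f t ht => UA_cz H (fun j => (g1 j).1) f ht,
    fun z hz => ⟨_, sb_sp hT hz, rfl, fun f => ev_UA H f (Sp_sub _ hz)⟩,
    fun d ρ w M f h0 h1 hf => UA_gb H (fun j => (g2 j).2.2.2) hC
      (hc.1.trans (hc.2.1 (Fin.zero_le _))) (fun j => ?_)
      (fun r a b j => (g3 r a b j).1) h0 h1 hf⟩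
  · rw [UA_def, ful]
    simp [sb]
  · simp only [D, Df, cf, Fin.sum_univ_three, Derivation.add_apply, Derivation.smul_apply,
      smul_eq_mul, pd_la_UA, map_add, map_mul, map_smul, UA_k]
    simp
    ring
  · rw [pd_lp_UA]
    simp
  · fin_cases j
    · exact n_bd hc.1 hc.2.1 (a := 1) (b := 3) (by decide)
    · exact n_bd hc.1 hc.2.1 (a := 2) (b := 3) (by decide)
    · exact n_bd hc.1 hc.2.1 (a := 3) (b := 3) le_rfl

end Pool.Agent.Lib.MP_fbbbeb_an.Cas
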