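import Mathlib
import Pool.Agent.Lib.MP_fbbbeb_an.Cas.CAll
import Pool.Agent.Lib.MP_fbbbeb_an.Cas.Base
import Pool.Agent.Lib.MP_fbbbeb_an.Cas.Flow
import Pool.Agent.Lib.MP_fbbbeb_an.Cas.Geo
import Pool.Agent.Lib.MP_fbbbeb_an.Cas.Pif
import Pool.Agent.Lib.MP_fbbbeb_an.Cas.Unl
import Pool.Agent.Lib.MP_fbbbeb_an.Cas.Env
import Pool.Agent.Lib.MP_fbbbeb_an.Cas.Crude
import Pool.Agent.Lib.MP_fbbbeb_an.Cas.Pio
import Pool.Agent.Lib.MP_fbbbeb_an.Cas.Prp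
import Pool.Agent.Lib.MP_fbbbeb_an.Cas.Seq
import Pool.Agent.Lib.MP_fbbbeb_an.Cas.StartD
import Pool.Agent.Lib.MP_fbbbeb_an.Cas.Cyc
import Pool.Agent.Lib.MP_fbbbeb_an.Cas.LevE
import Pool.Agent.Lib.MP_fbbbeb_an.Cas.LevC
import Pool.Agent.Lib.MP_fbbbeb_an.Cas.InsC
import Pool.Agent.Lib.MP_fbbbeb_an.Cas.Fin
import Pool.Agent.Lib.MP_fbbbeb_an.Cas.EndM
import Pool.Agent.Lib.MP_fbbbeb_an.Cas.NxM
import Pool.Agent.Lib.MP_fbbbeb_an.Cas.DefS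
import Pool.Agent.Lib.MP_fbbbeb_an.Cas.RegS
import Pool.Agent.Lib.MP_fbbbeb_an.Cas.NumM

/-! The sequence of approximate flow maps from the ODE cascade. -/

set_option autoImplicit false

namespace Pool.Agent.Lib.MP_fbbbeb_an.Cas

theorem baseSt0 : BaseSt := baseSt flowSt

theorem crudeSt0 : CrudeSt := crudeSt pioSt prpSt

theorem startSt0 : StartSt :=
  startSt algSt iterSt0 insSt0 solvSt0 baseSt0 crudeSt0 geoSt pifSt

theorem cycSt0 : CycSt :=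
  cycSt geoSt (unlSt geoSt) (levESt geoSt (envSt geoSt pioSt prpSt) solvSt0)
    (levCSt crudeSt0 solvSt0) (lev0St baseSt0) (insWSt geoSt pifSt insSt0) (finSt iterSt0)
    (endSt geoSt) (nxSt geoSt (fulSt geoSt)) (defSt algSt) (regSt geoSt) wtSt bgSt numSt

theorem seq_of_ode (hO : OdeSt) : SeqSt := seqSt geoSt (fulSt geoSt) hO startSt0 cycSt0

end Pool.Agent.Lib.MP_fbbbeb_an.Cas
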