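import Mathlib
import Pool.Agent.Lib.MP_fbbbeb_an.Cas.Stmt
import Pool.Agent.Lib.MP_fbbbeb_an.Lag.End

set_option autoImplicit false

noncomputable section

namespace Pool.Agent.Lib.MP_fbbbeb_an.Cas

open Pool.Agent.Lib.MP_fbbbeb_an.Pub Set

/-- the Eulerian solution, with the scaling and the symmetry of its pressure -/
theorem lagPlus (T t0 : ℝ) (X : ℝ → E → E) (hX : LagSol T t0 X) :
    ∃ (u : ℝ → E → E) (p : ℝ → E → ℝ), IsSol (Gp : Set (E ≃ₗᵢ[ℝ] E)) (Ioo 0 T) u p ∧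
      (∀ t ∈ Ioo 0 T, ∀ x : E, x ≠ 0 → (∀ l : ℝ, 0 < l → p t (l • x) = l ^ 2 * p t x) ∧
        ∀ O ∈ (Gp : Set (E ≃ₗᵢ[ℝ] E)), p t (O x) = p t x) ∧
      ∫⁻ t in Ioo t0 T, ⨆ x : {x : E // x ≠ 0}, ‖fderiv ℝ (u t) x‖ₑ = ⊤ := by
  obtain ⟨F, hF⟩ : ∃ F : ℝ × E → E, F = fun z => X z.1 z.2 := ⟨_, rfl⟩
  have h : Lag.Hom1 (Ioo 0 T) F :=
    hF ▸ ⟨hX.smooth, fun z hz l hl => hX.hom z.1 hz.1 z.2 hz.2 l hl⟩
  have e : ∀ z ∈ Lag.Om (Ioo 0 T), Lag.Da F z = fderiv ℝ (X z.1) z.2 := fun z hz => by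
    rw [← Lag.Da_eq (Lag.dfa isOpen_Ioo h.sm hz), hF]
  have h1 := h.dt isOpen_Ioo
  have h2 := h1.dt isOpen_Ioo
  have e1 : ∀ z ∈ Lag.Om (Ioo 0 T), deriv (fun s => X s z.2) z.1 = Lag.Dt F z := fun z hz => by
    rw [← (Lag.hasDerivAt_Dt (Lag.dfa isOpen_Ioo h.sm hz)).deriv, hF]
  have e2 : ∀ z ∈ Lag.Om (Ioo 0 T), dtt X z.1 z.2 = Lag.Dt (Lag.Dt F) z := fun z hz => by
    rw [← (Lag.hasDerivAt_Dt (Lag.dfa isOpen_Ioo h1.sm hz)).deriv]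
    apply Filter.EventuallyEq.deriv_eq
    filter_upwards [isOpen_Ioo.mem_nhds hz.1] with s hs using e1 (s, z.2) ⟨hs, hz.2⟩
  have e3 : ∀ z ∈ Lag.Om (Ioo 0 T),
      Lag.Da (Lag.Dt (Lag.Dt F)) z = fderiv ℝ (dtt X z.1) z.2 := fun z hz => by
    rw [← Lag.Da_eq (Lag.dfa isOpen_Ioo h2.sm hz)]
    apply Filter.EventuallyEq.fderiv_eq
    filter_upwards [isOpen_compl_singleton.mem_nhds hz.2] with a ha
    exact (e2 (z.1, a) ⟨hz.1, ha⟩).symm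
  obtain ⟨u, p, hu, hp, htr⟩ := Lag.sol (M := (Gp : Set (E ≃ₗᵢ[ℝ] E))) isOpen_Ioo
    isPreconnected_Ioo h (fun z hz O hO => by rw [hF]; exact hX.eqv z.1 hz.1 z.2 hz.2 O hO)
    (fun z hz => by rw [e z hz]; exact hX.det z.1 hz.1 z.2 hz.2)
    (fun z hz v w => by rw [e z hz, e3 z hz]; exact hX.sym z.1 hz.1 z.2 hz.2 v w) hX.t_mem
    fun x hx => by
      rw [e (t0, x) ⟨hX.t_mem, by rintro rfl; simp at hx⟩]
      exact hX.small x hx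
  have ha : a0 ≠ 0 := by
    intro h0
    have := congrArg (fun x : E => x 0) h0
    simp [a0] at this
  have hsub : Ico t0 T ⊆ Ioo 0 T := fun t ht => ⟨hX.t_mem.1.trans_le ht.1, ht.2⟩
  refine ⟨u, p, hu, hp, Lag.lint isOpen_Ioo hu h.sm htr hsub ha fun C => ?_⟩
  obtain ⟨t, ht, hC⟩ := hX.big C
  exact ⟨t, ht, by rw [e (t, a0) ⟨hsub ht, ha⟩]; exact hC⟩

theorem lagSt : LagSt := fun T t0 X hX =>
  let ⟨u, p, h1, _, h2⟩ := lagPlus T t0 X hX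
  ⟨u, p, h1, h2⟩

end Pool.Agent.Lib.MP_fbbbeb_an.Cas
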