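import Mathlib
import Pool.Agent.Lib.MP_fbbbeb_an.Cas.Defs

/-! Locally uniformly summable series in the algebra of smooth lifted functions. -/

set_option autoImplicit false

noncomputable section

namespace Pool.Agent.Lib.MP_fbbbeb_an.Cas.Lim

open Pool.Agent.Lib.MP_fbbbeb_an.Pub
open scoped ContDiff Topology Nat
open Filter

variable {T : ℝ}

theorem pw_cons (i : Let) (u : List Let) (f : A T) : pw (i :: u) f = pd i (pw u f) := rfl

theorem pw_snoc (i : Let) (u : List Let) (f : A T) : pw u (pd i f) = pw (u ++ [i]) f := by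
  simp [pw, List.foldr_append]

theorem pw_add (u : List Let) (f g : A T) : pw u (f + g) = pw u f + pw u g := by
  induction u with
  | nil => rfl
  | cons i u ih => rw [pw_cons, pw_cons, pw_cons, ih, map_add]

theorem pw_zero (u : List Let) : pw u (0 : A T) = 0 := by
  induction u with
  | nil => rfl
  | cons i u ih => rw [pw_cons, ih, map_zero]

theorem pw_sum (u : List Let) (f : ℕ → A T) (m : ℕ) :
    pw u (∑ n ∈ Finset.range m, f n) = ∑ n ∈ Finset.range m, pw u (f n) := by
  induction m with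
  | zero => simp [pw_zero]
  | succ m ih => rw [Finset.sum_range_succ, Finset.sum_range_succ, pw_add, ih]

/-- coordinate that belongs to a letter -/
def co : Let → (Pt →L[ℝ] ℝ)
  | none => ContinuousLinearMap.fst ℝ ℝ (E × E)
  | some (Sum.inl i) => (EuclideanSpace.proj i).comp
      ((ContinuousLinearMap.fst ℝ E E).comp (ContinuousLinearMap.snd ℝ ℝ (E × E)))
  | some (Sum.inr j) => (EuclideanSpace.proj j).comp
      ((ContinuousLinearMap.snd ℝ E E).comp (ContinuousLinearMap.snd ℝ ℝ (E × E)))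

theorem sum_co (z : Pt) : ∑ i : Let, co i z • vec i = z := by
  obtain ⟨t, a, p⟩ := z
  rw [Fintype.sum_option, Fintype.sum_sum_type]
  refine Prod.ext ?_ (Prod.ext ?_ ?_)
  · simp [co, vec, Fin.sum_univ_three]
  · ext k
    fin_cases k <;> simp [co, vec, Fin.sum_univ_three]
  · ext k
    fin_cases k <;> simp [co, vec, Fin.sum_univ_three]

theorem clm_eq (L : Pt →L[ℝ] ℝ) : L = ∑ i : Let, L (vec i) • co i := by
  refine ContinuousLinearMap.ext fun z => ?_
  conv_lhs => rw [← sum_co z]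
  simp [map_sum, mul_comm]

theorem fderiv_ev (f : A T) {z : Pt} (hz : z ∈ Om T) :
    fderiv ℝ (ev f) z = ∑ i : Let, ev (pd i f) z • co i := by
  rw [clm_eq (fderiv ℝ (ev f) z)]
  exact Finset.sum_congr rfl fun i _ => by rw [ev_pd i f hz]

/-- all derivatives are locally dominated by a summable sequence -/
def LocSum (f : ℕ → A T) : Prop :=
  ∀ u : List Let, ∀ z ∈ Om T, ∃ c : ℕ → ℝ, Summable c ∧
    ∀ᶠ y in 𝓝 z, ∀ n, |ev (pw u (f n)) y| ≤ c n

theorem LocSum.pd {f : ℕ → A T} (h : LocSum f) (i : Let) : LocSum fun n => pd i (f n) := by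
  intro u z hz
  simpa only [pw_snoc] using h (u ++ [i]) z hz

theorem LocSum.pw {f : ℕ → A T} (h : LocSum f) (u : List Let) : LocSum fun n => pw u (f n) := by
  induction u with
  | nil => exact h
  | cons i u ih => exact ih.pd i

theorem LocSum.summable {f : ℕ → A T} (h : LocSum f) {z : Pt} (hz : z ∈ Om T) :
    Summable fun n => ev (f n) z := by
  obtain ⟨c, hc, hb⟩ := h [] z hz
  exact Summable.of_norm_bounded hc hb.self_of_nhds

theorem LocSum.hasFDerivAt {f : ℕ → A T} (h : LocSum f) {z : Pt} (hz : z ∈ Om T) :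
    HasFDerivAt (fun y => ∑' n, ev (f n) y)
      (∑ i : Let, (∑' n, ev (Cas.pd i (f n)) z) • co i) z := by
  choose c hc hb using fun i : Let => h [i] z hz
  have h1 : ∀ᶠ y in 𝓝 z, y ∈ Om T ∧ ∀ i n, |ev (Cas.pd i (f n)) y| ≤ c i n :=
    (Filter.eventually_of_mem ((isOpen_Om T).mem_nhds hz) fun _ hy => hy).and
      (Filter.eventually_all.2 hb)
  obtain ⟨ε, hε, hball⟩ := Metric.eventually_nhds_iff_ball.1 h1
  have key := hasFDerivAt_tsum_of_isPreconnected (𝕜 := ℝ)
    (u := fun n => ∑ i : Let, c i n * ‖co i‖) (f := fun n => ev (f n))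
    (f' := fun n y => ∑ i : Let, ev (Cas.pd i (f n)) y • co i) (s := Metric.ball z ε) (x₀ := z) (x := z)
    (summable_sum fun i _ => (hc i).mul_right _) Metric.isOpen_ball
    (convex_ball z ε).isPreconnected
    (fun n y hy => by
      rw [← fderiv_ev (f n) (hball y hy).1]
      exact (ev_diff _ (hball y hy).1).hasFDerivAt)
    (fun n y hy => by
      refine (norm_sum_le _ _).trans (Finset.sum_le_sum fun i _ => ?_)
      rw [norm_smul, Real.norm_eq_abs]
      exact mul_le_mul_of_nonneg_right ((hball y hy).2 i n) (norm_nonneg _))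
    (Metric.mem_ball_self hε) (h.summable hz) (Metric.mem_ball_self hε)
  have hs : HasSum (fun n => ∑ i : Let, ev (Cas.pd i (f n)) z • co i)
      (∑ i : Let, (∑' n, ev (Cas.pd i (f n)) z) • co i) :=
    hasSum_sum fun i _ => ((h.pd i).summable hz).hasSum.smul_const _
  rwa [hs.tsum_eq] at key

theorem locSum_cd (k : ℕ) : ∀ f : ℕ → A T, LocSum f →
    ContDiffOn ℝ k (fun y => ∑' n, ev (f n) y) (Om T) := by
  induction k with
  | zero =>
    intro f h
    exact contDiffOn_zero.2 fun z hz => (h.hasFDerivAt hz).continuousAt.continuousWithinAt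
  | succ k ih =>
    intro f h
    rw [Nat.cast_succ, contDiffOn_succ_iff_fderiv_of_isOpen (isOpen_Om T)]
    refine ⟨fun z hz => (h.hasFDerivAt hz).differentiableAt.differentiableWithinAt,
      fun hk => absurd hk (by simp), ?_⟩
    refine ContDiffOn.congr (f := fun z => ∑ i : Let, (∑' n, ev (pd i (f n)) z) • co i) ?_
      fun z hz => (h.hasFDerivAt hz).fderiv
    exact ContDiffOn.sum fun i _ => (ih _ (h.pd i)).smul contDiffOn_const

theorem LocSum.good {f : ℕ → A T} (h : LocSum f) : Good T fun y => ∑' n, ev (f n) y :=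
  ⟨contDiffOn_infty.2 fun k => locSum_cd k f h, fun j z _ => by simp only [ev_per]⟩

/-- the sum of a series -/
def sumA (f : ℕ → A T) : A T := mkA T fun y => ∑' n, ev (f n) y

theorem ev_sumA {f : ℕ → A T} (h : LocSum f) {z : Pt} (hz : z ∈ Om T) :
    ev (sumA f) z = ∑' n, ev (f n) z := ev_mkA h.good hz

theorem co_vec (i j : Let) : co i (vec j) = if i = j then 1 else 0 := by
  rcases i with _ | i | i <;> rcases j with _ | j | j <;> simp [co, vec, Pi.single_apply]

theorem pd_sumA {f : ℕ → A T} (h : LocSum f) (i : Let) :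
    pd i (sumA f) = sumA fun n => pd i (f n) := by
  refine A_ext fun z hz => ?_
  have h1 : ev (sumA f) =ᶠ[𝓝 z] fun y => ∑' n, ev (f n) y :=
    Filter.eventually_of_mem ((isOpen_Om T).mem_nhds hz) fun _ hy => ev_sumA h hy
  rw [ev_pd i _ hz, h1.fderiv_eq, (h.hasFDerivAt hz).fderiv, ev_sumA (h.pd i) hz]
  simp only [ContinuousLinearMap.sum_apply, ContinuousLinearMap.smul_apply, co_vec, smul_eq_mul,
    mul_ite, mul_one, mul_zero, Finset.sum_ite_eq', Finset.mem_univ, if_true]

theorem pw_sumA {f : ℕ → A T} (h : LocSum f) (u : List Let) :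
    pw u (sumA f) = sumA fun n => pw u (f n) := by
  induction u with
  | nil => rfl
  | cons i u ih => rw [pw_cons, ih, pd_sumA (h.pw u)]; rfl

/-! ### change of the time interval -/

theorem Om_mono {T T' : ℝ} (h : T' ≤ T) : Om T' ⊆ Om T := fun _ hz =>
  ⟨hz.1, hz.2.1.trans_le h, hz.2.2⟩

theorem pw_congr {T1 T2 T' : ℝ} (h1 : T' ≤ T1) (h2 : T' ≤ T2) (f : A T1) (g : A T2)
    (h : ∀ z ∈ Om T', ev f z = ev g z) (u : List Let) :
    ∀ z ∈ Om T', ev (pw u f) z = ev (pw u g) z := by
  induction u with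
  | nil => exact h
  | cons i u ih =>
    intro z hz
    have h3 : ev (pw u f) =ᶠ[𝓝 z] ev (pw u g) :=
      Filter.eventually_of_mem ((isOpen_Om T').mem_nhds hz) ih
    rw [pw_cons, pw_cons, ev_pd i _ (Om_mono h1 hz), ev_pd i _ (Om_mono h2 hz), h3.fderiv_eq]

/-- restriction to a shorter time interval -/
def res (T' : ℝ) (f : A T) : A T' := mkA T' (ev f)

theorem ev_res {T' : ℝ} (h : T' ≤ T) (f : A T) {z : Pt} (hz : z ∈ Om T') :
    ev (res T' f) z = ev f z :=
  ev_mkA ⟨(ev_smooth f).mono (Om_mono h), fun j y _ => ev_per f j y⟩ hz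

theorem ev_pw_res {T' : ℝ} (h : T' ≤ T) (f : A T) (u : List Let) {z : Pt} (hz : z ∈ Om T') :
    ev (pw u (res T' f)) z = ev (pw u f) z :=
  pw_congr le_rfl h _ _ (fun _ hy => ev_res h f hy) u z hz

/-! ### homogeneity of derivatives -/

/-- loss of degree -/
def dg : Let → ℤ
  | some (Sum.inl _) => 1
  | _ => 0

/-- scaling of the label -/
def scl (s : ℝ) : Pt →L[ℝ] Pt :=
  (ContinuousLinearMap.id ℝ ℝ).prodMap
    ((s • ContinuousLinearMap.id ℝ E).prodMap (ContinuousLinearMap.id ℝ E))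

theorem scl_apply (s : ℝ) (z : Pt) : scl s z = (z.1, s • z.2.1, z.2.2) := rfl

theorem scl_mem {s : ℝ} (hs : 0 < s) (z : Pt) : scl s z ∈ Om T ↔ z ∈ Om T := by
  simp [Om, scl_apply, hs.ne']

theorem hom_pd {d : ℤ} {f : A T} (h : Hom d f) (i : Let) : Hom (d - dg i) (pd i f) := by
  intro z s hs
  rw [← scl_apply]
  by_cases hz : z ∈ Om T
  · have hz' := (scl_mem hs z).2 hz
    have h1 : (ev f ∘ scl s) = fun y => s ^ d * ev f y := funext fun y => h y s hs
    have h2 := ((ev_diff f hz').hasFDerivAt.comp z (scl s).hasFDerivAt).fderiv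
    rw [h1, fderiv_const_mul (ev_diff f hz)] at h2
    have h3 := congrArg (fun L => L (vec i)) h2
    simp only [ContinuousLinearMap.smul_apply, ContinuousLinearMap.comp_apply, smul_eq_mul] at h3
    have h4 : scl s (vec i) = s ^ dg i • vec i := by
      rcases i with _ | i | i <;> simp [scl_apply, vec, dg]
    rw [h4, map_smul, smul_eq_mul] at h3
    rw [ev_pd i f hz, ev_pd i f hz', zpow_sub₀ hs.ne', div_mul_eq_mul_div, h3]
    field_simp
  · rw [ev_out _ hz, ev_out _ fun h' => hz ((scl_mem hs z).1 h'), mul_zero]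

theorem hom_pw {d : ℤ} {f : A T} (h : Hom d f) (u : List Let) :
    Hom (d - (u.map dg).sum) (pw u f) := by
  induction u with
  | nil => simpa [pw] using h
  | cons i u ih =>
    have := hom_pd ih i
    rw [pw_cons, List.map_cons, List.sum_cons]
    convert this using 1
    ring

/-- values off the sphere -/
theorem abs_ev_le {d : ℤ} {f : A T} (h : Hom d f) {z : Pt} (hz : z ∈ Om T) {M : ℝ}
    (hM : ∀ y ∈ Sp T, y.1 = z.1 → |ev f y| ≤ M) : |ev f z| ≤ ‖z.2.1‖ ^ d * M := by
  have hn : 0 < ‖z.2.1‖ := norm_pos_iff.2 hz.2.2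
  have h1 := h (z.1, ‖z.2.1‖⁻¹ • z.2.1, z.2.2) _ hn
  simp only [smul_smul, mul_inv_cancel₀ hn.ne', one_smul] at h1
  rw [show z = (z.1, z.2.1, z.2.2) from rfl, h1, abs_mul, abs_of_pos (zpow_pos hn d)]
  refine mul_le_mul_of_nonneg_left (hM _ ⟨hz.1, hz.2.1, ?_⟩ rfl) (zpow_pos hn d).le
  simp [norm_smul, hn.ne']

theorem rpr_const (c : ℝ) (u : List Let) : rpr (fun _ => c) u = c ^ u.length := by
  simp [rpr]

/-- pointwise form of a Gevrey bound with constant radius -/
theorem abs_pw_le {d : ℤ} {L M : ℝ} {w : ℝ → ℝ} {f : A T} (hL : 0 < L)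
    (h : GB d (fun _ => L⁻¹) w M f) (u : List Let) {z : Pt} (hz : z ∈ Om T) :
    |ev (pw u f) z| ≤ ‖z.2.1‖ ^ (d - (u.map dg).sum) *
      (L ^ u.length * (M * w z.1) * ((u.length ! : ℕ) : ℝ) ^ 2) := by
  refine abs_ev_le (hom_pw h.1 u) hz fun y hy hyz => ?_
  have h1 := h.2 y hy u
  rw [rpr_const, inv_pow, ← div_eq_mul_inv, div_le_iff₀ (pow_pos hL _), hyz] at h1
  linarith

end Pool.Agent.Lib.MP_fbbbeb_an.Cas.Lim
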