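import Mathlib
import Pool.Agent.Lib.MP_fbbbeb_an.Cas.LimA

/-! Evaluation of vectors and matrices of the algebra: derivatives, determinant, Weber identity. -/

set_option autoImplicit false

noncomputable section

namespace Pool.Agent.Lib.MP_fbbbeb_an.Cas.Lim

open Pool.Agent.Lib.MP_fbbbeb_an.Pub
open scoped ContDiff Topology Nat RealInnerProductSpace Matrix
open Filter

variable {T : ℝ}

/-- the operator of a matrix -/
def Lm : (Fin 3 → Fin 3 → ℝ) →ₗ[ℝ] L3 where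
  toFun m := Matrix.toEuclideanCLM (n := Fin 3) (𝕜 := ℝ) (Matrix.of m)
  map_add' a b := by rw [← map_add]; rfl
  map_smul' c a := by rw [RingHom.id_apply, ← map_smul]; rfl

theorem continuous_Lm : Continuous Lm := Lm.continuous_of_finiteDimensional

theorem evm_eq (F : Mat T) (z : Pt) : evm F z = Lm fun i j => ev (F i j) z := rfl

theorem evm_apply (F : Mat T) (z : Pt) (x : E) (i : Fin 3) :
    evm F z x i = ∑ j, ev (F i j) z * x j := rfl

theorem evv_apply (V : Vec T) (z : Pt) (i : Fin 3) : evv V z i = ev (V i) z := rfl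

theorem det_evm (F : Mat T) {z : Pt} (hz : z ∈ Om T) : (evm F z).det = ev F.det z := by
  have h1 : (evm F z).det = (Matrix.of fun i j => ev (F i j) z).det :=
    LinearMap.det_toLpLin 2 (Matrix.of fun i j => ev (F i j) z)
  rw [h1]
  exact ((evA z hz).map_det F).symm

theorem hasFDerivAt_evv (V : Vec T) {t : ℝ} {x p : E} (hz : ((t, x, p) : Pt) ∈ Om T) :
    HasFDerivAt (fun a => evv V (t, a, p)) (evm (D0m V) (t, x, p)) x := by
  refine hasFDerivWithinAt_univ.1 (hasFDerivWithinAt_euclidean.2 fun i => ?_)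
  have hg : HasFDerivAt (fun a : E => ((t, a, p) : Pt))
      ((0 : E →L[ℝ] ℝ).prod ((ContinuousLinearMap.id ℝ E).prod (0 : E →L[ℝ] E))) x :=
    (hasFDerivAt_const t x).prodMk ((hasFDerivAt_id x).prodMk (hasFDerivAt_const p x))
  have h := (ev_diff (V i) hz).hasFDerivAt.comp x hg
  rw [fderiv_ev (V i) hz] at h
  refine HasFDerivAt.hasFDerivWithinAt (h.congr_fderiv ?_)
  refine ContinuousLinearMap.ext fun v => ?_
  have h2 : ((PiLp.proj 2 (fun _ : Fin 3 => ℝ) i).comp (evm (D0m V) (t, x, p))) v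
      = ∑ j, ev (pd (la j) (V i)) (t, x, p) * v j := evm_apply _ _ v i
  rw [h2]
  simp [Fintype.sum_option, Fintype.sum_sum_type, co]

theorem hasDerivAt_ev_t (f : A T) {t : ℝ} {y : E × E} (hz : ((t, y) : Pt) ∈ Om T) :
    HasDerivAt (fun s => ev f (s, y)) (ev (pd lt f) (t, y)) t := by
  have e : ∀ s : ℝ, ((0, y) : Pt) + s • vec lt = (s, y) := fun s => by simp [vec]
  have h := hasDerivAt_ev lt f (0, y) t (by rwa [e])
  simpa only [e] using h

theorem hasDerivAt_evv (V : Vec T) {t : ℝ} {y : E × E} (hz : ((t, y) : Pt) ∈ Om T) :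
    HasDerivAt (fun s => evv V (s, y)) (evv (dtv V) (t, y)) t := by
  have h : HasDerivAt (fun s => fun i => ev (V i) (s, y)) (fun i => ev (pd lt (V i)) (t, y)) t :=
    hasDerivAt_pi.2 fun i => hasDerivAt_ev_t (V i) hz
  exact (PiLp.hasFDerivAt_toLp (𝕜 := ℝ) 2 _).comp_hasDerivAt t h

theorem dtt_evv (V : Vec T) {t : ℝ} {x : E} (hz : ((t, x, 0) : Pt) ∈ Om T) :
    deriv (deriv fun s => evv V (s, x, 0)) t = evv (dtv (dtv V)) (t, x, 0) := by
  have h1 : (deriv fun s => evv V (s, x, 0)) =ᶠ[𝓝 t] fun s => evv (dtv V) (s, x, 0) :=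
    Filter.eventually_of_mem (Ioo_mem_nhds hz.1 hz.2.1) fun s hs =>
      (hasDerivAt_evv V (t := s) (y := (x, 0)) ⟨hs.1, hs.2, hz.2.2⟩).deriv
  rw [h1.deriv_eq]
  exact (hasDerivAt_evv (dtv V) (y := (x, 0)) hz).deriv

theorem fderiv_dtt (V : Vec T) {t : ℝ} {x : E} (hz : ((t, x, 0) : Pt) ∈ Om T) :
    fderiv ℝ (fun a => deriv (deriv fun s => evv V (s, a, 0)) t) x
      = evm (D0m (dtv (dtv V))) (t, x, 0) := by
  have h1 : (fun a => deriv (deriv fun s => evv V (s, a, 0)) t) =ᶠ[𝓝 x]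
      fun a => evv (dtv (dtv V)) (t, a, 0) :=
    Filter.eventually_of_mem (isOpen_compl_singleton.mem_nhds hz.2.2) fun a ha =>
      dtt_evv V ⟨hz.1, hz.2.1, ha⟩
  rw [h1.fderiv_eq]
  exact (hasFDerivAt_evv _ hz).fderiv

theorem contDiffOn_evv (V : Vec T) :
    ContDiffOn ℝ ∞ (fun z : ℝ × E => evv V (z.1, z.2, 0)) (Set.Ioo 0 T ×ˢ {0}ᶜ) := by
  refine contDiffOn_euclidean.2 fun i => ?_
  have hg : ContDiff ℝ ∞ fun z : ℝ × E => ((z.1, z.2, 0) : Pt) := by fun_prop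
  exact (ev_smooth (V i)).comp hg.contDiffOn fun z hz => ⟨hz.1.1, hz.1.2, hz.2⟩

theorem web_id (X R : Vec T) (h : Closed0 ((D0m X)ᵀ *ᵥ dtv X - R)) (i l : Fin 3) :
    ∑ k, (pw [la l] (X k) * pw [la i, lt, lt] (X k) - pw [la i] (X k) * pw [la l, lt, lt] (X k))
      = pw [lt, la i] (R l) - pw [lt, la l] (R i) := by
  have h1 := h i l
  have e1 : ∀ (j : Fin 3) (f : A T), pd lt (pd (la j) f) = pd (la j) (pd lt f) :=
    fun j f => pd_comm _ _ f
  have e2 : ∀ f : A T, pd (la l) (pd (la i) f) = pd (la i) (pd (la l) f) :=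
    fun f => pd_comm _ _ f
  simp only [Pi.sub_apply, Matrix.mulVec, dotProduct, Matrix.transpose_apply, D0m, Matrix.of_apply,
    dtv, map_sub, map_add, Derivation.leibniz, smul_eq_mul, Fin.sum_univ_three, e1] at h1
  simp only [pw, List.foldr, Fin.sum_univ_three, e1]
  rw [e2 (X 0), e2 (X 1), e2 (X 2), e2 (pd lt (X 0)), e2 (pd lt (X 1)), e2 (pd lt (X 2))] at h1
  linear_combination h1

theorem inner_sym (F G : Mat T) (z : Pt)
    (h : ∀ i l, ∑ k, (ev (F k l) z * ev (G k i) z - ev (F k i) z * ev (G k l) z) = 0) (v w : E) :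
    ⟪evm F z v, evm G z w⟫ = ⟪evm F z w, evm G z v⟫ := by
  simp only [PiLp.inner_apply, evm_apply, Fin.sum_univ_three, RCLike.inner_apply, conj_trivial]
  have h01 := h 0 1
  have h02 := h 0 2
  have h12 := h 1 2
  simp only [Fin.sum_univ_three] at h01 h02 h12
  linear_combination (v 1 * w 0 - v 0 * w 1) * h01 + (v 2 * w 0 - v 0 * w 2) * h02 +
    (v 2 * w 1 - v 1 * w 2) * h12

theorem norm_a0 : ‖a0‖ = 1 := by
  have h : ‖(!₂[1, 2, 3] : E)‖ = Real.sqrt 14 := by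
    rw [EuclideanSpace.norm_eq]
    congr 1
    simp [Fin.sum_univ_three]
    norm_num
  have h2 : 0 < Real.sqrt 14 := Real.sqrt_pos.2 (by norm_num)
  rw [a0, norm_smul, h, Real.norm_eq_abs, abs_of_pos (inv_pos.2 h2), inv_mul_cancel₀ h2.ne']

theorem tendsto_evm {Tm : ℕ → ℝ} (F : ∀ m, Mat (Tm m)) (G : Mat T) (z : Pt)
    (h : ∀ i j, Tendsto (fun m => ev (F m i j) z) atTop (𝓝 (ev (G i j) z))) :
    Tendsto (fun m => evm (F m) z) atTop (𝓝 (evm G z)) :=
  (continuous_Lm.tendsto _).comp (tendsto_pi_nhds.2 fun i => tendsto_pi_nhds.2 fun j => h i j)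

theorem tendsto_evv {Tm : ℕ → ℝ} (V : ∀ m, Vec (Tm m)) (W : Vec T) (z : Pt)
    (h : ∀ i, Tendsto (fun m => ev (V m i) z) atTop (𝓝 (ev (W i) z))) :
    Tendsto (fun m => evv (V m) z) atTop (𝓝 (evv W z)) :=
  ((PiLp.continuous_toLp 2 _).tendsto _).comp (tendsto_pi_nhds.2 h)

theorem continuousAt_evm (F : Mat T) {t : ℝ} {y : E × E} (hz : ((t, y) : Pt) ∈ Om T) :
    ContinuousAt (fun s => evm F (s, y)) t :=
  continuous_Lm.continuousAt.comp (continuousAt_pi.2 fun i => continuousAt_pi.2 fun j =>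
    (hasDerivAt_ev_t (F i j) hz).continuousAt)

end Pool.Agent.Lib.MP_fbbbeb_an.Cas.Lim
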