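import Mathlib
import Pool.Agent.Lib.MP_fbbbeb_an.Cas.Stmt
import Pool.Agent.Lib.MP_fbbbeb_an.Cas.LimB

/-! The limit of the approximate flow maps is an exact Lagrangian solution. -/

set_option autoImplicit false

noncomputable section

namespace Pool.Agent.Lib.MP_fbbbeb_an.Cas

open Pool.Agent.Lib.MP_fbbbeb_an.Pub
open scoped ContDiff Topology Nat RealInnerProductSpace Matrix
open Filter

namespace Lim

variable {q : SeqD}

/-- the common time of existence -/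
def TI (q : SeqD) : ℝ := ⨅ m, q.T m

theorem s_lt_T (h : q.Ok) (m n : ℕ) : q.s m < q.T n := by
  rcases le_total n (m + 1) with h1 | h1
  · exact (h.s_lt m).trans_le (h.T_anti h1)
  · obtain ⟨k, rfl⟩ : ∃ k, n = k + 1 := ⟨n - 1, by omega⟩
    exact (h.s_mono (by omega)).trans_lt (h.s_lt k)

theorem TI_le (h : q.Ok) (m : ℕ) : TI q ≤ q.T m :=
  ciInf_le ⟨q.s 0, by rintro _ ⟨n, rfl⟩; exact (s_lt_T h 0 n).le⟩ m

theorem s_le_TI (h : q.Ok) (m : ℕ) : q.s m ≤ TI q := le_ciInf fun n => (s_lt_T h m n).le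

theorem L_pos (h : q.Ok) (m : ℕ) : 0 < q.L m := one_pos.trans_le (h.L_one m)

theorem locSum_Y (h : q.Ok) (i : Fin 3) : LocSum fun n => res (TI q) (q.Y n i) := by
  intro u z hz
  set d : ℤ := 1 - (u.map dg).sum with hd
  set η : ℝ := (TI q - z.1) / 2 with hη
  have hη0 : 0 < η := by have := hz.2.1; rw [hη]; linarith
  refine ⟨fun n => ((‖z.2.1‖ ^ d + 1) * ((u.length ! : ℕ) : ℝ) ^ 2) *
    (q.L n ^ (u.length + 1) * Real.exp (-(q.lam n * η))),
    (h.sum_L (u.length + 1) η hη0).mul_left _, ?_⟩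
  have h1 : ∀ᶠ y in 𝓝 z, y ∈ Om (TI q) := (isOpen_Om _).mem_nhds hz
  have h2 : ∀ᶠ y : Pt in 𝓝 z, y.1 < TI q - η :=
    continuous_fst.continuousAt.eventually_lt continuousAt_const
      (by have := hz.2.1; rw [hη]; linarith)
  have h3 : ∀ᶠ y : Pt in 𝓝 z, ‖y.2.1‖ ^ d < ‖z.2.1‖ ^ d + 1 := by
    have hc : ContinuousAt (fun y : Pt => ‖y.2.1‖ ^ d) z :=
      ContinuousAt.zpow₀ (by fun_prop) d (Or.inl (norm_ne_zero_iff.2 hz.2.2))
    exact hc.eventually_lt continuousAt_const (lt_add_one _)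
  filter_upwards [h1, h2, h3] with y hy hy2 hy3 n
  have hT := TI_le h (n + 1)
  rw [ev_pw_res hT _ u hy]
  refine (abs_pw_le (L_pos h n) (h.Y_bd n i) u (Om_mono hT hy)).trans ?_
  have hL := L_pos h n
  have he : Real.exp (-(q.lam n * (q.T (n + 1) - y.1))) ≤ Real.exp (-(q.lam n * η)) :=
    Real.exp_le_exp.2 (neg_le_neg (mul_le_mul_of_nonneg_left (by linarith) (h.lam_pos n)))
  calc ‖y.2.1‖ ^ d * (q.L n ^ u.length * (q.L n * Real.exp (-(q.lam n * (q.T (n + 1) - y.1)))) *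
        ((u.length ! : ℕ) : ℝ) ^ 2)
      ≤ (‖z.2.1‖ ^ d + 1) * (q.L n ^ u.length * (q.L n * Real.exp (-(q.lam n * η))) *
        ((u.length ! : ℕ) : ℝ) ^ 2) := by
        have : 0 ≤ ‖z.2.1‖ ^ d + 1 := by positivity
        gcongr
    _ = _ := by ring

/-- the limit -/
def XI (q : SeqD) : Vec (TI q) := fun i =>
  res (TI q) (q.X 0 i) + sumA fun n => res (TI q) (q.Y n i)

theorem res_X (h : q.Ok) (i : Fin 3) (m : ℕ) : res (TI q) (q.X m i) =
    res (TI q) (q.X 0 i) + ∑ n ∈ Finset.range m, res (TI q) (q.Y n i) := by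
  induction m with
  | zero => simp
  | succ m ih =>
    rw [Finset.sum_range_succ, ← add_assoc, ← ih]
    refine A_ext fun z hz => ?_
    rw [ev_add, ev_res (TI_le h _) _ hz, ev_res (TI_le h _) _ hz, ev_res (TI_le h _) _ hz,
      h.Y_eq m i z (Om_mono (TI_le h _) hz)]
    ring

theorem conv (h : q.Ok) (i : Fin 3) (u : List Let) {z : Pt} (hz : z ∈ Om (TI q)) :
    Tendsto (fun m => ev (pw u (q.X m i)) z) atTop (𝓝 (ev (pw u (XI q i)) z)) := by
  have h1 : ∀ m, ev (pw u (q.X m i)) z = ev (pw u (res (TI q) (q.X 0 i))) z +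
      ∑ n ∈ Finset.range m, ev (pw u (res (TI q) (q.Y n i))) z := fun m => by
    rw [← ev_pw_res (TI_le h m) _ u hz, res_X h i m, pw_add, pw_sum, ev_add, ev_sum]
  simp only [h1]
  rw [XI, pw_add, ev_add, pw_sumA (locSum_Y h i), ev_sumA ((locSum_Y h i).pw u) hz]
  exact tendsto_const_nhds.add (((locSum_Y h i).pw u).summable hz).hasSum.tendsto_sum_nat

theorem res_zero (h : q.Ok) (R : ∀ m, A (q.T m))
    (hR : ∀ m, GB 1 (fun _ => (q.L m)⁻¹) w1 (q.L m * Real.exp (-q.lam m)) (R m)) (u : List Let)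
    {z : Pt} (hz : z ∈ Om (TI q)) : Tendsto (fun m => ev (pw u (R m)) z) atTop (𝓝 0) := by
  have h1 := ((h.sum_L (u.length + 1) 1 one_pos).mul_left
    (‖z.2.1‖ ^ (1 - (u.map dg).sum) * ((u.length ! : ℕ) : ℝ) ^ 2)).tendsto_atTop_zero
  refine squeeze_zero_norm (fun m => ?_) h1
  refine (abs_pw_le (L_pos h m) (hR m) u (Om_mono (TI_le h m) hz)).trans (le_of_eq ?_)
  simp only [w1, mul_one]
  ring

theorem conv_evm (h : q.Ok) {z : Pt} (hz : z ∈ Om (TI q)) :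
    Tendsto (fun m => evm (D0m (q.X m)) z) atTop (𝓝 (evm (D0m (XI q)) z)) :=
  tendsto_evm (fun m => D0m (q.X m)) _ z fun i j => conv h i [la j] hz

theorem conv_evv (h : q.Ok) {z : Pt} (hz : z ∈ Om (TI q)) :
    Tendsto (fun m => evv (q.X m) z) atTop (𝓝 (evv (XI q) z)) :=
  tendsto_evv q.X _ z fun i => conv h i [] hz

theorem det_XI (h : q.Ok) {z : Pt} (hz : z ∈ Om (TI q)) : (evm (D0m (XI q)) z).det = 1 := by
  have h1 : Tendsto (fun m => (evm (D0m (q.X m)) z).det) atTop (𝓝 (evm (D0m (XI q)) z).det) :=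
    (ContinuousLinearMap.continuous_det.tendsto _).comp (conv_evm h hz)
  have h2 : ∀ m, (evm (D0m (q.X m)) z).det = 1 + ∑ i, ev (pw [la i] (q.R2 m i)) z := fun m => by
    have hz' := Om_mono (TI_le h m) hz
    have h3 := congrArg (fun f => ev f z) (h.det_eq m)
    simp only [ev_sub, ev_one hz', dv0, ev_sum] at h3
    rw [det_evm _ hz']
    exact (sub_eq_iff_eq_add'.1 h3)
  have h3 : Tendsto (fun m => 1 + ∑ i, ev (pw [la i] (q.R2 m i)) z) atTop (𝓝 (1 + ∑ _i : Fin 3, 0)) :=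
    tendsto_const_nhds.add (tendsto_finset_sum _ fun i _ =>
      res_zero h (fun m => q.R2 m i) (fun m => h.R2_bd m i) _ hz)
  simp only [h2] at h1
  simpa using tendsto_nhds_unique h1 h3

theorem sym_XI (h : q.Ok) {z : Pt} (hz : z ∈ Om (TI q)) (i l : Fin 3) :
    ∑ k, (ev (D0m (XI q) k l) z * ev (D0m (dtv (dtv (XI q))) k i) z -
      ev (D0m (XI q) k i) z * ev (D0m (dtv (dtv (XI q))) k l) z) = 0 := by
  have h1 : Tendsto (fun m => ∑ k, (ev (pw [la l] (q.X m k)) z * ev (pw [la i, lt, lt] (q.X m k)) z -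
      ev (pw [la i] (q.X m k)) z * ev (pw [la l, lt, lt] (q.X m k)) z)) atTop
      (𝓝 (∑ k, (ev (pw [la l] (XI q k)) z * ev (pw [la i, lt, lt] (XI q k)) z -
        ev (pw [la i] (XI q k)) z * ev (pw [la l, lt, lt] (XI q k)) z))) :=
    tendsto_finset_sum _ fun k _ =>
      ((conv h k _ hz).mul (conv h k _ hz)).sub ((conv h k _ hz).mul (conv h k _ hz))
  have h2 : ∀ m, ∑ k, (ev (pw [la l] (q.X m k)) z * ev (pw [la i, lt, lt] (q.X m k)) z -
      ev (pw [la i] (q.X m k)) z * ev (pw [la l, lt, lt] (q.X m k)) z) =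
      ev (pw [lt, la i] (q.R1 m l)) z - ev (pw [lt, la l] (q.R1 m i)) z := fun m => by
    have h3 := congrArg (fun f => ev f z) (web_id _ _ (h.web_eq m) i l)
    simpa only [ev_sum, ev_sub, ev_mul] using h3
  have h3 := (res_zero h (fun m => q.R1 m l) (fun m => h.R1_bd m l) [lt, la i] hz).sub
    (res_zero h (fun m => q.R1 m i) (fun m => h.R1_bd m i) [lt, la l] hz)
  simp only [h2] at h1
  rw [sub_zero] at h3
  exact tendsto_nhds_unique h1 h3

theorem cz_mem {T t : ℝ} (h0 : 0 < t) (h1 : t < T) : cz t ∈ Sp T := ⟨h0, h1, norm_a0⟩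

theorem evm_step (h : q.Ok) (n : ℕ) {z : Pt} (hz : z ∈ Om (TI q)) :
    evm (D0m (q.X (n + 1))) z = evm (D0m (q.X n)) z + evm (D0m (q.Y n)) z := by
  rw [evm_eq, evm_eq, evm_eq, ← map_add]
  congr 1
  funext i j
  have h1 : res (TI q) (q.X (n + 1) i) = res (TI q) (q.X n i) + res (TI q) (q.Y n i) := by
    rw [res_X h i (n + 1), res_X h i n, Finset.sum_range_succ, add_assoc]
  have h2 := congrArg (fun f => ev (pw [la j] f) z) h1
  simp only [pw_add, ev_add, ev_pw_res (TI_le h _) _ _ hz] at h2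
  exact h2

theorem tail_le (h : q.Ok) (m : ℕ) {z : Pt} (hz : z ∈ Sp (TI q)) (hs : z.1 ≤ q.s m) :
    ‖evm (D0m (XI q)) z - evm (D0m (q.X m)) z‖ ≤ ∑' n, |q.b n| := by
  have hz' := Sp_sub _ hz
  have h1 : ∀ k, ‖evm (D0m (q.X (k + m))) z - evm (D0m (q.X m)) z‖ ≤
      ∑ n ∈ Finset.range (k + m), |q.b n| := by
    intro k
    induction k with
    | zero =>
      rw [Nat.zero_add, sub_self, norm_zero]
      exact Finset.sum_nonneg fun n _ => abs_nonneg (q.b n)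
    | succ k ih =>
      rw [show k + 1 + m = k + m + 1 by ring, evm_step h _ hz', Finset.sum_range_succ,
        add_sub_right_comm]
      refine (norm_add_le _ _).trans (add_le_add ih ?_)
      exact (h.Y_one _ z ⟨hz.1, hz.2.1.trans_le (TI_le h _), hz.2.2⟩
        (hs.trans (h.s_mono (by omega)))).trans (le_abs_self _)
  have h2 : Tendsto (fun k => ‖evm (D0m (q.X (k + m))) z - evm (D0m (q.X m)) z‖) atTop
      (𝓝 ‖evm (D0m (XI q)) z - evm (D0m (q.X m)) z‖) :=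
    (((conv_evm h hz').comp (tendsto_add_atTop_nat m)).sub tendsto_const_nhds).norm
  exact le_of_tendsto' h2 fun k =>
    (h1 k).trans (h.sum_b.abs.sum_le_tsum _ fun n _ => abs_nonneg _)

theorem big_XI (h : q.Ok) (C : ℝ) :
    ∃ t ∈ Set.Ico q.t00 (TI q), C < ‖evm (D0m (XI q)) (cz t)‖ := by
  obtain ⟨m0, hm0⟩ := exists_nat_gt (C + ∑' n, |q.b n|)
  have hs : q.t00 < q.s (m0 + 1) :=
    h.t_le.trans_lt (h.s_strict.trans_le (h.s_mono (by omega)))
  have hc : ContinuousAt (fun s => ‖evm (D0m (q.X (m0 + 1))) (cz s)‖) (q.s (m0 + 1)) :=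
    (continuousAt_evm (D0m (q.X (m0 + 1))) (y := (a0, 0))
      (Sp_sub _ (cz_mem (h.t_pos.trans hs) (s_lt_T h _ _)))).norm
  have h1 : ∀ᶠ s in 𝓝 (q.s (m0 + 1)), (m0 : ℝ) < ‖evm (D0m (q.X (m0 + 1))) (cz s)‖ :=
    continuousAt_const.eventually_lt hc
      (lt_of_lt_of_le (by push_cast; linarith) (h.big (m0 + 1)))
  have h2 : ∀ᶠ s in 𝓝[<] (q.s (m0 + 1)), s ∈ Set.Ioo q.t00 (q.s (m0 + 1)) := Ioo_mem_nhdsLT hs
  obtain ⟨t, ht1, ht2⟩ := ((h1.filter_mono nhdsWithin_le_nhds).and h2).exists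
  have ht3 : t < TI q := ht2.2.trans_le (s_le_TI h _)
  refine ⟨t, ⟨ht2.1.le, ht3⟩, ?_⟩
  have h3 := tail_le h (m0 + 1) (cz_mem (h.t_pos.trans ht2.1) ht3) ht2.2.le
  have h4 := norm_sub_norm_le (evm (D0m (q.X (m0 + 1))) (cz t)) (evm (D0m (XI q)) (cz t))
  rw [norm_sub_rev] at h4
  linarith

end Lim

open Lim in
theorem limSt : LimSt := by
  intro q h
  have ht : q.t00 < TI q := h.t_le.trans_lt (h.s_strict.trans_le (s_le_TI h 1))
  refine ⟨TI q, q.t00, fun t a => evv (XI q) (t, a, 0), ⟨h.t_pos, ht⟩, contDiffOn_evv _, ?_, ?_, ?_,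
    ?_, ?_, ?_⟩
  · intro t ht x hx s hs
    have h1 := conv_evv h (z := (t, s • x, 0)) ⟨ht.1, ht.2, smul_ne_zero hs.ne' hx⟩
    have h2 := (conv_evv h (z := (t, x, 0)) ⟨ht.1, ht.2, hx⟩).const_smul s
    refine tendsto_nhds_unique h1 (h2.congr fun m => ?_)
    ext i
    have h3 := h.X_hom m i (t, x, 0) s hs
    rw [zpow_one] at h3
    exact h3.symm
  · intro t ht x hx g hg
    have h1 := conv_evv h (z := (t, g x, 0)) ⟨ht.1, ht.2, fun h0 => hx (g.map_eq_zero_iff.1 h0)⟩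
    have h2 := (g.continuous.tendsto _).comp (conv_evv h (z := (t, x, 0)) ⟨ht.1, ht.2, hx⟩)
    exact tendsto_nhds_unique h1 (h2.congr fun m => (h.X_eqv m g hg (t, x, 0)).symm)
  · intro t ht x hx
    have hz : ((t, x, 0) : Pt) ∈ Om (TI q) := ⟨ht.1, ht.2, hx⟩
    rw [(hasFDerivAt_evv _ hz).fderiv]
    exact det_XI h hz
  · intro t ht x hx v w
    have hz : ((t, x, 0) : Pt) ∈ Om (TI q) := ⟨ht.1, ht.2, hx⟩
    have h1 : fderiv ℝ (dtt (fun t a => evv (XI q) (t, a, 0)) t) x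
        = evm (D0m (dtv (dtv (XI q)))) (t, x, 0) := fderiv_dtt _ hz
    rw [(hasFDerivAt_evv _ hz).fderiv, h1]
    exact inner_sym _ _ _ (sym_XI h hz) v w
  · intro x hx
    have hz : ((q.t00, x, 0) : Pt) ∈ Sp (TI q) := ⟨h.t_pos, ht, hx⟩
    rw [(hasFDerivAt_evv _ (Sp_sub _ hz)).fderiv]
    exact le_of_tendsto' ((conv_evm h (Sp_sub _ hz)).sub tendsto_const_nhds).norm fun m =>
      h.small m _ ⟨hz.1, ht.trans_le (TI_le h m), hx⟩ le_rfl
  · intro C
    obtain ⟨t, ht1, ht2⟩ := big_XI h C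
    refine ⟨t, ht1, ?_⟩
    have hz : ((t, a0, 0) : Pt) ∈ Om (TI q) :=
      Sp_sub _ (cz_mem (h.t_pos.trans_le ht1.1) ht1.2)
    rw [(hasFDerivAt_evv _ hz).fderiv]
    exact ht2

end Pool.Agent.Lib.MP_fbbbeb_an.Cas
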