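import Mathlib
import Pool.Agent.Lib.MP_fbbbeb_an.Cas.Adm
import Pool.Agent.Lib.MP_fbbbeb_an.Cas.Lag
import Pool.Agent.Lib.MP_fbbbeb_an.Cas.Lim

set_option autoImplicit false

noncomputable section

namespace Pool.Agent.Lib.MP_fbbbeb_an.Cas

open Pool.Agent.Lib.MP_fbbbeb_an.Pub Set

/-- the final statement with the scaled bounds on all derivatives of the gradient, the scaling and
symmetry of the pressure, and unboundedness of the gradient near the final time -/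
theorem finalPlus (hS : SeqSt) : ∃ M : Set (E ≃ₗᵢ[ℝ] E), Admissible M ∧ ∃ T : ℝ, 0 < T ∧
    ∃ (u : ℝ → E → E) (p : ℝ → E → ℝ), IsSol M (Ico 0 T) u p ∧
      (∀ t ∈ Ico 0 T, ∀ x : E, x ≠ 0 →
        (∀ l : ℝ, 0 < l → p t (l • x) = l ^ 2 * p t x) ∧ ∀ O ∈ M, p t (O x) = p t x) ∧
      (∀ t ∈ Ico 0 T, ∀ k : ℕ, ∃ C : ℝ, ∀ x : E, x ≠ 0 →
        ‖x‖ ^ k * ‖iteratedFDeriv ℝ k (fderiv ℝ (u t)) x‖ ≤ C) ∧
      ∫⁻ t in Ioo 0 T, ⨆ x : {x : E // x ≠ 0}, ‖fderiv ℝ (u t) x‖ₑ = ⊤ ∧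
      (∀ s ∈ Ico 0 T, ∀ C : ℝ, ∃ t ∈ Ioo s T, ∃ x : E, x ≠ 0 ∧ C < ‖fderiv ℝ (u t) x‖) ∧
      ¬ ∃ (T' : ℝ) (U : ℝ → E → E) (P : ℝ → E → ℝ), T < T' ∧ IsSol M (Ioo 0 T') U P ∧
        ∀ t ∈ Ioo 0 T, ∀ x : E, x ≠ 0 → U t x = u t x := by
  obtain ⟨q, hq⟩ := hS
  obtain ⟨T, t0, X, hX⟩ := limSt q hq
  obtain ⟨u, p, hu, hp, hL⟩ := lagPlus T t0 X hX
  obtain ⟨h1, h2, h3, h4, h5⟩ := Lag.finish hX.t_mem hu hL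
  exact ⟨_, admSt, T - t0, sub_pos.2 hX.t_mem.2, _, _, h1, fun t ht =>
    hp (t + t0) ⟨by linarith [ht.1, hX.t_mem.1], by linarith [ht.2]⟩, h2, h3, h4, h5⟩

theorem finalSt (hS : SeqSt) : FinalSt :=
  let ⟨M, hM, T, hT, u, p, h1, _, _, h2, _, h3⟩ := finalPlus hS
  ⟨M, hM, T, hT, u, p, h1, h2, h3⟩

end Pool.Agent.Lib.MP_fbbbeb_an.Cas
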