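import Mathlib
import Pool.Agent.Lib.MP_fbbbeb_an.Cas.AllE
import Pool.Agent.Lib.MP_fbbbeb_an.Cas.Final
import Pool.Agent.Lib.MP_fbbbeb_an.D.All

/-! All parts together. -/

set_option autoImplicit false

namespace Pool.Agent.Lib.MP_fbbbeb_an.Cas

theorem seqSt0 : SeqSt := seq_of_ode D.odeSt0

end Pool.Agent.Lib.MP_fbbbeb_an.Cas
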