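import Mathlib
import Pool.Agent.Lib.MP_fbbbeb_an.Cas.Gev
import Pool.Agent.Lib.MP_fbbbeb_an.Cas.EvG
import Pool.Agent.Lib.MP_fbbbeb_an.Cas.TypA1
import Pool.Agent.Lib.MP_fbbbeb_an.B.Defs

/-! The coefficients of the base equation: size, symmetry, level, inverse metric. -/

set_option autoImplicit false

noncomputable section

namespace Pool.Agent.Lib.MP_fbbbeb_an.Cas.Bs

open Pool.Agent.Lib.MP_fbbbeb_an.Pub
open scoped ContDiff Topology RealInnerProductSpace Matrix Nat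

variable {T : ℝ}

/-- the zero order coefficient of the base equation -/
def bm (F : Mat T) (Ji : A T) : Mat T := Ji • Bf F + (Ji * Ji * pd lt F.det) • gm F

theorem bb_det (F : Mat T) : pd lt F.det =
    tp (dtm F 0) (F 1) (F 2) + tp (F 0) (dtm F 1) (F 2) + tp (F 0) (F 1) (dtm F 2) := by
  simp only [Matrix.det_fin_three, map_add, map_sub, Derivation.leibniz, smul_eq_mul, tp,
    cross_apply, dotProduct, Fin.sum_univ_three, dtm, Matrix.of_apply, Matrix.cons_val_zero,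
    Matrix.cons_val_one, Matrix.cons_val]
  ring

section
variable {r : Let → ℝ} {M M' M'' : ℝ}

theorem bb_mul (hr : ∀ i, 0 ≤ r i) {F G : Mat T} (h : GBm 0 r w1 M F) (h' : GBm 0 r w1 M' G) :
    GBm 0 r w1 (9 * (M * M')) (F * G) := by
  simpa only [w1_mul, add_zero] using h.mul hr h'

theorem bb_smul (hr : ∀ i, 0 ≤ r i) {f : A T} {G : Mat T} (h : GB 0 r w1 M f)
    (h' : GBm 0 r w1 M' G) : GBm 0 r w1 (3 * (M * M')) (f • G) := by
  simpa only [w1_mul, add_zero] using h.smulm hr h'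

theorem bb_mul1 (hr : ∀ i, 0 ≤ r i) {f g : A T} (h : GB 0 r w1 M f) (h' : GB 0 r w1 M' g) :
    GB 0 r w1 (3 * (M * M')) (f * g) := by
  simpa only [add_zero] using h.mul1 hr h'

theorem bb_tp (hr : ∀ i, 0 ≤ r i) {U V Z : Vec T} (h : GBv 0 r w1 M U) (h' : GBv 0 r w1 M' V)
    (h'' : GBv 0 r w1 M'' Z) : GB 0 r w1 (54 * (M * M' * M'')) (tp U V Z) :=
  ((h.trip hr h' h'').cast (by simp)).monoW fun _ _ => le_of_eq (by simp [w1])

end

theorem bm_bd : ∃ C : ℕ, ∀ (T : ℝ) (F : Mat T) (Ji : A T) (K : ℝ) (r : Let → ℝ), 2 ≤ K → (∀ i, 0 ≤ r i) →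
    GBm 0 r w1 K F → GBm 0 r w1 K (dtm F) → GB 0 r w1 K Ji → GBm 0 r w1 (K ^ C) (bm F Ji) := by
  refine ⟨23, fun T F Ji K r hK hr hF hD hJ => ?_⟩
  have h1 := bb_smul hr hJ ((bb_mul hr hD.transpose hF).sub hr (bb_mul hr hF.transpose hD))
  have h2 := ((bb_tp hr (hD 0) (hF 1) (hF 2)).add hr (bb_tp hr (hF 0) (hD 1) (hF 2))).add hr
    (bb_tp hr (hF 0) (hF 1) (hD 2))
  rw [← bb_det] at h2
  have h3 := bb_smul hr (bb_mul1 hr (bb_mul1 hr hJ hJ) h2) (bb_mul hr hF.transpose hF)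
  intro i j
  refine ((h1.add hr h3) i j).mono1 ?_
  have a : (2 : ℝ) ^ 16 ≤ K ^ 16 := pow_le_pow_left₀ zero_le_two hK 16
  have b : K ^ 3 ≤ K ^ 7 := pow_le_pow_right₀ (by linarith) (by norm_num)
  have c : 0 ≤ K ^ 7 := by positivity
  have e : K ^ 23 = K ^ 16 * K ^ 7 := by ring
  have := mul_le_mul_of_nonneg_right a c
  rw [e]
  nlinarith

theorem bm_eqv {F : Mat T} {Ji : A T} (h : EqvM F) (hJ : Ji * F.det = 1) : EqvM (bm F Ji) :=
  have hi : InvG Ji := h.det.of_mul_eq_one hJ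
  (h.Bf.smulA hi).add (h.gm.smulA ((hi.mul hi).mul h.det.pd_t))

theorem bm_in {F : Mat T} {Ji : A T} (h : ∀ i j, In 0 (F i j)) (hJ : Ji * F.det = 1) (i j : Fin 3) :
    In 0 (bm F Ji i j) := by
  have hd : In 0 F.det := In.det h
  have hi : In 0 Ji := hd.of_mul_eq_one hJ
  have ht : ∀ a b, In 0 (dtm F a b) := fun a b => (h a b).pd lt
  have hm : ∀ {P Q : Mat T}, (∀ a b, In 0 (P a b)) → (∀ a b, In 0 (Q a b)) →
      In 0 ((Pᵀ * Q) i j) := fun hP hQ => In.sum _ fun a _ => (hP a i).mul (hQ a j)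
  exact (hi.mul ((hm ht h).sub (hm h ht))).add (((hi.mul hi).mul (hd.pd lt)).mul (hm h h))

theorem gm_ah {F : Mat T} {Ji : A T} (hJ : Ji * F.det = 1) :
    (Ji • gm F) * (Ji • (F.adjugate * F.adjugateᵀ)) = 1 := by
  have e : Fᵀ * F * (F.adjugate * F.adjugateᵀ) = (F.det * F.det) • (1 : Mat T) := by
    rw [Matrix.mul_assoc, ← Matrix.mul_assoc F, Matrix.mul_adjugate, Matrix.smul_mul,
      Matrix.one_mul, Matrix.mul_smul, Matrix.adjugate_transpose, Matrix.mul_adjugate,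
      Matrix.det_transpose, smul_smul]
  rw [gm, Matrix.smul_mul, Matrix.mul_smul, e, smul_smul, smul_smul]
  have : Ji * Ji * (F.det * F.det) = 1 := by linear_combination (Ji * F.det + 1) * hJ
  rw [this, one_smul]

theorem sym_Gp : B.Sym (Gp : Set (E ≃ₗᵢ[ℝ] E)) := by
  refine ⟨fun i => ?_, ?_⟩
  · obtain ⟨g, hg, h⟩ := exists_Gp 0 (fun j => if j = i then -1 else 1) fun j => by
      by_cases hj : j = i <;> simp [hj]
    refine ⟨g, hg, fun y j => ?_⟩
    rw [h]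
    by_cases hj : j = i <;> simp [hj]
  · obtain ⟨g, hg, h⟩ := exists_Gp 1 (fun _ => 1) fun _ => Or.inl rfl
    exact ⟨g, hg, fun y j => by rw [h, one_mul]⟩

end Pool.Agent.Lib.MP_fbbbeb_an.Cas.Bs
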