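import Pool.Agent.Lib.MP_fbbbeb_an.Cas.Ev
import Pool.Agent.Lib.MP_fbbbeb_an.Cas.Gev
import Pool.Agent.Lib.MP_fbbbeb_an.Cas.EnvA
import Pool.Agent.Lib.MP_fbbbeb_an.Cas.Stmt
import Pool.Agent.Lib.MP_fbbbeb_an.B.Defs

/-! Interface between the algebra `A T` and section B: restriction to phase zero and lift. -/

set_option autoImplicit false

noncomputable section

namespace Pool.Agent.Lib.MP_fbbbeb_an.Cas.Bs

open Pool.Agent.Lib.MP_fbbbeb_an.Pub
open scoped ContDiff Topology RealInnerProductSpace Matrix Nat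

variable {T : ℝ}

/-- restriction to phase zero -/
def res (f : A T) : B.Y → ℝ := fun y => ev f (y.1, y.2, 0)

/-- the phase independent element given by a function of `(t, a)` -/
def lift (T : ℝ) (g : B.Y → ℝ) : A T := mkA T fun z => g (z.1, z.2.1)

/-- letters of section B -/
def emb : B.L → Let
  | none => lt
  | some i => la i

variable {d : ℤ} {f : A T} {g : B.Y → ℝ} {r : Let → ℝ} {w : ℝ → ℝ} {M : ℝ}

theorem mem_Om {y : B.Y} : ((y.1, y.2, 0) : Pt) ∈ Om T ↔ y ∈ B.Om T := by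
  simp [Om, B.Om, and_assoc]

theorem mem_Om' {z : Pt} : ((z.1, z.2.1) : B.Y) ∈ B.Om T ↔ z ∈ Om T := by
  simp [Om, B.Om, and_assoc]

theorem bOm_open (T : ℝ) : IsOpen (B.Om T) := isOpen_Ioo.prod isOpen_compl_singleton

/-- the inclusion at phase zero -/
def inc : B.Y →L[ℝ] Pt :=
  (ContinuousLinearMap.fst ℝ ℝ E).prod ((ContinuousLinearMap.snd ℝ ℝ E).prod 0)

theorem inc_apply (y : B.Y) : inc y = (y.1, y.2, 0) := rfl

theorem inc_dir (i : B.L) : inc (B.dir i) = vec (emb i) := by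
  cases i <;> rfl

theorem res_smooth (f : A T) : ContDiffOn ℝ ∞ (res f) (B.Om T) :=
  (ev_smooth f).comp inc.contDiff.contDiffOn fun _ hy => mem_Om.2 hy

theorem res_ht (h : Hom d f) : B.Ht T d (res f) :=
  ⟨res_smooth f, fun t _ l hl a _ => h (t, a, 0) l hl⟩

theorem dd_res (f : A T) (i : B.L) {y : B.Y} (hy : y ∈ B.Om T) :
    B.dd i (res f) y = res (pd (emb i) f) y := by
  have hz : inc y ∈ Om T := mem_Om.2 hy
  have h := ((ev_diff f hz).hasFDerivAt.comp y inc.hasFDerivAt).fderiv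
  show fderiv ℝ (ev f ∘ inc) y (B.dir i) = ev (pd (emb i) f) (inc y)
  rw [h, ev_pd _ f hz, ← inc_dir]
  rfl

theorem dd_congr {g g' : B.Y → ℝ} (e : ∀ y ∈ B.Om T, g y = g' y) (i : B.L) {y : B.Y}
    (hy : y ∈ B.Om T) : B.dd i g y = B.dd i g' y := by
  have h : g =ᶠ[𝓝 y] g' := Filter.eventually_of_mem ((bOm_open T).mem_nhds hy) e
  unfold B.dd
  rw [h.fderiv_eq]

theorem dw_congr {g g' : B.Y → ℝ} (e : ∀ y ∈ B.Om T, g y = g' y) (u : List B.L) :
    ∀ y ∈ B.Om T, B.dw u g y = B.dw u g' y := by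
  induction u with
  | nil => exact e
  | cons i u ih => exact fun y hy => dd_congr ih i hy

theorem dw_res (f : A T) (u : List B.L) {y : B.Y} (hy : y ∈ B.Om T) :
    B.dw u (res f) y = res (pw (u.map emb) f) y := by
  induction u generalizing y with
  | nil => rfl
  | cons i u ih =>
    have h : B.dw (i :: u) (res f) y = B.dd i (res (pw (u.map emb) f)) y :=
      dd_congr (fun y hy => ih hy) i hy
    rw [h, dd_res _ i hy]
    rfl

theorem rad_eq (r : Let → ℝ) (u : List B.L) :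
    B.rad (fun i => r (emb i)) u = rpr r (u.map emb) := by
  simp [B.rad, rpr, List.map_map, Function.comp_def]

theorem gs_of_gb (h : GB d r w M f) : B.GS T (fun i => r (emb i)) w M (res f) := by
  intro u t ht a ha
  have hz : ((t, a, 0) : Pt) ∈ Sp T := ⟨ht.1, ht.2, ha⟩
  have hy : ((t, a) : B.Y) ∈ B.Om T := mem_Om.1 (Sp_sub T hz)
  have := h.2 _ hz (u.map emb)
  rw [dw_res f u hy, rad_eq]
  simpa [res] using this

theorem ev_in (hi : In 0 f) (z : Pt) : ev f z = res f (z.1, z.2.1) := by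
  have e : z = ((z.1, z.2.1, 0) : Pt) + z.2.2 0 • vec (lp 0) + z.2.2 1 • vec (lp 1) +
      z.2.2 2 • vec (lp 2) := by
    refine Prod.ext (by simp [vec]) (Prod.ext (by simp [vec]) ?_)
    ext i
    fin_cases i <;> simp [vec]
  conv_lhs => rw [e]
  rw [En.ev_shift_of_pd (hi 2 (Fin.zero_le _)), En.ev_shift_of_pd (hi 1 (Fin.zero_le _)),
    En.ev_shift_of_pd (hi 0 (Fin.zero_le _))]
  rfl

theorem in_pw (hi : In 0 f) (u : List Let) : In 0 (pw u f) := by
  intro j hj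
  rw [← pw_pd, hi j hj]
  simp

theorem word_cases (u : List Let) : (∃ j, lp j ∈ u) ∨ ∃ v : List B.L, u = v.map emb := by
  induction u with
  | nil => exact Or.inr ⟨[], rfl⟩
  | cons i u ih =>
    rcases ih with ⟨j, hj⟩ | ⟨v, rfl⟩
    · exact Or.inl ⟨j, List.mem_cons_of_mem _ hj⟩
    · rcases i with _ | i | j
      · exact Or.inr ⟨none :: v, rfl⟩
      · exact Or.inr ⟨some i :: v, rfl⟩
      · exact Or.inl ⟨j, List.mem_cons_self⟩

theorem gb_of_gs (hi : In 0 f) (h : Hom d f) (hg : B.GS T (fun i => r (emb i)) w M (res f)) :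
    GB d r w M f := by
  refine ⟨h, fun z hz u => ?_⟩
  have ht : z.1 ∈ Set.Ioo 0 T := ⟨hz.1, hz.2.1⟩
  have hy : ((z.1, z.2.1) : B.Y) ∈ B.Om T := mem_Om'.2 (Sp_sub T hz)
  rcases word_cases u with ⟨j, hj⟩ | ⟨v, rfl⟩
  · have h0 := hg [] z.1 ht z.2.1 hz.2.2
    have h1 : 0 ≤ M * w z.1 := by
      have : |B.dw [] (res f) (z.1, z.2.1)| ≤ M * w z.1 := by simpa [B.rad] using h0
      exact (abs_nonneg _).trans this
    rw [pw_eq_zero_of_mem hj (hi j (Fin.zero_le _)), ev_zero, abs_zero, zero_mul]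
    positivity
  · have h0 := hg v z.1 ht z.2.1 hz.2.2
    rw [dw_res f v hy, rad_eq] at h0
    rw [ev_in (in_pw hi _) z]
    simpa using h0

theorem good_lift (h : B.Ht T d g) : Good T fun z => g (z.1, z.2.1) := by
  refine ⟨h.sm.comp (f := fun z : Pt => ((z.1, z.2.1) : B.Y)) (by fun_prop)
    fun z hz => mem_Om'.2 hz, fun j z _ => ?_⟩
  simp [vec]

theorem ev_lift (h : B.Ht T d g) {z : Pt} (hz : z ∈ Om T) : ev (lift T g) z = g (z.1, z.2.1) :=
  ev_mkA (good_lift h) hz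

theorem res_lift (h : B.Ht T d g) {y : B.Y} (hy : y ∈ B.Om T) : res (lift T g) y = g y :=
  ev_lift h (mem_Om.2 hy)

theorem in_lift (h : B.Ht T d g) : In 0 (lift T g) := by
  intro j _
  refine A_ext fun z hz => ?_
  have h1 := En.hasDerivAt_zero (lp j) (lift T g) hz
  have h2 : (fun x : ℝ => ev (lift T g) (z + x • vec (lp j))) = fun _ => g (z.1, z.2.1) := by
    funext x
    rw [ev_lift h ((Om_shift z x j).2 hz)]
    simp [vec]
  rw [h2] at h1
  rw [ev_zero]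
  exact h1.unique (hasDerivAt_const _ _)

theorem hom_lift (h : B.Ht T d g) : Hom d (lift T g) := by
  refine Hom.of_in fun z hz s hs => ?_
  rw [ev_lift h hz, ev_lift h ((Om_scale z hs).2 hz)]
  exact h.hom z.1 ⟨hz.1, hz.2.1⟩ s hs z.2.1 hz.2.2

theorem gb_lift (h : B.Ht T d g) (hg : B.GS T (fun i => r (emb i)) w M g) :
    GB d r w M (lift T g) := by
  refine gb_of_gs (in_lift h) (hom_lift h) fun u t ht a ha => ?_
  have hy : ((t, a) : B.Y) ∈ B.Om T :=
    mem_Om.1 (Sp_sub T (show ((t, a, 0) : Pt) ∈ Sp T from ⟨ht.1, ht.2, ha⟩))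
  rw [dw_congr (fun y hy => res_lift h hy) u _ hy]
  exact hg u t ht a ha

theorem res_pd_lift (h : B.Ht T d g) (i : B.L) {y : B.Y} (hy : y ∈ B.Om T) :
    res (pd (emb i) (lift T g)) y = B.dd i g y := by
  rw [← dd_res _ i hy]
  exact dd_congr (fun y hy => res_lift h hy) i hy

theorem ext_res {f f' : A T} (h : In 0 f) (h' : In 0 f') (e : ∀ y ∈ B.Om T, res f y = res f' y) :
    f = f' :=
  A_ext fun z hz => by rw [ev_in h, ev_in h', e _ (mem_Om'.2 hz)]

theorem eqv_res {V : Vec T} (h : Eqv V) (t : ℝ) :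
    B.Eqv (Gp : Set (E ≃ₗᵢ[ℝ] E)) fun i => B.sl (res (V i)) t := by
  intro O hO x _
  have := h O hO (t, x, 0)
  exact this

theorem eqv_lift {V : Fin 3 → B.Y → ℝ} (h : ∀ i, B.Ht T d (V i))
    (e : ∀ t ∈ Set.Ioo 0 T, B.Eqv (Gp : Set (E ≃ₗᵢ[ℝ] E)) fun i => B.sl (V i) t) :
    Eqv fun i => lift T (V i) := by
  intro O hO z
  by_cases hz : z ∈ Om T
  · have hz' : gz O z ∈ Om T := (En.gz_mem_Om O z).2 hz
    have e1 : ∀ y ∈ Om T, evv (fun i => lift T (V i)) y =
        B.vec (fun i => B.sl (V i) y.1) y.2.1 := by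
      intro y hy
      ext i
      exact ev_lift (h i) hy
    rw [e1 _ hz', e1 _ hz]
    exact e z.1 ⟨hz.1, hz.2.1⟩ O hO z.2.1 hz.2.2
  · have hz' : gz O z ∉ Om T := fun h' => hz ((En.gz_mem_Om O z).1 h')
    have e1 : ∀ y, y ∉ Om T → evv (fun i => lift T (V i)) y = 0 := by
      intro y hy
      ext i
      exact ev_out _ hy
    rw [e1 _ hz', e1 _ hz, map_zero]

theorem eqvM_res {F : Mat T} (h : EqvM F) (t : ℝ) (V : Fin 3 → E → ℝ)
    (hV : B.Eqv (Gp : Set (E ≃ₗᵢ[ℝ] E)) V) :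
    B.Eqv (Gp : Set (E ≃ₗᵢ[ℝ] E)) fun i a => ∑ j, res (F i j) (t, a) * V j a := by
  intro O hO x hx
  have e1 : ∀ a : E, B.vec (fun i a => ∑ j, res (F i j) (t, a) * V j a) a =
      evm F (t, a, 0) (B.vec V a) := by
    intro a
    ext i
    rw [En.evm_apply]
    rfl
  rw [e1, e1, hV O hO x hx]
  exact h O hO (t, x, 0) _

end Pool.Agent.Lib.MP_fbbbeb_an.Cas.Bs
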