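import Mathlib
import Pool.Agent.Lib.MP_fbbbeb_an.Cas.CycS
import Pool.Agent.Lib.MP_fbbbeb_an.Cas.Cen

/-! The Cauchy invariants and the Jacobian of an approximate solution. -/

set_option autoImplicit false

noncomputable section

namespace Pool.Agent.Lib.MP_fbbbeb_an.Cas

theorem defSt (hA : AlgSt) : DefSt := by
  refine ⟨18, fun T fr K θ ε c r w v X hfr h hw c0 hs => ?_⟩
  have K2 := h.K_two
  have hc : ∀ l, ∀ t ∈ Set.Ioo 0 T, 0 ≤ (fun _ : Fin 4 => c) l * w l t ∧
      (fun _ : Fin 4 => c) l * w l t ≤ K * c := fun l t ht =>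
    ⟨mul_nonneg c0 (hw.w_nonneg l t ht), by
      rw [mul_comm K c]
      exact mul_le_mul_of_nonneg_left ((hw.w_le l t ht).trans (hw.v_le l t ht)) c0⟩
  refine ⟨Cen.defect_mono (Cen.defect_of_st hA hfr h hc hs) le_rfl (le_of_eq (by ring)),
    fun z hz => ?_⟩
  have h1 := (abs_le.1 (Cen.det_of_st hfr h hc hs z hz)).1
  have h2 : K ^ 15 ≤ K ^ 18 := pow_le_pow_right₀ (by linarith) (by norm_num)
  have h3 : K ^ 14 * (K * c) = K ^ 15 * c := by ring
  have h4 := mul_le_mul_of_nonneg_right h2 c0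
  linarith

end Pool.Agent.Lib.MP_fbbbeb_an.Cas
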