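import Mathlib
import Pool.Agent.Lib.MP_fbbbeb_an.Cas.Defs

/-! Differentiation under the integral sign for elements of the algebra. -/

set_option autoImplicit false

noncomputable section

namespace Pool.Agent.Lib.MP_fbbbeb_an.Cas.ParI

open Pool.Agent.Lib.MP_fbbbeb_an.Pub MeasureTheory
open scoped ContDiff Topology

variable {T : ℝ}

/-- coordinate of a point along a letter -/
def co (v : Pt) : Let → ℝ
  | none => v.1
  | some (Sum.inl i) => v.2.1 i
  | some (Sum.inr j) => v.2.2 j

theorem sum_co (v : Pt) : ∑ i, co v i • vec i = v := by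
  rw [Fintype.sum_option, Fintype.sum_sum_type]
  refine Prod.ext ?_ (Prod.ext ?_ ?_)
  · simp [co, vec, Prod.fst_sum]
  · ext l
    simp [co, vec, Fin.sum_univ_three]
    fin_cases l <;> simp
  · ext l
    simp [co, vec, Fin.sum_univ_three]
    fin_cases l <;> simp

theorem abs_co_le (v : Pt) (i : Let) : |co v i| ≤ ‖v‖ := by
  rcases i with _ | i | j
  · exact (norm_fst_le v)
  · exact (PiLp.norm_apply_le v.2.1 i).trans ((norm_fst_le v.2).trans (norm_snd_le v))
  · exact (PiLp.norm_apply_le v.2.2 j).trans ((norm_snd_le v.2).trans (norm_snd_le v))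

theorem clm_apply (L : Pt →L[ℝ] ℝ) (v : Pt) : L v = ∑ i, co v i * L (vec i) := by
  conv_lhs => rw [← sum_co v]
  simp [map_sum]

theorem norm_clm_le (L : Pt →L[ℝ] ℝ) : ‖L‖ ≤ ∑ i, |L (vec i)| := by
  refine ContinuousLinearMap.opNorm_le_bound _ (Finset.sum_nonneg fun _ _ => abs_nonneg _) fun v => ?_
  rw [clm_apply, Finset.sum_mul]
  refine (norm_sum_le _ _).trans (Finset.sum_le_sum fun i _ => ?_)
  rw [Real.norm_eq_abs, abs_mul, mul_comm]
  exact mul_le_mul_of_nonneg_left (abs_co_le v i) (abs_nonneg _)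

theorem norm_fderiv_le (g : A T) {z : Pt} (hz : z ∈ Om T) :
    ‖fderiv ℝ (ev g) z‖ ≤ ∑ i, |ev (pd i g) z| := by
  simpa only [ev_pd _ g hz] using norm_clm_le (fderiv ℝ (ev g) z)

/-- a family of functions closed under directional derivatives consists of smooth functions -/
theorem smooth_of_family (F : Set (Pt → ℝ))
    (h : ∀ G ∈ F, (∀ z ∈ Om T, DifferentiableAt ℝ G z) ∧
      ∀ i, ∃ G' ∈ F, ∀ z ∈ Om T, fderiv ℝ G z (vec i) = G' z) :
    ∀ G ∈ F, ContDiffOn ℝ ∞ G (Om T) := by
  have key : ∀ n : ℕ, ∀ G ∈ F, ContDiffOn ℝ n G (Om T) := by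
    intro n
    induction n with
    | zero =>
      intro G hG
      exact contDiffOn_zero.2 fun z hz => ((h G hG).1 z hz).continuousAt.continuousWithinAt
    | succ n ih =>
      intro G hG
      rw [Nat.cast_succ, contDiffOn_succ_iff_fderiv_of_isOpen (isOpen_Om T)]
      refine ⟨fun z hz => ((h G hG).1 z hz).differentiableWithinAt, by simp, ?_⟩
      rw [contDiffOn_clm_apply]
      intro v
      choose G' hG' hv using (h G hG).2
      have : ContDiffOn ℝ n (fun z => ∑ i, co v i * G' i z) (Om T) :=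
        ContDiffOn.sum fun i _ => contDiffOn_const.mul (ih _ (hG' i))
      refine this.congr fun z hz => ?_
      rw [clm_apply]
      exact Finset.sum_congr rfl fun i _ => by rw [hv i z hz]
  intro G hG
  exact contDiffOn_infty.2 fun n => key n G hG

theorem cont_ev (g : A T) : ContinuousOn (ev g) (Om T) := (ev_smooth g).continuousOn

theorem cont_fderiv (g : A T) : ContinuousOn (fderiv ℝ (ev g)) (Om T) :=
  (ev_smooth g).continuousOn_fderiv_of_isOpen (isOpen_Om T) (by simp)

/-- differentiation under the integral sign along an affine family -/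
theorem par_fderiv (g : A T) {p q : ℝ} {c : ℝ → ℝ} {L : ℝ → Pt →L[ℝ] Pt} {b : ℝ → Pt}
    (hc : Continuous c) (hL : Continuous L) (hb : Continuous b)
    (hOm : ∀ s ∈ Set.Ioc p q, ∀ z ∈ Om T, L s z + b s ∈ Om T) {z0 : Pt} (hz0 : z0 ∈ Om T)
    {U : Set Pt} (hU : U ∈ 𝓝 z0) {B : ℝ}
    (hB : ∀ s ∈ Set.Ioc p q, ∀ z ∈ U ∩ Om T, |ev g (L s z + b s)| ≤ B ∧
      ∀ i, |ev (pd i g) (L s z + b s)| ≤ B) :
    DifferentiableAt ℝ (fun z => ∫ s in Set.Ioc p q, c s * ev g (L s z + b s)) z0 ∧
      ∀ v, fderiv ℝ (fun z => ∫ s in Set.Ioc p q, c s * ev g (L s z + b s)) z0 v =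
        ∫ s in Set.Ioc p q, c s * fderiv ℝ (ev g) (L s z0 + b s) (L s v) := by
  have hU' : U ∩ Om T ∈ 𝓝 z0 := Filter.inter_mem hU ((isOpen_Om T).mem_nhds hz0)
  have hz0' : z0 ∈ U ∩ Om T := mem_of_mem_nhds hU'
  have hpath : ∀ z : Pt, Continuous fun s => L s z + b s := fun z => by fun_prop
  have hmeas : ∀ z ∈ Om T, AEStronglyMeasurable (fun s => c s * ev g (L s z + b s))
      (volume.restrict (Set.Ioc p q)) := fun z hz =>
    (hc.continuousOn.mul ((cont_ev g).comp (hpath z).continuousOn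
      fun s hs => hOm s hs z hz)).aestronglyMeasurable measurableSet_Ioc
  have hmeas' : AEStronglyMeasurable
      (fun s => c s • (fderiv ℝ (ev g) (L s z0 + b s)).comp (L s))
      (volume.restrict (Set.Ioc p q)) :=
    (hc.continuousOn.smul (((cont_fderiv g).comp (hpath z0).continuousOn
      fun s hs => hOm s hs z0 hz0).clm_comp hL.continuousOn)).aestronglyMeasurable measurableSet_Ioc
  have hbi : Integrable (fun s => |c s| * ((7 * B) * ‖L s‖)) (volume.restrict (Set.Ioc p q)) :=
    (Continuous.integrableOn_Icc (by fun_prop)).mono_set Set.Ioc_subset_Icc_self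
  have hbd : ∀ s ∈ Set.Ioc p q, ∀ z ∈ U ∩ Om T,
      ‖c s • (fderiv ℝ (ev g) (L s z + b s)).comp (L s)‖ ≤ |c s| * ((7 * B) * ‖L s‖) := by
    intro s hs z hz
    rw [norm_smul, Real.norm_eq_abs]
    refine mul_le_mul_of_nonneg_left ((ContinuousLinearMap.opNorm_comp_le _ _).trans
      (mul_le_mul_of_nonneg_right ?_ (norm_nonneg _))) (abs_nonneg _)
    refine (norm_fderiv_le g (hOm s hs z hz.2)).trans ?_
    refine (Finset.sum_le_sum fun i _ => (hB s hs z hz).2 i).trans ?_
    simp
  have hint : Integrable (fun s => c s * ev g (L s z0 + b s)) (volume.restrict (Set.Ioc p q)) := by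
    have h1 : Integrable (fun s => |c s| * B) (volume.restrict (Set.Ioc p q)) :=
      (Continuous.integrableOn_Icc (by fun_prop)).mono_set Set.Ioc_subset_Icc_self
    refine h1.mono' (hmeas z0 hz0) ((ae_restrict_iff' measurableSet_Ioc).2
      (Filter.Eventually.of_forall fun s hs => ?_))
    rw [Real.norm_eq_abs, abs_mul]
    exact mul_le_mul_of_nonneg_left (hB s hs z0 hz0').1 (abs_nonneg _)
  have key := hasFDerivAt_integral_of_dominated_of_fderiv_le (𝕜 := ℝ)
    (F := fun z s => c s * ev g (L s z + b s))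
    (F' := fun z s => c s • (fderiv ℝ (ev g) (L s z + b s)).comp (L s))
    (μ := volume.restrict (Set.Ioc p q)) hU'
    (Filter.eventually_of_mem hU' fun z hz => hmeas z hz.2) hint hmeas'
    ((ae_restrict_iff' measurableSet_Ioc).2 (Filter.Eventually.of_forall hbd)) hbi
    ((ae_restrict_iff' measurableSet_Ioc).2 (Filter.Eventually.of_forall fun s hs z hz => by
      have h1 : HasFDerivAt (fun z => L s z + b s) (L s) z := (L s).hasFDerivAt.add_const _
      exact ((ev_diff g (hOm s hs z hz.2)).hasFDerivAt.comp z h1).const_mul (c s)))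
  refine ⟨key.differentiableAt, fun v => ?_⟩
  have hi' : Integrable (fun s => c s • (fderiv ℝ (ev g) (L s z0 + b s)).comp (L s))
      (volume.restrict (Set.Ioc p q)) :=
    hbi.mono' hmeas' ((ae_restrict_iff' measurableSet_Ioc).2
      (Filter.Eventually.of_forall fun s hs => hbd s hs z0 hz0'))
  rw [key.fderiv, ContinuousLinearMap.integral_apply hi']
  simp

end Pool.Agent.Lib.MP_fbbbeb_an.Cas.ParI
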