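import Mathlib
import Pool.Agent.Lib.MP_fbbbeb_an.Cas.Typ
import Pool.Agent.Lib.MP_fbbbeb_an.Cas.Ev
import Pool.Agent.Lib.MP_fbbbeb_an.Cas.ParI

/-! The primitive in time. -/

set_option autoImplicit false

noncomputable section

namespace Pool.Agent.Lib.MP_fbbbeb_an.Cas

open Pool.Agent.Lib.MP_fbbbeb_an.Pub MeasureTheory
open scoped ContDiff Topology RealInnerProductSpace Matrix Nat

variable {T : ℝ}

namespace TI

/-- all derivatives are bounded on the sphere -/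
def BW (f : A T) : Prop := ∀ u : List Let, ∃ M : ℝ, ∀ z ∈ Sp T, |ev (pw u f) z| ≤ M

theorem BW.pd {f : A T} (h : BW f) (i : Let) : BW (pd i f) := fun u => by
  rw [pw_pd]
  exact h (i :: u)

theorem BW.pw {f : A T} (h : BW f) (v : List Let) : BW (pw v f) := fun u => by
  rw [← pw_append]
  exact h _

theorem BW.mul (u : List Let) : ∀ {f g : A T}, BW f → BW g →
    ∃ M : ℝ, ∀ z ∈ Sp T, |ev (Cas.pw u (f * g)) z| ≤ M := by
  induction u with
  | nil =>
    intro f g hf hg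
    obtain ⟨M, hM⟩ := hf []
    obtain ⟨N, hN⟩ := hg []
    refine ⟨M * N, fun z hz => ?_⟩
    rw [pw_nil, ev_mul, abs_mul]
    exact mul_le_mul (hM z hz) (hN z hz) (abs_nonneg _) ((abs_nonneg _).trans (hM z hz))
  | cons i u ih =>
    intro f g hf hg
    obtain ⟨M, hM⟩ := ih hf (hg.pd i)
    obtain ⟨N, hN⟩ := ih hg (hf.pd i)
    refine ⟨M + N, fun z hz => ?_⟩
    rw [pw_cons, ← pw_pd, Derivation.leibniz, smul_eq_mul, smul_eq_mul, pw_add, ev_add]
    exact (abs_add_le _ _).trans (add_le_add (hM z hz) (hN z hz))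

theorem smul_mem {z : Pt} {s : ℝ} (hs : 0 < s) :
    ((z.1, s • z.2.1, z.2.2) : Pt) ∈ Om T ↔ z ∈ Om T := by
  simp [Om, hs.ne']

/-- a bound on the sphere gives a bound on every shell -/
theorem shell {d : ℤ} {h : A T} (hd : Hom d h) {M : ℝ} (hM : ∀ z ∈ Sp T, |ev h z| ≤ M) {α β : ℝ}
    (hα : 0 < α) : ∃ B : ℝ, 0 ≤ B ∧ ∀ z ∈ Om T, α ≤ ‖z.2.1‖ → ‖z.2.1‖ ≤ β → |ev h z| ≤ B := by
  obtain ⟨C, hC⟩ := (isCompact_Icc (a := α) (b := β)).exists_bound_of_continuousOn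
    (f := fun x : ℝ => x ^ d) (continuousOn_id.zpow₀ d fun x hx => Or.inl (hα.trans_le hx.1).ne')
  refine ⟨|C| * |M|, by positivity, fun z hz h1 h2 => ?_⟩
  have hn : 0 < ‖z.2.1‖ := hα.trans_le h1
  have h3 := hd (z.1, ‖z.2.1‖⁻¹ • z.2.1, z.2.2) ‖z.2.1‖ hn
  simp only [smul_smul, mul_inv_cancel₀ hn.ne', one_smul] at h3
  have h4 := hM (z.1, ‖z.2.1‖⁻¹ • z.2.1, z.2.2) ⟨hz.1, hz.2.1, by
    simp [norm_smul, inv_mul_cancel₀ hn.ne']⟩
  rw [h3, abs_mul]
  exact mul_le_mul ((hC _ ⟨h1, h2⟩).trans (le_abs_self C)) (h4.trans (le_abs_self M)) (abs_nonneg _)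
    (abs_nonneg _)

end TI

section
variable {d d' : ℤ} {f g : A T} {V : Vec T}

theorem Bdd.add (h : Bdd d f) (h' : Bdd d g) : Bdd d (f + g) := by
  refine ⟨h.1.add h'.1, fun u => ?_⟩
  obtain ⟨M, hM⟩ := h.2 u
  obtain ⟨N, hN⟩ := h'.2 u
  refine ⟨M + N, fun z hz => ?_⟩
  rw [pw_add, ev_add]
  exact (abs_add_le _ _).trans (add_le_add (hM z hz) (hN z hz))

theorem Bdd.sub (h : Bdd d f) (h' : Bdd d g) : Bdd d (f - g) := by
  refine ⟨h.1.sub h'.1, fun u => ?_⟩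
  obtain ⟨M, hM⟩ := h.2 u
  obtain ⟨N, hN⟩ := h'.2 u
  refine ⟨M + N, fun z hz => ?_⟩
  rw [pw_sub, ev_sub]
  exact (abs_sub _ _).trans (add_le_add (hM z hz) (hN z hz))

theorem Bdd.mul (h : Bdd d f) (h' : Bdd d' g) : Bdd (d + d') (f * g) :=
  ⟨h.1.mul h'.1, fun u => TI.BW.mul u h.2 h'.2⟩

theorem Bdd.pd_a (i : Fin 3) (h : Bdd d f) : Bdd (d - 1) (pd (la i) f) :=
  ⟨h.1.pd_a i, TI.BW.pd h.2 _⟩

theorem Bdd.pd_p (j : Fin 3) (h : Bdd d f) : Bdd d (pd (lp j) f) := ⟨h.1.pd_p j, TI.BW.pd h.2 _⟩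

theorem Bdd.pd_t (h : Bdd d f) : Bdd d (pd lt f) := ⟨h.1.pd_t, TI.BW.pd h.2 _⟩

theorem Bdd.pw (u : List Let) (h : Bdd d f) : Bdd (d - nla u) (pw u f) :=
  ⟨h.1.pw u, TI.BW.pw h.2 _⟩

theorem Bdd.pd (i : Let) (h : Bdd d f) : ∃ e, Bdd e (pd i f) := ⟨_, h.pw [i]⟩

theorem Bdd.shell (h : Bdd d f) {α β : ℝ} (hα : 0 < α) :
    ∃ B : ℝ, 0 ≤ B ∧ ∀ z ∈ Om T, α ≤ ‖z.2.1‖ → ‖z.2.1‖ ≤ β → |ev f z| ≤ B := by
  obtain ⟨M, hM⟩ := h.2 []
  exact TI.shell h.1 hM hα

/-- bound along a time line -/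
theorem Bdd.line (h : Bdd d f) (y : E × E) : ∃ B : ℝ, 0 ≤ B ∧ ∀ s : ℝ, |ev f (s, y)| ≤ B := by
  by_cases hy : y.1 = 0
  · exact ⟨0, le_rfl, fun s => by rw [ev_out f fun hz => hz.2.2 hy, abs_zero]⟩
  obtain ⟨B, hB0, hB⟩ := h.shell (β := ‖y.1‖) (norm_pos_iff.2 hy)
  refine ⟨B, hB0, fun s => ?_⟩
  by_cases hz : (s, y) ∈ Om T
  · exact hB _ hz le_rfl le_rfl
  · rw [ev_out f hz, abs_zero]
    exact hB0

theorem TI.cont_line (f : A T) {y : E × E} (hy : y.1 ≠ 0) :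
    ContinuousOn (fun s => ev f (s, y)) (Set.Ioo 0 T) :=
  (ParI.cont_ev f).comp (by fun_prop) fun s hs => ⟨hs.1, hs.2, hy⟩

theorem Bdd.intervalIntegrable (h : Bdd d f) {z : Pt} (hz : z ∈ Om T) :
    IntervalIntegrable (fun s => ev f (s, z.2)) MeasureTheory.volume 0 z.1 := by
  obtain ⟨B, -, hB⟩ := h.line z.2
  rw [intervalIntegrable_iff_integrableOn_Ioc_of_le hz.1.le]
  refine (integrable_const B).mono' (((TI.cont_line f hz.2.2).mono
    fun s hs => ⟨hs.1, hs.2.trans_lt hz.2.1⟩).aestronglyMeasurable measurableSet_Ioc)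
    (Filter.Eventually.of_forall hB)

namespace TI

def tiF (f : A T) (z : Pt) : ℝ := ∫ s in (0 : ℝ)..z.1, ev f (s, z.2)

/-- contraction of the time variable -/
def Lc (τ : ℝ) : Pt →L[ℝ] Pt :=
  τ • ((ContinuousLinearMap.inl ℝ ℝ (E × E)).comp (ContinuousLinearMap.fst ℝ ℝ (E × E))) +
    (ContinuousLinearMap.inr ℝ ℝ (E × E)).comp (ContinuousLinearMap.snd ℝ ℝ (E × E))

theorem Lc_apply (τ : ℝ) (z : Pt) : Lc τ z = (τ * z.1, z.2) := by simp [Lc]

theorem tiF_eq (f : A T) (z : Pt) :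
    tiF f z = z.1 * ∫ τ in Set.Ioc (0 : ℝ) 1, 1 * ev f (Lc τ z + 0) := by
  have h := intervalIntegral.smul_integral_comp_mul_right (a := 0) (b := 1)
    (fun s => ev f (s, z.2)) z.1
  rw [zero_mul, one_mul, intervalIntegral.integral_of_le zero_le_one, smul_eq_mul] at h
  simp only [tiF, ← h, Lc_apply, one_mul, add_zero]

theorem Lc_mem {τ : ℝ} (hτ : τ ∈ Set.Ioc (0 : ℝ) 1) {z : Pt} (hz : z ∈ Om T) :
    Lc τ z + 0 ∈ Om T := by
  rw [add_zero, Lc_apply]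
  exact ⟨mul_pos hτ.1 hz.1, (mul_le_of_le_one_left hz.1.le hτ.2).trans_lt hz.2.1, hz.2.2⟩

theorem tiF_fderiv (h : Bdd d f) {z : Pt} (hz : z ∈ Om T) :
    DifferentiableAt ℝ (tiF f) z ∧ fderiv ℝ (tiF f) z (vec lt) = ev f z ∧
      ∀ i, i ≠ lt → fderiv ℝ (tiF f) z (vec i) = tiF (pd i f) z := by
  have hn : 0 < ‖z.2.1‖ := norm_pos_iff.2 hz.2.2
  have hU : {y : Pt | ‖z.2.1‖ / 2 ≤ ‖y.2.1‖ ∧ ‖y.2.1‖ ≤ 2 * ‖z.2.1‖} ∈ 𝓝 z := by
    have hc : Continuous fun y : Pt => ‖y.2.1‖ := by fun_prop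
    exact hc.continuousAt.preimage_mem_nhds (Icc_mem_nhds (by linarith) (by linarith))
  obtain ⟨B0, hB0, h0⟩ := h.shell (β := 2 * ‖z.2.1‖) (half_pos hn)
  choose e he using fun i => h.pd i
  choose B hB hB' using fun i => (he i).shell (β := 2 * ‖z.2.1‖) (half_pos hn)
  have hs0 : 0 ≤ ∑ i, B i := Finset.sum_nonneg fun i _ => hB i
  have key := ParI.par_fderiv f (p := 0) (q := 1) (c := fun _ => 1) (L := Lc) (b := fun _ => 0)
    continuous_const (by unfold Lc; fun_prop) continuous_const (fun s hs y hy => Lc_mem hs hy) hz hU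
    (B := B0 + ∑ i, B i) (fun s hs y hy => by
      have h1 : ‖z.2.1‖ / 2 ≤ ‖(Lc s y + 0).2.1‖ := by simpa [Lc_apply] using hy.1.1
      have h2 : ‖(Lc s y + 0).2.1‖ ≤ 2 * ‖z.2.1‖ := by simpa [Lc_apply] using hy.1.2
      refine ⟨(h0 _ (Lc_mem hs hy.2) h1 h2).trans (by linarith), fun i => ?_⟩
      have h3 := hB' i _ (Lc_mem hs hy.2) h1 h2
      have h4 : B i ≤ ∑ i, B i := Finset.single_le_sum (fun i _ => hB i) (Finset.mem_univ i)
      linarith)
  have hfun : tiF f = fun y : Pt => y.1 * ∫ τ in Set.Ioc (0 : ℝ) 1, 1 * ev f (Lc τ y + 0) :=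
    funext (tiF_eq f)
  have hdiff : DifferentiableAt ℝ (tiF f) z := by
    rw [hfun]
    exact differentiableAt_fst.mul key.1
  refine ⟨hdiff, ?_, fun i hi => ?_⟩
  · have h1 : HasDerivAt (fun x : ℝ => ((x, z.2) : Pt)) (vec lt) z.1 :=
      (hasDerivAt_id z.1).prodMk (hasDerivAt_const _ _)
    have h2 : HasDerivAt (fun x : ℝ => tiF f (x, z.2)) (fderiv ℝ (tiF f) z (vec lt)) z.1 :=
      HasFDerivAt.comp_hasDerivAt (l := tiF f) (f := fun x : ℝ => ((x, z.2) : Pt)) z.1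
        hdiff.hasFDerivAt h1
    have hc := cont_line f hz.2.2
    have h3 := intervalIntegral.integral_hasDerivAt_right (h.intervalIntegrable hz)
      (hc.stronglyMeasurableAtFilter isOpen_Ioo z.1 ⟨hz.1, hz.2.1⟩)
      (hc.continuousAt (Ioo_mem_nhds hz.1 hz.2.1))
    exact h2.unique h3
  · have hv : (vec i).1 = 0 := by
      rcases i with _ | i | i
      · exact absurd rfl hi
      · rfl
      · rfl
    have hL : ∀ τ, Lc τ (vec i) = vec i := fun τ => by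
      rw [Lc_apply, hv, mul_zero, ← hv]
    rw [hfun, fderiv_fun_mul differentiableAt_fst key.1, tiF_eq, add_apply, smul_apply, smul_apply,
      key.2, fderiv_fst, ContinuousLinearMap.coe_fst', hv, smul_zero, add_zero, smul_eq_mul]
    congr 1
    refine setIntegral_congr_fun measurableSet_Ioc fun s hs => ?_
    simp only [ev_pd i f (Lc_mem hs hz), hL]

theorem good_tiF (h : Bdd d f) : Good T (tiF f) := by
  refine ⟨ParI.smooth_of_family (T := T)
    {G | (∃ (e : ℤ) (g : A T), Bdd e g ∧ G = tiF g) ∨ ∃ g : A T, G = ev g} ?_ _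
    (Or.inl ⟨d, f, h, rfl⟩), fun l z _ => ?_⟩
  · rintro _ (⟨e, g, hg, rfl⟩ | ⟨g, rfl⟩)
    · refine ⟨fun z hz => (tiF_fderiv hg hz).1, fun i => ?_⟩
      by_cases hi : i = lt
      · exact ⟨_, Or.inr ⟨g, rfl⟩, fun z hz => hi ▸ (tiF_fderiv hg hz).2.1⟩
      · obtain ⟨e', he'⟩ := hg.pd i
        exact ⟨_, Or.inl ⟨e', _, he', rfl⟩, fun z hz => (tiF_fderiv hg hz).2.2 i hi⟩
    · exact ⟨fun z hz => ev_diff g hz, fun i => ⟨_, Or.inr ⟨pd i g, rfl⟩,
        fun z hz => (ev_pd i g hz).symm⟩⟩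
  · have h1 : (z + (2 * Real.pi) • vec (lp l)).1 = z.1 := by simp [vec]
    have h2 : ∀ s : ℝ, ((s, (z + (2 * Real.pi) • vec (lp l)).2) : Pt) =
        (s, z.2) + (2 * Real.pi) • vec (lp l) := fun s => by simp [vec]
    simp only [tiF, h1, h2, ev_per]

end TI

theorem ev_tI (h : Bdd d f) {z : Pt} (hz : z ∈ Om T) :
    ev (tI f) z = ∫ s in (0 : ℝ)..z.1, ev f (s, z.2) := ev_mkA (TI.good_tiF h) hz

theorem TI.fderiv_tI (h : Bdd d f) {z : Pt} (hz : z ∈ Om T) :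
    fderiv ℝ (ev (tI f)) z = fderiv ℝ (TI.tiF f) z :=
  Filter.EventuallyEq.fderiv_eq
    (Filter.eventually_of_mem ((isOpen_Om T).mem_nhds hz) fun _ hy => ev_tI h hy)

theorem pd_t_tI (h : Bdd d f) : pd lt (tI f) = f :=
  A_ext fun z hz => by rw [ev_pd _ _ hz, TI.fderiv_tI h hz, (TI.tiF_fderiv h hz).2.1]

theorem pd_tI (h : Bdd d f) {i : Let} (hi : i ≠ lt) : pd i (tI f) = tI (pd i f) := by
  obtain ⟨e, he⟩ := h.pd i
  exact A_ext fun z hz => by
    rw [ev_pd _ _ hz, TI.fderiv_tI h hz, (TI.tiF_fderiv h hz).2.2 i hi, ev_tI he hz]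
    rfl

theorem pw_tI (h : Bdd d f) {u : List Let} (hu : lt ∉ u) : pw u (tI f) = tI (pw u f) := by
  induction u with
  | nil => rfl
  | cons i u ih =>
    rw [List.mem_cons, not_or] at hu
    rw [pw_cons, pw_cons, ih hu.2, pd_tI (h.pw u) (Ne.symm hu.1)]

/-- a word with the time letter undoes the primitive -/
theorem pw_tI_mem (h : Bdd d f) {u v : List Let} (hu : u.Perm (lt :: v)) :
    pw u (tI f) = pw v f := by
  rw [pw_perm hu, pw_cons, ← pw_pd, pd_t_tI h]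

theorem TI.perm_of_mem {u : List Let} (hu : lt ∈ u) : ∃ v, u.Perm (lt :: v) := by
  obtain ⟨a, b, rfl⟩ := List.append_of_mem hu
  exact ⟨a ++ b, List.perm_middle⟩

theorem abs_ev_tI_le (h : Bdd d f) {z : Pt} (hz : z ∈ Om T) {B : ℝ}
    (hB : ∀ s ∈ Set.Ioo 0 T, |ev f (s, z.2)| ≤ B) : |ev (tI f) z| ≤ B * z.1 := by
  rw [ev_tI h hz]
  have := intervalIntegral.norm_integral_le_of_norm_le_const (a := 0) (b := z.1) (C := B)
    (f := fun s => ev f (s, z.2)) fun s hs => by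
      rw [Set.uIoc_of_le hz.1.le] at hs
      exact hB s ⟨hs.1, hs.2.trans_lt hz.2.1⟩
  rwa [sub_zero, abs_of_pos hz.1] at this

theorem Bdd.hom_tI (h : Bdd d f) : Hom d (tI f) := by
  intro z s hs
  by_cases hz : z ∈ Om T
  · rw [ev_tI h ((TI.smul_mem hs).2 hz), ev_tI h hz, ← intervalIntegral.integral_const_mul]
    exact intervalIntegral.integral_congr fun x _ => h.1 (x, z.2) s hs
  · rw [ev_out _ hz, ev_out _ fun h => hz ((TI.smul_mem hs).1 h), mul_zero]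

theorem Bdd.tI (h : Bdd d f) : Bdd d (tI f) := by
  refine ⟨h.hom_tI, fun u => ?_⟩
  by_cases hu : lt ∈ u
  · obtain ⟨v, hv⟩ := TI.perm_of_mem hu
    rw [pw_tI_mem h hv]
    exact h.2 _
  · obtain ⟨M, hM⟩ := h.2 u
    refine ⟨|M| * T, fun z hz => ?_⟩
    rw [pw_tI h hu]
    refine (abs_ev_tI_le (h.pw u) (Sp_sub T hz) (B := |M|) fun s hs =>
      (hM (s, z.2) ⟨hs.1, hs.2, hz.2.2⟩).trans (le_abs_self M)).trans ?_
    exact mul_le_mul_of_nonneg_left hz.2.1.le (abs_nonneg _)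

theorem Bdd.zero : Bdd d (0 : A T) := ⟨Hom.zero, fun u => ⟨0, fun z _ => by simp⟩⟩

theorem tI_zero : tI (0 : A T) = 0 :=
  A_ext fun z hz => by simp [ev_tI (Bdd.zero (d := 0)) hz]

theorem TI.tI_of {h : A T} {c : ℝ} (hf : Bdd d f) (hg : Bdd d' g)
    (hh : ∀ z, ev h z = ev f z + c * ev g z) : tI h = tI f + c • tI g := by
  have key : ∀ z ∈ Om T, TI.tiF h z = ev (tI f + c • tI g) z := fun z hz => by
    rw [ev_add, ev_smul, ev_tI hf hz, ev_tI hg hz, ← intervalIntegral.integral_const_mul,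
      ← intervalIntegral.integral_add (hf.intervalIntegrable hz)
        ((hg.intervalIntegrable hz).const_mul c)]
    simp only [TI.tiF, hh]
  exact A_ext fun z hz => (ev_mkA ((ev_good _).congr key) hz).trans (key z hz)

theorem tI_add (h : Bdd d f) (h' : Bdd d' g) : tI (f + g) = tI f + tI g := by
  rw [TI.tI_of (c := 1) h h' fun z => by rw [ev_add, one_mul], one_smul]

theorem tI_sub (h : Bdd d f) (h' : Bdd d' g) : tI (f - g) = tI f - tI g := by
  rw [TI.tI_of (c := -1) h h' fun z => by rw [ev_sub]; ring, neg_one_smul, sub_eq_add_neg]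

theorem tI_smul (c : ℝ) (h : Bdd d f) : tI (c • f) = c • tI f := by
  rw [TI.tI_of (c := c) (Bdd.zero (d := 0)) h fun z => by simp, tI_zero, zero_add]

theorem tI_mul_left (hg : pd lt g = 0) (hg' : Bdd d' g) (h : Bdd d f) : tI (g * f) = g * tI f := by
  refine A_ext fun z hz => ?_
  rw [ev_tI (hg'.mul h) hz, ev_mul, ev_tI h hz, ← intervalIntegral.integral_const_mul,
    intervalIntegral.integral_of_le hz.1.le, intervalIntegral.integral_of_le hz.1.le]
  refine setIntegral_congr_fun measurableSet_Ioc fun s hs => ?_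
  have := ev_of_pd_t hg (s := s) (t := z.1) (y := z.2) ⟨hs.1, hs.2.trans_lt hz.2.1, hz.2.2⟩ hz
  simp only [ev_mul, this]

theorem In.tI {l : Fin 4} (h : Bdd d f) (hl : In l f) : In l (tI f) := fun j hj => by
  rw [pd_tI h (by simp), hl j hj, tI_zero]

theorem Ty.tI {fr : Frame T} (hfr : fr.Ok) {l : Fin 4} (h : Bdd d f) (hl : Ty fr l f) :
    Ty fr l (tI f) := by
  refine ⟨In.tI h hl.1, fun z hz => ?_⟩
  by_cases hz' : z ∈ Om T
  · have : ∀ s : ℝ, ev f (s, z.2) = 0 := fun s => hl.2 _ fun hs => hz (hfr.env_t l _ hs z.1)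
    simp [ev_tI h hz', this]
  · exact ev_out _ hz'

theorem InvG.tI (h : Bdd d f) (hf : InvG f) : InvG (tI f) := by
  intro g hg z
  have hm : gz g z ∈ Om T ↔ z ∈ Om T := by simp [gz, Om]
  by_cases hz : z ∈ Om T
  · rw [ev_tI h hz, ev_tI h (hm.2 hz)]
    exact intervalIntegral.integral_congr fun s _ => hf g hg (s, z.2)
  · rw [ev_out _ hz, ev_out _ fun h => hz (hm.1 h)]

theorem Eqv.tIv (h : ∀ i, Bdd d (V i)) (hV : Eqv V) : Eqv (tIv V) := by
  intro g hg z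
  have hm : gz g z ∈ Om T ↔ z ∈ Om T := by simp [gz, Om]
  obtain ⟨c, σ, -, hσ⟩ := id hg
  ext i
  rw [hσ]
  show ev (tI (V i)) (gz g z) = σ i * ev (tI (V (i + c))) z
  by_cases hz : z ∈ Om T
  · rw [ev_tI (h _) hz, ev_tI (h _) (hm.2 hz), ← intervalIntegral.integral_const_mul]
    refine intervalIntegral.integral_congr fun s _ => ?_
    have := congrArg (fun x : E => x i) (hV g hg (s, z.2))
    simp only [hσ] at this
    exact this
  · rw [ev_out _ hz, ev_out _ fun h => hz (hm.1 h), mul_zero]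

/-- all derivatives without the time letter vanish at time zero -/
theorem van_pw_tIv (h : ∀ i, Bdd d (V i)) {u : List Let} (hu : lt ∉ u) :
    Van fun i => pw u (tIv V i) := by
  intro y
  choose B hB0 hB using fun i => ((h i).pw u).line y
  have hlim : Filter.Tendsto (fun t : ℝ => 2 * ((∑ i, B i) * t)) (𝓝[>] 0) (𝓝 0) := by
    have : Continuous fun t : ℝ => 2 * ((∑ i, B i) * t) := by fun_prop
    simpa using (this.tendsto 0).mono_left nhdsWithin_le_nhds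
  refine squeeze_zero_norm' (Filter.eventually_of_mem self_mem_nhdsWithin fun t ht => ?_) hlim
  refine norm_evv_le fun i => ?_
  have h1 : B i ≤ ∑ i, B i := Finset.single_le_sum (fun i _ => hB0 i) (Finset.mem_univ i)
  have h2 : B i * t ≤ (∑ i, B i) * t := mul_le_mul_of_nonneg_right h1 (le_of_lt ht)
  by_cases hz : (t, y) ∈ Om T
  · show |ev (pw u (tI (V i))) (t, y)| ≤ _
    rw [pw_tI (h i) hu]
    exact (abs_ev_tI_le ((h i).pw u) hz fun s _ => hB i s).trans h2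
  · rw [ev_out _ hz, abs_zero]
    exact (mul_nonneg (hB0 i) (le_of_lt ht)).trans h2

theorem TI.int_exp {lam t : ℝ} (hlam : 0 < lam) :
    ∫ s in (0 : ℝ)..t, Real.exp (-(lam * (t - s))) ≤ 1 / lam := by
  have hd : ∀ s ∈ Set.uIcc (0 : ℝ) t, HasDerivAt (fun s => Real.exp (-(lam * (t - s))) / lam)
      (Real.exp (-(lam * (t - s)))) s := fun s _ => by
    have h1 : HasDerivAt (fun s => -(lam * (t - s))) lam s := by
      have h0 := (((hasDerivAt_id s).const_sub t).const_mul lam).fun_neg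
      rw [mul_neg, mul_one, neg_neg] at h0
      exact h0
    have := h1.exp.div_const lam
    rwa [mul_div_assoc, div_self hlam.ne', mul_one] at this
  rw [intervalIntegral.integral_eq_sub_of_hasDerivAt hd
    (Continuous.intervalIntegrable (by fun_prop) _ _)]
  have : 0 < Real.exp (-(lam * (t - 0))) / lam := by positivity
  simp only [sub_self, mul_zero, neg_zero, Real.exp_zero]
  linarith

theorem GB.tI {r : Let → ℝ} {w : ℝ → ℝ} {M lam L : ℝ} (hr : ∀ i, 0 < r i) (hM : 0 ≤ M)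
    (hlam : 0 < lam) (hw : Grow T lam w) (hL : ∀ t ∈ Set.Ioo 0 T, w t ≤ L) (h : GB d r w M f) :
    GB d r w ((1 / lam + r lt) * M) (tI f) := by
  have hb : Bdd d f := h.bdd hr (L := M * L) fun t ht => mul_le_mul_of_nonneg_left (hL t ht) hM
  refine ⟨hb.hom_tI, fun z hz u => ?_⟩
  have hw0 : 0 ≤ M * w z.1 := mul_nonneg hM (hw.1 _ ⟨hz.1, hz.2.1⟩)
  have hF : (0 : ℝ) ≤ ((u.length ! : ℕ) : ℝ) ^ 2 := by positivity
  have hl : 0 < 1 / lam := by positivity
  have hrt := hr lt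
  by_cases hu : lt ∈ u
  · obtain ⟨v, hp⟩ := TI.perm_of_mem hu
    rw [pw_tI_mem hb hp, rpr_perm r hp, rpr_cons]
    have h1 := h.2 z hz v
    have h2 : ((v.length ! : ℕ) : ℝ) ^ 2 ≤ ((u.length ! : ℕ) : ℝ) ^ 2 := by
      have : v.length ! ≤ u.length ! := Nat.factorial_le (by rw [hp.length_eq]; simp)
      gcongr
    calc _ = r lt * (|ev (pw v f) z| * rpr r v) := by ring
      _ ≤ r lt * (M * w z.1 * ((u.length ! : ℕ) : ℝ) ^ 2) :=
        mul_le_mul_of_nonneg_left (h1.trans (mul_le_mul_of_nonneg_left h2 hw0)) hrt.le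
      _ ≤ (1 / lam + r lt) * (M * w z.1 * ((u.length ! : ℕ) : ℝ) ^ 2) :=
        mul_le_mul_of_nonneg_right (by linarith) (mul_nonneg hw0 hF)
      _ = _ := by ring
  · have hρ := rpr_pos hr u
    have hz' := Sp_sub T hz
    rw [pw_tI hb hu, ev_tI (hb.pw u) hz', ← abs_of_pos hρ, ← abs_mul,
      ← intervalIntegral.integral_mul_const]
    have h1 := intervalIntegral.norm_integral_le_of_norm_le (μ := volume) hz.1.le
      (f := fun s => ev (pw u f) (s, z.2) * rpr r u)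
      (g := fun s => M * w z.1 * ((u.length ! : ℕ) : ℝ) ^ 2 * Real.exp (-(lam * (z.1 - s))))
      (Filter.Eventually.of_forall fun s hs => by
        rw [Real.norm_eq_abs, abs_mul, abs_of_pos hρ]
        refine (h.2 (s, z.2) ⟨hs.1, hs.2.trans_lt hz.2.1, hz.2.2⟩ u).trans ?_
        have := mul_le_mul_of_nonneg_left (hw.2 s z.1 hs.1 hs.2 hz.2.1) (mul_nonneg hM hF)
        show M * w s * _ ≤ _
        linarith)
      (Continuous.intervalIntegrable (by fun_prop) _ _)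
    rw [intervalIntegral.integral_const_mul] at h1
    refine h1.trans ?_
    calc _ ≤ M * w z.1 * ((u.length ! : ℕ) : ℝ) ^ 2 * (1 / lam + r lt) :=
          mul_le_mul_of_nonneg_left ((TI.int_exp hlam).trans (by linarith)) (mul_nonneg hw0 hF)
      _ = _ := by ring

end

end Pool.Agent.Lib.MP_fbbbeb_an.Cas
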