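import Mathlib
import Pool.Agent.Lib.MP_fbbbeb_an.Cas.SolvS
import Pool.Agent.Lib.MP_fbbbeb_an.Cas.TInt
import Pool.Agent.Lib.MP_fbbbeb_an.Cas.EvG

/-! The finite Neumann series of the projected system. -/

set_option autoImplicit false

noncomputable section

namespace Pool.Agent.Lib.MP_fbbbeb_an.Cas

open Pool.Agent.Lib.MP_fbbbeb_an.Pub
open scoped ContDiff Topology RealInnerProductSpace Matrix Nat

namespace SC

variable {T : ℝ}

/-- integrands of the series -/
def gs (M : Mat T) (h : Vec T) : ℕ → Vec T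
  | 0 => h
  | n + 1 => M *ᵥ tIv (gs M h n)

/-- the exponential weight -/
def we (lam : ℝ) : ℝ → ℝ := fun t => Real.exp (lam * t)

theorem we_grow (T lam : ℝ) : Grow T lam (we lam) := by
  refine ⟨fun t _ => (Real.exp_pos _).le, fun s t _ _ _ => le_of_eq ?_⟩
  unfold we
  rw [← Real.exp_add]
  congr 1
  ring

theorem we_le {lam : ℝ} (hlam : 0 < lam) (hT : T ≤ 1) :
    ∀ t ∈ Set.Ioo 0 T, we lam t ≤ Real.exp lam := fun t ht =>
  Real.exp_le_exp.2 (by nlinarith [ht.1, ht.2])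

theorem one_le_we {lam : ℝ} (hlam : 0 < lam) : ∀ t ∈ Set.Ioo 0 T, 1 ≤ we lam t := fun t ht =>
  Real.one_le_exp (by nlinarith [ht.1])

theorem tIv_gb {r : Let → ℝ} (hr : ∀ i, 0 < r i) (hT : T ≤ 1) {B : ℝ} (hB : 0 ≤ B) {V : Vec T}
    (hV : GBv 1 r (we (1 / r lt)) B V) : GBv 1 r (we (1 / r lt)) (2 * r lt * B) (tIv V) := by
  intro i
  have hlam : 0 < 1 / r lt := one_div_pos.2 (hr lt)
  have h := GB.tI hr hB hlam (we_grow T _) (we_le hlam hT) (hV i)
  rw [one_div_one_div, ← two_mul] at h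
  exact h

theorem gs_gb {r : Let → ℝ} (hr : ∀ i, 0 < r i) (hT : T ≤ 1) {K B : ℝ} (hK : 0 ≤ K)
    (hs : 100 * K * r lt ≤ 1) (hB : 0 ≤ B) {M : Mat T} (hM : GBm 0 r w1 K M) {h : Vec T}
    (hh : GBv 1 r (we (1 / r lt)) B h) (n : ℕ) :
    GBv 1 r (we (1 / r lt)) (B / 2 ^ n) (gs M h n) := by
  have hr0 : ∀ i, 0 ≤ r i := fun i => (hr i).le
  induction n with
  | zero => simpa [gs] using hh
  | succ n ih =>
    have hB' : 0 ≤ B / 2 ^ n := by positivity
    have h1 := GBm.mulVec hr0 hM (tIv_gb hr hT hB' ih)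
    rw [w1_mul, zero_add] at h1
    refine GBv.mono h1 hr0 (fun _ => le_rfl) fun t _ => ?_
    refine mul_le_mul_of_nonneg_right ?_ (Real.exp_pos _).le
    have h2 : B / 2 ^ (n + 1) = 1 / 2 * (B / 2 ^ n) := by rw [pow_succ]; field_simp
    rw [h2]
    have h3 : 9 * (K * (2 * r lt * (B / 2 ^ n))) = 18 * (K * r lt) * (B / 2 ^ n) := by ring
    rw [h3]
    exact mul_le_mul_of_nonneg_right (by nlinarith) hB'

theorem van_sum {ι : Type*} (s : Finset ι) {V : ι → Vec T} (h : ∀ k ∈ s, Van (V k)) :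
    Van (∑ k ∈ s, V k) := by
  intro y
  have h1 := tendsto_finsetSum s fun k hk => h k hk y
  simp only [Finset.sum_const_zero] at h1
  simpa only [evv_sum] using h1

theorem dtv_tIv {V : Vec T} (h : ∀ i, Bdd 1 (V i)) : dtv (tIv V) = V :=
  funext fun i => pd_t_tI (h i)

theorem dtv_sum {ι : Type*} (s : Finset ι) (V : ι → Vec T) :
    dtv (∑ k ∈ s, V k) = ∑ k ∈ s, dtv (V k) := by
  funext i
  simp [dtv, Finset.sum_apply, map_sum]

end SC

open SC in
theorem solvCSt : SolvCSt := by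
  intro T fr l M h w K c ε' wmin r hfr hT hK hr hs hc hε hwm hw hM hMin hMe hty hhe hh
  have hr0 : ∀ i, 0 ≤ r i := fun i => (hr i).le
  have hlam : 0 < 1 / r lt := one_div_pos.2 (hr lt)
  have hK0 : 0 ≤ K := by linarith
  have hB : 0 ≤ c * K := mul_nonneg hc hK0
  have hh' : GBv 1 r (we (1 / r lt)) (c * K) h := by
    refine GBv.mono hh hr0 (fun _ => le_rfl) fun t ht => ?_
    have h1 := (hw t ht).2
    have h2 := one_le_we (T := T) hlam t ht
    calc c * w t ≤ c * K := mul_le_mul_of_nonneg_left h1 hc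
      _ = c * K * 1 := (mul_one _).symm
      _ ≤ _ := mul_le_mul_of_nonneg_left h2 hB
  have hg := gs_gb hr hT hK0 hs hB hM hh'
  have hbd : ∀ n i, Bdd 1 (gs M h n i) := fun n i =>
    GB.bdd hr (L := c * K / 2 ^ n * Real.exp (1 / r lt))
      (fun t ht => mul_le_mul_of_nonneg_left (we_le hlam hT t ht) (by positivity)) (hg n i)
  have hgty : ∀ n, Tyv fr l (gs M h n) := by
    intro n
    induction n with
    | zero => exact hty
    | succ n ih => exact Tyv.mulVec hMin fun i => Ty.tI hfr (hbd n i) (ih i)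
  have hge : ∀ n, Eqv (gs M h n) := by
    intro n
    induction n with
    | zero => exact hhe
    | succ n ih => exact EqvM.mulVec hMe (Eqv.tIv (hbd n) ih)
  obtain ⟨n, hn⟩ : ∃ n : ℕ, (1 / 2 : ℝ) ^ n < ε' * wmin / Real.exp (1 / r lt) :=
    exists_pow_lt_of_lt_one (by positivity) (by norm_num)
  refine ⟨∑ k ∈ Finset.range (n + 1), tIv (gs M h k), tIv (gs M h n), ?_, ?_, ?_, ?_, ?_, ?_, ?_,
    ?_⟩
  · rw [dtv_sum, Finset.sum_congr rfl fun k _ => dtv_tIv (hbd k), Finset.sum_range_succ',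
      Finset.sum_range_succ, add_sub_cancel_right, Matrix.mulVec_sum]
    rfl
  · intro i
    rw [Finset.sum_apply]
    exact Ty.sum _ fun k _ => Ty.tI hfr (hbd k i) (hgty k i)
  · exact fun i => Ty.tI hfr (hbd n i) (hgty n i)
  · exact Eqv.sum _ fun k _ => Eqv.tIv (hbd k) (hge k)
  · intro u hu
    have h1 : (fun i => pw u ((∑ k ∈ Finset.range (n + 1), tIv (gs M h k)) i)) =
        ∑ k ∈ Finset.range (n + 1), fun i => pw u (tIv (gs M h k) i) := by
      funext i
      rw [Finset.sum_apply, Finset.sum_apply, pw_sum]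
    rw [h1]
    exact van_sum _ fun k _ => van_pw_tIv (hbd k) hu
  · intro i
    rw [Finset.sum_apply]
    exact Hom.sum _ fun k _ => (Bdd.tI (hbd k i)).1
  · have hB' : 0 ≤ c * K / 2 ^ n := by positivity
    refine GBv.mono (tIv_gb hr hT hB' (hg n)) hr0 (fun _ => le_rfl) fun t ht => ?_
    have h1 := we_le hlam hT t ht
    have h2 := (hw t ht).1
    have he := Real.exp_pos (1 / r lt)
    rw [lt_div_iff₀ he] at hn
    have h3 : 2 * r lt * (c * K / 2 ^ n) = 2 * (K * r lt) * (c * (1 / 2) ^ n) := by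
      rw [one_div, inv_pow]; field_simp
    have h4 : 0 ≤ c * (1 / 2 : ℝ) ^ n := by positivity
    have h5 : 2 * r lt * (c * K / 2 ^ n) ≤ c * (1 / 2) ^ n := by
      rw [h3]; nlinarith
    calc 2 * r lt * (c * K / 2 ^ n) * we (1 / r lt) t
        ≤ c * (1 / 2) ^ n * Real.exp (1 / r lt) :=
          mul_le_mul h5 h1 (Real.exp_pos _).le h4
      _ = c * ((1 / 2) ^ n * Real.exp (1 / r lt)) := by ring
      _ ≤ c * (ε' * wmin) := mul_le_mul_of_nonneg_left hn.le hc
      _ = ε' * c * wmin := by ring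
      _ ≤ ε' * c * w t := mul_le_mul_of_nonneg_left h2 (by positivity)
  · intro l' hM' hh''
    have hin : ∀ k, InV l' (gs M h k) := by
      intro k
      induction k with
      | zero => exact hh''
      | succ k ih => exact In.mulVec hM' fun i => In.tI (hbd k i) (ih i)
    refine ⟨fun i => ?_, fun i => In.tI (hbd n i) (hin n i)⟩
    rw [Finset.sum_apply]
    exact In.sum _ fun k _ => In.tI (hbd k i) (hin k i)

end Pool.Agent.Lib.MP_fbbbeb_an.Cas
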